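import Mathlib
import Pool.Agent.Work.MP_4523ee_co.Fp.End

-- merged part: Pool.Agent.Work.MP_4523ee_co.F2.End2
section
/-!
Fourier analysis on symmetric matrices in every characteristic (characters `chQ Q`, level = rank
of the polar matrix `Q + Qᵀ`), Gauss sums and the final contradiction.
-/

set_option autoImplicit false
set_option linter.unusedSectionVars false

namespace Pool.Agent.Work.MP_4523ee_co.F2

open Pool.Agent.Work.MP_4523ee_co.Fp
open Finset hiding dens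
open Matrix
open scoped BigOperators ComplexConjugate

variable {p : ℕ} [Fact p.Prime]

variable {ν ν' : Type} [Fintype ν] [DecidableEq ν] [Fintype ν'] [DecidableEq ν']

/-- the linear functional on `SymM` given by a matrix -/
def toD (Q : Matrix ν ν (ZMod p)) : Module.Dual (ZMod p) (SymM p ν) where
  toFun M := ∑ i, ∑ j, M.1 i j * Q i j
  map_add' M N := by simp only [Submodule.coe_add, Matrix.add_apply, add_mul, sum_add_distrib]
  map_smul' c M := by
    simp only [Submodule.coe_smul, Matrix.smul_apply, smul_eq_mul, RingHom.id_apply, mul_sum,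
      mul_assoc]

lemma chQ_eq (Q : Matrix ν ν (ZMod p)) (M : SymM p ν) : chQ Q M = ee (toD Q M) := rfl

lemma toD_surj (φ : Module.Dual (ZMod p) (SymM p ν)) : ∃ Q, toD Q = φ := by
  obtain ⟨ψ, hψ⟩ := LinearMap.exists_extend φ
  refine ⟨Matrix.of fun i j => ψ (Matrix.single i j 1), LinearMap.ext fun M => ?_⟩
  rw [← hψ]
  show ∑ i, ∑ j, M.1 i j * ψ (Matrix.single i j 1) = ψ M.1
  conv_rhs => rw [Matrix.matrix_eq_sum_single M.1]
  simp only [map_sum]
  refine sum_congr rfl fun i _ => sum_congr rfl fun j _ => ?_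
  rw [← smul_eq_mul, ← map_smul, Matrix.smul_single, smul_eq_mul, mul_one]

/-- a matrix representing a functional -/
noncomputable def Qof (φ : Module.Dual (ZMod p) (SymM p ν)) : Matrix ν ν (ZMod p) :=
  (toD_surj φ).choose

lemma toD_Qof (φ : Module.Dual (ZMod p) (SymM p ν)) : toD (Qof φ) = φ := (toD_surj φ).choose_spec

lemma chQ_Qof (φ : Module.Dual (ZMod p) (SymM p ν)) (M : SymM p ν) :
    chQ (Qof φ) M = ee (φ M) := by rw [chQ_eq, toD_Qof]

/-- the polar matrix only depends on the functional -/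
lemma pol_eq {Q Q' : Matrix ν ν (ZMod p)} (h : toD Q = toD Q') : Q + Qᵀ = Q' + Q'ᵀ := by
  ext a b
  have hs : (Matrix.single a b (1 : ZMod p) + Matrix.single b a 1) ∈ SymM p ν := by
    show (Matrix.single a b (1 : ZMod p) + Matrix.single b a 1)ᵀ = _
    rw [transpose_add, transpose_single, transpose_single, add_comm]
  have k1 : ∑ i, ∑ j, (Matrix.single a b (1 : ZMod p) + Matrix.single b a 1 :
      Matrix ν ν (ZMod p)) i j * Q i j = ∑ i, ∑ j, (Matrix.single a b (1 : ZMod p) +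
      Matrix.single b a 1 : Matrix ν ν (ZMod p)) i j * Q' i j := DFunLike.congr_fun h ⟨_, hs⟩
  simp only [Matrix.add_apply, add_mul, sum_add_distrib, four_single] at k1
  exact k1

lemma chQ_congr {Q Q' : Matrix ν ν (ZMod p)} (h : toD Q = toD Q') : chQ Q = chQ Q' :=
  funext fun M => by rw [chQ_eq, chQ_eq, h]

lemma orth2 {Q Q' : Matrix ν ν (ZMod p)} (h : toD Q ≠ toD Q') :
    𝔼 M : SymM p ν, chQ Q M * conj (chQ Q' M) = 0 := by
  rw [← expect_ee_lin (toD Q - toD Q') (sub_ne_zero.2 h)]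
  refine expect_congr rfl fun M _ => ?_
  rw [chQ_eq, chQ_eq, conj_ee, ← ee_add, LinearMap.sub_apply, sub_eq_add_neg]

lemma chQ_mul_conj (Q : Matrix ν ν (ZMod p)) (M : SymM p ν) : chQ Q M * conj (chQ Q M) = 1 := by
  rw [Complex.mul_conj, Complex.normSq_eq_norm_sq, norm_chQ]
  simp

/-- Fourier coefficient at an arbitrary matrix -/
noncomputable def fq (G : SymM p ν → ℂ) (Q : Matrix ν ν (ZMod p)) : ℂ :=
  𝔼 M, G M * conj (chQ Q M)

lemma four_inv2 (G : SymM p ν → ℂ) (M : SymM p ν) :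
    G M = ∑ φ : Module.Dual (ZMod p) (SymM p ν), fq G (Qof φ) * chQ (Qof φ) M := by
  classical
  have c : (Fintype.card (SymM p ν) : ℂ) ≠ 0 := Nat.cast_ne_zero.2 Fintype.card_ne_zero
  have k : ∀ N : SymM p ν, ∑ φ : Module.Dual (ZMod p) (SymM p ν),
      conj (chQ (Qof φ) N) * chQ (Qof φ) M =
      if N = M then (Fintype.card (SymM p ν) : ℂ) else 0 := fun N => by
    have e : ∀ φ : Module.Dual (ZMod p) (SymM p ν),
        conj (chQ (Qof φ) N) * chQ (Qof φ) M = ee (φ (M - N)) := fun φ => by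
      rw [chQ_Qof, chQ_Qof, conj_ee, ← ee_add, map_sub, neg_add_eq_sub]
    rw [sum_congr rfl fun φ _ => e φ]
    split_ifs with q
    · subst q
      simp [card_dual]
    · exact sum_ee_dual _ (sub_ne_zero.2 (Ne.symm q))
  unfold fq
  simp only [expect_mul, mul_assoc]
  rw [← expect_sum_comm]
  simp only [← mul_sum, k, mul_ite, mul_zero]
  rw [Fintype.expect_eq_sum_div_card, sum_ite_eq', if_pos (mem_univ _), mul_div_cancel_right₀ _ c]

lemma pars2 (G H : SymM p ν → ℂ) : 𝔼 M, G M * conj (H M) =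
    ∑ φ : Module.Dual (ZMod p) (SymM p ν), fq G (Qof φ) * conj (fq H (Qof φ)) := by
  have h1 : ∀ M, G M * conj (H M) = ∑ φ : Module.Dual (ZMod p) (SymM p ν),
      G M * conj (chQ (Qof φ) M) * conj (fq H (Qof φ)) := fun M => by
    rw [four_inv2 H M, map_sum, mul_sum]
    refine sum_congr rfl fun Q _ => ?_
    rw [map_mul]
    ring
  simp only [h1]
  rw [expect_sum_comm]
  refine sum_congr rfl fun Q _ => ?_
  rw [← expect_mul]
  rfl

lemma pars2_en (G : SymM p ν → ℂ) :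
    en G = ∑ φ : Module.Dual (ZMod p) (SymM p ν), ‖fq G (Qof φ)‖ ^ 2 := by
  have h := pars2 G G
  simp only [Complex.mul_conj'] at h
  apply Complex.ofReal_injective
  rw [en, Complex.ofReal_expect]
  push_cast
  exact h

lemma fq_comb (t : Finset (Module.Dual (ZMod p) (SymM p ν)))
    (c : Module.Dual (ZMod p) (SymM p ν) → ℂ) (φ : Module.Dual (ZMod p) (SymM p ν)) :
    fq (fun M => ∑ ψ ∈ t, c ψ * chQ (Qof ψ) M) (Qof φ) =
      ∑ ψ ∈ t, @ite ℂ (ψ = φ) (Classical.propDecidable _) (c ψ) 0 := by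
  simp only [fq, sum_mul, expect_sum_comm, mul_assoc, ← mul_expect]
  refine sum_congr rfl fun R _ => ?_
  split_ifs with h
  · subst h
    simp only [chQ_mul_conj, Fintype.expect_const, mul_one]
  · rw [orth2 (by rwa [toD_Qof, toD_Qof]), mul_zero]

lemma en_comb (t : Finset (Module.Dual (ZMod p) (SymM p ν)))
    (c : Module.Dual (ZMod p) (SymM p ν) → ℂ) :
    en (fun M => ∑ ψ ∈ t, c ψ * chQ (Qof ψ) M) = ∑ ψ ∈ t, ‖c ψ‖ ^ 2 := by
  classical
  rw [pars2_en]
  have e : ∀ φ, fq (fun M => ∑ ψ ∈ t, c ψ * chQ (Qof ψ) M) (Qof φ) =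
      if φ ∈ t then c φ else 0 := fun φ => by
    rw [fq_comb, ← sum_ite_eq' t φ c]
    exact sum_congr rfl fun ψ _ => by congr
  simp only [e]
  rw [← sum_filter_add_sum_filter_not univ (· ∈ t), filter_mem_eq_inter, univ_inter,
    sum_eq_zero (s := filter _ _) fun Q hQ => by simp [(mem_filter.1 hQ).2], add_zero]
  exact sum_congr rfl fun Q hQ => by rw [if_pos hQ]

/-- Fourier support on forms whose polar matrix has rank at most `s` -/
def Lv (s : ℕ) (G : SymM p ν → ℂ) : Prop :=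
  ∀ Q : Matrix ν ν (ZMod p), s < (Q + Qᵀ).rank → 𝔼 M, G M * conj (chQ Q M) = 0

lemma Lv_mono {s s' : ℕ} (h : s ≤ s') {G : SymM p ν → ℂ} (hG : Lv s G) : Lv s' G :=
  fun Q hQ => hG Q (h.trans_lt hQ)

lemma Lv_sum {s : ℕ} {ι : Type} (t : Finset ι) (c : ι → ℂ) (G : ι → SymM p ν → ℂ)
    (h : ∀ i ∈ t, c i ≠ 0 → Lv s (G i)) : Lv s fun M => ∑ i ∈ t, c i * G i M := by
  intro Q hQ
  simp only [sum_mul, mul_assoc]
  rw [expect_sum_comm]
  refine sum_eq_zero fun i hi => ?_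
  rw [← mul_expect]
  by_cases k : c i = 0
  · rw [k, zero_mul]
  · rw [h i hi k Q hQ, mul_zero]

lemma Lv_smul {s : ℕ} (c : ℂ) {G : SymM p ν → ℂ} (h : Lv s G) : Lv s fun M => c * G M := by
  intro Q hQ
  simp only [mul_assoc]
  rw [← mul_expect, h Q hQ, mul_zero]

lemma Lv_add {s : ℕ} {G H : SymM p ν → ℂ} (h : Lv s G) (k : Lv s H) :
    Lv s fun M => G M + H M := by
  intro Q hQ
  simp only [add_mul]
  rw [expect_add_distrib, h Q hQ, k Q hQ, add_zero]

lemma Lv_zero (s : ℕ) : Lv s fun _ : SymM p ν => (0 : ℂ) := fun Q _ => by simp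

lemma Lv_chQ {s : ℕ} {Q : Matrix ν ν (ZMod p)} (h : (Q + Qᵀ).rank ≤ s) : Lv s (chQ Q) :=
  fun _ hQ => orth2 fun k => absurd (pol_eq k ▸ h) (not_le.2 hQ)

lemma Lv_comb {s : ℕ} {ι : Type} (t : Finset ι) (c : ι → ℂ) (Q : ι → Matrix ν ν (ZMod p))
    (h : ∀ i ∈ t, (Q i + (Q i)ᵀ).rank ≤ s) {G : SymM p ν → ℂ}
    (e : ∀ M, G M = ∑ i ∈ t, c i * chQ (Q i) M) : Lv s G := by
  rw [funext e]
  exact Lv_sum t c (fun i => chQ (Q i)) fun i hi _ => Lv_chQ (h i hi)

/-- a function of level `s` is a combination of characters of polar rank at most `s` -/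
lemma Lv.eq_comb {s : ℕ} {G : SymM p ν → ℂ} (h : Lv s G) (M : SymM p ν) :
    G M = ∑ φ : Module.Dual (ZMod p) (SymM p ν) with (Qof φ + (Qof φ)ᵀ).rank ≤ s,
      fq G (Qof φ) * chQ (Qof φ) M := by
  rw [sum_filter]
  refine (four_inv2 G M).trans (sum_congr rfl fun φ _ => ?_)
  split_ifs with k
  · rfl
  · have : fq G (Qof φ) = 0 := h _ (not_le.1 k)
    rw [this, zero_mul]

/-- restriction to a tile does not raise the level -/
lemma Lv.tile {s : ℕ} {G : SymM p ν → ℂ} (h : Lv s G) (M : SymM p ν)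
    (U : Matrix ν ν' (ZMod p)) : Lv s fun N : SymM p ν' => G (M + cj U N) := by
  refine Lv_comb (univ.filter fun φ : Module.Dual (ZMod p) (SymM p ν) =>
    (Qof φ + (Qof φ)ᵀ).rank ≤ s) (fun φ => fq G (Qof φ) * chQ (Qof φ) M)
    (fun φ => Uᵀ * Qof φ * U) (fun φ hφ => ?_) fun N => ?_
  · have k : Uᵀ * Qof φ * U + (Uᵀ * Qof φ * U)ᵀ = Uᵀ * (Qof φ + (Qof φ)ᵀ) * U := by
      rw [transpose_mul, transpose_mul, transpose_transpose, Matrix.mul_add, Matrix.add_mul,
        Matrix.mul_assoc Uᵀ (Qof φ)ᵀ]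
    rw [k]
    exact ((rank_mul_le_left _ _).trans (rank_mul_le_right _ _)).trans (mem_filter.1 hφ).2
  · rw [h.eq_comb]
    exact sum_congr rfl fun φ _ => by rw [chQ_add, chQ_cj, mul_assoc]

lemma rank_add_le2 (A B : Matrix ν ν' (ZMod p)) : (A + B).rank ≤ A.rank + B.rank := by
  unfold Matrix.rank
  refine le_trans (Submodule.finrank_mono (?_ : _ ≤ LinearMap.range A.mulVecLin ⊔
    LinearMap.range B.mulVecLin)) (Submodule.finrank_add_le_finrank_add_finrank _ _)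
  rintro _ ⟨x, rfl⟩
  rw [Matrix.mulVecLin_add]
  exact Submodule.add_mem_sup ⟨x, rfl⟩ ⟨x, rfl⟩

/-- levels add under products -/
lemma Lv.mul {s s' : ℕ} {G H : SymM p ν → ℂ} (h : Lv s G) (k : Lv s' H) :
    Lv (s + s') fun M => G M * H M := by
  refine Lv_comb
    ((univ.filter fun φ : Module.Dual (ZMod p) (SymM p ν) => (Qof φ + (Qof φ)ᵀ).rank ≤ s) ×ˢ
      (univ.filter fun φ : Module.Dual (ZMod p) (SymM p ν) => (Qof φ + (Qof φ)ᵀ).rank ≤ s'))
    (fun z => fq G (Qof z.1) * fq H (Qof z.2)) (fun z => Qof z.1 + Qof z.2) (fun z hz => ?_)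
    fun M => ?_
  · rw [transpose_add, add_add_add_comm]
    rw [mem_product, mem_filter, mem_filter] at hz
    exact (rank_add_le2 _ _).trans (add_le_add hz.1.2 hz.2.2)
  · rw [h.eq_comb M, k.eq_comb M, sum_mul_sum, sum_product]
    refine sum_congr rfl fun φ _ => sum_congr rfl fun ψ _ => ?_
    rw [add_chQ]
    ring

/-- in characteristic two the level is fibred: functions of the diagonal have level zero -/
lemma Lv_diag (g : (ν → ZMod 2) → ℂ) : Lv 0 fun M : SymM 2 ν => g fun i => M.1 i i := by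
  classical
  have e : ∀ M : SymM 2 ν, (g fun i => M.1 i i) = ∑ z : (ν → ZMod 2) × (ν → ZMod 2),
      (g z.1 * ee (-(z.1 ⬝ᵥ z.2)) / Fintype.card (ν → ZMod 2)) * chQ (diagonal z.2) M :=
    fun M => by
      have c : (Fintype.card (ν → ZMod 2) : ℂ) ≠ 0 := Nat.cast_ne_zero.2 Fintype.card_ne_zero
      have k : ∀ v : ν → ZMod 2, ∑ t : ν → ZMod 2, (g v * ee (-(v ⬝ᵥ t)) /
          Fintype.card (ν → ZMod 2)) * chQ (diagonal t) M =
          if v = fun i => M.1 i i then g v else 0 := fun v => by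
        have e1 : ∀ t : ν → ZMod 2, (g v * ee (-(v ⬝ᵥ t)) / Fintype.card (ν → ZMod 2)) *
            chQ (diagonal t) M = g v * (ee (((fun i => M.1 i i) - v) ⬝ᵥ t) /
              Fintype.card (ν → ZMod 2)) := fun t => by
          have e2 : chQ (diagonal t) M = ee ((fun i => M.1 i i) ⬝ᵥ t) := by
            unfold chQ
            congr 1
            refine sum_congr rfl fun i _ => ?_
            simp [diagonal_apply]
          rw [e2, sub_dotProduct, sub_eq_add_neg, ee_add]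
          ring
        rw [sum_congr rfl fun t _ => e1 t, ← mul_sum, ← sum_div, ← Fintype.expect_eq_sum_div_card]
        split_ifs with q
        · rw [← q]
          simp
        · obtain ⟨i, hi⟩ := Function.ne_iff.1 (sub_ne_zero.2 (Ne.symm q))
          let φ : (ν → ZMod 2) →+ ZMod 2 :=
            { toFun := fun t => ((fun i => M.1 i i) - v) ⬝ᵥ t
              map_zero' := dotProduct_zero _
              map_add' := fun u w => dotProduct_add _ u w }
          have h3 := expect_ee_hom φ fun h0 => by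
            have h4 := DFunLike.congr_fun h0 (Pi.single i 1)
            change ((fun i => M.1 i i) - v) ⬝ᵥ Pi.single i 1 = 0 at h4
            rw [dotProduct_single, mul_one] at h4
            exact hi h4
          have h5 : 𝔼 t : ν → ZMod 2, ee (((fun i => M.1 i i) - v) ⬝ᵥ t) = 0 := h3
          rw [h5, mul_zero]
      rw [Fintype.sum_prod_type, sum_congr rfl fun v _ => k v, sum_ite_eq', if_pos (mem_univ _)]
  refine Lv_comb (univ : Finset ((ν → ZMod 2) × (ν → ZMod 2)))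
    (fun z => g z.1 * ee (-(z.1 ⬝ᵥ z.2)) / Fintype.card (ν → ZMod 2)) (fun z => diagonal z.2)
    (fun z _ => ?_) e
  rw [diagonal_transpose, ← two_smul (ZMod 2), (show (2 : ZMod 2) = 0 from rfl), zero_smul,
    Matrix.rank_zero]

/-- multiplication by a function of the diagonal keeps the level -/
lemma Lv.mul_diag {s : ℕ} {G : SymM 2 ν → ℂ} (h : Lv s G) (g : (ν → ZMod 2) → ℂ) :
    Lv s fun M => g (fun i => M.1 i i) * G M := by
  have := (Lv_diag g).mul h
  rwa [zero_add] at this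

open Classical in
/-- the level can be checked fibre by fibre -/
lemma Lv_of_fibres {s : ℕ} {G : SymM 2 ν → ℂ} (h : ∀ v : ν → ZMod 2, ∃ H : SymM 2 ν → ℂ,
    Lv s H ∧ ∀ M : SymM 2 ν, (fun i => M.1 i i) = v → G M = H M) : Lv s G := by
  choose H h1 h2 using h
  have e : G = fun M => ∑ v : ν → ZMod 2, 1 * ((fun w => if v = w then (1 : ℂ) else 0)
      (fun i => M.1 i i) * H v M) := funext fun M => by
    simp only [one_mul, ite_mul, zero_mul, sum_ite_eq', mem_univ, if_true]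
    exact h2 _ M rfl
  rw [e]
  exact Lv_sum _ (fun _ => 1) _ fun v _ _ => (h1 v).mul_diag fun w => if v = w then 1 else 0

lemma gauss2 (Q : Matrix ν ν (ZMod p)) :
    ‖𝔼 x : ν → ZMod p, chQ Q (sqv x)‖ ^ 2 ≤ ((p : ℝ) ^ (Q + Qᵀ).rank)⁻¹ := by
  have hs : ∀ u v, u ⬝ᵥ Q *ᵥ v = v ⬝ᵥ Qᵀ *ᵥ u := fun u v => by
    rw [dotProduct_mulVec, ← mulVec_transpose, dotProduct_comm]
  have h1 : (𝔼 x : ν → ZMod p, chQ Q (sqv x)) * conj (𝔼 x : ν → ZMod p, chQ Q (sqv x)) =
      𝔼 z : ν → ZMod p, ee (z ⬝ᵥ Q *ᵥ z) * 𝔼 y : ν → ZMod p, ee (y ⬝ᵥ (Q + Qᵀ) *ᵥ z) := by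
    rw [map_expect (starRingEnd ℂ), expect_mul_expect, expect_comm]
    simp only [mul_expect]
    rw [expect_comm]
    conv_rhs => rw [expect_comm]
    rw [expect_comm]
    refine expect_congr rfl fun y _ => ?_
    refine (Fintype.expect_equiv (Equiv.addLeft y) _ _ fun z => ?_).symm
    rw [end_chQ_sqv, end_chQ_sqv, conj_ee, ← ee_add, ← ee_add]
    congr 1
    simp only [Equiv.coe_addLeft, mulVec_add, add_mulVec, add_dotProduct, dotProduct_add, hs z y]
    ring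
  have h2 : ∀ z : ν → ZMod p, ‖ee (z ⬝ᵥ Q *ᵥ z) *
      𝔼 y : ν → ZMod p, ee (y ⬝ᵥ (Q + Qᵀ) *ᵥ z)‖ ≤
      ind {z | (Q + Qᵀ).mulVecLin.rangeRestrict z = 0} z := fun z => by
    rw [norm_mul, norm_ee, one_mul]
    by_cases hz : (Q + Qᵀ) *ᵥ z = 0
    · rw [ind_of_mem (A := {z | (Q + Qᵀ).mulVecLin.rangeRestrict z = 0}) (x := z)
        (Subtype.ext hz), hz]
      simp
    · obtain ⟨i, hi⟩ := Function.ne_iff.1 hz
      let φ : (ν → ZMod p) →+ ZMod p :=
        { toFun := fun y => y ⬝ᵥ (Q + Qᵀ) *ᵥ z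
          map_zero' := zero_dotProduct _
          map_add' := fun u v => add_dotProduct u v _ }
      have h3 := expect_ee_hom φ fun h0 => by
        have h4 := DFunLike.congr_fun h0 (Pi.single i 1)
        change Pi.single i 1 ⬝ᵥ (Q + Qᵀ) *ᵥ z = 0 at h4
        rw [single_dotProduct, one_mul] at h4
        exact hi h4
      exact (congrArg norm h3).trans_le (norm_zero.trans_le (ind_nonneg _ _))
  have h5 := dens_fibre_surj _ (Q + Qᵀ).mulVecLin.surjective_rangeRestrict 0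
  rw [card_eq_pow (p := p), Nat.cast_pow] at h5
  have h6 := congrArg norm h1
  rw [norm_mul, Complex.norm_conj, ← sq] at h6
  rw [h6]
  exact RCLike.norm_expect_le (K := ℂ).trans ((expect_le_expect fun z _ => h2 z).trans h5.le)

/-- END, with the hypothesis only for finite combinations of characters -/
theorem aS_eq_zero_comb (hC : ∀ (s : ℕ) (ε : ℝ), 0 < ε → Ev p fun ν _ _ A =>
    ∀ (ι : Type) (t : Finset ι) (c : ι → ℂ) (Q : ι → Matrix ν ν (ZMod p)),
      (∀ i ∈ t, (Q i + (Q i)ᵀ).rank ≤ s) → ‖𝔼 M, fA A M * ∑ i ∈ t, c i * chQ (Q i) M‖ ≤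
        ε * √(en fun M => ∑ i ∈ t, c i * chQ (Q i) M)) : aS p = 0 := by
  refine le_antisymm (not_lt.1 fun ha => ?_) aS_nonneg
  have hp1 : (1 : ℝ) < p := Nat.one_lt_cast.2 (Fact.out : p.Prime).one_lt
  have hε : 0 < aS p ^ 2 / 8 := by positivity
  have key : ∀ δ : ℝ, 0 < δ → ∃ s : ℕ, ∀ m, s ≤ m → ((p : ℝ) ^ m)⁻¹ ≤ δ := fun δ hδ => by
    obtain ⟨s, hs⟩ := pow_unbounded_of_one_lt δ⁻¹ hp1
    exact ⟨s, fun m hm => inv_le_of_inv_le₀ hδ (hs.le.trans (pow_le_pow_right₀ hp1.le hm))⟩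
  obtain ⟨s, hs⟩ := key _ (pow_pos hε 2)
  obtain ⟨n0, hn0⟩ := key _ hε
  obtain ⟨n, A, h1, hn, hA⟩ := ((hC s _ hε).and (Ev_basic _ (half_pos ha) n0)).exists
  let u : SymM p (Fin n) → ℂ := fun M => (ind A M : ℝ)
  let c : Module.Dual (ZMod p) (SymM p (Fin n)) → ℂ := fun φ =>
    fq u (Qof φ) * 𝔼 x : Fin n → ZMod p, chQ (Qof φ) (sqv x)
  have hu : ∑ φ : Module.Dual (ZMod p) (SymM p (Fin n)), ‖fq u (Qof φ)‖ ^ 2 ≤ 1 := by
    rw [← pars2_en]
    refine Finset.expect_le univ_nonempty fun M _ => pow_le_one₀ (norm_nonneg _) ?_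
    rw [Complex.norm_real, Real.norm_of_nonneg (ind_nonneg _ _)]
    exact ind_le_one _ _
  have hc : ∀ (t : Finset (Module.Dual (ZMod p) (SymM p (Fin n)))) (δ : ℝ), 0 ≤ δ →
      (∀ φ ∈ t, ((p : ℝ) ^ (Qof φ + (Qof φ)ᵀ).rank)⁻¹ ≤ δ ^ 2) →
      √(en fun M => ∑ φ ∈ t, c φ * chQ (Qof φ) M) ≤ δ :=
    fun t δ hδ h => by
      rw [en_comb]
      refine Real.sqrt_le_iff.2 ⟨hδ, ?_⟩
      calc ∑ φ ∈ t, ‖c φ‖ ^ 2 ≤ ∑ φ ∈ t, ‖fq u (Qof φ)‖ ^ 2 * δ ^ 2 := sum_le_sum fun Q hQ => by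
            rw [norm_mul, mul_pow]
            exact mul_le_mul_of_nonneg_left ((gauss2 _).trans (h Q hQ)) (sq_nonneg _)
        _ ≤ ∑ φ, ‖fq u (Qof φ)‖ ^ 2 * δ ^ 2 := sum_le_univ_sum_of_nonneg fun _ => by positivity
        _ ≤ δ ^ 2 := by
            rw [← sum_mul]
            exact mul_le_of_le_one_left (sq_nonneg _) hu
  have h2 : ∀ M, ((𝔼 x : Fin n → ZMod p, ind A (M + sqv x) : ℝ) : ℂ) =
      ∑ φ : Module.Dual (ZMod p) (SymM p (Fin n)) with (Qof φ + (Qof φ)ᵀ).rank ≤ s,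
        c φ * chQ (Qof φ) M +
      ∑ φ : Module.Dual (ZMod p) (SymM p (Fin n)) with ¬ (Qof φ + (Qof φ)ᵀ).rank ≤ s,
        c φ * chQ (Qof φ) M := fun M => by
    rw [sum_filter_add_sum_filter_not, Complex.ofReal_expect,
      expect_congr rfl fun x _ => four_inv2 u (M + sqv x), expect_sum_comm]
    refine sum_congr rfl fun Q _ => ?_
    simp only [chQ_add, ← mul_assoc, ← mul_expect, c]
    ring
  have h3 := (h1 _ (univ.filter fun φ => (Qof φ + (Qof φ)ᵀ).rank ≤ s) c Qof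
    fun φ hφ => (mem_filter.1 hφ).2).trans (mul_le_of_le_one_right hε.le (hc _ 1 zero_le_one
    fun Q _ => by rw [one_pow]; exact inv_le_one_of_one_le₀ (one_le_pow₀ hp1.le)))
  have h4 := (norm_expect_mul_le (fA A) _).trans (mul_le_mul (end_en_fA A)
    (hc (univ.filter fun φ => ¬ (Qof φ + (Qof φ)ᵀ).rank ≤ s) _ hε.le fun Q hQ =>
      hs _ (not_le.1 (mem_filter.1 hQ).2).le) (Real.sqrt_nonneg _) zero_le_one)
  have h5 := (norm_add_le _ _).trans (add_le_add h3 h4)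
  rw [← expect_add_distrib] at h5
  simp only [← mul_add, ← h2, fA, ← Complex.ofReal_mul] at h5
  rw [← Complex.ofReal_expect, Complex.norm_real, Real.norm_eq_abs] at h5
  simp only [sub_mul, expect_sub_distrib, ← mul_expect] at h5
  have h6 : 𝔼 M, 𝔼 x : Fin n → ZMod p, ind A (M + sqv x) = dens A := by
    rw [expect_comm]
    have : ∀ x : Fin n → ZMod p, 𝔼 M, ind A (M + sqv x) = dens A := fun x =>
      Fintype.expect_equiv (Equiv.addRight (sqv x)) _ _ fun _ => rfl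
    simp only [this, Fintype.expect_const]
  have h7 : 𝔼 M, ind A M * 𝔼 x : Fin n → ZMod p, ind A (M + sqv x) ≤ aS p ^ 2 / 8 := by
    refine Finset.expect_le univ_nonempty fun M _ => ?_
    by_cases hM : M ∈ A
    · have h8 := dens_fibre_surj (LinearMap.id : (Fin n → ZMod p) →ₗ[ZMod p] (Fin n → ZMod p))
        Function.surjective_id 0
      rw [Fintype.card_fun, ZMod.card, Nat.cast_pow] at h8
      rw [ind_of_mem hM, one_mul]
      refine le_trans (expect_le_expect fun x _ => ?_) (h8.le.trans (hn0 _ hn))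
      by_cases hx : x = 0
      · rw [ind_of_mem (A := {x | LinearMap.id x = 0}) hx]
        exact ind_le_one _ _
      · rw [ind_of_not (hA.1 M x hx hM)]
        exact ind_nonneg _ _
    · rw [ind_of_not hM, zero_mul]
      exact hε.le
  rw [h6] at h5
  have h9 := mul_le_mul_of_nonneg_left hA.2 ha.le
  have h10 := (abs_le.1 h5).1
  nlinarith

/-- the Claim for the polar level -/
def Claim2 (p : ℕ) [Fact p.Prime] (s : ℕ) : Prop :=
  ∀ ε : ℝ, 0 < ε → Ev p fun ν _ _ A => ∀ G : SymM p ν → ℂ, Lv s G →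
    ‖𝔼 M, fA A M * G M‖ ≤ ε * √(en G)

lemma Claim2.mono {s s' : ℕ} (h : s ≤ s') (hC : Claim2 p s') : Claim2 p s :=
  fun ε hε => (hC ε hε).mono fun _ _ _ _ k G hG => k G (Lv_mono h hG)

/-- END -/
theorem aS_eq_zero2 (hC : ∀ s, Claim2 p s) : aS p = 0 :=
  aS_eq_zero_comb fun s ε hε => (hC s ε hε).mono fun _ _ _ _ k _ t c Q hQ =>
    k _ (Lv_comb t c Q hQ fun _ => rfl)

end Pool.Agent.Work.MP_4523ee_co.F2
end

-- merged part: Pool.Agent.Work.MP_4523ee_co.F2.HC
section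
/-!
Hyperplane cube lemma over `ZMod 2`: a dense set contains an affine cube whose directions are
killed by boundedly many functionals attached to each of its points.
-/

set_option autoImplicit false
set_option linter.unusedSectionVars false

namespace Pool.Agent.Work.MP_4523ee_co.F2

open Finset Matrix

section
variable {ν κ : Type} [Fintype ν] [DecidableEq ν] [Fintype κ] [DecidableEq κ]

/-- the pair `d, e` is good for the functionals `φ` -/
def HcGood (φ : (ν → ZMod 2) → κ → ν → ZMod 2) (d e : ν → ZMod 2) : Prop :=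
  (∀ i, φ d i ⬝ᵥ (d + e) = 0) ∧ ∀ i, φ e i ⬝ᵥ (d + e) = 0

lemma hc_add_self (d : ν → ZMod 2) : d + d = 0 := by
  funext j
  exact CharTwo.add_self_eq_zero (d j)

lemma hcGood_refl (φ : (ν → ZMod 2) → κ → ν → ZMod 2) (d : ν → ZMod 2) : HcGood φ d d := by
  constructor <;> intro i <;> rw [hc_add_self, dotProduct_zero]

lemma hcGood_symm {φ : (ν → ZMod 2) → κ → ν → ZMod 2} {d e : ν → ZMod 2} (h : HcGood φ d e) :
    HcGood φ e d := by
  constructor <;> intro i <;> rw [add_comm e d]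
  · exact h.2 i
  · exact h.1 i

lemma hc_prod_zero (t : κ → ZMod 2) (h : ¬ ∀ i, t i = 0) : ∏ i, (1 + t i) = 0 := by
  push Not at h
  obtain ⟨i, hi⟩ := h
  refine Finset.prod_eq_zero (mem_univ i) ?_
  revert hi
  generalize t i = s
  revert s
  decide

/-- rank bound for sets without good pairs -/
lemma hc_indep (φ : (ν → ZMod 2) → κ → ν → ZMod 2) (I : Finset (ν → ZMod 2))
    (hI : ∀ d ∈ I, ∀ e ∈ I, d ≠ e → ¬ HcGood φ d e) :
    I.card ≤ (Fintype.card ν + 1) ^ (2 * Fintype.card κ) := by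
  classical
  let al : (ν → ZMod 2) → κ → Option ν → ZMod 2 := fun d i o =>
    o.elim (1 + φ d i ⬝ᵥ d) (fun j => φ d i j)
  let be : (ν → ZMod 2) → Option ν → ZMod 2 := fun d o => o.elim 1 (fun j => d j)
  have hs : ∀ d e i, ∑ o, al d i o * be e o = 1 + φ d i ⬝ᵥ (d + e) := by
    intro d e i
    rw [Fintype.sum_option, dotProduct_add]
    simp only [al, be, Option.elim, mul_one, dotProduct, add_assoc]
  let A : Matrix I ((κ → Option ν) × (κ → Option ν)) (ZMod 2) := fun d ab =>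
    (∏ i, al d.1 i (ab.1 i)) * ∏ i, be d.1 (ab.2 i)
  let B : Matrix ((κ → Option ν) × (κ → Option ν)) I (ZMod 2) := fun ab e =>
    (∏ i, be e.1 (ab.1 i)) * ∏ i, al e.1 i (ab.2 i)
  have hAB : ∀ d e : I, (A * B) d e =
      (∏ i, (1 + φ d.1 i ⬝ᵥ (d.1 + e.1))) * ∏ i, (1 + φ e.1 i ⬝ᵥ (e.1 + d.1)) := by
    intro d e
    simp only [← hs]
    rw [Finset.prod_univ_sum, Finset.prod_univ_sum, Fintype.piFinset_univ, Finset.sum_mul_sum,
      Matrix.mul_apply, Fintype.sum_prod_type]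
    refine Finset.sum_congr rfl fun a _ => Finset.sum_congr rfl fun b _ => ?_
    simp only [A, B, Finset.prod_mul_distrib]
    ring
  have h1 : A * B = 1 := by
    ext d e
    rw [hAB]
    by_cases hde : d = e
    · subst hde
      simp [hc_add_self]
    · rw [Matrix.one_apply_ne hde]
      have := hI d.1 d.2 e.1 e.2 (fun h => hde (Subtype.ext h))
      unfold HcGood at this
      rw [not_and_or] at this
      rcases this with h | h
      · rw [hc_prod_zero _ h, zero_mul]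
      · rw [add_comm e.1 d.1, hc_prod_zero _ h, mul_zero]
  have h2 : (A * B).rank ≤ Fintype.card ((κ → Option ν) × (κ → Option ν)) :=
    (Matrix.rank_mul_le_left A B).trans (Matrix.rank_le_card_width A)
  rw [h1, Matrix.rank_one] at h2
  simp only [Fintype.card_coe, Fintype.card_prod, Fintype.card_fun, Fintype.card_option] at h2
  rw [two_mul, pow_add]
  exact h2

end

/-- a set of points with small neighbourhoods is small when independent sets are small -/
lemma hc_cover {V : Type} [DecidableEq V] (R : V → V → Prop) [DecidableRel R]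
    (hr : ∀ d, R d d) (hs : ∀ d e, R d e → R e d) (Z L : Finset V) (hL : L ⊆ Z) (a D : ℕ)
    (ha : ∀ I : Finset V, (∀ d ∈ I, ∀ e ∈ I, d ≠ e → ¬ R d e) → I.card ≤ a)
    (hD : ∀ d ∈ L, (Z.filter (R d)).card ≤ D) : L.card ≤ a * D := by
  classical
  obtain ⟨I, hI, hmax⟩ := Finset.exists_max_image
    (L.powerset.filter fun I => ∀ d ∈ I, ∀ e ∈ I, d ≠ e → ¬ R d e) Finset.card
    ⟨∅, by simp⟩
  simp only [mem_filter, mem_powerset] at hI
  have hcov : L ⊆ I.biUnion fun d => Z.filter (R d) := by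
    intro x hx
    by_contra hn
    simp only [mem_biUnion, mem_filter, not_exists, not_and] at hn
    have hxI : x ∉ I := fun h => hn x h (hL hx) (hr x)
    have := hmax (insert x I) (by
      simp only [mem_filter, mem_powerset]
      refine ⟨insert_subset hx hI.1, ?_⟩
      intro d hd e he hde
      rw [mem_insert] at hd he
      rcases hd with rfl | hd <;> rcases he with rfl | he
      · exact absurd rfl hde
      · exact fun h => hn e he (hL hx) (hs _ _ h)
      · exact hn d hd (hL hx)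
      · exact hI.2 d hd e he hde)
    rw [card_insert_of_notMem hxI] at this
    omega
  calc L.card ≤ _ := card_le_card hcov
    _ ≤ I.card * D := card_biUnion_le_card_mul _ _ _ fun d hd => hD d (hI.1 hd)
    _ ≤ a * D := Nat.mul_le_mul_right _ (ha I hI.2)

/-- many good pairs -/
lemma hc_pairs {V : Type} [DecidableEq V] (R : V → V → Prop) [DecidableRel R]
    (hr : ∀ d, R d d) (hs : ∀ d e, R d e → R e d) (Z : Finset V) (a : ℕ)
    (ha : ∀ I : Finset V, (∀ d ∈ I, ∀ e ∈ I, d ≠ e → ¬ R d e) → I.card ≤ a) :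
    Z.card ^ 2 ≤ 4 * a * ∑ d ∈ Z, (Z.filter (R d)).card := by
  classical
  rcases Nat.eq_zero_or_pos a with rfl | hapos
  · have := hc_cover R hr hs Z Z (Subset.refl _) 0 Z.card ha (fun d _ => card_filter_le _ _)
    have h0 : Z.card = 0 := by omega
    simp [h0]
  set D := Z.card / (2 * a) with hDdef
  set L := Z.filter fun d => (Z.filter (R d)).card ≤ D with hLdef
  set H := Z.filter fun d => ¬ (Z.filter (R d)).card ≤ D with hHdef
  have hL : L.card ≤ a * D :=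
    hc_cover R hr hs Z L (filter_subset _ _) a D ha (fun d hd => (mem_filter.1 hd).2)
  have hLH : L.card + H.card = Z.card := card_filter_add_card_filter_not _
  have h1 : 2 * a * D ≤ Z.card := Nat.mul_div_le _ _
  have h2 : Z.card < 2 * a * (D + 1) := Nat.lt_mul_div_succ _ (by omega)
  have h3 : H.card * (D + 1) ≤ ∑ d ∈ Z, (Z.filter (R d)).card := by
    calc H.card * (D + 1) = ∑ _d ∈ H, (D + 1) := by simp
      _ ≤ ∑ d ∈ H, (Z.filter (R d)).card :=
        sum_le_sum fun d hd => Nat.succ_le_of_lt (not_le.1 (mem_filter.1 hd).2)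
      _ ≤ _ := sum_le_sum_of_subset (filter_subset _ _)
  have h4 : Z.card ≤ 2 * H.card := by nlinarith
  calc Z.card ^ 2 = Z.card * Z.card := sq _
    _ ≤ (2 * H.card) * (2 * a * (D + 1)) := Nat.mul_le_mul h4 h2.le
    _ = 4 * a * (H.card * (D + 1)) := by ring
    _ ≤ _ := Nat.mul_le_mul_left _ h3

section
variable {ν : Type} [Fintype ν] [DecidableEq ν]

/-- one step: a popular good direction -/
lemma hc_step {κ : Type} [Fintype κ] [DecidableEq κ] (φ : (ν → ZMod 2) → κ → ν → ZMod 2)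
    (Z : Finset (ν → ZMod 2))
    (hZ : 8 * (Fintype.card ν + 1) ^ (2 * Fintype.card κ) < Z.card) :
    ∃ u : ν → ZMod 2, u ≠ 0 ∧ ∃ E : Finset (ν → ZMod 2),
      (∀ d ∈ E, d ∈ Z ∧ d + u ∈ Z ∧ (∀ i, φ d i ⬝ᵥ u = 0) ∧ ∀ i, φ (d + u) i ⬝ᵥ u = 0) ∧
      Z.card ^ 2 ≤ 8 * (Fintype.card ν + 1) ^ (2 * Fintype.card κ) *
        (2 ^ Fintype.card ν * E.card) := by
  classical
  set a := (Fintype.card ν + 1) ^ (2 * Fintype.card κ) with ha
  have hp := hc_pairs (HcGood φ) (hcGood_refl φ) (fun _ _ => hcGood_symm) Z a (hc_indep φ)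
  let E : (ν → ZMod 2) → Finset (ν → ZMod 2) := fun u =>
    Z.filter fun d => d + u ∈ Z ∧ HcGood φ d (d + u)
  have hdd : ∀ d u : ν → ZMod 2, d + (d + u) = u := fun d u => by
    rw [← add_assoc, hc_add_self, zero_add]
  have hsum : ∑ d ∈ Z, (Z.filter (HcGood φ d)).card = ∑ u, (E u).card := by
    simp only [E, card_filter]
    rw [Finset.sum_comm (s := univ)]
    refine sum_congr rfl fun d _ => ?_
    rw [← card_filter, ← card_filter]
    refine card_bij (fun e _ => d + e) ?_ ?_ ?_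
    · intro e he
      rw [mem_filter] at he ⊢
      rw [hdd]
      exact ⟨mem_univ _, he⟩
    · intro e _ e' _ h
      exact add_left_cancel h
    · intro u hu
      rw [mem_filter] at hu
      exact ⟨d + u, mem_filter.2 hu.2, hdd d u⟩
  have hne : ((univ : Finset (ν → ZMod 2)).erase 0).Nonempty := by
    have h2 : 1 < Z.card := by
      have : 0 < a := by positivity
      omega
    obtain ⟨x, _, y, _, hxy⟩ := one_lt_card.1 h2
    by_cases hx : x = 0
    · exact ⟨y, mem_erase.2 ⟨fun h => hxy (hx.trans h.symm), mem_univ _⟩⟩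
    · exact ⟨x, mem_erase.2 ⟨hx, mem_univ _⟩⟩
  obtain ⟨u, hu, hmax⟩ := exists_max_image (univ.erase 0) (fun u => (E u).card) hne
  refine ⟨u, (mem_erase.1 hu).1, E u, ?_, ?_⟩
  · intro d hd
    obtain ⟨h1, h2, h3, h4⟩ := mem_filter.1 hd
    rw [hdd] at h3 h4
    exact ⟨h1, h2, h3, h4⟩
  · have h0 : (E 0).card ≤ Z.card := card_filter_le _ _
    have h1 : ∑ v, (E v).card = (E 0).card + ∑ v ∈ univ.erase 0, (E v).card :=
      (add_sum_erase _ _ (mem_univ _)).symm
    have h2 : ∑ v ∈ univ.erase 0, (E v).card ≤ 2 ^ Fintype.card ν * (E u).card := by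
      refine (sum_le_card_nsmul _ _ _ hmax).trans ?_
      rw [smul_eq_mul]
      refine Nat.mul_le_mul_right _ ((card_erase_le).trans ?_)
      simp
    rw [hsum, h1] at hp
    have h3 : Z.card ^ 2 ≤ 4 * a * (Z.card + 2 ^ Fintype.card ν * (E u).card) :=
      hp.trans (Nat.mul_le_mul_left _ (by omega))
    nlinarith

/-- polynomial against exponential -/
lemma hc_exp (c : ℕ) : ∃ m0 : ℕ, ∀ m, m0 ≤ m → (m + 1) ^ c < 2 ^ m := by
  have h := tendsto_pow_const_div_const_pow_of_one_lt c (r := 2) (by norm_num)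
  have h2 := (h.comp (Filter.tendsto_add_atTop_nat 1)).eventually
    (gt_mem_nhds (show (0 : ℝ) < 1 / 2 by norm_num))
  obtain ⟨m0, hm0⟩ := Filter.eventually_atTop.1 h2
  refine ⟨m0, fun m hm => ?_⟩
  have h3 := hm0 m hm
  simp only [Function.comp] at h3
  rw [div_lt_iff₀ (by positivity), pow_succ] at h3
  have h4 : ((m + 1 : ℕ) : ℝ) ^ c < 2 ^ m := by linarith
  exact_mod_cast h4

end

/-- hyperplane cube lemma, inverse polynomial density -/
theorem hc_poly (J : ℕ) : ∀ k c : ℕ, ∃ m0 : ℕ, ∀ (ν κ : Type) [Fintype ν] [DecidableEq ν]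
    [Fintype κ] [DecidableEq κ], m0 ≤ Fintype.card ν → Fintype.card κ ≤ k →
    ∀ (φ : (ν → ZMod 2) → κ → ν → ZMod 2) (Z : Finset (ν → ZMod 2)),
      2 ^ Fintype.card ν ≤ Z.card * (Fintype.card ν + 1) ^ c →
      ∃ (d0 : ν → ZMod 2) (U : Matrix ν (Fin J) (ZMod 2)), Function.Injective U.mulVec ∧
        ∀ w, d0 + U *ᵥ w ∈ Z ∧ ∀ i, φ (d0 + U *ᵥ w) i ᵥ* U = 0 := by
  induction J with
  | zero =>
    intro k c
    refine ⟨0, fun ν κ _ _ _ _ _ _ φ Z hZ => ?_⟩
    have hpos : 0 < Z.card := by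
      rcases Nat.eq_zero_or_pos Z.card with h | h
      · rw [h, zero_mul] at hZ
        have : 0 < 2 ^ Fintype.card ν := by positivity
        omega
      · exact h
    obtain ⟨d0, hd0⟩ := card_pos.1 hpos
    refine ⟨d0, 0, fun a b _ => Subsingleton.elim _ _, fun w => ⟨by simpa using hd0, fun i => ?_⟩⟩
    exact Subsingleton.elim _ _
  | succ J ih =>
    intro k c
    obtain ⟨m1, hm1⟩ := ih (k + k + 1) (2 * c + 2 * k + 3)
    obtain ⟨m2, hm2⟩ := hc_exp (c + 2 * k + 3)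
    refine ⟨max (max m1 m2) 1, fun ν κ _ _ _ _ hm hk φ Z hZ => ?_⟩
    classical
    set m := Fintype.card ν with hmdef
    have hm1' : m1 ≤ m := le_trans (le_trans (le_max_left _ _) (le_max_left _ _)) hm
    have hm2' : m2 ≤ m := le_trans (le_trans (le_max_right _ _) (le_max_left _ _)) hm
    have hm3 : 1 ≤ m := le_trans (le_max_right _ _) hm
    have h8 : 8 * (m + 1) ^ (2 * Fintype.card κ) ≤ (m + 1) ^ (2 * k + 3) := by
      have e1 : 8 ≤ (m + 1) ^ 3 := by
        calc 8 = 2 ^ 3 := by norm_num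
          _ ≤ _ := Nat.pow_le_pow_left (by omega) _
      calc 8 * (m + 1) ^ (2 * Fintype.card κ) ≤ (m + 1) ^ 3 * (m + 1) ^ (2 * k) :=
            Nat.mul_le_mul e1 (Nat.pow_le_pow_right (by omega) (by omega))
        _ = _ := by ring
    have hbig : 8 * (m + 1) ^ (2 * Fintype.card κ) < Z.card := by
      have e1 := hm2 m hm2'
      have e2 : (m + 1) ^ (2 * k + 3) * (m + 1) ^ c < Z.card * (m + 1) ^ c := by
        calc (m + 1) ^ (2 * k + 3) * (m + 1) ^ c = (m + 1) ^ (c + 2 * k + 3) := by ring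
          _ < _ := lt_of_lt_of_le e1 hZ
      exact lt_of_le_of_lt h8 (lt_of_mul_lt_mul_right e2 (Nat.zero_le _))
    obtain ⟨u, hu, E, hE, hcard⟩ := hc_step φ Z hbig
    obtain ⟨j, hj⟩ : ∃ j, u j ≠ 0 := by
      by_contra h
      push Not at h
      exact hu (funext h)
    have hj1 : u j = 1 := by
      revert hj
      generalize u j = s
      revert s
      decide
    let φ' : (ν → ZMod 2) → Option (κ ⊕ κ) → ν → ZMod 2 := fun d o =>
      o.elim (Pi.single j 1) (Sum.elim (φ d) (φ (d + u)))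
    have hE2 : 2 ^ m ≤ E.card * (m + 1) ^ (2 * c + 2 * k + 3) := by
      have e1 : 2 ^ m * 2 ^ m ≤ 2 ^ m * (E.card * (m + 1) ^ (2 * c + 2 * k + 3)) := by
        calc 2 ^ m * 2 ^ m ≤ (Z.card * (m + 1) ^ c) * (Z.card * (m + 1) ^ c) :=
              Nat.mul_le_mul hZ hZ
          _ = Z.card ^ 2 * (m + 1) ^ (2 * c) := by ring
          _ ≤ ((m + 1) ^ (2 * k + 3) * (2 ^ m * E.card)) * (m + 1) ^ (2 * c) :=
              Nat.mul_le_mul_right _ (hcard.trans (Nat.mul_le_mul_right _ h8))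
          _ = _ := by ring
      exact le_of_mul_le_mul_left e1 (by positivity)
    obtain ⟨d0, U, hU, hw⟩ := hm1 ν (Option (κ ⊕ κ)) hm1'
      (by simp only [Fintype.card_option, Fintype.card_sum]; omega) φ' E hE2
    let U' : Matrix ν (Fin (J + 1)) (ZMod 2) := fun x => Fin.cons (u x) (U x)
    have hmv : ∀ w : Fin (J + 1) → ZMod 2, U' *ᵥ w = w 0 • u + U *ᵥ (Fin.tail w) := by
      intro w
      funext x
      simp [U', mulVec, dotProduct, Fin.sum_univ_succ, Fin.tail, mul_comm]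
    have hvm : ∀ y : ν → ZMod 2, y ⬝ᵥ u = 0 → y ᵥ* U = 0 → y ᵥ* U' = 0 := by
      intro y h1 h2
      funext t
      refine Fin.cases ?_ (fun t => ?_) t
      · simpa [U', vecMul, dotProduct] using h1
      · simpa [U', vecMul, dotProduct] using congrFun h2 t
    have hrow : ∀ t, U j t = 0 := by
      intro t
      have := congrFun ((hw 0).2 none) t
      simpa [φ', vecMul, dotProduct, Pi.single_apply] using this
    refine ⟨d0, U', ?_, fun w => ?_⟩
    · have hker : ∀ w, U' *ᵥ w = 0 → w = 0 := by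
        intro w h
        rw [hmv] at h
        have h0 : w 0 = 0 := by
          have := congrFun h j
          simpa [mulVec, dotProduct, hrow, hj1] using this
        rw [h0, zero_smul, zero_add] at h
        have h1 : Fin.tail w = 0 := hU (by rw [h, mulVec_zero])
        funext t
        refine Fin.cases h0 (fun t => congrFun h1 t) t
      intro w w' h
      have := hker (w - w') (by rw [mulVec_sub, h, sub_self])
      exact sub_eq_zero.1 this
    · obtain ⟨h1, h2⟩ := hw (Fin.tail w)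
      obtain ⟨e1, e2, e3, e4⟩ := hE _ h1
      have hw0 : w 0 = 0 ∨ w 0 = 1 := by
        generalize w 0 = s
        revert s
        decide
      rw [hmv]
      rcases hw0 with h | h
      · rw [h, zero_smul, zero_add]
        exact ⟨e1, fun i => hvm _ (e3 i) (h2 (some (Sum.inl i)))⟩
      · rw [h, one_smul, add_comm u, ← add_assoc]
        exact ⟨e2, fun i => hvm _ (e4 i) (h2 (some (Sum.inr i)))⟩

/-- `C` is partitioned into `J`-cubes, `Um d` being the matrix of the cube through `d` -/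
def HcTil {ν κ : Type} [Fintype ν] (J : ℕ) (φ : (ν → ZMod 2) → κ → ν → ZMod 2)
    (C : Finset (ν → ZMod 2)) (Um : (ν → ZMod 2) → Matrix ν (Fin J) (ZMod 2)) : Prop :=
  ∀ d ∈ C, Function.Injective (Um d).mulVec ∧ (∀ i, φ d i ᵥ* Um d = 0) ∧
    ∀ w, d + Um d *ᵥ w ∈ C ∧ Um (d + Um d *ᵥ w) = Um d

/-- partition form: all of `Z` but an `eps` share of the space is tiled by good cubes -/
theorem hc_tiling (J k : ℕ) (eps : ℝ) (heps : 0 < eps) : ∃ m0 : ℕ, ∀ (ν κ : Type) [Fintype ν]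
    [DecidableEq ν] [Fintype κ] [DecidableEq κ], m0 ≤ Fintype.card ν → Fintype.card κ ≤ k →
    ∀ (φ : (ν → ZMod 2) → κ → ν → ZMod 2) (Z : Finset (ν → ZMod 2)),
      ∃ (C : Finset (ν → ZMod 2)) (Um : (ν → ZMod 2) → Matrix ν (Fin J) (ZMod 2)),
        C ⊆ Z ∧ HcTil J φ C Um ∧ ((Z \ C).card : ℝ) ≤ eps * 2 ^ Fintype.card ν := by
  obtain ⟨m1, hm1⟩ := hc_poly J k 1
  obtain ⟨m2, hm2⟩ := exists_nat_ge (1 / eps)
  refine ⟨max m1 m2, fun ν κ _ _ _ _ hm hk φ Z => ?_⟩
  classical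
  obtain ⟨C, hC, hmax⟩ := Finset.exists_max_image
    (Z.powerset.filter fun C => ∃ Um, HcTil J φ C Um) Finset.card
    ⟨∅, mem_filter.2 ⟨empty_mem_powerset _, fun _ => 0, fun d hd => absurd hd (notMem_empty d)⟩⟩
  simp only [mem_filter, mem_powerset] at hC
  obtain ⟨hCZ, Um, hUm⟩ := hC
  refine ⟨C, Um, hCZ, hUm, ?_⟩
  by_contra hlt
  rw [not_le] at hlt
  have hbig : 2 ^ Fintype.card ν ≤ (Z \ C).card * (Fintype.card ν + 1) ^ 1 := by
    have e1 : (m2 : ℝ) ≤ Fintype.card ν := by exact_mod_cast le_trans (le_max_right _ _) hm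
    have e2 : 1 ≤ eps * (Fintype.card ν + 1) := by
      rw [div_le_iff₀ heps] at hm2
      nlinarith
    have e3 : (0 : ℝ) < 2 ^ Fintype.card ν := by positivity
    have e4 : (2 : ℝ) ^ Fintype.card ν ≤ (Z \ C).card * (Fintype.card ν + 1) := by
      have e5 : (0 : ℝ) ≤ (Fintype.card ν + 1 : ℝ) := by positivity
      nlinarith [mul_le_mul_of_nonneg_right hlt.le e5]
    rw [pow_one]
    exact_mod_cast e4
  obtain ⟨d0, U, hU, hw⟩ := hm1 ν κ (le_trans (le_max_left _ _) hm) hk φ (Z \ C) hbig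
  let K : Finset (ν → ZMod 2) := univ.image fun w => d0 + U *ᵥ w
  have hK : ∀ d, d ∈ K ↔ ∃ w, d0 + U *ᵥ w = d := fun d => by simp [K]
  have hKC : ∀ d ∈ K, d ∈ Z ∧ d ∉ C := by
    intro d hd
    obtain ⟨w, rfl⟩ := (hK d).1 hd
    exact mem_sdiff.1 (hw w).1
  have htil : HcTil J φ (C ∪ K) (fun d => if d ∈ K then U else Um d) := by
    intro d hd
    by_cases hdK : d ∈ K
    · simp only [if_pos hdK]
      obtain ⟨w0, rfl⟩ := (hK d).1 hdK
      refine ⟨hU, (hw w0).2, fun w => ?_⟩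
      have : d0 + U *ᵥ w0 + U *ᵥ w ∈ K := (hK _).2 ⟨w0 + w, by rw [mulVec_add, add_assoc]⟩
      exact ⟨mem_union_right _ this, if_pos this⟩
    · have hdC : d ∈ C := (mem_union.1 hd).resolve_right hdK
      simp only [if_neg hdK]
      obtain ⟨h1, h2, h3⟩ := hUm d hdC
      refine ⟨h1, h2, fun w => ⟨mem_union_left _ (h3 w).1, ?_⟩⟩
      rw [if_neg (fun h => (hKC _ h).2 (h3 w).1)]
      exact (h3 w).2
  have h1 := hmax (C ∪ K) (by
    simp only [mem_filter, mem_powerset]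
    exact ⟨union_subset hCZ fun d hd => (hKC d hd).1, _, htil⟩)
  have h2 : d0 ∈ K := (hK d0).2 ⟨0, by simp⟩
  have h3 : C ⊂ C ∪ K :=
    ⟨subset_union_left, fun h => (hKC d0 h2).2 (h (mem_union_right _ h2))⟩
  exact absurd (card_lt_card h3) (not_lt.2 h1)

end Pool.Agent.Work.MP_4523ee_co.F2
end

-- merged part: Pool.Agent.Work.MP_4523ee_co.F2.L0
section
/-!
Level zero in characteristic two: a near extremal set is orthogonal to every function of
`diag M` and of boundedly many vectors `M φ_i(diag M)`.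
-/

set_option autoImplicit false
set_option linter.unusedSectionVars false

namespace Pool.Agent.Work.MP_4523ee_co.F2

open Finset Matrix Fp
open scoped BigOperators ComplexConjugate

variable {ν ν' : Type} [Fintype ν] [DecidableEq ν] [Fintype ν'] [DecidableEq ν']

/-- diagonal of a symmetric matrix -/
def dg (M : SymM 2 ν) : ν → ZMod 2 := fun i => M.1 i i

lemma dg_add (M N : SymM 2 ν) : dg (M + N) = dg M + dg N := rfl

lemma l0_sq (x : ZMod 2) : x * x = x := by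
  revert x
  decide

lemma dg_cj (U : Matrix ν ν' (ZMod 2)) (N : SymM 2 ν') : dg (cj U N) = U *ᵥ dg N := by
  funext i
  have hsym : ∀ s t, N.1 s t = N.1 t s := fun s t => (congrFun (congrFun (SymM_T N) s) t).symm
  show (U * N.1 * Uᵀ) i i = ∑ s, U i s * N.1 s s
  simp only [Matrix.mul_apply, transpose_apply, Finset.sum_mul]
  rw [← Finset.sum_product' (s := univ) (t := univ)
    (f := fun t s => U i s * N.1 s t * U i t)]
  rw [← Finset.sum_filter_add_sum_filter_not (univ ×ˢ univ) (fun q : ν' × ν' => q.1 = q.2)]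
  have h2 : ∑ q ∈ (univ ×ˢ univ).filter (fun q : ν' × ν' => ¬ q.1 = q.2),
      U i q.2 * N.1 q.2 q.1 * U i q.1 = 0 := by
    refine Finset.sum_involution (fun q _ => q.swap) ?_ ?_ ?_ ?_
    · intro q _
      simp only [Prod.fst_swap, Prod.snd_swap]
      rw [hsym q.1 q.2]
      have : U i q.1 * N.1 q.2 q.1 * U i q.2 = U i q.2 * N.1 q.2 q.1 * U i q.1 := by ring
      rw [this]
      exact CharTwo.add_self_eq_zero _
    · intro q hq _ h
      exact (mem_filter.1 hq).2 (congrArg Prod.snd h)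
    · intro q hq
      simp only [mem_filter, mem_product, mem_univ, true_and, Prod.fst_swap, Prod.snd_swap] at hq ⊢
      exact fun h => hq h.symm
    · intro q _
      rfl
  rw [h2, add_zero]
  symm
  refine Finset.sum_bij (fun s _ => (s, s)) (by simp) (fun a _ b _ h => congrArg Prod.fst h) ?_ ?_
  · intro q hq
    exact ⟨q.1, mem_univ _, Prod.ext rfl (mem_filter.1 hq).2⟩
  · intro s _
    show U i s * N.1 s s = U i s * N.1 s s * U i s
    rw [mul_right_comm, l0_sq]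

lemma l0_add_self (M : SymM 2 ν) : M + M = 0 := by
  apply Subtype.ext
  ext i j
  exact CharTwo.add_self_eq_zero (M.1 i j)

/-- the diagonal is uniform -/
lemma expect_dg (h : (ν → ZMod 2) → ℝ) : 𝔼 M : SymM 2 ν, h (dg M) = 𝔼 d, h d := by
  let D : (ν → ZMod 2) → SymM 2 ν := fun v => ⟨diagonal v, diagonal_transpose v⟩
  have hD : ∀ v, dg (D v) = v := fun v => funext fun i => diagonal_apply_eq v i
  have h1 : ∀ v, 𝔼 M : SymM 2 ν, h (dg M) = 𝔼 M : SymM 2 ν, h (dg M + v) := fun v =>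
    (Fintype.expect_equiv (Equiv.addRight (D v)) _ _ fun M => by
      simp only [Equiv.coe_addRight, dg_add, hD]).symm
  have h2 : ∀ M : SymM 2 ν, 𝔼 v, h (dg M + v) = 𝔼 d, h d := fun M =>
    Fintype.expect_equiv (Equiv.addLeft (dg M)) _ _ fun _ => rfl
  calc 𝔼 M : SymM 2 ν, h (dg M) = 𝔼 v : ν → ZMod 2, 𝔼 M : SymM 2 ν, h (dg M + v) := by
        simp only [← h1, Fintype.expect_const]
    _ = _ := by
        rw [Finset.expect_comm]
        simp only [h2, Fintype.expect_const]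

/-- averaging over the tiles of a cube partition -/
lemma tile_avg {κ : Type} {J : ℕ} {φ : (ν → ZMod 2) → κ → ν → ZMod 2}
    {C : Finset (ν → ZMod 2)} {Um : (ν → ZMod 2) → Matrix ν (Fin J) (ZMod 2)}
    (h : HcTil J φ C Um) (F : SymM 2 ν → ℝ) :
    𝔼 M, ind (C : Set _) (dg M) * F M =
      𝔼 M, ind (C : Set _) (dg M) * 𝔼 N : SymM 2 (Fin J), F (M + cj (Um (dg M)) N) := by
  classical
  have key : ∀ N : SymM 2 (Fin J), 𝔼 M, ind (C : Set _) (dg M) * F M =
      𝔼 M, ind (C : Set _) (dg M) * F (M + cj (Um (dg M)) N) := by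
    intro N
    let th : SymM 2 ν → SymM 2 ν := fun M => if dg M ∈ C then M + cj (Um (dg M)) N else M
    have hth : Function.Involutive th := by
      intro M
      by_cases hM : dg M ∈ C
      · obtain ⟨-, -, h3⟩ := h _ hM
        have e1 : th M = M + cj (Um (dg M)) N := if_pos hM
        have e2 : dg (th M) = dg M + Um (dg M) *ᵥ dg N := by rw [e1, dg_add, dg_cj]
        have e3 : th (th M) = th M + cj (Um (dg (th M))) N := if_pos (e2 ▸ (h3 _).1)
        rw [e3, e2, (h3 _).2, e1, add_assoc, l0_add_self, add_zero]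
      · have e1 : th M = M := if_neg hM
        rw [e1, e1]
    symm
    refine Fintype.expect_equiv hth.toPerm _ _ fun M => ?_
    show _ = ind (C : Set _) (dg (th M)) * F (th M)
    by_cases hM : dg M ∈ C
    · have e1 : th M = M + cj (Um (dg M)) N := if_pos hM
      have e2 : dg (th M) ∈ C := by
        rw [e1, dg_add, dg_cj]
        exact ((h _ hM).2.2 _).1
      rw [← e1]
      simp [ind, hM, e2]
    · have e1 : th M = M := if_neg hM
      rw [e1]
      simp [ind, hM]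
  simp only [Finset.mul_expect]
  rw [Finset.expect_comm]
  simp only [← key, Fintype.expect_const]

lemma l0_ind_nonneg {α : Type} (A : Set α) (x : α) : 0 ≤ ind A x := by
  unfold ind
  split_ifs <;> norm_num

lemma l0_ind_le {α : Type} (A : Set α) (x : α) : ind A x ≤ 1 := by
  unfold ind
  split_ifs <;> norm_num

/-- mass of the uncovered part -/
lemma l0_rest (Z C : Finset (ν → ZMod 2)) (hC : C ⊆ Z) {eps : ℝ}
    (h : ((Z \ C).card : ℝ) ≤ eps * 2 ^ Fintype.card ν) :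
    𝔼 M : SymM 2 ν, (ind (Z : Set _) (dg M) - ind (C : Set _) (dg M)) ≤ eps := by
  classical
  rw [expect_dg fun d => ind (Z : Set (ν → ZMod 2)) d - ind (C : Set (ν → ZMod 2)) d]
  have h1 : ∀ d, ind (Z : Set (ν → ZMod 2)) d - ind (C : Set _) d =
      if d ∈ Z \ C then 1 else 0 := by
    intro d
    by_cases h1 : d ∈ C
    · simp [ind, h1, hC h1]
    · by_cases h2 : d ∈ Z <;> simp [ind, h1, h2]
  simp only [h1]
  rw [Fintype.expect_eq_sum_div_card, Finset.sum_ite_mem, univ_inter, sum_const, nsmul_eq_mul,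
    mul_one, div_le_iff₀ (by exact_mod_cast Fintype.card_pos)]
  simpa using h

/-- upper bound on unions of fibres of the diagonal -/
lemma l0_plain (τ : ℝ) (hτ : 0 < τ) : ∃ n0 : ℕ, ∀ (ν : Type) [Fintype ν] [DecidableEq ν],
    n0 ≤ Fintype.card ν → ∀ A : Set (SymM 2 ν), Ind A → ∀ D : Set (ν → ZMod 2),
      𝔼 M, ind D (dg M) * (ind A M - aS 2) ≤ τ := by
  obtain ⟨J, hJ⟩ := UB (p := 2) (τ / 2) (by positivity)
  obtain ⟨m0, hm0⟩ := hc_tiling J 0 (τ / 2) (by positivity)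
  refine ⟨m0, fun ν _ _ hn A hA D => ?_⟩
  classical
  obtain ⟨C, Um, hCZ, htil, hrest⟩ := hm0 ν Empty hn (by simp) (fun _ e => e.elim) D.toFinset
  have h1 := l0_rest _ _ hCZ hrest
  rw [Set.coe_toFinset] at h1
  have h2 : 𝔼 M, ind (C : Set _) (dg M) * (ind A M - aS 2) ≤ τ / 2 := by
    rw [tile_avg htil]
    refine Finset.expect_le univ_nonempty fun M _ => ?_
    by_cases hM : dg M ∈ C
    · have e1 := hJ (Fin J) (by simp) _ (hA.res M (htil _ hM).1)
      have e2 : 𝔼 N : SymM 2 (Fin J), (ind A (M + cj (Um (dg M)) N) - aS 2) =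
          dens (res A M (Um (dg M))) - aS 2 := by
        rw [Finset.expect_sub_distrib, Fintype.expect_const]
        rfl
      rw [e2]
      have e3 : ind (C : Set _) (dg M) = 1 := by simp [ind, hM]
      rw [e3]
      linarith
    · have e3 : ind (C : Set _) (dg M) = 0 := by simp [ind, hM]
      rw [e3, zero_mul]
      positivity
  have h3 : 𝔼 M, ind D (dg M) * (ind A M - aS 2) ≤
      𝔼 M, (ind (C : Set _) (dg M) * (ind A M - aS 2) +
        (ind D (dg M) - ind (C : Set _) (dg M))) := by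
    refine Finset.expect_le_expect fun M _ => ?_
    have e1 : 0 ≤ ind D (dg M) - ind (C : Set _) (dg M) := by
      by_cases hM : dg M ∈ C
      · have : dg M ∈ D := Set.mem_toFinset.1 (hCZ hM)
        simp [ind, hM, this]
      · have := l0_ind_nonneg D (dg M)
        simpa [ind, hM] using this
    have e2 := l0_ind_le A M
    have e3 := aS_nonneg (p := 2)
    nlinarith
  rw [Finset.expect_add_distrib] at h3
  linarith

/-- upper bound on sets given by the diagonal and boundedly many moving vectors -/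
lemma l0_moving (k : ℕ) (τ : ℝ) (hτ : 0 < τ) : ∃ n0 : ℕ, ∀ (ν : Type) [Fintype ν]
    [DecidableEq ν], n0 ≤ Fintype.card ν → ∀ A : Set (SymM 2 ν), Ind A →
    ∀ (κ : Type) [Fintype κ] [DecidableEq κ], Fintype.card κ ≤ k →
    ∀ (φ : (ν → ZMod 2) → κ → ν → ZMod 2) (S : Set ((ν → ZMod 2) × (κ → ν → ZMod 2))),
      𝔼 M, ind S (dg M, fun i => M.1 *ᵥ φ (dg M) i) * (ind A M - aS 2) ≤ τ := by
  obtain ⟨J, hJ⟩ := l0_plain (τ / 2) (by positivity)
  obtain ⟨m0, hm0⟩ := hc_tiling J k (τ / 2) (by positivity)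
  refine ⟨m0, fun ν _ _ hn A hA κ _ _ hk φ S => ?_⟩
  classical
  obtain ⟨C, Um, hCZ, htil, hrest⟩ := hm0 ν κ hn hk φ univ
  have h1 := l0_rest _ _ hCZ hrest
  have h2 : 𝔼 M, ind (C : Set _) (dg M) *
      (ind S (dg M, fun i => M.1 *ᵥ φ (dg M) i) * (ind A M - aS 2)) ≤ τ / 2 := by
    rw [tile_avg htil]
    refine Finset.expect_le univ_nonempty fun M _ => ?_
    by_cases hM : dg M ∈ C
    · obtain ⟨e0, -, e4⟩ := htil _ hM
      have e1 := hJ (Fin J) (by simp) _ (hA.res M e0)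
        {w | (dg M + Um (dg M) *ᵥ w, fun i => M.1 *ᵥ φ (dg M + Um (dg M) *ᵥ w) i) ∈ S}
      have e3 : ind (C : Set _) (dg M) = 1 := by simp [ind, hM]
      rw [e3, one_mul]
      refine le_of_eq_of_le (Finset.expect_congr rfl fun N _ => ?_) e1
      have e5 : (fun i => (M + cj (Um (dg M)) N).1 *ᵥ φ (dg M + Um (dg M) *ᵥ dg N) i) =
          fun i => M.1 *ᵥ φ (dg M + Um (dg M) *ᵥ dg N) i := by
        funext i
        have e6 := (htil _ (e4 (dg N)).1).2.1 i
        rw [(e4 (dg N)).2] at e6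
        show (M.1 + Um (dg M) * N.1 * (Um (dg M))ᵀ) *ᵥ _ = _
        rw [add_mulVec, ← mulVec_mulVec, mulVec_transpose, e6, mulVec_zero, add_zero]
      rw [dg_add, dg_cj, e5]
      rfl
    · have e3 : ind (C : Set _) (dg M) = 0 := by simp [ind, hM]
      rw [e3, zero_mul]
      positivity
  have h3 : 𝔼 M : SymM 2 ν, ind S (dg M, fun i => M.1 *ᵥ φ (dg M) i) * (ind A M - aS 2) ≤
      𝔼 M : SymM 2 ν, (ind (C : Set _) (dg M) *
        (ind S (dg M, fun i => M.1 *ᵥ φ (dg M) i) * (ind A M - aS 2)) +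
        (ind ((univ : Finset (ν → ZMod 2)) : Set _) (dg M) - ind (C : Set _) (dg M))) := by
    refine Finset.expect_le_expect fun M _ => ?_
    have e0 : ind ((univ : Finset (ν → ZMod 2)) : Set _) (dg M) = 1 := by simp [ind]
    have e1 := l0_ind_le (C : Set _) (dg M)
    have e2 := l0_ind_le A M
    have e3 := aS_nonneg (p := 2)
    have e4 := l0_ind_le S (dg M, fun i => M.1 *ᵥ φ (dg M) i)
    have e5 := l0_ind_nonneg S (dg M, fun i => M.1 *ᵥ φ (dg M) i)
    have e6 : ind S (dg M, fun i => M.1 *ᵥ φ (dg M) i) * (ind A M - aS 2) ≤ 1 := by nlinarith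
    rw [e0]
    nlinarith
  rw [Finset.expect_add_distrib] at h3
  linarith

/-- small on all measurable sets implies small against all measurable functions -/
lemma l0_l2 {Ω T : Type} [Fintype Ω] [Nonempty Ω] (π : Ω → T) (f : Ω → ℝ) (hf : ∀ x, |f x| ≤ 1)
    {τ : ℝ} (h : ∀ S : Set T, |𝔼 x, ind S (π x) * f x| ≤ τ) (g : T → ℂ) :
    ‖𝔼 x, (f x : ℂ) * g (π x)‖ ≤ √(2 * τ) * √(en fun x => g (π x)) := by
  classical
  have hN : (0 : ℝ) < Fintype.card Ω := by exact_mod_cast Fintype.card_pos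
  let R : Finset T := univ.image π
  have hR : ∀ x ∈ (univ : Finset Ω), π x ∈ R := fun x _ => mem_image_of_mem _ (mem_univ x)
  let c : T → ℝ := fun t => ∑ x ∈ univ.filter (fun x => π x = t), f x
  let n : T → ℝ := fun t => ∑ _x ∈ univ.filter (fun x => π x = t), (1 : ℝ)
  have hcn : ∀ t, |c t| ≤ n t := fun t =>
    (abs_sum_le_sum_abs _ _).trans (sum_le_sum fun x _ => hf x)
  have fib : ∀ u : T → ℝ, ∑ x, u (π x) * f x = ∑ t ∈ R, u t * c t := by
    intro u
    rw [← Finset.sum_fiberwise_of_maps_to hR]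
    refine sum_congr rfl fun t _ => ?_
    rw [Finset.mul_sum]
    exact sum_congr rfl fun x hx => by rw [(mem_filter.1 hx).2]
  have habs : ∑ t ∈ R, |c t| ≤ 2 * τ * Fintype.card Ω := by
    have a1 := h {t | 0 ≤ c t}
    have a2 := h {t | ¬ 0 ≤ c t}
    rw [Fintype.expect_eq_sum_div_card, fib (ind _), abs_div, abs_of_pos hN, div_le_iff₀ hN]
      at a1 a2
    have a3 : ∑ t ∈ R, |c t| = ∑ t ∈ R, ind {t | 0 ≤ c t} t * c t -
        ∑ t ∈ R, ind {t | ¬ 0 ≤ c t} t * c t := by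
      rw [← Finset.sum_sub_distrib]
      refine sum_congr rfl fun t _ => ?_
      by_cases ht : 0 ≤ c t
      · simp [ind, ht, abs_of_nonneg ht, not_lt.2 ht]
      · simp [ind, ht, abs_of_neg (not_le.1 ht), not_le.1 ht]
    rw [a3]
    linarith [le_abs_self (∑ t ∈ R, ind {t | 0 ≤ c t} t * c t),
      neg_abs_le (∑ t ∈ R, ind {t | ¬ 0 ≤ c t} t * c t)]
  have e1 : ∑ x, (f x : ℂ) * g (π x) = ∑ t ∈ R, (c t : ℂ) * g t := by
    rw [← Finset.sum_fiberwise_of_maps_to hR]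
    refine sum_congr rfl fun t _ => ?_
    simp only [c, Complex.ofReal_sum, Finset.sum_mul]
    exact sum_congr rfl fun x hx => by rw [(mem_filter.1 hx).2]
  have e2 : ∑ x, ‖g (π x)‖ ^ 2 = ∑ t ∈ R, n t * ‖g t‖ ^ 2 := by
    rw [← Finset.sum_fiberwise_of_maps_to hR]
    refine sum_congr rfl fun t _ => ?_
    simp only [n, Finset.sum_mul]
    exact sum_congr rfl fun x hx => by rw [(mem_filter.1 hx).2, one_mul]
  have e3 : ‖∑ t ∈ R, (c t : ℂ) * g t‖ ≤ ∑ t ∈ R, √|c t| * (√|c t| * ‖g t‖) := by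
    refine (norm_sum_le _ _).trans (le_of_eq (sum_congr rfl fun t _ => ?_))
    rw [norm_mul, Complex.norm_real, Real.norm_eq_abs, ← mul_assoc,
      Real.mul_self_sqrt (abs_nonneg _)]
  have e4 := Real.sum_mul_le_sqrt_mul_sqrt R (fun t => √|c t|) (fun t => √|c t| * ‖g t‖)
  have e5 : ∑ t ∈ R, √|c t| ^ 2 ≤ 2 * τ * Fintype.card Ω := by
    simpa only [Real.sq_sqrt (abs_nonneg _)] using habs
  have e6 : ∑ t ∈ R, (√|c t| * ‖g t‖) ^ 2 ≤ (en fun x => g (π x)) * Fintype.card Ω := by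
    rw [en, Fintype.expect_eq_sum_div_card, div_mul_cancel₀ _ hN.ne', e2]
    refine sum_le_sum fun t _ => ?_
    rw [mul_pow, Real.sq_sqrt (abs_nonneg _)]
    exact mul_le_mul_of_nonneg_right (hcn t) (by positivity)
  have hτ : 0 ≤ τ := (abs_nonneg _).trans (h ∅)
  have hen : 0 ≤ en fun x => g (π x) := Finset.expect_nonneg fun x _ => by positivity
  rw [Fintype.expect_eq_sum_div_card, e1, norm_div, Complex.norm_natCast, div_le_iff₀ hN]
  calc _ ≤ _ := e3.trans e4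
    _ ≤ √(2 * τ * Fintype.card Ω) * √((en fun x => g (π x)) * Fintype.card Ω) := by
        gcongr
    _ = _ := by
        rw [Real.sqrt_mul (by positivity : 0 ≤ 2 * τ), Real.sqrt_mul hen]
        have := Real.mul_self_sqrt hN.le
        calc _ = √(2 * τ) * √(en fun x => g (π x)) *
            (√(Fintype.card Ω : ℝ) * √(Fintype.card Ω : ℝ)) := by ring
          _ = _ := by rw [this]

/-- level zero, moving form -/
theorem L0 (k : ℕ) (ε : ℝ) (hε : 0 < ε) : Ev 2 fun ν _ _ A =>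
    ∀ (κ : Type) [Fintype κ] [DecidableEq κ], Fintype.card κ ≤ k →
    ∀ (φ : (ν → ZMod 2) → κ → ν → ZMod 2) (g : (ν → ZMod 2) × (κ → ν → ZMod 2) → ℂ),
      ‖𝔼 M, fA A M * g (dg M, fun i => M.1 *ᵥ φ (dg M) i)‖ ≤
        ε * √(en fun M : SymM 2 ν => g (dg M, fun i => M.1 *ᵥ φ (dg M) i)) := by
  obtain ⟨n0, hn0⟩ := l0_moving k (ε ^ 2 / 4) (by positivity)
  refine ⟨ε ^ 2 / 4, by positivity, n0, fun ν _ _ hn A hA κ _ _ hk φ g => ?_⟩
  have h := l0_l2 (fun M : SymM 2 ν => (dg M, fun i => M.1 *ᵥ φ (dg M) i))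
    (fun M => ind A M - aS 2) (τ := ε ^ 2 / 2) ?_ ?_ g
  · rw [show 2 * (ε ^ 2 / 2) = ε ^ 2 by ring, Real.sqrt_sq hε.le] at h
    exact h
  · intro M
    have := l0_ind_le A M
    have := l0_ind_nonneg A M
    have := aS_nonneg (p := 2)
    have := aS_le_one (p := 2)
    rw [abs_le]
    constructor <;> linarith
  · intro S
    have a1 := hn0 ν hn A hA.1 κ hk φ S
    have a2 := hn0 ν hn A hA.1 κ hk φ Sᶜ
    have a3 : 𝔼 M : SymM 2 ν, ind S (dg M, fun i => M.1 *ᵥ φ (dg M) i) * (ind A M - aS 2) +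
        𝔼 M : SymM 2 ν, ind Sᶜ (dg M, fun i => M.1 *ᵥ φ (dg M) i) * (ind A M - aS 2) =
        dens A - aS 2 := by
      rw [← Finset.expect_add_distrib, Fp.dens, ← Fintype.expect_const (ι := SymM 2 ν) (aS 2),
        ← Finset.expect_sub_distrib]
      refine Finset.expect_congr rfl fun M _ => ?_
      rw [Fintype.expect_const]
      by_cases hM : (dg M, fun i => M.1 *ᵥ φ (dg M) i) ∈ S <;> simp [ind, hM]
    have a4 := hA.2
    have a5 : 0 < ε ^ 2 := by positivity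
    rw [abs_le]
    constructor <;> linarith

end Pool.Agent.Work.MP_4523ee_co.F2
end

-- merged part: Pool.Agent.Work.MP_4523ee_co.F2.Defs2
section
/-!
Characteristic two: definitions and interface statements of the main line.
A quadratic space is given by a half form `b`, with polar form `pol b` and `q x = b x x`; the
characters are `chi b M l`.
-/

set_option autoImplicit false
set_option linter.unusedSectionVars false

namespace Pool.Agent.Work.MP_4523ee_co.F2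

open Finset hiding dens
open Matrix Pool.Agent.Work.MP_4523ee_co.Fp
open scoped BigOperators ComplexConjugate

section
variable {X : Type} [AddCommGroup X] [Module (ZMod 2) X]
variable {ν : Type} [Fintype ν] [DecidableEq ν]

/-- polar form of a half form -/
def pol (b : Bil 2 X) : Bil 2 X := b + b.flip

lemma pol_apply (b : Bil 2 X) (x y : X) : pol b x y = b x y + b y x := rfl

lemma pol_sym (b : Bil 2 X) : SymB (pol b) := fun x y => by
  rw [pol_apply, pol_apply, add_comm]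

lemma pol_self (b : Bil 2 X) (x : X) : pol b x x = 0 := CharTwo.add_self_eq_zero _

/-- the fibre over `v` -/
def Fb (v : ν → ZMod 2) : Set (SymM 2 ν) := {M | dg M = v}

/-- `P` depends only on the diagonal and on the characters of the slice -/
def SlInv {ι α : Type} (b : Bil 2 X) (κ : Matrix ι ν (ZMod 2)) (e : ι → X)
    (P : SymM 2 ν → α) : Prop :=
  ∀ M M', dg M = dg M' → (∀ l, act κ l = e → chi b M l = chi b M' l) → P M = P M'

variable [Fintype X]

/-- a family of coefficient vectors, one for each fibre -/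
noncomputable def FV (b : Bil 2 X) (a : (ν → ZMod 2) → (ν → X) → ℂ) (M : SymM 2 ν) : ℂ :=
  FF b (a (dg M)) M

/-- weak mixing of a family on the set `D`, for all twists -/
def SP (β : Bil 2 X) (θ : ℝ) (D : Set (ν → ZMod 2)) (a : (ν → ZMod 2) → (ν → X) → ℂ) : Prop :=
  ∀ c : X, 𝔼 v, 𝔼 v', ind D v * ind D v' *
    ‖∑ l, conj (a v l) * a v' l * ee (β c (∑ i, (v + v') i • l i))‖ ^ 2 ≤ θ

end

/-- the data of the bilinear bound -/
def Data2 (r r₁ : ℕ) (ν : Type) [Fintype ν] [DecidableEq ν]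
    (P : ∀ (X₁ X₂ : Type) [AddCommGroup X₁] [Module (ZMod 2) X₁] [Fintype X₁] [AddCommGroup X₂]
      [Module (ZMod 2) X₂] [Fintype X₂], Bil 2 X₁ → Bil 2 X₂ → (Fin r → X₁ × X₂) →
      Matrix (Fin r) ν (ZMod 2) → Prop) : Prop :=
  ∀ (X₁ X₂ : Type) [AddCommGroup X₁] [Module (ZMod 2) X₁] [Fintype X₁] [AddCommGroup X₂]
    [Module (ZMod 2) X₂] [Fintype X₂] (b₁ : Bil 2 X₁) (b₂ : Bil 2 X₂) (e : Fin r → X₁ × X₂)
    (κ : Matrix (Fin r) ν (ZMod 2)), NdB (pol b₁) → NdB (pol b₂) →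
    Module.finrank (ZMod 2) X₁ = r₁ →
    Module.finrank (ZMod 2) X₁ + Module.finrank (ZMod 2) X₂ = r →
    Submodule.span (ZMod 2) (Set.range e) = ⊤ → P X₁ X₂ b₁ b₂ e κ

/-- the bilinear bound with constant `c`; `cst = True` is class E (first family constant),
`cst = False` is class O (all families) -/
def Bnd2 (cst : Prop) (r r₁ : ℕ) (c : ℝ) : Prop :=
  Ev 2 fun ν _ _ A => Data2 r r₁ ν fun X₁ X₂ _ _ _ _ _ _ b₁ b₂ e κ =>
    ∀ (a₁ : (ν → ZMod 2) → (ν → X₁) → ℂ) (a₂ : (ν → ZMod 2) → (ν → X₂) → ℂ),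
      (cst → ∀ v v', a₁ v = a₁ v') → (∀ v, OnSl κ (fun i => (e i).1) (a₁ v)) →
      (∀ v, OnSl κ (fun i => (e i).2) (a₂ v)) →
      ‖𝔼 M, fA A M * (FV b₁ a₁ M * FV b₂ a₂ M)‖ ≤ c * √(𝔼 v, nsq (a₁ v) * nsq (a₂ v))

/-- output of the reduction to primitive vectors -/
def PrimOut2 (cst : Prop) (r r₁ : ℕ) : Prop :=
  ∀ ε s₀ : ℝ, 0 < ε → 0 < s₀ → ∃ T : ℝ, 0 < T ∧ ∀ θ : ℝ, 0 < θ →
    Ev 2 fun ν _ _ A => Data2 r r₁ ν fun X₁ X₂ _ _ _ _ _ _ b₁ b₂ e κ =>
      ∀ (a₁ : (ν → ZMod 2) → (ν → X₁) → ℂ) (a₂ : (ν → ZMod 2) → (ν → X₂) → ℂ),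
        (cst → ∀ v v', a₁ v = a₁ v') → (∀ v, OnSl κ (fun i => (e i).1) (a₁ v)) →
        (∀ v, OnSl κ (fun i => (e i).2) (a₂ v)) → 𝔼 v, nsq (a₁ v) * nsq (a₂ v) ≤ 1 →
        s₀ ≤ ‖𝔼 M, fA A M * (FV b₁ a₁ M * FV b₂ a₂ M)‖ →
        ∃ (D : Set (ν → ZMod 2)) (c₁ : (ν → ZMod 2) → (ν → X₁) → ℂ)
          (c₂ : (ν → ZMod 2) → (ν → X₂) → ℂ), (∀ v, OnSl κ (fun i => (e i).1) (c₁ v)) ∧
          (∀ v, OnSl κ (fun i => (e i).2) (c₂ v)) ∧
          (∀ v ∈ D, nsq (c₁ v) = 1 ∧ Prim (pol b₁) θ (c₁ v) ∧ Pos (pol b₁) θ (c₁ v)) ∧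
          (∀ v, v ∉ D → c₁ v = 0) ∧ (cst → D = Set.univ ∧ ∀ v v', c₁ v = c₁ v') ∧
          (¬ cst → SP (pol b₁) θ D c₁) ∧ (∀ v, nsq (c₂ v) ≤ T) ∧ 𝔼 v, nsq (c₂ v) ≤ 1 ∧
          ‖𝔼 M, fA A M * (FV b₁ a₁ M * FV b₂ a₂ M)‖ - ε ≤
            ‖𝔼 M, fA A M * (FV b₁ c₁ M * FV b₂ c₂ M)‖

/-- output of the fibred cleaning at level `s` for spaces of dimension at most `R` -/
def FCout (s R : ℕ) : Prop :=
  ∀ ε : ℝ, 0 < ε → Ev 2 fun ν _ _ A => ∃ B : Set (SymM 2 ν), dens B ≤ ε ∧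
    ∀ (v : ν → ZMod 2) (Y : Submodule (ZMod 2) ((ν → ZMod 2) × (ν → ZMod 2))),
      Module.finrank (ZMod 2) Y ≤ R → ∀ G : SymM 2 ν → ℂ, Lv s G →
      ‖𝔼 M, (ind (CY Y ∩ Fb v) M : ℂ) * (fB A B M * G M)‖ ≤
        ε * (√(dens (CY Y ∩ Fb v)) * √(𝔼 M, ind (CY Y ∩ Fb v) M * ‖G M‖ ^ 2))

/-- output of the Gaussian tile for spaces of size at most `k` and slices with `r` rows -/
def GTout (k r : ℕ) : Prop :=
  ∀ ε : ℝ, 0 < ε → ∃ J0 : ℕ, ∀ J : ℕ, J0 ≤ J → ∃ θ : ℝ, 0 < θ ∧ ∃ C : ℝ, 0 < C ∧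
    ∀ (X : Type) [AddCommGroup X] [Module (ZMod 2) X] [Fintype X] [Nontrivial X],
    Fintype.card X ≤ k → ∀ (ν : Type) [Fintype ν] [DecidableEq ν] (b : Bil 2 X), NdB (pol b) →
    ∀ (κ : Matrix (Fin r) ν (ZMod 2)) (e : Fin r → X),
    Submodule.span (ZMod 2) (Set.range e) = ⊤ →
    ∀ (a : (ν → ZMod 2) → (ν → X) → ℂ) (D : Set (ν → ZMod 2)),
    (∀ v ∈ D, nsq (a v) = 1 ∧ OnSl κ e (a v) ∧ Prim (pol b) θ (a v) ∧ Pos (pol b) θ (a v)) →
    ((D = Set.univ ∧ ∀ v v', a v = a v') ∨ SP (pol b) θ D a) →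
    ∀ n : (ν → ZMod 2) → ℝ, (∀ v, 0 ≤ n v ∧ n v ≤ 1) →
    ∃ w : SymM 2 ν → Matrix ν (Fin J) (ZMod 2) → ℝ, (∀ M U, 0 ≤ w M U) ∧
      (∀ M U (N : SymM 2 (Fin r ⊕ Fin J)), w (M + cj (fromCols κᵀ U) N) U = w M U) ∧
      (∀ U, SlInv b κ e fun M => w M U) ∧
      𝔼 M, (𝔼 U, w M U - 1) ^ 2 ≤ ε ^ 2 ∧ (∀ U, 𝔼 M, w M U ≤ C) ∧
      (200 * 2 ^ r : ℝ)⁻¹ * (𝔼 v, ind D v * n v) - ε ≤ 𝔼 M, 𝔼 U, w M U *
        (ind D (dg M) * n (dg M) * ‖FF b (cut Uᵀ 0 (a (dg M))) M‖ ^ 2)

/-- output of the moving slice lemma at level `s` with `k` vector fields -/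
def SCout (s k : ℕ) : Prop :=
  ∀ ε : ℝ, 0 < ε → Ev 2 fun ν _ _ A => ∀ (ι : Type) [Fintype ι] [DecidableEq ι],
    Fintype.card ι ≤ k → ∀ (φ : (ν → ZMod 2) → ι → ν → ZMod 2) (G : SymM 2 ν → ℂ),
      (∀ (m : ℕ) (M : SymM 2 ν) (U : Matrix ν (Fin m) (ZMod 2)), (∀ i, Uᵀ *ᵥ φ (dg M) i = 0) →
        ∃ H : SymM 2 (Fin m) → ℂ, Lv s H ∧ ∀ N, dg N = 0 → G (M + cj U N) = H N) →
      ‖𝔼 M, fA A M * G M‖ ≤ ε * √(en G)

end Pool.Agent.Work.MP_4523ee_co.F2
end

-- merged part: Pool.Agent.Work.MP_4523ee_co.F2.SC2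
section
/-!
Characteristic two: the moving slice lemma.
-/

set_option autoImplicit false
set_option linter.unusedSectionVars false

namespace Pool.Agent.Work.MP_4523ee_co.F2

open Finset hiding dens
open Matrix Pool.Agent.Work.MP_4523ee_co.Fp
open scoped BigOperators ComplexConjugate

variable {ν : Type} [Fintype ν] [DecidableEq ν]

lemma cj_one {p : ℕ} [Fact p.Prime] (N : SymM p ν) : cj (1 : Matrix ν ν (ZMod p)) N = N := by
  apply Subtype.ext
  show 1 * N.1 * (1 : Matrix ν ν (ZMod p))ᵀ = N.1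
  rw [transpose_one, Matrix.one_mul, Matrix.mul_one]

lemma Lv.shift {p : ℕ} [Fact p.Prime] {s : ℕ} {G : SymM p ν → ℂ} (h : Lv s G) (M : SymM p ν) :
    Lv s fun N => G (M + N) := by
  have := h.tile M (1 : Matrix ν ν (ZMod p))
  simpa only [cj_one] using this

lemma ind_fin_mem {α : Type} {C : Finset α} {x : α} (h : x ∈ C) : ind (C : Set α) x = 1 :=
  ind_of_mem (mem_coe.2 h)

lemma ind_fin_not {α : Type} {C : Finset α} {x : α} (h : x ∉ C) : ind (C : Set α) x = 0 :=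
  ind_of_not fun k => h (mem_coe.1 k)

/-- complex form of `tile_avg` -/
lemma tile_avg_c {κ : Type} {J : ℕ} {φ : (ν → ZMod 2) → κ → ν → ZMod 2}
    {C : Finset (ν → ZMod 2)} {Um : (ν → ZMod 2) → Matrix ν (Fin J) (ZMod 2)}
    (h : HcTil J φ C Um) (F : SymM 2 ν → ℂ) :
    𝔼 M, (ind (C : Set _) (dg M) : ℂ) * F M =
      𝔼 M, (ind (C : Set _) (dg M) : ℂ) * 𝔼 N : SymM 2 (Fin J), F (M + cj (Um (dg M)) N) := by
  refine Complex.ext ?_ ?_
  · simp only [Complex.re_expect, Complex.re_ofReal_mul]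
    exact tile_avg h fun M => (F M).re
  · simp only [Complex.im_expect, Complex.im_ofReal_mul]
    exact tile_avg h fun M => (F M).im

/-- most tiles of a cube partition are near extremal -/
lemma tile_bad {κ : Type} {J : ℕ} {φ : (ν → ZMod 2) → κ → ν → ZMod 2}
    {C : Finset (ν → ZMod 2)} {Um : (ν → ZMod 2) → Matrix ν (Fin J) (ZMod 2)}
    (h : HcTil J φ C Um) {A : Set (SymM 2 ν)} {γ η0 e η : ℝ} (hγ : 0 ≤ γ) (hη : 0 < η)
    (hA : NE η0 A) (hUB : ∀ A' : Set (SymM 2 (Fin J)), Ind A' → dens A' ≤ aS 2 + γ)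
    (he : 𝔼 M : SymM 2 ν, (1 - ind (C : Set _) (dg M)) ≤ e) :
    𝔼 M : SymM 2 ν, ind (C : Set _) (dg M) * ind {M | ¬ NE η (res A M (Um (dg M)))} M ≤
      (γ + η0 + e) / η := by
  have a0 := aS_nonneg (p := 2)
  have k1 : ∀ M : SymM 2 ν, η * (ind (C : Set _) (dg M) *
      ind {M | ¬ NE η (res A M (Um (dg M)))} M) ≤ (aS 2 + γ) - ind (C : Set _) (dg M) *
        𝔼 N : SymM 2 (Fin J), ind A (M + cj (Um (dg M)) N) := fun M => by
    have e1 : 𝔼 N : SymM 2 (Fin J), ind A (M + cj (Um (dg M)) N) =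
      dens (res A M (Um (dg M))) := rfl
    rw [e1]
    by_cases hM : dg M ∈ C
    · have b0 := hA.1.res M (h _ hM).1
      have b1 := hUB _ b0
      rw [ind_fin_mem hM, one_mul, one_mul]
      by_cases hn : NE η (res A M (Um (dg M)))
      · rw [ind_of_not (A := {M | ¬ NE η (res A M (Um (dg M)))}) fun k => k hn]
        linarith
      · have b2 : dens (res A M (Um (dg M))) < aS 2 - η := not_le.1 fun k => hn ⟨b0, k⟩
        rw [ind_of_mem (A := {M | ¬ NE η (res A M (Um (dg M)))}) hn]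
        linarith
    · rw [ind_fin_not hM, zero_mul, zero_mul]
      linarith
  have k2 := Finset.expect_le_expect (s := univ) fun M _ => k1 M
  rw [← mul_expect, expect_sub_distrib, Fintype.expect_const, ← tile_avg h] at k2
  have k3 : 𝔼 M : SymM 2 ν, (ind A M - (1 - ind (C : Set _) (dg M))) ≤
      𝔼 M : SymM 2 ν, ind (C : Set _) (dg M) * ind A M :=
    Finset.expect_le_expect fun M _ => by
      have b1 := ind_le_one A M
      have b2 := ind_le_one (C : Set _) (dg M)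
      nlinarith
  rw [expect_sub_distrib] at k3
  have k4 : aS 2 - η0 ≤ 𝔼 M, ind A M := hA.2
  rw [le_div_iff₀ hη]
  linarith

theorem SC2 {s : ℕ} (hC : Claim2 2 s) (k : ℕ) : SCout s k := by
  intro ε hε
  obtain ⟨η, hη, n1, h1⟩ := hC (ε / 3) (by positivity)
  have hγ : 0 < min (ε ^ 2 * η / 27) (ε ^ 2 / 9) := by positivity
  set γ := min (ε ^ 2 * η / 27) (ε ^ 2 / 9) with hγe
  obtain ⟨J0, hJ⟩ := UB (p := 2) _ hγ
  obtain ⟨m0, hm0⟩ := hc_tiling (max n1 J0) k γ hγ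
  refine ⟨γ, hγ, m0, fun ν _ _ hn A hA ι _ _ hι φ G hG => ?_⟩
  classical
  obtain ⟨C, Um, hCZ, htil, hrest⟩ := hm0 ν ι hn hι φ univ
  have h2 := l0_rest _ _ hCZ hrest
  have h3 : 𝔼 M : SymM 2 ν, (1 - ind (C : Set _) (dg M)) ≤ γ := by
    refine le_of_eq_of_le (expect_congr rfl fun M _ => ?_) h2
    rw [ind_fin_mem (mem_univ _)]
  let B : Set (SymM 2 ν) := {M | ¬ NE η (res A M (Um (dg M)))}
  have k1 : 𝔼 M : SymM 2 ν, (ind (C : Set _) (dg M) * ind B M) ^ 2 ≤ (ε / 3) ^ 2 := by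
    have m := tile_bad htil hγ.le hη hA (hJ _ (by simp)) h3
    have m1 : (γ + γ + γ) / η ≤ (ε / 3) ^ 2 := by
      rw [div_le_iff₀ hη]
      have := min_le_left (ε ^ 2 * η / 27) (ε ^ 2 / 9)
      nlinarith
    refine le_trans (Finset.expect_le_expect fun M _ => ?_) (m.trans m1)
    have b1 := mul_nonneg (ind_nonneg (C : Set _) (dg M)) (ind_nonneg B M)
    have b2 := mul_le_one₀ (ind_le_one (C : Set _) (dg M)) (ind_nonneg B M) (ind_le_one B M)
    show _ ≤ ind (C : Set _) (dg M) * ind B M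
    nlinarith
  let R : SymM 2 ν → ℝ := fun M => ind (C : Set _) (dg M) *
    √(en fun N : SymM 2 (Fin (max n1 J0)) => G (M + cj (Um (dg M)) N))
  have k2 : ∀ M, ‖(ind (C : Set _) (dg M) : ℂ) * 𝔼 N : SymM 2 (Fin (max n1 J0)),
      fA A (M + cj (Um (dg M)) N) * G (M + cj (Um (dg M)) N)‖ ≤
      ε / 3 * (1 * R M) + ind (C : Set _) (dg M) * ind B M * R M := by
    intro M
    have s0 := Real.sqrt_nonneg (en fun N : SymM 2 (Fin (max n1 J0)) => G (M + cj (Um (dg M)) N))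
    by_cases hMC : dg M ∈ C
    · simp only [R]
      rw [ind_fin_mem hMC]
      simp only [Complex.ofReal_one, one_mul]
      by_cases hM : M ∈ B
      · rw [ind_of_mem hM]
        have b1 := norm_expect_mul_le (fun N => fA A (M + cj (Um (dg M)) N))
          fun N => G (M + cj (Um (dg M)) N)
        have b2 : √(en fun N : SymM 2 (Fin (max n1 J0)) => fA A (M + cj (Um (dg M)) N)) ≤ 1 :=
          Real.sqrt_le_one.2 (Finset.expect_le univ_nonempty fun N _ =>
            pow_le_one₀ (norm_nonneg _) (norm_fA_le A _))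
        nlinarith [mul_le_mul_of_nonneg_right b2 s0, mul_nonneg hε.le s0]
      · rw [ind_of_not hM, zero_mul, add_zero]
        refine h1 _ (by simp) _ (not_not.1 hM) _ (Lv_of_fibres fun w => ?_)
        let D : SymM 2 (Fin (max n1 J0)) := ⟨diagonal w, diagonal_transpose w⟩
        have hD : dg D = w := funext fun i => diagonal_apply_eq w i
        have e1 : dg (M + cj (Um (dg M)) D) = dg M + Um (dg M) *ᵥ w := by rw [dg_add, dg_cj, hD]
        obtain ⟨H, b1, b2⟩ := hG _ (M + cj (Um (dg M)) D) (Um (dg M)) fun i => by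
          have e2 := (htil _ ((htil _ hMC).2.2 w).1).2.1 i
          rw [((htil _ hMC).2.2 w).2] at e2
          rw [e1, mulVec_transpose, e2]
        refine ⟨fun N => H (D + N), b1.shift D, fun N hN => ?_⟩
        have e3 : dg (D + N) = 0 := by
          rw [dg_add, hD, show dg N = w from hN]
          exact funext fun i => CharTwo.add_self_eq_zero (w i)
        show G (M + cj (Um (dg M)) N) = H (D + N)
        rw [← b2 _ e3, add_assoc, ← cj_add, ← add_assoc, l0_add_self, zero_add]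
    · simp only [R]
      rw [ind_fin_not hMC]
      simp
  have k3 : 𝔼 M, R M ^ 2 ≤ en G := by
    have e1 : ∀ M, R M ^ 2 = ind (C : Set _) (dg M) *
        𝔼 N : SymM 2 (Fin (max n1 J0)), ‖G (M + cj (Um (dg M)) N)‖ ^ 2 := fun M => by
      simp only [R]
      rw [mul_pow, Real.sq_sqrt (en_nonneg _)]
      by_cases hMC : dg M ∈ C
      · rw [ind_fin_mem hMC, one_pow]
        rfl
      · rw [ind_fin_not hMC]
        simp
    simp only [e1]
    rw [← tile_avg htil fun M => ‖G M‖ ^ 2]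
    exact Finset.expect_le_expect fun M _ => mul_le_of_le_one_left (sq_nonneg _) (ind_le_one _ _)
  have k3' := Real.sqrt_le_sqrt k3
  have k4 := expect_mul_le_sqrt (fun _ : SymM 2 ν => (1 : ℝ)) R
  have k5 := expect_mul_le_sqrt (fun M => ind (C : Set _) (dg M) * ind B M) R
  rw [Fintype.expect_const, one_pow, Real.sqrt_one, one_mul] at k4
  have k6 : √(𝔼 M : SymM 2 ν, (ind (C : Set _) (dg M) * ind B M) ^ 2) ≤ ε / 3 :=
    Real.sqrt_le_iff.2 ⟨by positivity, k1⟩
  have s1 := Real.sqrt_nonneg (en G)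
  have s2 := Real.sqrt_nonneg (𝔼 M, R M ^ 2)
  have k7 : ‖𝔼 M, (ind (C : Set _) (dg M) : ℂ) * (fA A M * G M)‖ ≤ 2 * (ε / 3) * √(en G) := by
    rw [tile_avg_c htil fun M => fA A M * G M]
    refine (RCLike.norm_expect_le (K := ℂ)).trans
      ((Finset.expect_le_expect fun M _ => k2 M).trans ?_)
    rw [Finset.expect_add_distrib, ← Finset.mul_expect]
    have hε3 : 0 ≤ ε / 3 := by positivity
    nlinarith [mul_le_mul_of_nonneg_right k6 s2, mul_le_mul_of_nonneg_left k4 hε3,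
      mul_le_mul_of_nonneg_left k3' hε3]
  have k8 : ‖𝔼 M, ((1 - ind (C : Set _) (dg M) : ℝ) : ℂ) * fA A M * G M‖ ≤ ε / 3 * √(en G) := by
    refine (norm_expect_mul_le _ _).trans (mul_le_mul_of_nonneg_right ?_ s1)
    refine Real.sqrt_le_iff.2 ⟨by positivity, le_trans (Finset.expect_le_expect fun M _ => ?_)
      (h3.trans ((min_le_right _ _).trans_eq (by ring)))⟩
    have b1 := norm_fA_le A M
    have b2 := norm_nonneg (fA A M)
    beta_reduce
    by_cases hMC : dg M ∈ C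
    · rw [ind_fin_mem hMC]
      simp
    · rw [ind_fin_not hMC, sub_zero, Complex.ofReal_one, one_mul]
      nlinarith
  have k9 : 𝔼 M, fA A M * G M = 𝔼 M, (ind (C : Set _) (dg M) : ℂ) * (fA A M * G M) +
      𝔼 M, ((1 - ind (C : Set _) (dg M) : ℝ) : ℂ) * fA A M * G M := by
    rw [← expect_add_distrib]
    refine expect_congr rfl fun M _ => ?_
    push_cast
    ring
  rw [k9]
  refine (norm_add_le _ _).trans ?_
  linarith

end Pool.Agent.Work.MP_4523ee_co.F2
end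

-- merged part: Pool.Agent.Work.MP_4523ee_co.F2.ClS
section
/-!
Characteristic two: the base case and the passage from the fibred bound to the next level.
-/

set_option autoImplicit false
set_option linter.unusedSectionVars false

namespace Pool.Agent.Work.MP_4523ee_co.F2

open Pool.Agent.Work.MP_4523ee_co.Fp
open Finset hiding dens
open Matrix
open scoped BigOperators ComplexConjugate

variable {ν : Type} [Fintype ν] [DecidableEq ν]

lemma chQ_diagonal (t : ν → ZMod 2) (M : SymM 2 ν) : chQ (diagonal t) M = ee (dg M ⬝ᵥ t) := by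
  unfold chQ
  congr 1
  refine sum_congr rfl fun i _ => ?_
  simp [diagonal_apply, dg]

/-- a form with zero polar matrix is a function of the diagonal -/
lemma chQ_of_pol_zero {D : Matrix ν ν (ZMod 2)} (h : D + Dᵀ = 0) (M : SymM 2 ν) :
    chQ D M = ee (dg M ⬝ᵥ fun i => D i i) := by
  unfold chQ
  congr 1
  have h1 : ∑ z : ν × ν, (if z.1 = z.2 then 0 else M.1 z.1 z.2 * D z.1 z.2) = 0 := by
    refine sum_ninvolution Prod.swap (fun z => ?_) (fun z hz k => hz ?_) (fun _ => mem_univ _)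
      fun _ => rfl
    · show _ + (if z.2 = z.1 then 0 else M.1 z.2 z.1 * D z.2 z.1) = 0
      by_cases k : z.1 = z.2
      · rw [if_pos k, if_pos k.symm, add_zero]
      · have h2 : M.1 z.2 z.1 = M.1 z.1 z.2 := congrFun (congrFun (SymM_T M) z.1) z.2
        have h3 : D z.1 z.2 + D z.2 z.1 = 0 := congrFun (congrFun h z.1) z.2
        rw [if_neg k, if_neg (Ne.symm k), h2, ← mul_add, h3, mul_zero]
    · exact if_pos (congrArg Prod.snd k)
  rw [Fintype.sum_prod_type] at h1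
  rw [← add_zero (_ ⬝ᵥ _), ← h1, dotProduct, ← sum_add_distrib]
  refine sum_congr rfl fun i _ => ?_
  have h4 : dg M i * D i i = ∑ j, if i = j then M.1 i j * D i j else 0 := by
    rw [sum_ite_eq, if_pos (mem_univ _)]
    rfl
  rw [h4, ← sum_add_distrib]
  refine sum_congr rfl fun j _ => ?_
  split_ifs <;> simp

/-- the bilinear form of a matrix -/
noncomputable def bM {r : ℕ} (S : Matrix (Fin r) (Fin r) (ZMod 2)) : Bil 2 (Fin r → ZMod 2) :=
  Matrix.toLinearMap₂' (ZMod 2) S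

lemma bM_apply {r : ℕ} (S : Matrix (Fin r) (Fin r) (ZMod 2)) (x y : Fin r → ZMod 2) :
    bM S x y = x ⬝ᵥ S *ᵥ y := Matrix.toLinearMap₂'_apply' S x y

lemma cls_flip {r : ℕ} (S : Matrix (Fin r) (Fin r) (ZMod 2)) :
    bM S + (bM S).flip = bM (S + Sᵀ) := by
  refine LinearMap.ext₂ fun x y => ?_
  rw [LinearMap.add_apply, LinearMap.add_apply, LinearMap.flip_apply, bM_apply, bM_apply, bM_apply,
    add_mulVec, dotProduct_add, dotProduct_mulVec y, ← mulVec_transpose, dotProduct_comm _ x]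

/-- a character of polar rank `r` is a Gram character of a half form times a diagonal character -/
lemma exists_gram2 (Q : Matrix ν ν (ZMod 2)) {r : ℕ} (h : (Q + Qᵀ).rank = r) :
    ∃ S : Matrix (Fin r) (Fin r) (ZMod 2), NdB (bM S + (bM S).flip) ∧ ∃ l : ν → Fin r → ZMod 2,
      Submodule.span (ZMod 2) (Set.range l) = ⊤ ∧ ∃ t : ν → ZMod 2, ∀ M : SymM 2 ν,
      chQ Q M = chi (bM S) M l * ee (dg M ⬝ᵥ t) := by
  have hP : Q + Qᵀ ∈ SymM 2 ν := by
    show (Q + Qᵀ)ᵀ = _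
    rw [transpose_add, transpose_transpose, add_comm]
  obtain ⟨S0, h1, h2, l, h3, h4⟩ : ∃ S : Matrix (Fin r) (Fin r) (ZMod 2), SymB (bM S) ∧
      NdB (bM S) ∧ ∃ l : ν → Fin r → ZMod 2, Submodule.span (ZMod 2) (Set.range l) = ⊤ ∧
      gram (bM S) l = Q + Qᵀ := exists_gram (p := 2) ⟨Q + Qᵀ, hP⟩ h
  have h5 : ∀ x, bM S0 x x = 0 := fun x => by
    have hx : x ∈ Submodule.span (ZMod 2) (Set.range l) := h3.ge Submodule.mem_top
    induction hx using Submodule.span_induction with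
    | mem x hx =>
      obtain ⟨i, rfl⟩ := hx
      exact (congrFun (congrFun h4 i) i).trans (CharTwo.add_self_eq_zero (Q i i))
    | zero => simp
    | add x y _ _ hx hy =>
      simp only [map_add, LinearMap.add_apply]
      rw [hx, hy, h1 x y, zero_add, add_zero]
      exact CharTwo.add_self_eq_zero _
    | smul c x _ hx =>
      simp only [map_smul, LinearMap.smul_apply]
      rw [hx, smul_zero, smul_zero]
  have h6 : ∀ i j, S0 i j = bM S0 (Pi.single i 1) (Pi.single j 1) :=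
    fun i j => by simp [bM_apply]
  let S : Matrix (Fin r) (Fin r) (ZMod 2) := Matrix.of fun i j => if i < j then S0 i j else 0
  have h7 : S + Sᵀ = S0 := by
    ext i j
    show (if i < j then S0 i j else 0) + (if j < i then S0 j i else 0) = S0 i j
    rcases lt_trichotomy i j with k | k | k
    · rw [if_pos k, if_neg k.asymm, add_zero]
    · rw [k, if_neg (lt_irrefl _), add_zero, h6, h5]
    · rw [if_neg k.asymm, if_pos k, zero_add, h6, h6 i j, h1]
  refine ⟨S, by rwa [cls_flip, h7], l, h3,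
    fun i => (Q - gram (bM S) l) i i, fun M => ?_⟩
  have h8 : gram (bM S) l +
      (gram (bM S) l)ᵀ = Q + Qᵀ := by
    refine Eq.trans ?_ h4
    rw [← h7, ← cls_flip]
    rfl
  rw [← chQ_of_pol_zero, chi, ← add_chQ, add_sub_cancel]
  rw [transpose_sub, sub_add_sub_comm, h8, sub_self]

lemma en_orth {Ω ι : Type} [Fintype Ω] [Nonempty Ω] [Fintype ι] (c : ι → ℂ) (χ : ι → Ω → ℂ)
    (h1 : ∀ i x, ‖χ i x‖ = 1) (h2 : ∀ i j, i ≠ j → 𝔼 x, χ i x * conj (χ j x) = 0) :
    𝔼 x, ‖∑ i, c i * χ i x‖ ^ 2 = ∑ i, ‖c i‖ ^ 2 := by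
  apply Complex.ofReal_injective
  rw [Complex.ofReal_expect]
  push_cast
  simp only [← Complex.mul_conj', map_sum, sum_mul_sum, expect_sum_comm]
  refine sum_congr rfl fun i _ => ?_
  have e : ∀ j, 𝔼 x, c i * χ i x * conj (c j * χ j x) =
      c i * conj (c j) * 𝔼 x, χ i x * conj (χ j x) := fun j => by
    rw [mul_expect]
    exact expect_congr rfl fun x _ => by rw [map_mul]; ring
  rw [sum_eq_single i (fun j _ hj => by rw [e, h2 i j hj.symm, mul_zero]) (by simp), e]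
  simp only [Complex.mul_conj', h1]
  simp

lemma en_dot (c : (ν → ZMod 2) → ℂ) :
    𝔼 d : ν → ZMod 2, ‖∑ t, c t * ee (d ⬝ᵥ t)‖ ^ 2 = ∑ t, ‖c t‖ ^ 2 := by
  refine en_orth c (fun t d => ee (d ⬝ᵥ t)) (fun _ _ => norm_ee _) fun t u htu => ?_
  obtain ⟨i, hi⟩ := Function.ne_iff.1 (sub_ne_zero.2 htu)
  let φ : (ν → ZMod 2) →+ ZMod 2 :=
    { toFun := fun d => d ⬝ᵥ (t - u)
      map_zero' := zero_dotProduct _
      map_add' := fun v w => add_dotProduct v w _ }
  have h3 := expect_ee_hom φ fun h0 => by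
    have h4 := DFunLike.congr_fun h0 (Pi.single i 1)
    change Pi.single i 1 ⬝ᵥ (t - u) = 0 at h4
    rw [single_dotProduct, one_mul] at h4
    exact hi h4
  rw [← h3]
  refine expect_congr rfl fun d _ => ?_
  rw [conj_ee, ← ee_add, ← sub_eq_add_neg, ← dotProduct_sub]
  rfl

theorem claim2_zero : Claim2 2 0 := by
  intro ε hε
  refine (L0 0 ε hε).mono fun ν _ _ A h G hG => ?_
  let g : (ν → ZMod 2) × (Empty → ν → ZMod 2) → ℂ := fun z =>
    ∑ φ : Module.Dual (ZMod 2) (SymM 2 ν) with (Qof φ + (Qof φ)ᵀ).rank ≤ 0,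
      fq G (Qof φ) * ee (z.1 ⬝ᵥ fun i => Qof φ i i)
  have e : G = fun M => g (dg M, fun i => M.1 *ᵥ (fun _ (k : Empty) => k.elim) (dg M) i) :=
    funext fun M => by
      rw [hG.eq_comb M]
      refine sum_congr rfl fun φ hφ => ?_
      have hP : Qof φ + (Qof φ)ᵀ ∈ SymM 2 ν := by
        show (Qof φ + (Qof φ)ᵀ)ᵀ = _
        rw [transpose_add, transpose_transpose, add_comm]
      rw [chQ_of_pol_zero (congrArg Subtype.val
        (end_rank (Q := ⟨_, hP⟩) (Nat.le_zero.1 (mem_filter.1 hφ).2)))]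
  rw [e]
  exact h Empty (by simp) (fun _ k => k.elim) g

lemma cls_slice {r : ℕ} {c : ℝ} (hc : 0 ≤ c) (f : SymM 2 ν → ℂ) (b : Bil 2 (Fin r → ZMod 2))
    (κ : Matrix (Fin r) ν (ZMod 2))
    (h : ∀ a : (ν → ZMod 2) → (ν → Fin r → ZMod 2) → ℂ,
      (∀ d, OnSl κ (fun i => Pi.single i 1) (a d)) →
      ‖𝔼 M, f M * FF b (a (dg M)) M‖ ≤ c * √(𝔼 d, nsq (a d))) :
    ∑ l : ν → Fin r → ZMod 2, ind {κ | act κ l = fun i => Pi.single i 1} κ *
      ∑ t, ‖𝔼 M, f M * (chi b M l * ee (dg M ⬝ᵥ t))‖ ^ 2 ≤ c ^ 2 := by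
  let k : (ν → Fin r → ZMod 2) → (ν → ZMod 2) → ℂ := fun l t =>
    𝔼 M, f M * (chi b M l * ee (dg M ⬝ᵥ t))
  let a : (ν → ZMod 2) → (ν → Fin r → ZMod 2) → ℂ := fun d l =>
    (ind {κ | act κ l = fun i => Pi.single i 1} κ : ℝ) * ∑ t, conj (k l t) * ee (d ⬝ᵥ t)
  have h1 := h a fun d l hl => by
    by_contra hc
    exact hl (by
      simp only [a]
      rw [ind_of_not (A := {κ | act κ l = fun i => Pi.single i 1}) hc]
      simp)
  set E := ∑ l : ν → Fin r → ZMod 2, ind {κ | act κ l = fun i => Pi.single i 1} κ *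
    ∑ t, ‖𝔼 M, f M * (chi b M l * ee (dg M ⬝ᵥ t))‖ ^ 2 with hE
  have h4 : 𝔼 d, nsq (a d) = E := by
    simp only [nsq]
    rw [expect_sum_comm]
    refine sum_congr rfl fun l _ => ?_
    simp only [a, norm_mul, mul_pow]
    rw [← mul_expect, en_dot]
    simp only [Complex.norm_conj]
    by_cases hl : κ ∈ {κ | act κ l = fun i => Pi.single i 1}
    · rw [ind_of_mem hl]
      simp [k]
    · rw [ind_of_not hl]
      simp
  have h5 : 𝔼 M, f M * FF b (a (dg M)) M = (E : ℂ) := by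
    simp only [FF, mul_sum, expect_sum_comm, hE, Complex.ofReal_sum, a, sum_mul]
    refine sum_congr rfl fun l _ => sum_congr rfl fun t _ => ?_
    push_cast
    rw [← Complex.conj_mul', ← mul_assoc, mul_expect]
    exact expect_congr rfl fun M _ => by ring
  have h6 : 0 ≤ E := h4 ▸ expect_nonneg fun d _ => nsq_nonneg (a d)
  rw [h5, h4, Complex.norm_real, Real.norm_of_nonneg h6] at h1
  have h7 := Real.sq_sqrt h6
  have h8 := Real.sqrt_nonneg E
  nlinarith [sq_nonneg (c - √E)]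

lemma cls_energy {r : ℕ} {c : ℝ} (hc : 0 ≤ c) (f : SymM 2 ν → ℂ)
    (h : ∀ b : Bil 2 (Fin r → ZMod 2), NdB (b + b.flip) → ∀ (κ : Matrix (Fin r) ν (ZMod 2))
      (a : (ν → ZMod 2) → (ν → Fin r → ZMod 2) → ℂ),
      (∀ d, OnSl κ (fun i => Pi.single i 1) (a d)) →
      ‖𝔼 M, f M * FF b (a (dg M)) M‖ ≤ c * √(𝔼 d, nsq (a d))) :
    ∑ φ : Module.Dual (ZMod 2) (SymM 2 ν) with (Qof φ + (Qof φ)ᵀ).rank = r,
      ‖𝔼 M, f M * chQ (Qof φ) M‖ ^ 2 ≤ (Fintype.card (Fin r → Fin r → ZMod 2) * c) ^ 2 := by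
  classical
  let H : (SymM 2 ν → ℂ) → ℝ := fun χ => ‖𝔼 M, f M * χ M‖ ^ 2
  let B : (Fin r → Fin r → ZMod 2) → Bil 2 (Fin r → ZMod 2) := fun S => bM (Matrix.of S)
  let s : Finset (Fin r → Fin r → ZMod 2) := univ.filter fun S => NdB (B S + (B S).flip)
  let t : Finset (ν → Fin r → ZMod 2) :=
    univ.filter fun l => Submodule.span (ZMod 2) (Set.range l) = ⊤
  let Y : (Fin r → Fin r → ZMod 2) × (ν → Fin r → ZMod 2) × (ν → ZMod 2) → SymM 2 ν → ℂ :=
    fun z M => chi (B z.1) M z.2.1 * ee (dg M ⬝ᵥ z.2.2)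
  set K : ℝ := ((Fintype.card (Fin r → Fin r → ZMod 2) : ℕ) : ℝ) with hK
  have hK0 : 0 < K := Nat.cast_pos.2 Fintype.card_pos
  have h1 : ∀ S ∈ s, ∑ z ∈ t ×ˢ univ, H (Y (S, z)) ≤ K * c ^ 2 := fun S hS => by
    have h2 := Finset.expect_le (s := univ) univ_nonempty fun κ _ =>
      cls_slice hc f (B S) κ (h _ (mem_filter.1 hS).2 κ)
    rw [expect_sum_comm] at h2
    simp only [← expect_mul] at h2
    rw [← inv_mul_le_iff₀ hK0, sum_product, mul_sum]
    refine le_trans (le_trans (sum_le_sum fun l hl => ?_) (sum_le_univ_sum_of_nonneg fun l =>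
      mul_nonneg (expect_nonneg fun κ _ => ind_nonneg _ _)
        (sum_nonneg fun _ _ => sq_nonneg _))) h2
    exact mul_le_mul_of_nonneg_right (end_surj (mem_filter.1 hl).2 _).ge
      (sum_nonneg fun _ _ => sq_nonneg _)
  have hinj : Function.Injective fun φ : Module.Dual (ZMod 2) (SymM 2 ν) => chQ (Qof φ) :=
    fun φ ψ k => LinearMap.ext fun M => by
      have k1 : chQ (Qof φ) M = chQ (Qof ψ) M := congrFun k M
      rw [chQ_Qof, chQ_Qof] at k1
      exact ZMod.injective_stdAddChar k1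
  calc ∑ φ : Module.Dual (ZMod 2) (SymM 2 ν) with (Qof φ + (Qof φ)ᵀ).rank = r, H (chQ (Qof φ))
      = ∑ χ ∈ (univ.filter fun φ : Module.Dual (ZMod 2) (SymM 2 ν) =>
          (Qof φ + (Qof φ)ᵀ).rank = r).image fun φ => chQ (Qof φ), H χ :=
        (sum_image hinj.injOn).symm
    _ ≤ ∑ χ ∈ (s ×ˢ t ×ˢ univ).image Y, H χ := by
        refine sum_le_sum_of_subset_of_nonneg (fun Q hQ => ?_) fun _ _ _ => sq_nonneg _
        obtain ⟨φ, hφ, rfl⟩ := mem_image.1 hQ
        obtain ⟨S, a1, l, a3, u, a4⟩ := exists_gram2 _ (mem_filter.1 hφ).2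
        exact mem_image.2 ⟨(S, l, u), mem_product.2 ⟨mem_filter.2 ⟨mem_univ _, a1⟩,
          mem_product.2 ⟨mem_filter.2 ⟨mem_univ _, a3⟩, mem_univ _⟩⟩, (funext a4).symm⟩
    _ ≤ ∑ z ∈ s ×ˢ t ×ˢ univ, H (Y z) := sum_image_le_of_nonneg fun _ _ => sq_nonneg _
    _ = ∑ S ∈ s, ∑ z ∈ t ×ˢ univ, H (Y (S, z)) := sum_product _ _ _
    _ ≤ s.card • (K * c ^ 2) := sum_le_card_nsmul _ _ _ h1
    _ ≤ (K * c) ^ 2 := by
        have h3 : (s.card : ℝ) ≤ K := Nat.cast_le.2 (card_le_univ s)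
        rw [nsmul_eq_mul]
        nlinarith [mul_le_mul_of_nonneg_right h3 (mul_nonneg hK0.le (sq_nonneg c))]

/-- the Claim step -/
theorem claim2_succ {r : ℕ} (hC : Claim2 2 r)
    (hB : ∀ c : ℝ, 0 < c → Ev 2 fun ν _ _ A => ∀ b : Bil 2 (Fin (r + 1) → ZMod 2),
      NdB (b + b.flip) → ∀ (κ : Matrix (Fin (r + 1)) ν (ZMod 2))
      (a : (ν → ZMod 2) → (ν → Fin (r + 1) → ZMod 2) → ℂ),
      (∀ d, OnSl κ (fun i => Pi.single i 1) (a d)) →
      ‖𝔼 M, fA A M * FF b (a (dg M)) M‖ ≤ c * √(𝔼 d, nsq (a d))) : Claim2 2 (r + 1) := by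
  intro ε hε
  set K : ℝ := ((Fintype.card (Fin (r + 1) → Fin (r + 1) → ZMod 2) : ℕ) : ℝ) with hK
  have hK0 : 0 < K := Nat.cast_pos.2 Fintype.card_pos
  have hc : 0 < ε / 2 / K := by positivity
  refine ((hC (ε / 2) (half_pos hε)).and (hB _ hc)).mono fun ν _ _ A h G hG => ?_
  have h1 := h.1 _ (Lv_comb (univ.filter fun φ : Module.Dual (ZMod 2) (SymM 2 ν) =>
    (Qof φ + (Qof φ)ᵀ).rank ≤ r) (fun φ => fq G (Qof φ)) Qof (fun φ hφ => (mem_filter.1 hφ).2)
    fun _ => rfl)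
  have h2 := cls_energy hc.le _ h.2
  rw [← hK, mul_div_cancel₀ _ hK0.ne'] at h2
  have h3 : ∀ t : Finset (Module.Dual (ZMod 2) (SymM 2 ν)),
      √(∑ φ ∈ t, ‖fq G (Qof φ)‖ ^ 2) ≤ √(en G) := fun t => by
    rw [pars2_en]
    exact Real.sqrt_le_sqrt (sum_le_univ_sum_of_nonneg fun _ => sq_nonneg _)
  have h4 : ∀ M, G M = ∑ φ : Module.Dual (ZMod 2) (SymM 2 ν) with (Qof φ + (Qof φ)ᵀ).rank ≤ r,
      fq G (Qof φ) * chQ (Qof φ) M +
      ∑ φ : Module.Dual (ZMod 2) (SymM 2 ν) with (Qof φ + (Qof φ)ᵀ).rank = r + 1,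
        fq G (Qof φ) * chQ (Qof φ) M := fun M => by
    rw [sum_filter, sum_filter, ← sum_add_distrib]
    refine (four_inv2 G M).trans (sum_congr rfl fun φ _ => ?_)
    rcases lt_trichotomy (Qof φ + (Qof φ)ᵀ).rank (r + 1) with a | a | a
    · rw [if_pos (by omega), if_neg a.ne, add_zero]
    · rw [if_neg (by omega), if_pos a, zero_add]
    · have : fq G (Qof φ) = 0 := hG _ a
      simp [this]
  have h5 : ‖𝔼 M, fA A M * ∑ φ : Module.Dual (ZMod 2) (SymM 2 ν) with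
      (Qof φ + (Qof φ)ᵀ).rank = r + 1, fq G (Qof φ) * chQ (Qof φ) M‖ ≤ √(en G) * (ε / 2) := by
    simp only [mul_sum, expect_sum_comm, mul_left_comm _ (fq G _), ← mul_expect]
    refine (norm_sum_le _ _).trans ?_
    simp only [norm_mul]
    refine (Real.sum_mul_le_sqrt_mul_sqrt _ _ _).trans (mul_le_mul (h3 _) ?_ (Real.sqrt_nonneg _)
      (Real.sqrt_nonneg _))
    exact Real.sqrt_le_iff.2 ⟨(half_pos hε).le, h2⟩
  rw [en_comb] at h1
  rw [expect_congr rfl fun M _ => by rw [h4 M, mul_add], expect_add_distrib]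
  have h6 := mul_le_mul_of_nonneg_left
    (h3 (univ.filter fun φ => (Qof φ + (Qof φ)ᵀ).rank ≤ r)) (half_pos hε).le
  refine (norm_add_le _ _).trans ?_
  linarith

end Pool.Agent.Work.MP_4523ee_co.F2
end

-- merged part: Pool.Agent.Work.MP_4523ee_co.F2.End3
section
/-!
Characteristic two: base case and Claim step in the form of `Bnd2`.
-/

set_option autoImplicit false
set_option linter.unusedSectionVars false

namespace Pool.Agent.Work.MP_4523ee_co.F2

open Finset hiding dens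
open Matrix Pool.Agent.Work.MP_4523ee_co.Fp
open scoped BigOperators ComplexConjugate

theorem claim_zero2 : Claim2 2 0 := claim2_zero

theorem claim_succ2 {r : ℕ} (hC : Claim2 2 r)
    (hB : ∀ c : ℝ, 0 < c → Bnd2 False (r + 1) (r + 1) c) : Claim2 2 (r + 1) := by
  refine claim2_succ hC fun c hc => Ev.mono (hB c hc) fun ν _ _ A h b hb κ a ha => ?_
  have hsp : Submodule.span (ZMod 2) (Set.range fun i : Fin (r + 1) =>
      ((Pi.single i 1, PUnit.unit) : (Fin (r + 1) → ZMod 2) × PUnit)) = ⊤ := by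
    rw [eq_top_iff]
    intro u _
    refine (Submodule.mem_span_range_iff_exists_fun (ZMod 2)).2 ⟨u.1, Prod.ext ?_ rfl⟩
    funext j
    simp [Prod.fst_sum, Pi.single_apply]
  have h1 := h (Fin (r + 1) → ZMod 2) PUnit b 0 _ κ hb (fun _ _ => rfl) (by simp)
    (by simp [Module.finrank_zero_of_subsingleton]) hsp a (fun _ _ => 1) False.elim ha
    fun _ _ _ => Subsingleton.elim _ _
  have h2 : ∀ M : SymM 2 ν, FV (0 : Bil 2 PUnit) (fun _ _ => 1) M = 1 := fun M => by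
    rw [FV, FF, Fintype.sum_unique, one_mul]
    exact zero_chQ M
  have h3 : nsq (fun _ : ν → PUnit => (1 : ℂ)) = 1 := by simp [nsq]
  simp only [h2, h3, mul_one] at h1
  exact h1

end Pool.Agent.Work.MP_4523ee_co.F2
end

-- merged part: Pool.Agent.Work.MP_4523ee_co.F2.AlD
section
/-!
Alignment of tiles with moving stable subspaces: definitions.
Paper: /team-store/h90_4523ee_CWU.md (one direction version, see the proof hints below).
-/

set_option autoImplicit false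
set_option linter.unusedSectionVars false

namespace Pool.Agent.Work.MP_4523ee_co.F2

open Finset hiding dens
open Matrix Fp
open scoped BigOperators ComplexConjugate

variable {ν : Type} [Fintype ν] [DecidableEq ν]
variable {X : Type} [AddCommGroup X] [Module (ZMod 2) X] [Fintype X]
variable {Y : Type} [AddCommGroup Y] [Module (ZMod 2) Y] [Fintype Y]
variable {I J : Type} [Fintype I] [DecidableEq I] [Fintype J] [DecidableEq J]

/-- `|E| ^ n` -/
noncomputable def pn (ν : Type) [Fintype ν] (E : Type) : ℝ := (Nat.card E : ℝ) ^ Fintype.card ν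

/-- full size and light on proper subspaces -/
def St (c θ : ℝ) (Γ : Submodule (ZMod 2) (GX X ν)) : Prop :=
  c * pn ν X ≤ Nat.card Γ ∧ (Nat.card Γ : ℝ) ≤ pn ν X / c ∧
    ∀ E : Submodule (ZMod 2) X, E ≠ ⊥ → E ≠ ⊤ → (Nat.card ↥(Γ ⊓ pw ν E) : ℝ) ≤ θ * pn ν E

/-- the elements with `y = 0` -/
def LZ (X ν : Type) [AddCommGroup X] [Module (ZMod 2) X] : Submodule (ZMod 2) (GX X ν) :=
  LinearMap.ker (LinearMap.fst (ZMod 2) (ν → X) (ν → X))

def Far (θ : ℝ) (Γ : Submodule (ZMod 2) (GX X ν)) : Prop :=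
  (Nat.card ↥(Γ ⊓ LZ X ν) : ℝ) ≤ θ * pn ν X

/-- no subspace is commensurable with many members of the family -/
def Fr (c β κ : ℝ) (Γ : (ν → ZMod 2) → Submodule (ZMod 2) (GX X ν)) : Prop :=
  ∀ Γs : Submodule (ZMod 2) (GX X ν), (Nat.card Γs : ℝ) ≤ pn ν X / c →
    dens {d | κ * pn ν X < Nat.card ↥(Γ d ⊓ Γs)} ≤ β

/-- a linear map of the value spaces acting on phase space -/
def gm (ν : Type) {X Y : Type} [AddCommGroup X] [Module (ZMod 2) X] [AddCommGroup Y]
    [Module (ZMod 2) Y] (h : X →ₗ[ZMod 2] Y) : GX X ν →ₗ[ZMod 2] GX Y ν :=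
  (h.compLeft ν).prodMap (h.compLeft ν)

lemma gm_fst (h : X →ₗ[ZMod 2] Y) (τ : GX X ν) (i : ν) : (gm ν h τ).1 i = h (τ.1 i) := rfl

lemma gm_snd (h : X →ₗ[ZMod 2] Y) (τ : GX X ν) (i : ν) : (gm ν h τ).2 i = h (τ.2 i) := rfl

/-- coordinate `i` of a tuple -/
def co (i : I) : GX (I → X) ν →ₗ[ZMod 2] GX X ν := gm ν (LinearMap.proj i)

/-- product of subspaces -/
def PI (Γ : I → Submodule (ZMod 2) (GX X ν)) : Submodule (ZMod 2) (GX (I → X) ν) :=
  ⨅ i, (Γ i).comap (co i)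

lemma mem_PI {Γ : I → Submodule (ZMod 2) (GX X ν)} {τ : GX (I → X) ν} :
    τ ∈ PI Γ ↔ ∀ i, co i τ ∈ Γ i := by
  simp [PI, Submodule.mem_iInf]

/-- the part of `G` supported on coordinate `j` -/
def sl (G : Submodule (ZMod 2) (GX (I → X) ν)) (j : I) : Submodule (ZMod 2) (GX X ν) :=
  G.comap (gm ν (LinearMap.single (ZMod 2) (fun _ : I => X) j))

/-- `(0, u ⊗ ξ)` -/
def ux (u : ν → ZMod 2) (ξ : X) : GX X ν := (0, fun i => u i • ξ)

def sg (U : Matrix ν J (ZMod 2)) (ε : J → Y) : GX Y ν := (0, act U ε)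

def ep (s : I → J) (ξ : X) : J → I → X := fun t i => if s i = t then ξ else 0

lemma co_sg (U : Matrix ν J (ZMod 2)) (s : I → J) (ξ : X) (i : I) :
    co i (sg U (ep s ξ)) = ux (fun a => U a (s i)) ξ := by
  refine Prod.ext rfl ?_
  funext a
  show (∑ t, U a t • ep s ξ t) i = U a (s i) • ξ
  rw [Finset.sum_apply, Finset.sum_eq_single (s i)]
  · simp [ep]
  · intro t _ ht
    simp [ep, Ne.symm ht]
  · simp

/-- the elements with `α y = 0` -/
def YK (ν : Type) (α : Module.Dual (ZMod 2) X) : Submodule (ZMod 2) (GX X ν) :=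
  (LZ (ZMod 2) ν).comap (gm ν α)

lemma mem_YK {α : Module.Dual (ZMod 2) X} {τ : GX X ν} : τ ∈ YK ν α ↔ ∀ i, α (τ.1 i) = 0 := by
  show (gm ν α τ).1 = 0 ↔ _
  exact funext_iff

/-- left annihilator -/
def ann (b : Bil 2 X) (Γ : Submodule (ZMod 2) (GX X ν)) : Submodule (ZMod 2) (GX X ν) where
  carrier := {τ | ∀ τ' ∈ Γ, sy b τ τ' = 0}
  add_mem' := fun {x y} hx hy τ' h => by
    have h1 := hx τ' h
    have h2 := hy τ' h
    simp only [sy, Prod.fst_add, Prod.snd_add, bt_add_left] at *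
    linear_combination h1 + h2
  zero_mem' := fun τ' _ => by simp [sy, bt]
  smul_mem' := fun c x hx τ' h => by
    have h1 := hx τ' h
    simp only [sy, Prod.smul_fst, Prod.smul_snd, bt_smul_left] at *
    linear_combination c * h1

/-- block `(i, j)` of a bilinear form on tuples -/
def blk (b : Bil 2 (I → X)) (i j : I) : Bil 2 X :=
  b.compl₁₂ (LinearMap.single (ZMod 2) (fun _ : I => X) i)
    (LinearMap.single (ZMod 2) (fun _ : I => X) j)

/-- isotropic and singular for the fibre `d` -/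
def Vld (d : ν → ZMod 2) (x : GX Y ν) : Prop :=
  (∀ α α' : Module.Dual (ZMod 2) Y,
    ∑ i, α (x.1 i) * α' (x.2 i) = ∑ i, α' (x.1 i) * α (x.2 i)) ∧
  ∀ α : Module.Dual (ZMod 2) Y, ∑ i, α (x.1 i) * α (x.2 i) = ∑ i, d i * α (x.1 i)

/-- the values of `y` span -/
def Ndg (x : GX Y ν) : Prop := ∀ α : Module.Dual (ZMod 2) Y, (∀ i, α (x.1 i) = 0) → α = 0

/-- probability of `z = M y` on the fibre `d` -/
noncomputable def pf (d : ν → ZMod 2) (x : GX Y ν) : ℝ :=
  2 ^ Fintype.card ν * dens {M : SymM 2 ν | dg M = d ∧ x.2 = act M.1 x.1}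

noncomputable def pm (n m : ℕ) : ℝ := 2 ^ (m * (m + 1) / 2) / 2 ^ (n * m)

/-- row space -/
def row (x : GX Y ν) : Submodule (ZMod 2) Y :=
  Submodule.span (ZMod 2) (Set.range x.1 ∪ Set.range x.2)

/-- two tuples side by side -/
def pr (x x' : GX Y ν) : GX (Y × Y) ν := (fun i => (x.1 i, x'.1 i), fun i => (x.2 i, x'.2 i))

open Classical in
/-- count weight of a family of witnesses -/
noncomputable def cw (W : Finset (GX Y ν)) (M : SymM 2 ν) : ℝ :=
  (#(W.filter fun x => x.2 = act M.1 x.1) : ℝ) /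
    (#W * pm (Fintype.card ν) (Module.finrank (ZMod 2) Y))

/-- points of an affine product with values in `E` -/
noncomputable def cnt (Γ : I → Submodule (ZMod 2) (GX X ν)) (a : GX (I → X) ν)
    (E : Submodule (ZMod 2) (I → X)) : ℝ :=
  Nat.card {x : GX (I → X) ν // x - a ∈ PI Γ ∧ x ∈ pw ν E}

/-- `E` is a graph over the coordinates in `S` -/
def Rel (E : Submodule (ZMod 2) (I → X)) (S : Finset I) (k : I) (h : I → X →ₗ[ZMod 2] X) : Prop :=
  k ∉ S ∧ (∀ j, j ∉ S → h j = 0) ∧ Nat.card E = Nat.card X ^ #S ∧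
    (∀ e ∈ E, (∀ j ∈ S, e j = 0) → e = 0) ∧ ∀ e ∈ E, e k = ∑ j, h j (e j)

noncomputable def rq (G : Submodule (ZMod 2) (GX X ν)) (a : I → GX X ν) (k : I)
    (h : I → X →ₗ[ZMod 2] X) : ℝ :=
  dens {τ : I → G | (∑ j, gm ν (h j) ((τ j).1 + a j)) - a k ∈ G}

/-- points of an affine product annihilating `G0` -/
noncomputable def q4 (Γ : I → Submodule (ZMod 2) (GX X ν)) (a : GX (I → X) ν)
    (b : Bil 2 (I → X)) (G0 : Submodule (ZMod 2) (GX (I → X) ν)) : ℝ :=
  Nat.card {x : GX (I → X) ν // x - a ∈ PI Γ ∧ x ∈ ann b G0}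

noncomputable def rq4 (G : Submodule (ZMod 2) (GX X ν)) (a : I → GX X ν) (b : I → Bil 2 X)
    (G1 : Submodule (ZMod 2) (GX X ν)) : ℝ :=
  dens {τ : I → G | ∀ τ' ∈ G1, ∑ i, sy (b i) ((τ i).1 + a i) τ' = 0}

/-- the tile `(M, U)` is aligned with `Γ` in the direction `ξ`, up to index `K` -/
def Algn (K : ℕ) (ξ : X) (Γ : Submodule (ZMod 2) (GX X ν)) (M : SymM 2 ν)
    (U : Matrix ν J (ZMod 2)) : Prop :=
  ∃ Wd : Submodule (ZMod 2) (J → ZMod 2), Nat.card (J → ZMod 2) ≤ K * Nat.card Wd ∧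
    ∀ w ∈ Wd, ∃ τ ∈ Γ, τ.2 - act M.1 τ.1 = (fun i => (U *ᵥ w) i • ξ) ∧ act Uᵀ τ.1 = 0

end Pool.Agent.Work.MP_4523ee_co.F2
end

-- merged part: Pool.Agent.Work.MP_4523ee_co.F2.AlK
section
/-!
Counting in one stable subspace and in products.
Paper: /team-store/h90_4523ee_CWU.md (one direction version, see the proof hints below).
-/

set_option autoImplicit false
set_option linter.unusedSectionVars false

namespace Pool.Agent.Work.MP_4523ee_co.F2

open Finset hiding dens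
open Matrix Fp
open scoped BigOperators ComplexConjugate

variable {ν : Type} [Fintype ν] [DecidableEq ν]
variable {X : Type} [AddCommGroup X] [Module (ZMod 2) X] [Fintype X]
variable {Y : Type} [AddCommGroup Y] [Module (ZMod 2) Y] [Fintype Y]
variable {I J : Type} [Fintype I] [DecidableEq I] [Fintype J] [DecidableEq J]

variable {c θ : ℝ} {Γ Γ₁ Γ₂ Γ₃ : Submodule (ZMod 2) (GX X ν)}

lemma pn_pos {E : Type} [Finite E] [Nonempty E] : 0 < pn ν E := by
  exact pow_pos (Nat.cast_pos.2 Nat.card_pos) _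

lemma pn_pi : pn ν (I → X) = pn ν X ^ Fintype.card I := by
  unfold pn
  rw [Nat.card_fun, Nat.card_eq_fintype_card (α := I), Nat.cast_pow, ← pow_mul, ← pow_mul, mul_comm]

lemma card_pw' (E : Submodule (ZMod 2) X) : (Nat.card (pw ν E) : ℝ) = pn ν E ^ 2 := by
  have e : pw ν E ≃ (ν → E) × (ν → E) :=
    ⟨fun x => (fun i => ⟨x.1.1 i, (mem_pw.1 x.2).1 i⟩, fun i => ⟨x.1.2 i, (mem_pw.1 x.2).2 i⟩),
      fun y => ⟨(fun i => (y.1 i).1, fun i => (y.2 i).1),
        mem_pw.2 ⟨fun i => (y.1 i).2, fun i => (y.2 i).2⟩⟩, fun _ => rfl, fun _ => rfl⟩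
  unfold pn
  rw [Nat.card_congr e, Nat.card_prod, Nat.card_fun, Nat.card_eq_fintype_card (α := ν), sq]
  push_cast
  rfl

lemma card_GX : (Nat.card (GX X ν) : ℝ) = pn ν X ^ 2 := by
  unfold pn
  rw [Nat.card_prod, Nat.card_fun, Nat.card_eq_fintype_card (α := ν), sq]
  push_cast
  rfl

lemma alkA_mono {V₀ : Type} [AddCommGroup V₀] [Module (ZMod 2) V₀] [Finite V₀]
    {A B : Submodule (ZMod 2) V₀} (h : A ≤ B) : Nat.card A ≤ Nat.card B :=
  Nat.card_le_card_of_injective _ (Submodule.inclusion_injective h)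

lemma alkA_mul {V₀ : Type} [AddCommGroup V₀] [Module (ZMod 2) V₀] [Finite V₀]
    {A B C : Submodule (ZMod 2) V₀} (hA : A ≤ C) (hB : B ≤ C) :
    (Nat.card A : ℝ) * Nat.card B ≤ Nat.card ↥(A ⊓ B) * Nat.card C := by
  have h1 : Nat.card A * Nat.card B = Nat.card ↥(A ⊓ B) * Nat.card ↥(A ⊔ B) := by
    rw [Module.natCard_eq_pow_finrank (K := ZMod 2) (V := A),
      Module.natCard_eq_pow_finrank (K := ZMod 2) (V := B),
      Module.natCard_eq_pow_finrank (K := ZMod 2) (V := ↥(A ⊓ B)),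
      Module.natCard_eq_pow_finrank (K := ZMod 2) (V := ↥(A ⊔ B)), ← pow_add, ← pow_add,
      ← Submodule.finrank_sup_add_finrank_inf_eq, add_comm]
  have h2 := Nat.mul_le_mul_left (Nat.card ↥(A ⊓ B)) (alkA_mono (sup_le hA hB))
  exact_mod_cast h1.trans_le h2

/-- `|A ⊓ C| ≤ k |A ⊓ B|` when `B ≤ C` has index at most `k` -/
lemma card_inf_index {V₀ : Type} [AddCommGroup V₀] [Module (ZMod 2) V₀] [Finite V₀]
    (A : Submodule (ZMod 2) V₀) {B C : Submodule (ZMod 2) V₀} (h : B ≤ C) {k : ℝ}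
    (hk : (Nat.card C : ℝ) ≤ k * Nat.card B) :
    (Nat.card ↥(A ⊓ C) : ℝ) ≤ k * Nat.card ↥(A ⊓ B) := by
  have h1 := alkA_mul (inf_le_right : A ⊓ C ≤ C) h
  rw [inf_assoc, inf_eq_right.2 h] at h1
  have h2 : (0 : ℝ) < Nat.card B := Nat.cast_pos.2 Nat.card_pos
  refine le_of_mul_le_mul_right (h1.trans ?_) h2
  calc _ ≤ (Nat.card ↥(A ⊓ B) : ℝ) * (k * Nat.card B) :=
        mul_le_mul_of_nonneg_left hk (Nat.cast_nonneg _)
    _ = _ := by ring

/-- `|A| |B| ≤ |A ⊓ B| |C|` for `A, B ≤ C` -/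
lemma card_mul_le {V₀ : Type} [AddCommGroup V₀] [Module (ZMod 2) V₀] [Finite V₀]
    {A B C : Submodule (ZMod 2) V₀} (hA : A ≤ C) (hB : B ≤ C) :
    (Nat.card A : ℝ) * Nat.card B ≤ Nat.card ↥(A ⊓ B) * Nat.card C := by
  exact alkA_mul hA hB

/-- `|A| = |A ⊓ ker f| |f A|` -/
lemma card_ker_map {V₀ V₁ : Type} [AddCommGroup V₀] [Module (ZMod 2) V₀] [Finite V₀]
    [AddCommGroup V₁] [Module (ZMod 2) V₁] (A : Submodule (ZMod 2) V₀) (f : V₀ →ₗ[ZMod 2] V₁) :
    Nat.card A = Nat.card ↥(A ⊓ LinearMap.ker f) * Nat.card (A.map f) := by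
  rw [Submodule.card_eq_card_quotient_mul_card (LinearMap.ker (f.domRestrict A)),
    Nat.card_congr (f.domRestrict A).quotKerEquivRange.toEquiv, LinearMap.range_domRestrict,
    ← Nat.card_congr (Submodule.comapSubtypeEquivOfLe
      (inf_le_left : A ⊓ LinearMap.ker f ≤ A)).toEquiv, Submodule.comap_inf,
    Submodule.comap_subtype_self, top_inf_eq, LinearMap.ker_domRestrict]

lemma alkA_top {E : Submodule (ZMod 2) X} (h : E = ⊤) : pn ν E = pn ν X := by
  subst h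
  unfold pn
  rw [Nat.card_congr Submodule.topEquiv.toEquiv]

lemma St.kb (h : St c θ Γ) (hc : 0 < c) (hc1 : c ≤ 1) (hθ1 : θ ≤ 1)
    (E : Submodule (ZMod 2) X) : (Nat.card ↥(Γ ⊓ pw ν E) : ℝ) ≤ pn ν E / c := by
  have h0 : 0 < pn ν E := pn_pos
  by_cases hT : E = ⊤
  · rw [alkA_top hT]
    exact (Nat.cast_le.2 (alkA_mono inf_le_left)).trans h.2.1
  refine le_trans ?_ (le_div_self h0.le hc hc1)
  by_cases hB : E = ⊥
  · refine (Nat.cast_le.2 (alkA_mono inf_le_right)).trans_eq ?_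
    rw [card_pw', hB]
    simp [pn]
  · exact (h.2.2 E hB hT).trans (mul_le_of_le_one_left h0.le hθ1)

/-- `τ ↦ α z` has kernel `Γ ⊓ pw (ker α)` on `Γ ⊓ YK α`; if `ker α = ⊥` use `Far` -/
lemma card_YK (h : St c θ Γ) (hF : Far θ Γ) {α : Module.Dual (ZMod 2) X} (hα : α ≠ 0) :
    (Nat.card ↥(Γ ⊓ YK ν α) : ℝ) ≤ θ * pn ν X := by
  by_cases hB : LinearMap.ker α = ⊥
  · refine le_trans (Nat.cast_le.2 (alkA_mono (inf_le_inf_left _ fun τ hτ => ?_))) hF
    exact funext fun i => LinearMap.ker_eq_bot'.1 hB _ (mem_YK.1 hτ i)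
  have h1 := h.2.2 _ hB fun e => hα (LinearMap.ker_eq_top.1 e)
  have h2 := card_ker_map (Γ ⊓ YK ν α)
    (LinearMap.snd (ZMod 2) (ν → ZMod 2) (ν → ZMod 2) ∘ₗ gm ν α)
  have h3 : Nat.card ↥(Γ ⊓ YK ν α ⊓ LinearMap.ker
      (LinearMap.snd (ZMod 2) (ν → ZMod 2) (ν → ZMod 2) ∘ₗ gm ν α)) ≤
      Nat.card ↥(Γ ⊓ pw ν (LinearMap.ker α)) :=
    alkA_mono fun τ hτ => ⟨hτ.1.1, mem_pw.2 ⟨mem_YK.1 hτ.1.2, fun i => congrFun hτ.2 i⟩⟩
  have h4 : Nat.card ((Γ ⊓ YK ν α).map
      (LinearMap.snd (ZMod 2) (ν → ZMod 2) (ν → ZMod 2) ∘ₗ gm ν α)) ≤ 2 ^ Fintype.card ν := by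
    refine (Nat.card_le_card_of_injective _ Subtype.val_injective).trans_eq ?_
    rw [Nat.card_fun, Nat.card_zmod, Nat.card_eq_fintype_card]
  have h5 : Nat.card X = Nat.card (LinearMap.ker α) * 2 := by
    rw [Submodule.card_eq_card_quotient_mul_card (LinearMap.ker α),
      Nat.card_congr α.quotKerEquivRange.toEquiv, Module.Dual.range_eq_top_of_ne_zero hα,
      Nat.card_congr Submodule.topEquiv.toEquiv, Nat.card_zmod]
  have h6 : (Nat.card ↥(Γ ⊓ YK ν α) : ℝ) ≤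
      Nat.card ↥(Γ ⊓ pw ν (LinearMap.ker α)) * 2 ^ Fintype.card ν := by
    exact_mod_cast h2.trans_le (Nat.mul_le_mul h3 h4)
  refine h6.trans ((mul_le_mul_of_nonneg_right h1 (by positivity)).trans_eq ?_)
  unfold pn
  rw [h5]
  push_cast
  ring

/-- the set is empty or a coset of `{u | ux u ξ ∈ Γ}`, which injects into `Γ ⊓ pw (span ξ)`
(`|span ξ| = 2`), or into `Γ ⊓ LZ` if `span ξ = ⊤` -/
lemma fresh1 (h : St c θ Γ) (hF : Far θ Γ) (hθ : 0 ≤ θ) {ξ : X} (hξ : ξ ≠ 0) (a : GX X ν) :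
    dens {u : ν → ZMod 2 | a + ux u ξ ∈ Γ} ≤ θ := by
  rcases Set.eq_empty_or_nonempty {u : ν → ZMod 2 | a + ux u ξ ∈ Γ} with e | ⟨u0, h0⟩
  · rw [e, dens_eq_card]
    simpa using hθ
  have hs : pn ν (Submodule.span (ZMod 2) {ξ}) = 2 ^ Fintype.card ν := by
    unfold pn
    rw [Module.natCard_eq_pow_finrank (K := ZMod 2), finrank_span_singleton hξ, Nat.card_zmod]
    norm_num
  have hm : ∀ u : {u : ν → ZMod 2 | a + ux u ξ ∈ Γ}, ux (u.1 - u0) ξ ∈
      Γ ⊓ (pw ν (Submodule.span (ZMod 2) {ξ}) ⊓ LZ X ν) := fun u => by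
    refine ⟨?_, mem_pw.2 ⟨fun i => zero_mem _, fun i =>
      Submodule.smul_mem _ _ (Submodule.mem_span_singleton_self ξ)⟩, rfl⟩
    have e : ux (u.1 - u0) ξ = (a + ux u.1 ξ) - (a + ux u0 ξ) := by
      rw [add_sub_add_left_eq_sub]
      exact Prod.ext (sub_zero _).symm (funext fun i => sub_smul _ _ _)
    rw [SetLike.mem_coe, e]
    exact Γ.sub_mem u.2 h0
  have h1 : Nat.card {u : ν → ZMod 2 | a + ux u ξ ∈ Γ} ≤
      Nat.card ↥(Γ ⊓ (pw ν (Submodule.span (ZMod 2) {ξ}) ⊓ LZ X ν)) := by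
    refine Nat.card_le_card_of_injective (fun u => ⟨_, hm u⟩) fun u v e => ?_
    refine Subtype.ext (sub_left_injective (b := u0) (funext fun i => ?_))
    exact smul_left_injective (ZMod 2) hξ
      (congrFun (congrArg Prod.snd (congrArg Subtype.val e)) i)
  have h2 : (Nat.card ↥(Γ ⊓ (pw ν (Submodule.span (ZMod 2) {ξ}) ⊓ LZ X ν)) : ℝ) ≤
      θ * 2 ^ Fintype.card ν := by
    rw [← hs]
    by_cases hT : Submodule.span (ZMod 2) {ξ} = ⊤
    · rw [alkA_top hT]
      exact le_trans (Nat.cast_le.2 (alkA_mono (inf_le_inf_left _ inf_le_right))) hF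
    · exact le_trans (Nat.cast_le.2 (alkA_mono (inf_le_inf_left _ inf_le_left)))
        (h.2.2 _ (fun e => hξ (Submodule.span_singleton_eq_bot.1 e)) hT)
  rw [dens_eq_card, div_le_iff₀ (Nat.cast_pos.2 Fintype.card_pos), Fintype.card_fun, ZMod.card]
  push_cast
  exact (Nat.cast_le.2 h1).trans h2

lemma kB_mono {V₀ : Type} [AddCommGroup V₀] [Module (ZMod 2) V₀] [Finite V₀]
    {A B : Submodule (ZMod 2) V₀} (h : A ≤ B) : (Nat.card A : ℝ) ≤ Nat.card B := by
  exact_mod_cast Nat.card_le_card_of_injective _ (Submodule.inclusion_injective h)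

/-- kernel part in `Γ₁ ⊓ pw (ker f)`, image in `Γ₂ ⊓ pw (range f)` -/
lemma card_sing (h₁ : St c θ Γ₁) (h₂ : St c θ Γ₂) (hc : 0 < c) (hc1 : c ≤ 1) (hθ : 0 ≤ θ)
    (hθ1 : θ ≤ 1) {f : X →ₗ[ZMod 2] X} (h0 : f ≠ 0) (hf : ¬ Function.Injective f) :
    (Nat.card ↥(Γ₁ ⊓ Γ₂.comap (gm ν f)) : ℝ) ≤ θ / c * pn ν X := by
  have e := card_ker_map (Γ₁ ⊓ Γ₂.comap (gm ν f)) (gm ν f)
  have a1 : (Γ₁ ⊓ Γ₂.comap (gm ν f)) ⊓ LinearMap.ker (gm ν f) ≤ Γ₁ ⊓ pw ν (LinearMap.ker f) := by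
    rintro τ ⟨⟨k1, -⟩, k2⟩
    have k3 : gm ν f τ = 0 := k2
    exact ⟨k1, mem_pw.2 ⟨fun i => congrFun (congrArg Prod.fst k3) i,
      fun i => congrFun (congrArg Prod.snd k3) i⟩⟩
  have a2 : (Γ₁ ⊓ Γ₂.comap (gm ν f)).map (gm ν f) ≤ Γ₂ ⊓ pw ν (LinearMap.range f) := by
    rintro _ ⟨τ, ⟨-, k1⟩, rfl⟩
    exact ⟨k1, mem_pw.2 ⟨fun i => ⟨_, rfl⟩, fun i => ⟨_, rfl⟩⟩⟩
  have b1 := h₁.2.2 (LinearMap.ker f) (fun k => hf (LinearMap.ker_eq_bot.1 k))
    (fun k => h0 (LinearMap.ker_eq_top.1 k))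
  have b2 := h₂.kb hc hc1 hθ1 (LinearMap.range f)
  have c1 := (kB_mono a1).trans b1
  have c2 := (kB_mono a2).trans b2
  have d : pn ν (LinearMap.ker f) * pn ν (LinearMap.range f) = pn ν X := by
    have k := card_ker_map (⊤ : Submodule (ZMod 2) X) f
    rw [top_inf_eq, Submodule.map_top, Nat.card_congr Submodule.topEquiv.toEquiv] at k
    unfold pn
    rw [← mul_pow, k, Nat.cast_mul]
  have p1 : 0 ≤ θ * pn ν (LinearMap.ker f) := (Nat.cast_nonneg _).trans b1
  rw [e, Nat.cast_mul]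
  refine (mul_le_mul c1 c2 (Nat.cast_nonneg _) p1).trans (le_of_eq ?_)
  rw [← d]
  ring

lemma card_comap_inj {f : X →ₗ[ZMod 2] X} (hf : Function.Injective f) :
    Nat.card (Γ.comap (gm ν f)) = Nat.card Γ := by
  have h1 : Function.Injective (gm ν f) := fun x y k =>
    Prod.ext (funext fun i => hf (congrFun (congrArg Prod.fst k) i))
      (funext fun i => hf (congrFun (congrArg Prod.snd k) i))
  have h2 : Function.Bijective (gm ν f) := Finite.injective_iff_bijective.1 h1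
  exact Nat.card_congr ((Equiv.ofBijective _ h2).subtypeEquiv fun _ => Iff.rfl)

lemma alkC_ker {V W : Type} [AddCommGroup V] [Module (ZMod 2) V] [Finite V] [AddCommGroup W]
    [Module (ZMod 2) W] [Finite W] (f : V →ₗ[ZMod 2] W →ₗ[ZMod 2] ZMod 2) :
    Nat.card (LinearMap.ker f) * Nat.card W = Nat.card V * Nat.card (LinearMap.ker f.flip) := by
  have e : f.flip = f.dualMap ∘ₗ Module.Dual.eval (ZMod 2) W := by
    ext w v
    rfl
  have h1 : Module.finrank (ZMod 2) (LinearMap.range f.flip) =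
      Module.finrank (ZMod 2) (LinearMap.range f) := by
    rw [e, LinearMap.range_comp_of_range_eq_top _
      (LinearMap.range_eq_top.2 (Module.bijective_dual_eval (ZMod 2) W).2)]
    exact LinearMap.finrank_range_dualMap_eq_finrank_range f
  have h2 := LinearMap.finrank_range_add_finrank_ker f
  have h3 := LinearMap.finrank_range_add_finrank_ker f.flip
  rw [Module.natCard_eq_pow_finrank (K := ZMod 2) (V := LinearMap.ker f),
    Module.natCard_eq_pow_finrank (K := ZMod 2) (V := W),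
    Module.natCard_eq_pow_finrank (K := ZMod 2) (V := V),
    Module.natCard_eq_pow_finrank (K := ZMod 2) (V := LinearMap.ker f.flip), ← pow_add, ← pow_add]
  congr 1
  omega

/-- the form `sy b` with the second slot in `Γ` -/
def alkC_sy (b : Bil 2 X) (Γ : Submodule (ZMod 2) (GX X ν)) :
    GX X ν →ₗ[ZMod 2] Γ →ₗ[ZMod 2] ZMod 2 :=
  LinearMap.mk₂ (ZMod 2) (fun τ τ' => sy b τ τ'.1)
    (fun x y z => by
      simp only [sy, Prod.fst_add, Prod.snd_add, bt_add_left]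
      ring)
    (fun c x z => by
      simp only [sy, Prod.smul_fst, Prod.smul_snd, bt_smul_left, smul_eq_mul]
      ring)
    (fun x y z => by
      simp only [sy, Submodule.coe_add, Prod.fst_add, Prod.snd_add, bt_add_right]
      ring)
    (fun c x z => by
      simp only [sy, Submodule.coe_smul, Prod.smul_fst, Prod.smul_snd, bt_smul_right, smul_eq_mul]
      ring)

lemma alkC_single (b : Bil 2 X) (i : ν) (x : X) (v : ν → X) :
    bt b (Pi.single i x) v = b x (v i) := by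
  unfold bt
  rw [Finset.sum_eq_single i]
  · rw [Pi.single_eq_same]
  · intro j _ hj
    rw [Pi.single_eq_of_ne hj, map_zero, LinearMap.zero_apply]
  · simp

lemma alkC_right (b : Bil 2 X) (τ' : GX X ν) :
    (∀ τ, sy b τ τ' = 0) ↔ τ' ∈ pw ν (LinearMap.ker b.flip) := by
  rw [mem_pw]
  constructor
  · intro h
    refine ⟨fun i => LinearMap.mem_ker.2 (LinearMap.ext fun x => ?_),
      fun i => LinearMap.mem_ker.2 (LinearMap.ext fun x => ?_)⟩
    · have := h (0, Pi.single i x)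
      simp only [sy, bt_zero_left, alkC_single, zero_sub, neg_eq_zero] at this
      exact this
    · have := h (Pi.single i x, 0)
      simp only [sy, bt_zero_left, alkC_single, sub_zero] at this
      exact this
  · rintro ⟨h1, h2⟩ τ
    have a1 : bt b τ.1 τ'.2 = 0 := Finset.sum_eq_zero fun i _ =>
      LinearMap.congr_fun (LinearMap.mem_ker.1 (h2 i)) (τ.1 i)
    have a2 : bt b τ.2 τ'.1 = 0 := Finset.sum_eq_zero fun i _ =>
      LinearMap.congr_fun (LinearMap.mem_ker.1 (h1 i)) (τ.2 i)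
    rw [sy, a1, a2, sub_zero]

/-- `ann b Γ` is the kernel of `GX X ν → Dual Γ`; the image is the annihilator of
`Γ ⊓ pw (right kernel of b)` -/
lemma card_ann (b : Bil 2 X) (Γ : Submodule (ZMod 2) (GX X ν)) :
    (Nat.card (ann b Γ) : ℝ) * Nat.card Γ =
      pn ν X ^ 2 * Nat.card ↥(Γ ⊓ pw ν (LinearMap.ker b.flip)) := by
  have h := alkC_ker (alkC_sy b Γ)
  have e1 : LinearMap.ker (alkC_sy b Γ) = ann b Γ := by
    ext τ
    rw [LinearMap.mem_ker]
    exact ⟨fun h1 τ' h2 => LinearMap.congr_fun h1 ⟨τ', h2⟩,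
      fun h1 => LinearMap.ext fun τ' => h1 τ'.1 τ'.2⟩
  have e2 : Nat.card (LinearMap.ker (alkC_sy b Γ).flip) =
      Nat.card ↥(Γ ⊓ pw ν (LinearMap.ker b.flip)) :=
    Nat.card_congr ⟨fun x => ⟨x.1.1, x.1.2, (alkC_right b _).1 fun τ =>
        LinearMap.congr_fun (LinearMap.mem_ker.1 x.2) τ⟩,
      fun y => ⟨⟨y.1, y.2.1⟩, LinearMap.mem_ker.2 (LinearMap.ext fun τ =>
        (alkC_right b _).2 y.2.2 τ)⟩, fun _ => rfl, fun _ => rfl⟩
  rw [e1, e2] at h
  rw [← card_GX]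
  exact_mod_cast h

lemma card_ann_nd {b : Bil 2 X} (hb : NdB b) (Γ : Submodule (ZMod 2) (GX X ν)) :
    (Nat.card (ann b Γ) : ℝ) * Nat.card Γ = pn ν X ^ 2 := by
  have h1 : LinearMap.ker b = ⊥ := by
    rw [Submodule.eq_bot_iff]
    exact fun x hx => hb x fun y => LinearMap.congr_fun (LinearMap.mem_ker.1 hx) y
  have h2 := alkC_ker b
  rw [h1, Nat.card_unique, one_mul] at h2
  have h3 : 0 < Nat.card X := Nat.card_pos
  have h4 : Nat.card (LinearMap.ker b.flip) = 1 := by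
    apply Nat.eq_of_mul_eq_mul_left h3
    rw [← h2, mul_one]
  have h5 : LinearMap.ker b.flip = ⊥ :=
    Submodule.subsingleton_iff_eq_bot.1 (Nat.card_eq_one_iff_unique.1 h4).1
  have h6 : Γ ⊓ pw ν (LinearMap.ker b.flip) = ⊥ := by
    rw [h5, Submodule.eq_bot_iff]
    intro x hx
    have := mem_pw.1 hx.2
    exact Prod.ext (funext fun i => this.1 i) (funext fun i => this.2 i)
  rw [card_ann, h6, Nat.card_unique, Nat.cast_one, mul_one]

/-- `pw (ker b) ≤ ann`, so `|Γ₁ ⊓ ann| ≤ |Γ₁ ⊓ pw (ker b)| |ann| / |pw (ker b)|`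
(`card_inf_index`), and `|ker b| = |ker b.flip|` -/
lemma ann_sing (h₁ : St c θ Γ₁) (h₃ : St c θ Γ₃) (hc : 0 < c) (hc1 : c ≤ 1) (hθ : 0 ≤ θ)
    (hθ1 : θ ≤ 1) (h23 : Γ₂ ≤ Γ₃) {c' : ℝ} (hc' : 0 < c') (h2 : c' * pn ν X ≤ Nat.card Γ₂)
    {b : Bil 2 X} (h0 : b ≠ 0) (hb : ¬ NdB b) :
    (Nat.card ↥(Γ₁ ⊓ ann b Γ₂) : ℝ) ≤ θ / (c * c') * pn ν X := by
  have hE0 : LinearMap.ker b ≠ ⊥ := by
    intro h
    exact hb fun x hx => (Submodule.eq_bot_iff _).1 h x (LinearMap.mem_ker.2 (LinearMap.ext hx))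
  have hE1 : LinearMap.ker b ≠ ⊤ := fun h => h0 (LinearMap.ker_eq_top.1 h)
  have hk : Nat.card (LinearMap.ker b.flip) = Nat.card (LinearMap.ker b) := by
    have h3 : 0 < Nat.card X := Nat.card_pos
    apply Nat.eq_of_mul_eq_mul_left h3
    rw [← alkC_ker b, mul_comm]
  have hpn : pn ν (LinearMap.ker b.flip) = pn ν (LinearMap.ker b) := by
    unfold pn
    rw [hk]
  have hle : pw ν (LinearMap.ker b) ≤ ann b Γ₂ := by
    intro τ hτ τ' _
    obtain ⟨a1, a2⟩ := mem_pw.1 hτ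
    have b1 : bt b τ.1 τ'.2 = 0 := Finset.sum_eq_zero fun i _ =>
      LinearMap.congr_fun (LinearMap.mem_ker.1 (a1 i)) _
    have b2 : bt b τ.2 τ'.1 = 0 := Finset.sum_eq_zero fun i _ =>
      LinearMap.congr_fun (LinearMap.mem_ker.1 (a2 i)) _
    rw [sy, b1, b2, sub_zero]
  have pX : 0 < pn ν X := pn_pos
  have pE : 0 < pn ν (LinearMap.ker b) := pn_pos
  have c1 : (Nat.card ↥(Γ₂ ⊓ pw ν (LinearMap.ker b.flip)) : ℝ) ≤ pn ν (LinearMap.ker b) / c := by
    rw [← hpn]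
    refine le_trans ?_ (h₃.kb hc hc1 hθ1 _)
    exact_mod_cast Nat.card_le_card_of_injective _
      (Submodule.inclusion_injective (inf_le_inf_right (pw ν (LinearMap.ker b.flip)) h23))
  have c2 : (Nat.card (ann b Γ₂) : ℝ) * (c' * pn ν X) ≤
      pn ν X ^ 2 * (pn ν (LinearMap.ker b) / c) := by
    calc _ ≤ (Nat.card (ann b Γ₂) : ℝ) * Nat.card Γ₂ := by gcongr
      _ = _ := card_ann b Γ₂
      _ ≤ _ := by gcongr
  have c3 : (Nat.card (ann b Γ₂) : ℝ) ≤ pn ν X / (c * c' * pn ν (LinearMap.ker b)) *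
      Nat.card (pw ν (LinearMap.ker b)) := by
    rw [card_pw', ← mul_le_mul_iff_left₀ (mul_pos hc' pX)]
    refine c2.trans (le_of_eq ?_)
    field_simp
  calc _ ≤ _ := card_inf_index Γ₁ hle c3
    _ ≤ pn ν X / (c * c' * pn ν (LinearMap.ker b)) * (θ * pn ν (LinearMap.ker b)) := by
      have := h₁.2.2 _ hE0 hE1
      gcongr
    _ = _ := by field_simp

lemma ann_index {b : Bil 2 X} (hb : NdB b) (h23 : Γ₂ ≤ Γ₃) {k : ℝ}
    (hk : (Nat.card Γ₃ : ℝ) ≤ k * Nat.card Γ₂) :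
    (Nat.card ↥(Γ₁ ⊓ ann b Γ₂) : ℝ) ≤ k * Nat.card ↥(Γ₁ ⊓ ann b Γ₃) := by
  have a1 : ann b Γ₃ ≤ ann b Γ₂ := fun τ k τ' q => k τ' (h23 q)
  refine card_inf_index Γ₁ a1 ?_
  have e2 := card_ann_nd hb Γ₂
  have e3 := card_ann_nd hb Γ₃
  have p : (0 : ℝ) < Nat.card Γ₂ := by exact_mod_cast Nat.card_pos
  refine le_of_mul_le_mul_right ?_ p
  rw [e2, ← e3]
  calc _ ≤ (Nat.card (ann b Γ₃) : ℝ) * (k * Nat.card Γ₂) :=
        mul_le_mul_of_nonneg_left hk (Nat.cast_nonneg _)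
    _ = _ := by ring

/-- the set is empty or a coset of the annihilator of `{(b ξ (y i))_i | (y, z) ∈ Γ₂}`, a subspace
of size `|Γ₂| / |Γ₂ ⊓ YK (b ξ)| ≥ c' / θ` -/
lemma fresh2 (h₃ : St c θ Γ₃) (hF : Far θ Γ₃) (hθ : 0 ≤ θ) (h23 : Γ₂ ≤ Γ₃) {c' : ℝ}
    (hc' : 0 < c') (h2 : c' * pn ν X ≤ Nat.card Γ₂) {b : Bil 2 X} {ξ : X} (hξ : b ξ ≠ 0)
    (φ : GX X ν → ZMod 2) :
    dens {u : ν → ZMod 2 | ∀ τ' ∈ Γ₂, sy b (ux u ξ) τ' = φ τ'} ≤ θ / c' := by
  classical
  let T : GX X ν →ₗ[ZMod 2] (ν → ZMod 2) :=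
    (LinearMap.fst (ZMod 2) (ν → ZMod 2) (ν → ZMod 2)).comp (gm ν (b ξ))
  have hT : LinearMap.ker T = YK ν (b ξ) := rfl
  let S : Submodule (ZMod 2) (ν → ZMod 2) := Γ₂.map T
  have e := card_ker_map Γ₂ T
  rw [hT] at e
  have a1 : (Nat.card ↥(Γ₂ ⊓ YK ν (b ξ)) : ℝ) ≤ θ * pn ν X :=
    (kB_mono (inf_le_inf_right _ h23)).trans (card_YK h₃ hF hξ)
  have pS : (0 : ℝ) < Nat.card S := by exact_mod_cast Nat.card_pos
  have a2 : c' ≤ θ * Nat.card S := by
    refine le_of_mul_le_mul_right ?_ (pn_pos (ν := ν) (E := X))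
    calc _ ≤ _ := h2
      _ = (Nat.card ↥(Γ₂ ⊓ YK ν (b ξ)) : ℝ) * Nat.card S := by rw [e, Nat.cast_mul]
      _ ≤ θ * pn ν X * Nat.card S := mul_le_mul_of_nonneg_right a1 pS.le
      _ = _ := by ring
  have hs : ∀ u τ', sy b (ux u ξ) τ' = -(u ⬝ᵥ T τ') := by
    intro u τ'
    show bt b 0 τ'.2 - bt b (fun i => u i • ξ) τ'.1 = _
    rw [bt_zero_left, zero_sub]
    congr 1
    refine Finset.sum_congr rfl fun i _ => ?_
    rw [map_smul, LinearMap.smul_apply, smul_eq_mul]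
    rfl
  rcases Set.eq_empty_or_nonempty {u : ν → ZMod 2 | ∀ τ' ∈ Γ₂, sy b (ux u ξ) τ' = φ τ'} with
    k | ⟨u0, k⟩
  · rw [k, dens_eq_card]
    simp only [Nat.card_eq_fintype_card, Fintype.card_eq_zero, Nat.cast_zero, zero_div]
    positivity
  · letI : Fintype S := Fintype.ofFinite _
    letI : Fintype (Module.Dual (ZMod 2) S) := @Fintype.ofFinite _ (DFunLike.finite _)
    let F : (ν → ZMod 2) →ₗ[ZMod 2] Module.Dual (ZMod 2) S :=
      S.dualRestrict.comp (dotProductEquiv (ZMod 2) ν).toLinearMap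
    have hF : Function.Surjective F :=
      Subspace.dualRestrict_surjective.comp (dotProductEquiv (ZMod 2) ν).surjective
    have sub : {u : ν → ZMod 2 | ∀ τ' ∈ Γ₂, sy b (ux u ξ) τ' = φ τ'} ⊆ {u | F u = F u0} := by
      intro u hu
      refine LinearMap.ext ?_
      rintro ⟨_, τ', q, rfl⟩
      have q1 := hu τ' q
      have q2 := k τ' q
      rw [hs] at q1 q2
      exact neg_injective (q1.trans q2.symm)
    refine (dens_mono sub).trans ?_
    rw [dens_fibre_surj F hF]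
    have cd : Fintype.card (Module.Dual (ZMod 2) S) = Nat.card S := by
      rw [Module.card_eq_pow_finrank (K := ZMod 2), Subspace.dual_finrank_eq,
        Nat.card_eq_fintype_card, Module.card_eq_pow_finrank (K := ZMod 2) (V := S)]
    rw [cd, inv_eq_one_div, div_le_div_iff₀ pS hc', one_mul]
    exact a2

end Pool.Agent.Work.MP_4523ee_co.F2
end

-- merged part: Pool.Agent.Work.MP_4523ee_co.F2.AlS
section
/-!
Products: sizes, structure of a proper subspace, counting bounds.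
Paper: /team-store/h90_4523ee_CWU.md (one direction version, see the proof hints below).
-/

set_option autoImplicit false
set_option linter.unusedSectionVars false

namespace Pool.Agent.Work.MP_4523ee_co.F2

open Finset hiding dens
open Matrix Fp
open scoped BigOperators ComplexConjugate

variable {ν : Type} [Fintype ν] [DecidableEq ν]
variable {X : Type} [AddCommGroup X] [Module (ZMod 2) X] [Fintype X]
variable {Y : Type} [AddCommGroup Y] [Module (ZMod 2) Y] [Fintype Y]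
variable {I J : Type} [Fintype I] [DecidableEq I] [Fintype J] [DecidableEq J]

variable {c θ : ℝ} {Γ : I → Submodule (ZMod 2) (GX X ν)}

lemma card_PI (Γ : I → Submodule (ZMod 2) (GX X ν)) :
    Nat.card (PI Γ) = ∏ i, Nat.card (Γ i) := by
  rw [← Nat.card_pi]
  exact Nat.card_congr
    ⟨fun τ i => ⟨co i τ.1, mem_PI.1 τ.2 i⟩,
      fun f => ⟨(fun a i => (f i).1.1 a, fun a i => (f i).1.2 a), mem_PI.2 fun i => (f i).2⟩,
      fun _ => rfl, fun _ => rfl⟩

lemma h20_card_mono {V₀ : Type} [AddCommGroup V₀] [Module (ZMod 2) V₀] [Finite V₀]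
    {A B : Submodule (ZMod 2) V₀} (h : A ≤ B) : Nat.card A ≤ Nat.card B :=
  Nat.card_le_card_of_injective _ (Submodule.inclusion_injective h)

lemma h20_kb {T : ℝ} (hT : 1 ≤ T)
    (h : ∀ i (D : Submodule (ZMod 2) X), (Nat.card ↥(Γ i ⊓ pw ν D) : ℝ) ≤ T * pn ν D)
    (S : Finset I) : ∀ E : Submodule (ZMod 2) (I → X), (∀ e ∈ E, ∀ j, j ∉ S → e j = 0) →
      (Nat.card ↥(PI Γ ⊓ pw ν E) : ℝ) ≤ T ^ #S * pn ν E := by
  induction S using Finset.induction_on with
  | empty =>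
    intro E hE
    have h1 : PI Γ ⊓ pw ν E ≤ ⊥ := by
      intro τ hτ
      have h2 := mem_pw.1 hτ.2
      rw [Submodule.mem_bot]
      refine Prod.ext (funext fun a => funext fun j => ?_) (funext fun a => funext fun j => ?_)
      · exact hE _ (h2.1 a) j (Finset.notMem_empty j)
      · exact hE _ (h2.2 a) j (Finset.notMem_empty j)
    have h3 := (h20_card_mono h1).trans (le_of_eq Nat.card_unique)
    have h4 : (1 : ℝ) ≤ Nat.card E := by exact_mod_cast Nat.card_pos (α := E)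
    have h5 : (1 : ℝ) ≤ pn ν E := one_le_pow₀ h4
    have h6 : (Nat.card ↥(PI Γ ⊓ pw ν E) : ℝ) ≤ 1 := by exact_mod_cast h3
    rw [Finset.card_empty, pow_zero, one_mul]
    exact h6.trans h5
  | insert j S hj ih =>
    intro E hE
    have e1 := card_ker_map (PI Γ ⊓ pw ν E) (co (ν := ν) (X := X) j)
    have e2 := card_ker_map E (LinearMap.proj (R := ZMod 2) (φ := fun _ : I => X) j)
    have l1 : (PI Γ ⊓ pw ν E) ⊓ LinearMap.ker (co (ν := ν) (X := X) j) ≤
        PI Γ ⊓ pw ν (E ⊓ LinearMap.ker (LinearMap.proj (R := ZMod 2) (φ := fun _ : I => X) j)) := by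
      intro τ hτ
      have h2 := mem_pw.1 hτ.1.2
      have h3 : co j τ = 0 := hτ.2
      refine ⟨hτ.1.1, mem_pw.2 ⟨fun a => ⟨h2.1 a, ?_⟩, fun a => ⟨h2.2 a, ?_⟩⟩⟩
      · exact congrFun (congrArg Prod.fst h3) a
      · exact congrFun (congrArg Prod.snd h3) a
    have l2 : (PI Γ ⊓ pw ν E).map (co (ν := ν) (X := X) j) ≤
        Γ j ⊓ pw ν (E.map (LinearMap.proj (R := ZMod 2) (φ := fun _ : I => X) j)) := by
      rintro _ ⟨τ, hτ, rfl⟩
      have h2 := mem_pw.1 hτ.2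
      exact ⟨mem_PI.1 hτ.1 j, mem_pw.2 ⟨fun a => ⟨_, h2.1 a, rfl⟩, fun a => ⟨_, h2.2 a, rfl⟩⟩⟩
    have b1 := ih (E ⊓ LinearMap.ker (LinearMap.proj (R := ZMod 2) (φ := fun _ : I => X) j))
      (fun e he i hi => by
        by_cases hij : i = j
        · subst hij
          exact he.2
        · exact hE e he.1 i fun hm => (Finset.mem_insert.1 hm).elim hij hi)
    have b2 := h j (E.map (LinearMap.proj (R := ZMod 2) (φ := fun _ : I => X) j))
    have c1 : (Nat.card ↥((PI Γ ⊓ pw ν E) ⊓ LinearMap.ker (co (ν := ν) (X := X) j)) : ℝ) ≤ _ :=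
      (Nat.cast_le.2 (h20_card_mono l1)).trans b1
    have c2 : (Nat.card ↥((PI Γ ⊓ pw ν E).map (co (ν := ν) (X := X) j)) : ℝ) ≤ _ :=
      (Nat.cast_le.2 (h20_card_mono l2)).trans b2
    have e3 : pn ν E =
        pn ν ↥(E ⊓ LinearMap.ker (LinearMap.proj (R := ZMod 2) (φ := fun _ : I => X) j)) *
          pn ν ↥(E.map (LinearMap.proj (R := ZMod 2) (φ := fun _ : I => X) j)) := by
      unfold pn
      rw [e2, Nat.cast_mul, mul_pow]
    rw [e1, Nat.cast_mul, e3, Finset.card_insert_of_notMem hj, pow_succ]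
    refine (mul_le_mul c1 c2 (Nat.cast_nonneg _) ((Nat.cast_nonneg _).trans c1)).trans (le_of_eq ?_)
    ring

/-- Induction on a finset `S` for subspaces `E` supported on `S`: project to one coordinate. -/
lemma kb_PI {T : ℝ} (hT : 1 ≤ T)
    (h : ∀ i (D : Submodule (ZMod 2) X), (Nat.card ↥(Γ i ⊓ pw ν D) : ℝ) ≤ T * pn ν D)
    (E : Submodule (ZMod 2) (I → X)) :
    (Nat.card ↥(PI Γ ⊓ pw ν E) : ℝ) ≤ T ^ Fintype.card I * pn ν E :=
  h20_kb hT h Finset.univ E fun _ _ j hj => absurd (Finset.mem_univ j) hj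

lemma h20_co_single (j : I) (τ : GX X ν) :
    co j (gm ν (LinearMap.single (ZMod 2) (fun _ : I => X) j) τ) = τ := by
  refine Prod.ext (funext fun a => ?_) (funext fun a => ?_)
  · exact Pi.single_eq_same (M := fun _ : I => X) j (τ.1 a)
  · exact Pi.single_eq_same (M := fun _ : I => X) j (τ.2 a)

lemma h20_co_single_ne {i j : I} (hij : i ≠ j) (τ : GX X ν) :
    co i (gm ν (LinearMap.single (ZMod 2) (fun _ : I => X) j) τ) = 0 := by
  refine Prod.ext (funext fun a => ?_) (funext fun a => ?_)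
  · exact Pi.single_eq_of_ne (M := fun _ : I => X) hij (τ.1 a)
  · exact Pi.single_eq_of_ne (M := fun _ : I => X) hij (τ.2 a)

lemma h20_co_ext {τ τ' : GX (I → X) ν} (h : ∀ i, co i τ = co i τ') : τ = τ' :=
  Prod.ext (funext fun a => funext fun i => congrFun (congrArg Prod.fst (h i)) a)
    (funext fun a => funext fun i => congrFun (congrArg Prod.snd (h i)) a)

lemma h20_card_sl (G : Submodule (ZMod 2) (GX (I → X) ν)) (j : I) :
    Nat.card (sl G j) = Nat.card
      ↥(LinearMap.range (gm ν (LinearMap.single (ZMod 2) (fun _ : I => X) j)) ⊓ G) := by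
  have hi : Function.Injective (gm ν (LinearMap.single (ZMod 2) (fun _ : I => X) j)) :=
    Function.LeftInverse.injective (h20_co_single j)
  rw [← Submodule.map_comap_eq]
  exact Nat.card_congr (Submodule.equivMapOfInjective _ hi _).toEquiv

lemma h20_split {A : Submodule (ZMod 2) (GX (I → X) ν)} (hA : A ≤ PI Γ) (j : I) :
    Nat.card A ≤ Nat.card (sl A j) * ∏ i ∈ Finset.univ.erase j, Nat.card (Γ i) := by
  let f : GX (I → X) ν →ₗ[ZMod 2] GX (I → X) ν :=
    LinearMap.id - (gm ν (LinearMap.single (ZMod 2) (fun _ : I => X) j)).comp (co j)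
  have hf : ∀ τ, f τ = τ - gm ν (LinearMap.single (ZMod 2) (fun _ : I => X) j) (co j τ) :=
    fun _ => rfl
  have l1 : A ⊓ LinearMap.ker f ≤
      LinearMap.range (gm ν (LinearMap.single (ZMod 2) (fun _ : I => X) j)) ⊓ A := by
    intro τ hτ
    have h1 : f τ = 0 := hτ.2
    rw [hf, sub_eq_zero] at h1
    exact ⟨⟨_, h1.symm⟩, hτ.1⟩
  have l2 : A.map f ≤ PI (Function.update Γ j ⊥) := by
    rintro _ ⟨τ, hτ, rfl⟩
    refine mem_PI.2 fun i => ?_
    rw [hf, map_sub]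
    by_cases hij : i = j
    · subst hij
      rw [h20_co_single, sub_self]
      exact Submodule.zero_mem _
    · rw [h20_co_single_ne hij, sub_zero, Function.update_of_ne hij]
      exact mem_PI.1 (hA hτ) i
  have e2 : Nat.card (PI (Function.update Γ j ⊥)) = ∏ i ∈ Finset.univ.erase j, Nat.card (Γ i) := by
    rw [card_PI, ← Finset.mul_prod_erase _ _ (Finset.mem_univ j), Function.update_self,
      Nat.card_unique, one_mul]
    exact Finset.prod_congr rfl fun i hi => by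
      rw [Function.update_of_ne (Finset.ne_of_mem_erase hi)]
  rw [card_ker_map A f, h20_card_sl, ← e2]
  exact Nat.mul_le_mul (h20_card_mono l1) (h20_card_mono l2)

/-- some component of `α` is nonzero; fix the other coordinates -/
lemma card_YK_PI (h : ∀ i, St c θ (Γ i) ∧ Far θ (Γ i)) (hc : 0 < c) (hc1 : c ≤ 1) (hθ : 0 ≤ θ)
    {α : Module.Dual (ZMod 2) (I → X)} (hα : α ≠ 0) :
    (Nat.card ↥(PI Γ ⊓ YK ν α) : ℝ) ≤ θ / c ^ Fintype.card I * pn ν (I → X) := by
  obtain ⟨j, hj⟩ : ∃ j, α.comp (LinearMap.single (ZMod 2) (fun _ : I => X) j) ≠ 0 := by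
    by_contra hn
    refine hα (LinearMap.pi_ext' fun j => ?_)
    by_contra h2
    exact hn ⟨j, fun h3 => h2 (h3.trans (LinearMap.zero_comp _).symm)⟩
  have l1 : sl (PI Γ ⊓ YK ν α) j ≤
      Γ j ⊓ YK ν (α.comp (LinearMap.single (ZMod 2) (fun _ : I => X) j)) := by
    intro τ hτ
    have h1 := mem_PI.1 hτ.1 j
    rw [h20_co_single] at h1
    exact ⟨h1, mem_YK.2 fun a => mem_YK.1 hτ.2 a⟩
  have b1 : (Nat.card (sl (PI Γ ⊓ YK ν α) j) : ℝ) ≤ θ * pn ν X :=
    (Nat.cast_le.2 (h20_card_mono l1)).trans (card_YK (h j).1 (h j).2 hj)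
  have hp : 0 < pn ν X := pn_pos
  have b2 : ((∏ i ∈ Finset.univ.erase j, Nat.card (Γ i) : ℕ) : ℝ) ≤
      (pn ν X / c) ^ #(Finset.univ.erase j) := by
    rw [Nat.cast_prod, ← Finset.prod_const]
    exact Finset.prod_le_prod (fun _ _ => Nat.cast_nonneg _) fun i _ => (h i).1.2.1
  have b3 : (Nat.card ↥(PI Γ ⊓ YK ν α) : ℝ) ≤ _ :=
    Nat.cast_le.2 (h20_split (Γ := Γ) (A := PI Γ ⊓ YK ν α) inf_le_left j)
  have e1 : Fintype.card I = #(Finset.univ.erase j) + 1 := by
    rw [Finset.card_erase_add_one (Finset.mem_univ j), Finset.card_univ]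
  rw [Nat.cast_mul] at b3
  refine b3.trans ((mul_le_mul b1 b2 (Nat.cast_nonneg _) (mul_nonneg hθ hp.le)).trans ?_)
  rw [pn_pi, e1]
  generalize #(Finset.univ.erase j) = m
  have h1 : pn ν X ≤ pn ν X / c := le_div_self hp.le hc hc1
  have h2 : 0 ≤ (pn ν X / c) ^ m := pow_nonneg (div_nonneg hp.le hc.le) m
  calc θ * pn ν X * (pn ν X / c) ^ m ≤ θ * (pn ν X / c) * (pn ν X / c) ^ m :=
        mul_le_mul_of_nonneg_right (mul_le_mul_of_nonneg_left h1 hθ) h2
    _ = θ * (pn ν X / c) ^ (m + 1) := by ring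
    _ = θ / c ^ (m + 1) * pn ν X ^ (m + 1) := by
        rw [div_pow]
        ring

lemma sl_le {G : Submodule (ZMod 2) (GX (I → X) ν)} (hG : G ≤ PI Γ) (j : I) : sl G j ≤ Γ j := by
  intro τ hτ
  have h1 := mem_PI.1 (hG hτ) j
  rwa [h20_co_single] at h1

/-- `card_inf_index` with `A` = the tuples supported on `j` -/
lemma sl_index {G : Submodule (ZMod 2) (GX (I → X) ν)} (hG : G ≤ PI Γ) {k : ℝ}
    (hk : (Nat.card (PI Γ) : ℝ) ≤ k * Nat.card G) (j : I) :
    (Nat.card (Γ j) : ℝ) ≤ k * Nat.card (sl G j) := by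
  have h1 := card_inf_index
    (LinearMap.range (gm ν (LinearMap.single (ZMod 2) (fun _ : I => X) j))) hG hk
  rw [← h20_card_sl, ← h20_card_sl] at h1
  have l1 : Γ j ≤ sl (PI Γ) j := by
    intro τ hτ
    refine mem_PI.2 fun i => ?_
    by_cases hij : i = j
    · subst hij
      rwa [h20_co_single]
    · rw [h20_co_single_ne hij]
      exact Submodule.zero_mem _
  exact (Nat.cast_le.2 (h20_card_mono l1)).trans h1

lemma cnt_nonneg (a : GX (I → X) ν) (E : Submodule (ZMod 2) (I → X)) : 0 ≤ cnt Γ a E :=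
  Nat.cast_nonneg _

lemma cnt_le (a : GX (I → X) ν) (E : Submodule (ZMod 2) (I → X)) :
    cnt Γ a E ≤ Nat.card ↥(PI Γ ⊓ pw ν E) := by
  unfold cnt
  refine Nat.cast_le.2 ?_
  rcases isEmpty_or_nonempty {x : GX (I → X) ν // x - a ∈ PI Γ ∧ x ∈ pw ν E} with h0 | ⟨⟨x₀⟩⟩
  · rw [Nat.card_of_isEmpty]
    exact Nat.zero_le _
  · refine Nat.card_le_card_of_injective
      (fun x => ⟨x.1 - x₀.1, ?_, Submodule.sub_mem _ x.2.2 x₀.2.2⟩) ?_
    · have h1 := Submodule.sub_mem _ x.2.1 x₀.2.1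
      rwa [sub_sub_sub_cancel_right] at h1
    · intro x y hxy
      exact Subtype.ext (sub_left_injective (congrArg Subtype.val hxy))

/-- kill the coordinates outside `T` -/
def h8Kl (X : Type) [AddCommGroup X] [Module (ZMod 2) X] (T : Finset I) :
    (I → X) →ₗ[ZMod 2] (I → X) :=
  LinearMap.pi fun i => if i ∈ T then LinearMap.proj i else 0

lemma h8Kl_mem {T : Finset I} (e : I → X) {i : I} (hi : i ∈ T) : h8Kl X T e i = e i := by
  simp [h8Kl, hi]

lemma h8Kl_not {T : Finset I} (e : I → X) {i : I} (hi : i ∉ T) : h8Kl X T e i = 0 := by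
  simp [h8Kl, hi]

lemma h8Kl_zero {T : Finset I} {e : I → X} : h8Kl X T e = 0 ↔ ∀ i ∈ T, e i = 0 := by
  constructor
  · intro h i hi
    rw [← h8Kl_mem e hi, h]
    rfl
  · intro h
    funext i
    by_cases hi : i ∈ T
    · rw [h8Kl_mem e hi, h i hi]
      rfl
    · exact h8Kl_not e hi

lemma h8_vanish {E : Submodule (ZMod 2) (I → X)} {S : Finset I}
    (hS : ∀ e ∈ E, (∀ j ∈ S, e j = 0) → e = 0) {j : I} {e : I → X} (he : e ∈ E)
    (h1 : h8Kl X (S.erase j) e = 0) (h2 : e j = 0) : e = 0 := by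
  refine hS e he fun i hi => ?_
  by_cases hij : i = j
  · rw [hij, h2]
  · exact h8Kl_zero.1 h1 i (mem_erase.2 ⟨hij, hi⟩)

lemma h8_card {E : Submodule (ZMod 2) (I → X)} {S : Finset I}
    (hS : ∀ e ∈ E, (∀ j ∈ S, e j = 0) → e = 0) (j : I) :
    Nat.card E = Nat.card ((E ⊓ LinearMap.ker (h8Kl X (S.erase j))).map
      (LinearMap.proj j : (I → X) →ₗ[ZMod 2] X)) * Nat.card (E.map (h8Kl X (S.erase j))) := by
  rw [card_ker_map E (h8Kl X (S.erase j)),
    card_ker_map (E ⊓ LinearMap.ker (h8Kl X (S.erase j))) (LinearMap.proj j : (I → X) →ₗ[ZMod 2] X)]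
  have h : E ⊓ LinearMap.ker (h8Kl X (S.erase j)) ⊓
      LinearMap.ker (LinearMap.proj j : (I → X) →ₗ[ZMod 2] X) = ⊥ := by
    rw [eq_bot_iff]
    intro e he
    exact h8_vanish hS he.1.1 he.1.2 he.2
  rw [h]
  simp

lemma h8_count {E : Submodule (ZMod 2) (I → X)} {S : Finset I}
    (hS : ∀ e ∈ E, (∀ j ∈ S, e j = 0) → e = 0) (j : I)
    (Γ : I → Submodule (ZMod 2) (GX X ν)) :
    Nat.card ↥(PI Γ ⊓ pw ν E) ≤
      Nat.card ↥(Γ j ⊓ pw ν ((E ⊓ LinearMap.ker (h8Kl X (S.erase j))).map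
        (LinearMap.proj j : (I → X) →ₗ[ZMod 2] X))) *
      Nat.card ↥(PI Γ ⊓ pw ν (E.map (h8Kl X (S.erase j)))) := by
  rw [card_ker_map (PI Γ ⊓ pw ν E) (gm ν (h8Kl X (S.erase j)))]
  refine Nat.mul_le_mul ?_ ?_
  · have key : ∀ τ ∈ PI Γ ⊓ pw ν E ⊓ LinearMap.ker (gm ν (h8Kl X (S.erase j))),
        (∀ a, τ.1 a ∈ E ⊓ LinearMap.ker (h8Kl X (S.erase j))) ∧
          ∀ a, τ.2 a ∈ E ⊓ LinearMap.ker (h8Kl X (S.erase j)) := by
      intro τ hτ
      have h0 : gm ν (h8Kl X (S.erase j)) τ = 0 := hτ.2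
      have h1 := mem_pw.1 hτ.1.2
      exact ⟨fun a => ⟨h1.1 a, congrFun (congrArg Prod.fst h0) a⟩,
        fun a => ⟨h1.2 a, congrFun (congrArg Prod.snd h0) a⟩⟩
    refine Nat.card_le_card_of_injective
      (fun τ => ⟨co j τ.1, mem_PI.1 τ.2.1.1 j, mem_pw.2
        ⟨fun a => ⟨τ.1.1 a, (key τ.1 τ.2).1 a, rfl⟩, fun a => ⟨τ.1.2 a, (key τ.1 τ.2).2 a, rfl⟩⟩⟩) ?_
    intro τ σ h
    have h1 : co j τ.1 = co j σ.1 := congrArg Subtype.val h
    have h2 := key _ (sub_mem τ.2 σ.2)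
    have h3 : co j (τ.1 - σ.1) = 0 := by rw [map_sub, h1, sub_self]
    apply Subtype.ext
    rw [← sub_eq_zero]
    refine Prod.ext (funext fun a => ?_) (funext fun a => ?_)
    · exact h8_vanish hS (h2.1 a).1 (h2.1 a).2 (congrFun (congrArg Prod.fst h3) a)
    · exact h8_vanish hS (h2.2 a).1 (h2.2 a).2 (congrFun (congrArg Prod.snd h3) a)
  · refine Nat.card_le_card_of_injective (Submodule.inclusion ?_) (Submodule.inclusion_injective _)
    rintro _ ⟨τ, hτ, rfl⟩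
    have h1 := mem_pw.1 hτ.2
    refine ⟨mem_PI.2 fun i => ?_, mem_pw.2 ⟨fun a => ⟨_, h1.1 a, rfl⟩, fun a => ⟨_, h1.2 a, rfl⟩⟩⟩
    by_cases hi : i ∈ S.erase j
    · have h2 : co i (gm ν (h8Kl X (S.erase j)) τ) = co i τ :=
        Prod.ext (funext fun a => h8Kl_mem _ hi) (funext fun a => h8Kl_mem _ hi)
      rw [h2]
      exact mem_PI.1 hτ.1 i
    · have h2 : co i (gm ν (h8Kl X (S.erase j)) τ) = 0 :=
        Prod.ext (funext fun a => h8Kl_not _ hi) (funext fun a => h8Kl_not _ hi)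
      rw [h2]
      exact zero_mem _

lemma h8_rel {E : Submodule (ZMod 2) (I → X)} (hE : E ≠ ⊤) {S : Finset I}
    (hS : ∀ e ∈ E, (∀ j ∈ S, e j = 0) → e = 0)
    (hD : ∀ j ∈ S, ∀ x : X, ∃ e ∈ E, h8Kl X (S.erase j) e = 0 ∧ e j = x) :
    ∃ k h, Rel E S k h := by
  let π : E →ₗ[ZMod 2] (S → X) :=
    (LinearMap.pi fun j : S => (LinearMap.proj j.1 : (I → X) →ₗ[ZMod 2] X)) ∘ₗ E.subtype
  have hπ : ∀ (e : E) (j : S), π e j = e.1 j.1 := fun _ _ => rfl
  have hinj : Function.Injective π := by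
    rw [injective_iff_map_eq_zero]
    intro e he
    exact Subtype.ext (hS e.1 e.2 fun j hj => congrFun he ⟨j, hj⟩)
  have hsur : Function.Surjective π := by
    intro v
    choose f hf1 hf2 hf3 using fun j : S => hD j.1 j.2 (v j)
    refine ⟨∑ j : S, ⟨f j, hf1 j⟩, funext fun i => ?_⟩
    rw [map_sum, Finset.sum_apply, Finset.sum_eq_single i]
    · exact hf3 i
    · intro j _ hj
      exact h8Kl_zero.1 (hf2 j) i.1 (mem_erase.2 ⟨fun q => hj (Subtype.ext q).symm, i.2⟩)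
    · exact fun q => absurd (mem_univ i) q
  let φ := LinearEquiv.ofBijective π ⟨hinj, hsur⟩
  obtain ⟨k, hk⟩ : ∃ k, k ∉ S := by
    by_contra hk
    apply hE
    rw [eq_top_iff]
    intro v _
    obtain ⟨e, he⟩ := hsur fun j => v j.1
    have h1 : v = e.1 := funext fun i =>
      (congrFun he ⟨i, by_contra fun q => hk ⟨i, q⟩⟩).symm
    rw [h1]
    exact e.2
  let g : S → X →ₗ[ZMod 2] X := fun j => (LinearMap.proj k : (I → X) →ₗ[ZMod 2] X) ∘ₗ E.subtype ∘ₗ
    φ.symm.toLinearMap ∘ₗ LinearMap.single (ZMod 2) (fun _ : S => X) j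
  refine ⟨k, fun j => if hj : j ∈ S then g ⟨j, hj⟩ else 0, hk, fun j hj => dif_neg hj, ?_, hS, ?_⟩
  · rw [Nat.card_congr φ.toEquiv, Nat.card_fun, Nat.card_eq_fintype_card (α := S), Fintype.card_coe]
  · intro e he
    have h1 : (⟨e, he⟩ : E) = ∑ j : S, φ.symm (Pi.single j (e j.1)) := by
      rw [← map_sum, LinearEquiv.eq_symm_apply]
      exact (Finset.univ_sum_single (π ⟨e, he⟩)).symm
    have h2 : e k = ∑ j : S, g j (e j.1) := by
      have h3 := congrArg (fun z : E => z.1 k) h1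
      simp only [Submodule.coe_sum, Finset.sum_apply] at h3
      exact h3
    rw [h2, ← Finset.sum_subset (subset_univ S) (fun j _ hj => by simp [hj]),
      ← Finset.sum_coe_sort S]
    exact Finset.sum_congr rfl fun j _ => by simp [j.2]

/-- Take `S` minimal with the projection to `S` injective on `E`. For `j ∈ S` the space `D j` of
`j`-th coordinates of the `e ∈ E` vanishing on `S \ {j}` is nonzero. If every `D j = ⊤`, the
projection `E → X ^ S` is bijective, `S ≠ univ`, and `Rel` holds for any `k ∉ S`. Otherwise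
some `D j` is proper: `E₀ = {e ∈ E vanishing on S \ {j}}` has `|E₀| = |D j|`; let `E₁` be the image
of `E` under killing the coordinates outside `S \ {j}`; `|E| = |D j| |E₁|` and
`|PI Γ ⊓ pw E| ≤ |Γ j ⊓ pw (D j)| |PI Γ ⊓ pw E₁|`. -/
theorem STR {E : Submodule (ZMod 2) (I → X)} (hE : E ≠ ⊤) :
    (∃ (D : Submodule (ZMod 2) X) (j : I) (E₁ : Submodule (ZMod 2) (I → X)), D ≠ ⊥ ∧ D ≠ ⊤ ∧
      Nat.card E = Nat.card D * Nat.card E₁ ∧ ∀ Γ : I → Submodule (ZMod 2) (GX X ν),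
        Nat.card ↥(PI Γ ⊓ pw ν E) ≤ Nat.card ↥(Γ j ⊓ pw ν D) * Nat.card ↥(PI Γ ⊓ pw ν E₁)) ∨
    ∃ S k h, Rel E S k h := by
  classical
  obtain ⟨S, hS, hmin⟩ := Finset.exists_min_image
    (univ.filter fun S : Finset I => ∀ e ∈ E, (∀ j ∈ S, e j = 0) → e = 0) card
    ⟨univ, mem_filter.2 ⟨mem_univ _, fun e _ h => funext fun j => h j (mem_univ j)⟩⟩
  replace hS := (mem_filter.1 hS).2
  by_cases hD : ∀ j ∈ S, (E ⊓ LinearMap.ker (h8Kl X (S.erase j))).map
      (LinearMap.proj j : (I → X) →ₗ[ZMod 2] X) = ⊤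
  · refine Or.inr ⟨S, h8_rel hE hS fun j hj x => ?_⟩
    obtain ⟨e, he, hx⟩ : x ∈ (E ⊓ LinearMap.ker (h8Kl X (S.erase j))).map
        (LinearMap.proj j : (I → X) →ₗ[ZMod 2] X) := by
      rw [hD j hj]
      trivial
    exact ⟨e, he.1, he.2, hx⟩
  · obtain ⟨j, hj⟩ := not_forall.1 hD
    obtain ⟨hj, hD⟩ := Classical.not_imp.1 hj
    refine Or.inl ⟨_, j, _, fun h => ?_, hD, h8_card hS j, h8_count hS j⟩
    have h1 := hmin (S.erase j) (mem_filter.2 ⟨mem_univ _, fun e he h0 => ?_⟩)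
    · exact absurd (card_erase_lt_of_mem hj) (not_lt.2 h1)
    · have h2 := h8Kl_zero.2 h0
      refine h8_vanish hS he h2 ?_
      have h3 : e j ∈ (E ⊓ LinearMap.ker (h8Kl X (S.erase j))).map
          (LinearMap.proj j : (I → X) →ₗ[ZMod 2] X) := ⟨e, ⟨he, h2⟩, rfl⟩
      rwa [h] at h3

lemma rel_inj {E : Submodule (ZMod 2) (I → X)} {S : Finset I} {k : I}
    {h : I → X →ₗ[ZMod 2] X} (hR : Rel E S k h) {δ : GX (I → X) ν} (hδ : δ ∈ pw ν E)
    (h0 : ∀ j ∈ S, co j δ = 0) : δ = 0 := by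
  obtain ⟨h1, h2⟩ := mem_pw.1 hδ
  refine Prod.ext (funext fun t => ?_) (funext fun t => ?_)
  · exact hR.2.2.2.1 _ (h1 t) fun j hj => congrFun (congrArg Prod.fst (h0 j hj)) t
  · exact hR.2.2.2.1 _ (h2 t) fun j hj => congrFun (congrArg Prod.snd (h0 j hj)) t

lemma rel_co {E : Submodule (ZMod 2) (I → X)} {S : Finset I} {k : I}
    {h : I → X →ₗ[ZMod 2] X} (hR : Rel E S k h) {x : GX (I → X) ν} (hx : x ∈ pw ν E) :
    co k x = ∑ j, gm ν (h j) (co j x) := by
  obtain ⟨h1, h2⟩ := mem_pw.1 hx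
  refine Prod.ext (funext fun t => ?_) (funext fun t => ?_)
  · rw [Prod.fst_sum, Finset.sum_apply]
    exact hR.2.2.2.2 _ (h1 t)
  · rw [Prod.snd_sum, Finset.sum_apply]
    exact hR.2.2.2.2 _ (h2 t)

lemma rel_pn {E : Submodule (ZMod 2) (I → X)} {S : Finset I} {k : I}
    {h : I → X →ₗ[ZMod 2] X} (hR : Rel E S k h) : pn ν E = pn ν X ^ #S := by
  unfold pn
  rw [hR.2.2.1, Nat.cast_pow, ← pow_mul, ← pow_mul, mul_comm]

lemma rel_prod (hc : 0 < c) (hc1 : c ≤ 1) (hΓ : ∀ i, (Nat.card (Γ i) : ℝ) ≤ pn ν X / c)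
    (T : Finset I) :
    (Nat.card ((i : T) → Γ i.1) : ℝ) ≤ pn ν X ^ #T / c ^ Fintype.card I := by
  have hp : 0 ≤ pn ν X := by unfold pn; positivity
  rw [Nat.card_pi, Nat.cast_prod]
  calc ∏ i : T, (Nat.card (Γ i.1) : ℝ) ≤ ∏ _i : T, pn ν X / c :=
        Finset.prod_le_prod (fun _ _ => Nat.cast_nonneg _) fun i _ => hΓ i.1
    _ = pn ν X ^ #T / c ^ #T := by
        rw [Finset.prod_const, Finset.card_univ, Fintype.card_coe, div_pow]
    _ ≤ pn ν X ^ #T / c ^ Fintype.card I :=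
        div_le_div_of_nonneg_left (pow_nonneg hp _) (pow_pos hc _)
          (pow_le_pow_of_le_one hc.le hc1 (Finset.card_le_univ T))

/-- a point of the affine product with values in `E` is determined by its coordinates in `S`;
fix those different from `j` and subtract two solutions -/
theorem REL1 {E : Submodule (ZMod 2) (I → X)} {S : Finset I} {k : I}
    {h : I → X →ₗ[ZMod 2] X} (hR : Rel E S k h) (hc : 0 < c) (hc1 : c ≤ 1)
    (hΓ : ∀ i, (Nat.card (Γ i) : ℝ) ≤ pn ν X / c) {j : I} (hj : j ∈ S) {θ₁ : ℝ} (hθ : 0 ≤ θ₁)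
    (h1 : (Nat.card ↥(Γ j ⊓ (Γ k).comap (gm ν (h j))) : ℝ) ≤ θ₁ * pn ν X) (a : GX (I → X) ν) :
    cnt Γ a E ≤ θ₁ / c ^ Fintype.card I * pn ν E := by
  have hp : 0 ≤ pn ν X := by unfold pn; positivity
  refine (cnt_le a E).trans ?_
  let f : GX (I → X) ν →ₗ[ZMod 2] (↥(S.erase j) → GX X ν) := LinearMap.pi fun i => co i.1
  have hker : ∀ δ ∈ (PI Γ ⊓ pw ν E) ⊓ LinearMap.ker f, ∀ i ∈ S, i ≠ j → co i δ = 0 :=
    fun δ hδ i hi hij => congrFun (LinearMap.mem_ker.1 hδ.2) ⟨i, Finset.mem_erase.2 ⟨hij, hi⟩⟩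
  have hmem : ∀ δ ∈ (PI Γ ⊓ pw ν E) ⊓ LinearMap.ker f,
      co j δ ∈ Γ j ⊓ (Γ k).comap (gm ν (h j)) := by
    intro δ hδ
    refine ⟨mem_PI.1 hδ.1.1 j, ?_⟩
    have e : co k δ = gm ν (h j) (co j δ) := by
      rw [rel_co hR hδ.1.2, Finset.sum_eq_single j]
      · intro i _ hij
        by_cases hi : i ∈ S
        · rw [hker δ hδ i hi hij, map_zero]
        · rw [hR.2.1 i hi]
          rfl
      · simp
    show gm ν (h j) (co j δ) ∈ Γ k
    rw [← e]
    exact mem_PI.1 hδ.1.1 k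
  have hA : Nat.card ↥((PI Γ ⊓ pw ν E) ⊓ LinearMap.ker f) ≤
      Nat.card ↥(Γ j ⊓ (Γ k).comap (gm ν (h j))) := by
    refine Nat.card_le_card_of_injective (fun δ => ⟨co j δ.1, hmem δ.1 δ.2⟩) ?_
    intro δ δ' e
    have e' : co j δ.1 = co j δ'.1 := congrArg Subtype.val e
    refine Subtype.ext (sub_eq_zero.1 (rel_inj hR (sub_mem δ.2.1.2 δ'.2.1.2) fun i hi => ?_))
    by_cases hij : i = j
    · rw [hij, map_sub, e', sub_self]
    · rw [map_sub, hker _ δ.2 i hi hij, hker _ δ'.2 i hi hij, sub_self]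
  have hB : Nat.card ((PI Γ ⊓ pw ν E).map f) ≤ Nat.card ((i : ↥(S.erase j)) → Γ i.1) := by
    have hm : ∀ y ∈ (PI Γ ⊓ pw ν E).map f, ∀ i, y i ∈ Γ i.1 := by
      rintro y ⟨x, hx, rfl⟩ i
      exact mem_PI.1 hx.1 i.1
    refine Nat.card_le_card_of_injective (fun y i => ⟨y.1 i, hm y.1 y.2 i⟩) ?_
    intro y y' e
    exact Subtype.ext (funext fun i => congrArg Subtype.val (congrFun e i))
  have hA' : (Nat.card ↥((PI Γ ⊓ pw ν E) ⊓ LinearMap.ker f) : ℝ) ≤ θ₁ * pn ν X :=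
    (Nat.cast_le.2 hA).trans h1
  have hB' : (Nat.card ((PI Γ ⊓ pw ν E).map f) : ℝ) ≤
      pn ν X ^ #(S.erase j) / c ^ Fintype.card I :=
    (Nat.cast_le.2 hB).trans (rel_prod hc hc1 hΓ _)
  rw [card_ker_map _ f, Nat.cast_mul, rel_pn hR, ← Finset.card_erase_add_one hj]
  refine (mul_le_mul hA' hB' (Nat.cast_nonneg _) (mul_nonneg hθ hp)).trans (le_of_eq ?_)
  ring

/-- same injection; the condition only involves the coordinates with `h j ≠ 0` -/
theorem REL2 {E : Submodule (ZMod 2) (I → X)} {S : Finset I} {k : I}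
    {h : I → X →ₗ[ZMod 2] X} (hR : Rel E S k h) (hc : 0 < c) (hc1 : c ≤ 1)
    (hΓ : ∀ i, (Nat.card (Γ i) : ℝ) ≤ pn ν X / c) (hk : ∀ j, h j ≠ 0 → Γ j = Γ k)
    (a : GX (I → X) ν) :
    cnt Γ a E ≤ 1 / c ^ Fintype.card I * pn ν E * rq (Γ k) (fun j => co j a) k h := by
  classical
  let A := {x : GX (I → X) ν // x - a ∈ PI Γ ∧ x ∈ pw ν E}
  let B : Set (I → Γ k) := {τ | (∑ j, gm ν (h j) ((τ j).1 + co j a)) - co k a ∈ Γ k}
  have m1 : ∀ (x : A) (σ : I → Γ k) (j : I),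
      (if h j = 0 then (σ j).1 else co j (x.1 - a)) ∈ Γ k := by
    intro x σ j
    split_ifs with q
    · exact (σ j).2
    · rw [← hk j q]
      exact mem_PI.1 x.2.1 j
  have m2 : ∀ (x : A) (σ : I → Γ k) (j : I),
      (if h j = 0 then co j (x.1 - a) else (σ j).1) ∈ Γ j := by
    intro x σ j
    split_ifs with q
    · exact mem_PI.1 x.2.1 j
    · rw [hk j q]
      exact (σ j).2
  have m3 : ∀ (x : A) (σ : I → Γ k), (fun j => (⟨_, m1 x σ j⟩ : Γ k)) ∈ B := by
    intro x σ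
    have e : ∑ j, gm ν (h j) ((if h j = 0 then (σ j).1 else co j (x.1 - a)) + co j a) =
        co k x.1 := by
      rw [rel_co hR x.2.2]
      refine Finset.sum_congr rfl fun j _ => ?_
      split_ifs with q
      · rw [q]
        rfl
      · rw [map_sub, sub_add_cancel]
    show (∑ j, gm ν (h j) ((if h j = 0 then (σ j).1 else co j (x.1 - a)) + co j a)) - co k a ∈ Γ k
    rw [e, ← map_sub]
    exact mem_PI.1 x.2.1 k
  have hle : Nat.card (A × (I → Γ k)) ≤ Nat.card (B × ((i : S) → Γ i.1)) := by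
    refine Nat.card_le_card_of_injective
      (fun z => (⟨_, m3 z.1 z.2⟩, fun i => ⟨_, m2 z.1 z.2 i.1⟩)) ?_
    rintro ⟨x, σ⟩ ⟨x', σ'⟩ e
    have e1 : ∀ j, (if h j = 0 then (σ j).1 else co j (x.1 - a)) =
        (if h j = 0 then (σ' j).1 else co j (x'.1 - a)) := fun j =>
      congrArg Subtype.val (congrFun (congrArg Subtype.val (congrArg Prod.fst e)) j)
    have e2 : ∀ j ∈ S, (if h j = 0 then co j (x.1 - a) else (σ j).1) =
        (if h j = 0 then co j (x'.1 - a) else (σ' j).1) := fun j hj =>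
      congrArg Subtype.val (congrFun (congrArg Prod.snd e) ⟨j, hj⟩)
    refine Prod.ext (Subtype.ext (sub_eq_zero.1
      (rel_inj hR (sub_mem x.2.2 x'.2.2) fun j hj => ?_))) (funext fun j => Subtype.ext ?_)
    · have e3 : co j (x.1 - a) = co j (x'.1 - a) := by
        by_cases q : h j = 0
        · simpa only [if_pos q] using e2 j hj
        · simpa only [if_neg q] using e1 j
      rw [← sub_sub_sub_cancel_right x.1 x'.1 a, map_sub, e3, sub_self]
    · by_cases q : h j = 0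
      · simpa only [if_pos q] using e1 j
      · have hj : j ∈ S := by
          by_contra hj
          exact q (hR.2.1 j hj)
        simpa only [if_neg q] using e2 j hj
  rw [Nat.card_prod, Nat.card_prod] at hle
  have hle' : (Nat.card A : ℝ) * Nat.card (I → Γ k) ≤
      Nat.card B * Nat.card ((i : S) → Γ i.1) := by exact_mod_cast hle
  have hpos : (0 : ℝ) < Nat.card (I → Γ k) := Nat.cast_pos.2 Nat.card_pos
  have hq : rq (Γ k) (fun j => co j a) k h = (Nat.card B : ℝ) / Nat.card (I → Γ k) := by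
    unfold rq
    rw [dens_eq_card, ← Nat.card_eq_fintype_card]
  have hS := rel_prod hc hc1 hΓ S
  rw [hq, rel_pn hR, ← mul_div_assoc, le_div_iff₀ hpos]
  refine hle'.trans ?_
  refine (mul_le_mul_of_nonneg_left hS (Nat.cast_nonneg _)).trans (le_of_eq ?_)
  ring

lemma alsD_ext {x y : GX (I → X) ν} (h : ∀ i, co i x = co i y) : x = y := by
  refine Prod.ext (funext fun a => funext fun i => ?_) (funext fun a => funext fun i => ?_)
  · exact congrFun (congrArg Prod.fst (h i)) a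
  · exact congrFun (congrArg Prod.snd (h i)) a

lemma alsD_blk (b : Bil 2 (I → X)) (j : I) (u : I → X) (v : X) :
    b u (LinearMap.single (ZMod 2) (fun _ : I => X) j v) = ∑ i, blk b i j (u i) v := by
  conv_lhs => rw [← Finset.univ_sum_single u, map_sum, LinearMap.sum_apply]
  rfl

lemma alsD_sy (b : Bil 2 (I → X)) (j : I) (x : GX (I → X) ν) (τ : GX X ν) :
    sy b x (gm ν (LinearMap.single (ZMod 2) (fun _ : I => X) j) τ) =
      ∑ i, sy (blk b i j) (co i x) τ := by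
  simp only [sy, bt, gm_fst, gm_snd, alsD_blk, Finset.sum_sub_distrib]
  rw [Finset.sum_comm, Finset.sum_comm (f := fun a i => blk b i j (x.2 a i) (τ.1 a))]
  rfl

lemma alsD_prod {K : Type} [Fintype K] {Λ : K → Submodule (ZMod 2) (GX X ν)}
    (hΛ : ∀ i, (Nat.card (Λ i) : ℝ) ≤ pn ν X / c) :
    (Nat.card (Π i, Λ i) : ℝ) ≤ pn ν X ^ Fintype.card K / c ^ Fintype.card K := by
  rw [Nat.card_pi, Nat.cast_prod, ← div_pow, ← Finset.card_univ, ← Finset.prod_const]
  exact Finset.prod_le_prod (fun _ _ => Nat.cast_nonneg _) fun i _ => hΛ i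

lemma alsD_inj (a : GX (I → X) ν) (b : Bil 2 (I → X)) (G0 : Submodule (ZMod 2) (GX (I → X) ν))
    (i j : I) : Nat.card {x : GX (I → X) ν // x - a ∈ PI Γ ∧ x ∈ ann b G0} ≤
      Nat.card ↥(Γ i ⊓ ann (blk b i j) (sl G0 j)) * Nat.card (Π k : {k // k ≠ i}, Γ k.1) := by
  rcases isEmpty_or_nonempty {x : GX (I → X) ν // x - a ∈ PI Γ ∧ x ∈ ann b G0} with h | h
  · simp
  let π : {x : GX (I → X) ν // x - a ∈ PI Γ ∧ x ∈ ann b G0} → Π k : {k // k ≠ i}, Γ k.1 :=
    fun x k => ⟨co k.1 (x.1 - a), mem_PI.1 x.2.1 k.1⟩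
  have hπ : ∀ x y, π x = π y → ∀ k, k ≠ i → co k x.1 = co k y.1 := fun x y e k hk => by
    have e1 : co k (x.1 - a) = co k (y.1 - a) := congrArg Subtype.val (congrFun e ⟨k, hk⟩)
    rwa [map_sub, map_sub, sub_left_inj] at e1
  have hm : ∀ x y, π x = π y → co i (x.1 - y.1) ∈ Γ i ⊓ ann (blk b i j) (sl G0 j) := by
    intro x y e
    refine ⟨?_, fun τ hτ => ?_⟩
    · have e1 := mem_PI.1 (sub_mem x.2.1 y.2.1) i
      rwa [sub_sub_sub_cancel_right] at e1
    · have e1 : sy b (x.1 - y.1) _ = 0 := sub_mem x.2.2 y.2.2 _ hτ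
      rw [alsD_sy, Finset.sum_eq_single i] at e1
      · exact e1
      · intro k _ hk
        rw [map_sub, hπ x y e k hk, sub_self]
        simp [sy]
      · simp
  rw [← Nat.card_prod]
  refine Nat.card_le_card_of_injective (fun x => (⟨co i (x.1 - (Function.invFun π (π x)).1),
    hm _ _ (Function.invFun_eq ⟨x, rfl⟩).symm⟩, π x)) fun x y e => ?_
  have e2 : π x = π y := congrArg Prod.snd e
  have e1 : co i (x.1 - (Function.invFun π (π x)).1) = co i (y.1 - (Function.invFun π (π y)).1) :=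
    congrArg (fun z => z.1.1) e
  rw [e2, map_sub, map_sub, sub_left_inj] at e1
  refine Subtype.ext (alsD_ext fun k => ?_)
  by_cases hk : k = i
  · rw [hk]; exact e1
  · exact hπ x y e2 k hk

/-- fix the coordinates different from `i`, subtract two solutions, test on `sl G0 j` -/
theorem Q41 (hc : 0 < c) (hc1 : c ≤ 1) (hΓ : ∀ i, (Nat.card (Γ i) : ℝ) ≤ pn ν X / c)
    (a : GX (I → X) ν) (b : Bil 2 (I → X)) (G0 : Submodule (ZMod 2) (GX (I → X) ν)) (i j : I)
    {θ₁ : ℝ} (hθ : 0 ≤ θ₁)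
    (h1 : (Nat.card ↥(Γ i ⊓ ann (blk b i j) (sl G0 j)) : ℝ) ≤ θ₁ * pn ν X) :
    q4 Γ a b G0 ≤ θ₁ / c ^ Fintype.card I * pn ν (I → X) := by
  have hm : Fintype.card I = Fintype.card {k // k ≠ i} + 1 := by
    have h0 : 0 < Fintype.card I := Fintype.card_pos_iff.2 ⟨i⟩
    rw [Fintype.card_subtype_compl, Fintype.card_subtype_eq]
    omega
  have hp : 0 < pn ν X := pn_pos
  have h2 := alsD_prod (Λ := fun k : {k // k ≠ i} => Γ k.1) fun k => hΓ k.1
  have h3 : q4 Γ a b G0 ≤ (Nat.card ↥(Γ i ⊓ ann (blk b i j) (sl G0 j)) : ℝ) *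
      Nat.card (Π k : {k // k ≠ i}, Γ k.1) := by
    unfold q4
    exact_mod_cast alsD_inj a b G0 i j
  rw [pn_pi, hm]
  generalize Fintype.card {k // k ≠ i} = m at *
  refine h3.trans ((mul_le_mul h1 h2 (Nat.cast_nonneg _) (by positivity)).trans ?_)
  have h4 : θ₁ * pn ν X * (pn ν X ^ m / c ^ m) = θ₁ / c ^ (m + 1) * pn ν X ^ (m + 1) * c := by
    field_simp
    ring
  rw [h4]
  exact mul_le_of_le_one_right (by positivity) hc1

lemma alsD_swap {V : Type} [Finite V] (Λ : I → Set V) (G : Set V) (s : I → Prop)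
    (hG : ∀ i, s i → Λ i = G) (P : (I → V) → Prop)
    (hP : ∀ τ σ, (∀ i, s i → τ i = σ i) → P τ → P σ) :
    Nat.card {τ : Π i, Λ i // P fun i => τ i} * Nat.card (I → G) ≤
      Nat.card {σ : I → G // P fun i => σ i} * Nat.card (Π i, Λ i) := by
  classical
  rw [← Nat.card_prod, ← Nat.card_prod]
  refine Nat.card_le_card_of_injective (fun z =>
    (⟨fun i => ⟨if s i then (z.1.1 i).1 else (z.2 i).1, ?_⟩, ?_⟩,
      fun i => ⟨if s i then (z.2 i).1 else (z.1.1 i).1, ?_⟩)) fun z w e => ?_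
  · split_ifs with h
    · exact hG i h ▸ (z.1.1 i).2
    · exact (z.2 i).2
  · exact hP _ _ (fun i h => (if_pos h).symm) z.1.2
  · split_ifs with h
    · exact (hG i h).symm ▸ (z.2 i).2
    · exact (z.1.1 i).2
  · have e1 : ∀ i, (if s i then (z.1.1 i).1 else (z.2 i).1) =
        if s i then (w.1.1 i).1 else (w.2 i).1 := fun i => congrArg (fun u => (u.1.1 i).1) e
    have e2 : ∀ i, (if s i then (z.2 i).1 else (z.1.1 i).1) =
        if s i then (w.2 i).1 else (w.1.1 i).1 := fun i => congrArg (fun u => (u.2 i).1) e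
    refine Prod.ext (Subtype.ext (funext fun i => Subtype.ext ?_)) (funext fun i => Subtype.ext ?_)
    · by_cases h : s i
      · simpa only [if_pos h] using e1 i
      · simpa only [if_neg h] using e2 i
    · by_cases h : s i
      · simpa only [if_pos h] using e2 i
      · simpa only [if_neg h] using e1 i

theorem Q42 (hc : 0 < c) (hc1 : c ≤ 1) (hΓ : ∀ i, (Nat.card (Γ i) : ℝ) ≤ pn ν X / c)
    (a : GX (I → X) ν) (b : Bil 2 (I → X)) (G0 : Submodule (ZMod 2) (GX (I → X) ν)) (j : I)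
    (G : Submodule (ZMod 2) (GX X ν)) (hG : ∀ i, blk b i j ≠ 0 → Γ i = G) :
    q4 Γ a b G0 ≤ 1 / c ^ Fintype.card I * pn ν (I → X) *
      rq4 G (fun i => co i a) (fun i => blk b i j) (sl G0 j) := by
  let P : (I → GX X ν) → Prop := fun τ =>
    ∀ τ' ∈ sl G0 j, ∑ i, sy (blk b i j) (τ i + co i a) τ' = 0
  have h1 : Nat.card {τ : Π i, Γ i // P fun i => τ i} * Nat.card (I → G) ≤
      Nat.card {σ : I → G // P fun i => σ i} * Nat.card (Π i, Γ i) :=
    alsD_swap (fun i => (Γ i : Set (GX X ν))) G (fun i => blk b i j ≠ 0)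
      (fun i h => by rw [hG i h]) P fun τ σ e h τ' hτ => by
        rw [← h τ' hτ]
        refine Finset.sum_congr rfl fun i _ => ?_
        by_cases h0 : blk b i j = 0
        · simp [h0, sy, bt]
        · rw [e i h0]
  have h2 : Nat.card {x : GX (I → X) ν // x - a ∈ PI Γ ∧ x ∈ ann b G0} ≤
      Nat.card {τ : Π i, Γ i // P fun i => τ i} := by
    refine Nat.card_le_card_of_injective (fun x =>
      ⟨fun i => ⟨co i (x.1 - a), mem_PI.1 x.2.1 i⟩, fun τ' hτ => ?_⟩) fun x y e => ?_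
    · have e1 : sy b x.1 _ = 0 := x.2.2 _ hτ
      rw [alsD_sy] at e1
      simpa only [map_sub, sub_add_cancel] using e1
    · refine Subtype.ext (alsD_ext fun i => ?_)
      have e1 : co i (x.1 - a) = co i (y.1 - a) := congrArg (fun u => (u.1 i).1) e
      rwa [map_sub, map_sub, sub_left_inj] at e1
  have h3 := alsD_prod hΓ
  have h4 : (0 : ℝ) < Nat.card (I → G) := by exact_mod_cast Nat.card_pos
  have h5 : rq4 G (fun i => co i a) (fun i => blk b i j) (sl G0 j) =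
      (Nat.card {σ : I → G // P fun i => σ i} : ℝ) / Nat.card (I → G) := by
    unfold rq4
    rw [dens_eq_card, ← Nat.card_eq_fintype_card]
    rfl
  have h6 : q4 Γ a b G0 * Nat.card (I → G) ≤
      (Nat.card {σ : I → G // P fun i => σ i} : ℝ) * Nat.card (Π i, Γ i) := by
    unfold q4
    exact_mod_cast (Nat.mul_le_mul_right _ h2).trans h1
  rw [h5, pn_pi, ← mul_div_assoc, le_div_iff₀ h4, one_div_mul_eq_div, mul_comm (_ / _)]
  exact h6.trans (mul_le_mul_of_nonneg_left h3 (Nat.cast_nonneg _))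

lemma exists_blk {b : Bil 2 (I → X)} (hb : b ≠ 0) : ∃ i j, blk b i j ≠ 0 := by
  by_contra hn
  refine hb (LinearMap.pi_ext fun i x => LinearMap.pi_ext fun j y => ?_)
  by_contra h2
  exact hn ⟨i, j, fun h3 => h2 (LinearMap.congr_fun₂ h3 x y)⟩

end Pool.Agent.Work.MP_4523ee_co.F2
end

-- merged part: Pool.Agent.Work.MP_4523ee_co.F2.AlA
section
/-!
Averaging lemmas.
Paper: /team-store/h90_4523ee_CWU.md (one direction version, see the proof hints below).
-/

set_option autoImplicit false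
set_option linter.unusedSectionVars false

namespace Pool.Agent.Work.MP_4523ee_co.F2

open Finset hiding dens
open Matrix Fp
open scoped BigOperators ComplexConjugate

variable {ν : Type} [Fintype ν] [DecidableEq ν]
variable {X : Type} [AddCommGroup X] [Module (ZMod 2) X] [Fintype X]
variable {Y : Type} [AddCommGroup Y] [Module (ZMod 2) Y] [Fintype Y]
variable {I J : Type} [Fintype I] [DecidableEq I] [Fintype J] [DecidableEq J]

lemma ala_shift {G : Type} [AddCommGroup G] [Fintype G] (g : G → ℝ) (a : G) :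
    𝔼 x, g (x + a) = 𝔼 x, g x :=
  Fintype.expect_equiv (Equiv.addRight a) _ _ fun _ => rfl

lemma ala_prod {α β : Type} [Fintype α] [Fintype β] (f : α → β → ℝ) :
    𝔼 a, 𝔼 b, f a b = 𝔼 q : α × β, f q.1 q.2 := by
  rw [← Finset.univ_product_univ, Finset.expect_product']

/-- `U *ᵥ b` is uniform for `b ≠ 0` -/
lemma ala_unif {b : J → ZMod 2} (hb : b ≠ 0) (g : (ν → ZMod 2) → ℝ) :
    𝔼 U : Matrix ν J (ZMod 2), g (U *ᵥ b) = 𝔼 x, g x := by
  obtain ⟨t, ht⟩ := Function.ne_iff.1 hb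
  have ht1 : b t = 1 := by
    have : ∀ s : ZMod 2, s ≠ 0 → s = 1 := by decide
    exact this _ ht
  have h1 : ∀ x, 𝔼 U : Matrix ν J (ZMod 2), g (U *ᵥ b) =
      𝔼 U : Matrix ν J (ZMod 2), g (x + U *ᵥ b) := by
    intro x
    rw [← ala_shift (fun U : Matrix ν J (ZMod 2) => g (U *ᵥ b)) (vecMulVec x (Pi.single t 1))]
    refine Finset.expect_congr rfl fun U _ => ?_
    have e : vecMulVec x (Pi.single t (1 : ZMod 2)) *ᵥ b = x := by
      funext i
      simp only [mulVec, dotProduct, vecMulVec_apply]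
      rw [Finset.sum_eq_single t (fun s _ hs => by simp [Pi.single_eq_of_ne hs]) (by simp)]
      simp [ht1]
    rw [add_mulVec, e, add_comm]
  calc 𝔼 U : Matrix ν J (ZMod 2), g (U *ᵥ b)
      = 𝔼 x : ν → ZMod 2, 𝔼 U : Matrix ν J (ZMod 2), g (x + U *ᵥ b) := by
        rw [← Fintype.expect_const (ι := ν → ZMod 2) (𝔼 U : Matrix ν J (ZMod 2), g (U *ᵥ b))]
        exact Finset.expect_congr rfl fun x _ => h1 x
    _ = 𝔼 x, g x := by
        rw [Finset.expect_comm]
        simp_rw [ala_shift]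
        exact Fintype.expect_const _

/-- translate `d` -/
lemma av_shift (δ : J → ZMod 2) (Φ : (ν → ZMod 2) → Matrix ν J (ZMod 2) → ℝ) :
    𝔼 d, 𝔼 U, Φ (d + U *ᵥ δ) U = 𝔼 d, 𝔼 U, Φ d U := by
  rw [Finset.expect_comm, Finset.expect_comm _ _ fun d U => Φ d U]
  exact Finset.expect_congr rfl fun U _ => ala_shift (fun d => Φ d U) (U *ᵥ δ)

/-- refresh one column (the map `(U, u) ↦ (U.updateCol t u, column t of U)` is an involution) -/
lemma av_col (t : J) (Φ : Matrix ν J (ZMod 2) → ℝ) :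
    𝔼 U, Φ U = 𝔼 U : Matrix ν J (ZMod 2), 𝔼 u : ν → ZMod 2, Φ (U.updateCol t u) := by
  let th : Matrix ν J (ZMod 2) × (ν → ZMod 2) → Matrix ν J (ZMod 2) × (ν → ZMod 2) :=
    fun q => (q.1.updateCol t q.2, fun i => q.1 i t)
  have hth : Function.Involutive th := by
    intro q
    refine Prod.ext ?_ ?_
    · ext i j
      by_cases hj : j = t
      · subst hj
        simp [th]
      · simp [th, updateCol_ne hj]
    · funext i
      simp [th]
  rw [ala_prod fun (U : Matrix ν J (ZMod 2)) (u : ν → ZMod 2) => Φ (U.updateCol t u),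
    Fintype.expect_equiv hth.toPerm (fun q => Φ (q.1.updateCol t q.2)) (fun q => Φ q.1)
      fun _ => rfl,
    ← ala_prod fun (U : Matrix ν J (ZMod 2)) (_ : ν → ZMod 2) => Φ U]
  simp only [Fintype.expect_const]

/-- two different vertices of a random cube are independent and uniform
(av_shift, then `U *ᵥ (δ' - δ)` is uniform: `U ↦ U *ᵥ b` is linear and onto for `b ≠ 0`) -/
lemma av_pair {δ δ' : J → ZMod 2} (h : δ ≠ δ') (Φ : (ν → ZMod 2) → (ν → ZMod 2) → ℝ) :
    𝔼 d, 𝔼 U : Matrix ν J (ZMod 2), Φ (d + U *ᵥ δ) (d + U *ᵥ δ') = 𝔼 d₁, 𝔼 d₂, Φ d₁ d₂ := by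
  have h1 := av_shift δ fun d (U : Matrix ν J (ZMod 2)) => Φ d (d + U *ᵥ (δ' - δ))
  have h2 : ∀ (d : ν → ZMod 2) (U : Matrix ν J (ZMod 2)),
      d + U *ᵥ δ + U *ᵥ (δ' - δ) = d + U *ᵥ δ' := fun d U => by
    rw [mulVec_sub]
    abel
  simp only [h2] at h1
  rw [h1]
  refine Finset.expect_congr rfl fun d _ => ?_
  rw [ala_unif (sub_ne_zero.2 h.symm) fun x => Φ d (d + x)]
  exact Fintype.expect_equiv (Equiv.addLeft d) _ _ fun _ => rfl

lemma av_cols {J' : Type} [Fintype J'] [DecidableEq J'] (Φ : Matrix ν (J ⊕ J') (ZMod 2) → ℝ) :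
    𝔼 U : Matrix ν J (ZMod 2), 𝔼 U' : Matrix ν J' (ZMod 2), Φ (fromCols U U') = 𝔼 V, Φ V := by
  rw [ala_prod fun (U : Matrix ν J (ZMod 2)) (U' : Matrix ν J' (ZMod 2)) => Φ (fromCols U U')]
  let e : Matrix ν J (ZMod 2) × Matrix ν J' (ZMod 2) ≃ Matrix ν (J ⊕ J') (ZMod 2) :=
    { toFun := fun q => fromCols q.1 q.2
      invFun := fun V => (toCols₁ V, toCols₂ V)
      left_inv := fun q => by simp
      right_inv := fun V => fromCols_toCols V }
  exact Fintype.expect_equiv e _ _ fun _ => rfl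

lemma av_pair' {δ : J → ZMod 2} (h : δ ≠ 0) (δ' : J → ZMod 2)
    (Φ : (ν → ZMod 2) → (ν → ZMod 2) → ℝ) :
    𝔼 d, 𝔼 U : Matrix ν J (ZMod 2), 𝔼 U' : Matrix ν J (ZMod 2), Φ (d + U *ᵥ δ) (d + U' *ᵥ δ') =
      𝔼 d₁, 𝔼 d₂, Φ d₁ d₂ := by
  have hne : (Sum.elim δ (0 : J → ZMod 2) : J ⊕ J → ZMod 2) ≠
      Sum.elim (0 : J → ZMod 2) δ' := fun e =>
    h (funext fun j => congrFun e (Sum.inl j))
  rw [← av_pair hne Φ]
  refine Finset.expect_congr rfl fun d _ => ?_
  rw [← av_cols fun V : Matrix ν (J ⊕ J) (ZMod 2) =>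
    Φ (d + V *ᵥ Sum.elim δ (0 : J → ZMod 2)) (d + V *ᵥ Sum.elim (0 : J → ZMod 2) δ')]
  simp only [fromCols_mulVec_sumElim, mulVec_zero, add_zero, zero_add]

/-- disintegration over the fibres -/
lemma av_fib (Φ : (ν → ZMod 2) → SymM 2 ν → ℝ) :
    𝔼 M, Φ (dg M) M = 𝔼 d, 2 ^ Fintype.card ν * 𝔼 M, ind {M | dg M = d} M * Φ d M := by
  simp only [Finset.mul_expect]
  rw [Finset.expect_comm]
  refine Finset.expect_congr rfl fun M _ => ?_
  rw [Fintype.expect_eq_sum_div_card, Finset.sum_eq_single (dg M)]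
  · rw [ind_of_mem (by exact rfl), Fintype.card_fun, ZMod.card]
    push_cast
    field_simp
  · intro d _ hd
    rw [ind_of_not (by exact fun e => hd (Eq.symm e))]
    simp
  · simp

/-- a retraction onto a dense set with small fibres
(enumerate `D` by `Fin N`, the space by `Fin L`, send a point outside `D` to its index mod `N`) -/
lemma exists_retr {α : Type} [Fintype α] (D : Set α) {e : ℝ} (he : 0 < e) (hD : e ≤ dens D) :
    ∃ π : α → α, (∀ d, π d ∈ D) ∧ (∀ d ∈ D, π d = d) ∧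
      ∀ S : Set α, dens {d | π d ∈ S} ≤ 3 / e * dens (S ∩ D) := by
  classical
  have he1 : e ≤ 1 := hD.trans (dens_le_one D)
  rw [dens_eq_card] at hD
  have hL : (0 : ℝ) < Fintype.card α := by
    rcases Nat.eq_zero_or_pos (Fintype.card α) with h0 | h0
    · rw [h0] at hD
      simp at hD
      linarith
    · exact_mod_cast h0
  have hN' : e * Fintype.card α ≤ Nat.card D := (le_div_iff₀ hL).1 hD
  have hN : 0 < Nat.card D := by
    have : (0 : ℝ) < Nat.card D := lt_of_lt_of_le (mul_pos he hL) hN'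
    exact_mod_cast this
  set k := Fintype.card α / Nat.card D + 1 with hk
  have hle : Fintype.card α ≤ Fintype.card (D × Fin k) := by
    rw [Fintype.card_prod, Fintype.card_fin, ← Nat.card_eq_fintype_card (α := D), hk]
    exact (Nat.lt_mul_div_succ _ hN).le
  obtain ⟨f⟩ := Function.Embedding.nonempty_of_card_le hle
  have hkr : (k : ℝ) + 1 ≤ 3 / e := by
    have h1 : ((Fintype.card α / Nat.card D : ℕ) : ℝ) ≤ (Fintype.card α : ℝ) / Nat.card D :=
      Nat.cast_div_le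
    have h2 : (Fintype.card α : ℝ) / Nat.card D ≤ 1 / e := by
      rw [div_le_div_iff₀ (by exact_mod_cast hN) he]
      linarith
    have h3 : 1 ≤ 1 / e := by
      rw [le_div_iff₀ he]
      linarith
    have h4 : 3 / e = 3 * (1 / e) := by ring
    rw [hk, h4]
    push_cast
    linarith
  refine ⟨fun d => if d ∈ D then d else (f d).1.1, fun d => ?_, fun d hd => if_pos hd, fun S => ?_⟩
  · by_cases hd : d ∈ D
    · simp only [if_pos hd]
      exact hd
    · simp only [if_neg hd]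
      exact (f d).1.2
  · let T : Set α := {d | (if d ∈ D then d else (f d).1.1) ∈ S}
    have hA : ∀ d : T, d.1 ∈ D → d.1 ∈ S ∩ D := fun d hd => by
      have h := d.2
      simp only [T, Set.mem_ofPred_eq, if_pos hd] at h
      exact ⟨h, hd⟩
    have hB : ∀ d : T, d.1 ∉ D → (f d.1).1.1 ∈ S ∩ D := fun d hd => by
      have h := d.2
      simp only [T, Set.mem_ofPred_eq, if_neg hd] at h
      exact ⟨h, (f d.1).1.2⟩
    let g : T → ↥(S ∩ D) × Option (Fin k) := fun d =>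
      if hd : d.1 ∈ D then (⟨d.1, hA d hd⟩, none) else (⟨(f d.1).1.1, hB d hd⟩, some (f d.1).2)
    have hg : Function.Injective g := by
      intro a b hab
      by_cases ha : a.1 ∈ D <;> by_cases hb : b.1 ∈ D <;>
        simp only [g, ha, hb, dif_pos, dif_neg, not_false_eq_true, Prod.mk.injEq,
          Subtype.mk.injEq, reduceCtorEq, and_false, Option.some.injEq, and_true] at hab
      · exact Subtype.ext hab
      · exact Subtype.ext (f.injective (Prod.ext (Subtype.ext hab.1) hab.2))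
    have hc := Nat.card_le_card_of_injective g hg
    rw [Nat.card_prod, Nat.card_eq_fintype_card (α := Option (Fin k)), Fintype.card_option,
      Fintype.card_fin] at hc
    have hc' : (Nat.card T : ℝ) ≤ Nat.card ↥(S ∩ D) * ((k : ℝ) + 1) := by exact_mod_cast hc
    show dens T ≤ _
    rw [dens_eq_card, dens_eq_card, ← mul_div_assoc]
    refine div_le_div_of_nonneg_right (hc'.trans ?_) hL.le
    rw [mul_comm]
    exact mul_le_mul_of_nonneg_right hkr (Nat.cast_nonneg _)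

end Pool.Agent.Work.MP_4523ee_co.F2
end
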