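import Mathlib
import Pool.Agent.Work.MP_4523ee_co.Fp.PoE
import Pool.Agent.Work.MP_4523ee_co.Fp.End

-- merged part: Pool.Agent.Work.MP_4523ee_co.F2.MoI
section
/-!
Moment lemma on a fibre: definitions.
-/

set_option autoImplicit false
set_option linter.unusedSectionVars false

namespace Pool.Agent.Work.MP_4523ee_co.F2.Mo

open Finset Matrix Pool.Agent.Work.MP_4523ee_co.Fp Pool.Agent.Work.MP_4523ee_co.Fp.Po
open scoped BigOperators ComplexConjugate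

section gen
variable {p : ℕ} [Fact p.Prime] {ν : Type} [Fintype ν] [DecidableEq ν] {ρ : ℕ}
variable {ι : Type} [Fintype ι] [DecidableEq ι]

/-- rank of a family of tuples -/
noncomputable def rk (t : ι → TT p ρ ν) : ℕ := Module.finrank (ZMod p) ↥(⨆ k, spn (t k))

/-- (L): lightness -/
def Lt (ξ : ℝ) (S : Finset (TT p ρ ν)) : Prop :=
  ∀ g : Mx p (Fin ρ) (Fin ρ), 0 < g.rank → g.rank < ρ → ∀ σ : TT p ρ ν,
    (#{τ ∈ S | rm τ g = σ} : ℝ) ≤ ξ * dd p ν ^ (ρ - g.rank)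

/-- (Y): no column of the first component is concentrated -/
def Yf (ξ : ℝ) (S : Finset (TT p ρ ν)) : Prop :=
  ∀ c : Fin ρ → ZMod p, c ≠ 0 → ∀ v : ν → ZMod p, (#{τ ∈ S | yM τ *ᵥ c = v} : ℝ) ≤ ξ * dd p ν ^ ρ

/-- the family with the sets outside `I` replaced by the zero tuple -/
def pad (S : ι → Finset (TT p ρ ν)) (I : Finset ι) (k : ι) : Finset (TT p ρ ν) :=
  if k ∈ I then S k else {0}

/-- (D): few full relations, counting form -/
def Dc (ξ : ℝ) (S : ι → Finset (TT p ρ ν)) (fl : ι → ι → Prop) : Prop :=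
  ∀ (j : ι) (I : Finset ι), j ∉ I → (∀ k, I = {k} → ¬ fl j k) →
    ∀ g : ι → Mx p (Fin ρ) (Fin ρ), (∀ k, Inj (g k)) →
    (#{t ∈ Fintype.piFinset (pad S I) | ∑ k ∈ I, rm (t k) (g k) ∈ S j} : ℝ) ≤
      ξ * (dd p ν ^ ρ) ^ #I

/-- (D): four sufficient reasons -/
def Dp (ξ : ℝ) (S : ι → Finset (TT p ρ ν)) (fl : ι → ι → Prop) : Prop :=
  ∀ (j : ι) (I : Finset ι), j ∉ I → (∀ k, I = {k} → ¬ fl j k) →
    ∀ g : ι → Mx p (Fin ρ) (Fin ρ), (∀ k, Inj (g k)) →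
    (∀ t : ι → TT p ρ ν, (∀ k ∈ I, t k ∈ S k) → ∑ k ∈ I, rm (t k) (g k) ∉ S j) ∨
    (∃ k, I = {k} ∧ (#{τ ∈ S k | rm τ (g k) ∈ S j} : ℝ) ≤ ξ * dd p ν ^ ρ) ∨
    (∃ k ∈ I, ∀ c, (#{τ ∈ S k | rm τ (g k) + c ∈ S j} : ℝ) ≤ ξ * dd p ν ^ ρ) ∨
    (∃ k ∈ I, ∃ k' ∈ I, k ≠ k' ∧ ∀ c,
      (#{q ∈ S k ×ˢ S k' | rm q.1 (g k) + rm q.2 (g k') + c ∈ S j} : ℝ) ≤ ξ * dd p ν ^ (2 * ρ))

/-- admissible: distinct spans on flagged pairs -/
def Adm (fl : ι → ι → Prop) (t : ι → TT p ρ ν) : Prop :=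
  ∀ j k, j ≠ k → fl j k → spn (t j) ≠ spn (t k)

/-- bilinear bound -/
def BL (ξ : ℝ) (S S' : Finset (TT p ρ ν)) : Prop :=
  ∀ α : Mx p (Fin ρ) (Fin ρ), α ≠ 0 → ∀ f g : TT p ρ ν → ℂ, (∀ τ, ‖f τ‖ ≤ 1) → (∀ τ, ‖g τ‖ ≤ 1) →
    ‖∑ τ ∈ S, ∑ τ' ∈ S', f τ * g τ' * ee (∑ s, ∑ t, α s t * om τ τ' s t)‖ ≤ ξ * dd p ν ^ (2 * ρ)

/-- bounded size, light, small additive energy -/
structure Thin (C ξ : ℝ) (S : Finset (TT p ρ ν)) : Prop where
  card : (#S : ℝ) ≤ C * dd p ν ^ ρ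
  lt : Lt ξ S
  en : (Finset.addEnergy S S : ℝ) ≤ ξ ^ 4 * dd p ν ^ (3 * ρ)

/-- thin, first components of full rank, distinct spans -/
structure Nice (C ξ : ℝ) (S : Finset (TT p ρ ν)) : Prop extends Thin C ξ S where
  inj : ∀ τ ∈ S, Inj (yM τ)
  dist : ∀ τ ∈ S, ∀ τ' ∈ S, spn τ = spn τ' → τ = τ'

/-- the event `M y = z` -/
def hit (M : SymM p ν) (τ : TT p ρ ν) : Prop := M.1 * yM τ = zM τ

end gen

section two
variable {ν : Type} [Fintype ν] [DecidableEq ν] {ρ : ℕ}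
variable {ι : Type} [Fintype ι] [DecidableEq ι]

/-- alternating matrices -/
def AltM (ν : Type) : Submodule (ZMod 2) (SymM 2 ν) where
  carrier := {M | ∀ i, M.1 i i = 0}
  add_mem' := fun {a b} ha hb i => by
    show a.1 i i + b.1 i i = 0
    rw [ha i, hb i, add_zero]
  zero_mem' := fun _ => rfl
  smul_mem' := fun c M h i => by
    show c • M.1 i i = 0
    rw [h i, smul_zero]

/-- the diagonal matrix with diagonal `v` -/
def Dg (v : ν → ZMod 2) : SymM 2 ν := ⟨Matrix.diagonal v, Matrix.diagonal_transpose v⟩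

/-- density of a set on the fibre through `M0` -/
noncomputable def fd (M0 : SymM 2 ν) (E : Set (SymM 2 ν)) : ℝ :=
  dens {A : AltM ν | M0 + A.1 ∈ E}

/-- `yᵀ (z - M0 y)` is alternating -/
def live (M0 : SymM 2 ν) (τ : TT 2 ρ ν) : Prop :=
  om τ τ = 0 ∧ ∀ a, ((yM τ)ᵀ * zM τ) a a = ((yM τ)ᵀ * (M0.1 * yM τ)) a a

/-- probability of one live event -/
noncomputable def pp (ρ : ℕ) (ν : Type) [Fintype ν] : ℝ := 2 ^ (ρ + 1).choose 2 / dd 2 ν ^ ρ

open Classical in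
/-- formal probability of a family of events -/
noncomputable def P0 (M0 : SymM 2 ν) (t : ι → TT 2 ρ ν) : ℝ :=
  if (∀ k, live M0 (t k)) ∧ ∀ k k', om (t k) (t k') = 0 then pp (Fintype.card ι * ρ) ν else 0

end two

end Pool.Agent.Work.MP_4523ee_co.F2.Mo
end

-- merged part: Pool.Agent.Work.MP_4523ee_co.F2.MoB
section
/-!
Moment lemma on a fibre: exact probabilities.
-/

set_option autoImplicit false
set_option linter.unusedSectionVars false

namespace Pool.Agent.Work.MP_4523ee_co.F2.Mo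

open Finset Matrix Pool.Agent.Work.MP_4523ee_co.Fp Pool.Agent.Work.MP_4523ee_co.Fp.Po
open scoped BigOperators ComplexConjugate

variable {ν : Type} [Fintype ν] [DecidableEq ν] {ρ : ℕ}
variable {ι : Type} [Fintype ι] [DecidableEq ι]

lemma hit_iff {p : ℕ} [Fact p.Prime] (M : SymM p ν) (τ : TT p ρ ν) :
    hit M τ ↔ M ∈ CY (spn τ) := by
  rw [mem_CY_spn, act_eq, hit]

/-- diagonal and alternating part -/
def mbaEquiv (κ : Type) [Fintype κ] [DecidableEq κ] : (κ → ZMod 2) × AltM κ ≃ SymM 2 κ where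
  toFun x := Dg x.1 + x.2.1
  invFun M := (fun i => M.1 i i, ⟨M - Dg fun i => M.1 i i, fun i => by
    show M.1 i i - Matrix.diagonal (fun i => M.1 i i) i i = 0
    rw [Matrix.diagonal_apply_eq, sub_self]⟩)
  left_inv x := by
    have e : (fun i => (Dg x.1 + x.2.1).1 i i) = x.1 := by
      funext i
      show Matrix.diagonal x.1 i i + x.2.1.1 i i = x.1 i
      rw [Matrix.diagonal_apply_eq, x.2.2 i, add_zero]
    refine Prod.ext e (Subtype.ext ?_)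
    show Dg x.1 + x.2.1 - Dg (fun i => (Dg x.1 + x.2.1).1 i i) = x.2.1
    rw [e, add_sub_cancel_left]
  right_inv M := add_sub_cancel _ _

lemma mba_choose (k : ℕ) : (k + 1).choose 2 = k + k.choose 2 := by
  rw [Nat.choose_succ_succ' k 1, Nat.choose_one_right]

lemma mba_sq (k : ℕ) : k * k = (k + 1).choose 2 + k.choose 2 := by
  induction k with
  | zero => rfl
  | succ k ih =>
    rw [mba_choose] at ih
    rw [mba_choose (k + 1), mba_choose k]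
    nlinarith

lemma mba_diag {a b : Type} [Fintype a] {B : Mx 2 a a} (hB : Bᵀ = B) (hd : ∀ i, B i i = 0)
    (Y : Mx 2 a b) (c : b) : (Yᵀ * (B * Y)) c c = 0 := by
  simp only [Matrix.mul_apply, transpose_apply, mul_sum]
  rw [← Fintype.sum_prod_type' fun i j => Y i c * (B i j * Y j c)]
  refine sum_ninvolution Prod.swap (fun x => ?_) (fun x hx e => hx ?_) (fun _ => mem_univ _)
    fun _ => rfl
  · have e : B x.2 x.1 = B x.1 x.2 := congrFun (congrFun hB x.1) x.2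
    show Y x.1 c * (B x.1 x.2 * Y x.2 c) + Y x.2 c * (B x.2 x.1 * Y x.1 c) = 0
    rw [e, show Y x.2 c * (B x.1 x.2 * Y x.1 c) = Y x.1 c * (B x.1 x.2 * Y x.2 c) by ring]
    exact CharTwo.add_self_eq_zero _
  · have e1 : x.2 = x.1 := congrArg Prod.fst e
    rw [e1, hd, zero_mul, mul_zero]

lemma mba_add {b : Type} (M0 : SymM 2 ν) (A : AltM ν) (Y : Mx 2 ν b) (c : b) :
    (Yᵀ * ((M0 + A.1).1 * Y)) c c = (Yᵀ * (M0.1 * Y)) c c := by
  rw [Submodule.coe_add, Matrix.add_mul, Matrix.mul_add, Matrix.add_apply,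
    mba_diag (SymM_T A.1) A.2, add_zero]

lemma mba_sub {M0 M1 : SymM 2 ν} (h : ∀ i, M0.1 i i = M1.1 i i) : M0 - M1 ∈ AltM ν := fun i => by
  show M0.1 i i - M1.1 i i = 0
  rw [h i, sub_self]

lemma card_AltM (κ : Type) [Fintype κ] [DecidableEq κ] :
    Fintype.card (AltM κ) = 2 ^ (Fintype.card κ).choose 2 := by
  have h := Fintype.card_congr (mbaEquiv κ)
  rw [card_SymM, Fintype.card_prod, Fintype.card_fun, ZMod.card, mba_choose, pow_add] at h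
  exact Nat.eq_of_mul_eq_mul_left (by positivity) h

/-- averaging over fibres -/
lemma expect_fib {R : Type} [AddCommMonoid R] [Module ℚ≥0 R] (g : SymM 2 ν → R) :
    𝔼 M, g M = 𝔼 v : ν → ZMod 2, 𝔼 A : AltM ν, g (Dg v + A.1) := by
  rw [← Fintype.expect_equiv (mbaEquiv ν) (fun x => g (Dg x.1 + x.2.1)) g fun _ => rfl,
    ← univ_product_univ, expect_product]

/-- the fibre depends only on the diagonal of the base point -/
lemma expect_base {R : Type} [AddCommMonoid R] [Module ℚ≥0 R] (g : SymM 2 ν → R)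
    {M0 M1 : SymM 2 ν} (h : ∀ i, M0.1 i i = M1.1 i i) :
    𝔼 A : AltM ν, g (M0 + A.1) = 𝔼 A : AltM ν, g (M1 + A.1) := by
  refine Fintype.expect_equiv (Equiv.addLeft (⟨M0 - M1, mba_sub h⟩ : AltM ν)) _ _ fun A => ?_
  show g (M0 + A.1) = g (M1 + (M0 - M1 + A.1))
  rw [← add_assoc, add_sub_cancel]

lemma fd_base (E : Set (SymM 2 ν)) {M0 M1 : SymM 2 ν} (h : ∀ i, M0.1 i i = M1.1 i i) :
    fd M0 E = fd M1 E := expect_base (ind E) h

lemma live_base {M0 M1 : SymM 2 ν} (h : ∀ i, M0.1 i i = M1.1 i i) (τ : TT 2 ρ ν) :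
    live M0 τ ↔ live M1 τ := by
  have e : ∀ a, ((yM τ)ᵀ * (M0.1 * yM τ)) a a = ((yM τ)ᵀ * (M1.1 * yM τ)) a a := by
    intro a
    have := mba_add M1 ⟨M0 - M1, mba_sub h⟩ (yM τ) a
    rwa [add_sub_cancel] at this
  unfold live
  simp only [e]

lemma live_of_hit {M0 : SymM 2 ν} {A : AltM ν} {τ : TT 2 ρ ν} (h : hit (M0 + A.1) τ) :
    live M0 τ := by
  have h' : (M0 + A.1).1 * yM τ = zM τ := h
  refine ⟨?_, fun a => ?_⟩
  · rw [om, ← h', transpose_mul, SymM_T, Matrix.mul_assoc, sub_self]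
  · rw [← h', mba_add]

/-- alternating matrices inside all matrices -/
def mbaAlt (κ : Type) : Submodule (ZMod 2) (Mx 2 κ κ) where
  carrier := {B | Bᵀ = B ∧ ∀ a, B a a = 0}
  add_mem' := fun {a b} ha hb => ⟨by rw [transpose_add, ha.1, hb.1], fun i => by
    rw [Matrix.add_apply, ha.2 i, hb.2 i, add_zero]⟩
  zero_mem' := ⟨transpose_zero, fun _ => rfl⟩
  smul_mem' := fun c M h => ⟨by rw [transpose_smul, h.1], fun i => by
    rw [Matrix.smul_apply, h.2 i, smul_zero]⟩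

lemma mba_card_alt (κ : Type) [Fintype κ] [DecidableEq κ] :
    Fintype.card (mbaAlt κ) = 2 ^ (Fintype.card κ).choose 2 := by
  rw [← card_AltM]
  exact Fintype.card_congr ⟨fun B => ⟨⟨B.1, B.2.1⟩, B.2.2⟩, fun A => ⟨A.1.1, A.1.2, A.2⟩,
    fun _ => rfl, fun _ => rfl⟩

def mbaPhi {κ : Type} (Y : Mx 2 ν κ) : AltM ν →ₗ[ZMod 2] Mx 2 ν κ where
  toFun A := A.1.1 * Y
  map_add' a b := by simp only [Submodule.coe_add, Matrix.add_mul]
  map_smul' c a := by simp only [Submodule.coe_smul, Matrix.smul_mul, RingHom.id_apply]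

def mbaPsi {κ : Type} (Y : Mx 2 ν κ) : Mx 2 ν κ →ₗ[ZMod 2] Mx 2 κ κ where
  toFun Z := Yᵀ * Z
  map_add' a b := Matrix.mul_add _ _ _
  map_smul' c a := by simp only [Matrix.mul_smul, RingHom.id_apply]

lemma mba_mem {κ : Type} (Y : Mx 2 ν κ) (A : AltM ν) :
    mbaPhi Y A ∈ (mbaAlt κ).comap (mbaPsi Y) := by
  refine ⟨?_, mba_diag (SymM_T A.1) A.2 Y⟩
  show (Yᵀ * (A.1.1 * Y))ᵀ = Yᵀ * (A.1.1 * Y)
  rw [transpose_mul, transpose_mul, transpose_transpose, SymM_T, Matrix.mul_assoc]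

lemma mba_surj {κ : Type} [Fintype κ] [DecidableEq κ] {Y : Mx 2 ν κ} {L : Mx 2 κ ν}
    (hL : L * Y = 1) : Function.Surjective ((mbaPhi Y).codRestrict _ (mba_mem Y)) := by
  rintro ⟨Z, hx⟩
  have hS : (Yᵀ * Z)ᵀ = Yᵀ * Z := hx.1
  have hd : ∀ a, (Yᵀ * Z) a a = 0 := hx.2
  have h2 : Zᵀ * Y = Yᵀ * Z := by rw [← hS, transpose_mul, transpose_transpose]
  refine ⟨⟨⟨Z * L + Lᵀ * Zᵀ - Lᵀ * (Yᵀ * Z * L), ?_⟩, fun i => ?_⟩, Subtype.ext ?_⟩
  · show (Z * L + Lᵀ * Zᵀ - Lᵀ * (Yᵀ * Z * L))ᵀ = Z * L + Lᵀ * Zᵀ - Lᵀ * (Yᵀ * Z * L)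
    rw [transpose_sub, transpose_add, transpose_mul, transpose_mul, transpose_mul, transpose_mul,
      hS, transpose_transpose, transpose_transpose, add_comm, Matrix.mul_assoc]
  · show (Z * L + Lᵀ * Zᵀ - Lᵀ * (Yᵀ * Z * L)) i i = 0
    rw [Matrix.sub_apply, mba_diag hS hd, sub_zero, Matrix.add_apply, ← transpose_mul,
      transpose_apply]
    exact CharTwo.add_self_eq_zero _
  · show (Z * L + Lᵀ * Zᵀ - Lᵀ * (Yᵀ * Z * L)) * Y = Z
    rw [Matrix.sub_mul, Matrix.add_mul, Matrix.mul_assoc Z, hL, Matrix.mul_one,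
      Matrix.mul_assoc Lᵀ Zᵀ, h2, Matrix.mul_assoc Lᵀ (Yᵀ * Z * L), Matrix.mul_assoc (Yᵀ * Z), hL,
      Matrix.mul_one, add_sub_cancel_right]

lemma mba_card {κ : Type} [Fintype κ] [DecidableEq κ] {Y : Mx 2 ν κ} {L : Mx 2 κ ν}
    (hL : L * Y = 1) :
    Fintype.card ((mbaAlt κ).comap (mbaPsi Y)) * 2 ^ (Fintype.card κ + 1).choose 2 =
      (2 ^ Fintype.card ν) ^ Fintype.card κ := by
  have hL' : Yᵀ * Lᵀ = 1 := by rw [← transpose_mul, hL, transpose_one]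
  have hs : Function.Surjective (mbaPsi Y) := fun A => ⟨Lᵀ * A, by
    show Yᵀ * (Lᵀ * A) = A
    rw [← Matrix.mul_assoc, hL', Matrix.one_mul]⟩
  have hs2 : Function.Surjective ((mbaAlt κ).mkQ ∘ₗ mbaPsi Y) :=
    (Submodule.mkQ_surjective _).comp hs
  have h1 := LinearMap.finrank_range_add_finrank_ker ((mbaAlt κ).mkQ ∘ₗ mbaPsi Y)
  rw [LinearMap.range_eq_top.2 hs2, finrank_top, LinearMap.ker_comp, Submodule.ker_mkQ] at h1
  have h2 := Submodule.finrank_quotient_add_finrank (mbaAlt κ)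
  have h3 := mba_card_alt κ
  rw [card_eq_pow (p := 2)] at h3
  have h4 := Nat.pow_right_injective le_rfl h3
  have h5 := mba_sq (Fintype.card κ)
  simp only [Module.finrank_matrix, Module.finrank_self, mul_one] at h1 h2
  rw [card_eq_pow (p := 2), ← pow_mul, ← pow_add]
  congr 1
  omega

open Classical in
/-- exact probability for independent columns -/
theorem PE0 {κ : Type} [Fintype κ] [DecidableEq κ] (M0 : SymM 2 ν) (Y Z : Mx 2 ν κ) (hY : Inj Y) :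
    fd M0 {M | M.1 * Y = Z} =
      if Yᵀ * Z = Zᵀ * Y ∧ ∀ a, (Yᵀ * Z) a a = (Yᵀ * (M0.1 * Y)) a a then
        pp (Fintype.card κ) ν else 0 := by
  obtain ⟨L, hL⟩ := pa_left Y hY
  have hiff : Z - M0.1 * Y ∈ (mbaAlt κ).comap (mbaPsi Y) ↔
      Yᵀ * Z = Zᵀ * Y ∧ ∀ a, (Yᵀ * Z) a a = (Yᵀ * (M0.1 * Y)) a a := by
    show (Yᵀ * (Z - M0.1 * Y))ᵀ = Yᵀ * (Z - M0.1 * Y) ∧ (∀ a, (Yᵀ * (Z - M0.1 * Y)) a a = 0) ↔ _
    rw [Matrix.mul_sub, transpose_sub, transpose_mul, transpose_mul, transpose_mul,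
      transpose_transpose, SymM_T, Matrix.mul_assoc, sub_left_inj, eq_comm]
    simp only [Matrix.sub_apply, sub_eq_zero]
  have hset : ∀ A : AltM ν, M0 + A.1 ∈ {M : SymM 2 ν | M.1 * Y = Z} ↔
      mbaPhi Y A = Z - M0.1 * Y := by
    intro A
    show (M0.1 + A.1.1) * Y = Z ↔ A.1.1 * Y = Z - M0.1 * Y
    rw [Matrix.add_mul, eq_sub_iff_add_eq']
  unfold fd
  split_ifs with hc
  · have h1 := dens_fibre_surj _ (mba_surj hL) ⟨_, hiff.2 hc⟩
    have e : {A : AltM ν | M0 + A.1 ∈ {M : SymM 2 ν | M.1 * Y = Z}} =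
        {x | (mbaPhi Y).codRestrict _ (mba_mem Y) x = ⟨_, hiff.2 hc⟩} := by
      ext A
      exact (hset A).trans ⟨fun h => Subtype.ext h, fun h => congrArg Subtype.val h⟩
    have h2 : (Fintype.card ((mbaAlt κ).comap (mbaPsi Y)) : ℝ) * 2 ^ (Fintype.card κ + 1).choose 2 =
        dd 2 ν ^ Fintype.card κ := by
      unfold dd
      exact_mod_cast mba_card hL
    have h4 : (Fintype.card ((mbaAlt κ).comap (mbaPsi Y)) : ℝ) ≠ 0 :=
      Nat.cast_ne_zero.2 Fintype.card_ne_zero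
    rw [e, h1, pp, ← h2]
    field_simp
  · have e : {A : AltM ν | M0 + A.1 ∈ {M : SymM 2 ν | M.1 * Y = Z}} = ∅ := by
      refine Set.eq_empty_of_forall_notMem fun A hA => hc (hiff.1 ?_)
      rw [← (hset A).1 hA]
      exact mba_mem Y A
    rw [e]
    simp [Fp.dens, ind]

lemma mb_dens_ne {α : Type} [Fintype α] {A : Set α} {x : α} (h : x ∈ A) : dens A ≠ 0 := by
  have : Nonempty A := ⟨⟨x, h⟩⟩
  have : Nonempty α := ⟨x⟩
  rw [dens_eq_card]
  exact div_ne_zero (Nat.cast_ne_zero.2 Nat.card_pos.ne') (Nat.cast_ne_zero.2 Fintype.card_ne_zero)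

lemma mb_empty (M0 : SymM 2 ν) {E : Set (SymM 2 ν)} (h : ¬ ∃ A : AltM ν, M0 + A.1 ∈ E) :
    fd M0 E = 0 := by
  have e : {A : AltM ν | M0 + A.1 ∈ E} = ∅ :=
    Set.eq_empty_of_forall_notMem fun A hA => h ⟨A, hA⟩
  rw [fd, e]
  simp [Fp.dens, ind]

lemma mb_cols {Z : SV 2 ν} (h : (CY Z).Nonempty) :
    ∃ K W : Mx 2 ν (Fin (Module.finrank (ZMod 2) Z)), Inj K ∧ CY Z = {M | M.1 * K = W} := by
  let b := Module.finBasis (ZMod 2) Z
  let K : Mx 2 ν (Fin (Module.finrank (ZMod 2) Z)) := Matrix.of fun i a => (b a).1.1 i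
  let W : Mx 2 ν (Fin (Module.finrank (ZMod 2) Z)) := Matrix.of fun i a => (b a).1.2 i
  have e1 : ∀ c, K *ᵥ c = (∑ a, c a • b a : Z).1.1 := by
    intro c
    funext i
    simp [K, mulVec, dotProduct, Prod.fst_sum, Finset.sum_apply, mul_comm]
  have e2 : ∀ c, W *ᵥ c = (∑ a, c a • b a : Z).1.2 := by
    intro c
    funext i
    simp [W, mulVec, dotProduct, Prod.snd_sum, Finset.sum_apply, mul_comm]
  refine ⟨K, W, fun c c' hc => ?_, Set.ext fun M => ⟨fun hM => ?_, fun hM q hq => ?_⟩⟩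
  · have h0 : K *ᵥ (c - c') = 0 := by
      rw [mulVec_sub, sub_eq_zero]
      exact hc
    rw [e1] at h0
    have h1 : (∑ a, (c - c') a • b a : Z) = 0 := Subtype.ext (CY_fst h (Subtype.prop _) h0)
    rw [← sub_eq_zero]
    funext a
    exact Fintype.linearIndependent_iff.1 b.linearIndependent (c - c') h1 a
  · show M.1 * K = W
    ext i a
    have := congrFun (hM (b a).1 (b a).2) i
    simpa [K, W, Matrix.mul_apply, mulVec, dotProduct] using this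
  · have hs : (∑ a, b.repr ⟨q, hq⟩ a • b a : Z).1 = q := by rw [b.sum_repr]
    have hM' : M.1 * K = W := hM
    rw [← hs, ← e1, ← e2, mulVec_mulVec, hM']

/-- the columns of a family of matrices, glued -/
def mbGl {a : Type} (f : ι → Mx 2 a (Fin ρ)) : Mx 2 a (ι × Fin ρ) :=
  Matrix.of fun i q => f q.1 i q.2

lemma mbGl_inj {a : Type} {f g : ι → Mx 2 a (Fin ρ)} : mbGl f = mbGl g ↔ ∀ k, f k = g k := by
  constructor
  · intro h k
    ext i c
    exact congrFun (congrFun h i) (k, c)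
  · intro h
    rw [funext h]

lemma mul_mbGl {a b : Type} [Fintype b] (A : Mx 2 a b) (f : ι → Mx 2 b (Fin ρ)) :
    A * mbGl f = mbGl fun k => A * f k := by
  ext i q
  simp [mbGl, Matrix.mul_apply]

lemma mbGl_mulVec {a : Type} (f : ι → Mx 2 a (Fin ρ)) (c : ι × Fin ρ → ZMod 2) :
    mbGl f *ᵥ c = ∑ k, f k *ᵥ fun b => c (k, b) := by
  funext i
  simp [mbGl, mulVec, dotProduct, Fintype.sum_prod_type, Finset.sum_apply]

lemma mbGl_tr {a : Type} [Fintype a] (f g : ι → Mx 2 a (Fin ρ)) (q q' : ι × Fin ρ) :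
    ((mbGl f)ᵀ * mbGl g) q q' = ((f q.1)ᵀ * g q'.1) q.2 q'.2 := by
  simp [mbGl, Matrix.mul_apply]

lemma mb_CY_iSup (t : ι → TT 2 ρ ν) : {M | ∀ k, hit M (t k)} = CY (⨆ k, spn (t k)) := by
  ext M
  constructor
  · intro hM q hq
    have hle : ⨆ k, spn (t k) ≤ M.1.mulVecLin.graph := iSup_le fun k q hq =>
      (LinearMap.mem_graph_iff _ _).2 ((hit_iff M (t k)).1 (hM k) q hq).symm
    exact ((LinearMap.mem_graph_iff _ _).1 (hle hq)).symm
  · intro hM k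
    exact (hit_iff M (t k)).2 (CY_anti (le_iSup (fun k => spn (t k)) k) hM)

/-- pairing with a square matrix -/
def mbHom {κ : Type} [Fintype κ] (D : κ → κ → ZMod 2) : SymM 2 κ →+ ZMod 2 where
  toFun B := ∑ q, ∑ q', B.1 q q' * D q q'
  map_zero' := by simp
  map_add' B B' := by
    simp only [Submodule.coe_add, Matrix.add_apply, add_mul, sum_add_distrib]

lemma mb_single {κ : Type} [Fintype κ] [DecidableEq κ] (D : κ → κ → ZMod 2) (a b : κ) :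
    ∑ q, ∑ q', (Matrix.single a b (1 : ZMod 2)) q q' * D q q' = D a b := by
  rw [sum_eq_single a, sum_eq_single b]
  · simp
  · intro q' _ hq
    rw [Matrix.single_apply_of_col_ne _ _ (Ne.symm hq), zero_mul]
  · exact fun h => absurd (mem_univ _) h
  · intro q _ hq
    exact sum_eq_zero fun q' _ => by rw [Matrix.single_apply_of_row_ne (Ne.symm hq), zero_mul]
  · exact fun h => absurd (mem_univ _) h

lemma mbHom_zero {κ : Type} [Fintype κ] [DecidableEq κ] (D : κ → κ → ZMod 2) :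
    mbHom D = 0 ↔ (∀ q q', D q q' = D q' q) ∧ ∀ q, D q q = 0 := by
  constructor
  · intro h
    refine ⟨fun a b => ?_, fun a => ?_⟩
    · have hs : (Matrix.single a b (1 : ZMod 2) + Matrix.single b a 1) ∈ SymM 2 κ := by
        show (Matrix.single a b (1 : ZMod 2) + Matrix.single b a 1)ᵀ = _
        rw [transpose_add, transpose_single, transpose_single, add_comm]
      have h1 : ∑ q, ∑ q', (Matrix.single a b (1 : ZMod 2) + Matrix.single b a 1 : Mx 2 κ κ) q q' *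
          D q q' = 0 := DFunLike.congr_fun h ⟨_, hs⟩
      simp only [Matrix.add_apply, add_mul, sum_add_distrib, mb_single] at h1
      exact CharTwo.add_eq_zero.1 h1
    · have hs : Matrix.single a a (1 : ZMod 2) ∈ SymM 2 κ := transpose_single _ _ _
      have h1 : ∑ q, ∑ q', (Matrix.single a a (1 : ZMod 2)) q q' * D q q' = 0 :=
        DFunLike.congr_fun h ⟨_, hs⟩
      rwa [mb_single] at h1
  · rintro ⟨h1, h2⟩
    refine AddMonoidHom.ext fun B => ?_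
    show ∑ q, ∑ q', B.1 q q' * D q q' = 0
    rw [← Fintype.sum_prod_type' fun q q' => B.1 q q' * D q q']
    refine sum_ninvolution Prod.swap (fun x => ?_) (fun x hx e => hx ?_) (fun _ => mem_univ _)
      fun _ => rfl
    · have e : B.1 x.2 x.1 = B.1 x.1 x.2 := congrFun (congrFun (SymM_T B) x.1) x.2
      show B.1 x.1 x.2 * D x.1 x.2 + B.1 x.2 x.1 * D x.2 x.1 = 0
      rw [e, h1 x.2 x.1]
      exact CharTwo.add_self_eq_zero _
    · have e1 : x.2 = x.1 := congrArg Prod.fst e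
      rw [e1, h2, mul_zero]

lemma mb_swap (M0 : SymM 2 ν) (τ τ' : TT 2 ρ ν) (a b : Fin ρ) :
    ((yM τ)ᵀ * (zM τ' - M0.1 * yM τ')) a b - ((yM τ')ᵀ * (zM τ - M0.1 * yM τ)) b a =
      om τ τ' a b := by
  have e : ((yM τ')ᵀ * (zM τ - M0.1 * yM τ)) b a =
      ((zM τ)ᵀ * yM τ' - (yM τ)ᵀ * (M0.1 * yM τ')) a b := by
    rw [← transpose_apply ((yM τ')ᵀ * (zM τ - M0.1 * yM τ)) a b, transpose_mul,
      transpose_transpose, transpose_sub, transpose_mul, SymM_T, Matrix.sub_mul, Matrix.mul_assoc]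
  rw [e, Matrix.mul_sub, om]
  simp only [Matrix.sub_apply]
  ring

/-- a coset that meets the fibre has exact relative measure -/
theorem PZ (M0 : SymM 2 ν) (Z : SV 2 ν) (h : ∃ A : AltM ν, M0 + A.1 ∈ CY Z) :
    fd M0 (CY Z) = pp (Module.finrank (ZMod 2) Z) ν := by
  obtain ⟨A, hA⟩ := h
  obtain ⟨K, W, hK, e⟩ := mb_cols ⟨_, hA⟩
  have h0 : fd M0 (CY Z) ≠ 0 := mb_dens_ne (x := A) hA
  have h1 := PE0 M0 K W hK
  rw [← e, Fintype.card_fin] at h1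
  split_ifs at h1
  · exact h1
  · exact absurd h1 h0

theorem PE (M0 : SymM 2 ν) (t : ι → TT 2 ρ ν) (h : ¬ Dep t) :
    fd M0 {M | ∀ k, hit M (t k)} = P0 M0 t := by
  have hY : Inj (mbGl fun k => yM (t k)) := by
    intro c c' hc
    have h0 : mbGl (fun k => yM (t k)) *ᵥ (c - c') = 0 := by
      rw [mulVec_sub, sub_eq_zero]
      exact hc
    rw [mbGl_mulVec] at h0
    by_contra hne
    refine h ⟨fun k b => (c - c') (k, b), fun h3 => hne ?_, h0⟩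
    rw [← sub_eq_zero]
    funext q
    exact congrFun (congrFun h3 q.1) q.2
  have e : {M : SymM 2 ν | ∀ k, hit M (t k)} =
      {M | M.1 * (mbGl fun k => yM (t k)) = mbGl fun k => zM (t k)} := by
    ext M
    rw [Set.mem_ofPred_eq, Set.mem_ofPred_eq, mul_mbGl, mbGl_inj]
    rfl
  have h1 : ((mbGl fun k => yM (t k))ᵀ * (mbGl fun k => zM (t k)) =
      (mbGl fun k => zM (t k))ᵀ * mbGl fun k => yM (t k)) ↔ ∀ k k', om (t k) (t k') = 0 := by
    constructor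
    · intro h3 k k'
      ext a b
      have := congrFun (congrFun h3 (k, a)) (k', b)
      rw [mbGl_tr, mbGl_tr] at this
      exact sub_eq_zero.2 this
    · intro h3
      ext q q'
      rw [mbGl_tr, mbGl_tr]
      exact sub_eq_zero.1 (congrFun (congrFun (h3 q.1 q'.1) q.2) q'.2)
  have h2 : (∀ q, ((mbGl fun k => yM (t k))ᵀ * (mbGl fun k => zM (t k))) q q =
      ((mbGl fun k => yM (t k))ᵀ * (M0.1 * mbGl fun k => yM (t k))) q q) ↔
      ∀ k a, ((yM (t k))ᵀ * zM (t k)) a a = ((yM (t k))ᵀ * (M0.1 * yM (t k))) a a := by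
    simp only [mul_mbGl M0.1, mbGl_tr]
    exact ⟨fun h3 k a => h3 (k, a), fun h3 q => h3 q.1 q.2⟩
  rw [e, PE0 M0 _ _ hY, P0, Fintype.card_prod, Fintype.card_fin]
  by_cases hc : (∀ k, live M0 (t k)) ∧ ∀ k k', om (t k) (t k') = 0
  · rw [if_pos hc, if_pos ⟨h1.2 hc.2, h2.2 fun k => (hc.1 k).2⟩]
  · rw [if_neg hc, if_neg fun h3 => hc ⟨fun k => ⟨h1.1 h3.1 k k, h2.1 h3.2 k⟩, h1.1 h3.1⟩]

theorem PE1 (M0 : SymM 2 ν) {τ : TT 2 ρ ν} (h : Inj (yM τ)) (hl : live M0 τ) :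
    fd M0 {M | hit M τ} = pp ρ ν := by
  have h1 := PE0 M0 (yM τ) (zM τ) h
  rw [if_pos ⟨sub_eq_zero.1 hl.1, hl.2⟩, Fintype.card_fin] at h1
  exact h1

theorem PU (M0 : SymM 2 ν) (t : ι → TT 2 ρ ν) :
    fd M0 {M | ∀ k, hit M (t k)} ≤ 2 ^ (rk t + 1).choose 2 * (dd 2 ν ^ rk t)⁻¹ := by
  have hd : 0 < dd 2 ν := dd_pos
  rw [mb_CY_iSup]
  by_cases h : ∃ A : AltM ν, M0 + A.1 ∈ CY (⨆ k, spn (t k))
  · rw [PZ M0 _ h, pp, div_eq_mul_inv]
    exact le_rfl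
  · rw [mb_empty M0 h]
    exact mul_nonneg (pow_nonneg zero_le_two _) (inv_nonneg.2 (pow_nonneg hd.le _))

/-- character expansion of the formal probability -/
theorem P0_char (M0 : SymM 2 ν) (t : ι → TT 2 ρ ν) :
    ((P0 M0 t : ℝ) : ℂ) = (((dd 2 ν ^ (Fintype.card ι * ρ))⁻¹ : ℝ) : ℂ) *
      ∑ B : SymM 2 (ι × Fin ρ), ee (∑ q, ∑ q', B.1 q q' *
        ((yM (t q.1))ᵀ * (zM (t q'.1) - M0.1 * yM (t q'.1))) q.2 q'.2) := by
  obtain ⟨D, hD⟩ : ∃ D : ι × Fin ρ → ι × Fin ρ → ZMod 2, D = fun q q' =>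
      ((yM (t q.1))ᵀ * (zM (t q'.1) - M0.1 * yM (t q'.1))) q.2 q'.2 := ⟨_, rfl⟩
  have e : ∀ B : SymM 2 (ι × Fin ρ), (∑ q, ∑ q', B.1 q q' *
      ((yM (t q.1))ᵀ * (zM (t q'.1) - M0.1 * yM (t q'.1))) q.2 q'.2) = mbHom D B := by
    intro B
    rw [hD]
    rfl
  have hiff : mbHom D = 0 ↔ (∀ k, live M0 (t k)) ∧ ∀ k k', om (t k) (t k') = 0 := by
    have a1 : (∀ q q', D q q' = D q' q) ↔ ∀ k k', om (t k) (t k') = 0 := by
      constructor
      · intro h3 k k'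
        ext a b
        have := h3 (k, a) (k', b)
        rw [hD] at this
        rw [← mb_swap M0]
        exact sub_eq_zero.2 this
      · intro h3 q q'
        have := mb_swap M0 (t q.1) (t q'.1) q.2 q'.2
        rw [h3] at this
        rw [hD]
        exact sub_eq_zero.1 this
    have a2 : (∀ q, D q q = 0) ↔
        ∀ k a, ((yM (t k))ᵀ * zM (t k)) a a = ((yM (t k))ᵀ * (M0.1 * yM (t k))) a a := by
      simp only [hD, Matrix.mul_sub, Matrix.sub_apply, sub_eq_zero]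
      exact ⟨fun h3 k a => h3 (k, a), fun h3 q => h3 q.1 q.2⟩
    rw [mbHom_zero, a1, a2]
    exact ⟨fun h3 => ⟨fun k => ⟨h3.1 k k, h3.2 k⟩, h3.1⟩, fun h3 => ⟨h3.2, fun k => (h3.1 k).2⟩⟩
  simp only [e]
  by_cases hc : (∀ k, live M0 (t k)) ∧ ∀ k k', om (t k) (t k') = 0
  · rw [P0, if_pos hc, hiff.2 hc, pp]
    simp only [AddMonoidHom.zero_apply, ee_zero, sum_const, card_univ, card_SymM,
      Fintype.card_prod, Fintype.card_fin, nsmul_eq_mul, mul_one]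
    push_cast
    ring
  · have h0 := expect_ee_hom (mbHom D) fun h3 => hc (hiff.1 h3)
    rw [Fintype.expect_eq_sum_div_card, div_eq_zero_iff] at h0
    rw [P0, if_neg hc, h0.resolve_right (Nat.cast_ne_zero.2 Fintype.card_ne_zero), mul_zero,
      Complex.ofReal_zero]

end Pool.Agent.Work.MP_4523ee_co.F2.Mo
end

-- merged part: Pool.Agent.Work.MP_4523ee_co.F2.PtZ
section
/-!
From void probabilities of all subfamilies to the first two moments of the Poisson weight.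
-/

set_option autoImplicit false
set_option linter.unusedSectionVars false

namespace Pool.Agent.Work.MP_4523ee_co.F2.Pt

open Finset hiding dens
open Pool.Agent.Work.MP_4523ee_co.Fp
open scoped BigOperators

variable {Ω α : Type} [Fintype Ω] [Nonempty Ω] [DecidableEq α]

/-- all subfamilies have Poisson void probabilities -/
def Void (E : α → Set Ω) (𝒯 : Finset α) (q γ : ℝ) : Prop :=
  ∀ 𝒜 ⊆ 𝒯, |dens {ω | ∀ Y ∈ 𝒜, ω ∉ E Y} - Real.exp (-(q * #𝒜))| ≤ γ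

open Classical in
/-- the events that occur -/
noncomputable def hs (E : α → Set Ω) (𝒯 : Finset α) (ω : Ω) : Finset α :=
  𝒯.filter fun Y => ω ∈ E Y

/-- probability of an event in the model -/
noncomputable def sq (q : ℝ) : ℝ := 1 - Real.exp (-q)

/-- mean in the independent model -/
noncomputable def md (𝒯 : Finset α) (s : ℝ) (Φ : Finset α → ℝ) : ℝ :=
  ∑ H ∈ 𝒯.powerset, s ^ #H * (1 - s) ^ #(𝒯 \ H) * Φ H

/-- the factor of an event -/
def xf (S0 S1 : Finset α) (t : ℝ) (Y : α) : ℝ := if Y ∈ S1 then 0 else if Y ∈ S0 then t else 1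

/-- functional of the set of events -/
def gf (S0 S1 : Finset α) (F : ℕ → ℝ) (H : Finset α) : ℝ :=
  if Disjoint H S1 then F #(H ∩ S0) else 0

/-- truncated power -/
def tp (T : ℝ) (K h : ℕ) : ℝ := if h ≤ K then T ^ h else 0

/-- normalisation -/
noncomputable def ptZ (T q : ℝ) (a b : ℕ) : ℝ := (sq q * T + (1 - sq q)) ^ a * (1 - sq q) ^ b

open Classical in
/-- the weight: no event of `S1`, factor `T` for each event of `S0` -/
noncomputable def ptW (T : ℝ) (K : ℕ) (q : ℝ) (E : α → Set Ω) (S0 S1 : Finset α) (ω : Ω) : ℝ :=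
  (if ∀ Y ∈ S1, ω ∉ E Y then tp T K #(hs E S0 ω) else 0) / ptZ T q #S0 #S1

lemma sq_nonneg' {q : ℝ} (hq : 0 ≤ q) : 0 ≤ sq q :=
  sub_nonneg.2 (Real.exp_le_one_iff.2 (neg_nonpos.2 hq))

lemma one_sub_sq (q : ℝ) : 1 - sq q = Real.exp (-q) := sub_sub_cancel _ _

lemma sq_le (q : ℝ) : sq q ≤ q := by
  have := Real.add_one_le_exp (-q)
  unfold sq
  linarith

lemma le_sq {q : ℝ} (hq : 0 ≤ q) : q - q ^ 2 ≤ sq q := by
  have h1 := Real.add_one_le_exp q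
  have h2 : Real.exp (-q) * Real.exp q = 1 := by rw [← Real.exp_add]; simp
  have h3 := Real.exp_pos (-q)
  have h4 : Real.exp (-q) * (q + 1) ≤ 1 := by nlinarith
  unfold sq
  by_contra k
  have k' : 1 - q + q ^ 2 < Real.exp (-q) := by linarith
  nlinarith [mul_nonneg hq (mul_nonneg hq hq)]

lemma md_prod (𝒯 : Finset α) (s : ℝ) (x : α → ℝ) :
    md 𝒯 s (fun H => ∏ Y ∈ H, x Y) = ∏ Y ∈ 𝒯, (s * x Y + (1 - s)) := by
  rw [prod_add]
  refine sum_congr rfl fun H _ => ?_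
  rw [prod_mul_distrib, prod_const, prod_const]
  ring

lemma md_one (𝒯 : Finset α) (s : ℝ) : md 𝒯 s (fun _ => 1) = 1 := by
  have := md_prod 𝒯 s fun _ => 1
  simpa using this

lemma md_mono (𝒯 : Finset α) {s : ℝ} (h0 : 0 ≤ s) (h1 : 0 ≤ 1 - s) {Φ Ψ : Finset α → ℝ}
    (h : ∀ H, Φ H ≤ Ψ H) : md 𝒯 s Φ ≤ md 𝒯 s Ψ :=
  sum_le_sum fun H _ => mul_le_mul_of_nonneg_left (h H) (by positivity)

lemma md_add (𝒯 : Finset α) (s : ℝ) (Φ Ψ : Finset α → ℝ) :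
    md 𝒯 s (fun H => Φ H + Ψ H) = md 𝒯 s Φ + md 𝒯 s Ψ := by
  simp only [md, mul_add, sum_add_distrib]

lemma md_mul (𝒯 : Finset α) (s c : ℝ) (Φ : Finset α → ℝ) :
    md 𝒯 s (fun H => c * Φ H) = c * md 𝒯 s Φ := by
  simp only [md, mul_sum]
  exact sum_congr rfl fun _ _ => by ring

lemma md_sum {ι : Type} (I : Finset ι) (𝒯 : Finset α) (s : ℝ) (Φ : ι → Finset α → ℝ) :
    md 𝒯 s (fun H => ∑ i ∈ I, Φ i H) = ∑ i ∈ I, md 𝒯 s (Φ i) := by
  simp only [md, mul_sum]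
  exact sum_comm

lemma void_prod {E : α → Set Ω} {𝒯 : Finset α} {q γ : ℝ} (h : Void E 𝒯 q γ) (x : α → ℝ)
    (h0 : ∀ Y, 0 ≤ x Y) (h1 : ∀ Y, x Y ≤ 1) :
    |𝔼 ω, ∏ Y ∈ hs E 𝒯 ω, x Y - md 𝒯 (sq q) (fun H => ∏ Y ∈ H, x Y)| ≤ γ := by
  classical
  have e1 : ∀ ω, ∏ Y ∈ hs E 𝒯 ω, x Y = ∑ 𝒜 ∈ 𝒯.powerset,
      ((∏ Y ∈ 𝒜, (1 - x Y)) * ∏ Y ∈ 𝒯 \ 𝒜, x Y) * ind {ω | ∀ Y ∈ 𝒜, ω ∉ E Y} ω := fun ω => by
    have k : ∏ Y ∈ hs E 𝒯 ω, x Y =
        ∏ Y ∈ 𝒯, ((1 - x Y) * (if ω ∈ E Y then 0 else 1) + x Y) := by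
      rw [hs, prod_filter]
      refine prod_congr rfl fun Y _ => ?_
      split_ifs <;> ring
    rw [k, prod_add]
    refine sum_congr rfl fun 𝒜 _ => ?_
    rw [prod_mul_distrib, mul_right_comm]
    congr 1
    by_cases k2 : ∀ Y ∈ 𝒜, ω ∉ E Y
    · rw [ind_of_mem (by exact k2)]
      exact prod_eq_one fun Y hY => if_neg (k2 Y hY)
    · rw [ind_of_not (by exact k2)]
      push Not at k2
      obtain ⟨Y, hY, k3⟩ := k2
      exact prod_eq_zero hY (if_pos k3)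
  have e2 : md 𝒯 (sq q) (fun H => ∏ Y ∈ H, x Y) = ∑ 𝒜 ∈ 𝒯.powerset,
      ((∏ Y ∈ 𝒜, (1 - x Y)) * ∏ Y ∈ 𝒯 \ 𝒜, x Y) * Real.exp (-(q * #𝒜)) := by
    have k : ∀ Y, sq q * x Y + (1 - sq q) = (1 - x Y) * Real.exp (-q) + x Y := fun Y => by
      unfold sq
      ring
    rw [md_prod]
    simp only [k]
    rw [prod_add]
    refine sum_congr rfl fun 𝒜 _ => ?_
    rw [prod_mul_distrib, prod_const, ← Real.exp_nat_mul, mul_right_comm]
    congr 2
    ring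
  have e3 : ∑ 𝒜 ∈ 𝒯.powerset, (∏ Y ∈ 𝒜, (1 - x Y)) * ∏ Y ∈ 𝒯 \ 𝒜, x Y = 1 := by
    rw [← prod_add]
    simp
  simp only [e1]
  rw [e2, expect_sum_comm, ← sum_sub_distrib]
  refine (abs_sum_le_sum_abs _ _).trans ?_
  refine le_trans (sum_le_sum (g := fun 𝒜 =>
    ((∏ Y ∈ 𝒜, (1 - x Y)) * ∏ Y ∈ 𝒯 \ 𝒜, x Y) * γ) fun 𝒜 h𝒜 => ?_) ?_
  · have hc : 0 ≤ (∏ Y ∈ 𝒜, (1 - x Y)) * ∏ Y ∈ 𝒯 \ 𝒜, x Y :=
      mul_nonneg (prod_nonneg fun Y _ => sub_nonneg.2 (h1 Y)) (prod_nonneg fun Y _ => h0 Y)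
    rw [← mul_expect, ← mul_sub, abs_mul, abs_of_nonneg hc]
    exact mul_le_mul_of_nonneg_left (h 𝒜 (mem_powerset.1 h𝒜)) hc
  · rw [← sum_mul, e3, one_mul]

lemma prod_xf (S0 S1 : Finset α) (t : ℝ) (H : Finset α) :
    ∏ Y ∈ H, xf S0 S1 t Y = gf S0 S1 (fun h => t ^ h) H := by
  unfold gf
  split_ifs with h
  · show _ = t ^ #(H ∩ S0)
    rw [← prod_const, ← filter_mem_eq_inter, prod_filter]
    exact prod_congr rfl fun Y hY => if_neg (disjoint_left.1 h hY)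
  · obtain ⟨Y, h1, h2⟩ := not_disjoint_iff.1 h
    exact prod_eq_zero h1 (if_pos h2)

lemma xf_nonneg (S0 S1 : Finset α) {t : ℝ} (ht : 0 ≤ t) (Y : α) : 0 ≤ xf S0 S1 t Y := by
  unfold xf
  split_ifs <;> first | exact ht | norm_num

lemma xf_le (S0 S1 : Finset α) {t T : ℝ} (ht : t ≤ T) (hT : 1 ≤ T) (Y : α) :
    xf S0 S1 t Y ≤ T := by
  unfold xf
  split_ifs <;> linarith

lemma tp_nonneg {T : ℝ} (hT : 1 ≤ T) (K h : ℕ) : 0 ≤ tp T K h := by
  unfold tp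
  split_ifs <;> positivity

lemma tp_le {T : ℝ} (hT : 1 ≤ T) (K h : ℕ) : tp T K h ≤ T ^ K := by
  unfold tp
  split_ifs with k
  · exact pow_le_pow_right₀ hT k
  · positivity

lemma tp_le' {T : ℝ} (hT : 1 ≤ T) (K h : ℕ) : tp T K h ≤ T ^ h := by
  unfold tp
  split_ifs with k
  · exact le_rfl
  · positivity

lemma tp_ge {T : ℝ} (hT : 1 ≤ T) (K h : ℕ) : T ^ h ≤ tp T K h + (2 ^ K)⁻¹ * (2 * T) ^ h := by
  unfold tp
  split_ifs with k
  · exact le_add_of_nonneg_right (by positivity)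
  · rw [zero_add, mul_pow, ← mul_assoc]
    refine le_mul_of_one_le_left (by positivity) ?_
    rw [← div_eq_inv_mul, one_le_div (by positivity)]
    exact pow_le_pow_right₀ one_le_two (not_le.1 k).le

/-- a finitely supported function is nearly a combination of geometric sequences -/
lemma approx (T : ℝ) (K : ℕ) {ε : ℝ} (hε : 0 < ε) : ∃ (N : ℕ) (c : ℕ → ℝ), ∀ h : ℕ,
    |∑ a ∈ range N, c a * ((1 / 2 : ℝ) ^ a) ^ h - tp T K h| ≤ ε := by
  let g : ℝ → ℝ := fun y => ∑ k ∈ range (K + 1), T ^ k * max 0 (1 - 2 ^ (k + 1) * |y - (1 / 2) ^ k|)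
  have hg : Continuous g := by
    refine continuous_finsetSum _ fun k _ => ?_
    fun_prop
  obtain ⟨P, hP⟩ := exists_polynomial_near_of_continuousOn 0 1 g hg.continuousOn ε hε
  refine ⟨P.natDegree + 1, P.coeff, fun h => ?_⟩
  have k1 := hP ((1 / 2) ^ h) ⟨by positivity, pow_le_one₀ (by norm_num) (by norm_num)⟩
  have k2 : ∀ k, k ≠ h → max (0 : ℝ) (1 - 2 ^ (k + 1) * |(1 / 2) ^ h - (1 / 2) ^ k|) = 0 := by
    intro k hk
    refine max_eq_left (sub_nonpos.2 ?_)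
    have e : (2 : ℝ) ^ (k + 1) * (1 / 2) ^ (k + 1) = 1 := by rw [← mul_pow]; norm_num
    refine e.symm.le.trans (mul_le_mul_of_nonneg_left ?_ (by positivity))
    have p : (0 : ℝ) < (1 / 2) ^ k := by positivity
    rcases lt_or_gt_of_ne hk with l | l
    · have : ((1 : ℝ) / 2) ^ h ≤ (1 / 2) ^ (k + 1) :=
        pow_le_pow_of_le_one (by norm_num) (by norm_num) l
      rw [pow_succ] at this ⊢
      exact le_abs.2 (Or.inr (by linarith))
    · have : ((1 : ℝ) / 2) ^ k ≤ (1 / 2) ^ (h + 1) :=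
        pow_le_pow_of_le_one (by norm_num) (by norm_num) l
      rw [pow_succ] at this ⊢
      exact le_abs.2 (Or.inl (by linarith))
  have k3 : g ((1 / 2) ^ h) = tp T K h := by
    unfold tp
    split_ifs with k
    · refine (sum_eq_single h (fun b _ hb => by rw [k2 b hb, mul_zero])
        fun q => absurd (mem_range.2 (Nat.lt_succ_of_le k)) q).trans ?_
      simp
    · exact sum_eq_zero fun b hb => by
        rw [k2 b (by have := mem_range.1 hb; omega), mul_zero]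
  rw [k3, Polynomial.eval_eq_sum_range] at k1
  simp only [← pow_mul, mul_comm h] at k1 ⊢
  exact k1.le

/-- transfer to the model -/
lemma transfer {T : ℝ} (hT : 1 ≤ T) (K : ℕ) {ε : ℝ} (hε : 0 < ε) : ∃ γ : ℝ, 0 < γ ∧
    ∀ (Ω α : Type) [Fintype Ω] [Nonempty Ω] [DecidableEq α] (E : α → Set Ω) (𝒯 : Finset α)
      (q : ℝ), 0 ≤ q → Void E 𝒯 q γ → ∀ S0 S1 S0' S1' : Finset α,
      |𝔼 ω, gf S0 S1 (tp T K) (hs E 𝒯 ω) * gf S0' S1' (tp T K) (hs E 𝒯 ω) -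
        md 𝒯 (sq q) fun H => gf S0 S1 (tp T K) H * gf S0' S1' (tp T K) H| ≤ ε := by
  set B := T ^ K with hB
  have hB0 : 0 < B := by positivity
  set e := min 1 (ε / (3 * (2 * B + 1))) with he
  have he0 : 0 < e := lt_min one_pos (by positivity)
  have he1 : e ≤ 1 := min_le_left _ _
  have he2 : e * (2 * B + 1) ≤ ε / 3 := by
    refine (mul_le_mul_of_nonneg_right (min_le_right _ _) (by positivity)).trans (le_of_eq ?_)
    field_simp
  obtain ⟨N, c, hc⟩ := approx T K he0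
  set C := ∑ a ∈ range N, |c a| with hC
  have hC0 : 0 ≤ C := sum_nonneg fun _ _ => abs_nonneg _
  refine ⟨ε / (3 * (C ^ 2 + 1)), by positivity, fun Ω α _ _ _ E 𝒯 q hq hV S0 S1 S0' S1' => ?_⟩
  let x : ℕ → ℕ → α → ℝ := fun a b Y => xf S0 S1 ((1 / 2) ^ a) Y * xf S0' S1' ((1 / 2) ^ b) Y
  let Ψ : Finset α → ℝ := fun H => ∑ a ∈ range N, ∑ b ∈ range N, c a * c b * ∏ Y ∈ H, x a b Y
  have h1 : ∀ H, |gf S0 S1 (tp T K) H * gf S0' S1' (tp T K) H - Ψ H| ≤ ε / 3 := fun H => by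
    have e1 : Ψ H = (∑ a ∈ range N, c a * gf S0 S1 (fun h => ((1 / 2) ^ a) ^ h) H) *
        ∑ b ∈ range N, c b * gf S0' S1' (fun h => ((1 / 2) ^ b) ^ h) H := by
      rw [sum_mul_sum]
      refine sum_congr rfl fun a _ => sum_congr rfl fun b _ => ?_
      rw [prod_mul_distrib, prod_xf, prod_xf]
      ring
    have e2 : ∀ S0 S1 : Finset α, |∑ a ∈ range N, c a * gf S0 S1 (fun h => ((1 / 2) ^ a) ^ h) H -
        gf S0 S1 (tp T K) H| ≤ e ∧ |gf S0 S1 (tp T K) H| ≤ B := fun S0 S1 => by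
      unfold gf
      split_ifs
      · exact ⟨hc _, (abs_of_nonneg (tp_nonneg hT _ _)).trans_le (tp_le hT _ _)⟩
      · simp [he0.le, hB0.le]
    rw [e1]
    obtain ⟨a1, a2⟩ := e2 S0 S1
    obtain ⟨a3, a4⟩ := e2 S0' S1'
    set u := ∑ a ∈ range N, c a * gf S0 S1 (fun h => ((1 / 2) ^ a) ^ h) H
    set u' := ∑ a ∈ range N, c a * gf S0' S1' (fun h => ((1 / 2) ^ a) ^ h) H
    set v := gf S0 S1 (tp T K) H
    set v' := gf S0' S1' (tp T K) H
    have e3 : v * v' - u * u' = -((u - v) * v' + v * (u' - v') + (u - v) * (u' - v')) := by ring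
    rw [e3, abs_neg]
    refine (abs_add_three _ _ _).trans (le_trans ?_ he2)
    rw [abs_mul, abs_mul, abs_mul]
    have b1 : |u - v| * |v'| ≤ e * B := by gcongr
    have b2 : |v| * |u' - v'| ≤ B * e := by gcongr
    have b3 : |u - v| * |u' - v'| ≤ e * 1 := by gcongr; exact a3.trans he1
    linarith
  have h2 : |𝔼 ω, Ψ (hs E 𝒯 ω) - md 𝒯 (sq q) Ψ| ≤ ε / 3 := by
    have e1 : md 𝒯 (sq q) Ψ = ∑ a ∈ range N, ∑ b ∈ range N,
        c a * c b * md 𝒯 (sq q) fun H => ∏ Y ∈ H, x a b Y := by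
      rw [md_sum]
      refine sum_congr rfl fun a _ => ?_
      rw [md_sum]
      exact sum_congr rfl fun b _ => md_mul _ _ _ _
    have e2 : 𝔼 ω, Ψ (hs E 𝒯 ω) = ∑ a ∈ range N, ∑ b ∈ range N,
        c a * c b * 𝔼 ω, ∏ Y ∈ hs E 𝒯 ω, x a b Y := by
      simp only [Ψ, expect_sum_comm, mul_expect]
    rw [e1, e2, ← sum_sub_distrib]
    have e3 : ∀ a b, |c a * c b * (𝔼 ω, ∏ Y ∈ hs E 𝒯 ω, x a b Y) -
        c a * c b * md 𝒯 (sq q) fun H => ∏ Y ∈ H, x a b Y| ≤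
        |c a| * |c b| * (ε / (3 * (C ^ 2 + 1))) := fun a b => by
      rw [← mul_sub, abs_mul, abs_mul]
      refine mul_le_mul_of_nonneg_left (void_prod hV _ (fun Y => ?_) fun Y => ?_) (by positivity)
      · exact mul_nonneg (xf_nonneg _ _ (by positivity) _) (xf_nonneg _ _ (by positivity) _)
      · exact mul_le_one₀ (xf_le _ _ (pow_le_one₀ (by norm_num) (by norm_num)) le_rfl _)
          (xf_nonneg _ _ (by positivity) _)
          (xf_le _ _ (pow_le_one₀ (by norm_num) (by norm_num)) le_rfl _)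
    refine (abs_sum_le_sum_abs _ _).trans (le_trans (sum_le_sum (g := fun a =>
      ∑ b ∈ range N, |c a| * |c b| * (ε / (3 * (C ^ 2 + 1)))) fun a _ => ?_) ?_)
    · rw [← sum_sub_distrib]
      exact (abs_sum_le_sum_abs _ _).trans (sum_le_sum fun b _ => e3 a b)
    · simp only [← sum_mul, ← mul_sum, ← hC]
      rw [← mul_div_assoc, div_le_div_iff₀ (by positivity) (by positivity)]
      nlinarith
  have h3 : |𝔼 ω, gf S0 S1 (tp T K) (hs E 𝒯 ω) * gf S0' S1' (tp T K) (hs E 𝒯 ω) -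
      𝔼 ω, Ψ (hs E 𝒯 ω)| ≤ ε / 3 := by
    rw [← expect_sub_distrib]
    exact (Finset.abs_expect_le _ _).trans ((expect_le_expect fun ω _ => h1 _).trans
      (Fintype.expect_const _).le)
  have s0 := sq_nonneg' hq
  have s1 : 0 ≤ 1 - sq q := by rw [one_sub_sq]; positivity
  have h4 := md_mono 𝒯 s0 s1 (Φ := fun H => gf S0 S1 (tp T K) H * gf S0' S1' (tp T K) H)
    (Ψ := fun H => Ψ H + ε / 3 * 1)
    fun H => by have := (abs_le.1 (h1 H)).2; linarith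
  have h5 := md_mono 𝒯 s0 s1 (Φ := Ψ)
    (Ψ := fun H => gf S0 S1 (tp T K) H * gf S0' S1' (tp T K) H + ε / 3 * 1)
    fun H => by have := (abs_le.1 (h1 H)).1; linarith
  rw [md_add, md_mul, md_one] at h4 h5
  rw [abs_le] at h2 h3 ⊢
  constructor <;> linarith [h2.1, h2.2, h3.1, h3.2]

lemma ptZ_eq (T q : ℝ) {𝒯 S0 S1 : Finset α} (h0 : S0 ⊆ 𝒯) (h1 : S1 ⊆ 𝒯) (hd : Disjoint S0 S1) :
    ptZ T q #S0 #S1 = ∏ Y ∈ 𝒯, (sq q * xf S0 S1 T Y + (1 - sq q)) := by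
  rw [← prod_subset (union_subset h0 h1), prod_union hd, ptZ, ← prod_const, ← prod_const]
  · congr 1
    · exact prod_congr rfl fun Y hY => by rw [xf, if_neg (disjoint_left.1 hd hY), if_pos hY]
    · exact prod_congr rfl fun Y hY => by rw [xf, if_pos hY, mul_zero, zero_add]
  · intro Y _ hY
    rw [mem_union, not_or] at hY
    rw [xf, if_neg hY.2, if_neg hY.1]
    ring

lemma ptZ_ge {T q μ : ℝ} (hT : 1 ≤ T) (hq : 0 ≤ q) (a : ℕ) {b : ℕ} (hb : q * b ≤ μ) :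
    Real.exp (-μ) ≤ ptZ T q a b := by
  have s0 := sq_nonneg' hq
  have e : (1 - sq q) ^ b = Real.exp (-(q * b)) := by
    rw [one_sub_sq, ← Real.exp_nat_mul]
    congr 1
    ring
  rw [ptZ, e]
  refine (Real.exp_le_exp.2 (neg_le_neg hb)).trans (le_mul_of_one_le_left (by positivity) ?_)
  exact one_le_pow₀ (by nlinarith)

lemma ptW_nonneg {T q : ℝ} (hT : 1 ≤ T) (hq : 0 ≤ q) (K : ℕ) (E : α → Set Ω) (S0 S1 : Finset α)
    (ω : Ω) : 0 ≤ ptW T K q E S0 S1 ω := by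
  refine div_nonneg ?_ ((Real.exp_pos _).le.trans (ptZ_ge hT hq _ le_rfl))
  split_ifs
  · exact tp_nonneg hT _ _
  · exact le_rfl

lemma ptW_le {T q μ : ℝ} (hT : 1 ≤ T) (hq : 0 ≤ q) (K : ℕ) (E : α → Set Ω) (S0 : Finset α)
    {S1 : Finset α} (h : q * #S1 ≤ μ) (ω : Ω) : ptW T K q E S0 S1 ω ≤ T ^ K * Real.exp μ := by
  rw [← div_inv_eq_mul, ← Real.exp_neg]
  refine div_le_div₀ (by positivity) ?_ (Real.exp_pos _) (ptZ_ge hT hq _ h)
  split_ifs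
  · exact tp_le hT _ _
  · positivity

lemma ptW_ne {T q : ℝ} {K : ℕ} {E : α → Set Ω} {S0 S1 : Finset α} {ω : Ω}
    (h : ptW T K q E S0 S1 ω ≠ 0) : ∀ Y ∈ S1, ω ∉ E Y := by
  by_contra k
  exact h (by rw [ptW, if_neg k, zero_div])

lemma ptW_eq (T : ℝ) (K : ℕ) (q : ℝ) (E : α → Set Ω) {𝒯 S0 S1 : Finset α} (h0 : S0 ⊆ 𝒯)
    (h1 : S1 ⊆ 𝒯) (ω : Ω) :
    ptW T K q E S0 S1 ω = gf S0 S1 (tp T K) (hs E 𝒯 ω) / ptZ T q #S0 #S1 := by
  classical
  have e1 : (∀ Y ∈ S1, ω ∉ E Y) ↔ Disjoint (hs E 𝒯 ω) S1 := by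
    rw [disjoint_right]
    exact ⟨fun h Y hY k => h Y hY (mem_filter.1 k).2,
      fun h Y hY k => h hY (mem_filter.2 ⟨h1 hY, k⟩)⟩
  have e2 : hs E S0 ω = hs E 𝒯 ω ∩ S0 := by
    ext Y
    simp only [hs, mem_filter, mem_inter]
    exact ⟨fun h => ⟨⟨h0 h.1, h.2⟩, h.1⟩, fun h => ⟨h.2, h.1.2⟩⟩
  rw [ptW, gf, e2]
  congr 1
  by_cases k : ∀ Y ∈ S1, ω ∉ E Y
  · rw [if_pos k, if_pos (e1.1 k)]
  · rw [if_neg k, if_neg fun h => k (e1.2 h)]

lemma ratio {T q x x' : ℝ} (hT : 1 ≤ T) (hq : 0 ≤ q) (hq1 : q ≤ 1 / 2) (h0 : 0 ≤ x) (h1 : x ≤ T)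
    (h0' : 0 ≤ x') (h1' : x' ≤ T) : sq q * (x * x') + (1 - sq q) ≤
      (sq q * x + (1 - sq q)) * (sq q * x' + (1 - sq q)) *
        Real.exp (q * ((x - 1) * (x' - 1)) + 20 * T ^ 4 * q ^ 2) := by
  have s0 := sq_nonneg' hq
  have s1 := sq_le q
  have s2 := le_sq hq
  set s := sq q
  set u := s * x + (1 - s) with hu
  set u' := s * x' + (1 - s) with hu'
  have u0 : 1 / 2 ≤ u := by nlinarith [mul_nonneg s0 h0]
  have u0' : 1 / 2 ≤ u' := by nlinarith [mul_nonneg s0 h0']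
  have uu : 1 / 4 ≤ u * u' := by nlinarith
  have p1 : |x - 1| ≤ T := abs_le.2 ⟨by linarith, by linarith⟩
  have p2 : |x' - 1| ≤ T := abs_le.2 ⟨by linarith, by linarith⟩
  have p3 : |(x - 1) * (x' - 1)| ≤ T ^ 2 := by rw [abs_mul, pow_two]; gcongr
  have hT2 : T ≤ T ^ 2 := by nlinarith
  have p4 : |u * u' - 1| ≤ 3 * T ^ 2 * q := by
    have e : u * u' - 1 = s * (x - 1) + s * (x' - 1) + s * s * ((x - 1) * (x' - 1)) := by
      rw [hu, hu']; ring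
    rw [e]
    refine (abs_add_three _ _ _).trans ?_
    rw [abs_mul, abs_mul, abs_mul (s * s), abs_of_nonneg s0, abs_of_nonneg (mul_nonneg s0 s0)]
    have a1 : s * |x - 1| ≤ q * T ^ 2 := by gcongr; exact p1.trans hT2
    have a2 : s * |x' - 1| ≤ q * T ^ 2 := by gcongr; exact p2.trans hT2
    have a3 : s * s * |(x - 1) * (x' - 1)| ≤ q * 1 * T ^ 2 := by gcongr; linarith
    linarith
  have p5 : |s * (1 - s) - q * (u * u')| ≤ 5 * T ^ 2 * q ^ 2 := by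
    have a1 : |q * (u * u' - 1)| ≤ q * (3 * T ^ 2 * q) := by
      rw [abs_mul, abs_of_nonneg hq]; gcongr
    have a2 : s * s ≤ q * q := by gcongr
    have a3 : q ^ 2 ≤ T ^ 2 * q ^ 2 := le_mul_of_one_le_left (by positivity) (by linarith)
    rw [abs_le] at a1 ⊢
    constructor <;> nlinarith [a1.1, a1.2, mul_nonneg s0 s0]
  have p6 : (x - 1) * (x' - 1) * (s * (1 - s) - q * (u * u')) ≤ T ^ 2 * (5 * T ^ 2 * q ^ 2) := by
    refine (le_abs_self _).trans ?_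
    rw [abs_mul]
    gcongr
  refine le_trans ?_ (mul_le_mul_of_nonneg_left (Real.add_one_le_exp _) (by positivity))
  have e : s * (x * x') + (1 - s) = u * u' + (x - 1) * (x' - 1) * (s * (1 - s)) := by
    rw [hu, hu']; ring
  have p7 : 1 / 4 * (20 * T ^ 4 * q ^ 2) ≤ u * u' * (20 * T ^ 4 * q ^ 2) := by gcongr
  rw [e]
  nlinarith

/-- first and second moment of the Poisson weight -/
theorem PTA (μ T ε : ℝ) (hμ : 0 ≤ μ) (hT : 1 ≤ T) (hε : 0 < ε) :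
    ∃ K : ℕ, ∃ γ : ℝ, 0 < γ ∧ ∃ δ : ℝ, 0 < δ ∧
    ∀ (Ω α : Type) [Fintype Ω] [Nonempty Ω] [DecidableEq α] (E : α → Set Ω) (𝒯 : Finset α)
      (q : ℝ), 0 ≤ q → q ≤ δ → q * #𝒯 ≤ μ → Void E 𝒯 q γ →
      ∀ S0 S1 : Finset α, S0 ⊆ 𝒯 → S1 ⊆ 𝒯 → Disjoint S0 S1 →
        |𝔼 ω, ptW T K q E S0 S1 ω - 1| ≤ ε ∧
        ∀ S0' S1' : Finset α, S0' ⊆ 𝒯 → S1' ⊆ 𝒯 → Disjoint S0' S1' →
          q * ∑ Y ∈ 𝒯, (xf S0 S1 T Y - 1) * (xf S0' S1' T Y - 1) ≤ δ →
          𝔼 ω, ptW T K q E S0 S1 ω * ptW T K q E S0' S1' ω ≤ 1 + ε := by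
  have hm := Real.exp_pos μ
  have hm1 : 1 ≤ Real.exp μ := Real.one_le_exp hμ
  obtain ⟨K, hK⟩ := pow_unbounded_of_one_lt
    (2 * Real.exp (2 * T * μ) * Real.exp μ / ε) (one_lt_two (α := ℝ))
  obtain ⟨γ, hγ, hV⟩ := transfer hT K (ε := ε / (2 * Real.exp μ ^ 2)) (by positivity)
  refine ⟨K, γ, hγ, min (1 / 2) (Real.log (1 + ε / 2) / (1 + 20 * T ^ 4 * μ)),
    lt_min (by norm_num) (div_pos (Real.log_pos (by linarith)) (by positivity)), ?_⟩
  intro Ω α _ _ _ E 𝒯 q hq hqδ hq𝒯 hv S0 S1 h0 h1 hd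
  have s0 := sq_nonneg' hq
  have s1 : 0 ≤ 1 - sq q := by rw [one_sub_sq]; positivity
  have hZ : ∀ S0 S1 : Finset α, S1 ⊆ 𝒯 → (Real.exp μ)⁻¹ ≤ ptZ T q #S0 #S1 := fun S0 S1 h1 => by
    rw [← Real.exp_neg]
    refine ptZ_ge hT hq _ (le_trans ?_ hq𝒯)
    gcongr
  have z := hZ S0 S1 h1
  have z0 : 0 < ptZ T q #S0 #S1 := lt_of_lt_of_le (by positivity) z
  have g0 : ∀ (S0 S1 H : Finset α), 0 ≤ gf S0 S1 (tp T K) H ∧
      gf S0 S1 (tp T K) H ≤ ∏ Y ∈ H, xf S0 S1 T Y := fun S0 S1 H => by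
    rw [prod_xf]
    unfold gf
    split_ifs
    · exact ⟨tp_nonneg hT _ _, tp_le' hT _ _⟩
    · exact ⟨le_rfl, le_rfl⟩
  constructor
  · have a := hV Ω α E 𝒯 q hq hv S0 S1 ∅ ∅
    have e : ∀ H : Finset α, gf ∅ ∅ (tp T K) H = 1 := fun H => by simp [gf, tp]
    simp only [e, mul_one] at a
    have a1 := md_mono 𝒯 s0 s1 fun H => (g0 S0 S1 H).2
    have a2 := md_mono 𝒯 s0 s1 (Φ := fun H => ∏ Y ∈ H, xf S0 S1 T Y) (Ψ := fun H =>
        gf S0 S1 (tp T K) H + (2 ^ K)⁻¹ * ∏ Y ∈ H, xf S0 S1 (2 * T) Y) fun H => by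
      rw [prod_xf, prod_xf]
      unfold gf
      split_ifs
      · exact tp_ge hT _ _
      · simp
    rw [md_add, md_mul, md_prod, md_prod] at a2
    rw [md_prod] at a1
    rw [← ptZ_eq T q h0 h1 hd] at a1 a2
    have a3 : ∏ Y ∈ 𝒯, (sq q * xf S0 S1 (2 * T) Y + (1 - sq q)) ≤ Real.exp (2 * T * μ) := by
      refine (prod_le_prod (g := fun _ => Real.exp (2 * T * q)) (fun Y _ => add_nonneg
        (mul_nonneg s0 (xf_nonneg _ _ (by linarith) _)) s1) fun Y _ => ?_).trans ?_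
      · refine le_trans ?_ (Real.add_one_le_exp _)
        have b : sq q * xf S0 S1 (2 * T) Y ≤ q * (2 * T) :=
          mul_le_mul (sq_le q) (xf_le _ _ le_rfl (by linarith) _)
            (xf_nonneg _ _ (by linarith) _) hq
        linarith
      · rw [prod_const, ← Real.exp_nat_mul]
        refine Real.exp_le_exp.2 ?_
        nlinarith
    have a4 : ((2 : ℝ) ^ K)⁻¹ * Real.exp (2 * T * μ) ≤ ε / 2 * (Real.exp μ)⁻¹ := by
      rw [div_lt_iff₀ hε] at hK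
      rw [inv_mul_le_iff₀ (by positivity), ← div_eq_mul_inv, ← mul_div_assoc, le_div_iff₀ hm]
      linarith
    have a5 : ((2 : ℝ) ^ K)⁻¹ * ∏ Y ∈ 𝒯, (sq q * xf S0 S1 (2 * T) Y + (1 - sq q)) ≤
        (2 ^ K)⁻¹ * Real.exp (2 * T * μ) := by gcongr
    have a6 : ε / (2 * Real.exp μ ^ 2) ≤ ε / 2 * (Real.exp μ)⁻¹ := by
      rw [← div_eq_mul_inv, div_div]
      gcongr
      nlinarith
    have a7 : ε / 2 * (Real.exp μ)⁻¹ ≤ ε / 2 * ptZ T q #S0 #S1 := by gcongr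
    simp only [ptW_eq T K q E h0 h1]
    rw [← expect_div, div_sub_one z0.ne', abs_div, abs_of_pos z0, div_le_iff₀ z0]
    rw [abs_le] at a ⊢
    constructor <;> nlinarith [a.1, a.2]
  · intro S0' S1' h0' h1' hd' hs'
    have z' := hZ S0' S1' h1'
    have z0' : 0 < ptZ T q #S0' #S1' := lt_of_lt_of_le (by positivity) z'
    have a := (abs_le.1 (hV Ω α E 𝒯 q hq hv S0 S1 S0' S1')).2
    have a1 := md_mono 𝒯 s0 s1 (Φ := fun H => gf S0 S1 (tp T K) H * gf S0' S1' (tp T K) H)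
      (Ψ := fun H => ∏ Y ∈ H, xf S0 S1 T Y * xf S0' S1' T Y) fun H => by
        rw [prod_mul_distrib]
        exact mul_le_mul (g0 _ _ H).2 (g0 _ _ H).2 (g0 _ _ H).1 ((g0 _ _ H).1.trans (g0 _ _ H).2)
    rw [md_prod] at a1
    have a2 := prod_le_prod (s := 𝒯) (fun Y _ => add_nonneg (mul_nonneg s0 (mul_nonneg
      (xf_nonneg S0 S1 (t := T) (by linarith) Y) (xf_nonneg S0' S1' (t := T) (by linarith) Y))) s1)
      fun Y _ => ratio hT hq (hqδ.trans (min_le_left _ _)) (xf_nonneg _ _ (by linarith) Y)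
        (xf_le _ _ le_rfl hT Y) (xf_nonneg _ _ (by linarith) Y) (xf_le _ _ le_rfl hT Y)
    rw [prod_mul_distrib, prod_mul_distrib, ← ptZ_eq T q h0 h1 hd, ← ptZ_eq T q h0' h1' hd',
      ← Real.exp_sum, sum_add_distrib, ← mul_sum, sum_const, nsmul_eq_mul] at a2
    have a3 : Real.exp (q * ∑ Y ∈ 𝒯, (xf S0 S1 T Y - 1) * (xf S0' S1' T Y - 1) +
        #𝒯 * (20 * T ^ 4 * q ^ 2)) ≤ 1 + ε / 2 := by
      rw [← Real.le_log_iff_exp_le (by linarith)]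
      have b1 := hqδ.trans (min_le_right _ _)
      have b2 := hs'.trans (min_le_right _ _)
      set l := Real.log (1 + ε / 2) / (1 + 20 * T ^ 4 * μ) with hl
      have b3 : Real.log (1 + ε / 2) = l * (1 + 20 * T ^ 4 * μ) :=
        (div_mul_cancel₀ _ (by positivity)).symm
      have b4 : q * (q * #𝒯) ≤ l * μ := 
        mul_le_mul b1 hq𝒯 (mul_nonneg hq (Nat.cast_nonneg _)) (hq.trans b1)
      have b5 : 20 * T ^ 4 * (q * (q * #𝒯)) ≤ 20 * T ^ 4 * (l * μ) := by gcongr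
      rw [b3]
      nlinarith
    have a4 : (Real.exp μ)⁻¹ * (Real.exp μ)⁻¹ ≤ ptZ T q #S0 #S1 * ptZ T q #S0' #S1' := by gcongr
    have a5 : ε / (2 * Real.exp μ ^ 2) = ε / 2 * ((Real.exp μ)⁻¹ * (Real.exp μ)⁻¹) := by
      field_simp
    have a6 := mul_le_mul_of_nonneg_left a4 (half_pos hε).le
    have a7 := mul_le_mul_of_nonneg_left a3 (mul_pos z0 z0').le
    have a8 : ∀ ω, ptW T K q E S0 S1 ω * ptW T K q E S0' S1' ω =
        gf S0 S1 (tp T K) (hs E 𝒯 ω) * gf S0' S1' (tp T K) (hs E 𝒯 ω) /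
          (ptZ T q #S0 #S1 * ptZ T q #S0' #S1') := fun ω => by
      rw [ptW_eq T K q E h0 h1, ptW_eq T K q E h0' h1', div_mul_div_comm]
    rw [expect_congr rfl fun ω _ => a8 ω, ← expect_div, div_le_iff₀ (mul_pos z0 z0')]
    nlinarith

end Pool.Agent.Work.MP_4523ee_co.F2.Pt
end

-- merged part: Pool.Agent.Work.MP_4523ee_co.F2.PtB
section
/-!
Poisson tile: the abstract weight.
-/

set_option autoImplicit false
set_option linter.unusedSectionVars false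

namespace Pool.Agent.Work.MP_4523ee_co.F2.Mo

open Finset Matrix Pool.Agent.Work.MP_4523ee_co.Fp Pool.Agent.Work.MP_4523ee_co.Fp.Po
open scoped BigOperators ComplexConjugate

section
variable {α W : Type} [DecidableEq α]

/-- mean of the untruncated weight in the independent model -/
noncomputable def Zm (q T : ℝ) (n0 n1 : ℕ) : ℝ :=
  (1 + (1 - Real.exp (-q)) * (T - 1)) ^ n0 * Real.exp (-q) ^ n1

open Classical in
/-- the weight: no event of `S1`, tilt by `T` for each event of `S0` -/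
noncomputable def wt (q T : ℝ) (K : ℕ) (h : α → W → Prop) (S0 S1 : Finset α) (m : W) : ℝ :=
  if (∀ ω ∈ S1, ¬ h ω m) ∧ #{ω ∈ S0 | h ω m} ≤ K then
    T ^ #{ω ∈ S0 | h ω m} / Zm q T #S0 #S1 else 0

/-- centred tilt -/
def fz (T : ℝ) (S0 S1 : Finset α) (ω : α) : ℝ :=
  if ω ∈ S0 then T - 1 else if ω ∈ S1 then -1 else 0

lemma wt_eq (q T : ℝ) (K : ℕ) (h : α → W → Prop) (S0 S1 : Finset α) (m : W) :
    wt q T K h S0 S1 m = Pt.ptW T K q (fun ω => {m | h ω m}) S0 S1 m := by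
  classical
  have e : Zm q T #S0 #S1 = Pt.ptZ T q #S0 #S1 := by
    rw [Zm, Pt.ptZ, Pt.one_sub_sq, Pt.sq]
    congr 2
    ring
  have e2 : Pt.hs (fun ω => {m | h ω m}) S0 m = {ω ∈ S0 | h ω m} := by
    ext ω
    simp [Pt.hs]
  rw [wt, Pt.ptW, e, e2, Pt.tp]
  by_cases k1 : ∀ ω ∈ S1, ¬ h ω m
  · by_cases k2 : #{ω ∈ S0 | h ω m} ≤ K
    · rw [if_pos ⟨k1, k2⟩, if_pos (by exact k1), if_pos k2]
    · rw [if_neg fun k => k2 k.2, if_pos (by exact k1), if_neg k2, zero_div]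
  · rw [if_neg fun k => k1 k.1, if_neg (by exact k1), zero_div]

lemma fz_eq (T : ℝ) {S0 S1 : Finset α} (hd : Disjoint S0 S1) (ω : α) :
    fz T S0 S1 ω = Pt.xf S0 S1 T ω - 1 := by
  unfold fz Pt.xf
  by_cases k0 : ω ∈ S0
  · rw [if_pos k0, if_neg (disjoint_left.1 hd k0), if_pos k0]
  · rw [if_neg k0]
    by_cases k1 : ω ∈ S1
    · rw [if_pos k1, if_pos k1, zero_sub]
    · rw [if_neg k1, if_neg k1, if_neg k0, sub_self]

lemma wt_nonneg {q T : ℝ} (hq : 0 ≤ q) (hT : 1 ≤ T) (K : ℕ) (h : α → W → Prop)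
    (S0 S1 : Finset α) (m : W) : 0 ≤ wt q T K h S0 S1 m := by
  classical
  have s0 := Pt.sq_nonneg' hq
  have z : 0 ≤ Zm q T #S0 #S1 :=
    mul_nonneg (pow_nonneg (add_nonneg zero_le_one (mul_nonneg s0 (sub_nonneg.2 hT))) _)
      (by positivity)
  rw [wt]
  split_ifs
  · exact div_nonneg (by positivity) z
  · exact le_rfl

lemma wt_le {q T μ : ℝ} (hq : 0 ≤ q) (hT : 1 ≤ T) (K : ℕ) (h : α → W → Prop)
    (S0 : Finset α) {S1 : Finset α} (hμ : q * #S1 ≤ μ) (m : W) :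
    wt q T K h S0 S1 m ≤ T ^ K * Real.exp μ := by
  classical
  have e : Zm q T #S0 #S1 = Pt.ptZ T q #S0 #S1 := by
    rw [Zm, Pt.ptZ, Pt.one_sub_sq, Pt.sq]
    congr 2
    ring
  rw [wt]
  split_ifs with k
  · rw [← div_inv_eq_mul, ← Real.exp_neg, e]
    exact div_le_div₀ (by positivity) (pow_le_pow_right₀ hT k.2) (Real.exp_pos _)
      (Pt.ptZ_ge hT hq _ hμ)
  · positivity

lemma wt_void {q T : ℝ} {K : ℕ} {h : α → W → Prop} {S0 S1 : Finset α} {m : W}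
    (hw : wt q T K h S0 S1 m ≠ 0) : ∀ ω ∈ S1, ¬ h ω m := by
  by_contra k
  exact hw (by rw [wt, if_neg fun k2 => k k2.1])

lemma wt_image {α' W' : Type} [DecidableEq α'] (q T : ℝ) (K : ℕ) (h : α → W → Prop)
    (h' : α' → W' → Prop) (S0 S1 : Finset α) (m : W) (m' : W') {f : α → α'}
    (hf : Function.Injective f) (hh : ∀ ω, h' (f ω) m' ↔ h ω m) :
    wt q T K h' (S0.image f) (S1.image f) m' = wt q T K h S0 S1 m := by
  classical
  have e : #{ω ∈ S0.image f | h' ω m'} = #{ω ∈ S0 | h ω m} := by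
    rw [filter_image, card_image_of_injective _ hf]
    exact congrArg card (filter_congr fun ω _ => hh ω)
  have e2 : (∀ ω ∈ S1.image f, ¬ h' ω m') ↔ ∀ ω ∈ S1, ¬ h ω m := by
    rw [forall_mem_image]
    exact ⟨fun k ω hω q => k hω ((hh ω).2 q), fun k ω hω q => k ω hω ((hh ω).1 q)⟩
  rw [wt, wt, card_image_of_injective _ hf, card_image_of_injective _ hf]
  by_cases k : (∀ ω ∈ S1, ¬ h ω m) ∧ #{ω ∈ S0 | h ω m} ≤ K
  · rw [if_pos k, if_pos ⟨e2.2 k.1, by convert e ▸ k.2⟩]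
    congr 2
  · rw [if_neg k, if_neg fun k2 => k ⟨e2.1 k2.1, by convert e ▸ k2.2⟩]

end

theorem PTA (T μ ε : ℝ) (hT : 1 ≤ T) (hε : 0 < ε) : ∃ (K : ℕ) (γ q0 L : ℝ), 0 < γ ∧ 0 < q0 ∧
    0 < L ∧ ∀ (α W : Type) [DecidableEq α] [Fintype W] [Nonempty W] (h : α → W → Prop) (q : ℝ),
    0 ≤ q → q ≤ q0 → ∀ S0 S1 S0' S1' : Finset α, Disjoint S0 S1 → Disjoint S0' S1' →
    q * #(S0 ∪ S1 ∪ (S0' ∪ S1')) ≤ μ →
    (∀ C ⊆ S0 ∪ S1 ∪ (S0' ∪ S1'),
      |Fp.dens {m | ∀ ω ∈ C, ¬ h ω m} - Real.exp (-(q * #C))| ≤ γ) →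
    1 - ε ≤ 𝔼 m, wt q T K h S0 S1 m ∧
      𝔼 m, wt q T K h S0 S1 m * wt q T K h S0' S1' m ≤ 1 + ε +
        L * (q * |∑ ω ∈ S0 ∪ S1 ∪ (S0' ∪ S1'), fz T S0 S1 ω * fz T S0' S1' ω|) := by
  obtain ⟨K, γ, hγ, δ, hδ, H⟩ := Pt.PTA (max μ 0) T ε (le_max_right _ _) hT hε
  refine ⟨K, γ, δ, (T ^ K * Real.exp μ) ^ 2 / δ, hγ, hδ, by positivity, ?_⟩
  intro α W _ _ _ h q hq hqδ S0 S1 S0' S1' hd hd' hμ hv
  have a0 : S0 ⊆ S0 ∪ S1 ∪ (S0' ∪ S1') := subset_union_left.trans subset_union_left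
  have a1 : S1 ⊆ S0 ∪ S1 ∪ (S0' ∪ S1') := subset_union_right.trans subset_union_left
  have a2 : S0' ⊆ S0 ∪ S1 ∪ (S0' ∪ S1') := subset_union_left.trans subset_union_right
  have a3 : S1' ⊆ S0 ∪ S1 ∪ (S0' ∪ S1') := subset_union_right.trans subset_union_right
  obtain ⟨b1, b2⟩ := H W α (fun ω => {m | h ω m}) _ q hq hqδ (hμ.trans (le_max_left _ _)) hv
    S0 S1 a0 a1 hd
  refine ⟨by simp only [wt_eq]; linarith [(abs_le.1 b1).1], ?_⟩
  set s := ∑ ω ∈ S0 ∪ S1 ∪ (S0' ∪ S1'), fz T S0 S1 ω * fz T S0' S1' ω with hs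
  have c0 : 0 ≤ (T ^ K * Real.exp μ) ^ 2 / δ * (q * |s|) := by positivity
  by_cases k : q * s ≤ δ
  · have b3 := b2 S0' S1' a2 a3 hd' (by simpa only [hs, fz_eq T hd, fz_eq T hd'] using k)
    simp only [wt_eq]
    linarith
  · have c1 : δ ≤ q * |s| := (not_le.1 k).le.trans (mul_le_mul_of_nonneg_left (le_abs_self s) hq)
    have c2 : (T ^ K * Real.exp μ) ^ 2 ≤ (T ^ K * Real.exp μ) ^ 2 / δ * (q * |s|) := by
      rw [div_mul_eq_mul_div, le_div_iff₀ hδ]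
      gcongr
    have c3 : ∀ S : Finset α, S ⊆ S0 ∪ S1 ∪ (S0' ∪ S1') → q * #S ≤ μ := fun S hS =>
      le_trans (by gcongr) hμ
    have c4 : 𝔼 m, wt q T K h S0 S1 m * wt q T K h S0' S1' m ≤ (T ^ K * Real.exp μ) ^ 2 := by
      refine (expect_le_expect fun m _ => ?_).trans (Fintype.expect_const _).le
      rw [pow_two]
      exact mul_le_mul (wt_le hq hT K h S0 (c3 _ a1) m) (wt_le hq hT K h S0' (c3 _ a3) m)
        (wt_nonneg hq hT K h _ _ m) (by positivity)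
    linarith

end Pool.Agent.Work.MP_4523ee_co.F2.Mo
end
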