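import Mathlib
import Pool.Agent.Work.MP_4523ee_co.F2.PtB
import Pool.Agent.Work.MP_4523ee_co.Fp.Inv

-- merged part: Pool.Agent.Work.MP_4523ee_co.F2.CloA
section
/-!
Dense cosets inside one fibre: counting.
-/

set_option autoImplicit false
set_option linter.unusedSectionVars false

namespace Pool.Agent.Work.MP_4523ee_co.F2.Mo

open Finset Matrix Pool.Agent.Work.MP_4523ee_co.Fp Pool.Agent.Work.MP_4523ee_co.Fp.Po
open scoped BigOperators ComplexConjugate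

section
variable {ν : Type} [Fintype ν] [DecidableEq ν]

/-- the coset of `Y` meets the fibre through `M0` -/
def Lv (M0 : SymM 2 ν) (Y : SV 2 ν) : Prop := ∃ A : AltM ν, M0 + A.1 ∈ CY Y

lemma Lv.anti {M0 : SymM 2 ν} {Y Z : SV 2 ν} (h : Lv M0 Y) (hZ : Z ≤ Y) : Lv M0 Z :=
  h.imp fun _ hA => CY_anti hZ hA

lemma fd_nonneg (M0 : SymM 2 ν) (E : Set (SymM 2 ν)) : 0 ≤ fd M0 E := dens_nonneg _

lemma fd_le_one (M0 : SymM 2 ν) (E : Set (SymM 2 ν)) : fd M0 E ≤ 1 := dens_le_one _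

lemma fd_mono (M0 : SymM 2 ν) {E E' : Set (SymM 2 ν)}
    (h : ∀ A : AltM ν, M0 + A.1 ∈ E → M0 + A.1 ∈ E') : fd M0 E ≤ fd M0 E' := dens_mono h

lemma fd_le_sum (M0 : SymM 2 ν) {κ : Type} (s : Finset κ) (E : Set (SymM 2 ν))
    (B : κ → Set (SymM 2 ν)) (h : ∀ A : AltM ν, M0 + A.1 ∈ E → ∃ i ∈ s, M0 + A.1 ∈ B i) :
    fd M0 E ≤ ∑ i ∈ s, fd M0 (B i) := by
  unfold fd
  exact dens_le_sum s {A : AltM ν | M0 + A.1 ∈ E} (fun i => {A : AltM ν | M0 + A.1 ∈ B i}) h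

lemma fd_univ (M0 : SymM 2 ν) : fd M0 Set.univ = 1 := by
  simp [fd, Fp.dens, ind]

lemma fd_eq (M0 : SymM 2 ν) (E : Set (SymM 2 ν)) :
    fd M0 E = 𝔼 A : AltM ν, ind E (M0 + A.1) := rfl

lemma pp_pos (k : ℕ) : 0 < pp k ν := div_pos (by positivity) (pow_pos dd_pos _)

lemma fd_not_Lv {M0 : SymM 2 ν} {Y : SV 2 ν} (h : ¬ Lv M0 Y) : fd M0 (CY Y) = 0 := by
  rw [fd_eq]
  exact expect_eq_zero fun A _ => ind_of_not fun hA => h ⟨A, hA⟩

lemma fd_CY_le (M0 : SymM 2 ν) (Y : SV 2 ν) :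
    fd M0 (CY Y) ≤ pp (Module.finrank (ZMod 2) Y) ν := by
  by_cases h : Lv M0 Y
  · exact (PZ M0 Y h).le
  · rw [fd_not_Lv h]
    exact (pp_pos _).le

end

section
variable {ν : Type} [Fintype ν] [DecidableEq ν]

open Classical in
/-- pair count for one member -/
lemma dc_pair (M0 : SymM 2 ν) {R r : ℕ} (hr : r ≤ R) {Z : SV 2 ν} {F : Finset (SV 2 ν)}
    (hF : ∀ Y ∈ F, Z ≤ Y ∧ Module.finrank (ZMod 2) Y = r)
    (h1 : (#F : ℝ) ≤ dd 2 ν ^ (r - Module.finrank (ZMod 2) Z))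
    (h2 : ∀ Z' : SV 2 ν, Z < Z' → Module.finrank (ZMod 2) Z' < r →
      (#{Y ∈ F | Z' ≤ Y} : ℝ) ≤ dd 2 ν ^ (r - Module.finrank (ZMod 2) Z'))
    {Y : SV 2 ν} (hY : Y ∈ F) :
    ∑ Y' ∈ F, fd M0 (CY Y ∩ CY Y') ≤
      2 ^ 2 ^ R * 2 ^ (2 * R + 1).choose 2 * (dd 2 ν ^ r)⁻¹ := by
  have hd : 0 < dd 2 ν := dd_pos
  have hrY := (hF Y hY).2
  obtain ⟨T, hT1, hT2⟩ := LCa_subs Y hrY
  rw [← sum_fiberwise_of_maps_to (t := T) (g := fun Y' => Y ⊓ Y') fun Y' _ => hT1 _ inf_le_left]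
  have h3 : ∀ S ∈ T, ∑ Y' ∈ F.filter (fun Y' => Y ⊓ Y' = S), fd M0 (CY Y ∩ CY Y') ≤
      2 ^ (2 * R + 1).choose 2 * (dd 2 ν ^ r)⁻¹ := by
    intro S _
    rcases (F.filter fun Y' => Y ⊓ Y' = S).eq_empty_or_nonempty with h | ⟨Y0, h0⟩
    · rw [h, sum_empty]
      positivity
    obtain ⟨a0, b0⟩ := mem_filter.1 h0
    have hSY : S ≤ Y := b0 ▸ inf_le_left
    have hZS : Z ≤ S := b0 ▸ le_inf (hF Y hY).1 (hF Y0 a0).1
    have hs : Module.finrank (ZMod 2) S ≤ r := hrY ▸ Submodule.finrank_mono hSY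
    have h4 : ∀ Y' ∈ F.filter (fun Y' => Y ⊓ Y' = S), fd M0 (CY Y ∩ CY Y') ≤
        2 ^ (2 * R + 1).choose 2 *
          ((dd 2 ν ^ (r - Module.finrank (ZMod 2) S))⁻¹ * (dd 2 ν ^ r)⁻¹) := by
      intro Y' h'
      obtain ⟨a, b⟩ := mem_filter.1 h'
      have e := Submodule.finrank_sup_add_finrank_inf_eq Y Y'
      rw [hrY, (hF Y' a).2, b] at e
      have e2 : Module.finrank (ZMod 2) ↥(Y ⊔ Y') = r - Module.finrank (ZMod 2) S + r := by omega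
      rw [← CY_sup]
      refine (fd_CY_le M0 _).trans ?_
      rw [e2, pp, pow_add (dd 2 ν), div_eq_mul_inv, mul_inv]
      refine mul_le_mul_of_nonneg_right (pow_le_pow_right₀ one_le_two
        (Nat.choose_le_choose 2 (by omega))) (by positivity)
    have h5 : (#(F.filter fun Y' => Y ⊓ Y' = S) : ℝ) ≤
        dd 2 ν ^ (r - Module.finrank (ZMod 2) S) := by
      rcases hs.lt_or_eq with hs | hs
      · rcases hZS.lt_or_eq with hZ | hZ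
        · refine le_trans (Nat.cast_le.2 (card_le_card fun Y' h' => ?_)) (h2 S hZ hs)
          obtain ⟨a, b⟩ := mem_filter.1 h'
          exact mem_filter.2 ⟨a, b ▸ inf_le_right⟩
        · rw [← hZ]
          exact le_trans (Nat.cast_le.2 (card_le_card (filter_subset _ _))) h1
      · have hc : #(F.filter fun Y' => Y ⊓ Y' = S) ≤ 1 := by
          refine card_le_one.2 fun A hA B hB => ?_
          obtain ⟨a, b⟩ := mem_filter.1 hA
          obtain ⟨a', b'⟩ := mem_filter.1 hB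
          have e1 : S = A := Submodule.eq_of_le_of_finrank_le (b ▸ inf_le_right)
            (by rw [(hF A a).2, hs])
          have e2 : S = B := Submodule.eq_of_le_of_finrank_le (b' ▸ inf_le_right)
            (by rw [(hF B a').2, hs])
          exact e1.symm.trans e2
        rw [hs, Nat.sub_self, pow_zero]
        exact_mod_cast hc
    calc _ ≤ _ := sum_le_card_nsmul _ _ _ h4
      _ ≤ dd 2 ν ^ (r - Module.finrank (ZMod 2) S) * (2 ^ (2 * R + 1).choose 2 *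
          ((dd 2 ν ^ (r - Module.finrank (ZMod 2) S))⁻¹ * (dd 2 ν ^ r)⁻¹)) := by
          rw [nsmul_eq_mul]
          exact mul_le_mul_of_nonneg_right h5 (by positivity)
      _ = _ := by field_simp
  refine (sum_le_card_nsmul _ _ _ h3).trans ?_
  have h6 : (#T : ℝ) ≤ 2 ^ 2 ^ R := by
    have : #T ≤ 2 ^ 2 ^ R := hT2.trans
      (Nat.pow_le_pow_right two_pos (Nat.pow_le_pow_right two_pos hr))
    exact_mod_cast this
  rw [nsmul_eq_mul, mul_assoc]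
  exact mul_le_mul_of_nonneg_right h6 (by positivity)

end

open Classical in
theorem DC0 (R : ℕ) : ∃ C : ℝ, 0 < C ∧ ∀ (ν : Type) [Fintype ν] [DecidableEq ν] (M0 : SymM 2 ν)
    (r : ℕ), r ≤ R → ∀ (Z : SV 2 ν) (F : Finset (SV 2 ν)) (B : Set (SymM 2 ν)) (θ : ℝ), 0 ≤ θ →
    Module.finrank (ZMod 2) Z < r →
    (∀ Y ∈ F, Z ≤ Y ∧ Module.finrank (ZMod 2) Y = r ∧ Lv M0 Y ∧
      θ * fd M0 (CY Y) ≤ fd M0 (B ∩ CY Y)) →
    (#F : ℝ) ≤ dd 2 ν ^ (r - Module.finrank (ZMod 2) Z) →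
    (∀ Z' : SV 2 ν, Z < Z' → Module.finrank (ZMod 2) Z' < r →
      (#{Y ∈ F | Z' ≤ Y} : ℝ) ≤ dd 2 ν ^ (r - Module.finrank (ZMod 2) Z')) →
    θ ^ 2 * #F * fd M0 (CY Z) ≤
      C * dd 2 ν ^ (r - Module.finrank (ZMod 2) Z) * fd M0 (B ∩ CY Z) := by
  refine ⟨2 ^ 2 ^ R * 2 ^ (2 * R + 1).choose 2 * 2 ^ (R + 1).choose 2, by positivity,
    fun ν _ _ M0 r hr Z F B θ hθ hZ hF h1 h2 => ?_⟩
  have hd : 0 < dd 2 ν := dd_pos
  obtain ⟨K, hK⟩ : ∃ K : ℝ, K = 2 ^ 2 ^ R * 2 ^ (2 * R + 1).choose 2 := ⟨_, rfl⟩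
  have hK0 : 0 < K := by rw [hK]; positivity
  rw [← hK]
  have ha := fd_nonneg M0 (B ∩ CY Z)
  rcases F.eq_empty_or_nonempty with hE | hE
  · rw [hE, card_empty, Nat.cast_zero, mul_zero, zero_mul]
    positivity
  have hn : (0 : ℝ) < #F := Nat.cast_pos.2 (card_pos.2 hE)
  have e1 : θ * #F * (dd 2 ν ^ r)⁻¹ ≤ 𝔼 A : AltM ν, ind (B ∩ CY Z) (M0 + A.1) *
      ∑ Y ∈ F, ind (CY Y) (M0 + A.1) := by
    simp only [mul_sum]
    rw [expect_sum_comm]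
    have : ∀ Y ∈ F, θ * (dd 2 ν ^ r)⁻¹ ≤
        𝔼 A : AltM ν, ind (B ∩ CY Z) (M0 + A.1) * ind (CY Y) (M0 + A.1) := by
      intro Y hY
      obtain ⟨a, b, c, e⟩ := hF Y hY
      have e2 : fd M0 (B ∩ CY Y) ≤ fd M0 (B ∩ CY Z ∩ CY Y) :=
        fd_mono M0 fun A hA => ⟨⟨hA.1, CY_anti a hA.2⟩, hA.2⟩
      simp only [← ind_inter]
      rw [← fd_eq]
      refine le_trans ?_ (e.trans e2)
      refine mul_le_mul_of_nonneg_left ?_ hθ
      rw [PZ M0 Y c, b, pp, div_eq_mul_inv]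
      exact le_mul_of_one_le_left (by positivity) (one_le_pow₀ one_le_two)
    have h3 := card_nsmul_le_sum _ _ _ this
    rw [nsmul_eq_mul] at h3
    refine le_trans (le_of_eq ?_) h3
    ring
  have e2 : 𝔼 A : AltM ν, ind (B ∩ CY Z) (M0 + A.1) ^ 2 = fd M0 (B ∩ CY Z) := by
    rw [fd_eq]
    refine expect_congr rfl fun A _ => ?_
    rw [sq, ← ind_inter, Set.inter_self]
  have e3 : 𝔼 A : AltM ν, (∑ Y ∈ F, ind (CY Y) (M0 + A.1)) ^ 2 ≤ #F * (K * (dd 2 ν ^ r)⁻¹) := by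
    simp only [sq, sum_mul_sum, ← ind_inter]
    rw [expect_sum_comm, ← nsmul_eq_mul]
    refine sum_le_card_nsmul _ _ _ fun Y hY => ?_
    rw [expect_sum_comm, hK]
    exact dc_pair M0 hr (fun Y h => ⟨(hF Y h).1, (hF Y h).2.1⟩) h1 h2 hY
  have e4 := expect_mul_sq_le_sq_mul_sq univ (fun A : AltM ν => ind (B ∩ CY Z) (M0 + A.1))
    fun A : AltM ν => ∑ Y ∈ F, ind (CY Y) (M0 + A.1)
  rw [e2] at e4
  have e5 : (θ * #F * (dd 2 ν ^ r)⁻¹) ^ 2 ≤ fd M0 (B ∩ CY Z) * (#F * (K * (dd 2 ν ^ r)⁻¹)) :=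
    (pow_le_pow_left₀ (by positivity) e1 2).trans (e4.trans (mul_le_mul_of_nonneg_left e3 ha))
  have e6 : θ ^ 2 * #F ≤ K * dd 2 ν ^ r * fd M0 (B ∩ CY Z) := by
    refine le_of_mul_le_mul_right (a := #F * ((dd 2 ν ^ r)⁻¹) ^ 2) ?_ (by positivity)
    calc _ = (θ * #F * (dd 2 ν ^ r)⁻¹) ^ 2 := by ring
      _ ≤ _ := e5
      _ = _ := by field_simp
  have e7 : fd M0 (CY Z) ≤
      2 ^ (R + 1).choose 2 * (dd 2 ν ^ Module.finrank (ZMod 2) Z)⁻¹ := by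
    refine (fd_CY_le M0 Z).trans ?_
    rw [pp, div_eq_mul_inv]
    exact mul_le_mul_of_nonneg_right (pow_le_pow_right₀ one_le_two
      (Nat.choose_le_choose 2 (by omega))) (by positivity)
  have e8 : dd 2 ν ^ r = dd 2 ν ^ (r - Module.finrank (ZMod 2) Z) *
      dd 2 ν ^ Module.finrank (ZMod 2) Z := by
    rw [← pow_add, Nat.sub_add_cancel hZ.le]
  calc _ ≤ K * dd 2 ν ^ r * fd M0 (B ∩ CY Z) *
        (2 ^ (R + 1).choose 2 * (dd 2 ν ^ Module.finrank (ZMod 2) Z)⁻¹) :=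
        mul_le_mul e6 e7 (fd_nonneg _ _) (by positivity)
    _ = _ := by
        rw [e8]
        field_simp

open Classical in
theorem LIGHT (R : ℕ) : ∃ C : ℝ, 0 < C ∧ ∀ (ν : Type) [Fintype ν] [DecidableEq ν]
    (M0 : SymM 2 ν) (r : ℕ), r ≤ R → ∀ (s0 : ℕ) (F : Finset (SV 2 ν))
    (B : SV 2 ν → Set (SymM 2 ν)) (θ β : ℝ), 0 < θ → 0 ≤ β → C * β < θ ^ 2 →
    (∀ Z Z', Z ≤ Z' → B Z' ⊆ B Z) →
    (∀ Y ∈ F, Module.finrank (ZMod 2) Y = r ∧ Lv M0 Y ∧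
      θ * fd M0 (CY Y) ≤ fd M0 (B Y ∩ CY Y) ∧ ∀ S, S < Y → s0 ≤ Module.finrank (ZMod 2) S →
        fd M0 (B S ∩ CY S) ≤ β * fd M0 (CY S)) →
    ∀ S : SV 2 ν, s0 ≤ Module.finrank (ZMod 2) S → Module.finrank (ZMod 2) S < r →
      (#{Y ∈ F | S ≤ Y} : ℝ) ≤ C * β / θ ^ 2 * dd 2 ν ^ (r - Module.finrank (ZMod 2) S) := by
  obtain ⟨C, hC, hD⟩ := DC0 R
  refine ⟨C, hC, fun ν _ _ M0 r hr s0 F B θ β hθ hβ hlt hB hF => ?_⟩
  have hd : 0 < dd 2 ν := dd_pos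
  have hθ2 : 0 < θ ^ 2 := by positivity
  have hc0 : 0 ≤ C * β / θ ^ 2 := by positivity
  have hc1 : C * β / θ ^ 2 < 1 := (div_lt_one hθ2).2 hlt
  suffices H : ∀ k : ℕ, ∀ S : SV 2 ν, r - Module.finrank (ZMod 2) S = k →
      s0 ≤ Module.finrank (ZMod 2) S → Module.finrank (ZMod 2) S < r →
      (#{Y ∈ F | S ≤ Y} : ℝ) ≤ C * β / θ ^ 2 * dd 2 ν ^ (r - Module.finrank (ZMod 2) S) from
    fun S => H _ S rfl
  intro k
  induction k using Nat.strong_induction_on with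
  | _ k ih =>
  intro S hk hs0 hS
  rcases (F.filter fun Y => S ≤ Y).eq_empty_or_nonempty with hE | ⟨Y0, h0⟩
  · rw [hE, card_empty, Nat.cast_zero]
    positivity
  obtain ⟨a0, b0⟩ := mem_filter.1 h0
  obtain ⟨c1, c2, -, c4⟩ := hF Y0 a0
  have hSY : S < Y0 := lt_of_le_of_ne b0 fun e => by
    rw [e, c1] at hS
    exact lt_irrefl _ hS
  have hβS := c4 S hSY hs0
  have hpos : 0 < fd M0 (CY S) := by
    rw [PZ M0 S (c2.anti b0)]
    exact pp_pos _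
  have hDn : (((2 ^ Fintype.card ν) ^ (r - Module.finrank (ZMod 2) S) : ℕ) : ℝ) =
      dd 2 ν ^ (r - Module.finrank (ZMod 2) S) := by
    rw [dd]
    push_cast
    rfl
  obtain ⟨F2, hF2, hc⟩ := exists_subset_card_eq (s := F.filter fun Y => S ≤ Y)
    (n := min #(F.filter fun Y => S ≤ Y) ((2 ^ Fintype.card ν) ^ (r - Module.finrank (ZMod 2) S)))
    (min_le_left _ _)
  have h1 := hD ν M0 r hr S F2 (B S) θ hθ.le hS (fun Y hY => by
      obtain ⟨a, b⟩ := mem_filter.1 (hF2 hY)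
      obtain ⟨d1, d2, d3, -⟩ := hF Y a
      exact ⟨b, d1, d2, d3.trans (fd_mono M0 fun A hA => ⟨hB S Y b hA.1, hA.2⟩)⟩)
    (by
      rw [← hDn, hc]
      exact Nat.cast_le.2 (min_le_right _ _))
    (fun Z' hZ hZ' => by
      have hlt' : Module.finrank (ZMod 2) S < Module.finrank (ZMod 2) Z' :=
        Submodule.finrank_lt_finrank_of_lt hZ
      have h2 := ih (r - Module.finrank (ZMod 2) Z') (by omega) Z' rfl (by omega) hZ'
      refine le_trans (Nat.cast_le.2 (card_le_card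
        (filter_subset_filter _ (hF2.trans (filter_subset _ _))))) (h2.trans ?_)
      exact mul_le_of_le_one_left (by positivity) hc1.le)
  have h2 : (#F2 : ℝ) ≤ C * β / θ ^ 2 * dd 2 ν ^ (r - Module.finrank (ZMod 2) S) := by
    rw [div_mul_eq_mul_div, le_div_iff₀ hθ2]
    refine le_of_mul_le_mul_right ?_ hpos
    calc _ = θ ^ 2 * #F2 * fd M0 (CY S) := by ring
      _ ≤ _ := h1
      _ ≤ C * dd 2 ν ^ (r - Module.finrank (ZMod 2) S) * (β * fd M0 (CY S)) :=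
          mul_le_mul_of_nonneg_left hβS (by positivity)
      _ = _ := by ring
  have h3 : #F2 < (2 ^ Fintype.card ν) ^ (r - Module.finrank (ZMod 2) S) := by
    have : (#F2 : ℝ) < dd 2 ν ^ (r - Module.finrank (ZMod 2) S) :=
      h2.trans_lt (mul_lt_of_lt_one_left (by positivity) hc1)
    rw [← hDn] at this
    exact_mod_cast this
  have h4 : #F2 = #(F.filter fun Y => S ≤ Y) := by omega
  rw [← h4]
  exact h2

end Pool.Agent.Work.MP_4523ee_co.F2.Mo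
end

-- merged part: Pool.Agent.Work.MP_4523ee_co.F2.CloB
section
/-!
Closure lemma and maximal inequality inside one fibre.
-/

set_option autoImplicit false
set_option linter.unusedSectionVars false

namespace Pool.Agent.Work.MP_4523ee_co.F2.Mo

open Finset Matrix Pool.Agent.Work.MP_4523ee_co.Fp Pool.Agent.Work.MP_4523ee_co.Fp.Po
open scoped BigOperators ComplexConjugate

lemma clb_th (R : ℕ) (a c : ℝ) (ha : 0 < a) (hc : 0 < c) : ∃ th : ℕ → ℝ, (∀ r, 0 < th r) ∧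
    (∀ r, th r ≤ a) ∧ ∀ s r, s < r → r ≤ R → th s ≤ c * th r ^ 2 := by
  let t : ℕ → ℝ := fun k => Nat.rec a (fun _ x => min x (c * x ^ 2)) k
  have e : ∀ k, t (k + 1) = min (t k) (c * t k ^ 2) := fun _ => rfl
  have hp : ∀ k, 0 < t k := by
    intro k
    induction k with
    | zero => exact ha
    | succ k ih => rw [e]; exact lt_min ih (by positivity)
  have hm : Antitone t := antitone_nat_of_succ_le fun k => by rw [e]; exact min_le_left _ _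
  refine ⟨fun r => t (R - r), fun r => hp _, fun r => hm (Nat.zero_le _), fun s r h1 h2 => ?_⟩
  have h3 : R - r + 1 ≤ R - s := by omega
  refine (hm h3).trans ?_
  rw [e]
  exact min_le_right _ _

lemma clb_union {ν : Type} [Fintype ν] [DecidableEq ν] (M0 : SymM 2 ν) (E E1 E2 : Set (SymM 2 ν))
    (h : ∀ A : AltM ν, M0 + A.1 ∈ E → M0 + A.1 ∈ E1 ∨ M0 + A.1 ∈ E2) :
    fd M0 E ≤ fd M0 E1 + fd M0 E2 := by
  have := fd_le_sum M0 (univ : Finset Bool) E (fun b => if b then E1 else E2) fun A hA => by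
    rcases h A hA with h1 | h1
    · exact ⟨true, mem_univ _, h1⟩
    · exact ⟨false, mem_univ _, h1⟩
  simpa using this

lemma clb_pair {ν : Type} [Fintype ν] [DecidableEq ν] (R : ℕ) (M0 : SymM 2 ν) (Y Y2 : SV 2 ν)
    (h1 : Module.finrank (ZMod 2) Y ≤ R) (h2 : Module.finrank (ZMod 2) Y2 ≤ R) :
    fd M0 (CY Y ∩ CY Y2) ≤ 2 ^ (2 * R + 1).choose 2 /
      (dd 2 ν ^ (Module.finrank (ZMod 2) Y - Module.finrank (ZMod 2) ↥(Y ⊓ Y2)) *
        dd 2 ν ^ Module.finrank (ZMod 2) Y2) := by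
  have hd : 0 < dd 2 ν := dd_pos
  have a1 := Submodule.finrank_sup_add_finrank_inf_eq Y Y2
  have a2 : Module.finrank (ZMod 2) ↥(Y ⊓ Y2) ≤ Module.finrank (ZMod 2) Y :=
    Submodule.finrank_mono inf_le_left
  have a3 : Module.finrank (ZMod 2) ↥(Y ⊔ Y2) =
      Module.finrank (ZMod 2) Y - Module.finrank (ZMod 2) ↥(Y ⊓ Y2) +
        Module.finrank (ZMod 2) Y2 := by omega
  rw [← CY_sup, ← pow_add, ← a3]
  refine (fd_CY_le M0 _).trans ?_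
  unfold pp
  refine div_le_div_of_nonneg_right ?_ (pow_pos hd _).le
  exact pow_le_pow_right₀ one_le_two (Nat.choose_le_choose 2 (by omega))

open Classical in
lemma clb_sum {ν : Type} [Fintype ν] [DecidableEq ν] (R : ℕ) (M0 : SymM 2 ν) (e1 : ℝ)
    (he : 0 ≤ e1) (F : Finset (SV 2 ν)) (Y2 : SV 2 ν) (h2 : Module.finrank (ZMod 2) Y2 ≤ R)
    (hF : ∀ Y ∈ F, Module.finrank (ZMod 2) Y ≤ R ∧ ¬ Y ≤ Y2)
    (hc : ∀ r, r ≤ R → ∀ S : SV 2 ν, Module.finrank (ZMod 2) S < r →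
      (#{Y ∈ {Y ∈ F | Module.finrank (ZMod 2) Y = r} | S ≤ Y} : ℝ) ≤
        e1 * dd 2 ν ^ (r - Module.finrank (ZMod 2) S)) :
    ∑ Y ∈ F, fd M0 (CY Y ∩ CY Y2) ≤ ((R + 1) * 2 ^ 2 ^ R * 2 ^ (2 * R + 1).choose 2) * e1 /
      dd 2 ν ^ Module.finrank (ZMod 2) Y2 := by
  have hd : 0 < dd 2 ν := dd_pos
  obtain ⟨T, hT1, hT2⟩ := LCa_subs Y2 rfl
  have hmap : ∀ Y ∈ F, (Module.finrank (ZMod 2) Y, Y ⊓ Y2) ∈ range (R + 1) ×ˢ T := fun Y hY =>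
    mem_product.2 ⟨mem_range.2 (Nat.lt_succ_of_le (hF Y hY).1), hT1 _ inf_le_right⟩
  rw [← sum_fiberwise_of_maps_to hmap]
  have hb : ∀ q ∈ range (R + 1) ×ˢ T,
      ∑ Y ∈ F.filter (fun Y : SV 2 ν => (Module.finrank (ZMod 2) Y, Y ⊓ Y2) = q),
        fd M0 (CY Y ∩ CY Y2) ≤
        e1 * 2 ^ (2 * R + 1).choose 2 / dd 2 ν ^ Module.finrank (ZMod 2) Y2 := by
    rintro ⟨r, S⟩ hq
    have hr : r ≤ R := Nat.le_of_lt_succ (mem_range.1 (mem_product.1 hq).1)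
    by_cases hs : Module.finrank (ZMod 2) S < r
    · have b1 : ∀ Y ∈ F.filter fun Y : SV 2 ν => (Module.finrank (ZMod 2) Y, Y ⊓ Y2) = (r, S),
          fd M0 (CY Y ∩ CY Y2) ≤ 2 ^ (2 * R + 1).choose 2 /
            (dd 2 ν ^ (r - Module.finrank (ZMod 2) S) * dd 2 ν ^ Module.finrank (ZMod 2) Y2) := by
        intro Y hY
        obtain ⟨c1, c2⟩ := mem_filter.1 hY
        obtain ⟨c3, c4⟩ := Prod.mk.inj c2
        have := clb_pair R M0 Y Y2 (hF Y c1).1 h2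
        rwa [c3, c4] at this
      refine (sum_le_card_nsmul _ _ _ b1).trans ?_
      have b2 : (#(F.filter fun Y : SV 2 ν =>
          (Module.finrank (ZMod 2) Y, Y ⊓ Y2) = (r, S)) : ℝ) ≤
          e1 * dd 2 ν ^ (r - Module.finrank (ZMod 2) S) := by
        refine le_trans (Nat.cast_le.2 (card_le_card fun Y hY => ?_)) (hc r hr S hs)
        obtain ⟨c1, c2⟩ := mem_filter.1 hY
        obtain ⟨c3, c4⟩ := Prod.mk.inj c2
        exact mem_filter.2 ⟨mem_filter.2 ⟨c1, c3⟩, c4 ▸ inf_le_left⟩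
      rw [nsmul_eq_mul]
      refine (mul_le_mul_of_nonneg_right b2 (by positivity)).trans (le_of_eq ?_)
      field_simp
    · rw [sum_eq_zero]
      · positivity
      · intro Y hY
        exfalso
        obtain ⟨c1, c2⟩ := mem_filter.1 hY
        obtain ⟨c3, c4⟩ := Prod.mk.inj c2
        have c5 : Y ⊓ Y2 < Y := lt_of_le_of_ne inf_le_left fun h => (hF Y c1).2 (inf_eq_left.1 h)
        have := Submodule.finrank_lt_finrank_of_lt c5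
        rw [c3, c4] at this
        exact hs this
  refine (sum_le_card_nsmul _ _ _ hb).trans ?_
  rw [nsmul_eq_mul, card_product, card_range]
  have b3 : (#T : ℝ) ≤ 2 ^ 2 ^ R := by
    have : #T ≤ 2 ^ 2 ^ R :=
      hT2.trans (Nat.pow_le_pow_right two_pos (Nat.pow_le_pow_right two_pos h2))
    exact_mod_cast this
  push_cast
  calc ((R : ℝ) + 1) * #T * (e1 * 2 ^ (2 * R + 1).choose 2 / dd 2 ν ^ Module.finrank (ZMod 2) Y2)
      ≤ ((R : ℝ) + 1) * 2 ^ 2 ^ R *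
        (e1 * 2 ^ (2 * R + 1).choose 2 / dd 2 ν ^ Module.finrank (ZMod 2) Y2) := by gcongr
    _ = _ := by ring

theorem CLO (R : ℕ) (ε : ℝ) (hε : 0 < ε) : ∃ ε0 : ℝ, 0 < ε0 ∧
    ∀ (ν : Type) [Fintype ν] [DecidableEq ν] (M0 : SymM 2 ν) (B0 : Set (SymM 2 ν)),
    fd M0 B0 ≤ ε0 → ∃ B : Set (SymM 2 ν), B0 ⊆ B ∧ fd M0 B ≤ ε ∧ ∀ Y : SV 2 ν,
      Module.finrank (ZMod 2) Y ≤ R →
      (∀ A : AltM ν, M0 + A.1 ∈ CY Y → M0 + A.1 ∈ B) ∨ fd M0 (B ∩ CY Y) ≤ ε * fd M0 (CY Y) := by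
  classical
  obtain ⟨C, hC, HL⟩ := LIGHT R
  obtain ⟨K, hK⟩ : ∃ K : ℝ, K = (R + 1) * 2 ^ 2 ^ R * 2 ^ (2 * R + 1).choose 2 := ⟨_, rfl⟩
  have hK0 : 0 < K := by rw [hK]; positivity
  obtain ⟨e1, he0, he1, he2⟩ : ∃ e1 : ℝ, 0 < e1 ∧ e1 ≤ 1 / 2 ∧ K * e1 ≤ ε / 2 := by
    refine ⟨min (1 / 2) (ε / 2 / K), lt_min (by norm_num) (by positivity), min_le_left _ _, ?_⟩
    calc K * min (1 / 2) (ε / 2 / K) ≤ K * (ε / 2 / K) :=
          mul_le_mul_of_nonneg_left (min_le_right _ _) hK0.le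
      _ = ε / 2 := by field_simp
  obtain ⟨th, t0, t1, t2⟩ := clb_th R (ε / 2) (e1 / C) (by positivity) (by positivity)
  refine ⟨th 0 / 2, half_pos (t0 0), fun ν _ _ M0 B0 hB => ?_⟩
  have hd : 0 < dd 2 ν := dd_pos
  have : Finite (SV 2 ν) :=
    Finite.of_injective (fun L : SV 2 ν => (L : Set ((ν → ZMod 2) × (ν → ZMod 2))))
      SetLike.coe_injective
  have := Fintype.ofFinite (SV 2 ν)
  obtain ⟨D, hD⟩ : ∃ D : SV 2 ν → Prop, ∀ Y, D Y ↔ Lv M0 Y ∧ Module.finrank (ZMod 2) Y ≤ R ∧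
      th (Module.finrank (ZMod 2) Y) * fd M0 (CY Y) ≤ fd M0 (B0 ∩ CY Y) := ⟨_, fun _ => Iff.rfl⟩
  obtain ⟨F, hF⟩ : ∃ F : Finset (SV 2 ν), ∀ Y, Y ∈ F ↔ D Y ∧ ∀ S, S < Y → ¬ D S :=
    ⟨univ.filter fun Y => D Y ∧ ∀ S, S < Y → ¬ D S, fun Y => by simp⟩
  have hmin : ∀ Y, D Y → ∃ Y' ∈ F, Y' ≤ Y := by
    intro Y hY
    obtain ⟨Y', ⟨a1, a2⟩, a3⟩ :=
      (wellFounded_lt (α := SV 2 ν)).has_min {S | S ≤ Y ∧ D S} ⟨Y, le_rfl, hY⟩
    exact ⟨Y', (hF Y').2 ⟨a2, fun S hS hDS => a3 S ⟨hS.le.trans a1, hDS⟩ hS⟩, a1⟩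
  have hnd : ∀ S : SV 2 ν, Module.finrank (ZMod 2) S ≤ R → ¬ D S →
      fd M0 (B0 ∩ CY S) ≤ th (Module.finrank (ZMod 2) S) * fd M0 (CY S) := by
    intro S h1 h2
    by_cases hl : Lv M0 S
    · by_contra h3
      exact h2 ((hD S).2 ⟨hl, h1, (not_le.1 h3).le⟩)
    · rw [fd_not_Lv hl, mul_zero, ← fd_not_Lv hl]
      exact fd_mono M0 fun A hA => hA.2
  have hc : ∀ r, r ≤ R → ∀ S : SV 2 ν, Module.finrank (ZMod 2) S < r →
      (#{Y ∈ {Y ∈ F | Module.finrank (ZMod 2) Y = r} | S ≤ Y} : ℝ) ≤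
        e1 * dd 2 ν ^ (r - Module.finrank (ZMod 2) S) := by
    intro r hr S hS
    have tr := t0 r
    have e : C * (e1 / C * th r ^ 2) = e1 * th r ^ 2 := by field_simp
    have h := HL ν M0 r hr 0 {Y ∈ F | Module.finrank (ZMod 2) Y = r} (fun _ => B0) (th r)
      (e1 / C * th r ^ 2) tr (by positivity)
      (by rw [e]; nlinarith [pow_pos tr 2]) (fun _ _ _ => subset_rfl) ?_ S (Nat.zero_le _) hS
    · rw [e, mul_div_assoc, div_self (pow_pos tr 2).ne', mul_one] at h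
      convert h
    · intro Y hY
      obtain ⟨a1, a2⟩ := mem_filter.1 hY
      obtain ⟨a3, a4⟩ := (hF Y).1 a1
      obtain ⟨a5, -, a6⟩ := (hD Y).1 a3
      refine ⟨a2, a5, a2 ▸ a6, fun S' hS' _ => ?_⟩
      have a7 := Submodule.finrank_lt_finrank_of_lt hS'
      rw [a2] at a7
      exact (hnd S' (by omega) (a4 S' hS')).trans
        (mul_le_mul_of_nonneg_right (t2 _ r a7 hr) (fd_nonneg _ _))
  have H : ∀ Y2 : SV 2 ν, Module.finrank (ZMod 2) Y2 ≤ R → Lv M0 Y2 → (∀ S, S ≤ Y2 → ¬ D S) →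
      fd M0 ({M | M ∈ B0 ∨ ∃ Y, D Y ∧ M ∈ CY Y} ∩ CY Y2) ≤ ε * fd M0 (CY Y2) := by
    intro Y2 h1 h2 h3
    have a1 := clb_union M0 ({M | M ∈ B0 ∨ ∃ Y, D Y ∧ M ∈ CY Y} ∩ CY Y2) (B0 ∩ CY Y2)
      {M | ∃ Y ∈ F, M ∈ CY Y ∩ CY Y2} (by
        rintro A ⟨hA | ⟨Y, b1, b2⟩, hA2⟩
        · exact Or.inl ⟨hA, hA2⟩
        · obtain ⟨Y', b3, b4⟩ := hmin Y b1
          exact Or.inr ⟨Y', b3, CY_anti b4 b2, hA2⟩)
    have a2 := fd_le_sum M0 F {M | ∃ Y ∈ F, M ∈ CY Y ∩ CY Y2} (fun Y => CY Y ∩ CY Y2)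
      fun A hA => hA
    have a3 := clb_sum R M0 e1 he0.le F Y2 h1 (fun Y hY =>
      ⟨((hD Y).1 ((hF Y).1 hY).1).2.1, fun h => h3 Y h ((hF Y).1 hY).1⟩) (by convert hc)
    rw [← hK] at a3
    have a4 := (hnd Y2 h1 (h3 Y2 le_rfl)).trans
      (mul_le_mul_of_nonneg_right (t1 _) (fd_nonneg _ _))
    have a5 : K * e1 / dd 2 ν ^ Module.finrank (ZMod 2) Y2 ≤ ε / 2 * fd M0 (CY Y2) := by
      rw [PZ M0 Y2 h2, pp, ← mul_div_assoc]
      refine div_le_div_of_nonneg_right (he2.trans ?_) (pow_pos hd _).le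
      exact le_mul_of_one_le_right (half_pos hε).le (one_le_pow₀ one_le_two)
    linarith
  refine ⟨{M | M ∈ B0 ∨ ∃ Y, D Y ∧ M ∈ CY Y}, fun M hM => Or.inl hM, ?_, fun Y hY => ?_⟩
  · have h := H ⊥ (by rw [finrank_bot]; exact Nat.zero_le _) ⟨0, by rw [CY_bot]; trivial⟩ (by
      intro S hS hDS
      rw [le_bot_iff.1 hS] at hDS
      have b := ((hD _).1 hDS).2.2
      rw [finrank_bot, CY_bot, fd_univ, Set.inter_univ] at b
      linarith [t0 0])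
    rwa [CY_bot, fd_univ, Set.inter_univ, mul_one] at h
  · by_cases h1 : Lv M0 Y
    · by_cases h2 : ∃ S, S ≤ Y ∧ D S
      · obtain ⟨S, b1, b2⟩ := h2
        exact Or.inl fun A hA => Or.inr ⟨S, b2, CY_anti b1 hA⟩
      · exact Or.inr (H Y hY h1 fun S b1 b2 => h2 ⟨S, b1, b2⟩)
    · exact Or.inl fun A hA => absurd ⟨A, hA⟩ h1

theorem MI (R : ℕ) (ε : ℝ) (hε : 0 < ε) : ∃ ε0 : ℝ, 0 < ε0 ∧
    ∀ (ν : Type) [Fintype ν] [DecidableEq ν] (M0 : SymM 2 ν) (B0 : Set (SymM 2 ν)),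
    fd M0 B0 ≤ ε0 → fd M0 {M | ∃ Y : SV 2 ν, Module.finrank (ZMod 2) Y ≤ R ∧
      ε * fd M0 (CY Y) < fd M0 (B0 ∩ CY Y) ∧ M ∈ CY Y} ≤ ε := by
  obtain ⟨ε0, h0, H⟩ := CLO R ε hε
  refine ⟨ε0, h0, fun ν _ _ M0 B0 hB => ?_⟩
  obtain ⟨B, h1, h2, h3⟩ := H ν M0 B0 hB
  refine (fd_mono M0 ?_).trans h2
  rintro A ⟨Y, a1, a2, a3⟩
  rcases h3 Y a1 with h | h
  · exact h A a3
  · exact absurd (h.trans_lt a2) (not_lt.2 (fd_mono M0 fun A hA => ⟨h1 hA.1, hA.2⟩))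

end Pool.Agent.Work.MP_4523ee_co.F2.Mo
end
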