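import Mathlib
import Pool.Agent.Work.MP_4523ee_co.F2.PtB
import Pool.Agent.Work.MP_4523ee_co.F2.AlA
import Pool.Agent.Work.MP_4523ee_co.F2.CloB
import Pool.Agent.Work.MP_4523ee_co.Fp.End

-- merged part: Pool.Agent.Work.MP_4523ee_co.F2.CDefs
section
/-!
Fibred cleaning in characteristic two: definitions (paper h19_4523ee_F2.md, sections A and B).
-/

set_option autoImplicit false
set_option linter.unusedSectionVars false

namespace Pool.Agent.Work.MP_4523ee_co.F2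

open Finset hiding dens
open Matrix Fp Fp.Po
open scoped BigOperators ComplexConjugate

section base
variable {ν ν' : Type} [Fintype ν] [DecidableEq ν] [Fintype ν'] [DecidableEq ν']

/-- `A` correlates on `CY Y ∩ Fb v` with a function of level at most `s` -/
def BadY (η : ℝ) (s : ℕ) (A : Set (SymM 2 ν)) (v : ν → ZMod 2) (Y : SV 2 ν) : Prop :=
  ∃ G : SymM 2 ν → ℂ, Lv s G ∧
    η * (√(dens (CY Y ∩ Fb v)) * √(𝔼 M, ind (CY Y ∩ Fb v) M * ‖G M‖ ^ 2)) <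
      ‖𝔼 M, (ind (CY Y ∩ Fb v) M : ℂ) * (fA A M * G M)‖

/-- union of the bad cosets of codimension at most `i` -/
def BU (η : ℝ) (s : ℕ) (A : Set (SymM 2 ν)) (i : ℕ) : Set (SymM 2 ν) :=
  {M | ∃ Y : SV 2 ν, Module.finrank (ZMod 2) Y ≤ i ∧ M ∈ CY Y ∧ BadY η s A (dg M) Y}

/-- union of the bad cosets given by at most `R` conditions, at most `i` of them modulo `Ξ` -/
def BX (η : ℝ) (s : ℕ) (A : Set (SymM 2 ν)) (i R : ℕ)
    (Ξ : (ν → ZMod 2) → Submodule (ZMod 2) (ν → ZMod 2)) : Set (SymM 2 ν) :=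
  {M | ∃ Y Y₀ : SV 2 ν, Module.finrank (ZMod 2) Y ≤ R ∧ Y₀ ≤ Y ∧ (∀ q ∈ Y₀, q.1 ∈ Ξ (dg M)) ∧
    Module.finrank (ZMod 2) Y ≤ i + Module.finrank (ZMod 2) Y₀ ∧ M ∈ CY Y ∧ BadY η s A (dg M) Y}

/-- union of the bad cosets of codimension exactly `i` inside `CY Z ∩ Fb v` -/
def BZ (η : ℝ) (s : ℕ) (A : Set (SymM 2 ν)) (i : ℕ) (v : ν → ZMod 2) (Z : SV 2 ν) :
    Set (SymM 2 ν) :=
  {M | ∃ Y : SV 2 ν, Z ≤ Y ∧ Module.finrank (ZMod 2) Y = i ∧ M ∈ CY Y ∩ Fb v ∧ BadY η s A v Y}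

/-- the trace of `Y` on a tile with matrix `U`, seen from the point `N` of the tile -/
def rs (U : Matrix ν ν' (ZMod 2)) (N : SymM 2 ν') (Y : SV 2 ν) : SV 2 ν' :=
  Y.map ((LinearMap.id.prod N.1.mulVecLin).comp (Uᵀ.mulVecLin.comp (LinearMap.fst _ _ _)))

/-- a tile invariant weight on injective tiles whose marginal is close to one -/
structure Wt0 (g : ℝ) (w : SymM 2 ν → Matrix ν ν' (ZMod 2) → ℝ) : Prop where
  nn : ∀ M U, 0 ≤ w M U
  inv : ∀ M U (N : SymM 2 ν'), w (M + cj U N) U = w M U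
  inj : ∀ M U, w M U ≠ 0 → Inj U
  l1 : 𝔼 M, |𝔼 U, w M U - 1| ≤ g

/-- the same with marginal at most two -/
structure Wt (g : ℝ) (w : SymM 2 ν → Matrix ν ν' (ZMod 2) → ℝ) : Prop extends Wt0 g w where
  le2 : ∀ M, 𝔼 U, w M U ≤ 2

/-- marginal of the marked points of the tiles -/
noncomputable def Ps (w : SymM 2 ν → Matrix ν ν' (ZMod 2) → ℝ)
    (Bb : SymM 2 ν → Matrix ν ν' (ZMod 2) → Set (SymM 2 ν')) (M : SymM 2 ν) : ℝ :=
  𝔼 U, 𝔼 N : SymM 2 ν', w (M - cj U N) U * ind (Bb (M - cj U N) U) N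

/-- bad traces of `Y` on the tiles of `w` are marked -/
def Mkd (η : ℝ) (s : ℕ) (A : Set (SymM 2 ν)) (w : SymM 2 ν → Matrix ν ν' (ZMod 2) → ℝ)
    (Bb : SymM 2 ν → Matrix ν ν' (ZMod 2) → Set (SymM 2 ν')) (v : ν → ZMod 2) (Y : SV 2 ν) :
    Prop :=
  ∀ M U, w M U ≠ 0 → ∀ N₀ : SymM 2 ν', M + cj U N₀ ∈ CY Y ∩ Fb v →
    BadY η s (res A M U) (dg N₀) (rs U N₀ Y) → CY (rs U N₀ Y) ∩ Fb (dg N₀) ⊆ Bb M U

/-- on the tiles of `w` the members of `𝒴` have at most `i` conditions modulo spaces of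
dimension `K` -/
def Drop (i K : ℕ) (𝒴 : (ν → ZMod 2) → Set (SV 2 ν))
    (w : SymM 2 ν → Matrix ν ν' (ZMod 2) → ℝ) : Prop :=
  ∀ M U, w M U ≠ 0 → ∃ Ξ : (ν' → ZMod 2) → Submodule (ZMod 2) (ν' → ZMod 2),
    (∀ t, Module.finrank (ZMod 2) (Ξ t) ≤ K) ∧ ∀ N : SymM 2 ν', ∀ Y ∈ 𝒴 (dg (M + cj U N)),
      M + cj U N ∈ CY Y → ∃ Y₀ : SV 2 ν, Y₀ ≤ Y ∧
        Module.finrank (ZMod 2) Y ≤ i + Module.finrank (ZMod 2) Y₀ ∧
        ∀ q ∈ Y₀, Uᵀ *ᵥ q.1 ∈ Ξ (dg N)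

/-- live spaces of dimension `r` in the fibre `v` -/
def Liv (r : ℕ) (v : ν → ZMod 2) (𝒴 : Finset (SV 2 ν)) : Prop :=
  ∀ Y ∈ 𝒴, Module.finrank (ZMod 2) Y = r ∧ (CY Y ∩ Fb v).Nonempty

open Classical in
/-- light family of spaces -/
def LtS (r : ℕ) (b : ℝ) (𝒴 : Finset (SV 2 ν)) : Prop :=
  ∀ Z : SV 2 ν, 0 < Module.finrank (ZMod 2) Z → Module.finrank (ZMod 2) Z < r →
    (#(𝒴.filter fun Y => Z ≤ Y) : ℝ) ≤ b * dd 2 ν ^ (r - Module.finrank (ZMod 2) Z)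

/-- the tiles of `w` are adapted to the families `S` up to spaces of dimension `K` -/
def Adp {r : ℕ} (K : ℕ) (S : (ν → ZMod 2) → Finset (TT 2 r ν))
    (w : SymM 2 ν → Matrix ν ν' (ZMod 2) → ℝ) : Prop :=
  ∀ M U, w M U ≠ 0 → ∃ Ξ : (ν' → ZMod 2) → Submodule (ZMod 2) (ν' → ZMod 2),
    (∀ t, Module.finrank (ZMod 2) (Ξ t) ≤ K) ∧ ∀ N : SymM 2 ν', ∀ τ ∈ S (dg (M + cj U N)),
      Mo.hit (M + cj U N) τ → ∃ c, c ≠ 0 ∧ Uᵀ *ᵥ (yM τ *ᵥ c) ∈ Ξ (dg N)

/-- a light family of live tuples of size comparable with `d ^ r` -/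
structure Lf {r : ℕ} (ε lam : ℝ) (v : ν → ZMod 2) (S : Finset (TT 2 r ν)) : Prop where
  lt : Mo.Lt lam S
  lo : ε * dd 2 ν ^ r ≤ #S
  hi : (#S : ℝ) ≤ dd 2 ν ^ r
  inj : ∀ τ ∈ S, Inj (yM τ)
  live : ∀ τ ∈ S, Mo.live (Mo.Dg v) τ

/-- conclusion of the adaptation lemma -/
def AdOut {r : ℕ} (K0 : ℕ) (F : ℕ → ℕ) (g : ℕ → ℝ) (D : Set (ν → ZMod 2))
    (S : (ν → ZMod 2) → Finset (TT 2 r ν)) : Prop :=
  ∃ K : ℕ, K ≤ K0 ∧ ∃ S' : (ν → ZMod 2) → Finset (TT 2 r ν),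
    (∀ v, S' v ⊆ S v ∧ (v ∉ D → S' v = ∅)) ∧ dd 2 ν ^ r ≤ K * 𝔼 v, (#(S' v) : ℝ) ∧
    ∃ w : SymM 2 ν → Matrix ν (Fin (F K)) (ZMod 2) → ℝ, Wt0 (g K) w ∧ Adp K S' w

end base

def CLN (s i : ℕ) : Prop :=
  ∀ η ε : ℝ, 0 < η → 0 < ε → Ev 2 fun _ _ _ A => dens (BU η s A i) ≤ ε

def CLK (s i R K : ℕ) (η : ℝ) : Prop :=
  ∀ ε : ℝ, 0 < ε → Ev 2 fun ν _ _ A =>
    ∀ Ξ : (ν → ZMod 2) → Submodule (ZMod 2) (ν → ZMod 2),
      (∀ v, Module.finrank (ZMod 2) (Ξ v) ≤ K) → dens (BX η s A i R Ξ) ≤ ε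

/-- adapted tiles for light families -/
def ADAPT : Prop :=
  ∀ (r : ℕ) (ε₁ ε₂ : ℝ) (F : ℕ → ℕ) (g : ℕ → ℝ), 0 < r → 0 < ε₁ → 0 < ε₂ → (∀ K, 0 < g K) →
    ∃ K0 : ℕ, ∃ lam : ℝ, 0 < lam ∧ ∃ n0 : ℕ, ∀ (ν : Type) [Fintype ν] [DecidableEq ν],
      n0 ≤ Fintype.card ν → ∀ (D : Set (ν → ZMod 2)) (S : (ν → ZMod 2) → Finset (TT 2 r ν)),
        ε₂ ≤ dens D → (∀ v ∈ D, Lf ε₁ lam v (S v)) → AdOut K0 F g D S

end Pool.Agent.Work.MP_4523ee_co.F2
end

-- merged part: Pool.Agent.Work.MP_4523ee_co.F2.CFib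
section
/-!
Fibred cleaning: from one fibre to the whole space.
-/

set_option autoImplicit false
set_option linter.unusedSectionVars false

namespace Pool.Agent.Work.MP_4523ee_co.F2

open Finset hiding dens
open Matrix Fp Fp.Po
open scoped BigOperators ComplexConjugate

variable {ν ν' : Type} [Fintype ν] [DecidableEq ν] [Fintype ν'] [DecidableEq ν']

lemma cfA_dg (M₀ : SymM 2 ν) (A : Mo.AltM ν) : dg (M₀ + A.1) = dg M₀ := by
  funext i
  have h : A.1.1 i i = 0 := A.2 i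
  show M₀.1 i i + A.1.1 i i = M₀.1 i i
  rw [h, add_zero]

lemma cfA_Dg (v : ν → ZMod 2) : dg (Mo.Dg v) = v := funext fun i => diagonal_apply_eq v i

lemma cfA_mono (M₀ : SymM 2 ν) {E E' : Set (SymM 2 ν)}
    (h : ∀ M, dg M = dg M₀ → M ∈ E → M ∈ E') : Mo.fd M₀ E ≤ Mo.fd M₀ E' := by
  refine expect_le_expect fun A _ => ?_
  unfold ind
  split_ifs with h1 h2
  · exact le_rfl
  · exact absurd (h _ (cfA_dg M₀ A) h1) h2
  · exact zero_le_one
  · exact le_rfl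

lemma cfA_Fb (E : Set (SymM 2 ν)) (v : ν → ZMod 2) :
    Mo.fd (Mo.Dg v) (E ∩ Fb v) = Mo.fd (Mo.Dg v) E :=
  le_antisymm (cfA_mono _ fun _ _ h => h.1) (cfA_mono _ fun _ h h' => ⟨h', h.trans (cfA_Dg v)⟩)

lemma dens_fib (E : Set (SymM 2 ν)) : dens E = 𝔼 v : ν → ZMod 2, Mo.fd (Mo.Dg v) E := by
  exact Mo.expect_fib (ind E)

lemma dens_Fb (E : Set (SymM 2 ν)) (v : ν → ZMod 2) :
    dens (E ∩ Fb v) = (dd 2 ν)⁻¹ * Mo.fd (Mo.Dg v) E := by
  rw [dens_fib, Fintype.expect_eq_sum_div_card, sum_eq_single v, cfA_Fb, div_eq_inv_mul]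
  · simp [dd]
  · intro u _ hu
    exact Mo.mb_empty _ fun ⟨A, hA⟩ => hu (((cfA_dg _ A).trans (cfA_Dg u)).symm.trans hA.2)
  · simp

lemma fd_Fb (E : Set (SymM 2 ν)) (v : ν → ZMod 2) :
    Mo.fd (Mo.Dg v) (E ∩ Fb v) = Mo.fd (Mo.Dg v) E := by
  exact cfA_Fb E v

lemma fd_mono (M₀ : SymM 2 ν) {E E' : Set (SymM 2 ν)}
    (h : ∀ M, dg M = dg M₀ → M ∈ E → M ∈ E') : Mo.fd M₀ E ≤ Mo.fd M₀ E' := by
  exact cfA_mono M₀ h

lemma dg_Dg (v : ν → ZMod 2) : dg (Mo.Dg v) = v := by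
  exact cfA_Dg v

lemma live_iff (v : ν → ZMod 2) (Y : SV 2 ν) :
    (CY Y ∩ Fb v).Nonempty ↔ ∃ A : Mo.AltM ν, Mo.Dg v + A.1 ∈ CY Y := by
  constructor
  · rintro ⟨M, h1, h2⟩
    refine ⟨⟨M - Mo.Dg v, fun i => ?_⟩, by simpa using h1⟩
    show M.1 i i - (Mo.Dg v).1 i i = 0
    exact sub_eq_zero.2 ((congrFun h2 i).trans (congrFun (cfA_Dg v) i).symm)
  · rintro ⟨A, hA⟩
    exact ⟨_, hA, (cfA_dg _ A).trans (cfA_Dg v)⟩

lemma cfB_rep {M : SymM 2 ν} {v : ν → ZMod 2} (h : dg M = v) :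
    ∃ A : Mo.AltM ν, Mo.Dg v + A.1 = M := by
  refine ⟨⟨M - Mo.Dg v, fun i => ?_⟩, by simp⟩
  show M.1 i i - (Mo.Dg v).1 i i = 0
  exact sub_eq_zero.2 ((congrFun h i).trans (congrFun (cfA_Dg v) i).symm)

lemma cfB_clo (R : ℕ) (ε : ℝ) (hε : 0 < ε) : ∃ ε0 : ℝ, 0 < ε0 ∧
    ∀ (ν : Type) [Fintype ν] [DecidableEq ν] (B0 : Set (SymM 2 ν)), dens B0 ≤ ε0 →
      ∃ B : Set (SymM 2 ν), B0 ⊆ B ∧ dens B ≤ ε ∧ ∀ (v : ν → ZMod 2) (Y : SV 2 ν),
        Module.finrank (ZMod 2) Y ≤ R →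
        CY Y ∩ Fb v ⊆ B ∨ dens (B ∩ (CY Y ∩ Fb v)) ≤ ε * dens (CY Y ∩ Fb v) := by
  obtain ⟨ε1, h1, H⟩ := Mo.CLO R (ε / 2) (half_pos hε)
  refine ⟨ε1 * (ε / 2), by positivity, fun ν _ _ B0 hB => ?_⟩
  have key : ∀ v : ν → ZMod 2, ∃ B : Set (SymM 2 ν), B0 ⊆ B ∧
      Mo.fd (Mo.Dg v) B ≤ ε / 2 + ind {u | ε1 ≤ Mo.fd (Mo.Dg u) B0} v ∧ ∀ Y : SV 2 ν,
      Module.finrank (ZMod 2) Y ≤ R →
      (∀ A : Mo.AltM ν, Mo.Dg v + A.1 ∈ CY Y → Mo.Dg v + A.1 ∈ B) ∨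
        Mo.fd (Mo.Dg v) (B ∩ CY Y) ≤ ε / 2 * Mo.fd (Mo.Dg v) (CY Y) := fun v => by
    rcases le_total (Mo.fd (Mo.Dg v) B0) ε1 with h | h
    · obtain ⟨B, a1, a2, a3⟩ := H ν (Mo.Dg v) B0 h
      exact ⟨B, a1, a2.trans (le_add_of_nonneg_right (ind_nonneg _ _)), a3⟩
    · refine ⟨Set.univ, Set.subset_univ _, ?_, fun Y _ => Or.inl fun _ _ => Set.mem_univ _⟩
      rw [Mo.fd_univ, ind_of_mem (A := {u | ε1 ≤ Mo.fd (Mo.Dg u) B0}) h]
      linarith
  choose Bv k1 k2 k3 using key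
  have hm : ∀ (v : ν → ZMod 2) (E : Set (SymM 2 ν)),
      Mo.fd (Mo.Dg v) ({M | M ∈ Bv (dg M)} ∩ E) ≤ Mo.fd (Mo.Dg v) (Bv v ∩ E) := fun v E =>
    fd_mono _ fun M h hM => ⟨by
      have := hM.1
      rwa [Set.mem_ofPred_eq, h, cfA_Dg] at this, hM.2⟩
  refine ⟨{M | M ∈ Bv (dg M)}, fun M hM => k1 _ hM, ?_, fun v Y hY => ?_⟩
  · have a1 := dens_markov (fun u : ν → ZMod 2 => Mo.fd (Mo.Dg u) B0)
      (fun u => Mo.fd_nonneg _ _) h1
    rw [← dens_fib] at a1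
    have a2 : dens B0 / ε1 ≤ ε / 2 := by
      rw [div_le_iff₀ h1]
      linarith
    rw [dens_fib]
    refine (expect_le_expect fun v _ => ?_ : _ ≤ 𝔼 v : ν → ZMod 2,
      (ε / 2 + ind {u | ε1 ≤ Mo.fd (Mo.Dg u) B0} v)).trans ?_
    · have := hm v Set.univ
      rw [Set.inter_univ, Set.inter_univ] at this
      exact this.trans (k2 v)
    · rw [expect_add_distrib, expect_const univ_nonempty]
      exact (add_le_add_right (a1.trans a2) _).trans_eq (add_halves ε)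
  · rcases k3 v Y hY with h | h
    · refine Or.inl fun M hM => ?_
      have h2 : dg M = v := hM.2
      obtain ⟨A, rfl⟩ := cfB_rep h2
      show _ ∈ Bv _
      rw [h2]
      exact h A hM.1
    · refine Or.inr ?_
      rw [← Set.inter_assoc, dens_Fb, dens_Fb, mul_left_comm]
      refine mul_le_mul_of_nonneg_left ((hm v _).trans (h.trans ?_)) (inv_nonneg.2 dd_pos.le)
      exact mul_le_mul_of_nonneg_right (by linarith) (Mo.fd_nonneg _ _)

/-- maximal inequality -/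
theorem MIg (R : ℕ) (ε : ℝ) (hε : 0 < ε) : ∃ ε0 : ℝ, 0 < ε0 ∧
    ∀ (ν : Type) [Fintype ν] [DecidableEq ν] (B0 : Set (SymM 2 ν)), dens B0 ≤ ε0 →
      dens {M | ∃ Y : SV 2 ν, Module.finrank (ZMod 2) Y ≤ R ∧ M ∈ CY Y ∧
        ε * dens (CY Y ∩ Fb (dg M)) < dens (B0 ∩ (CY Y ∩ Fb (dg M)))} ≤ ε := by
  obtain ⟨ε0, h0, H⟩ := cfB_clo R ε hε
  refine ⟨ε0, h0, fun ν _ _ B0 hB => ?_⟩
  obtain ⟨B, h1, h2, h3⟩ := H ν B0 hB
  refine (Fp.dens_mono ?_).trans h2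
  rintro M ⟨Y, a1, a2, a3⟩
  rcases h3 (dg M) Y a1 with h | h
  · exact h ⟨a2, rfl⟩
  · exact absurd (h.trans_lt a3) (not_lt.2 (Fp.dens_mono fun A hA => ⟨h1 hA.1, hA.2⟩))

/-- closure -/
theorem CLOg (R : ℕ) (ε : ℝ) (hε : 0 < ε) : ∃ ε0 : ℝ, 0 < ε0 ∧
    ∀ (ν : Type) [Fintype ν] [DecidableEq ν] (B0 : Set (SymM 2 ν)), dens B0 ≤ ε0 →
      ∃ B : Set (SymM 2 ν), B0 ⊆ B ∧ dens B ≤ ε ∧ ∀ (v : ν → ZMod 2) (Y : SV 2 ν),
        Module.finrank (ZMod 2) Y ≤ R →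
        CY Y ∩ Fb v ⊆ B ∨ dens (B ∩ (CY Y ∩ Fb v)) ≤ ε * dens (CY Y ∩ Fb v) := by
  exact cfB_clo R ε hε

end Pool.Agent.Work.MP_4523ee_co.F2
end

-- merged part: Pool.Agent.Work.MP_4523ee_co.F2.CWt
section
/-!
Fibred cleaning: weights on tiles.
-/

set_option autoImplicit false
set_option linter.unusedSectionVars false

namespace Pool.Agent.Work.MP_4523ee_co.F2

open Finset hiding dens
open Matrix Fp Fp.Po
open scoped BigOperators ComplexConjugate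

variable {ν ν' : Type} [Fintype ν] [DecidableEq ν] [Fintype ν'] [DecidableEq ν']

lemma Wt0.mono {g g' : ℝ} {w : SymM 2 ν → Matrix ν ν' (ZMod 2) → ℝ} (hw : Wt0 g w) (h : g ≤ g') :
    Wt0 g' w := ⟨hw.nn, hw.inv, hw.inj, hw.l1.trans h⟩

/-- dropping the tiles that meet the set where the marginal exceeds two -/
theorem BD {g : ℝ} {w : SymM 2 ν → Matrix ν ν' (ZMod 2) → ℝ} (hw : Wt0 g w) :
    ∃ w' : SymM 2 ν → Matrix ν ν' (ZMod 2) → ℝ,
      Wt ((1 + 2 * Fintype.card (SymM 2 ν')) * g) w' ∧ ∀ M U, w' M U ≠ 0 → w M U ≠ 0 := by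
  let S : Set (SymM 2 ν) := {M | 2 < 𝔼 U, w M U}
  let T : Matrix ν ν' (ZMod 2) → Set (SymM 2 ν) := fun U => {M | ∀ N, M + cj U N ∉ S}
  have hT : ∀ M U (N : SymM 2 ν'), ind (T U) (M + cj U N) = ind (T U) M := fun M U N => by
    by_cases h : M ∈ T U
    · rw [ind_of_mem h]
      refine ind_of_mem fun N' => ?_
      rw [add_assoc, ← cj_add]
      exact h _
    · rw [ind_of_not h]
      refine ind_of_not fun h' => h fun N' => ?_
      have e := h' (N' - N)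
      rwa [add_assoc, ← cj_add, add_sub_cancel] at e
  have hle : ∀ M, 𝔼 U, w M U * ind (T U) M ≤ 𝔼 U, w M U := fun M =>
    Finset.expect_le_expect fun U _ => mul_le_of_le_one_right (hw.nn M U) (ind_le_one _ _)
  have h1 : ∀ M U, w M U ≤ w M U * ind (T U) M +
      Fintype.card (SymM 2 ν') * (w M U * 𝔼 N : SymM 2 ν', ind S (M + cj U N)) := fun M U => by
    rw [mul_left_comm, Fintype.card_mul_expect, ← mul_add]
    refine le_mul_of_one_le_right (hw.nn M U) ?_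
    by_cases h : M ∈ T U
    · rw [ind_of_mem h]
      exact le_add_of_nonneg_right (sum_nonneg fun N _ => ind_nonneg _ _)
    · obtain ⟨N, hN⟩ := not_forall.1 h
      rw [ind_of_not h, zero_add, ← ind_of_mem (not_not.1 hN)]
      exact single_le_sum (f := fun N : SymM 2 ν' => ind S (M + cj U N))
        (fun N _ => ind_nonneg _ _) (mem_univ N)
  have h2 : 𝔼 M, 𝔼 U, w M U * 𝔼 N : SymM 2 ν', ind S (M + cj U N) ≤ 2 * g := by
    rw [marg_id_real (fun U => U) w (ind S)]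
    refine le_trans ?_ (mul_le_mul_of_nonneg_left hw.l1 zero_le_two)
    rw [Finset.mul_expect]
    refine Finset.expect_le_expect fun M _ => ?_
    rw [marg_of_inv (fun U => U) w hw.inv]
    by_cases h : M ∈ S
    · have h' : 2 < 𝔼 U, w M U := h
      rw [ind_of_mem h]
      linarith only [h', le_abs_self (𝔼 U, w M U - 1)]
    · rw [ind_of_not h, mul_zero]
      positivity
  refine ⟨fun M U => w M U * ind (T U) M, ⟨⟨fun M U => mul_nonneg (hw.nn M U) (ind_nonneg _ _),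
    fun M U N => by rw [hw.inv, hT], fun M U h => hw.inj M U (left_ne_zero_of_mul h), ?_⟩,
    fun M => ?_⟩, fun M U h => left_ne_zero_of_mul h⟩
  · have h3 : 𝔼 M, |𝔼 U, w M U * ind (T U) M - 1| ≤ 𝔼 M, (|𝔼 U, w M U - 1| +
        Fintype.card (SymM 2 ν') * 𝔼 U, w M U * 𝔼 N : SymM 2 ν', ind S (M + cj U N)) := by
      refine Finset.expect_le_expect fun M _ => ?_
      have a := Finset.expect_le_expect (s := univ) fun U _ => h1 M U
      rw [Finset.expect_add_distrib, ← Finset.mul_expect] at a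
      have b := hle M
      refine abs_le.2 ⟨?_, ?_⟩ <;>
        linarith only [a, b, le_abs_self (𝔼 U, w M U - 1), neg_abs_le (𝔼 U, w M U - 1)]
    rw [Finset.expect_add_distrib, ← Finset.mul_expect] at h3
    have h4 := mul_le_mul_of_nonneg_left h2 (Nat.cast_nonneg (Fintype.card (SymM 2 ν')))
    linarith only [h3, h4, hw.l1]
  · by_cases h : M ∈ S
    · refine Finset.expect_le univ_nonempty fun U _ => ?_
      rw [ind_of_not (A := T U) fun h' => h' 0 (by rwa [cj_zero, add_zero]), mul_zero]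
      exact zero_le_two
    · exact (hle M).trans (not_lt.1 h)

/-- most tiles are near extremal -/
theorem MKW (η δ : ℝ) (hη : 0 < η) (hδ : 0 < δ) : ∃ J0 : ℕ, ∃ η0 : ℝ, 0 < η0 ∧ ∃ g : ℝ, 0 < g ∧
    ∀ (ν ν' : Type) [Fintype ν] [DecidableEq ν] [Fintype ν'] [DecidableEq ν'],
      J0 ≤ Fintype.card ν' → ∀ A : Set (SymM 2 ν), NE η0 A →
      ∀ w : SymM 2 ν → Matrix ν ν' (ZMod 2) → ℝ, Wt0 g w →
        𝔼 M, 𝔼 U, w M U * ind {U | ¬ NE η (res A M U)} U ≤ δ := by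
  have hγ : 0 < η * δ / 8 := by positivity
  obtain ⟨J0, hJ⟩ := UB (p := 2) _ hγ
  refine ⟨J0, η * δ / 4, by positivity, min 1 (min (δ / 4) (η * δ / 16)), by positivity,
    fun ν ν' _ _ _ _ hn A hA w hw => ?_⟩
  have g1 := min_le_left 1 (min (δ / 4) (η * δ / 16))
  have g2 := (min_le_right 1 _).trans (min_le_left (δ / 4) (η * δ / 16))
  have g3 := (min_le_right 1 _).trans (min_le_right (δ / 4) (η * δ / 16))
  have g0 : 0 < min 1 (min (δ / 4) (η * δ / 16)) := by positivity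
  have m := MK (fun U => U) w hγ.le hη g1 hA (hJ ν' hn) hw.nn
    (by simp only [marg_of_inv (fun U => U) w hw.inv]; exact hw.l1)
    (Finset.expect_le univ_nonempty fun M _ => Finset.expect_le univ_nonempty fun U _ => by
      by_cases h : w M U = 0
      · rw [h, zero_mul]
        exact g0.le
      · rw [ind_of_not (A := {U | ¬ Inj U}) fun h' => h' (hw.inj M U h), mul_zero]
        exact g0.le)
  have e : (2 * (η * δ / 8) + η * δ / 4 + 4 * min 1 (min (δ / 4) (η * δ / 16))) / η ≤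
      3 * δ / 4 := by
    rw [div_le_iff₀ hη]
    linarith only [g3]
  refine le_trans (Finset.expect_le_expect fun M _ => Finset.expect_le_expect fun U _ =>
    mul_le_mul_of_nonneg_left ?_ (hw.nn M U)) (m.trans (by linarith only [e, g2]))
  by_cases h : NE η (res A M U)
  · rw [ind_of_not (A := {U | ¬ NE η (res A M U)}) fun h' => h' h]
    exact ind_nonneg _ _
  · rw [ind_of_mem (A := {U | ¬ (Inj U ∧ NE η (res A M U))}) fun h' => h h'.2]
    exact ind_le_one _ _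

lemma cw_pad {K : ℕ} (Ξ : Submodule (ZMod 2) (ν → ZMod 2)) (h : Module.finrank (ZMod 2) Ξ ≤ K) :
    ∃ φ : Fin K → ν → ZMod 2, ∀ U : Matrix ν ν' (ZMod 2), (∀ i, φ i ᵥ* U = 0) →
      ∀ y ∈ Ξ, Uᵀ *ᵥ y = 0 := by
  let b := Module.finBasis (ZMod 2) Ξ
  refine ⟨fun i => if hi : i.1 < Module.finrank (ZMod 2) Ξ then (b ⟨i, hi⟩).1 else 0,
    fun U hU y hy => ?_⟩
  have e : Uᵀ.mulVecLin.comp Ξ.subtype = 0 := b.ext fun j => by
    have e1 := hU (Fin.castLE h j)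
    beta_reduce at e1
    rw [dif_pos (show (Fin.castLE h j).1 < _ from j.2), ← mulVec_transpose] at e1
    exact e1
  exact LinearMap.congr_fun e ⟨y, hy⟩

/-- tiles that annihilate a moving subspace -/
theorem HCW (J K : ℕ) (g : ℝ) (hg : 0 < g) : ∃ n0 : ℕ, ∀ (ν : Type) [Fintype ν] [DecidableEq ν],
    n0 ≤ Fintype.card ν → ∀ Ξ : (ν → ZMod 2) → Submodule (ZMod 2) (ν → ZMod 2),
      (∀ v, Module.finrank (ZMod 2) (Ξ v) ≤ K) →
      ∃ w : SymM 2 ν → Matrix ν (Fin J) (ZMod 2) → ℝ, Wt0 g w ∧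
        ∀ M U, w M U ≠ 0 → ∀ y ∈ Ξ (dg M), Uᵀ *ᵥ y = 0 := by
  obtain ⟨m0, hm0⟩ := hc_tiling J K g hg
  refine ⟨m0, fun ν _ _ hn Ξ hΞ => ?_⟩
  choose φ hφ using fun v => cw_pad (ν' := Fin J) (Ξ v) (hΞ v)
  obtain ⟨C, Um, hCZ, htil, hrest⟩ := hm0 ν (Fin K) hn (Fintype.card_fin K).le φ univ
  have h1 := l0_rest _ _ hCZ hrest
  let T : (ν → ZMod 2) → Set (Matrix ν (Fin J) (ZMod 2)) := fun d => {U | d ∈ C ∧ U = Um d}
  have hT : ∀ d U, (Fintype.card (Matrix ν (Fin J) (ZMod 2)) : ℝ) * ind (T d) U ≠ 0 →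
      d ∈ C ∧ U = Um d := fun d U h => by
    by_contra h'
    exact h (by rw [ind_of_not (A := T d) h', mul_zero])
  have hs : ∀ d U t, U ∈ T d → U ∈ T (d + U *ᵥ t) := fun d U t h => by
    obtain ⟨a, rfl⟩ := h
    exact ⟨((htil d a).2.2 t).1, ((htil d a).2.2 t).2.symm⟩
  refine ⟨fun M U => Fintype.card (Matrix ν (Fin J) (ZMod 2)) * ind (T (dg M)) U,
    ⟨fun M U => mul_nonneg (Nat.cast_nonneg _) (ind_nonneg _ _), fun M U N => ?_,
      fun M U h => ?_, le_trans (Finset.expect_le_expect fun M _ => ?_) h1⟩, fun M U h => ?_⟩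
  · rw [dg_add, dg_cj]
    by_cases a : U ∈ T (dg M)
    · rw [ind_of_mem a, ind_of_mem (hs _ _ _ a)]
    · rw [ind_of_not a, ind_of_not fun a' => a ?_]
      have a2 := hs _ _ (-dg N) a'
      rwa [mulVec_neg, add_neg_cancel_right] at a2
  · obtain ⟨a, rfl⟩ := hT _ _ h
    exact (htil _ a).1
  · rw [← Finset.mul_expect, Fintype.card_mul_expect, ind_of_mem (mem_coe.2 (mem_univ _))]
    by_cases a : dg M ∈ C
    · rw [sum_eq_single (Um (dg M)) (fun U _ hU => ind_of_not fun h => hU h.2)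
        fun h => absurd (mem_univ _) h, ind_of_mem (A := T (dg M)) ⟨a, rfl⟩,
        ind_of_mem (mem_coe.2 a), sub_self, abs_zero]
    · rw [sum_eq_zero fun U _ => ind_of_not (A := T (dg M)) fun h => a h.1,
        ind_of_not fun h => a (mem_coe.1 h)]
      norm_num
  · obtain ⟨a, rfl⟩ := hT _ _ h
    exact hφ _ _ (htil _ a).2.1

end Pool.Agent.Work.MP_4523ee_co.F2
end

-- merged part: Pool.Agent.Work.MP_4523ee_co.F2.CIf
section
/-!
Fibred cleaning: statements of the blocks proved elsewhere.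
-/

set_option autoImplicit false
set_option linter.unusedSectionVars false

namespace Pool.Agent.Work.MP_4523ee_co.F2

open Finset hiding dens
open Matrix Fp Fp.Po
open scoped BigOperators ComplexConjugate

variable {ν ν' : Type} [Fintype ν] [DecidableEq ν] [Fintype ν'] [DecidableEq ν']

/-- tiling along moving light subspaces, one direction -/
def CWUs : Prop :=
  ∀ (k : ℕ) (c e : ℝ), 0 < c → 0 < e → ∀ (FJ : ℕ → ℕ) (g : ℕ → ℝ), (∀ K, 0 < g K) →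
    ∃ K0 : ℕ, ∃ lam : ℝ, 0 < lam ∧ ∃ n0 : ℕ, ∀ (ν : Type) [Fintype ν] [DecidableEq ν],
      n0 ≤ Fintype.card ν → ∀ (X : Type) [AddCommGroup X] [Module (ZMod 2) X] [Fintype X],
      Fintype.card X ≤ k → ∀ ξ : X, ξ ≠ 0 → ∀ D : Set (ν → ZMod 2), e ≤ dens D →
      ∀ Γ : (ν → ZMod 2) → Submodule (ZMod 2) (GX X ν), (∀ v ∈ D, St c lam (Γ v)) →
        ∃ K : ℕ, 0 < K ∧ K ≤ K0 ∧ ∃ D' : Set (ν → ZMod 2), D' ⊆ D ∧ 1 / (K : ℝ) ≤ dens D' ∧
          ∃ w : SymM 2 ν → Matrix ν (Fin (FJ K)) (ZMod 2) → ℝ, Wt0 (g K) w ∧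
            ∀ M U, w M U ≠ 0 → ∀ t, dg M + U *ᵥ t ∈ D' → Algn K ξ (Γ (dg M + U *ᵥ t)) M U

/-- Poisson tiles for families of low energy -/
def PTLs : Prop :=
  ∀ (r J : ℕ) (g : ℝ), 0 < r → 0 < g → ∃ ξ : ℝ, 0 < ξ ∧ ∃ n0 : ℕ,
    ∀ (ν : Type) [Fintype ν] [DecidableEq ν], n0 ≤ Fintype.card ν →
      ∀ S : (ν → ZMod 2) → Finset (TT 2 r ν), (∀ v, Mo.Thin 1 ξ (S v)) →
        (∀ v, ∀ τ ∈ S v, Inj (yM τ) ∧ Mo.live (Mo.Dg v) τ) →
        ∃ S' : (ν → ZMod 2) → Finset (TT 2 r ν), (∀ v, S' v ⊆ S v) ∧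
          ∑ v, #(S v) ≤ 2 ^ (r ^ 2 + r + 1) * ∑ v, #(S' v) ∧
          ∃ w : SymM 2 ν → Matrix ν (Fin J) (ZMod 2) → ℝ, Wt0 g w ∧
            ∀ M U, w M U ≠ 0 → ∀ τ ∈ S' (dg M), Mo.hit M τ → Uᵀ * yM τ = 0

/-- a light family of dense cosets forces a large set -/
def DCs : Prop :=
  ∀ R : ℕ, ∃ C : ℝ, 0 < C ∧ ∀ (ν : Type) [Fintype ν] [DecidableEq ν] (v : ν → ZMod 2) (r : ℕ)
    (F : Finset (SV 2 ν)) (B : Set (SymM 2 ν)) (θ : ℝ), 0 < r → r ≤ R → Liv r v F → LtS r 1 F →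
    (#F : ℝ) ≤ dd 2 ν ^ r → 0 ≤ θ →
    (∀ Y ∈ F, θ * Mo.fd (Mo.Dg v) (CY Y) ≤ Mo.fd (Mo.Dg v) (B ∩ CY Y)) →
    θ ^ 2 * #F ≤ C * dd 2 ν ^ r * Mo.fd (Mo.Dg v) B

/-- minimal heavy spaces form a light family -/
def LIs : Prop :=
  ∀ R : ℕ, ∃ C : ℝ, 0 < C ∧ ∀ (ν : Type) [Fintype ν] [DecidableEq ν] (v : ν → ZMod 2) (r : ℕ)
    (F : Finset (SV 2 ν)) (B : SV 2 ν → Set (SymM 2 ν)) (θ β : ℝ), r ≤ R → Liv r v F →
    Antitone B → 0 < θ → 0 ≤ β → C * β < θ ^ 2 →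
    (∀ Y ∈ F, θ * Mo.fd (Mo.Dg v) (CY Y) ≤ Mo.fd (Mo.Dg v) (B Y ∩ CY Y)) →
    (∀ Y ∈ F, ∀ S, S < Y → 0 < Module.finrank (ZMod 2) S →
      Mo.fd (Mo.Dg v) (B S ∩ CY S) ≤ β * Mo.fd (Mo.Dg v) (CY S)) →
    LtS r (C * β / θ ^ 2) F

end Pool.Agent.Work.MP_4523ee_co.F2
end

-- merged part: Pool.Agent.Work.MP_4523ee_co.F2.AlI
section
/-!
Finiteness instances and the two averaged quantities.
Paper: /team-store/h90_4523ee_CWU.md (one direction version, see the proof hints below).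
-/

set_option autoImplicit false
set_option linter.unusedSectionVars false

namespace Pool.Agent.Work.MP_4523ee_co.F2

open Finset hiding dens
open Matrix Fp
open scoped BigOperators ComplexConjugate

variable {ν : Type} [Fintype ν] [DecidableEq ν]
variable {X : Type} [AddCommGroup X] [Module (ZMod 2) X] [Fintype X]
variable {Y : Type} [AddCommGroup Y] [Module (ZMod 2) Y] [Fintype Y]
variable {I J : Type} [Fintype I] [DecidableEq I] [Fintype J] [DecidableEq J]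

noncomputable instance alSubF : Fintype (Submodule (ZMod 2) Y) :=
  @Fintype.ofFinite _ (Finite.of_injective _ SetLike.coe_injective)

noncomputable instance alBilF : Fintype (Bil 2 Y) := @Fintype.ofFinite _ (DFunLike.finite _)

open Classical in
/-- degenerate pairs of witnesses -/
noncomputable def dgn (W W' : Finset (GX Y ν)) : ℝ :=
  ∑ E ∈ univ.filter fun E : Submodule (ZMod 2) (Y × Y) => E ≠ ⊤,
    (#((W ×ˢ W').filter fun q => pr q.1 q.2 ∈ pw ν E) : ℝ) / pn ν E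

open Classical in
noncomputable def dcn (Γ : I → Submodule (ZMod 2) (GX X ν)) (a : GX (I → X) ν) : ℝ :=
  ∑ E ∈ univ.filter fun E : Submodule (ZMod 2) (I → X) => E ≠ ⊤, cnt Γ a E / pn ν E

/-- bias of a cross form -/
noncomputable def crs (b : Bil 2 Y) (W W' : Finset (GX Y ν)) : ℝ :=
  ‖𝔼 x ∈ W, 𝔼 x' ∈ W', ee (sy b x x')‖

end Pool.Agent.Work.MP_4523ee_co.F2
end

-- merged part: Pool.Agent.Work.MP_4523ee_co.F2.AlH
section
/-!
Degenerate pairs of witnesses are rare.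
Paper: /team-store/h90_4523ee_CWU.md (one direction version, see the proof hints below).
-/

set_option autoImplicit false
set_option linter.unusedSectionVars false

namespace Pool.Agent.Work.MP_4523ee_co.F2

open Finset hiding dens
open Matrix Fp
open scoped BigOperators ComplexConjugate

variable {ν : Type} [Fintype ν] [DecidableEq ν]
variable {X : Type} [AddCommGroup X] [Module (ZMod 2) X] [Fintype X]
variable {Y : Type} [AddCommGroup Y] [Module (ZMod 2) Y] [Fintype Y]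
variable {I J : Type} [Fintype I] [DecidableEq I] [Fintype J] [DecidableEq J]

variable {c θ β κ : ℝ}

lemma h27_ind {α α' : Type} {A : Set α} {B : Set α'} {x : α} {y : α'} (h : x ∈ A ↔ y ∈ B) :
    ind A x = ind B y := by
  by_cases a : y ∈ B
  · rw [ind_of_mem a, ind_of_mem (h.2 a)]
  · rw [ind_of_not a, ind_of_not fun b => a (h.1 b)]

/-- `av_col (s k)`: after refreshing column `s k` only `a k = ux u ξ` depends on `u` (the terms
with `h j = 0` vanish); swap the averages and use `fresh1` (and `neg_mem`) -/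
lemma avg_rq {G : Submodule (ZMod 2) (GX X ν)} (hG : St c θ G) (hF : Far θ G) (hθ : 0 ≤ θ)
    {ξ : X} (hξ : ξ ≠ 0) (s : I → J) (k : I) (h : I → X →ₗ[ZMod 2] X)
    (hs : ∀ j, h j ≠ 0 → s j ≠ s k) :
    𝔼 U : Matrix ν J (ZMod 2), rq G (fun j => ux (fun a => U a (s j)) ξ) k h ≤ θ := by
  rw [av_col (s k)]
  refine Finset.expect_le univ_nonempty fun U _ => ?_
  unfold rq dens
  rw [Finset.expect_comm]
  refine Finset.expect_le univ_nonempty fun τ _ => ?_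
  refine le_of_eq_of_le (Finset.expect_congr rfl fun u _ => h27_ind ?_)
    (fresh1 hG hF hθ hξ (-∑ j, gm ν (h j) ((τ j).1 + ux (fun a => U a (s j)) ξ)))
  have e1 : ∀ j, gm ν (h j) ((τ j).1 + ux (fun a => U.updateCol (s k) u a (s j)) ξ) =
      gm ν (h j) ((τ j).1 + ux (fun a => U a (s j)) ξ) := fun j => by
    by_cases hj : h j = 0
    · rw [hj]
      rfl
    · simp only [updateCol_ne (hs j hj)]
  simp only [Set.mem_ofPred_eq, e1, updateCol_self]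
  rw [← G.neg_mem_iff, neg_sub, sub_eq_neg_add]

lemma h90_num (hc : 0 < c) {x y P : ℝ} (hP : 0 ≤ P) (m : ℕ) (h : x * c ≤ y) :
    x / c ^ m * P ≤ y / c ^ (m + 1) * P := by
  refine mul_le_mul_of_nonneg_right ?_ hP
  rw [div_le_div_iff₀ (pow_pos hc _) (pow_pos hc _), pow_succ]
  have h1 := mul_le_mul_of_nonneg_left h (pow_pos hc m).le
  linarith only [h1]

lemma h90_ind {Γ : (ν → ZMod 2) → Submodule (ZMod 2) (GX X ν)} (hκ : 0 ≤ κ)
    (hΓ : ∀ d, St c θ (Γ d)) (Γs : Submodule (ZMod 2) (GX X ν)) (d : ν → ZMod 2) :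
    (Nat.card ↥(Γ d ⊓ Γs) : ℝ) ≤
      (κ + ind {d | κ * pn ν X < Nat.card ↥(Γ d ⊓ Γs)} d / c) * pn ν X := by
  have hp : 0 < pn ν X := pn_pos
  by_cases h : κ * pn ν X < Nat.card ↥(Γ d ⊓ Γs)
  · rw [ind_of_mem (by exact h), add_mul, one_div_mul_eq_div]
    exact ((kB_mono inf_le_left).trans (hΓ d).2.1).trans (le_add_of_nonneg_left (by positivity))
  · rw [ind_of_not (by exact h), zero_div, add_zero]
    exact not_lt.1 h

/-- `STR`. Left case: pointwise `cnt_le`, `St.2.2`, `kb_PI` with `T = 1 / c` (`St.kb`).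
Right case `Rel E S k h`:
(a) some `h j ≠ 0` is not injective: pointwise `card_sing` and `REL1`;
(b) some `h j ≠ 0` is injective and `δ j ≠ δ k`: then `Fr` holds; pointwise by `REL1`
`cnt ≤ (κ + ind {κ pn < |Γ d₁ ⊓ comap (Γ d₂)|} / c) / c ^ |I| * pn E` with `d₁ = d + U δ j`,
`d₂ = d + U δ k`; `av_pair`, and `Fr` for `Γs = (Γ d₂).comap (gm ν (h j))` (`card_comap_inj`);
(c) every `j` with `h j ≠ 0` has `δ j = δ k`, so `s j ≠ s k` (`j ∈ S`, `k ∉ S`): `REL2`, `co_sg`,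
`av_shift (δ k)`, `avg_rq`. -/
theorem H3E (hc : 0 < c) (hc1 : c ≤ 1) (hθ : 0 ≤ θ) (hθ1 : θ ≤ 1) (hβ : 0 ≤ β) (hκ : 0 ≤ κ)
    {Γ : (ν → ZMod 2) → Submodule (ZMod 2) (GX X ν)} (hΓ : ∀ d, St c θ (Γ d) ∧ Far θ (Γ d))
    {ξ : X} (hξ : ξ ≠ 0) (δ : I → J → ZMod 2) (s : I → J)
    (hi : ∀ i j, δ i = δ j → s i = s j → i = j) (hF : (∀ i, δ i = 0) ∨ Fr c β κ Γ)
    {E : Submodule (ZMod 2) (I → X)} (hE : E ≠ ⊤) :
    𝔼 d, 𝔼 U : Matrix ν J (ZMod 2), cnt (fun i => Γ (d + U *ᵥ δ i)) (sg U (ep s ξ)) E ≤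
      (θ + κ + β) / c ^ (Fintype.card I + 1) * pn ν E := by
  have hp : 0 < pn ν X := pn_pos
  have hP : 0 < pn ν E := pn_pos
  have hup : ∀ (d : ν → ZMod 2) (U : Matrix ν J (ZMod 2)) (i : I),
      (Nat.card (Γ (d + U *ᵥ δ i)) : ℝ) ≤ pn ν X / c := fun d U i => (hΓ _).1.2.1
  have hθc : θ * c ≤ θ + κ + β := by nlinarith only [hθ, hκ, hβ, hc1]
  rcases STR (ν := ν) hE with ⟨D, j, E₁, a1, a2, a3, a4⟩ | ⟨S, k, h, hR⟩
  · refine expect_le univ_nonempty fun d _ => expect_le univ_nonempty fun U _ => ?_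
    refine (cnt_le _ _).trans (le_trans ?_ (h90_num hc hP.le _ hθc))
    have b1 := (hΓ (d + U *ᵥ δ j)).1.2.2 D a1 a2
    have b2 := kb_PI (Γ := fun i => Γ (d + U *ᵥ δ i)) (T := 1 / c) (one_le_one_div hc hc1)
      (fun i D' => by rw [one_div_mul_eq_div]; exact (hΓ _).1.kb hc hc1 hθ1 D') E₁
    have b3 : pn ν E = pn ν D * pn ν E₁ := by
      simp only [pn, a3, Nat.cast_mul, mul_pow]
    have b4 : (Nat.card ↥(PI (fun i => Γ (d + U *ᵥ δ i)) ⊓ pw ν E) : ℝ) ≤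
        Nat.card ↥(Γ (d + U *ᵥ δ j) ⊓ pw ν D) *
          Nat.card ↥(PI (fun i => Γ (d + U *ᵥ δ i)) ⊓ pw ν E₁) := by
      exact_mod_cast a4 fun i => Γ (d + U *ᵥ δ i)
    refine b4.trans ((mul_le_mul b1 b2 (Nat.cast_nonneg _)
      (mul_nonneg hθ pn_pos.le)).trans (le_of_eq ?_))
    rw [b3, one_div, inv_pow]
    ring
  have hS : ∀ j, h j ≠ 0 → j ∈ S := fun j hj => not_not.1 fun n => hj (hR.2.1 j n)
  by_cases ha : ∃ j, h j ≠ 0 ∧ ¬ Function.Injective (h j)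
  · obtain ⟨j, a1, a2⟩ := ha
    refine expect_le univ_nonempty fun d _ => expect_le univ_nonempty fun U _ => ?_
    refine (REL1 hR hc hc1 (hup d U) (hS j a1) (by positivity)
      (card_sing (hΓ _).1 (hΓ _).1 hc hc1 hθ hθ1 a1 a2) _).trans (h90_num hc hP.le _ ?_)
    rw [div_mul_cancel₀ _ hc.ne']
    linarith only [hκ, hβ]
  have hn : ∀ j, h j ≠ 0 → Function.Injective (h j) := fun j hj => not_not.1 fun n => ha ⟨j, hj, n⟩
  by_cases hb : ∃ j, h j ≠ 0 ∧ δ j ≠ δ k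
  · obtain ⟨j, a1, a2⟩ := hb
    have hFr : Fr c β κ Γ := hF.resolve_left fun n => a2 ((n j).trans (n k).symm)
    let Φ : (ν → ZMod 2) → (ν → ZMod 2) → ℝ := fun d₁ d₂ =>
      (κ + ind {d | κ * pn ν X < Nat.card ↥(Γ d ⊓ (Γ d₂).comap (gm ν (h j)))} d₁ / c) /
        c ^ Fintype.card I * pn ν E
    refine le_trans (expect_le_expect fun d _ => expect_le_expect fun U _ =>
      (?_ : _ ≤ Φ (d + U *ᵥ δ j) (d + U *ᵥ δ k))) ?_
    · exact REL1 hR hc hc1 (hup d U) (hS j a1)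
        (add_nonneg hκ (div_nonneg (ind_nonneg _ _) hc.le))
        (h90_ind hκ (fun d => (hΓ d).1) _ _) _
    · rw [av_pair a2 Φ, expect_comm]
      refine expect_le univ_nonempty fun d₂ _ => ?_
      have a3 := hFr ((Γ d₂).comap (gm ν (h j)))
        (by rw [card_comap_inj (hn j a1)]; exact (hΓ d₂).1.2.1)
      simp only [Φ]
      rw [← expect_mul, ← expect_div, expect_add_distrib, Fintype.expect_const, ← expect_div]
      refine h90_num hc hP.le _ ?_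
      change (κ + dens _ / c) * c ≤ _
      rw [add_mul, div_mul_cancel₀ _ hc.ne']
      nlinarith only [hκ, hθ, a3, hc1]
  have hz : ∀ j, h j ≠ 0 → δ j = δ k := fun j hj => not_not.1 fun n => hb ⟨j, hj, n⟩
  refine le_trans (expect_le_expect fun d _ => expect_le_expect fun U _ =>
    REL2 hR hc hc1 (hup d U) (fun j hj => by rw [hz j hj]) _) ?_
  simp only [co_sg]
  rw [av_shift (δ k) fun d (U : Matrix ν J (ZMod 2)) => 1 / c ^ Fintype.card I * pn ν E *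
    rq (Γ d) (fun j => ux (fun a => U a (s j)) ξ) k h]
  refine expect_le univ_nonempty fun d _ => ?_
  rw [← mul_expect]
  have a2 := avg_rq (hΓ d).1 (hΓ d).2 hθ hξ s k h fun j hj e =>
    hR.1 (hi j k (hz j hj) e ▸ hS j hj)
  refine (mul_le_mul_of_nonneg_left a2 (by positivity)).trans
    (le_trans (le_of_eq ?_) (h90_num hc hP.le _ hθc))
  ring

/-- sum over `E`; there are at most `2 ^ |I → X|` subspaces -/
theorem H3 (hc : 0 < c) (hc1 : c ≤ 1) (hθ : 0 ≤ θ) (hθ1 : θ ≤ 1) (hβ : 0 ≤ β) (hκ : 0 ≤ κ)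
    {Γ : (ν → ZMod 2) → Submodule (ZMod 2) (GX X ν)} (hΓ : ∀ d, St c θ (Γ d) ∧ Far θ (Γ d))
    {ξ : X} (hξ : ξ ≠ 0) (δ : I → J → ZMod 2) (s : I → J)
    (hi : ∀ i j, δ i = δ j → s i = s j → i = j) (hF : (∀ i, δ i = 0) ∨ Fr c β κ Γ) :
    𝔼 d, 𝔼 U : Matrix ν J (ZMod 2), dcn (fun i => Γ (d + U *ᵥ δ i)) (sg U (ep s ξ)) ≤
      2 ^ Fintype.card (I → X) * ((θ + κ + β) / c ^ (Fintype.card I + 1)) := by
  classical
  unfold dcn
  simp only [Finset.expect_sum_comm, ← Finset.expect_div]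
  refine (sum_le_card_nsmul _ _ ((θ + κ + β) / c ^ (Fintype.card I + 1)) fun E hE => ?_).trans ?_
  · rw [div_le_iff₀ pn_pos]
    exact H3E hc hc1 hθ hθ1 hβ hκ hΓ hξ δ s hi hF (mem_filter.1 hE).2
  · rw [nsmul_eq_mul]
    refine mul_le_mul_of_nonneg_right ?_ (by positivity)
    have h1 := (card_le_univ (univ.filter fun E : Submodule (ZMod 2) (I → X) => E ≠ ⊤)).trans
      (Fintype.card_le_of_injective _ SetLike.coe_injective)
    rw [Fintype.card_set] at h1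
    exact_mod_cast h1

/-- transport along `LinearEquiv.sumArrowLequivProdArrow`: `E ↦ E.comap e` is a bijection of the
proper subspaces keeping `Nat.card`, and `q ↦ gm ν e.symm (pr q.1 q.2)` is injective -/
lemma dgn_le {W W' : Finset (GX (I → X) ν)} {Γ : I ⊕ I → Submodule (ZMod 2) (GX X ν)}
    {a : GX (I ⊕ I → X) ν}
    (hW : ∀ x ∈ W, ∀ i, co i x - co (Sum.inl i) a ∈ Γ (Sum.inl i))
    (hW' : ∀ x ∈ W', ∀ i, co i x - co (Sum.inr i) a ∈ Γ (Sum.inr i)) :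
    dgn W W' ≤ dcn Γ a := by
  classical
  let e := LinearEquiv.sumArrowLequivProdArrow I I (ZMod 2) X
  let j : GX (I → X) ν × GX (I → X) ν → GX (I ⊕ I → X) ν := fun q =>
    (fun r => Sum.elim (q.1.1 r) (q.2.1 r), fun r => Sum.elim (q.1.2 r) (q.2.2 r))
  have jinj : Function.Injective j := fun q q' h => by
    refine Prod.ext (Prod.ext ?_ ?_) (Prod.ext ?_ ?_) <;> funext r i
    · exact congrFun (congrFun (congrArg Prod.fst h) r) (Sum.inl i)
    · exact congrFun (congrFun (congrArg Prod.snd h) r) (Sum.inl i)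
    · exact congrFun (congrFun (congrArg Prod.fst h) r) (Sum.inr i)
    · exact congrFun (congrFun (congrArg Prod.snd h) r) (Sum.inr i)
  have cinj : Function.Injective fun E : Submodule (ZMod 2) ((I → X) × (I → X)) =>
      E.comap e.toLinearMap := Submodule.comap_injective_of_surjective e.surjective
  have hc : ∀ E : Submodule (ZMod 2) ((I → X) × (I → X)),
      pn ν (E.comap e.toLinearMap) = pn ν E := fun E => by
    unfold pn
    rw [Nat.card_congr (e.toEquiv.subtypeEquiv (p := fun x => x ∈ E.comap e.toLinearMap)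
      (q := fun x => x ∈ E) fun _ => Iff.rfl)]
  have key : ∀ E : Submodule (ZMod 2) ((I → X) × (I → X)),
      (#((W ×ˢ W').filter fun q => pr q.1 q.2 ∈ pw ν E) : ℝ) ≤
        cnt Γ a (E.comap e.toLinearMap) := fun E => by
    unfold cnt
    rw [← Nat.card_eq_finsetCard, Nat.cast_le]
    refine Nat.card_le_card_of_injective (fun q => ⟨j q.1, ?_, ?_⟩)
      fun q q' h => Subtype.ext (jinj (congrArg Subtype.val h))
    · obtain ⟨h1, h2⟩ := mem_product.1 (mem_filter.1 q.2).1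
      refine mem_PI.2 fun i => ?_
      rw [map_sub]
      rcases i with i | i
      · exact hW _ h1 i
      · exact hW' _ h2 i
    · obtain ⟨h1, h2⟩ := mem_pw.1 (mem_filter.1 q.2).2
      exact mem_pw.2 ⟨fun r => h1 r, fun r => h2 r⟩
  unfold dgn dcn
  calc _ ≤ ∑ E ∈ univ.filter fun E : Submodule (ZMod 2) ((I → X) × (I → X)) => E ≠ ⊤,
        cnt Γ a (E.comap e.toLinearMap) / pn ν (E.comap e.toLinearMap) :=
        sum_le_sum fun E _ => by
          rw [hc]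
          exact div_le_div_of_nonneg_right (key E) pn_pos.le
    _ = ∑ E ∈ (univ.filter fun E : Submodule (ZMod 2) ((I → X) × (I → X)) => E ≠ ⊤).image
          fun E => E.comap e.toLinearMap, cnt Γ a E / pn ν E :=
        (sum_image (f := fun E => cnt Γ a E / pn ν E) cinj.injOn).symm
    _ ≤ _ := by
        refine sum_le_sum_of_subset_of_nonneg (fun E hE => ?_) fun E _ _ =>
          div_nonneg (cnt_nonneg _ _) pn_pos.le
        obtain ⟨E', h', rfl⟩ := mem_image.1 hE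
        refine mem_filter.2 ⟨mem_univ _, fun k => (mem_filter.1 h').2 (cinj ?_)⟩
        simp only [k, Submodule.comap_top]

/-- `H3` on `I ⊕ I`, `J ⊕ J` with `δ' (inl i) = Sum.elim (δ i) 0`, `δ' (inr i) = Sum.elim 0 (δ i)`,
`s' = Sum.map s s`; `dgn_le`, `co_sg`, `mem_PI`, `av_cols`, `fromCols_mulVec_sumElim` -/
theorem H3W (hc : 0 < c) (hc1 : c ≤ 1) (hθ : 0 ≤ θ) (hθ1 : θ ≤ 1) (hβ : 0 ≤ β) (hκ : 0 ≤ κ)
    {Γ : (ν → ZMod 2) → Submodule (ZMod 2) (GX X ν)} (hΓ : ∀ d, St c θ (Γ d) ∧ Far θ (Γ d))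
    {ξ : X} (hξ : ξ ≠ 0) (δ : I → J → ZMod 2) (s : I → J)
    (hi : ∀ i j, δ i = δ j → s i = s j → i = j) (hF : (∀ i, δ i = 0) ∨ Fr c β κ Γ)
    (W : (ν → ZMod 2) → Matrix ν J (ZMod 2) → Finset (GX (I → X) ν))
    (hW : ∀ d U, ∀ x ∈ W d U, x - sg U (ep s ξ) ∈ PI fun i => Γ (d + U *ᵥ δ i)) :
    𝔼 d, 𝔼 U, 𝔼 U', dgn (W d U) (W d U') ≤
      2 ^ (Fintype.card (I → X) ^ 2) * ((θ + κ + β) / c ^ (2 * Fintype.card I + 1)) := by
  let δ' : I ⊕ I → J ⊕ J → ZMod 2 :=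
    Sum.elim (fun i => Sum.elim (δ i) 0) fun i => Sum.elim 0 (δ i)
  have h1 := H3 hc hc1 hθ hθ1 hβ hκ hΓ hξ δ' (Sum.map s s) (by
    rintro (i | i) (j | j) a b
    · rw [hi i j (funext fun t => congrFun a (Sum.inl t)) (Sum.inl.inj b)]
    · exact absurd b Sum.inl_ne_inr
    · exact absurd b Sum.inr_ne_inl
    · rw [hi i j (funext fun t => congrFun a (Sum.inr t)) (Sum.inr.inj b)]) (hF.imp_left fun a => by
    rintro (i | i) <;> funext t <;> rcases t with t | t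
    · exact congrFun (a i) t
    · rfl
    · rfl
    · exact congrFun (a i) t)
  have e1 : Fintype.card (I ⊕ I → X) = Fintype.card (I → X) ^ 2 := by
    rw [Fintype.card_fun, Fintype.card_fun, Fintype.card_sum, pow_add, sq]
  rw [e1, Fintype.card_sum, ← two_mul] at h1
  refine le_trans (Finset.expect_le_expect fun d _ => ?_) h1
  rw [← av_cols]
  refine Finset.expect_le_expect fun U _ => Finset.expect_le_expect fun U' _ =>
    dgn_le (fun x hx i => ?_) fun x hx i => ?_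
  · have a := mem_PI.1 (hW d U x hx) i
    rw [map_sub, co_sg] at a
    rw [co_sg]
    show _ ∈ Γ (d + fromCols U U' *ᵥ Sum.elim (δ i) 0)
    rw [fromCols_mulVec_sumElim, mulVec_zero, add_zero]
    exact a
  · have a := mem_PI.1 (hW d U' x hx) i
    rw [map_sub, co_sg] at a
    rw [co_sg]
    show _ ∈ Γ (d + fromCols U U' *ᵥ Sum.elim 0 (δ i))
    rw [fromCols_mulVec_sumElim, mulVec_zero, zero_add]
    exact a

end Pool.Agent.Work.MP_4523ee_co.F2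
end

-- merged part: Pool.Agent.Work.MP_4523ee_co.F2.AlG
section
/-!
Cross forms between two families of witnesses are unbiased.
Paper: /team-store/h90_4523ee_CWU.md (one direction version, see the proof hints below).
-/

set_option autoImplicit false
set_option linter.unusedSectionVars false

namespace Pool.Agent.Work.MP_4523ee_co.F2

open Finset hiding dens
open Matrix Fp
open scoped BigOperators ComplexConjugate

variable {ν : Type} [Fintype ν] [DecidableEq ν]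
variable {X : Type} [AddCommGroup X] [Module (ZMod 2) X] [Fintype X]
variable {Y : Type} [AddCommGroup Y] [Module (ZMod 2) Y] [Fintype Y]
variable {I J : Type} [Fintype I] [DecidableEq I] [Fintype J] [DecidableEq J]

variable {c θ β κ : ℝ}

lemma ga_sy_add (b : Bil 2 X) (x x' y : GX X ν) : sy b (x + x') y = sy b x y + sy b x' y := by
  simp only [sy, Prod.fst_add, Prod.snd_add, bt_add_left]
  ring

lemma ga_sy_zero (x y : GX X ν) : sy (0 : Bil 2 X) x y = 0 := by simp [sy, bt]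

/-- `av_col (s i₀)`: after refreshing column `s i₀` only the term `i₀` depends on `u`;
`sy_add_left`, swap the averages, `fresh2` -/
lemma avg_rq4 {G G₁ G₃ : Submodule (ZMod 2) (GX X ν)} (h₃ : St c θ G₃) (hF : Far θ G₃)
    (hθ : 0 ≤ θ) (h13 : G₁ ≤ G₃) {c' : ℝ} (hc' : 0 < c') (h1 : c' * pn ν X ≤ Nat.card G₁)
    {ξ : X} (s : I → J) (b : I → Bil 2 X) (i₀ : I) (hb : b i₀ ξ ≠ 0)
    (hs : ∀ i, i ≠ i₀ → b i ≠ 0 → s i ≠ s i₀) :
    𝔼 U : Matrix ν J (ZMod 2), rq4 G (fun i => ux (fun a => U a (s i)) ξ) b G₁ ≤ θ / c' := by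
  rw [av_col (s i₀)]
  refine Finset.expect_le Finset.univ_nonempty fun U _ => ?_
  unfold rq4 dens
  rw [Finset.expect_comm]
  refine Finset.expect_le Finset.univ_nonempty fun τ _ => ?_
  refine le_trans ?_ (fresh2 h₃ hF hθ h13 hc' h1 hb fun τ' =>
    -(sy (b i₀) (τ i₀).1 τ' + ∑ i ∈ univ.erase i₀,
      sy (b i) ((τ i).1 + ux (fun a => U a (s i)) ξ) τ'))
  refine Finset.expect_le_expect fun u _ => ?_
  by_cases hu : τ ∈ {τ : I → G | ∀ τ' ∈ G₁, ∑ i, sy (b i)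
      ((τ i).1 + ux (fun a => U.updateCol (s i₀) u a (s i)) ξ) τ' = 0}
  · rw [ind_of_mem hu, ind_of_mem]
    intro τ' hτ'
    have e := hu τ' hτ'
    rw [← Finset.add_sum_erase _ _ (Finset.mem_univ i₀), ga_sy_add] at e
    have e1 : (fun a => U.updateCol (s i₀) u a (s i₀)) = u := funext fun a => by simp
    have e2 : ∑ i ∈ univ.erase i₀, sy (b i)
        ((τ i).1 + ux (fun a => U.updateCol (s i₀) u a (s i)) ξ) τ' =
        ∑ i ∈ univ.erase i₀, sy (b i) ((τ i).1 + ux (fun a => U a (s i)) ξ) τ' := by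
      refine Finset.sum_congr rfl fun i hi => ?_
      by_cases hbi : b i = 0
      · rw [hbi, ga_sy_zero, ga_sy_zero]
      · have hne := hs i (Finset.ne_of_mem_erase hi) hbi
        have e3 : (fun a => U.updateCol (s i₀) u a (s i)) = fun a => U a (s i) :=
          funext fun a => updateCol_ne hne
        rw [e3]
    rw [e1, e2] at e
    linear_combination e
  · rw [ind_of_not hu]
    exact ind_nonneg _ _

lemma algB_num (hc : 0 < c) {C x y P : ℝ} (hC : 0 ≤ C) (hP : 0 ≤ P) (m : ℕ)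
    (h : x * c ^ 2 ≤ y) : C * x / c ^ m * P ≤ C * y / c ^ (m + 2) * P := by
  refine mul_le_mul_of_nonneg_right ?_ hP
  rw [div_le_div_iff₀ (pow_pos hc _) (pow_pos hc _), pow_add]
  have h1 := mul_le_mul_of_nonneg_left h (mul_nonneg hC (pow_pos hc m).le)
  linarith only [h1]

lemma algB_ann {Γ : Submodule (ZMod 2) (GX X ν)} (hc : 0 < c) (h : St c θ Γ) {b : Bil 2 X}
    (hb : NdB b) : (Nat.card (ann b Γ) : ℝ) ≤ pn ν X / c := by
  have hp : 0 < pn ν X := pn_pos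
  have h1 := card_ann_nd hb Γ
  have h2 := mul_le_mul_of_nonneg_left h.1 (Nat.cast_nonneg (α := ℝ) (Nat.card (ann b Γ)))
  rw [le_div_iff₀ hc]
  refine le_of_mul_le_mul_right ?_ hp
  linarith only [h1, h2]

lemma algB_ind {Γ : (ν → ZMod 2) → Submodule (ZMod 2) (GX X ν)} (hκ : 0 ≤ κ)
    (hΓ : ∀ d, St c θ (Γ d)) (Γs : Submodule (ZMod 2) (GX X ν)) (d : ν → ZMod 2) :
    (Nat.card ↥(Γ d ⊓ Γs) : ℝ) ≤
      (κ + ind {d | κ * pn ν X < Nat.card ↥(Γ d ⊓ Γs)} d / c) * pn ν X := by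
  have hp : 0 < pn ν X := pn_pos
  by_cases h : κ * pn ν X < Nat.card ↥(Γ d ⊓ Γs)
  · rw [ind_of_mem (by exact h), add_mul, one_div_mul_eq_div]
    exact ((kB_mono inf_le_left).trans (hΓ d).2.1).trans (le_add_of_nonneg_left (by positivity))
  · rw [ind_of_not (by exact h), zero_div, add_zero]
    exact not_lt.1 h

/-- Put `G₁ = sl (G0 d U') j ≤ Γ (d + U' δ j)` (`sl_le`), of index at most `C` (`sl_index`), so
`c / C * pn ≤ |G₁|`. Some block is nonzero (`exists_blk`).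
(a) some nonzero block `(i, j)` is degenerate: pointwise `ann_sing` and `Q41`;
(b) some nonzero block `(i, j)` is nondegenerate with `δ i ≠ 0`: then `Fr` holds; pointwise by
`Q41`, `ann_index`: `q4 ≤ (C κ + ind {κ pn < |Γ d₁ ⊓ ann (blk b i j) (Γ d₂)|} / c) / c ^ |I| * pn`
with `d₁ = d + U δ i`, `d₂ = d + U' δ j`; `av_pair'`, `Fr` for `Γs = ann (blk b i j) (Γ d₂)`
(`card_ann_nd`);
(c) every nonzero block `(i, j)` is nondegenerate with `δ i = 0`: fix one `(i₀, j)`, `Q42` with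
`G = Γ d`, `co_sg`, swap `U` and `U'`, `avg_rq4` with `c' = c / C`. -/
theorem H4 (hc : 0 < c) (hc1 : c ≤ 1) (hθ : 0 ≤ θ) (hθ1 : θ ≤ 1) (hβ : 0 ≤ β) (hκ : 0 ≤ κ)
    {Γ : (ν → ZMod 2) → Submodule (ZMod 2) (GX X ν)} (hΓ : ∀ d, St c θ (Γ d) ∧ Far θ (Γ d))
    {ξ : X} (hξ : ξ ≠ 0) (δ : I → J → ZMod 2) (s : I → J)
    (hi : ∀ i j, δ i = δ j → s i = s j → i = j) (hF : (∀ i, δ i = 0) ∨ Fr c β κ Γ)
    {b : Bil 2 (I → X)} (hb : b ≠ 0)
    (G0 : (ν → ZMod 2) → Matrix ν J (ZMod 2) → Submodule (ZMod 2) (GX (I → X) ν)) {C : ℝ}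
    (hC : 1 ≤ C) (h0 : ∀ d U, G0 d U ≤ PI fun i => Γ (d + U *ᵥ δ i))
    (h1 : ∀ d U, (Nat.card (PI fun i => Γ (d + U *ᵥ δ i)) : ℝ) ≤ C * Nat.card (G0 d U)) :
    𝔼 d, 𝔼 U : Matrix ν J (ZMod 2), 𝔼 U',
      q4 (fun i => Γ (d + U *ᵥ δ i)) (sg U (ep s ξ)) b (G0 d U') ≤
      C * (θ + κ + β) / c ^ (Fintype.card I + 2) * pn ν (I → X) := by
  have hp : 0 < pn ν X := pn_pos
  have hP : 0 < pn ν (I → X) := pn_pos
  have hC0 : 0 < C := zero_lt_one.trans_le hC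
  have hc' : 0 < c / C := div_pos hc hC0
  have hc2 : c ^ 2 ≤ c := by nlinarith only [hc, hc1]
  have hle : ∀ d U j, sl (G0 d U) j ≤ Γ (d + U *ᵥ δ j) := fun d U j => sl_le (h0 d U) j
  have hix : ∀ d U j, (Nat.card (Γ (d + U *ᵥ δ j)) : ℝ) ≤ C * Nat.card (sl (G0 d U) j) :=
    fun d U j => sl_index (h0 d U) (h1 d U) j
  have hsz : ∀ d U j, c / C * pn ν X ≤ Nat.card (sl (G0 d U) j) := fun d U j => by
    rw [div_mul_eq_mul_div, div_le_iff₀ hC0, mul_comm _ C]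
    exact (hΓ _).1.1.trans (hix d U j)
  have hup : ∀ (d : ν → ZMod 2) (U : Matrix ν J (ZMod 2)) (i : I),
      (Nat.card (Γ (d + U *ᵥ δ i)) : ℝ) ≤ pn ν X / c := fun d U i => (hΓ _).1.2.1
  by_cases ha : ∃ i j, blk b i j ≠ 0 ∧ ¬ NdB (blk b i j)
  · obtain ⟨i, j, a1, a2⟩ := ha
    refine expect_le univ_nonempty fun d _ => expect_le univ_nonempty fun U _ =>
      expect_le univ_nonempty fun U' _ => ?_
    refine (Q41 hc hc1 (hup d U) _ b (G0 d U') i j (by positivity)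
      (ann_sing (hΓ _).1 (hΓ _).1 hc hc1 hθ hθ1 (hle d U' j) hc' (hsz d U' j) a1 a2)).trans ?_
    have e : θ / (c * (c / C)) = C * (θ / c ^ 2) := by field_simp
    rw [e]
    refine algB_num hc hC0.le hP.le _ ?_
    rw [div_mul_cancel₀ _ (pow_pos hc 2).ne']
    linarith only [hκ, hβ]
  have hn : ∀ i j, blk b i j ≠ 0 → NdB (blk b i j) := fun i j h =>
    not_not.1 fun k => ha ⟨i, j, h, k⟩
  by_cases hb' : ∃ i j, blk b i j ≠ 0 ∧ δ i ≠ 0
  · obtain ⟨i, j, a1, a2⟩ := hb'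
    have hFr : Fr c β κ Γ := hF.resolve_left fun k => a2 (k i)
    let Φ : (ν → ZMod 2) → (ν → ZMod 2) → ℝ := fun d₁ d₂ =>
      C * (κ + ind {d | κ * pn ν X < Nat.card ↥(Γ d ⊓ ann (blk b i j) (Γ d₂))} d₁ / c) /
        c ^ Fintype.card I * pn ν (I → X)
    refine le_trans (expect_le_expect fun d _ => expect_le_expect fun U _ =>
      expect_le_expect fun U' _ => (?_ : _ ≤ Φ (d + U *ᵥ δ i) (d + U' *ᵥ δ j))) ?_
    · refine Q41 hc hc1 (hup d U) _ b (G0 d U') i j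
        (mul_nonneg hC0.le (add_nonneg hκ (div_nonneg (ind_nonneg _ _) hc.le))) ?_
      rw [mul_assoc]
      exact (ann_index (hn i j a1) (hle d U' j) (hix d U' j)).trans (mul_le_mul_of_nonneg_left
        (algB_ind hκ (fun d => (hΓ d).1) _ _) hC0.le)
    · rw [av_pair' a2 (δ j) Φ, expect_comm]
      refine expect_le univ_nonempty fun d₂ _ => ?_
      have a3 := hFr _ (algB_ann hc (hΓ d₂).1 (hn i j a1))
      simp only [Φ]
      rw [← expect_mul, ← expect_div, ← mul_expect, expect_add_distrib, Fintype.expect_const,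
        ← expect_div]
      refine algB_num hc hC0.le hP.le _ ?_
      have a4 : 0 ≤ dens {d | κ * pn ν X < Nat.card ↥(Γ d ⊓ ann (blk b i j) (Γ d₂))} :=
        dens_nonneg _
      change (κ + dens _ / c) * c ^ 2 ≤ _
      generalize dens {d | κ * pn ν X < Nat.card ↥(Γ d ⊓ ann (blk b i j) (Γ d₂))} = x at a3 a4
      have e : (κ + x / c) * c ^ 2 = κ * c ^ 2 + x * c := by field_simp
      rw [e]
      nlinarith only [hκ, hθ, a3, a4, hc, hc1, hc2]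
  have hz : ∀ i j, blk b i j ≠ 0 → δ i = 0 := fun i j h => not_not.1 fun k => hb' ⟨i, j, h, k⟩
  obtain ⟨i₀, j, a1⟩ := exists_blk hb
  refine expect_le univ_nonempty fun d _ => ?_
  rw [expect_comm]
  refine expect_le univ_nonempty fun U' _ => ?_
  refine le_trans (expect_le_expect fun U _ => Q42 hc hc1 (hup d U) _ b (G0 d U') j (Γ d)
    fun i h => by rw [hz i j h, mulVec_zero, add_zero]) ?_
  simp only [co_sg]
  rw [← mul_expect]
  have a2 := avg_rq4 (G := Γ d) (hΓ _).1 (hΓ _).2 hθ (hle d U' j) hc' (hsz d U' j) (ξ := ξ) s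
    (fun i => blk b i j) i₀ (fun k => hξ (hn i₀ j a1 ξ fun y => LinearMap.congr_fun k y))
    fun i h k e => h (hi i i₀ ((hz i j k).trans (hz i₀ j a1).symm) e)
  refine (mul_le_mul_of_nonneg_left a2 (by positivity)).trans ?_
  have e : 1 / c ^ Fintype.card I * pn ν (I → X) * (θ / (c / C)) =
      C * (θ / c) / c ^ Fintype.card I * pn ν (I → X) := by field_simp
  rw [e]
  refine algB_num hc hC0.le hP.le _ ?_
  have e2 : θ / c * c ^ 2 = θ * c := by field_simp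
  rw [e2]
  nlinarith only [hκ, hβ, hθ, hc1]

lemma ga_norm {α : Type} (s : Finset α) (f : α → ℂ) : ‖𝔼 x ∈ s, f x‖ ≤ 𝔼 x ∈ s, ‖f x‖ := by
  rw [Finset.expect_eq_sum_div_card, Finset.expect_eq_sum_div_card, norm_div, Complex.norm_natCast]
  exact div_le_div_of_nonneg_right (norm_sum_le _ _) (Nat.cast_nonneg _)

/-- the functional `sy b x` -/
def gaL (b : Bil 2 Y) (x : GX Y ν) : Module.Dual (ZMod 2) (GX Y ν) where
  toFun := sy b x
  map_add' y y' := by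
    simp only [sy, Prod.fst_add, Prod.snd_add, bt_add_right]
    ring
  map_smul' t y := by
    simp only [sy, Prod.smul_fst, Prod.smul_snd, bt_smul_right, RingHom.id_apply, smul_eq_mul]
    ring

/-- for `x ∈ W` not in `ann b G0` the inner average is at most `η` (`ℓ = syL b ν x`, or build the
functional by hand); otherwise it is at most `1` -/
lemma crs_le {W W' : Finset (GX (I → X) ν)} {Γ : I → Submodule (ZMod 2) (GX X ν)}
    {a : GX (I → X) ν} (hW : ∀ x ∈ W, x - a ∈ PI Γ) {c₂ : ℝ} (hc : 0 < c₂)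
    (hWc : W = ∅ ∨ c₂ * pn ν (I → X) ≤ #W) {G0 : Submodule (ZMod 2) (GX (I → X) ν)} {η : ℝ}
    (hη : 0 ≤ η) (hG : ∀ ℓ : Module.Dual (ZMod 2) (GX (I → X) ν), (∃ τ ∈ G0, ℓ τ ≠ 0) →
      ‖𝔼 x ∈ W', ee (ℓ x)‖ ≤ η) (b : Bil 2 (I → X)) :
    crs b W W' ≤ η + q4 Γ a b G0 / (c₂ * pn ν (I → X)) := by
  classical
  have hp : 0 < c₂ * pn ν (I → X) := mul_pos hc pn_pos
  have hq : 0 ≤ q4 Γ a b G0 := Nat.cast_nonneg _
  unfold crs
  rcases W.eq_empty_or_nonempty with h0 | hne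
  · rw [h0, Finset.expect_empty, norm_zero]
    exact add_nonneg hη (div_nonneg hq hp.le)
  have hWc' : c₂ * pn ν (I → X) ≤ #W := hWc.resolve_left hne.ne_empty
  have hin : ∀ x ∈ W, ‖𝔼 x' ∈ W', ee (sy b x x')‖ ≤ η + if x ∈ ann b G0 then 1 else 0 := by
    intro x _
    split_ifs with hx
    · refine (ga_norm _ _).trans ?_
      rcases W'.eq_empty_or_nonempty with h1 | h1
      · rw [h1, Finset.expect_empty]
        linarith
      · refine Finset.expect_le h1 fun y _ => ?_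
        rw [norm_ee]
        linarith
    · rw [add_zero]
      refine hG (gaL b x) ?_
      by_contra hn
      exact hx fun τ hτ => by_contra fun e => hn ⟨τ, hτ, e⟩
  have hcard : (#(W.filter fun x => x ∈ ann b G0) : ℝ) ≤ q4 Γ a b G0 := by
    unfold q4
    rw [Nat.cast_le, ← Nat.card_eq_finsetCard]
    refine Nat.card_le_card_of_injective
      (fun x => ⟨x.1, hW _ (Finset.mem_filter.1 x.2).1, (Finset.mem_filter.1 x.2).2⟩) ?_
    intro x y e
    exact Subtype.ext (Subtype.mk.inj e)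
  refine (ga_norm _ _).trans ((Finset.expect_le_expect hin).trans ?_)
  rw [Finset.expect_add_distrib, Finset.expect_const hne, Finset.expect_eq_sum_div_card,
    Finset.sum_boole]
  exact add_le_add le_rfl (div_le_div₀ hq hcard hp hWc')

end Pool.Agent.Work.MP_4523ee_co.F2
end

-- merged part: Pool.Agent.Work.MP_4523ee_co.F2.AlP
section
/-!
Probability of `z = M y` on a fibre.
Paper: /team-store/h90_4523ee_CWU.md (one direction version, see the proof hints below).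
-/

set_option autoImplicit false
set_option linter.unusedSectionVars false

namespace Pool.Agent.Work.MP_4523ee_co.F2

open Finset hiding dens
open Matrix Fp
open scoped BigOperators ComplexConjugate

variable {ν : Type} [Fintype ν] [DecidableEq ν]
variable {X : Type} [AddCommGroup X] [Module (ZMod 2) X] [Fintype X]
variable {Y : Type} [AddCommGroup Y] [Module (ZMod 2) Y] [Fintype Y]
variable {I J : Type} [Fintype I] [DecidableEq I] [Fintype J] [DecidableEq J]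

lemma pf_nonneg (d : ν → ZMod 2) (x : GX Y ν) : 0 ≤ pf d x :=
  mul_nonneg (by positivity) (dens_nonneg _)

lemma alp_act (α : Module.Dual (ZMod 2) Y) (U : Matrix J ν (ZMod 2)) (y : ν → Y) (t : J) :
    α (act U y t) = ∑ i, U t i * α (y i) := by
  simp only [act, map_sum, map_smul, smul_eq_mul]

lemma alp_quad (M : SymM 2 ν) (v : ν → ZMod 2) :
    ∑ i, v i * ∑ j, M.1 i j * v j = ∑ i, dg M i * v i := by
  have h := congrFun (dg_cj (Matrix.of fun (_ : Unit) i => v i) M) ()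
  have e1 : dg (cj (Matrix.of fun (_ : Unit) i => v i) M) () = ∑ i, v i * ∑ j, M.1 i j * v j := by
    show ((Matrix.of fun (_ : Unit) i => v i) * M.1 * (Matrix.of fun (_ : Unit) i => v i)ᵀ) () ()
      = _
    rw [Matrix.mul_assoc]
    simp only [Matrix.mul_apply, transpose_apply, Matrix.of_apply]
  rw [← e1, h]
  simp only [mulVec, dotProduct, Matrix.of_apply, mul_comm]

/-- symmetry of `M`, and `vᵀ M v = diag M ⬝ v` in characteristic two -/
lemma vld_of_eq {M : SymM 2 ν} {x : GX Y ν} (h : x.2 = act M.1 x.1) : Vld (dg M) x := by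
  refine ⟨fun α α' => ?_, fun α => ?_⟩
  · simp only [h, alp_act, Finset.mul_sum]
    rw [Finset.sum_comm]
    refine sum_congr rfl fun i _ => sum_congr rfl fun j _ => ?_
    have hs : M.1 j i = M.1 i j := congrFun (congrFun (SymM_T M) i) j
    rw [hs]
    ring
  · simp only [h, alp_act]
    exact alp_quad M fun i => α (x.1 i)

/-- for every bilinear form (`bt_act` and the symmetry of `M`) -/
lemma sy_of_eq {M : SymM 2 ν} {x x' : GX Y ν} (h : x.2 = act M.1 x.1) (h' : x'.2 = act M.1 x'.1)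
    (b : Bil 2 Y) : sy b x x' = 0 := by
  rw [sy, h, h', bt_act, SymM_T, sub_self]

lemma Vld.shift {d : ν → ZMod 2} {x : GX Y ν} (h : Vld d x) {U : Matrix ν J (ZMod 2)}
    (hU : act Uᵀ x.1 = 0) (t : J → ZMod 2) : Vld (d + U *ᵥ t) x := by
  refine ⟨h.1, fun α => ?_⟩
  have e : ∑ i, (U *ᵥ t) i * α (x.1 i) = 0 := by
    simp only [mulVec, dotProduct, Finset.sum_mul]
    rw [Finset.sum_comm]
    refine sum_eq_zero fun s _ => ?_
    have k := alp_act α Uᵀ x.1 s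
    rw [hU, Pi.zero_apply, map_zero] at k
    have k2 : ∑ i, U i s * t s * α (x.1 i) = t s * ∑ i, Uᵀ s i * α (x.1 i) := by
      rw [Finset.mul_sum]
      exact sum_congr rfl fun i _ => by rw [transpose_apply]; ring
    rw [k2, ← k, mul_zero]
  simp only [Pi.add_apply, add_mul, sum_add_distrib]
  rw [e, add_zero, h.2 α]

lemma Vld.unshift {d : ν → ZMod 2} {x : GX Y ν} {U : Matrix ν J (ZMod 2)} {t : J → ZMod 2}
    (h : Vld (d + U *ᵥ t) x) (hU : act Uᵀ x.1 = 0) : Vld d x := by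
  have k := h.shift hU t
  rwa [add_assoc, hc_add_self, add_zero] at k

/-- the equation `z = M y` is constant on the tile when `Uᵀ y = 0` -/
lemma act_tile {x : GX Y ν} {U : Matrix ν J (ZMod 2)} (hU : act Uᵀ x.1 = 0) (M : SymM 2 ν)
    (N : SymM 2 J) : act (M + cj U N).1 x.1 = act M.1 x.1 := by
  show act (M.1 + U * N.1 * Uᵀ) x.1 = _
  rw [add_act, act_mul, hU, act_zero, add_zero]

lemma pf_fd (d : ν → ZMod 2) (x : GX Y ν) :
    pf d x = Mo.fd (Mo.Dg d) {M | x.2 = act M.1 x.1} := by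
  classical
  have hD : ∀ (v : ν → ZMod 2) (A : Mo.AltM ν), dg (Mo.Dg v + A.1) = v := fun v A => by
    funext i
    show diagonal v i i + A.1.1 i i = v i
    rw [diagonal_apply_eq, A.2 i, add_zero]
  have e : ∀ v : ν → ZMod 2, 𝔼 A : Mo.AltM ν,
      ind {M : SymM 2 ν | dg M = d ∧ x.2 = act M.1 x.1} (Mo.Dg v + A.1) =
      if v = d then Mo.fd (Mo.Dg d) {M | x.2 = act M.1 x.1} else 0 := fun v => by
    split_ifs with h
    · subst h
      refine expect_congr rfl fun A _ => ?_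
      by_cases k : x.2 = act (Mo.Dg v + A.1).1 x.1
      · rw [ind_of_mem (by exact ⟨hD v A, k⟩), ind_of_mem (by exact k)]
      · rw [ind_of_not (fun q => k q.2), ind_of_not (by exact k)]
    · refine (expect_congr rfl fun A _ => ind_of_not fun q => h ?_).trans (Fintype.expect_const 0)
      exact (hD v A).symm.trans q.1
  rw [pf, dens, Mo.expect_fib]
  simp only [e]
  rw [Fintype.expect_eq_sum_div_card, sum_ite_eq', if_pos (mem_univ _), Fintype.card_fun,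
    ZMod.card]
  push_cast
  field_simp

/-- MAIN. Hint: the linear map `L : M ↦ (dg M, act M y)` from `SymM 2 ν` to
`(ν → F) × (ν → Y)`; its range is exactly the set of `(d, z)` with `Vld d (y, z)`, of codimension
`m (m + 1) / 2` (pass to a basis of `Y`; the annihilator of the range consists of the pairs
`(diag (y S yᵀ), y S)` with `S` symmetric `m × m`, because `v yᵀ` symmetric and `y` of rank `m`
force `v = y S`); every point of the range has density `1 / |range|`. -/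
theorem pf_eq {d : ν → ZMod 2} {x : GX Y ν} (hv : Vld d x) (hn : Ndg x) :
    pf d x = pm (Fintype.card ν) (Module.finrank (ZMod 2) Y) := by
  classical
  let b := Module.finBasis (ZMod 2) Y
  let Ym : Matrix ν (Fin (Module.finrank (ZMod 2) Y)) (ZMod 2) :=
    Matrix.of fun i a => b.coord a (x.1 i)
  let Zm : Matrix ν (Fin (Module.finrank (ZMod 2) Y)) (ZMod 2) :=
    Matrix.of fun i a => b.coord a (x.2 i)
  have hY : Inj Ym := by
    refine (injective_iff_map_eq_zero Ym.mulVecLin).2 fun c hc => ?_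
    have h0 := hn (∑ a, c a • b.coord a) fun i => by
      have k := congrFun hc i
      simp only [mulVecLin_apply, mulVec, dotProduct, Ym, Matrix.of_apply, Pi.zero_apply] at k
      simp only [LinearMap.sum_apply, LinearMap.smul_apply, smul_eq_mul]
      rw [← k]
      exact sum_congr rfl fun a _ => mul_comm _ _
    funext a
    have k := LinearMap.congr_fun h0 (b a)
    simpa [LinearMap.sum_apply, Finsupp.single_apply] using k
  have e : {M : SymM 2 ν | x.2 = act M.1 x.1} = {M | M.1 * Ym = Zm} := by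
    ext M
    constructor
    · intro h
      have h' : x.2 = act M.1 x.1 := h
      show M.1 * Ym = Zm
      ext i a
      simp only [Matrix.mul_apply, Ym, Zm, Matrix.of_apply]
      rw [h', alp_act]
    · intro h
      have h' : M.1 * Ym = Zm := h
      show x.2 = act M.1 x.1
      funext i
      refine b.ext_elem fun a => ?_
      have k := congrFun (congrFun h' i) a
      simp only [Matrix.mul_apply, Ym, Zm, Matrix.of_apply] at k
      exact k.symm.trans (alp_act (b.coord a) M.1 x.1 i).symm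
  rw [pf_fd, e, Mo.PE0 _ _ _ hY, if_pos]
  · rw [Mo.pp, pm, Fintype.card_fin, Nat.choose_two_right, Nat.add_sub_cancel, Po.dd, ← pow_mul,
      mul_comm (Module.finrank (ZMod 2) Y + 1)]
    norm_num
  · refine ⟨?_, fun a => ?_⟩
    · ext a a'
      simp only [Matrix.mul_apply, transpose_apply, Ym, Zm, Matrix.of_apply]
      rw [hv.1]
      exact sum_congr rfl fun i _ => mul_comm _ _
    · simp only [Matrix.mul_apply, transpose_apply, Ym, Zm, Matrix.of_apply]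
      rw [hv.2, alp_quad (Mo.Dg d) fun i => b.coord a (x.1 i)]
      exact sum_congr rfl fun i _ => by
        show _ = diagonal d i i * _
        rw [diagonal_apply_eq]

lemma mem_pw_row (x : GX Y ν) : x ∈ pw ν (row x) :=
  mem_pw.2 ⟨fun i => Submodule.subset_span (Or.inl ⟨i, rfl⟩),
    fun i => Submodule.subset_span (Or.inr ⟨i, rfl⟩)⟩

lemma alp_ex {d : ν → ZMod 2} {x : GX Y ν} (h0 : pf d x ≠ 0) :
    ∃ M : SymM 2 ν, dg M = d ∧ x.2 = act M.1 x.1 := by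
  by_contra k
  refine h0 ?_
  have e : dens {M : SymM 2 ν | dg M = d ∧ x.2 = act M.1 x.1} = 0 :=
    (expect_congr rfl fun M _ => ind_of_not fun q => k ⟨M, q⟩).trans (Fintype.expect_const 0)
  rw [pf, e, mul_zero]

lemma alp_row {M : SymM 2 ν} {x : GX Y ν} (h : x.2 = act M.1 x.1)
    (α : Module.Dual (ZMod 2) Y) (hα : ∀ i, α (x.1 i) = 0) : row x ≤ LinearMap.ker α := by
  refine Submodule.span_le.2 ?_
  rintro _ (⟨i, rfl⟩ | ⟨i, rfl⟩)
  · exact hα i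
  · show α (x.2 i) = 0
    rw [h, alp_act]
    exact sum_eq_zero fun j _ => by rw [hα j, mul_zero]

lemma row_ne_top {d : ν → ZMod 2} {x : GX Y ν} (h0 : pf d x ≠ 0) (hn : ¬ Ndg x) :
    row x ≠ ⊤ := by
  obtain ⟨M, -, h⟩ := alp_ex h0
  intro k
  refine hn fun α hα => LinearMap.ker_eq_top.1 (top_le_iff.1 ?_)
  rw [← k]
  exact alp_row h α hα

/-- apply `pf_eq` to `x` seen with values in `row x`: if `pf ≠ 0` then `z = M y` for some `M`,
so the values of `y` span `row x` -/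
theorem pf_le (d : ν → ZMod 2) (x : GX Y ν) :
    pf d x ≤ 2 ^ ((Module.finrank (ZMod 2) Y + 1) ^ 2) / pn ν (row x) := by
  have hpn : pn ν (row x) = 2 ^ (Fintype.card ν * Module.finrank (ZMod 2) (row x)) := by
    rw [pn, Module.natCard_eq_pow_finrank (K := ZMod 2), Nat.card_zmod, mul_comm, pow_mul]
    norm_num
  by_cases h0 : pf d x = 0
  · rw [h0, hpn]
    positivity
  obtain ⟨M, hd, h⟩ := alp_ex h0
  let x' : GX (row x) ν := (fun i => ⟨x.1 i, (mem_pw.1 (mem_pw_row x)).1 i⟩,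
    fun i => ⟨x.2 i, (mem_pw.1 (mem_pw_row x)).2 i⟩)
  have e : ∀ M : SymM 2 ν, x'.2 = act M.1 x'.1 ↔ x.2 = act M.1 x.1 := fun M => by
    have k : ∀ i, ((act M.1 x'.1 i : row x) : Y) = act M.1 x.1 i := fun i => by
      simp only [act, Submodule.coe_sum, Submodule.coe_smul, x']
    exact ⟨fun q => funext fun i => (congrArg Subtype.val (congrFun q i)).trans (k i),
      fun q => funext fun i => Subtype.ext ((congrFun q i).trans (k i).symm)⟩
  have e2 : pf d x = pf d x' := by simp only [pf, e]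
  have hn : Ndg x' := fun α hα => by
    obtain ⟨α', rfl⟩ := Subspace.dualRestrict_surjective (W := row x) α
    ext y
    exact alp_row h α' (fun i => hα i) y.2
  rw [e2, pf_eq (hd ▸ vld_of_eq ((e M).2 h)) hn, pm, hpn]
  refine div_le_div_of_nonneg_right (pow_le_pow_right₀ one_le_two ?_) (by positivity)
  have k := Submodule.finrank_le (row x)
  refine (Nat.div_le_self _ _).trans ?_
  rw [sq]
  exact Nat.mul_le_mul (by omega) (by omega)

lemma pm_double (n m : ℕ) : pm n (m + m) = pm n m ^ 2 * 2 ^ (m ^ 2) := by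
  have e : (m + m) * (m + m + 1) / 2 = m * (m + 1) / 2 * 2 + m ^ 2 := by
    have h := Nat.div_mul_cancel (Nat.even_mul_succ_self m).two_dvd
    rw [h]
    exact Nat.div_eq_of_eq_mul_left two_pos (by ring)
  rw [pm, pm, e, div_pow, ← pow_mul, ← pow_mul, pow_add, ← mul_two m, ← mul_assoc,
    div_mul_eq_mul_div]

lemma pm_ge : 1 / pn ν Y ≤ pm (Fintype.card ν) (Module.finrank (ZMod 2) Y) := by
  have hpn : pn ν Y = 2 ^ (Fintype.card ν * Module.finrank (ZMod 2) Y) := by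
    rw [pn, Module.natCard_eq_pow_finrank (K := ZMod 2), Nat.card_zmod, mul_comm, pow_mul]
    norm_num
  rw [hpn, pm]
  exact div_le_div_of_nonneg_right (one_le_pow₀ one_le_two) (by positivity)

lemma pr_eq (M : SymM 2 ν) (x x' : GX Y ν) :
    (pr x x').2 = act M.1 (pr x x').1 ↔ x.2 = act M.1 x.1 ∧ x'.2 = act M.1 x'.1 := by
  have k : ∀ i, act M.1 (pr x x').1 i = (act M.1 x.1 i, act M.1 x'.1 i) := fun i => by
    refine Prod.ext ?_ ?_
    · simp only [act, pr, Prod.fst_sum, Prod.smul_fst]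
    · simp only [act, pr, Prod.snd_sum, Prod.smul_snd]
  constructor
  · intro h
    exact ⟨funext fun i => congrArg Prod.fst ((congrFun h i).trans (k i)),
      funext fun i => congrArg Prod.snd ((congrFun h i).trans (k i))⟩
  · intro h
    funext i
    rw [k, ← h.1, ← h.2]
    rfl

end Pool.Agent.Work.MP_4523ee_co.F2
end

-- merged part: Pool.Agent.Work.MP_4523ee_co.F2.AlW
section
/-!
Second moment of the count weight.
Paper: /team-store/h90_4523ee_CWU.md (one direction version, see the proof hints below).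
-/

set_option autoImplicit false
set_option linter.unusedSectionVars false

namespace Pool.Agent.Work.MP_4523ee_co.F2

open Finset hiding dens
open Matrix Fp
open scoped BigOperators ComplexConjugate

variable {ν : Type} [Fintype ν] [DecidableEq ν]
variable {X : Type} [AddCommGroup X] [Module (ZMod 2) X] [Fintype X]
variable {Y : Type} [AddCommGroup Y] [Module (ZMod 2) Y] [Fintype Y]
variable {I J : Type} [Fintype I] [DecidableEq I] [Fintype J] [DecidableEq J]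

lemma cw_nonneg (W : Finset (GX Y ν)) (M : SymM 2 ν) : 0 ≤ cw W M := by
  unfold cw pm
  positivity

lemma cw_ne {W : Finset (GX Y ν)} {M : SymM 2 ν} (h : cw W M ≠ 0) :
    ∃ x ∈ W, x.2 = act M.1 x.1 := by
  classical
  by_contra k
  refine h ?_
  unfold cw
  rw [filter_eq_empty_iff.2 fun x hx e => k ⟨x, hx, e⟩, card_empty, Nat.cast_zero, zero_div]

lemma cw_tile {W : Finset (GX Y ν)} {U : Matrix ν J (ZMod 2)} (hU : ∀ x ∈ W, act Uᵀ x.1 = 0)
    (M : SymM 2 ν) (N : SymM 2 J) : cw W (M + cj U N) = cw W M := by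
  classical
  unfold cw
  congr 3
  exact filter_congr fun x hx => by rw [act_tile (hU x hx)]

lemma wa_ind_cw (d : ν → ZMod 2) (W : Finset (GX Y ν)) (M : SymM 2 ν) :
    ind {M | dg M = d} M * cw W M =
      (∑ x ∈ W, ind {M : SymM 2 ν | dg M = d ∧ x.2 = act M.1 x.1} M) /
        (#W * pm (Fintype.card ν) (Module.finrank (ZMod 2) Y)) := by
  unfold cw
  rw [← mul_div_assoc, natCast_card_filter, mul_sum]
  congr 1
  refine sum_congr rfl fun x _ => ?_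
  by_cases h : dg M = d <;> by_cases k : x.2 = act M.1 x.1 <;> simp [ind, h, k]

/-- first moment on a fibre (`pf_eq`) -/
lemma cw_one {d : ν → ZMod 2} {W : Finset (GX Y ν)} (hW : W.Nonempty)
    (hv : ∀ x ∈ W, Vld d x ∧ Ndg x) :
    2 ^ Fintype.card ν * 𝔼 M, ind {M | dg M = d} M * cw W M = 1 := by
  have hp : 0 < pm (Fintype.card ν) (Module.finrank (ZMod 2) Y) := by
    unfold pm
    positivity
  have hc : (0 : ℝ) < #W := by exact_mod_cast hW.card_pos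
  have e : ∀ x ∈ W, 2 ^ Fintype.card ν *
      𝔼 M, ind {M : SymM 2 ν | dg M = d ∧ x.2 = act M.1 x.1} M =
      pm (Fintype.card ν) (Module.finrank (ZMod 2) Y) := fun x hx => pf_eq (hv x hx).1 (hv x hx).2
  simp only [wa_ind_cw]
  rw [← Finset.expect_div, Finset.expect_sum_comm, ← mul_div_assoc, mul_sum, sum_congr rfl e,
    sum_const, nsmul_eq_mul, div_self (mul_pos hc hp).ne']

open Classical in
lemma wa_orth (x x' : GX Y ν) : ∑ b : Bil 2 Y, ee (sy b x x') =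
    if ∀ b : Bil 2 Y, sy b x x' = 0 then (2 : ℂ) ^ (Module.finrank (ZMod 2) Y ^ 2) else 0 := by
  split_ifs with h
  · simp only [h, ee_zero, sum_const, card_univ, nsmul_eq_mul, mul_one]
    rw [card_eq_pow (p := 2), Module.finrank_linearMap, Module.finrank_linearMap,
      Module.finrank_self, mul_one, sq]
    push_cast
    rfl
  · let φ : Bil 2 Y →+ ZMod 2 :=
      { toFun := fun b => sy b x x'
        map_zero' := by simp [sy, bt]
        map_add' := fun b c => by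
          simp only [sy, bt, LinearMap.add_apply, sum_add_distrib]
          ring }
    have k := expect_ee_hom φ fun e => h fun b => DFunLike.congr_fun e b
    rw [Fintype.expect_eq_sum_div_card, div_eq_zero_iff] at k
    exact k.resolve_right (Nat.cast_ne_zero.2 Fintype.card_ne_zero)

open Classical in
/-- `∑ b, ee (sy b x x') = 2 ^ (m ^ 2)` if all `sy b x x'` vanish and `0` otherwise
(`b ↦ sy b x x'` is linear, `|Bil| = 2 ^ (m ^ 2)`); the term `b = 0` gives at most `1` -/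
lemma orth_le (W W' : Finset (GX Y ν)) :
    (2 : ℝ) ^ (Module.finrank (ZMod 2) Y ^ 2) *
      (#((W ×ˢ W').filter fun q => ∀ b : Bil 2 Y, sy b q.1 q.2 = 0) / (#W * #W')) ≤
      1 + ∑ b ∈ univ.filter fun b : Bil 2 Y => b ≠ 0, crs b W W' := by
  have e1 : ∑ b : Bil 2 Y, 𝔼 x ∈ W, 𝔼 x' ∈ W', ee (sy b x x') =
      (((2 : ℝ) ^ (Module.finrank (ZMod 2) Y ^ 2) *
        (#((W ×ˢ W').filter fun q => ∀ b : Bil 2 Y, sy b q.1 q.2 = 0) / (#W * #W')) : ℝ) : ℂ) := by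
    simp only [← Finset.expect_sum_comm, wa_orth]
    rw [← Finset.expect_product', Finset.expect_eq_sum_div_card, ← sum_filter, sum_const,
      card_product, nsmul_eq_mul]
    push_cast
    ring
  have e2 : crs 0 W W' ≤ 1 := by
    have k : ∀ {s : Finset (GX Y ν)} {f : GX Y ν → ℂ}, (∀ x, ‖f x‖ ≤ 1) → ‖𝔼 x ∈ s, f x‖ ≤ 1 := by
      intro s f hf
      rw [Finset.expect_eq_sum_div_card, norm_div, Complex.norm_natCast]
      refine div_le_one_of_le₀ ((norm_sum_le _ _).trans ?_) (Nat.cast_nonneg _)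
      exact (sum_le_card_nsmul _ _ 1 fun x _ => hf x).trans (by simp)
    exact k fun x => k fun x' => (norm_ee _).le
  have e3 := norm_sum_le univ fun b : Bil 2 Y => 𝔼 x ∈ W, 𝔼 x' ∈ W', ee (sy b x x')
  rw [e1, Complex.norm_real, Real.norm_eq_abs, ← add_sum_erase _ _ (mem_univ 0),
    ← filter_ne'] at e3
  exact (le_abs_self _).trans (e3.trans (add_le_add e2 le_rfl))

open Classical in
lemma alwB_cnt (d : ν → ZMod 2) (W W' : Finset (GX Y ν)) (M : SymM 2 ν) :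
    ind {M | dg M = d} M * ((#(W.filter fun x => x.2 = act M.1 x.1) : ℝ) *
      #(W'.filter fun x => x.2 = act M.1 x.1)) =
      ∑ q ∈ W ×ˢ W',
        ind {M : SymM 2 ν | dg M = d ∧ (pr q.1 q.2).2 = act M.1 (pr q.1 q.2).1} M := by
  rw [Finset.card_filter, Finset.card_filter]
  push_cast
  rw [Finset.sum_mul_sum, Finset.sum_product, Finset.mul_sum]
  refine Finset.sum_congr rfl fun x _ => ?_
  rw [Finset.mul_sum]
  refine Finset.sum_congr rfl fun x' _ => ?_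
  simp only [ind, Set.mem_ofPred_eq, pr_eq]
  by_cases h1 : dg M = d <;> by_cases h2 : x.2 = act M.1 x.1 <;>
    by_cases h3 : x'.2 = act M.1 x'.1 <;> simp [h1, h2, h3]

open Classical in
lemma alwB_sum (d : ν → ZMod 2) (W W' : Finset (GX Y ν)) :
    2 ^ Fintype.card ν * 𝔼 M, ind {M | dg M = d} M * (cw W M * cw W' M) =
      (∑ q ∈ W ×ˢ W', pf d (pr q.1 q.2)) /
        (#W * #W' * pm (Fintype.card ν) (Module.finrank (ZMod 2) Y) ^ 2) := by
  have h : ∀ M : SymM 2 ν, ind {M | dg M = d} M * (cw W M * cw W' M) =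
      (∑ q ∈ W ×ˢ W',
        ind {M : SymM 2 ν | dg M = d ∧ (pr q.1 q.2).2 = act M.1 (pr q.1 q.2).1} M) /
        (#W * #W' * pm (Fintype.card ν) (Module.finrank (ZMod 2) Y) ^ 2) := by
    intro M
    rw [← alwB_cnt, cw, cw]
    ring
  simp only [h]
  rw [← Finset.expect_div, Finset.expect_sum_comm, ← mul_div_assoc, Finset.mul_sum]
  rfl

lemma alwB_ex {d : ν → ZMod 2} {x : GX Y ν} (h : pf d x ≠ 0) :
    ∃ M : SymM 2 ν, dg M = d ∧ x.2 = act M.1 x.1 := by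
  by_contra hc
  apply h
  have h0 : ∀ M : SymM 2 ν, ind {M : SymM 2 ν | dg M = d ∧ x.2 = act M.1 x.1} M = 0 := by
    intro M
    exact if_neg fun hM => hc ⟨M, hM⟩
  simp only [pf, dens, h0, Finset.expect_const_zero, mul_zero]

lemma alwB_pn (E : Type) : 0 ≤ pn ν E := by
  unfold pn
  positivity

lemma alwB_pm (n m : ℕ) : 0 < pm n m := by
  unfold pm
  positivity

open Classical in
lemma alwB_term (d : ν → ZMod 2) (x x' : GX Y ν) :
    pf d (pr x x') ≤ (if ∀ b : Bil 2 Y, sy b x x' = 0 then 1 else 0) *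
      (pm (Fintype.card ν) (Module.finrank (ZMod 2) Y) ^ 2 * 2 ^ (Module.finrank (ZMod 2) Y ^ 2)) +
      2 ^ ((2 * Module.finrank (ZMod 2) Y + 1) ^ 2) *
        ∑ E ∈ univ.filter fun E : Submodule (ZMod 2) (Y × Y) => E ≠ ⊤,
          (if pr x x' ∈ pw ν E then 1 else 0) / pn ν E := by
  have hfr : Module.finrank (ZMod 2) (Y × Y) =
      Module.finrank (ZMod 2) Y + Module.finrank (ZMod 2) Y := Module.finrank_prod
  have hE : ∀ E ∈ univ.filter fun E : Submodule (ZMod 2) (Y × Y) => E ≠ ⊤,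
      (0 : ℝ) ≤ (if pr x x' ∈ pw ν E then 1 else 0) / pn ν E := by
    intro E _
    refine div_nonneg ?_ (alwB_pn _)
    split_ifs <;> norm_num
  have hB : (0 : ℝ) ≤ 2 ^ ((2 * Module.finrank (ZMod 2) Y + 1) ^ 2) *
      ∑ E ∈ univ.filter fun E : Submodule (ZMod 2) (Y × Y) => E ≠ ⊤,
        (if pr x x' ∈ pw ν E then 1 else 0) / pn ν E :=
    mul_nonneg (by positivity) (Finset.sum_nonneg hE)
  have hA : (0 : ℝ) ≤ (if ∀ b : Bil 2 Y, sy b x x' = 0 then 1 else 0) *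
      (pm (Fintype.card ν) (Module.finrank (ZMod 2) Y) ^ 2 *
        2 ^ (Module.finrank (ZMod 2) Y ^ 2)) := by
    refine mul_nonneg ?_ (by positivity)
    split_ifs <;> norm_num
  by_cases h0 : pf d (pr x x') = 0
  · rw [h0]
    exact add_nonneg hA hB
  obtain ⟨M, hM, he⟩ := alwB_ex h0
  by_cases hn : Ndg (pr x x')
  · have hv := vld_of_eq he
    rw [hM] at hv
    have he' := (pr_eq M x x').1 he
    rw [pf_eq hv hn, hfr, pm_double, if_pos (sy_of_eq he'.1 he'.2), one_mul]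
    exact le_add_of_nonneg_right hB
  · have h1 := pf_le d (pr x x')
    have h2 := Finset.single_le_sum hE
      (Finset.mem_filter.2 ⟨Finset.mem_univ (row (pr x x')), row_ne_top h0 hn⟩)
    rw [if_pos (mem_pw_row _)] at h2
    rw [hfr, ← two_mul] at h1
    have h3 := mul_le_mul_of_nonneg_left h2
      (show (0 : ℝ) ≤ 2 ^ ((2 * Module.finrank (ZMod 2) Y + 1) ^ 2) by positivity)
    rw [mul_one_div] at h3
    linarith

open Classical in
lemma alwB_tot (d : ν → ZMod 2) (W W' : Finset (GX Y ν)) :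
    ∑ q ∈ W ×ˢ W', pf d (pr q.1 q.2) ≤
      #((W ×ˢ W').filter fun q => ∀ b : Bil 2 Y, sy b q.1 q.2 = 0) *
        (pm (Fintype.card ν) (Module.finrank (ZMod 2) Y) ^ 2 *
          2 ^ (Module.finrank (ZMod 2) Y ^ 2)) +
      2 ^ ((2 * Module.finrank (ZMod 2) Y + 1) ^ 2) * dgn W W' := by
  refine (Finset.sum_le_sum fun q _ => alwB_term d q.1 q.2).trans (le_of_eq ?_)
  rw [Finset.sum_add_distrib, ← Finset.sum_mul, ← Finset.mul_sum, Finset.sum_comm, dgn,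
    Finset.card_filter]
  push_cast
  congr 2
  refine Finset.sum_congr rfl fun E _ => ?_
  rw [← Finset.sum_div, Finset.card_filter]
  push_cast
  rfl

lemma alwB_dgn (W W' : Finset (GX Y ν)) : 0 ≤ dgn W W' :=
  Finset.sum_nonneg fun _ _ => div_nonneg (Nat.cast_nonneg _) (alwB_pn _)

lemma alwB_low {W : Finset (GX Y ν)} {c₂ : ℝ} (hc : 0 < c₂) (hW : c₂ * pn ν Y ≤ #W) :
    c₂ ≤ #W * pm (Fintype.card ν) (Module.finrank (ZMod 2) Y) := by
  have hp : 0 < pn ν Y := by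
    unfold pn
    have : 0 < Nat.card Y := Nat.card_pos
    positivity
  have h1 := pm_ge (ν := ν) (Y := Y)
  calc c₂ = c₂ * pn ν Y * (1 / pn ν Y) := by field_simp
    _ ≤ #W * pm (Fintype.card ν) (Module.finrank (ZMod 2) Y) :=
      mul_le_mul hW h1 (by positivity) (Nat.cast_nonneg _)

open Classical in
/-- second moment on a fibre: the left side is `∑ pf d (pr x x') / (|W| |W'| pm²)`. If `pf ≠ 0` and
`Ndg (pr x x')` use `vld_of_eq`, `pf_eq`, `pm_double`, `sy_of_eq`, `orth_le`; otherwise `row_ne_top`,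
`pf_le`, `mem_pw_row` and `c₂ ≤ |W| pm` (`pm_ge`). -/
lemma cw_two {d : ν → ZMod 2} {W W' : Finset (GX Y ν)} {c₂ : ℝ} (hc : 0 < c₂)
    (hW : W = ∅ ∨ c₂ * pn ν Y ≤ #W) (hW' : W' = ∅ ∨ c₂ * pn ν Y ≤ #W') :
    2 ^ Fintype.card ν * 𝔼 M, ind {M | dg M = d} M * (cw W M * cw W' M) ≤
      1 + ∑ b ∈ univ.filter fun b : Bil 2 Y => b ≠ 0, crs b W W' +
        2 ^ ((2 * Module.finrank (ZMod 2) Y + 1) ^ 2) * dgn W W' / c₂ ^ 2 := by
  have hS : (0 : ℝ) ≤ ∑ b ∈ univ.filter fun b : Bil 2 Y => b ≠ 0, crs b W W' :=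
    Finset.sum_nonneg fun _ _ => norm_nonneg _
  have hD := alwB_dgn W W'
  have hR : (0 : ℝ) ≤ 1 + ∑ b ∈ univ.filter fun b : Bil 2 Y => b ≠ 0, crs b W W' +
      2 ^ ((2 * Module.finrank (ZMod 2) Y + 1) ^ 2) * dgn W W' / c₂ ^ 2 := by positivity
  rw [alwB_sum]
  rcases hW with rfl | hW
  · simpa using hR
  rcases hW' with rfl | hW'
  · simpa using hR
  have h1 := alwB_low hc hW
  have h2 := alwB_low hc hW'
  have h3 := alwB_tot d W W'
  have h4 := orth_le W W'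
  have hp := alwB_pm (Fintype.card ν) (Module.finrank (ZMod 2) Y)
  generalize pm (Fintype.card ν) (Module.finrank (ZMod 2) Y) = P at *
  have ha : (0 : ℝ) < #W := by
    by_contra hc'
    have : (#W : ℝ) * P ≤ 0 := mul_nonpos_of_nonpos_of_nonneg (not_lt.1 hc') hp.le
    linarith
  have hb : (0 : ℝ) < #W' := by
    by_contra hc'
    have : (#W' : ℝ) * P ≤ 0 := mul_nonpos_of_nonpos_of_nonneg (not_lt.1 hc') hp.le
    linarith
  have h5 : c₂ ^ 2 ≤ #W * #W' * P ^ 2 := by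
    calc c₂ ^ 2 = c₂ * c₂ := sq _
      _ ≤ (#W * P) * (#W' * P) := mul_le_mul h1 h2 hc.le (by positivity)
      _ = _ := by ring
  have h6 : (2 : ℝ) ^ ((2 * Module.finrank (ZMod 2) Y + 1) ^ 2) * dgn W W' / (#W * #W' * P ^ 2) ≤
      2 ^ ((2 * Module.finrank (ZMod 2) Y + 1) ^ 2) * dgn W W' / c₂ ^ 2 :=
    div_le_div_of_nonneg_left (by positivity) (by positivity) h5
  refine (div_le_div_of_nonneg_right h3 (by positivity)).trans ?_
  rw [add_div]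
  refine add_le_add (le_of_eq_of_le ?_ h4) h6
  field_simp

lemma wa_swap {α β : Type} [Fintype α] [Fintype β] (c : ℝ) (g : α → ℝ) (F : β → α → ℝ) :
    c * 𝔼 a, g a * 𝔼 b, F b a = 𝔼 b, c * 𝔼 a, g a * F b a := by
  simp only [Finset.mul_expect]
  exact Finset.expect_comm _ _ _

/-- `𝔼 (ρ - 1)² = 𝔼 w w' - 2 𝔼 w + 1`, `av_fib`, Cauchy-Schwarz -/
theorem WIT (W : (ν → ZMod 2) → Matrix ν J (ZMod 2) → Finset (GX Y ν)) {c₂ s₁ s₂ s₃ : ℝ}
    (hc : 0 < c₂) (hs : 0 ≤ s₃) (hv : ∀ d U, ∀ x ∈ W d U, Vld d x ∧ Ndg x)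
    (hW : ∀ d U, W d U = ∅ ∨ c₂ * pn ν Y ≤ #(W d U))
    (h1 : 𝔼 d, 𝔼 U, ind {U | W d U = ∅} U ≤ s₁)
    (h2 : 𝔼 d, 𝔼 U, 𝔼 U', dgn (W d U) (W d U') ≤ s₂)
    (h3 : ∀ b : Bil 2 Y, b ≠ 0 → 𝔼 d, 𝔼 U, 𝔼 U', crs b (W d U) (W d U') ≤ s₃) :
    𝔼 M, |(𝔼 U, cw (W (dg M) U) M) - 1| ≤
      √(2 * s₁ + 2 ^ (Module.finrank (ZMod 2) Y ^ 2) * s₃ +
        2 ^ ((2 * Module.finrank (ZMod 2) Y + 1) ^ 2) * s₂ / c₂ ^ 2) := by
  classical
  have a1 : 1 - s₁ ≤ 𝔼 M, 𝔼 U, cw (W (dg M) U) M := by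
    rw [av_fib fun d M => 𝔼 U, cw (W d U) M]
    have k : ∀ d, 𝔼 U, (1 - ind {U | W d U = ∅} U) ≤
        2 ^ Fintype.card ν * 𝔼 M, ind {M | dg M = d} M * 𝔼 U, cw (W d U) M := by
      intro d
      rw [wa_swap]
      refine Finset.expect_le_expect fun U _ => ?_
      rcases (W d U).eq_empty_or_nonempty with e | e
      · rw [ind_of_mem (by exact e), sub_self]
        exact mul_nonneg (by positivity) (Finset.expect_nonneg fun M _ =>
          mul_nonneg (ind_nonneg _ _) (cw_nonneg _ _))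
      · rw [cw_one e (hv d U)]
        linarith [ind_nonneg {U | W d U = ∅} U]
    refine le_trans ?_ (Finset.expect_le_expect fun d _ => k d)
    simp only [Finset.expect_sub_distrib, Fintype.expect_const]
    linarith
  have a2 : 𝔼 M, (𝔼 U, cw (W (dg M) U) M) ^ 2 ≤
      1 + 2 ^ (Module.finrank (ZMod 2) Y ^ 2) * s₃ +
        2 ^ ((2 * Module.finrank (ZMod 2) Y + 1) ^ 2) * s₂ / c₂ ^ 2 := by
    rw [av_fib fun d M => (𝔼 U, cw (W d U) M) ^ 2]
    have k : ∀ d, 2 ^ Fintype.card ν * 𝔼 M, ind {M | dg M = d} M * (𝔼 U, cw (W d U) M) ^ 2 ≤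
        𝔼 U, 𝔼 U', (1 + ∑ b ∈ univ.filter fun b : Bil 2 Y => b ≠ 0, crs b (W d U) (W d U') +
          2 ^ ((2 * Module.finrank (ZMod 2) Y + 1) ^ 2) * dgn (W d U) (W d U') / c₂ ^ 2) := by
      intro d
      simp only [sq (𝔼 U, _), Finset.expect_mul_expect]
      rw [wa_swap]
      refine Finset.expect_le_expect fun U _ => ?_
      rw [wa_swap]
      exact Finset.expect_le_expect fun U' _ => cw_two hc (hW d U) (hW d U')
    refine (Finset.expect_le_expect fun d _ => k d).trans ?_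
    simp only [Finset.expect_add_distrib, Fintype.expect_const, Finset.expect_sum_comm,
      ← Finset.expect_div, ← Finset.mul_expect]
    refine add_le_add (add_le_add le_rfl ?_) (by gcongr)
    refine (sum_le_card_nsmul _ _ s₃ fun b hb => h3 b (mem_filter.1 hb).2).trans ?_
    rw [nsmul_eq_mul]
    refine mul_le_mul_of_nonneg_right ?_ hs
    have := card_le_univ (univ.filter fun b : Bil 2 Y => b ≠ 0)
    rw [card_eq_pow (p := 2), Module.finrank_linearMap, Module.finrank_linearMap,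
      Module.finrank_self, mul_one, ← sq] at this
    exact_mod_cast this
  have a3 := ch_cs (fun M : SymM 2 ν => |(𝔼 U, cw (W (dg M) U) M) - 1|) fun _ => 1
  simp only [mul_one, one_pow, Fintype.expect_const, Real.sqrt_one, sq_abs, sub_sq,
    Finset.expect_add_distrib, Finset.expect_sub_distrib, ← Finset.mul_expect] at a3
  exact a3.trans (Real.sqrt_le_sqrt (by linarith))

end Pool.Agent.Work.MP_4523ee_co.F2
end

-- merged part: Pool.Agent.Work.MP_4523ee_co.F2.AlQV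
section
/-!
Quadratic functions over `ZMod 2`: passing to a subspace on which each of finitely many
quadratic functions vanishes or has small bias against all linear functions.
-/

set_option autoImplicit false
set_option linter.unusedSectionVars false

namespace Pool.Agent.Work.MP_4523ee_co.F2

open Finset hiding dens
open Pool.Agent.Work.MP_4523ee_co.Fp
open scoped BigOperators ComplexConjugate

variable {V : Type} [AddCommGroup V] [Module (ZMod 2) V] [Fintype V]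

/-- a function with bilinear polar form -/
def Qd (Q : V → ZMod 2) : Prop := ∃ B : Bil 2 V, ∀ x y, Q (x + y) = Q x + Q y + B x y

lemma Qd.zero {Q : V → ZMod 2} (h : Qd Q) : Q 0 = 0 := by
  obtain ⟨B, hB⟩ := h
  have h1 := hB 0 0
  rw [add_zero, map_zero, add_zero] at h1
  exact (left_eq_add.1 h1)

lemma Qd_bil (B : Bil 2 V) : Qd fun x => B x x :=
  ⟨B + B.flip, fun x y => by
    simp only [map_add, LinearMap.add_apply, LinearMap.flip_apply]
    ring⟩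

lemma Qd_lin (l : Module.Dual (ZMod 2) V) : Qd fun x => l x :=
  ⟨0, fun x y => by simp⟩

lemma Qd.add {Q Q' : V → ZMod 2} (h : Qd Q) (h' : Qd Q') : Qd fun x => Q x + Q' x := by
  obtain ⟨B, hB⟩ := h
  obtain ⟨B', hB'⟩ := h'
  exact ⟨B + B', fun x y => by
    simp only [hB, hB', LinearMap.add_apply]
    ring⟩

lemma Qd.smul {Q : V → ZMod 2} (h : Qd Q) (c : ZMod 2) : Qd fun x => c * Q x := by
  obtain ⟨B, hB⟩ := h
  exact ⟨c • B, fun x y => by
    simp only [hB, LinearMap.smul_apply, smul_eq_mul]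
    ring⟩

lemma Qd_sum {κ : Type} (s : Finset κ) (Q : κ → V → ZMod 2) (h : ∀ a ∈ s, Qd (Q a)) :
    Qd fun x => ∑ a ∈ s, Q a x := by
  classical
  induction s using Finset.induction_on with
  | empty => exact ⟨0, fun x y => by simp⟩
  | insert a s ha ih =>
    simp only [sum_insert ha]
    exact (h a (mem_insert_self _ _)).add (ih fun b hb => h b (mem_insert_of_mem hb))

lemma qv_z2 (c : ZMod 2) : c = 0 ∨ c = 1 := by
  revert c
  decide

lemma qv_card (S : Submodule (ZMod 2) V) [DecidablePred (· ∈ S)] :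
    Fintype.card S = #{x : V | x ∈ S} := by
  rw [← Fintype.card_subtype]

lemma qv_step {Q : V → ZMod 2} (hQ : Qd Q) {η : ℝ} (hη : 0 < η) (V0 : Submodule (ZMod 2) V)
    (l : Module.Dual (ZMod 2) V) (h : η < ‖𝔼 x : V0, ee (Q x + l x)‖) :
    ∃ V1 ≤ V0, (Fintype.card V0 : ℝ) ≤ 2 / η ^ 2 * Fintype.card V1 ∧ ∀ x ∈ V1, Q x = 0 := by
  classical
  have hz := hQ.zero
  obtain ⟨B, hB⟩ := hQ
  let V1 : Submodule (ZMod 2) V :=
    { carrier := {x | x ∈ V0 ∧ (∀ y ∈ V0, B y x = 0) ∧ Q x = 0}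
      add_mem' := fun {a b} ha hb => ⟨V0.add_mem ha.1 hb.1, fun y hy => by
        rw [map_add, ha.2.1 y hy, hb.2.1 y hy, add_zero], by
        rw [hB, ha.2.2, hb.2.2, hb.2.1 a ha.1, add_zero, add_zero]⟩
      zero_mem' := ⟨V0.zero_mem, fun y _ => map_zero _, hz⟩
      smul_mem' := fun c a ha => by
        rcases qv_z2 c with rfl | rfl
        · rw [zero_smul]
          exact ⟨V0.zero_mem, fun y _ => map_zero _, hz⟩
        · rwa [one_smul] }
  refine ⟨V1, fun x hx => hx.1, ?_, fun x hx => hx.2.2⟩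
  have hb := _root_.MP_4523ee_co.Fp.Sub.quad_bound (p := 2) (G := V0) (fun x => Q x + l x)
    (fun h => (B.flip h.1).domRestrict V0) (fun x h => by
      simp only [Submodule.coe_add, hB, map_add, LinearMap.domRestrict_apply,
        LinearMap.flip_apply]
      ring)
  set R : Finset V := {x | x ∈ V0 ∧ ∀ y ∈ V0, B y x = 0} with hR
  have h1 : ∑ h : V0, _root_.MP_4523ee_co.Fp.Sub.ind ((B.flip h.1).domRestrict V0 = 0) = (#R : ℝ) := by
    rw [_root_.MP_4523ee_co.Fp.Sub.sum_ind_eq_card, ← Fintype.card_coe, ← Nat.card_eq_fintype_card]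
    congr 1
    refine Nat.card_congr
      { toFun := fun a => ⟨a.1.1, mem_filter.2 ⟨mem_univ _, a.1.2, fun y hy =>
          DFunLike.congr_fun a.2 ⟨y, hy⟩⟩⟩
        invFun := fun a => ⟨⟨a.1, (mem_filter.1 a.2).2.1⟩, LinearMap.ext fun y =>
          (mem_filter.1 a.2).2.2 y.1 y.2⟩
        left_inv := fun _ => rfl
        right_inv := fun _ => rfl }
  have h2 : #R ≤ 2 * Fintype.card V1 := by
    rw [qv_card, ← card_filter_add_card_filter_not (s := R) (fun x => Q x = 0), two_mul]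
    refine add_le_add (card_le_card fun x hx => ?_) ?_
    · rw [mem_filter] at hx
      exact mem_filter.2 ⟨mem_univ _, (mem_filter.1 hx.1).2.1, (mem_filter.1 hx.1).2.2, hx.2⟩
    · rcases (R.filter fun x => ¬ Q x = 0).eq_empty_or_nonempty with he | ⟨x0, h0⟩
      · rw [he]
        exact Nat.zero_le _
      · rw [mem_filter] at h0
        have h01 := (mem_filter.1 h0.1).2
        refine card_le_card_of_injOn (fun x => x + x0) (fun x hx => ?_)
          fun a _ b _ e => add_right_cancel e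
        have hx' := mem_filter.1 (mem_coe.1 hx)
        have hx1 := (mem_filter.1 hx'.1).2
        refine mem_coe.2 (mem_filter.2 ⟨mem_univ _, V0.add_mem hx1.1 h01.1, fun y hy => ?_, ?_⟩)
        · rw [map_add, hx1.2 y hy, h01.2 y hy, add_zero]
        · rw [hB, h01.2 x hx1.1, (qv_z2 _).resolve_left hx'.2, (qv_z2 _).resolve_left h0.2]
          rfl
  rw [h1] at hb
  have hc : (0 : ℝ) < Fintype.card V0 := by exact_mod_cast Fintype.card_pos
  rw [Fintype.expect_eq_sum_div_card, norm_div, Complex.norm_natCast, lt_div_iff₀ hc] at h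
  have h3 : (η * Fintype.card V0) ^ 2 ≤ Fintype.card V0 * (#R : ℝ) :=
    (pow_le_pow_left₀ (by positivity) h.le 2).trans hb
  have h4 : (#R : ℝ) ≤ 2 * Fintype.card V1 := by exact_mod_cast h2
  rw [div_mul_eq_mul_div, le_div_iff₀ (by positivity)]
  have h5 : (Fintype.card V0 : ℝ) * (Fintype.card V0 * η ^ 2) ≤
      Fintype.card V0 * (2 * Fintype.card V1) := by
    refine le_trans (le_of_eq (by ring)) (h3.trans ?_)
    gcongr
  exact le_of_mul_le_mul_left h5 hc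

/-- each function vanishes or has small bias against all linear functions -/
theorem QV0 {κ : Type} [Fintype κ] (Q : κ → V → ZMod 2) (hQ : ∀ a, Qd (Q a)) {η : ℝ}
    (hη : 0 < η) (hη1 : η ≤ 1) (V0 : Submodule (ZMod 2) V) :
    ∃ V1 ≤ V0, (Fintype.card V0 : ℝ) ≤ (2 / η ^ 2) ^ Fintype.card κ * Fintype.card V1 ∧
      ∀ a, (∀ x ∈ V1, Q a x = 0) ∨
        ∀ l : Module.Dual (ZMod 2) V, ‖𝔼 x : V1, ee (Q a x + l x)‖ ≤ η := by
  classical
  have h1 : (1 : ℝ) ≤ 2 / η ^ 2 := by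
    rw [le_div_iff₀ (by positivity)]
    nlinarith
  have key : ∀ (n : ℕ) (V0 : Submodule (ZMod 2) V), #{a | ¬ ∀ x ∈ V0, Q a x = 0} ≤ n →
      ∃ V1 ≤ V0, (Fintype.card V0 : ℝ) ≤ (2 / η ^ 2) ^ n * Fintype.card V1 ∧
        ∀ a, (∀ x ∈ V1, Q a x = 0) ∨
          ∀ l : Module.Dual (ZMod 2) V, ‖𝔼 x : V1, ee (Q a x + l x)‖ ≤ η := by
    intro n
    induction n with
    | zero =>
      intro V0 h
      refine ⟨V0, le_rfl, by simp, fun a => Or.inl ?_⟩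
      by_contra k
      have : 0 < #{a | ¬ ∀ x ∈ V0, Q a x = 0} := card_pos.2 ⟨a, mem_filter.2 ⟨mem_univ a, k⟩⟩
      omega
    | succ n ih =>
      intro V0 h
      by_cases k : ∀ a, (∀ x ∈ V0, Q a x = 0) ∨
          ∀ l : Module.Dual (ZMod 2) V, ‖𝔼 x : V0, ee (Q a x + l x)‖ ≤ η
      · exact ⟨V0, le_rfl, le_mul_of_one_le_left (Nat.cast_nonneg _) (one_le_pow₀ h1), k⟩
      · obtain ⟨a, ha⟩ := not_forall.1 k
        rw [not_or] at ha
        obtain ⟨l, hl⟩ := not_forall.1 ha.2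
        obtain ⟨V1, h10, hc, hv⟩ := qv_step (hQ a) hη V0 l (not_le.1 hl)
        obtain ⟨V2, h21, hc2, hv2⟩ := ih V1 (by
          refine Nat.lt_succ_iff.1 (lt_of_lt_of_le (card_lt_card ⟨fun b hb => ?_, fun e => ?_⟩) h)
          · exact mem_filter.2 ⟨mem_univ _, fun q => (mem_filter.1 hb).2 fun x hx => q x (h10 hx)⟩
          · exact (mem_filter.1 (e (mem_filter.2 ⟨mem_univ a, ha.1⟩))).2 hv)
        refine ⟨V2, h21.trans h10, hc.trans ?_, hv2⟩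
        rw [pow_succ' (2 / η ^ 2), mul_assoc]
        gcongr
  exact key _ V0 (card_le_univ _)

/-- the common zero set of finitely many quadratic functions is large and equidistributed -/
theorem QZ0 {κ : Type} [Fintype κ] [DecidableEq κ] (Q : κ → V → ZMod 2) (hQ : ∀ a, Qd (Q a))
    {η : ℝ} (hη : 0 < η) (hη1 : η ≤ 1) (V0 : Submodule (ZMod 2) V) :
    ∃ V1 ≤ V0, (Fintype.card V0 : ℝ) ≤ (2 / η ^ 2) ^ 2 ^ Fintype.card κ * Fintype.card V1 ∧
      (2 ^ Fintype.card κ : ℝ)⁻¹ - η ≤ dens {x : V1 | ∀ a, Q a x = 0} ∧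
      ∀ l : Module.Dual (ZMod 2) V, (∃ x ∈ V1, l x ≠ 0) →
        ‖𝔼 x : V1, (ind {x : V1 | ∀ a, Q a x = 0} x : ℂ) * ee (l x)‖ ≤ η := by
  classical
  obtain ⟨V1, h10, hc, hv⟩ := QV0 (fun (c : κ → ZMod 2) x => ∑ a, c a * Q a x)
    (fun c => Qd_sum _ _ fun a _ => (hQ a).smul _) hη hη1 V0
  have hk : Fintype.card (κ → ZMod 2) = 2 ^ Fintype.card κ := by simp
  rw [hk] at hc
  have e1 : ∀ x : V1, (ind {x : V1 | ∀ a, Q a x = 0} x : ℂ) =
      𝔼 c : κ → ZMod 2, ee (∑ a, c a * Q a x) := fun x => by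
    by_cases h : ∀ a, Q a x = 0
    · rw [ind_of_mem (show x ∈ {x : V1 | ∀ a, Q a x = 0} from h)]
      simp [h]
    · rw [ind_of_not (show x ∉ {x : V1 | ∀ a, Q a x = 0} from h), Complex.ofReal_zero]
      obtain ⟨a, ha⟩ := not_forall.1 h
      refine (expect_ee_hom (AddMonoidHom.mk' (fun c : κ → ZMod 2 => ∑ a, c a * Q a x)
        fun c c' => by simp only [Pi.add_apply, add_mul, sum_add_distrib]) fun k => ha ?_).symm
      have := DFunLike.congr_fun k (Pi.single a 1)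
      simpa [Pi.single_apply] using this
  have e2 : ∀ l : Module.Dual (ZMod 2) V,
      𝔼 x : V1, (ind {x : V1 | ∀ a, Q a x = 0} x : ℂ) * ee (l x) =
        𝔼 c : κ → ZMod 2, 𝔼 x : V1, ee (∑ a, c a * Q a x + l x) := fun l => by
    rw [expect_comm]
    refine expect_congr rfl fun x _ => ?_
    rw [e1, expect_mul]
    exact expect_congr rfl fun c _ => (ee_add _ _).symm
  refine ⟨V1, h10, hc, ?_, fun l ⟨x0, h0, hl⟩ => ?_⟩
  · have e3 : ((dens {x : V1 | ∀ a, Q a x = 0} : ℝ) : ℂ) =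
        𝔼 c : κ → ZMod 2, 𝔼 x : V1, ee (∑ a, c a * Q a x + (0 : Module.Dual (ZMod 2) V) x) := by
      rw [← e2, dens, Complex.ofReal_expect]
      simp
    have e4 := congrArg Complex.re e3
    rw [Complex.ofReal_re, Fintype.expect_eq_sum_div_card, hk] at e4
    have hp : (0 : ℝ) < 2 ^ Fintype.card κ := by positivity
    have e5 : dens {x : V1 | ∀ a, Q a x = 0} = (∑ c : κ → ZMod 2, (𝔼 x : V1,
        ee (∑ a, c a * Q a x + (0 : Module.Dual (ZMod 2) V) x)).re) / 2 ^ Fintype.card κ := by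
      rw [e4, ← Complex.re_sum, Complex.div_natCast_re]
      push_cast
      rfl
    rw [e5, le_div_iff₀ hp]
    have e6 : ∀ c : κ → ZMod 2, (if c = 0 then (1 : ℝ) else 0) - η ≤ (𝔼 x : V1,
        ee (∑ a, c a * Q a x + (0 : Module.Dual (ZMod 2) V) x)).re := fun c => by
      by_cases h : ∀ x ∈ V1, ∑ a, c a * Q a x = 0
      · have : 𝔼 x : V1, ee (∑ a, c a * Q a x + (0 : Module.Dual (ZMod 2) V) x) = 1 := by
          refine (expect_congr rfl fun x _ => ?_).trans (Fintype.expect_const 1)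
          rw [h x x.2]
          simp
        rw [this, Complex.one_re]
        split_ifs <;> linarith
      · have h0 : c ≠ 0 := fun k => h fun x _ => by simp [k]
        rw [if_neg h0, zero_sub]
        exact (neg_le_neg ((hv c).resolve_left h 0)).trans
          (neg_le.1 ((neg_le_abs _).trans (Complex.abs_re_le_norm _)))
    refine le_trans (le_of_eq ?_) (sum_le_sum fun c _ => e6 c)
    rw [sum_sub_distrib, sum_ite_eq', if_pos (mem_univ _), sum_const, card_univ, hk, nsmul_eq_mul]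
    push_cast
    field_simp
  · rw [e2]
    refine (ch_norm_expect _).trans (le_trans (expect_le_expect fun c _ => ?_)
      (Fintype.expect_const η).le)
    rcases hv c with h | h
    · have : 𝔼 x : V1, ee (∑ a, c a * Q a x + l x) = 0 := by
        rw [← expect_ee_lin (l.domRestrict V1) fun k => hl (DFunLike.congr_fun k ⟨x0, h0⟩)]
        refine expect_congr rfl fun x _ => ?_
        rw [h x x.2, zero_add]
        rfl
      rw [this, norm_zero]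
      exact hη.le
    · exact h l

end Pool.Agent.Work.MP_4523ee_co.F2
end

-- merged part: Pool.Agent.Work.MP_4523ee_co.F2.AlQ
section
/-!
Quadratic varieties and the choice of the witnesses.
Paper: /team-store/h90_4523ee_CWU.md (one direction version, see the proof hints below).
-/

set_option autoImplicit false
set_option linter.unusedSectionVars false

namespace Pool.Agent.Work.MP_4523ee_co.F2

open Finset hiding dens
open Matrix Fp
open scoped BigOperators ComplexConjugate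

variable {ν : Type} [Fintype ν] [DecidableEq ν]
variable {X : Type} [AddCommGroup X] [Module (ZMod 2) X] [Fintype X]
variable {Y : Type} [AddCommGroup Y] [Module (ZMod 2) Y] [Fintype Y]
variable {I J : Type} [Fintype I] [DecidableEq I] [Fintype J] [DecidableEq J]

lemma qw_index {V V' : Type} [AddCommGroup V] [Module (ZMod 2) V] [Fintype V] [AddCommGroup V']
    [Module (ZMod 2) V'] [Fintype V'] (G : Submodule (ZMod 2) V) (L : V →ₗ[ZMod 2] V') :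
    Nat.card G ≤ Fintype.card V' * Nat.card ↥(G ⊓ LinearMap.ker L) := by
  have h1 := Submodule.card_eq_card_quotient_mul_card (LinearMap.ker (L.domRestrict G))
  have h2 : Nat.card (G ⧸ LinearMap.ker (L.domRestrict G)) ≤ Fintype.card V' := by
    rw [Nat.card_congr (L.domRestrict G).quotKerEquivRange.toEquiv, ← Nat.card_eq_fintype_card]
    exact Nat.card_le_card_of_injective _ Subtype.val_injective
  have h3 : Nat.card (LinearMap.ker (L.domRestrict G)) = Nat.card ↥(G ⊓ LinearMap.ker L) :=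
    Nat.card_congr
      { toFun := fun a => ⟨a.1.1, a.1.2, a.2⟩
        invFun := fun a => ⟨⟨a.1, a.2.1⟩, a.2.2⟩
        left_inv := fun _ => rfl
        right_inv := fun _ => rfl }
  rw [h1, h3, mul_comm]
  exact Nat.mul_le_mul_right _ h2

open Classical in
lemma qw_zero {V κ : Type} [AddCommGroup V] [Module (ZMod 2) V] [Fintype V] [Fintype κ]
    (Q : κ → V → ZMod 2) (hQ : ∀ a, Qd (Q a)) {η : ℝ} (hη : 0 < η) (hη1 : η ≤ 1)
    (V0 : Submodule (ZMod 2) V) :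
    ∃ V1 ≤ V0, (Nat.card V0 : ℝ) ≤ (2 / η ^ 2) ^ 2 ^ Fintype.card κ * Nat.card V1 ∧
      ((2 ^ Fintype.card κ : ℝ)⁻¹ - η) * Nat.card V1 ≤
        #(univ.filter fun x : V => x ∈ V1 ∧ ∀ a, Q a x = 0) ∧
      ∀ l : Module.Dual (ZMod 2) V, (∃ x ∈ V1, l x ≠ 0) →
        ‖∑ x ∈ univ.filter fun x : V => x ∈ V1 ∧ ∀ a, Q a x = 0, ee (l x)‖ ≤ η * Nat.card V1 := by
  obtain ⟨V1, h10, hc, hd, hl⟩ := QZ0 Q hQ hη hη1 V0
  have hp : (0 : ℝ) < Fintype.card V1 := by exact_mod_cast Fintype.card_pos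
  have key : ∀ g : V → ℂ, ∑ x : V1, (ind {x : V1 | ∀ a, Q a x = 0} x : ℂ) * g x =
      ∑ x ∈ univ.filter fun x : V => x ∈ V1 ∧ ∀ a, Q a x = 0, g x := fun g => by
    rw [← filter_filter, sum_filter (fun x : V => ∀ a, Q a x = 0),
      sum_subtype (p := fun x => x ∈ V1) (F := inferInstanceAs (Fintype V1))
        (univ.filter fun x : V => x ∈ V1) (by simp)]
    refine sum_congr rfl fun x _ => ?_
    by_cases h : ∀ a, Q a x = 0
    · rw [ind_of_mem (show x ∈ {x : V1 | ∀ a, Q a x = 0} from h), if_pos h]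
      simp
    · rw [ind_of_not (show x ∉ {x : V1 | ∀ a, Q a x = 0} from h), if_neg h]
      simp
  refine ⟨V1, h10, by simpa only [Nat.card_eq_fintype_card] using hc, ?_, fun l h => ?_⟩
  · have h1 := key fun _ => 1
    simp only [mul_one, sum_const, nsmul_eq_mul] at h1
    have h2 : ∑ x : V1, ind {x : V1 | ∀ a, Q a x = 0} x =
        (#(univ.filter fun x : V => x ∈ V1 ∧ ∀ a, Q a x = 0) : ℝ) := by exact_mod_cast h1
    rw [dens, Fintype.expect_eq_sum_div_card, h2, le_div_iff₀ hp] at hd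
    rwa [Nat.card_eq_fintype_card]
  · have h1 := hl l h
    rw [Fintype.expect_eq_sum_div_card, key fun x => ee (l x), norm_div, Complex.norm_natCast,
      div_le_iff₀ hp] at h1
    rwa [Nat.card_eq_fintype_card]

lemma qw_core {V : Type} [DecidableEq V] {Z W : Finset V} (hW : W ⊆ Z) {η : ℝ} (hη : 0 < η)
    (hη1 : η ≤ 1) (hZ : (0 : ℝ) < #Z) (hb : (#(Z \ W) : ℝ) ≤ η / 8 * #Z) :
    (#Z : ℝ) / 2 ≤ #W ∧ ∀ f : V → ℂ, (∀ x, ‖f x‖ = 1) → ‖∑ x ∈ Z, f x‖ ≤ η / 4 * #Z →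
      ‖𝔼 x ∈ W, f x‖ ≤ η := by
  have h1 : (#(Z \ W) : ℝ) + #W = #Z := by exact_mod_cast card_sdiff_add_card_eq_card hW
  have h2 : (#Z : ℝ) / 2 ≤ #W := by nlinarith
  refine ⟨h2, fun f hf hs => ?_⟩
  have h3 : ∑ x ∈ W, f x = ∑ x ∈ Z, f x - ∑ x ∈ Z \ W, f x := by
    rw [← sum_sdiff hW]
    ring
  have h4 : ‖∑ x ∈ Z \ W, f x‖ ≤ #(Z \ W) :=
    (norm_sum_le _ _).trans (by simp [hf])
  have h5 := norm_sub_le (∑ x ∈ Z, f x) (∑ x ∈ Z \ W, f x)
  rw [expect_eq_sum_div_card, norm_div, Complex.norm_natCast, div_le_iff₀ (by linarith), h3]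
  nlinarith

lemma qw_bil (α α' : Module.Dual (ZMod 2) Y) :
    Qd fun τ : GX Y ν => ∑ i, α (τ.1 i) * α' (τ.2 i) :=
  Qd_sum _ _ fun i _ => by
    have h := Qd_bil ((LinearMap.mul (ZMod 2) (ZMod 2)).compl₁₂
      (α ∘ₗ (LinearMap.proj i : (ν → Y) →ₗ[ZMod 2] Y) ∘ₗ LinearMap.fst (ZMod 2) (ν → Y) (ν → Y))
      (α' ∘ₗ (LinearMap.proj i : (ν → Y) →ₗ[ZMod 2] Y) ∘ₗ LinearMap.snd (ZMod 2) (ν → Y) (ν → Y)))
    exact h

lemma qw_lin (d : ν → ZMod 2) (α : Module.Dual (ZMod 2) Y) :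
    Qd fun τ : GX Y ν => ∑ i, d i * α (τ.1 i) :=
  Qd_sum _ _ fun i _ =>
    (Qd_lin (α ∘ₗ LinearMap.proj i ∘ₗ LinearMap.fst (ZMod 2) (ν → Y) (ν → Y))).smul (d i)

/-- the forms that define `Vld d` -/
def qwQ (d : ν → ZMod 2) : (Module.Dual (ZMod 2) Y × Module.Dual (ZMod 2) Y) ⊕
    Module.Dual (ZMod 2) Y → GX Y ν → ZMod 2
  | Sum.inl a, τ => ∑ i, a.1 (τ.1 i) * a.2 (τ.2 i) + (-1) * ∑ i, a.2 (τ.1 i) * a.1 (τ.2 i)
  | Sum.inr α, τ => ∑ i, α (τ.1 i) * α (τ.2 i) + (-1) * ∑ i, d i * α (τ.1 i)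

lemma qwQ_qd (d : ν → ZMod 2) (a : (Module.Dual (ZMod 2) Y × Module.Dual (ZMod 2) Y) ⊕
    Module.Dual (ZMod 2) Y) : Qd (qwQ d a) := by
  rcases a with a | α
  · exact (qw_bil a.1 a.2).add ((qw_bil a.2 a.1).smul (-1))
  · exact (qw_bil α α).add ((qw_lin d α).smul (-1))

lemma qw_cross {y : ν → Y} {U : Matrix ν J (ZMod 2)} (hU : act Uᵀ y = 0) (ε : J → Y)
    (α α' : Module.Dual (ZMod 2) Y) : ∑ i, α (y i) * α' (act U ε i) = 0 := by
  have h : ∑ i, α (y i) * α' (act U ε i) = ∑ t, α (act Uᵀ y t) * α' (ε t) := by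
    simp only [act, map_sum, map_smul, smul_eq_mul, mul_sum, sum_mul, transpose_apply]
    rw [sum_comm]
    exact sum_congr rfl fun t _ => sum_congr rfl fun i _ => by ring
  rw [h, hU]
  simp

lemma qw_vld {d : ν → ZMod 2} {τ : GX Y ν} (h : ∀ a, qwQ d a τ = 0) {U : Matrix ν J (ZMod 2)}
    (hU : act Uᵀ τ.1 = 0) (ε : J → Y) : Vld d (τ + sg U ε) := by
  have e1 : (τ + sg U ε).1 = τ.1 := add_zero _
  have e2 : ∀ α α' : Module.Dual (ZMod 2) Y, ∑ i, α (τ.1 i) * α' ((τ + sg U ε).2 i) =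
      ∑ i, α (τ.1 i) * α' (τ.2 i) := fun α α' => by
    rw [← add_zero (∑ i, α (τ.1 i) * α' (τ.2 i)), ← qw_cross hU ε α α', ← sum_add_distrib]
    exact sum_congr rfl fun i _ => by rw [← mul_add, ← map_add]; rfl
  refine ⟨fun α α' => ?_, fun α => ?_⟩
  · rw [e1, e2, e2]
    have h1 := h (Sum.inl (α, α'))
    simp only [qwQ] at h1
    linear_combination h1
  · rw [e1, e2]
    have h1 := h (Sum.inr α)
    simp only [qwQ] at h1
    linear_combination h1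

/-- `τ ↦ Uᵀ y` -/
def qwL (U : Matrix ν J (ZMod 2)) : GX Y ν →ₗ[ZMod 2] J → Y where
  toFun τ := act Uᵀ τ.1
  map_add' _ _ := act_add _ _ _
  map_smul' _ _ := act_smul _ _ _

open Classical in
lemma qw_deg (Gc : Submodule (ZMod 2) (GX Y ν)) {t : ℝ} (ht : 0 ≤ t)
    (h : ∀ α : Module.Dual (ZMod 2) Y, α ≠ 0 → (Nat.card ↥(Gc ⊓ YK ν α) : ℝ) ≤ t)
    {S : Finset (GX Y ν)} (hS : ∀ x ∈ S, x ∈ Gc ∧ ¬ Ndg x) :
    (#S : ℝ) ≤ Fintype.card Y * t := by
  have h1 : S ⊆ (univ.filter fun α : Module.Dual (ZMod 2) Y => α ≠ 0).biUnion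
      fun α => univ.filter fun x => x ∈ Gc ⊓ YK ν α := fun x hx => by
    obtain ⟨α, hα⟩ := not_forall.1 (hS x hx).2
    rw [Classical.not_imp] at hα
    exact mem_biUnion.2 ⟨α, mem_filter.2 ⟨mem_univ _, hα.2⟩,
      mem_filter.2 ⟨mem_univ _, (hS x hx).1, mem_YK.2 hα.1⟩⟩
  have h2 : (#S : ℝ) ≤ ∑ α ∈ univ.filter fun α : Module.Dual (ZMod 2) Y => α ≠ 0,
      (#(univ.filter fun x => x ∈ Gc ⊓ YK ν α) : ℝ) := by
    exact_mod_cast (card_le_card h1).trans card_biUnion_le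
  refine h2.trans ((sum_le_card_nsmul _ _ t fun α hα => ?_).trans ?_)
  · rw [← qv_card, ← Nat.card_eq_fintype_card]
    exact h α (mem_filter.1 hα).2
  · rw [nsmul_eq_mul, ← card_dual (p := 2)]
    exact mul_le_mul_of_nonneg_right (by exact_mod_cast card_le_univ _) ht

/-- Witnesses. `V = Gc ⊓ {act Uᵀ y = 0}` has index at most `|Y| ^ |J|`; `QZ` (with `η / 4`) for the
forms of `Vld d` indexed by `(Dual × Dual) ⊕ Dual`; `W` = the translates by `sg U ε` of the common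
zeros `τ` with `Ndg τ`; the degenerate ones are at most `|Y| s pn`, a fraction `≤ η / 8`.
For `act Uᵀ y = 0` the forms of `τ + sg U ε` and of `τ` agree
(`∑ i, α (y i) * α' (act U ε i) = ∑ t, α (act Uᵀ y t) * α' (ε t)`). -/
theorem QW (kY kJ : ℕ) (c₁ η : ℝ) (hc : 0 < c₁) (hη : 0 < η) :
    ∃ C₁ : ℝ, 1 ≤ C₁ ∧ ∃ c₂ : ℝ, 0 < c₂ ∧ ∃ s : ℝ, 0 < s ∧
    ∀ (ν Y J : Type) [Fintype ν] [DecidableEq ν] [AddCommGroup Y] [Module (ZMod 2) Y] [Fintype Y]
      [Fintype J] [DecidableEq J], Fintype.card Y ≤ kY → Fintype.card J ≤ kJ →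
    ∀ (ε : J → Y) (d : ν → ZMod 2) (U : Matrix ν J (ZMod 2)) (Gc : Submodule (ZMod 2) (GX Y ν)),
    c₁ * pn ν Y ≤ Nat.card Gc →
    (∀ α : Module.Dual (ZMod 2) Y, α ≠ 0 → (Nat.card ↥(Gc ⊓ YK ν α) : ℝ) ≤ s * pn ν Y) →
    ∃ G0 : Submodule (ZMod 2) (GX Y ν), G0 ≤ Gc ∧ (Nat.card Gc : ℝ) ≤ C₁ * Nat.card G0 ∧
      ∃ W : Finset (GX Y ν), c₂ * pn ν Y ≤ #W ∧
        (∀ x ∈ W, x - sg U ε ∈ G0 ∧ act Uᵀ x.1 = 0 ∧ Vld d x ∧ Ndg x) ∧
        ∀ ℓ : Module.Dual (ZMod 2) (GX Y ν), (∃ τ ∈ G0, ℓ τ ≠ 0) →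
          ‖𝔼 x ∈ W, ee (ℓ x)‖ ≤ η := by
  classical
  obtain ⟨η', hη', h1, hle⟩ : ∃ η' : ℝ, 0 < η' ∧ η' ≤ 1 ∧ η' ≤ η :=
    ⟨min η 1, lt_min hη one_pos, min_le_right _ _, min_le_left _ _⟩
  obtain ⟨z, hz⟩ : ∃ z : ℝ, z = (2 ^ (kY * kY + kY + 1) : ℝ)⁻¹ := ⟨_, rfl⟩
  have hz0 : 0 < z := by rw [hz]; positivity
  have hz1 : z ≤ 1 := by rw [hz]; exact inv_le_one_of_one_le₀ (one_le_pow₀ one_le_two)
  have he0 : 0 < z * η' / 4 := by positivity
  have hez : z * η' / 4 ≤ z := by nlinarith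
  have hq : (1 : ℝ) ≤ 2 / (z * η' / 4) ^ 2 := by
    rw [le_div_iff₀ (by positivity)]
    nlinarith
  obtain ⟨C₁, hC⟩ : ∃ C₁ : ℝ,
      C₁ = ((kY : ℝ) + 1) ^ kJ * (2 / (z * η' / 4) ^ 2) ^ 2 ^ (kY * kY + kY) := ⟨_, rfl⟩
  have hk1 : (1 : ℝ) ≤ (kY : ℝ) + 1 := le_add_of_nonneg_left (Nat.cast_nonneg _)
  have hC1 : 1 ≤ C₁ := by
    rw [hC]
    exact one_le_mul_of_one_le_of_one_le (one_le_pow₀ hk1) (one_le_pow₀ hq)
  have hC0 : 0 < C₁ := by linarith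
  refine ⟨C₁, hC1, z * c₁ / C₁ / 2, by positivity, η' / 8 * (z * c₁ / C₁) / (kY + 1),
    by positivity, ?_⟩
  intro ν Y J _ _ _ _ _ _ _ hY hJ ε d U Gc hG hs
  have hpn : 0 < pn ν Y := pow_pos (by exact_mod_cast Nat.card_pos) _
  obtain ⟨V1, h10, hc1, hd, hl⟩ := qw_zero (qwQ (Y := Y) d) (qwQ_qd d) he0 (hez.trans hz1)
    (Gc ⊓ LinearMap.ker (qwL U))
  have hκ : Fintype.card ((Module.Dual (ZMod 2) Y × Module.Dual (ZMod 2) Y) ⊕
      Module.Dual (ZMod 2) Y) ≤ kY * kY + kY := by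
    rw [Fintype.card_sum, Fintype.card_prod, card_dual]
    exact Nat.add_le_add (Nat.mul_le_mul hY hY) hY
  have hV0 : (0 : ℝ) ≤ Nat.card V1 := Nat.cast_nonneg _
  have hI : (Nat.card Gc : ℝ) ≤ C₁ * Nat.card V1 := by
    have a1 : (Nat.card Gc : ℝ) ≤
        Fintype.card (J → Y) * Nat.card ↥(Gc ⊓ LinearMap.ker (qwL U)) := by
      exact_mod_cast qw_index Gc (qwL U)
    have a2 : (Fintype.card (J → Y) : ℝ) ≤ ((kY : ℝ) + 1) ^ kJ := by
      rw [Fintype.card_fun, Nat.cast_pow]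
      have : (Fintype.card Y : ℝ) ≤ kY := by exact_mod_cast hY
      exact (pow_le_pow_left₀ (Nat.cast_nonneg _) (by linarith) _).trans (pow_le_pow_right₀ hk1 hJ)
    have a3 := pow_le_pow_right₀ hq (Nat.pow_le_pow_right (by norm_num : 0 < 2) hκ)
    rw [hC, mul_assoc]
    exact a1.trans (mul_le_mul a2 (hc1.trans (mul_le_mul_of_nonneg_right a3 hV0))
      (Nat.cast_nonneg _) (by positivity))
  set Z := univ.filter fun x : GX Y ν => x ∈ V1 ∧ ∀ a, qwQ d a x = 0 with hZ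
  have hzZ : z * Nat.card V1 ≤ #Z := by
    refine le_trans (mul_le_mul_of_nonneg_right ?_ hV0) hd
    have a1 : (2 ^ (kY * kY + kY) : ℝ)⁻¹ = 2 * z := by
      rw [hz, pow_succ]
      field_simp
    have a2 := inv_anti₀ (by positivity) (pow_le_pow_right₀ (one_le_two (α := ℝ)) hκ)
    linarith
  have hZp : z * c₁ / C₁ * pn ν Y ≤ #Z := by
    refine le_trans ?_ hzZ
    rw [div_mul_eq_mul_div, div_le_iff₀ hC0, mul_assoc, mul_assoc]
    exact mul_le_mul_of_nonneg_left (hG.trans (hI.trans (le_of_eq (mul_comm _ _)))) hz0.le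
  have hZ0 : (0 : ℝ) < #Z := lt_of_lt_of_le (by positivity) hZp
  have hb : (#(Z \ Z.filter Ndg) : ℝ) ≤ η' / 8 * #Z := by
    refine (qw_deg Gc (by positivity) hs fun x hx => ?_).trans ?_
    · rw [mem_sdiff] at hx
      exact ⟨(h10 (mem_filter.1 hx.1).2.1).1, fun k => hx.2 (mem_filter.2 ⟨hx.1, k⟩)⟩
    · have a1 : (Fintype.card Y : ℝ) ≤ kY + 1 := by exact_mod_cast hY.trans (Nat.le_succ _)
      refine (mul_le_mul_of_nonneg_right a1 (by positivity)).trans ?_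
      refine le_trans (le_of_eq ?_) (mul_le_mul_of_nonneg_left hZp (by positivity))
      field_simp
  obtain ⟨k1, k2⟩ := qw_core (filter_subset Ndg Z) hη' h1 hZ0 hb
  refine ⟨V1, fun x hx => (h10 hx).1, hI,
    (Z.filter Ndg).map (Equiv.addRight (sg U ε)).toEmbedding, ?_, fun x hx => ?_, fun ℓ hℓ => ?_⟩
  · rw [card_map]
    linarith
  · obtain ⟨τ, hτ, rfl⟩ := mem_map.1 hx
    obtain ⟨a1, a2⟩ := mem_filter.1 hτ
    obtain ⟨a3, a4⟩ := (mem_filter.1 a1).2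
    have a5 : act Uᵀ τ.1 = 0 := (h10 a3).2
    have e1 : (τ + sg U ε).1 = τ.1 := add_zero _
    show τ + sg U ε - sg U ε ∈ V1 ∧ act Uᵀ (τ + sg U ε).1 = 0 ∧ Vld d (τ + sg U ε) ∧
      Ndg (τ + sg U ε)
    refine ⟨by rwa [add_sub_cancel_right], by rwa [e1], qw_vld a4 a5 ε, fun α hα => a2 α ?_⟩
    rwa [e1] at hα
  · have a1 := k2 (fun x => ee (ℓ x)) (fun x => norm_ee _) ((hl ℓ hℓ).trans (by nlinarith))
    have a2 : 𝔼 x ∈ (Z.filter Ndg).map (Equiv.addRight (sg U ε)).toEmbedding, ee (ℓ x) =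
        (𝔼 x ∈ Z.filter Ndg, ee (ℓ x)) * ee (ℓ (sg U ε)) := by
      rw [expect_eq_sum_div_card, expect_eq_sum_div_card, card_map, sum_map, div_mul_eq_mul_div,
        sum_mul]
      congr 1
      exact sum_congr rfl fun x _ => by rw [← ee_add, ← map_add]; rfl
    rw [a2, norm_mul, norm_ee, mul_one]
    exact a1.trans hle

end Pool.Agent.Work.MP_4523ee_co.F2
end

-- merged part: Pool.Agent.Work.MP_4523ee_co.F2.AlN
section
/-!
The alignment theorem for a product of stable subspaces along a random cube.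
Paper: /team-store/h90_4523ee_CWU.md (one direction version, see the proof hints below).
-/

set_option autoImplicit false
set_option linter.unusedSectionVars false

namespace Pool.Agent.Work.MP_4523ee_co.F2

open Finset hiding dens
open Matrix Fp
open scoped BigOperators ComplexConjugate

variable {ν : Type} [Fintype ν] [DecidableEq ν]
variable {X : Type} [AddCommGroup X] [Module (ZMod 2) X] [Fintype X]
variable {Y : Type} [AddCommGroup Y] [Module (ZMod 2) Y] [Fintype Y]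
variable {I J : Type} [Fintype I] [DecidableEq I] [Fintype J] [DecidableEq J]

/-- `WIT` with `s₁ = 2 ^ kJ / 2 ^ n` (`dens_not_inj'`), `H3W`, `crs_le`, `H4`; then
`finrank (I → X) ≤ card (I → X) ≤ kY` and monotonicity -/
lemma aln_one {c θ c₂ η C : ℝ} {kY kI kJ : ℕ} (hc : 0 < c) (hc1 : c ≤ 1) (hθ : 0 ≤ θ)
    (hθ1 : θ ≤ 1) (hc₂ : 0 < c₂) (hη : 0 ≤ η) (hC : 1 ≤ C) (hY : Fintype.card (I → X) ≤ kY)
    (hI : Fintype.card I ≤ kI) (hJ : Fintype.card J ≤ kJ)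
    {Γ : (ν → ZMod 2) → Submodule (ZMod 2) (GX X ν)} (hΓ : ∀ d, St c θ (Γ d) ∧ Far θ (Γ d))
    {ξ : X} (hξ : ξ ≠ 0) (δ : I → J → ZMod 2) (s : I → J)
    (hi : ∀ i j, δ i = δ j → s i = s j → i = j) (hF : (∀ i, δ i = 0) ∨ Fr c θ θ Γ)
    (W : (ν → ZMod 2) → Matrix ν J (ZMod 2) → Finset (GX (I → X) ν))
    (G0 : (ν → ZMod 2) → Matrix ν J (ZMod 2) → Submodule (ZMod 2) (GX (I → X) ν))
    (h0 : ∀ d U, G0 d U ≤ PI fun i => Γ (d + U *ᵥ δ i))
    (h1 : ∀ d U, (Nat.card (PI fun i => Γ (d + U *ᵥ δ i)) : ℝ) ≤ C * Nat.card (G0 d U))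
    (hW : ∀ d U, ∀ x ∈ W d U, x - sg U (ep s ξ) ∈ G0 d U ∧ Vld d x ∧ Ndg x)
    (hWi : ∀ d U, Inj U → c₂ * pn ν (I → X) ≤ #(W d U)) (hWn : ∀ d U, ¬ Inj U → W d U = ∅)
    (hG : ∀ d U (ℓ : Module.Dual (ZMod 2) (GX (I → X) ν)), (∃ τ ∈ G0 d U, ℓ τ ≠ 0) →
      ‖𝔼 x ∈ W d U, ee (ℓ x)‖ ≤ η) :
    𝔼 M, |(𝔼 U, cw (W (dg M) U) M) - 1| ≤
      √(2 * (2 ^ kJ / 2 ^ Fintype.card ν) + 2 ^ (kY ^ 2) * (η + C * (3 * θ) / c ^ (kI + 2) / c₂) +
        2 ^ ((2 * kY + 1) ^ 2) * (2 ^ (kY ^ 2) * (3 * θ / c ^ (2 * kI + 1))) / c₂ ^ 2) := by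
  have hp : 0 < pn ν (I → X) := pn_pos
  have hcp : 0 < c₂ * pn ν (I → X) := mul_pos hc₂ hp
  have hWe : ∀ d U, W d U = ∅ ∨ c₂ * pn ν (I → X) ≤ #(W d U) := fun d U => by
    by_cases hU : Inj U
    · exact Or.inr (hWi d U hU)
    · exact Or.inl (hWn d U hU)
  have hWP : ∀ d U, ∀ x ∈ W d U, x - sg U (ep s ξ) ∈ PI fun i => Γ (d + U *ᵥ δ i) :=
    fun d U x hx => h0 d U (hW d U x hx).1
  have two : ∀ {a b : ℕ}, a ≤ b → (2 : ℝ) ^ a ≤ 2 ^ b := fun h => pow_le_pow_right₀ one_le_two h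
  have dv : ∀ {t : ℝ} {a b : ℕ}, 0 ≤ t → a ≤ b → t / c ^ a ≤ t / c ^ b := fun ht h =>
    div_le_div_of_nonneg_left ht (pow_pos hc _) (pow_le_pow_of_le_one hc.le hc1 h)
  have h3θ : 0 ≤ 3 * θ := mul_nonneg (by norm_num) hθ
  have e3θ : θ + θ + θ = 3 * θ := by ring
  have hC0 : 0 ≤ C := zero_le_one.trans hC
  have a1 : 𝔼 d, 𝔼 U, ind {U | W d U = ∅} U ≤ (2 : ℝ) ^ kJ / 2 ^ Fintype.card ν := by
    refine Finset.expect_le Finset.univ_nonempty fun d _ => ?_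
    have k1 : {U | W d U = ∅} ⊆ {U : Matrix ν J (ZMod 2) | ¬ Inj U} := fun U hU hI' => by
      have k2 := hWi d U hI'
      have k3 : W d U = ∅ := hU
      rw [k3, Finset.card_empty, Nat.cast_zero] at k2
      exact absurd k2 (not_le.2 hcp)
    have k4 := (dens_mono k1).trans (dens_not_inj' (p := 2) (ν := ν) (ν' := J))
    rw [Nat.cast_ofNat] at k4
    exact k4.trans (div_le_div_of_nonneg_right (two hJ) (pow_pos two_pos _).le)
  have a2 : 𝔼 d, 𝔼 U, 𝔼 U', dgn (W d U) (W d U') ≤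
      2 ^ (kY ^ 2) * (3 * θ / c ^ (2 * kI + 1)) := by
    refine (H3W hc hc1 hθ hθ1 hθ hθ hΓ hξ δ s hi hF W hWP).trans ?_
    rw [e3θ]
    exact mul_le_mul (two (Nat.pow_le_pow_left hY 2)) (dv h3θ (by omega))
      (div_nonneg h3θ (pow_pos hc _).le) (pow_pos two_pos _).le
  have s3 : 0 ≤ η + C * (3 * θ) / c ^ (kI + 2) / c₂ :=
    add_nonneg hη (div_nonneg (div_nonneg (mul_nonneg hC0 h3θ) (pow_pos hc _).le) hc₂.le)
  have a3 : ∀ b : Bil 2 (I → X), b ≠ 0 → 𝔼 d, 𝔼 U, 𝔼 U', crs b (W d U) (W d U') ≤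
      η + C * (3 * θ) / c ^ (kI + 2) / c₂ := fun b hb => by
    have k1 := H4 hc hc1 hθ hθ1 hθ hθ hΓ hξ δ s hi hF hb G0 hC h0 h1
    have k2 : 𝔼 d, 𝔼 U, 𝔼 U', crs b (W d U) (W d U') ≤
        𝔼 d, 𝔼 U : Matrix ν J (ZMod 2), 𝔼 U', (η + q4 (fun i => Γ (d + U *ᵥ δ i))
          (sg U (ep s ξ)) b (G0 d U') / (c₂ * pn ν (I → X))) :=
      Finset.expect_le_expect fun d _ => Finset.expect_le_expect fun U _ =>
        Finset.expect_le_expect fun U' _ => crs_le (hWP d U) hc₂ (hWe d U) hη (hG d U') b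
    simp only [Finset.expect_add_distrib, Fintype.expect_const, ← Finset.expect_div] at k2
    refine k2.trans (add_le_add le_rfl ?_)
    rw [e3θ] at k1
    rw [div_le_iff₀ hcp]
    refine k1.trans ?_
    have k3 := dv (mul_nonneg hC0 h3θ) (Nat.add_le_add_right hI 2)
    rw [← mul_assoc _ c₂, div_mul_cancel₀ _ hc₂.ne']
    exact mul_le_mul_of_nonneg_right k3 hp.le
  have hr : Module.finrank (ZMod 2) (I → X) ≤ kY := by
    have k1 := Module.card_eq_pow_finrank (K := ZMod 2) (V := I → X)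
    rw [ZMod.card] at k1
    have k2 : Module.finrank (ZMod 2) (I → X) < 2 ^ Module.finrank (ZMod 2) (I → X) :=
      Nat.lt_two_pow_self
    omega
  refine (WIT W hc₂ s3 (fun d U x hx => (hW d U x hx).2) hWe a1 a2 a3).trans
    (Real.sqrt_le_sqrt ?_)
  have s2 : (0 : ℝ) ≤ 2 ^ (kY ^ 2) * (3 * θ / c ^ (2 * kI + 1)) :=
    mul_nonneg (pow_pos two_pos _).le (div_nonneg h3θ (pow_pos hc _).le)
  refine add_le_add (add_le_add le_rfl ?_) (div_le_div_of_nonneg_right ?_ (pow_pos hc₂ 2).le)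
  · exact mul_le_mul_of_nonneg_right (two (Nat.pow_le_pow_left hr 2)) s3
  · exact mul_le_mul_of_nonneg_right (two (Nat.pow_le_pow_left (by omega) 2)) s2

/-- `w M U = 𝔼 t, cw (W (dg M + U t) U) M`; tile invariance from `dg_add`, `dg_cj`, `cw_tile` and a
translation of `t`; the mean by the triangle inequality -/
lemma aln_avg (W : (ν → ZMod 2) → Matrix ν J (ZMod 2) → Finset (GX Y ν))
    (hU : ∀ d U, ∀ x ∈ W d U, act Uᵀ x.1 = 0) {γ : ℝ}
    (hγ : ∀ t : J → ZMod 2, 𝔼 M, |(𝔼 U, cw (W (dg M + U *ᵥ t) U) M) - 1| ≤ γ) :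
    ∃ w : SymM 2 ν → Matrix ν J (ZMod 2) → ℝ, (∀ M U, 0 ≤ w M U) ∧
      (∀ M U (N : SymM 2 J), w (M + cj U N) U = w M U) ∧
      (∀ M U, w M U ≠ 0 → ∃ t : J → ZMod 2, ∃ x ∈ W (dg M + U *ᵥ t) U, x.2 = act M.1 x.1) ∧
      𝔼 M, |(𝔼 U, w M U) - 1| ≤ γ := by
  refine ⟨fun M U => 𝔼 t : J → ZMod 2, cw (W (dg M + U *ᵥ t) U) M,
    fun M U => expect_nonneg fun t _ => cw_nonneg _ _, fun M U N => ?_, fun M U h => ?_, ?_⟩
  · refine Fintype.expect_equiv (Equiv.addLeft (dg N)) _ _ fun t => ?_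
    rw [cw_tile (hU _ _), dg_add, dg_cj, add_assoc, ← mulVec_add]
    rfl
  · obtain ⟨t, -, ht⟩ := exists_ne_zero_of_expect_ne_zero h
    exact ⟨t, cw_ne ht⟩
  · refine le_trans ?_ (expect_le univ_nonempty fun t _ => hγ t)
    rw [expect_comm]
    refine expect_le_expect fun M _ => ?_
    rw [expect_comm, ← expect_const (s := (univ : Finset (J → ZMod 2))) univ_nonempty (1 : ℝ),
      ← expect_sub_distrib, expect_const univ_nonempty]
    exact abs_expect_le _ _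

/-- the choice of the constants -/
lemma aln_const (kY kI kJ : ℕ) {c γ : ℝ} (hc : 0 < c) (hγ : 0 < γ) :
    ∃ η : ℝ, 0 < η ∧ ∀ C c₂ s : ℝ, 0 < C → 0 < c₂ → 0 < s → ∃ θ : ℝ, 0 < θ ∧ θ ≤ 1 ∧
      θ / c ^ kI ≤ s ∧ ∃ n0 : ℕ, ∀ n : ℕ, n0 ≤ n →
      √(2 * (2 ^ kJ / 2 ^ n) + 2 ^ (kY ^ 2) * (η + C * (3 * θ) / c ^ (kI + 2) / c₂) +
        2 ^ ((2 * kY + 1) ^ 2) * (2 ^ (kY ^ 2) * (3 * θ / c ^ (2 * kI + 1))) / c₂ ^ 2) ≤ γ := by
  refine ⟨γ ^ 2 / 4 / 2 ^ (kY ^ 2), by positivity, fun C c₂ s hC hc₂ hs => ?_⟩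
  obtain ⟨A, hA⟩ : ∃ A : ℝ, A = 2 ^ (kY ^ 2) * (C * 3 / c ^ (kI + 2) / c₂) +
    2 ^ ((2 * kY + 1) ^ 2) * (2 ^ (kY ^ 2) * (3 / c ^ (2 * kI + 1))) / c₂ ^ 2 := ⟨_, rfl⟩
  have hA0 : 0 < A := by rw [hA]; positivity
  obtain ⟨θ, h0, h1, h2, h3⟩ : ∃ θ : ℝ, 0 < θ ∧ θ ≤ 1 ∧ θ ≤ s * c ^ kI ∧ θ ≤ γ ^ 2 / 4 / A :=
    ⟨min 1 (min (s * c ^ kI) (γ ^ 2 / 4 / A)), by positivity, min_le_left _ _,
      (min_le_right _ _).trans (min_le_left _ _), (min_le_right _ _).trans (min_le_right _ _)⟩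
  obtain ⟨n0, hn0⟩ := exists_nat_ge (2 * 2 ^ kJ / (γ ^ 2 / 4) : ℝ)
  refine ⟨θ, h0, h1, (div_le_iff₀ (by positivity)).2 h2, n0, fun n hn => ?_⟩
  have e1 : (2 : ℝ) * (2 ^ kJ / 2 ^ n) ≤ γ ^ 2 / 4 := by
    have a1 : (n0 : ℝ) ≤ 2 ^ n := by exact_mod_cast hn.trans n.lt_two_pow_self.le
    rw [← mul_div_assoc, div_le_comm₀ (by positivity) (by positivity)]
    exact hn0.trans a1
  rw [le_div_iff₀ hA0] at h3
  have e2 : 2 ^ (kY ^ 2) * (γ ^ 2 / 4 / 2 ^ (kY ^ 2) + C * (3 * θ) / c ^ (kI + 2) / c₂) +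
      2 ^ ((2 * kY + 1) ^ 2) * (2 ^ (kY ^ 2) * (3 * θ / c ^ (2 * kI + 1))) / c₂ ^ 2 =
      γ ^ 2 / 4 + θ * A := by
    rw [hA]
    field_simp
    ring
  rw [add_assoc, e2]
  exact Real.sqrt_le_iff.2 ⟨hγ.le, by nlinarith [sq_nonneg γ]⟩

/-- `QW` with `kY = k ^ kI`, `c₁ = c ^ kI / R` for every `(d, U)` (use the hypotheses at `t = 0`,
`card_PI`, `pn_pi`, `card_YK_PI`), `W = ∅` if `U` is not injective; `aln_one` for every `t` with
`C = R * C₁` (`Vld.unshift`), `aln_avg` -/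
theorem ALN (k kI kJ : ℕ) (c R γ : ℝ) (hc : 0 < c) (hc1 : c ≤ 1) (hR : 1 ≤ R) (hγ : 0 < γ) :
    ∃ θ : ℝ, 0 < θ ∧ ∃ n0 : ℕ, ∀ (ν X I J : Type) [Fintype ν] [DecidableEq ν] [AddCommGroup X]
      [Module (ZMod 2) X] [Fintype X] [Fintype I] [DecidableEq I] [Fintype J] [DecidableEq J],
    n0 ≤ Fintype.card ν → Fintype.card X ≤ k → Fintype.card I ≤ kI → Fintype.card J ≤ kJ →
    ∀ ξ : X, ξ ≠ 0 → ∀ Γ : (ν → ZMod 2) → Submodule (ZMod 2) (GX X ν),
    (∀ d, St c θ (Γ d) ∧ Far θ (Γ d)) →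
    ∀ (δ : (J → ZMod 2) → I → J → ZMod 2) (s : I → J),
    (∀ t i j, δ t i = δ t j → s i = s j → i = j) → ((∀ t i, δ t i = 0) ∨ Fr c θ θ Γ) →
    ∀ Gc : (ν → ZMod 2) → Matrix ν J (ZMod 2) → Submodule (ZMod 2) (GX (I → X) ν),
    (∀ d U t, Gc (d + U *ᵥ t) U ≤ PI fun i => Γ (d + U *ᵥ δ t i)) →
    (∀ (d : ν → ZMod 2) (U : Matrix ν J (ZMod 2)) (t : J → ZMod 2),
      (Nat.card (PI fun i => Γ (d + U *ᵥ δ t i)) : ℝ) ≤ R * Nat.card (Gc (d + U *ᵥ t) U)) →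
    ∃ w : SymM 2 ν → Matrix ν J (ZMod 2) → ℝ, (∀ M U, 0 ≤ w M U) ∧
      (∀ M U (N : SymM 2 J), w (M + cj U N) U = w M U) ∧
      (∀ M U, w M U ≠ 0 → Inj U ∧ ∃ (t : J → ZMod 2) (x : GX (I → X) ν),
        x - sg U (ep s ξ) ∈ Gc (dg M + U *ᵥ t) U ∧ act Uᵀ x.1 = 0 ∧ x.2 = act M.1 x.1) ∧
      𝔼 M, |(𝔼 U, w M U) - 1| ≤ γ := by
  classical
  have hR0 : 0 < R := by linarith
  obtain ⟨η, hη, hconst⟩ := aln_const (k ^ kI) kI kJ hc hγ
  obtain ⟨C₁, hC1, c₂, hc₂, s₀, hs₀, hQW⟩ := QW (k ^ kI) kJ (c ^ kI / R) η (by positivity) hη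
  obtain ⟨θ, hθ, hθ1, hθs, n0, hn0⟩ := hconst (R * C₁) c₂ s₀ (by positivity) hc₂ hs₀
  refine ⟨θ, hθ, n0, ?_⟩
  intro ν X I J _ _ _ _ _ _ _ _ _ hn hX hI hJ ξ hξ Γ hΓ δ s hi hF Gc hle hcard
  have hY : Fintype.card (I → X) ≤ k ^ kI := by
    rw [Fintype.card_fun]
    exact (Nat.pow_le_pow_left hX _).trans
      (Nat.pow_le_pow_right (lt_of_lt_of_le Fintype.card_pos hX) hI)
  have hpn : 0 < pn ν (I → X) := pn_pos
  have hcI : c ^ kI ≤ c ^ Fintype.card I := pow_le_pow_of_le_one hc.le hc1 hI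
  have hA : ∀ d U, c ^ kI / R * pn ν (I → X) ≤ Nat.card (Gc d U) := fun d U => by
    have h1 := hcard d U 0
    rw [mulVec_zero, add_zero, card_PI, Nat.cast_prod] at h1
    have h2 : ∏ _i : I, c * pn ν X ≤ ∏ i : I, (Nat.card (Γ (d + U *ᵥ δ 0 i)) : ℝ) :=
      prod_le_prod (fun _ _ => (mul_pos hc pn_pos).le) fun i _ => (hΓ _).1.1
    rw [prod_const, card_univ, mul_pow, ← pn_pi] at h2
    rw [div_mul_eq_mul_div, div_le_iff₀ hR0, mul_comm _ R]
    exact (mul_le_mul_of_nonneg_right hcI hpn.le).trans (h2.trans h1)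
  have hB : ∀ d U (α : Module.Dual (ZMod 2) (I → X)), α ≠ 0 →
      (Nat.card ↥(Gc d U ⊓ YK ν α) : ℝ) ≤ s₀ * pn ν (I → X) := fun d U α hα => by
    have h1 := hle d U 0
    rw [mulVec_zero, add_zero] at h1
    have h2 := card_YK_PI (Γ := fun i => Γ (d + U *ᵥ δ 0 i)) (fun i => hΓ _) hc hc1 hθ.le hα
    have h3 : (Nat.card ↥(Gc d U ⊓ YK ν α) : ℝ) ≤
        Nat.card ↥((PI fun i => Γ (d + U *ᵥ δ 0 i)) ⊓ YK ν α) := by
      exact_mod_cast alkA_mono (inf_le_inf_right _ h1)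
    refine h3.trans (h2.trans (mul_le_mul_of_nonneg_right (le_trans ?_ hθs) hpn.le))
    exact div_le_div_of_nonneg_left hθ.le (by positivity) hcI
  choose G0 hG0 hG1 W0 hW1 hW2 hW3 using fun d U =>
    hQW ν (I → X) J hY hJ (ep s ξ) d U (Gc d U) (hA d U) (hB d U)
  let W : (ν → ZMod 2) → Matrix ν J (ZMod 2) → Finset (GX (I → X) ν) :=
    fun d U => if Inj U then W0 d U else ∅
  have hWi : ∀ d U, Inj U → W d U = W0 d U := fun d U h => if_pos h
  have hWn : ∀ d U, ¬ Inj U → W d U = ∅ := fun d U h => if_neg h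
  have hWm : ∀ d U, ∀ x ∈ W d U, Inj U ∧ x ∈ W0 d U := fun d U x hx => by
    by_cases h : Inj U
    · exact ⟨h, hWi d U h ▸ hx⟩
    · rw [hWn d U h] at hx
      exact absurd hx (notMem_empty x)
  obtain ⟨w, w0, w1, w2, w3⟩ := aln_avg (γ := γ) W
    (fun d U x hx => (hW2 d U x (hWm d U x hx).2).2.1) fun t => by
      refine le_trans (aln_one hc hc1 hθ.le hθ1 hc₂ hη.le
        (one_le_mul_of_one_le_of_one_le hR hC1) hY hI hJ hΓ hξ (δ t) s (hi t)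
        (hF.imp_left fun h => h t) (fun d U => W (d + U *ᵥ t) U) (fun d U => G0 (d + U *ᵥ t) U)
        (fun d U => (hG0 _ U).trans (hle d U t)) (fun d U => ?_) (fun d U x hx => ?_)
        (fun d U h => ?_) (fun d U h => hWn _ U h) fun d U ℓ hℓ => ?_) (hn0 _ hn)
      · rw [mul_assoc]
        exact (hcard d U t).trans (mul_le_mul_of_nonneg_left (hG1 _ U) hR0.le)
      · obtain ⟨a1, a2, a3, a4⟩ := hW2 _ U x (hWm _ U x hx).2
        exact ⟨a1, a3.unshift a2, a4⟩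
      · rw [hWi _ U h]
        exact hW1 _ U
      · by_cases h : Inj U
        · rw [hWi _ U h]
          exact hW3 _ U ℓ hℓ
        · rw [hWn _ U h, expect_empty, norm_zero]
          exact hη.le
  refine ⟨w, w0, w1, fun M U h => ?_, w3⟩
  obtain ⟨t, x, hx, e⟩ := w2 M U h
  obtain ⟨a0, hx0⟩ := hWm _ U x hx
  obtain ⟨a1, a2, -, -⟩ := hW2 _ U x hx0
  exact ⟨a0, t, x, hG0 _ U a1, a2, e⟩

end Pool.Agent.Work.MP_4523ee_co.F2
end

-- merged part: Pool.Agent.Work.MP_4523ee_co.F2.AlZ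
section
/-!
The three cases and the alignment theorem CWU.
Paper: /team-store/h90_4523ee_CWU.md (one direction version, see the proof hints below).
-/

set_option autoImplicit false
set_option linter.unusedSectionVars false

namespace Pool.Agent.Work.MP_4523ee_co.F2

open Finset hiding dens
open Matrix Fp
open scoped BigOperators ComplexConjugate

variable {ν : Type} [Fintype ν] [DecidableEq ν]
variable {X : Type} [AddCommGroup X] [Module (ZMod 2) X] [Fintype X]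
variable {Y : Type} [AddCommGroup Y] [Module (ZMod 2) Y] [Fintype Y]
variable {I J : Type} [Fintype I] [DecidableEq I] [Fintype J] [DecidableEq J]

/-- a tile weight with marginal near one, aligned on `D'` -/
def Out (K : ℕ) (ξ : X) (Γ : (ν → ZMod 2) → Submodule (ZMod 2) (GX X ν))
    (D' : Set (ν → ZMod 2)) (m : ℕ) (γ : ℝ) : Prop :=
  ∃ w : SymM 2 ν → Matrix ν (Fin m) (ZMod 2) → ℝ, (∀ M U, 0 ≤ w M U) ∧
    (∀ M U (N : SymM 2 (Fin m)), w (M + cj U N) U = w M U) ∧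
    (∀ M U, w M U ≠ 0 → Inj U ∧ ∀ t : Fin m → ZMod 2, dg M + U *ᵥ t ∈ D' →
      Algn K ξ (Γ (dg M + U *ᵥ t)) M U) ∧
    𝔼 M, |(𝔼 U, w M U) - 1| ≤ γ

lemma St.mono {c c' θ θ' : ℝ} {Γ : Submodule (ZMod 2) (GX X ν)} (h : St c θ Γ) (hc : 0 < c')
    (hcc : c' ≤ c) (hθ : θ ≤ θ') : St c' θ' Γ := by
  have h0 : 0 ≤ pn ν X := pn_pos.le
  refine ⟨(mul_le_mul_of_nonneg_right hcc h0).trans h.1,
    h.2.1.trans (div_le_div_of_nonneg_left h0 hc hcc), fun E h1 h2 => (h.2.2 E h1 h2).trans ?_⟩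
  exact mul_le_mul_of_nonneg_right hθ pn_pos.le

lemma Far.mono {θ θ' : ℝ} {Γ : Submodule (ZMod 2) (GX X ν)} (h : Far θ Γ) (hθ : θ ≤ θ') :
    Far θ' Γ := le_trans h (mul_le_mul_of_nonneg_right hθ pn_pos.le)

/-- `Wd = ⊤`, `τ = ∑ j, w j • (y j - ux (U · j) ξ)`, characteristic two -/
lemma algn_of {K : ℕ} (hK : 1 ≤ K) {ξ : X} {Γ : Submodule (ZMod 2) (GX X ν)} {M : SymM 2 ν}
    {U : Matrix ν J (ZMod 2)} (h : ∀ j : J, ∃ y : GX X ν, y - ux (fun a => U a j) ξ ∈ Γ ∧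
      act Uᵀ y.1 = 0 ∧ y.2 = act M.1 y.1) : Algn K ξ Γ M U := by
  choose y h1 h2 h3 using h
  refine ⟨⊤, ?_, fun w _ => ⟨∑ j, w j • (y j - ux (fun a => U a j) ξ),
    Submodule.sum_mem _ fun j _ => Submodule.smul_mem _ _ (h1 j), ?_, ?_⟩⟩
  · rw [Nat.card_congr (Submodule.topEquiv (R := ZMod 2) (M := J → ZMod 2)).toEquiv]
    exact Nat.le_mul_of_pos_left _ hK
  · have e1 : (∑ j, w j • (y j - ux (fun a => U a j) ξ)).1 = ∑ j, w j • (y j).1 := by
      rw [Prod.fst_sum]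
      exact sum_congr rfl fun j _ => by simp [ux]
    have e2 : act M.1 (∑ j, w j • (y j).1) = ∑ j, w j • (y j).2 := by
      have := map_sum (actL X M.1) (fun j => w j • (y j).1) univ
      refine this.trans (sum_congr rfl fun j _ => ?_)
      rw [map_smul, h3 j]
      rfl
    rw [e1, e2, Prod.snd_sum, ← sum_sub_distrib]
    funext i
    rw [Finset.sum_apply, mulVec, dotProduct, Finset.sum_smul]
    refine sum_congr rfl fun j _ => ?_
    simp only [ux, Prod.smul_snd, Prod.snd_sub, Pi.sub_apply, Pi.smul_apply, smul_sub]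
    rw [sub_sub_cancel_left, ZModModule.neg_eq_self, smul_smul, mul_comm]
  · have e1 : (∑ j, w j • (y j - ux (fun a => U a j) ξ)).1 = ∑ j, w j • (y j).1 := by
      rw [Prod.fst_sum]
      exact sum_congr rfl fun j _ => by simp [ux]
    rw [e1]
    have := map_sum (actL X Uᵀ) (fun j => w j • (y j).1) univ
    refine this.trans (sum_eq_zero fun j _ => ?_)
    rw [map_smul]
    show w j • act Uᵀ (y j).1 = 0
    rw [h2 j, smul_zero]

lemma alzA_LZ : (Nat.card (LZ X ν) : ℝ) = pn ν X := by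
  have e : LZ X ν ≃ (ν → X) :=
    { toFun := fun τ => τ.1.2
      invFun := fun z => ⟨(0, z), rfl⟩
      left_inv := fun τ => Subtype.ext (Prod.ext (Eq.symm τ.2) rfl)
      right_inv := fun _ => rfl }
  rw [Nat.card_congr e, Nat.card_fun, pn, Nat.card_eq_fintype_card (α := ν)]
  push_cast
  rfl

lemma alzA_pn : 0 < pn ν X := pow_pos (Nat.cast_pos.2 Nat.card_pos) _

/-- `w ↦ (0, U w ⊗ ξ)` -/
def alzA_f (U : Matrix ν J (ZMod 2)) (ξ : X) : (J → ZMod 2) →ₗ[ZMod 2] GX X ν where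
  toFun w := ux (U *ᵥ w) ξ
  map_add' w w' := by
    refine Prod.ext (by simp [ux]) ?_
    funext i
    simp [ux, mulVec_add, add_smul]
  map_smul' a w := by
    refine Prod.ext (by simp [ux]) ?_
    funext i
    simp [ux, mulVec_smul, mul_smul]

/-- `Wd` = the preimage of `Γ` under the linear map `f : w ↦ ux (U *ᵥ w) ξ` into `LZ`
(`|LZ| = pn`; `card_ker_map`, `card_inf_index` with `A = range f`, `B = Γ ⊓ LZ`, `C = LZ`) -/
lemma algn_near {K : ℕ} {θ : ℝ} (hθ : 0 < θ) (hK : 1 / θ ≤ K) (ξ : X)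
    {Γ : Submodule (ZMod 2) (GX X ν)} (h : ¬ Far θ Γ) (M : SymM 2 ν) (U : Matrix ν J (ZMod 2)) :
    Algn K ξ Γ M U := by
  set f := alzA_f U ξ with hf
  refine ⟨Γ.comap f, ?_, fun w hw => ⟨f w, hw, ?_, ?_⟩⟩
  · have hr : LinearMap.range f ≤ LZ X ν := by
      rintro _ ⟨w, rfl⟩
      rfl
    have h1 : (Nat.card (LZ X ν) : ℝ) ≤ 1 / θ * Nat.card ↥(Γ ⊓ LZ X ν) := by
      rw [alzA_LZ, one_div, le_inv_mul_iff₀ hθ]
      exact (not_le.1 h).le
    have h2 := card_inf_index (LinearMap.range f) (inf_le_right : Γ ⊓ LZ X ν ≤ LZ X ν) h1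
    rw [inf_eq_left.2 hr, inf_comm Γ, ← inf_assoc, inf_eq_left.2 hr] at h2
    have h3 := card_ker_map ⊤ f
    have h4 := card_ker_map (Γ.comap f) f
    rw [Nat.card_congr (Submodule.topEquiv (R := ZMod 2) (M := J → ZMod 2)).toEquiv, top_inf_eq,
      Submodule.map_top] at h3
    rw [inf_eq_right.2 (LinearMap.ker_le_comap f), Submodule.map_comap_eq] at h4
    have h5 : (Nat.card (LinearMap.range f) : ℝ) ≤ K * Nat.card ↥(LinearMap.range f ⊓ Γ) :=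
      h2.trans (mul_le_mul_of_nonneg_right hK (Nat.cast_nonneg _))
    have h6 : Nat.card (LinearMap.range f) ≤ K * Nat.card ↥(LinearMap.range f ⊓ Γ) := by
      exact_mod_cast h5
    rw [h3, h4, mul_left_comm]
    exact Nat.mul_le_mul_left _ h6
  · show (fun i => (U *ᵥ w) i • ξ) - act M.1 0 = _
    rw [act_zero, sub_zero]
  · exact act_zero _

/-- `w M U = ind {U | Inj U} U`, `dens_not_inj'` -/
theorem NEAR (m : ℕ) (γ : ℝ) (hγ : 0 < γ) : ∃ n0 : ℕ, ∀ (ν X : Type) [Fintype ν] [DecidableEq ν]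
    [AddCommGroup X] [Module (ZMod 2) X] [Fintype X], n0 ≤ Fintype.card ν →
    ∀ (K : ℕ) (θ : ℝ), 0 < θ → 1 / θ ≤ K → ∀ (ξ : X)
      (Γ : (ν → ZMod 2) → Submodule (ZMod 2) (GX X ν)) (D' : Set (ν → ZMod 2)),
      (∀ d ∈ D', ¬ Far θ (Γ d)) → Out K ξ Γ D' m γ := by
  obtain ⟨n0, hn0⟩ := pow_unbounded_of_one_lt ((2 : ℝ) ^ m / γ) (one_lt_two (α := ℝ))
  refine ⟨n0, fun ν X _ _ _ _ _ hn K θ hθ hK ξ Γ D' hD => ?_⟩
  refine ⟨fun _ U => ind {U : Matrix ν (Fin m) (ZMod 2) | Inj U} U, fun _ _ => ind_nonneg _ _,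
    fun _ _ _ => rfl, fun M U hw => ⟨?_, fun t ht => algn_near hθ hK ξ (hD _ ht) M U⟩, ?_⟩
  · by_contra hU
    exact hw (ind_of_not hU)
  · have h1 := dens_not_inj' (p := 2) (ν := ν) (ν' := Fin m)
    have h2 := dens_compl {U : Matrix ν (Fin m) (ZMod 2) | Inj U}
    have h3 := dens_le_one {U : Matrix ν (Fin m) (ZMod 2) | Inj U}
    have h4 : (2 : ℝ) ^ n0 ≤ 2 ^ Fintype.card ν := pow_le_pow_right₀ one_le_two hn
    have h5 : (2 : ℝ) ^ m / 2 ^ Fintype.card ν ≤ γ := by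
      rw [div_le_iff₀ (by positivity)]
      rw [div_lt_iff₀ hγ] at hn0
      nlinarith
    rw [Fintype.card_fin, Nat.cast_ofNat] at h1
    rw [Finset.expect_const univ_nonempty]
    show |dens {U : Matrix ν (Fin m) (ZMod 2) | Inj U} - 1| ≤ γ
    rw [abs_sub_comm, abs_of_nonneg (by linarith), ← h2]
    exact h1.trans h5

lemma h22_co_act {J' : Type} [Fintype J'] (U : Matrix J' ν (ZMod 2)) (x : ν → I → X) (i : I) :
    act U (fun a => x a i) = fun b => act U x b i := by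
  funext b
  simp only [act, Finset.sum_apply, Pi.smul_apply]

lemma h22_algn {K : ℕ} (hK : 1 ≤ K) {ξ : X} {Γ : Submodule (ZMod 2) (GX X ν)} {M : SymM 2 ν}
    {U : Matrix ν J (ZMod 2)} {s : I → J} {x : GX (I → X) ν} (h1 : act Uᵀ x.1 = 0)
    (h2 : x.2 = act M.1 x.1) (h : ∀ j, ∃ i, s i = j ∧ co i (x - sg U (ep s ξ)) ∈ Γ) :
    Algn K ξ Γ M U := by
  refine algn_of hK fun j => ?_
  obtain ⟨i, rfl, hi⟩ := h j
  rw [map_sub, co_sg] at hi
  refine ⟨co i x, hi, (h22_co_act Uᵀ x.1 i).trans ?_, Eq.trans ?_ (h22_co_act M.1 x.1 i).symm⟩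
  · rw [h1]
    rfl
  · rw [← h2]
    rfl

lemma h22_vtx (d : ν → ZMod 2) (U : Matrix ν J (ZMod 2)) (t t' : J → ZMod 2) :
    d + U *ᵥ t + U *ᵥ (t' - t) = d + U *ᵥ t' := by
  rw [add_assoc, ← mulVec_add, add_sub_cancel]

lemma h22_inf {V₀ T : Type} [AddCommGroup V₀] [Module (ZMod 2) V₀] [Finite V₀] [DecidableEq T]
    (C : Submodule (ZMod 2) V₀) (B : T → Submodule (ZMod 2) V₀) {r : ℝ} (hr : 0 ≤ r)
    (h1 : ∀ t, B t ≤ C) (h2 : ∀ t, (Nat.card C : ℝ) ≤ r * Nat.card (B t)) (s : Finset T) :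
    (Nat.card C : ℝ) ≤ r ^ #s * Nat.card ↥(C ⊓ s.inf B) := by
  induction s using Finset.induction_on with
  | empty => simp
  | insert t s ht ih =>
    have h3 := card_inf_index (C ⊓ s.inf B) (h1 t) (h2 t)
    rw [inf_eq_left.2 (inf_le_left : C ⊓ s.inf B ≤ C)] at h3
    rw [card_insert_of_notMem ht, inf_insert, inf_comm (B t), ← inf_assoc, pow_succ, mul_assoc]
    exact ih.trans (mul_le_mul_of_nonneg_left h3 (pow_nonneg hr _))

/-- `ALN` with `I = (Fin m → ZMod 2) × Fin m`, `s = Prod.snd`, `δ t i = t + i.1`, `R = 1`,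
`Gc d U = PI fun i => Γ (d + U *ᵥ i.1)`; for the vertex `t'` use the coordinates `(t' - t, j)`,
`co_sg`, `algn_of` -/
theorem FREE (k m : ℕ) (c γ : ℝ) (hc : 0 < c) (hc1 : c ≤ 1) (hγ : 0 < γ) :
    ∃ θ : ℝ, 0 < θ ∧ ∃ n0 : ℕ, ∀ (ν X : Type) [Fintype ν] [DecidableEq ν]
    [AddCommGroup X] [Module (ZMod 2) X] [Fintype X], n0 ≤ Fintype.card ν → Fintype.card X ≤ k →
    ∀ ξ : X, ξ ≠ 0 → ∀ Γ : (ν → ZMod 2) → Submodule (ZMod 2) (GX X ν),
      (∀ d, St c θ (Γ d) ∧ Far θ (Γ d)) → Fr c θ θ Γ → ∀ K : ℕ, 1 ≤ K →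
      Out K ξ Γ Set.univ m γ := by
  obtain ⟨θ, hθ, n0, h⟩ := ALN k (2 ^ m * m) m c 1 γ hc hc1 le_rfl hγ
  refine ⟨θ, hθ, n0, fun ν X _ _ _ _ _ hn hX ξ hξ Γ hΓ hF K hK => ?_⟩
  have e : ∀ (d : ν → ZMod 2) (U : Matrix ν (Fin m) (ZMod 2)) (t : Fin m → ZMod 2),
      (PI fun i : (Fin m → ZMod 2) × Fin m => Γ (d + U *ᵥ t + U *ᵥ i.1)) =
        PI fun i : (Fin m → ZMod 2) × Fin m => Γ (d + U *ᵥ (t + i.1)) := fun d U t => by
    simp only [mulVec_add, add_assoc]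
  obtain ⟨w, w0, w1, w2, w3⟩ := h ν X ((Fin m → ZMod 2) × Fin m) (Fin m) hn hX (by simp)
    (by simp) ξ hξ Γ hΓ (fun t i => t + i.1) Prod.snd
    (fun t i j h1 h2 => Prod.ext (add_left_cancel h1) h2) (Or.inr hF)
    (fun d U => PI fun i => Γ (d + U *ᵥ i.1)) (fun d U t => (e d U t).le)
    fun d U t => by rw [one_mul, e]
  refine ⟨w, w0, w1, fun M U hw => ?_, w3⟩
  obtain ⟨hU, t, x, h1, h2, h3⟩ := w2 M U hw
  refine ⟨hU, fun t' _ => h22_algn (s := Prod.snd) hK h2 h3 fun j => ⟨(t' - t, j), rfl, ?_⟩⟩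
  have h4 := mem_PI.1 h1 (t' - t, j)
  rwa [h22_vtx] at h4

/-- `ALN` for the constant family `Γ₀` with `I = J = Fin m`, `s = id`, `δ = 0`,
`Gc d U = PI fun _ => Γ₀ ⊓ ⨅ t, ⨅ (_ : d + U *ᵥ t ∈ D'), Γ (d + U *ᵥ t)`,
`R = (r ^ 2 ^ m) ^ m` (induction on a finset of `t` with `card_inf_index`, then `card_PI`) -/
theorem POP (k m : ℕ) (c r γ : ℝ) (hc : 0 < c) (hc1 : c ≤ 1) (hr : 1 ≤ r) (hγ : 0 < γ) :
    ∃ θ : ℝ, 0 < θ ∧ ∃ n0 : ℕ, ∀ (ν X : Type) [Fintype ν] [DecidableEq ν]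
    [AddCommGroup X] [Module (ZMod 2) X] [Fintype X], n0 ≤ Fintype.card ν → Fintype.card X ≤ k →
    ∀ ξ : X, ξ ≠ 0 → ∀ Γ₀ : Submodule (ZMod 2) (GX X ν), St c θ Γ₀ → Far θ Γ₀ →
    ∀ (Γ : (ν → ZMod 2) → Submodule (ZMod 2) (GX X ν)) (D' : Set (ν → ZMod 2)),
      (∀ d ∈ D', (Nat.card Γ₀ : ℝ) ≤ r * Nat.card ↥(Γ₀ ⊓ Γ d)) → ∀ K : ℕ, 1 ≤ K →
      Out K ξ Γ D' m γ := by
  classical
  have hr0 : 0 ≤ r := zero_le_one.trans hr
  obtain ⟨θ, hθ, n0, h⟩ := ALN k m m c ((r ^ 2 ^ m) ^ m) γ hc hc1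
    (one_le_pow₀ (one_le_pow₀ hr)) hγ
  refine ⟨θ, hθ, n0, fun ν X _ _ _ _ _ hn hX ξ hξ Γ₀ hS hF Γ D' hD K hK => ?_⟩
  let B : (ν → ZMod 2) → Submodule (ZMod 2) (GX X ν) := fun d =>
    if d ∈ D' then Γ₀ ⊓ Γ d else Γ₀
  have b1 : ∀ d, B d ≤ Γ₀ := fun d => by
    simp only [B]
    split_ifs
    exacts [inf_le_left, le_rfl]
  have b2 : ∀ d, (Nat.card Γ₀ : ℝ) ≤ r * Nat.card (B d) := fun d => by
    by_cases hd : d ∈ D'
    · rw [show B d = Γ₀ ⊓ Γ d from if_pos hd]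
      exact hD d hd
    · rw [show B d = Γ₀ from if_neg hd]
      exact le_mul_of_one_le_left (Nat.cast_nonneg _) hr
  obtain ⟨w, w0, w1, w2, w3⟩ := h ν X (Fin m) (Fin m) hn hX (by simp) (by simp) ξ hξ
    (fun _ => Γ₀) (fun _ => ⟨hS, hF⟩) (fun _ _ => 0) id (fun _ _ _ _ h2 => h2)
    (Or.inl fun _ _ => rfl)
    (fun d U => PI fun _ => Γ₀ ⊓ univ.inf fun t : Fin m → ZMod 2 => B (d + U *ᵥ t))
    (fun d U t τ hτ => mem_PI.2 fun i => (mem_PI.1 hτ i).1) fun d U t => by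
      have h1 := h22_inf Γ₀ (fun t' : Fin m → ZMod 2 => B (d + U *ᵥ t + U *ᵥ t')) hr0
        (fun _ => b1 _) (fun _ => b2 _) univ
      rw [card_univ, Fintype.card_fun, ZMod.card, Fintype.card_fin] at h1
      rw [card_PI, card_PI, prod_const, prod_const, card_univ, Fintype.card_fin, Nat.cast_pow,
        Nat.cast_pow, ← mul_pow]
      exact pow_le_pow_left₀ (Nat.cast_nonneg _) h1 _
  refine ⟨w, w0, w1, fun M U hw => ?_, w3⟩
  obtain ⟨hU, t, x, h1, h2, h3⟩ := w2 M U hw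
  refine ⟨hU, fun t' ht' => h22_algn (s := id) hK h2 h3 fun j => ⟨j, rfl, ?_⟩⟩
  have h4 := (Finset.inf_le (f := fun t'' : Fin m → ZMod 2 => B (dg M + U *ᵥ t + U *ᵥ t''))
    (mem_univ (t' - t))) (mem_PI.1 h1 j).2
  rw [h22_vtx, show B (dg M + U *ᵥ t') = Γ₀ ⊓ Γ (dg M + U *ᵥ t') from if_pos ht'] at h4
  exact h4.2

/-- `D₃ = S ∩ D₁` with `S = {d | θ pn < |Γ d ⊓ Γs|}`; `card_mul_le` inside `Γs` -/
lemma not_fr {c θ e : ℝ} (hc : 0 < c) (hθ : 0 < θ) (he : 0 < e) {D₁ : Set (ν → ZMod 2)}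
    {Γ : (ν → ZMod 2) → Submodule (ZMod 2) (GX X ν)}
    (hΓ : ∀ d ∈ D₁, (Nat.card (Γ d) : ℝ) ≤ pn ν X / c) {π : (ν → ZMod 2) → ν → ZMod 2}
    (hπ : ∀ S : Set (ν → ZMod 2), dens {d | π d ∈ S} ≤ 3 / e * dens (S ∩ D₁))
    (h : ¬ Fr c θ θ fun d => Γ (π d)) :
    ∃ D₃ ⊆ D₁, θ * e / 3 ≤ dens D₃ ∧ ∃ d₁ ∈ D₃, ∀ d ∈ D₃,
      (Nat.card (Γ d₁) : ℝ) ≤ 1 / (θ * c) ^ 2 * Nat.card ↥(Γ d₁ ⊓ Γ d) := by
  simp only [Fr, not_forall, not_le] at h
  obtain ⟨Γs, hs, h⟩ := h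
  set S : Set (ν → ZMod 2) := {d | θ * pn ν X < Nat.card ↥(Γ d ⊓ Γs)} with hS
  have h1 : θ < 3 / e * dens (S ∩ D₁) := h.trans_le (hπ S)
  have h2 : θ * e / 3 ≤ dens (S ∩ D₁) := by
    rw [div_mul_eq_mul_div, lt_div_iff₀ he] at h1
    linarith
  have h3 : (S ∩ D₁).Nonempty := by
    by_contra h0
    rw [Set.not_nonempty_iff_eq_empty] at h0
    rw [h0, dens_eq_card] at h2
    have : 0 < θ * e / 3 := by positivity
    simp at h2
    linarith
  obtain ⟨d₁, hd₁⟩ := h3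
  refine ⟨S ∩ D₁, Set.inter_subset_right, h2, d₁, hd₁, fun d hd => ?_⟩
  have hp : 0 < pn ν X := alzA_pn
  have a1 : θ * pn ν X < Nat.card ↥(Γ d₁ ⊓ Γs) := hd₁.1
  have a2 : θ * pn ν X < Nat.card ↥(Γ d ⊓ Γs) := hd.1
  have a3 := card_mul_le (inf_le_right : Γ d₁ ⊓ Γs ≤ Γs) (inf_le_right : Γ d ⊓ Γs ≤ Γs)
  have a4 : (Nat.card ↥((Γ d₁ ⊓ Γs) ⊓ (Γ d ⊓ Γs)) : ℝ) ≤ Nat.card ↥(Γ d₁ ⊓ Γ d) :=
    Nat.cast_le.2 (Nat.card_le_card_of_injective _
      (Submodule.inclusion_injective (inf_le_inf inf_le_left inf_le_left)))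
  have a5 : θ * pn ν X * (θ * pn ν X) ≤ Nat.card ↥(Γ d₁ ⊓ Γ d) * (pn ν X / c) :=
    (mul_le_mul a1.le a2.le (by positivity) (Nat.cast_nonneg _)).trans
      (a3.trans (mul_le_mul a4 hs (Nat.cast_nonneg _) (Nat.cast_nonneg _)))
  refine (hΓ d₁ hd₁.2).trans ?_
  rw [← mul_div_assoc, le_div_iff₀ hc] at a5
  rw [one_div, le_inv_mul_iff₀ (by positivity), ← mul_div_assoc, div_le_iff₀ hc]
  refine le_of_mul_le_mul_right ?_ hp
  nlinarith

lemma cwu_split {α : Type} [Fintype α] (D S : Set α) : dens D ≤ dens (D ∩ S) + dens (D ∩ Sᶜ) := by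
  unfold dens
  rw [← Finset.expect_add_distrib]
  refine Finset.expect_le_expect fun x _ => ?_
  by_cases h1 : x ∈ D <;> by_cases h2 : x ∈ S <;> simp [ind, h1, h2]

lemma cwu_ceil {a b : ℝ} (ha : 0 < a) (hb : 1 / a ≤ b) : 0 < ⌈b⌉₊ ∧ 1 / (⌈b⌉₊ : ℝ) ≤ a := by
  have h1 : 0 < 1 / a := by positivity
  have h2 : 1 / a ≤ (⌈b⌉₊ : ℝ) := hb.trans (Nat.le_ceil b)
  refine ⟨Nat.ceil_pos.2 (h1.trans_le hb), ?_⟩
  exact (one_div_le ha (h1.trans_le h2)).1 h2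

lemma Out.congr {K : ℕ} {ξ : X} {Γ Γ' : (ν → ZMod 2) → Submodule (ZMod 2) (GX X ν)}
    {D D' : Set (ν → ZMod 2)} {m : ℕ} {γ : ℝ} (h : Out K ξ Γ D m γ) (hD : D' ⊆ D)
    (hΓ : ∀ d ∈ D', Γ d = Γ' d) : Out K ξ Γ' D' m γ := by
  obtain ⟨w, h1, h2, h3, h4⟩ := h
  exact ⟨w, h1, h2, fun M U hw => ⟨(h3 M U hw).1, fun t ht =>
    hΓ _ ht ▸ (h3 M U hw).2 t (hD ht)⟩, h4⟩

/-- Alignment of tiles with a moving family of stable subspaces. -/
theorem CWU (k : ℕ) (c e : ℝ) (hc : 0 < c) (he : 0 < e) (FJ : ℕ → ℕ) (g : ℕ → ℝ)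
    (hg : ∀ K, 0 < g K) : ∃ K0 : ℕ, ∃ lam : ℝ, 0 < lam ∧ ∃ n0 : ℕ,
    ∀ (ν : Type) [Fintype ν] [DecidableEq ν], n0 ≤ Fintype.card ν →
    ∀ (X : Type) [AddCommGroup X] [Module (ZMod 2) X] [Fintype X], Fintype.card X ≤ k →
    ∀ ξ : X, ξ ≠ 0 → ∀ D : Set (ν → ZMod 2), e ≤ dens D →
    ∀ Γ : (ν → ZMod 2) → Submodule (ZMod 2) (GX X ν), (∀ d ∈ D, St c lam (Γ d)) →
    ∃ K : ℕ, 0 < K ∧ K ≤ K0 ∧ ∃ D' ⊆ D, 1 / (K : ℝ) ≤ dens D' ∧ Out K ξ Γ D' (FJ K) (g K) := by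
  have hc' : 0 < min c 1 := lt_min hc one_pos
  have hc1 : min c 1 ≤ 1 := min_le_right _ _
  have he2 : 0 < e / 2 := by positivity
  obtain ⟨p1, q1⟩ := cwu_ceil he2 (le_refl (1 / (e / 2)))
  set K₁ := ⌈1 / (e / 2)⌉₊
  obtain ⟨θ₁, hθ₁, n₁, H₁⟩ := FREE k (FJ K₁) (min c 1) (g K₁) hc' hc1 (hg _)
  have he3 : 0 < θ₁ * (e / 2) / 3 := by positivity
  obtain ⟨p2, q2⟩ := cwu_ceil he3 (le_refl (1 / (θ₁ * (e / 2) / 3)))
  set K₂ := ⌈1 / (θ₁ * (e / 2) / 3)⌉₊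
  obtain ⟨θ₂, hθ₂, n₂, H₂⟩ := POP k (FJ K₂) (min c 1) (max 1 (1 / (θ₁ * min c 1) ^ 2)) (g K₂) hc' hc1
    (le_max_left _ _) (hg _)
  have hl : 0 < min θ₁ θ₂ := lt_min hθ₁ hθ₂
  obtain ⟨p3, q3⟩ := cwu_ceil he2 (le_max_left (1 / (e / 2)) (1 / min θ₁ θ₂))
  have q4 : 1 / min θ₁ θ₂ ≤ (⌈max (1 / (e / 2)) (1 / min θ₁ θ₂)⌉₊ : ℝ) :=
    (le_max_right _ _).trans (Nat.le_ceil _)
  set K₃ := ⌈max (1 / (e / 2)) (1 / min θ₁ θ₂)⌉₊
  obtain ⟨n₃, H₃⟩ := NEAR (FJ K₃) (g K₃) (hg _)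
  refine ⟨K₁ + K₂ + K₃, min θ₁ θ₂, hl, n₁ + n₂ + n₃, fun ν _ _ hn X _ _ _ hX ξ hξ D hD Γ hΓ => ?_⟩
  have hs := cwu_split D {d | Far (min θ₁ θ₂) (Γ d)}
  by_cases hN : e / 2 ≤ dens (D ∩ {d | Far (min θ₁ θ₂) (Γ d)}ᶜ)
  · exact ⟨K₃, p3, by omega, _, Set.inter_subset_left, q3.trans hN,
      H₃ ν X (by omega) K₃ _ hl q4 ξ Γ _ fun d hd => hd.2⟩
  have hD₁ : e / 2 ≤ dens (D ∩ {d | Far (min θ₁ θ₂) (Γ d)}) := by linarith [not_le.1 hN]
  obtain ⟨π, π1, π2, π3⟩ := exists_retr _ he2 hD₁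
  have hS : ∀ d ∈ D ∩ {d | Far (min θ₁ θ₂) (Γ d)}, ∀ θ, min θ₁ θ₂ ≤ θ →
      St (min c 1) θ (Γ d) ∧ Far θ (Γ d) := fun d hd θ hθ =>
    ⟨(hΓ d hd.1).mono hc' (min_le_left _ _) hθ, Far.mono hd.2 hθ⟩
  by_cases hF : Fr (min c 1) θ₁ θ₁ fun d => Γ (π d)
  · refine ⟨K₁, p1, by omega, _, Set.inter_subset_left, q1.trans hD₁, ?_⟩
    exact (H₁ ν X (by omega) hX ξ hξ _ (fun d => hS _ (π1 d) θ₁ (min_le_left _ _)) hF K₁ p1).congr
      (Set.subset_univ _) fun d hd => by rw [π2 d hd]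
  obtain ⟨D₃, s3, d3, d₁, hd₁, h3⟩ := not_fr hc' hθ₁ he2
    (fun d hd => (hS d hd _ le_rfl).1.2.1) π3 hF
  have h1 := hS d₁ (s3 hd₁) θ₂ (min_le_right _ _)
  refine ⟨K₂, p2, by omega, D₃, s3.trans Set.inter_subset_left, q2.trans d3, ?_⟩
  exact H₂ ν X (by omega) hX ξ hξ (Γ d₁) h1.1 h1.2 Γ D₃ (fun d hd => (h3 d hd).trans
    (mul_le_mul_of_nonneg_right (le_max_right _ _) (Nat.cast_nonneg _))) K₂ p2

end Pool.Agent.Work.MP_4523ee_co.F2
end

-- merged part: Pool.Agent.Work.MP_4523ee_co.F2.CGw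
section
/-!
Fibred cleaning: the alignment lemma in the form of the interface.
-/

set_option autoImplicit false
set_option linter.unusedSectionVars false

namespace Pool.Agent.Work.MP_4523ee_co.F2

open Finset hiding dens
open Matrix Fp Fp.Po
open scoped BigOperators ComplexConjugate

theorem cwus : CWUs := by
  intro k c e hc he FJ g hg
  obtain ⟨K0, lam, hl, n0, H⟩ := CWU k c e hc he FJ g hg
  refine ⟨K0, lam, hl, n0, fun ν _ _ hn X _ _ _ hX ξ hξ D hD Γ hΓ => ?_⟩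
  obtain ⟨K, h1, h2, D', h3, h4, w, a1, a2, a3, a4⟩ := H ν hn X hX ξ hξ D hD Γ hΓ
  exact ⟨K, h1, h2, D', h3, h4, w, ⟨a1, a2, fun M U h => (a3 M U h).1, a4⟩,
    fun M U h => (a3 M U h).2⟩

end Pool.Agent.Work.MP_4523ee_co.F2
end

-- merged part: Pool.Agent.Work.MP_4523ee_co.F2.CLoc
section
/-!
Fibred cleaning: traces of cosets on tiles and the local inequality.
-/

set_option autoImplicit false
set_option linter.unusedSectionVars false

namespace Pool.Agent.Work.MP_4523ee_co.F2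

open Finset hiding dens
open Matrix Fp Fp.Po
open scoped BigOperators ComplexConjugate

variable {ν ν' : Type} [Fintype ν] [DecidableEq ν] [Fintype ν'] [DecidableEq ν']

lemma rs_mono (U : Matrix ν ν' (ZMod 2)) (N : SymM 2 ν') {Y₀ Y : SV 2 ν} (h : Y₀ ≤ Y) :
    rs U N Y₀ ≤ rs U N Y := Submodule.map_mono h

lemma mem_rs {U : Matrix ν ν' (ZMod 2)} {N : SymM 2 ν'} {Y : SV 2 ν}
    {x : (ν' → ZMod 2) × (ν' → ZMod 2)} :
    x ∈ rs U N Y ↔ ∃ q ∈ Y, x = (Uᵀ *ᵥ q.1, N.1 *ᵥ (Uᵀ *ᵥ q.1)) := by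
  rw [rs, Submodule.mem_map]
  exact ⟨fun ⟨q, hq, e⟩ => ⟨q, hq, e.symm⟩, fun ⟨q, hq, e⟩ => ⟨q, hq, e.symm⟩⟩

lemma finrank_rs_le (U : Matrix ν ν' (ZMod 2)) (N : SymM 2 ν') (Y : SV 2 ν) :
    Module.finrank (ZMod 2) (rs U N Y) ≤ Module.finrank (ZMod 2) Y := by
  exact Submodule.finrank_map_le _ _

/-- rank and nullity of a linear map on a subspace -/
lemma cla_rn {K V W : Type} [Field K] [AddCommGroup V] [Module K V] [AddCommGroup W] [Module K W]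
    [FiniteDimensional K V] (L : V →ₗ[K] W) (Y : Submodule K V) :
    Module.finrank K (Y.map L) + Module.finrank K (Y ⊓ LinearMap.ker L : Submodule K V) =
      Module.finrank K Y := by
  have h := LinearMap.finrank_range_add_finrank_ker (L.domRestrict Y)
  rw [LinearMap.range_domRestrict, LinearMap.ker_domRestrict,
    ← Submodule.finrank_map_subtype_eq Y, Submodule.map_comap_subtype] at h
  exact h

lemma finrank_rs_sub (U : Matrix ν ν' (ZMod 2)) (N : SymM 2 ν') {Y₀ Y : SV 2 ν} (h : Y₀ ≤ Y) :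
    Module.finrank (ZMod 2) (rs U N Y) + Module.finrank (ZMod 2) Y₀ ≤
      Module.finrank (ZMod 2) Y + Module.finrank (ZMod 2) (rs U N Y₀) := by
  unfold rs
  generalize ((LinearMap.id.prod N.1.mulVecLin).comp
    (Uᵀ.mulVecLin.comp (LinearMap.fst (ZMod 2) (ν → ZMod 2) (ν → ZMod 2)))) = L
  have h1 := cla_rn L Y
  have h2 := cla_rn L Y₀
  have h3 := Submodule.finrank_mono (inf_le_inf_right (LinearMap.ker L) h)
  omega

lemma cla_mulVec (U : Matrix ν ν' (ZMod 2)) (M : SymM 2 ν) (N : SymM 2 ν') (y : ν → ZMod 2) :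
    (M + cj U N).1 *ᵥ y = M.1 *ᵥ y + U *ᵥ (N.1 *ᵥ (Uᵀ *ᵥ y)) := by
  show (M.1 + U * N.1 * Uᵀ) *ᵥ y = _
  rw [add_mulVec, mulVec_mulVec, mulVec_mulVec]

/-- a coset meets an injective tile in one coset of one fibre -/
lemma rs_piece {U : Matrix ν ν' (ZMod 2)} (hU : Inj U) {M : SymM 2 ν} {v : ν → ZMod 2}
    {Y : SV 2 ν} {N₀ : SymM 2 ν'} (h : M + cj U N₀ ∈ CY Y ∩ Fb v) (N : SymM 2 ν') :
    M + cj U N ∈ CY Y ∩ Fb v ↔ N ∈ CY (rs U N₀ Y) ∩ Fb (dg N₀) := by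
  obtain ⟨h1, h2⟩ := h
  have h2' : dg M + U *ᵥ dg N₀ = v := by
    rw [← dg_cj, ← dg_add]
    exact h2
  have h1' : ∀ q ∈ Y, M.1 *ᵥ q.1 + U *ᵥ (N₀.1 *ᵥ (Uᵀ *ᵥ q.1)) = q.2 := fun q hq => by
    rw [← cla_mulVec]
    exact h1 q hq
  constructor
  · rintro ⟨k1, k2⟩
    refine ⟨fun x hx => ?_, ?_⟩
    · obtain ⟨q, hq, rfl⟩ := mem_rs.1 hx
      have e := k1 q hq
      rw [cla_mulVec, ← h1' q hq] at e
      exact hU (add_left_cancel e)
    · have e : dg (M + cj U N) = v := k2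
      rw [dg_add, dg_cj, ← h2'] at e
      exact hU (add_left_cancel e)
  · rintro ⟨k1, k2⟩
    refine ⟨fun q hq => ?_, ?_⟩
    · have e : N.1 *ᵥ (Uᵀ *ᵥ q.1) = N₀.1 *ᵥ (Uᵀ *ᵥ q.1) := k1 _ (mem_rs.2 ⟨q, hq, rfl⟩)
      rw [cla_mulVec, e]
      exact h1' q hq
    · have e : dg N = dg N₀ := k2
      show dg (M + cj U N) = v
      rw [dg_add, dg_cj, e]
      exact h2'

lemma Ps_nonneg {g : ℝ} {w : SymM 2 ν → Matrix ν ν' (ZMod 2) → ℝ} (hw : Wt0 g w)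
    (Bb : SymM 2 ν → Matrix ν ν' (ZMod 2) → Set (SymM 2 ν')) (M : SymM 2 ν) : 0 ≤ Ps w Bb M := by
  exact Finset.expect_nonneg fun U _ => Finset.expect_nonneg fun N _ =>
    mul_nonneg (hw.nn _ _) (l0_ind_nonneg _ _)

lemma Ps_le {g : ℝ} {w : SymM 2 ν → Matrix ν ν' (ZMod 2) → ℝ} (hw : Wt g w)
    (Bb : SymM 2 ν → Matrix ν ν' (ZMod 2) → Set (SymM 2 ν')) (M : SymM 2 ν) : Ps w Bb M ≤ 2 := by
  refine le_trans (Finset.expect_le_expect fun U _ => ?_) (hw.le2 M)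
  refine Finset.expect_le Finset.univ_nonempty fun N _ => ?_
  have h1 : w (M - cj U N) U = w M U := by
    rw [← hw.inv (M - cj U N) U N, sub_add_cancel]
  rw [h1]
  exact mul_le_of_le_one_right (hw.nn _ _) (l0_ind_le _ _)

lemma expect_Ps (w : SymM 2 ν → Matrix ν ν' (ZMod 2) → ℝ)
    (Bb : SymM 2 ν → Matrix ν ν' (ZMod 2) → Set (SymM 2 ν')) (h : SymM 2 ν → ℝ) :
    𝔼 M, h M * Ps w Bb M =
      𝔼 M, 𝔼 U, w M U * 𝔼 N : SymM 2 ν', h (M + cj U N) * ind (Bb M U) N := by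
  symm
  simp only [Ps, Finset.mul_expect]
  rw [Finset.expect_comm, Finset.expect_comm (univ : Finset (SymM 2 ν))]
  refine Finset.expect_congr rfl fun U _ => ?_
  rw [Finset.expect_comm, Finset.expect_comm (univ : Finset (SymM 2 ν))]
  refine Finset.expect_congr rfl fun N _ => ?_
  exact Fintype.expect_equiv (Equiv.addRight (cj U N)) _ _ fun M => by
    rw [Equiv.coe_addRight, add_sub_cancel_right, mul_left_comm]

lemma locB_sq {α : Type} [Fintype α] (a b : α → ℝ) (ha : ∀ x, 0 ≤ a x) (hb : ∀ x, 0 ≤ b x) :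
    𝔼 x, √(a x) * √(b x) ≤ √(𝔼 x, a x) * √(𝔼 x, b x) := by
  have h := ch_cs (fun x => √(a x)) fun x => √(b x)
  simpa only [Real.sq_sqrt (ha _), Real.sq_sqrt (hb _)] using h

lemma locB_w {α β : Type} [Fintype α] [Fintype β] (w a b : α → β → ℝ) (hw : ∀ x y, 0 ≤ w x y)
    (ha : ∀ x y, 0 ≤ a x y) (hb : ∀ x y, 0 ≤ b x y) :
    𝔼 x, 𝔼 y, w x y * (√(a x y) * √(b x y)) ≤
      √(𝔼 x, 𝔼 y, w x y * a x y) * √(𝔼 x, 𝔼 y, w x y * b x y) := by
  refine le_trans (expect_le_expect fun x _ => ?_) (locB_sq _ _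
    (fun x => expect_nonneg fun y _ => mul_nonneg (hw x y) (ha x y))
    fun x => expect_nonneg fun y _ => mul_nonneg (hw x y) (hb x y))
  refine le_trans (le_of_eq (expect_congr rfl fun y _ => ?_)) (locB_sq _ _
    (fun y => mul_nonneg (hw x y) (ha x y)) fun y => mul_nonneg (hw x y) (hb x y))
  rw [Real.sqrt_mul (hw x y), Real.sqrt_mul (hw x y), mul_mul_mul_comm,
    Real.mul_self_sqrt (hw x y)]

lemma locB_nrm {α : Type} [Fintype α] (C : Set α) (u t : α → ℝ) (f G : α → ℂ)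
    (hf : ∀ x, ‖f x‖ ≤ 1) (hu : ∀ x, x ∈ C → u x ^ 2 ≤ t x) (ht : ∀ x, 0 ≤ t x) :
    ‖𝔼 x, (u x : ℂ) * ((ind C x : ℂ) * (f x * G x))‖ ≤
      √(𝔼 x, ind C x * t x) * √(𝔼 x, ind C x * ‖G x‖ ^ 2) := by
  refine (ch_norm_expect _).trans (le_trans (expect_le_expect fun x _ => ?_) (locB_sq _ _
    (fun x => mul_nonneg (ind_nonneg _ _) (ht x))
    fun x => mul_nonneg (ind_nonneg _ _) (sq_nonneg _)))
  by_cases hx : x ∈ C
  · rw [ind_of_mem hx, one_mul, one_mul, Real.sqrt_sq (norm_nonneg _), Complex.ofReal_one,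
      one_mul, norm_mul, norm_mul, Complex.norm_real, Real.norm_eq_abs]
    exact mul_le_mul (Real.abs_le_sqrt (hu x hx))
      (mul_le_of_le_one_left (norm_nonneg _) (hf x)) (by positivity) (Real.sqrt_nonneg _)
  · rw [ind_of_not hx]
    simp

lemma locB_tile {η g : ℝ} (hη : 0 ≤ η) {s : ℕ} {A : Set (SymM 2 ν)} {v : ν → ZMod 2}
    {Y : SV 2 ν} {G : SymM 2 ν → ℂ} (hG : Lv s G)
    {w : SymM 2 ν → Matrix ν ν' (ZMod 2) → ℝ} (hw : Wt g w)
    {Bb : SymM 2 ν → Matrix ν ν' (ZMod 2) → Set (SymM 2 ν')} (h : Mkd η s A w Bb v Y)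
    {M : SymM 2 ν} {U : Matrix ν ν' (ZMod 2)} (h0 : w M U ≠ 0) :
    ‖𝔼 N : SymM 2 ν', (ind (CY Y ∩ Fb v) (M + cj U N) : ℂ) *
        (fA A (M + cj U N) * G (M + cj U N))‖ ≤
      η * (√(𝔼 N : SymM 2 ν', ind (CY Y ∩ Fb v) (M + cj U N)) *
        √(𝔼 N : SymM 2 ν', ind (CY Y ∩ Fb v) (M + cj U N) * ‖G (M + cj U N)‖ ^ 2)) +
      √(𝔼 N : SymM 2 ν', ind (CY Y ∩ Fb v) (M + cj U N) * ind (Bb M U) N) *
        √(𝔼 N : SymM 2 ν', ind (CY Y ∩ Fb v) (M + cj U N) * ‖G (M + cj U N)‖ ^ 2) := by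
  by_cases h1 : ∃ N₀ : SymM 2 ν', M + cj U N₀ ∈ CY Y ∩ Fb v
  · obtain ⟨N₀, h1⟩ := h1
    have e : ∀ N : SymM 2 ν', ind (CY Y ∩ Fb v) (M + cj U N) =
        ind (CY (rs U N₀ Y) ∩ Fb (dg N₀)) N := fun N => by
      by_cases k : N ∈ CY (rs U N₀ Y) ∩ Fb (dg N₀)
      · rw [ind_of_mem k, ind_of_mem ((rs_piece (hw.inj M U h0) h1 N).2 k)]
      · rw [ind_of_not k, ind_of_not fun k' => k ((rs_piece (hw.inj M U h0) h1 N).1 k')]
    simp only [e]
    by_cases h2 : BadY η s (res A M U) (dg N₀) (rs U N₀ Y)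
    · have h3 := h M U h0 N₀ h1 h2
      have h4 := locB_nrm (CY (rs U N₀ Y) ∩ Fb (dg N₀)) (fun _ => 1) (ind (Bb M U))
        (fun N => fA A (M + cj U N)) (fun N => G (M + cj U N)) (fun N => norm_fA_le A _)
        (fun N hN => by rw [ind_of_mem (h3 hN), one_pow]) fun N => ind_nonneg _ _
      simp only [Complex.ofReal_one, one_mul] at h4
      exact h4.trans (le_add_of_nonneg_left (by positivity))
    · have h3 := not_lt.1 fun k => h2 ⟨_, hG.tile M U, k⟩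
      exact le_trans h3 (le_add_of_nonneg_right (by positivity))
  · have e : ∀ N : SymM 2 ν', ind (CY Y ∩ Fb v) (M + cj U N) = 0 := fun N =>
      ind_of_not fun k => h1 ⟨N, k⟩
    simp [e]

lemma locB_num {η P Q a b : ℝ} (hη : 0 < η) (hP : 0 ≤ P) (ha : 0 ≤ a) (hb : 0 ≤ b)
    (h : η * (√P * √Q) < √a * √Q + (η / 4 * (√(2 * P) * √(2 * Q)) + √b * √(2 * Q))) :
    η ^ 2 / 24 * P < a + b := by
  have h2 : √2 * √2 = 2 := Real.mul_self_sqrt zero_le_two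
  have h3 : 0 ≤ √2 := Real.sqrt_nonneg _
  have h4 : √2 ≤ 2 := by nlinarith only [h2, h3]
  rw [Real.sqrt_mul zero_le_two, Real.sqrt_mul zero_le_two, mul_mul_mul_comm √2, h2] at h
  have h5 : η / 2 * √P * √Q < (√a + √2 * √b) * √Q := by linarith only [h]
  have h6 := lt_of_mul_lt_mul_right h5 (Real.sqrt_nonneg Q)
  have h7 := mul_self_lt_mul_self (by positivity) h6
  have e1 := Real.mul_self_sqrt hP
  have e2 := Real.mul_self_sqrt ha
  have e3 := Real.mul_self_sqrt hb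
  have e4 : η / 2 * √P * (η / 2 * √P) = η ^ 2 / 4 * P := by
    rw [mul_mul_mul_comm, e1]
    ring
  have e5 : (√a + √2 * √b) * (√a + √2 * √b) ≤ 2 * a + 4 * b := by
    have e6 : √2 * √b * (√2 * √b) = 2 * b := by rw [mul_mul_mul_comm, h2, e3]
    nlinarith only [e2, e6, sq_nonneg (√a - √2 * √b)]
  have e7 : 0 ≤ η ^ 2 * P := by positivity
  linarith only [h7, e4, e5, ha, hb, e7]

/-- a bad coset carries much of the defect of the marginal or many marked points -/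
theorem LOC {η g : ℝ} (hη : 0 < η) {s : ℕ} {A : Set (SymM 2 ν)} {v : ν → ZMod 2} {Y : SV 2 ν}
    (hb : BadY η s A v Y) {w : SymM 2 ν → Matrix ν ν' (ZMod 2) → ℝ} (hw : Wt g w)
    {Bb : SymM 2 ν → Matrix ν ν' (ZMod 2) → Set (SymM 2 ν')} (h : Mkd (η / 4) s A w Bb v Y) :
    η ^ 2 / 24 * dens (CY Y ∩ Fb v) <
      𝔼 M, ind (CY Y ∩ Fb v) M * (|𝔼 U, w M U - 1| + Ps w Bb M) := by
  obtain ⟨G, hG, hlt⟩ := hb
  have hρ : ∀ M, marg (fun U => U) w M = 𝔼 U, w M U := marg_of_inv (fun U => U) w hw.inv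
  have hρ0 : ∀ M, 0 ≤ 𝔼 U, w M U := fun M => expect_nonneg fun U _ => hw.nn M U
  have h2 : ∀ k : SymM 2 ν → ℝ, (∀ M, 0 ≤ k M) →
      𝔼 M, 𝔼 U, w M U * 𝔼 N : SymM 2 ν', k (M + cj U N) ≤ 2 * 𝔼 M, k M := fun k hk => by
    rw [marg_id_real (fun U => U) w k, mul_expect]
    exact expect_le_expect fun M _ => by
      rw [hρ]
      exact mul_le_mul_of_nonneg_right (hw.le2 M) (hk M)
  have e : 𝔼 M, (ind (CY Y ∩ Fb v) M : ℂ) * (fA A M * G M) =
      𝔼 M, ((1 - 𝔼 U, w M U : ℝ) : ℂ) * ((ind (CY Y ∩ Fb v) M : ℂ) * (fA A M * G M)) +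
        𝔼 M, 𝔼 U, (w M U : ℂ) * 𝔼 N : SymM 2 ν', (ind (CY Y ∩ Fb v) (M + cj U N) : ℂ) *
          (fA A (M + cj U N) * G (M + cj U N)) := by
    rw [marg_id (fun U => U) w fun M => (ind (CY Y ∩ Fb v) M : ℂ) * (fA A M * G M),
      ← expect_add_distrib]
    refine expect_congr rfl fun M _ => ?_
    rw [hρ, Complex.ofReal_sub, Complex.ofReal_one]
    ring
  have k1 := locB_nrm (CY Y ∩ Fb v) (fun M => 1 - 𝔼 U, w M U) (fun M => |𝔼 U, w M U - 1|)
    (fA A) G (norm_fA_le A) (fun M _ => by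
      have a1 : |𝔼 U, w M U - 1| ≤ 1 :=
        abs_le.2 ⟨by linarith only [hρ0 M], by linarith only [hw.le2 M]⟩
      rw [← sq_abs, abs_sub_comm, sq]
      exact mul_le_of_le_one_left (abs_nonneg _) a1) fun M => abs_nonneg _
  have i0 : ∀ M, 0 ≤ ind (CY Y ∩ Fb v) M := ind_nonneg _
  have i1 : ∀ M, 0 ≤ ind (CY Y ∩ Fb v) M * ‖G M‖ ^ 2 := fun M => mul_nonneg (i0 M) (sq_nonneg _)
  have k3 := locB_w w (fun M U => 𝔼 N : SymM 2 ν', ind (CY Y ∩ Fb v) (M + cj U N))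
    (fun M U => 𝔼 N : SymM 2 ν', ind (CY Y ∩ Fb v) (M + cj U N) * ‖G (M + cj U N)‖ ^ 2) hw.nn
    (fun M U => expect_nonneg fun N _ => i0 _) fun M U => expect_nonneg fun N _ => i1 _
  have k4 := locB_w w
    (fun M U => 𝔼 N : SymM 2 ν', ind (CY Y ∩ Fb v) (M + cj U N) * ind (Bb M U) N)
    (fun M U => 𝔼 N : SymM 2 ν', ind (CY Y ∩ Fb v) (M + cj U N) * ‖G (M + cj U N)‖ ^ 2) hw.nn
    (fun M U => expect_nonneg fun N _ => mul_nonneg (i0 _) (ind_nonneg _ _))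
    fun M U => expect_nonneg fun N _ => i1 _
  rw [← expect_Ps w Bb (ind (CY Y ∩ Fb v))] at k4
  have s1 := Real.sqrt_le_sqrt (h2 _ i0)
  have s2 := Real.sqrt_le_sqrt (h2 _ i1)
  have k5 := k3.trans (mul_le_mul s1 s2 (Real.sqrt_nonneg _) (Real.sqrt_nonneg _))
  have k6 := k4.trans (mul_le_mul_of_nonneg_left s2 (Real.sqrt_nonneg _))
  have k2 : ‖𝔼 M, 𝔼 U, (w M U : ℂ) * 𝔼 N : SymM 2 ν', (ind (CY Y ∩ Fb v) (M + cj U N) : ℂ) *
      (fA A (M + cj U N) * G (M + cj U N))‖ ≤ _ :=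
    le_trans ?_ (add_le_add (mul_le_mul_of_nonneg_left k5 (by positivity : 0 ≤ η / 4)) k6)
  · rw [e] at hlt
    have k7 := hlt.trans_le ((norm_add_le _ _).trans (add_le_add k1 k2))
    simp only [mul_add]
    rw [expect_add_distrib]
    exact locB_num hη (dens_nonneg _)
      (expect_nonneg fun M _ => mul_nonneg (i0 M) (abs_nonneg _))
      (expect_nonneg fun M _ => mul_nonneg (i0 M) (Ps_nonneg hw.toWt0 Bb M)) k7
  · rw [mul_expect, ← expect_add_distrib]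
    refine (ch_norm_expect _).trans (expect_le_expect fun M _ => ?_)
    rw [mul_expect, ← expect_add_distrib]
    refine (ch_norm_expect _).trans (expect_le_expect fun U _ => ?_)
    by_cases h0 : w M U = 0
    · simp [h0]
    · rw [norm_mul, Complex.norm_real, Real.norm_of_nonneg (hw.nn M U)]
      have k8 := mul_le_mul_of_nonneg_left
        (locB_tile (by positivity) hG hw h h0) (hw.nn M U)
      linarith only [k8]

end Pool.Agent.Work.MP_4523ee_co.F2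
end

-- merged part: Pool.Agent.Work.MP_4523ee_co.F2.CTrf
section
/-!
Fibred cleaning: transfer from tiles to the whole space.
-/

set_option autoImplicit false
set_option linter.unusedSectionVars false

namespace Pool.Agent.Work.MP_4523ee_co.F2

open Finset hiding dens
open Matrix Fp Fp.Po
open scoped BigOperators ComplexConjugate

variable {ν ν' : Type} [Fintype ν] [DecidableEq ν] [Fintype ν'] [DecidableEq ν']

lemma trfA_loc {α : Type} [Fintype α] (C : Set α) (Θ : α → ℝ) (t : ℝ) (ht : 0 ≤ t)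
    (h3 : ∀ x, Θ x ≤ 3) :
    𝔼 x, ind C x * Θ x ≤ t * dens C + 3 * dens ({x | t ≤ Θ x} ∩ C) := by
  unfold dens
  rw [Finset.mul_expect, Finset.mul_expect, ← Finset.expect_add_distrib]
  refine Finset.expect_le_expect fun x _ => ?_
  by_cases hC : x ∈ C
  · by_cases hx : t ≤ Θ x
    · rw [ind_of_mem hC, ind_of_mem (A := {x | t ≤ Θ x} ∩ C) ⟨hx, hC⟩]
      linarith [h3 x]
    · rw [ind_of_mem hC, ind_of_not (A := {x | t ≤ Θ x} ∩ C) fun h => hx h.1]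
      linarith [not_le.1 hx]
  · rw [ind_of_not hC, ind_of_not (A := {x | t ≤ Θ x} ∩ C) fun h => hC h.2]
    simp

theorem TRF (R : ℕ) (η ε : ℝ) (hη : 0 < η) (hε : 0 < ε) : ∃ δ : ℝ, 0 < δ ∧
    ∀ (ν ν' : Type) [Fintype ν] [DecidableEq ν] [Fintype ν'] [DecidableEq ν'] (s : ℕ)
      (A : Set (SymM 2 ν)) (w : SymM 2 ν → Matrix ν ν' (ZMod 2) → ℝ)
      (Bb : SymM 2 ν → Matrix ν ν' (ZMod 2) → Set (SymM 2 ν'))
      (𝒴 : (ν → ZMod 2) → Set (SV 2 ν)), Wt δ w → 𝔼 M, 𝔼 U, w M U * dens (Bb M U) ≤ δ →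
      (∀ v, ∀ Y ∈ 𝒴 v, Module.finrank (ZMod 2) Y ≤ R ∧ BadY η s A v Y ∧
        Mkd (η / 4) s A w Bb v Y) →
      dens {M | ∃ Y ∈ 𝒴 (dg M), M ∈ CY Y} ≤ ε := by
  obtain ⟨ε0, hε0, hMI⟩ := MIg R (min ε (η ^ 2 / 144)) (lt_min hε (by positivity))
  refine ⟨ε0 * η ^ 2 / 96, by positivity, fun ν ν' _ _ _ _ s A w Bb 𝒴 hw hB h𝒴 => ?_⟩
  obtain ⟨Θ, hΘ⟩ : ∃ Θ : SymM 2 ν → ℝ, ∀ M, Θ M = |𝔼 U, w M U - 1| + Ps w Bb M :=
    ⟨_, fun _ => rfl⟩
  have h0 : ∀ M, 0 ≤ Θ M := fun M => by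
    rw [hΘ]
    exact add_nonneg (abs_nonneg _) (Ps_nonneg hw.toWt0 Bb M)
  have h3 : ∀ M, Θ M ≤ 3 := fun M => by
    have a1 := Ps_le hw Bb M
    have a2 := hw.le2 M
    have a3 : 0 ≤ 𝔼 U, w M U := Finset.expect_nonneg fun U _ => hw.nn M U
    have a4 : |𝔼 U, w M U - 1| ≤ 1 := abs_le.2 ⟨by linarith, by linarith⟩
    rw [hΘ]
    linarith
  have hE : 𝔼 M, Θ M ≤ 2 * (ε0 * η ^ 2 / 96) := by
    have e := expect_Ps w Bb fun _ => 1
    simp only [one_mul] at e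
    simp only [hΘ]
    rw [Finset.expect_add_distrib, e]
    have a1 := hw.l1
    have a2 : 𝔼 M, 𝔼 U, w M U * 𝔼 N : SymM 2 ν', ind (Bb M U) N ≤ ε0 * η ^ 2 / 96 := hB
    linarith
  have hB0 : dens {M | η ^ 2 / 48 ≤ Θ M} ≤ ε0 := by
    refine (dens_markov Θ h0 (by positivity)).trans ?_
    rw [div_le_iff₀ (by positivity)]
    linarith
  refine le_trans (dens_mono ?_) ((hMI ν _ hB0).trans (min_le_left _ _))
  rintro M ⟨Y, hY, hM⟩
  obtain ⟨h1, h2, h4⟩ := h𝒴 _ Y hY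
  refine ⟨Y, h1, hM, ?_⟩
  have l1 := LOC hη h2 hw h4
  simp only [← hΘ] at l1
  have l2 := trfA_loc (CY Y ∩ Fb (dg M)) Θ (η ^ 2 / 48) (by positivity) h3
  have l3 := mul_le_mul_of_nonneg_right (min_le_right ε (η ^ 2 / 144))
    (dens_nonneg (CY Y ∩ Fb (dg M)))
  linarith

theorem TRF2 {s i R K : ℕ} {η : ℝ} (hη : 0 < η) (h : CLK s i R K (η / 4)) (ε : ℝ) (hε : 0 < ε) :
    ∃ J : ℕ, ∃ η0 : ℝ, 0 < η0 ∧ ∃ g : ℝ, 0 < g ∧
    ∀ (ν : Type) [Fintype ν] [DecidableEq ν] (A : Set (SymM 2 ν)), NE η0 A →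
      ∀ (w : SymM 2 ν → Matrix ν (Fin J) (ZMod 2) → ℝ) (𝒴 : (ν → ZMod 2) → Set (SV 2 ν)),
      Wt0 g w → Drop i K 𝒴 w →
      (∀ v, ∀ Y ∈ 𝒴 v, Module.finrank (ZMod 2) Y ≤ R ∧ BadY η s A v Y) →
      dens {M | ∃ Y ∈ 𝒴 (dg M), M ∈ CY Y} ≤ ε := by
  obtain ⟨δ, hδ, hT⟩ := TRF R η ε hη hε
  obtain ⟨η1, hη1, n1, h1⟩ := h (δ / 4) (by positivity)
  obtain ⟨J0, η0, hη0, g0, hg0, hM⟩ := MKW η1 (δ / 2) hη1 (by positivity)
  obtain ⟨J, hJ0, hJ1⟩ : ∃ J, J0 ≤ Fintype.card (Fin J) ∧ n1 ≤ Fintype.card (Fin J) :=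
    ⟨max J0 n1, by simp, by simp⟩
  have hc : (0 : ℝ) < 1 + 2 * Fintype.card (SymM 2 (Fin J)) := by positivity
  refine ⟨J, η0, hη0, min g0 δ / (1 + 2 * Fintype.card (SymM 2 (Fin J))),
    div_pos (lt_min hg0 hδ) hc, fun ν _ _ A hA w 𝒴 hw hD h𝒴 => ?_⟩
  obtain ⟨w', hw', hs⟩ := BD hw
  rw [mul_div_cancel₀ _ hc.ne'] at hw'
  have hX : ∀ (M : SymM 2 ν) (U : Matrix ν (Fin J) (ZMod 2)),
      ∃ Ξ : (Fin J → ZMod 2) → Submodule (ZMod 2) (Fin J → ZMod 2),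
      (∀ t, Module.finrank (ZMod 2) (Ξ t) ≤ K) ∧ (w M U ≠ 0 → ∀ N : SymM 2 (Fin J),
        ∀ Y ∈ 𝒴 (dg (M + cj U N)), M + cj U N ∈ CY Y → ∃ Y₀ : SV 2 ν, Y₀ ≤ Y ∧
          Module.finrank (ZMod 2) Y ≤ i + Module.finrank (ZMod 2) Y₀ ∧
          ∀ q ∈ Y₀, Uᵀ *ᵥ q.1 ∈ Ξ (dg N)) := fun M U => by
    by_cases h0 : w M U = 0
    · exact ⟨fun _ => ⊥, fun _ => by simp, fun h => absurd h0 h⟩
    · obtain ⟨Ξ, a, b⟩ := hD M U h0
      exact ⟨Ξ, a, fun _ => b⟩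
  choose Ξ hΞ1 hΞ2 using hX
  refine hT ν (Fin J) s A w'
    (fun M U => {N | NE η1 (res A M U) → N ∈ BX (η / 4) s (res A M U) i R (Ξ M U)}) 𝒴
    ⟨hw'.toWt0.mono (min_le_right _ _), hw'.le2⟩ ?_ ?_
  · have k0 := hM ν (Fin J) hJ0 A hA w' (hw'.toWt0.mono (min_le_left _ _))
    have k1 : ∀ (M : SymM 2 ν) (U : Matrix ν (Fin J) (ZMod 2)), w' M U *
        dens {N | NE η1 (res A M U) → N ∈ BX (η / 4) s (res A M U) i R (Ξ M U)} ≤
        δ / 4 * w' M U + w' M U * ind {U | ¬ NE η1 (res A M U)} U := fun M U => by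
      have a0 := hw'.nn M U
      rw [mul_comm (δ / 4), ← mul_add]
      refine mul_le_mul_of_nonneg_left ?_ a0
      by_cases hn : NE η1 (res A M U)
      · rw [ind_of_not (A := {U | ¬ NE η1 (res A M U)}) fun h => h hn, add_zero]
        refine le_trans (Fp.dens_mono ?_) (h1 (Fin J) hJ1 _ hn (Ξ M U) (hΞ1 M U))
        exact fun N hN => hN hn
      · rw [ind_of_mem (A := {U | ¬ NE η1 (res A M U)}) hn]
        exact (dens_le_one _).trans (le_add_of_nonneg_left (by positivity))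
    have k2 : ∀ M : SymM 2 ν, 𝔼 U, w' M U *
        dens {N | NE η1 (res A M U) → N ∈ BX (η / 4) s (res A M U) i R (Ξ M U)} ≤
        δ / 2 + 𝔼 U, w' M U * ind {U | ¬ NE η1 (res A M U)} U := fun M => by
      refine (Finset.expect_le_expect fun U _ => k1 M U).trans ?_
      rw [Finset.expect_add_distrib, ← Finset.mul_expect]
      have a := mul_le_mul_of_nonneg_left (hw'.le2 M) (by positivity : 0 ≤ δ / 4)
      linarith
    refine (Finset.expect_le_expect fun M _ => k2 M).trans ?_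
    rw [Finset.expect_add_distrib, Fintype.expect_const]
    linarith
  · intro v Y hY
    refine ⟨(h𝒴 v Y hY).1, (h𝒴 v Y hY).2, ?_⟩
    intro M U hw0 N₀ hN₀ hbad N hN _
    have hv : dg (M + cj U N₀) = v := hN₀.2
    obtain ⟨Y₀, a, b, c⟩ := hΞ2 M U (hs M U hw0) N₀ Y (hv ▸ hY) hN₀.1
    have hd : dg N = dg N₀ := hN.2
    refine ⟨rs U N₀ Y, rs U N₀ Y₀, (finrank_rs_le U N₀ Y).trans (h𝒴 v Y hY).1, rs_mono U N₀ a,
      ?_, ?_, hN.1, hd ▸ hbad⟩
    · intro q hq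
      obtain ⟨q', hq', rfl⟩ := mem_rs.1 hq
      rw [hd]
      exact c q' hq'
    · have := finrank_rs_sub U N₀ a
      omega

lemma ctB_cs {α : Type} [Fintype α] (B C : Set α) (f G : α → ℂ) (hf : ∀ x, ‖f x‖ ≤ 1) :
    ‖𝔼 x, (ind C x : ℂ) * ((ind B x : ℂ) * (f x * G x))‖ ≤
      √(dens (B ∩ C)) * √(𝔼 x, ind C x * ‖G x‖ ^ 2) := by
  have h1 := ch_cs (fun x => ind (B ∩ C) x) (fun x => ind C x * ‖G x‖)
  have e1 : (𝔼 x, ind (B ∩ C) x ^ 2) = dens (B ∩ C) :=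
    Finset.expect_congr rfl fun x _ => by
      by_cases h : x ∈ B ∩ C
      · rw [ind_of_mem h, one_pow]
      · rw [ind_of_not h]; ring
  have e2 : (𝔼 x, (ind C x * ‖G x‖) ^ 2) = 𝔼 x, ind C x * ‖G x‖ ^ 2 :=
    Finset.expect_congr rfl fun x _ => by
      by_cases h : x ∈ C
      · rw [ind_of_mem h]; ring
      · rw [ind_of_not h]; ring
  rw [e1, e2] at h1
  refine (ch_norm_expect _).trans (le_trans (Finset.expect_le_expect fun x _ => ?_) h1)
  by_cases hC : x ∈ C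
  · by_cases hB : x ∈ B
    · rw [ind_of_mem hC, ind_of_mem hB, ind_of_mem (show x ∈ B ∩ C from ⟨hB, hC⟩)]
      simp only [Complex.ofReal_one, one_mul, norm_mul]
      exact mul_le_of_le_one_left (norm_nonneg _) (hf x)
    · rw [ind_of_not hB, ind_of_not (show x ∉ B ∩ C from fun h => hB h.1)]
      simp
  · rw [ind_of_not hC]
    simp

lemma ctB_fib (φ : (ν → ZMod 2) → SymM 2 ν → ℝ) :
    𝔼 M, φ (dg M) M = ∑ v, 𝔼 M, ind (Fb v) M * φ v M := by
  classical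
  rw [← Finset.expect_sum_comm]
  refine Finset.expect_congr rfl fun M _ => ?_
  rw [Finset.sum_eq_single (dg M)]
  · rw [ind_of_mem (show M ∈ Fb (dg M) from rfl), one_mul]
  · intro v _ hv
    rw [ind_of_not (show M ∉ Fb v from fun h => hv h.symm), zero_mul]
  · intro h
    exact absurd (mem_univ _) h

lemma ctB_norm {α : Type} [Fintype α] {η : ℝ} (hη : 0 < η) (C : Set α) (f G : α → ℂ)
    (hf : ∀ x, ‖f x‖ ≤ 1)
    (h : η * (√(dens C) * √(𝔼 x, ind C x * ‖G x‖ ^ 2)) < ‖𝔼 x, (ind C x : ℂ) * (f x * G x)‖) :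
    ∃ c : ℂ, 𝔼 x, ind C x * ‖c * G x‖ ^ 2 = dens C ∧
      η * dens C ≤ 𝔼 x, ind C x * (f x * (c * G x)).re := by
  have h1 := ctB_cs Set.univ C f G hf
  simp only [ind_of_mem (Set.mem_univ _), Complex.ofReal_one, one_mul, Set.univ_inter] at h1
  set z := 𝔼 x, (ind C x : ℂ) * (f x * G x) with hz
  set Q := 𝔼 x, ind C x * ‖G x‖ ^ 2 with hQ
  have hQ0 : 0 ≤ Q := Finset.expect_nonneg fun x _ => mul_nonneg (ind_nonneg _ _) (sq_nonneg _)
  have hP0 : 0 ≤ dens C := dens_nonneg C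
  have hz0 : 0 < ‖z‖ := lt_of_le_of_lt (by positivity) h
  have hsQ : 0 < √Q := by
    rcases (Real.sqrt_nonneg Q).lt_or_eq with k | k
    · exact k
    · rw [← k, mul_zero] at h1
      exact absurd h1 (not_le.2 hz0)
  have hq : √Q ^ 2 = Q := Real.sq_sqrt hQ0
  have hp : √(dens C) ^ 2 = dens C := Real.sq_sqrt hP0
  refine ⟨((√(dens C) / √Q / ‖z‖ : ℝ) : ℂ) * conj z, ?_, ?_⟩
  · have e : ∀ x, ind C x * ‖((√(dens C) / √Q / ‖z‖ : ℝ) : ℂ) * conj z * G x‖ ^ 2 =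
        (√(dens C) / √Q) ^ 2 * (ind C x * ‖G x‖ ^ 2) := fun x => by
      rw [norm_mul, norm_mul, Complex.norm_real, Complex.norm_conj, Real.norm_eq_abs,
        abs_of_nonneg (by positivity), div_mul_cancel₀ _ hz0.ne']
      ring
    simp only [e]
    rw [← Finset.mul_expect, ← hQ, div_pow, hp, hq]
    exact div_mul_cancel₀ _ (by rw [← hq]; positivity)
  · have e : ∀ x, ind C x * (f x * (((√(dens C) / √Q / ‖z‖ : ℝ) : ℂ) * conj z * G x)).re =
        (((√(dens C) / √Q / ‖z‖ : ℝ) : ℂ) * conj z * ((ind C x : ℂ) * (f x * G x))).re :=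
      fun x => by
        rw [← Complex.re_ofReal_mul]
        congr 1
        ring
    simp only [e]
    rw [← Complex.re_expect, ← Finset.mul_expect, ← hz, mul_assoc, Complex.re_ofReal_mul,
      Complex.conj_mul', ← Complex.ofReal_pow, Complex.ofReal_re]
    have e2 : √(dens C) / √Q / ‖z‖ * ‖z‖ ^ 2 = √(dens C) / √Q * ‖z‖ := by
      field_simp
    rw [e2, div_mul_eq_mul_div, le_div_iff₀ hsQ]
    calc η * dens C * √Q = √(dens C) * (η * (√(dens C) * √Q)) := by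
          conv_lhs => rw [← hp]
          ring
      _ ≤ _ := mul_le_mul_of_nonneg_left h.le (Real.sqrt_nonneg _)

theorem CLN_zero {s : ℕ} (hC : Claim2 2 s) : CLN s 0 := by
  intro η ε hη hε
  refine (hC (η * √ε) (by positivity)).mono fun ν _ _ A hA => ?_
  classical
  let D : Set (ν → ZMod 2) := {v | BadY η s A v ⊥}
  have hBU : BU η s A 0 ⊆ {M | dg M ∈ D} := by
    rintro M ⟨Y, h1, -, h3⟩
    have : Y = ⊥ := Submodule.finrank_eq_zero.1 (Nat.le_zero.1 h1)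
    rw [this] at h3
    exact h3
  have key : ∀ v : ν → ZMod 2, ∃ G : SymM 2 ν → ℂ, Lv s G ∧
      𝔼 M, ind (Fb v) M * ‖G M‖ ^ 2 = 𝔼 M, ind (Fb v) M * ind D v ∧
      η * 𝔼 M, ind (Fb v) M * ind D v ≤ 𝔼 M, ind (Fb v) M * (fA A M * G M).re := by
    intro v
    by_cases hv : v ∈ D
    · obtain ⟨G, h1, h2⟩ := hv
      rw [CY_bot, Set.univ_inter] at h2
      obtain ⟨c, h3, h4⟩ := ctB_norm hη (Fb v) (fA A) G (norm_fA_le A) h2
      have e : 𝔼 M, ind (Fb v) M * ind D v = dens (Fb v) := by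
        rw [ind_of_mem (show v ∈ D from ⟨G, h1, by rw [CY_bot, Set.univ_inter]; exact h2⟩)]
        simp only [mul_one]
        rfl
      exact ⟨fun M => c * G M, Lv_smul c h1, by rw [e]; exact h3, by rw [e]; exact h4⟩
    · refine ⟨fun _ => 0, Lv_zero s, ?_, ?_⟩ <;> simp [ind_of_not hv]
  choose G h1 h2 h3 using key
  have hL : Lv s fun M => G (dg M) M := Lv_of_fibres fun v => ⟨G v, h1 v, fun M hM => by
    have : dg M = v := hM
    rw [this]⟩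
  have hP : dens {M : SymM 2 ν | dg M ∈ D} = ∑ v, 𝔼 M, ind (Fb v) M * ind D v :=
    ctB_fib fun v _ => ind D v
  have he : en (fun M => G (dg M) M) = dens {M : SymM 2 ν | dg M ∈ D} := by
    rw [hP]
    exact (ctB_fib fun v M => ‖G v M‖ ^ 2).trans (Finset.sum_congr rfl fun v _ => h2 v)
  have hr : η * dens {M : SymM 2 ν | dg M ∈ D} ≤ ‖𝔼 M, fA A M * G (dg M) M‖ := by
    refine le_trans ?_ (Complex.re_le_norm _)
    rw [hP, Complex.re_expect, ctB_fib fun v M => (fA A M * G v M).re, Finset.mul_sum]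
    exact Finset.sum_le_sum fun v _ => h3 v
  have h4 := hr.trans (hA _ hL)
  rw [he] at h4
  refine (dens_mono hBU).trans ?_
  set P := dens {M : SymM 2 ν | dg M ∈ D}
  have hP0 : 0 ≤ P := dens_nonneg _
  have h5 : P ≤ √ε * √P := by
    rw [mul_assoc] at h4
    exact le_of_mul_le_mul_left h4 hη
  have a1 := Real.sq_sqrt hP0
  have a2 := Real.sq_sqrt hε.le
  nlinarith [sq_nonneg (√ε - √P)]

lemma ctB_K0 {s i : ℕ} (h : CLN s i) (R : ℕ) {η : ℝ} (hη : 0 < η) : CLK s i R 0 η := by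
  intro ε hε
  refine (h η ε hη hε).mono fun ν _ _ A hA Ξ hΞ => le_trans (dens_mono ?_) hA
  rintro M ⟨Y, Y₀, -, h2, h3, h4, h5, h6⟩
  have e : Y₀ = ⊥ := by
    refine (Submodule.eq_bot_iff _).2 fun q hq => ?_
    have k : Ξ (dg M) = ⊥ := Submodule.finrank_eq_zero.1 (Nat.le_zero.1 (hΞ _))
    have k1 : q.1 = 0 := by
      have := h3 q hq
      rwa [k, Submodule.mem_bot] at this
    have k2 : q.2 = 0 := by rw [← h5 q (h2 hq), k1, mulVec_zero]
    exact Prod.ext k1 k2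
  rw [e, finrank_bot, add_zero] at h4
  exact ⟨Y, h4, h5, h6⟩

theorem CLK_of_CLN {s i : ℕ} (h : CLN s i) (R K : ℕ) {η : ℝ} (hη : 0 < η) : CLK s i R K η := by
  intro ε hε
  obtain ⟨J, η0, hη0, g, hg, hT⟩ := TRF2 hη (ctB_K0 h R (by positivity)) ε hε
  obtain ⟨n0, hH⟩ := HCW J K g hg
  refine ⟨η0, hη0, n0, fun ν _ _ hn A hA Ξ hΞ => ?_⟩
  obtain ⟨w, hw, hU⟩ := hH ν hn Ξ hΞ
  refine le_trans (dens_mono ?_) (hT ν A hA w (fun v => {Y | ∃ Y₀ : SV 2 ν,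
    Module.finrank (ZMod 2) Y ≤ R ∧ Y₀ ≤ Y ∧ (∀ q ∈ Y₀, q.1 ∈ Ξ v) ∧
    Module.finrank (ZMod 2) Y ≤ i + Module.finrank (ZMod 2) Y₀ ∧ BadY η s A v Y}) hw ?_ ?_)
  · rintro M ⟨Y, Y₀, h1, h2, h3, h4, h5, h6⟩
    exact ⟨Y, ⟨Y₀, h1, h2, h3, h4, h6⟩, h5⟩
  · intro M U hM
    refine ⟨fun _ => ⊥, fun _ => (finrank_bot _ _).le, ?_⟩
    rintro N Y ⟨Y₀, -, h2, h3, h4, -⟩ -
    refine ⟨Y₀, h2, h4, fun q hq => ?_⟩
    rw [hU (M + cj U N) U (by rw [hw.inv]; exact hM) _ (h3 q hq)]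
    exact Submodule.zero_mem _
  · rintro v Y ⟨Y₀, h1, -, -, -, h6⟩
    exact ⟨h1, h6⟩

theorem FC_of_CLN {s R : ℕ} (h : CLN s R) : FCout s R := by
  intro ε hε
  obtain ⟨ε0, hε0, hC⟩ := CLOg R (min ((ε / 2) ^ 2) ε) (lt_min (by positivity) hε)
  refine (h (ε / 2) ε0 (by positivity) hε0).mono fun ν _ _ A hA => ?_
  obtain ⟨B, h1, h2, h3⟩ := hC ν _ hA
  refine ⟨B, h2.trans (min_le_right _ _), fun v Y hY G hG => ?_⟩
  by_cases hs : CY Y ∩ Fb v ⊆ B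
  · have e : ∀ M, (ind (CY Y ∩ Fb v) M : ℂ) * (fB A B M * G M) = 0 := fun M => by
      by_cases hM : M ∈ CY Y ∩ Fb v
      · simp [fB, ind_of_mem (hs hM)]
      · simp [ind_of_not hM]
    simp only [e, Finset.expect_const_zero, norm_zero]
    positivity
  · have h4 := (h3 v Y hY).resolve_left hs
    have h5 : ‖𝔼 M, (ind (CY Y ∩ Fb v) M : ℂ) * (fA A M * G M)‖ ≤
        ε / 2 * (√(dens (CY Y ∩ Fb v)) * √(𝔼 M, ind (CY Y ∩ Fb v) M * ‖G M‖ ^ 2)) := by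
      refine not_lt.1 fun k => hs fun M hM => h1 ⟨Y, hY, hM.1, ?_⟩
      have : dg M = v := hM.2
      rw [this]
      exact ⟨G, hG, k⟩
    have h6 := ctB_cs B (CY Y ∩ Fb v) (fA A) G (norm_fA_le A)
    have h7 : √(dens (B ∩ (CY Y ∩ Fb v))) ≤ ε / 2 * √(dens (CY Y ∩ Fb v)) := by
      rw [← Real.sqrt_sq (show 0 ≤ ε / 2 by positivity), ← Real.sqrt_mul (sq_nonneg _)]
      exact Real.sqrt_le_sqrt (h4.trans
        (mul_le_mul_of_nonneg_right (min_le_left _ _) (dens_nonneg _)))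
    have e : 𝔼 M, (ind (CY Y ∩ Fb v) M : ℂ) * (fB A B M * G M) =
        𝔼 M, (ind (CY Y ∩ Fb v) M : ℂ) * (fA A M * G M) -
          𝔼 M, (ind (CY Y ∩ Fb v) M : ℂ) * ((ind B M : ℂ) * (fA A M * G M)) := by
      rw [← Finset.expect_sub_distrib]
      refine Finset.expect_congr rfl fun M _ => ?_
      simp only [fB, Complex.ofReal_sub, Complex.ofReal_one]
      ring
    rw [e]
    refine (norm_sub_le _ _).trans ?_
    have h8 := mul_le_mul_of_nonneg_right h7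
      (Real.sqrt_nonneg (𝔼 M, ind (CY Y ∩ Fb v) M * ‖G M‖ ^ 2))
    linarith

end Pool.Agent.Work.MP_4523ee_co.F2
end
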