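import Mathlib
import Pool.Agent.Work.MP_4523ee_co.F2.PtB
import Pool.Agent.Work.MP_4523ee_co.F2.AlA
import Pool.Agent.Work.MP_4523ee_co.F2.CTrf
import Pool.Agent.Work.MP_4523ee_co.Fp.Inv

-- merged part: Pool.Agent.Work.MP_4523ee_co.F2.MoC
section
/-!
Thin families: closure properties and counting bounds.
-/

set_option autoImplicit false
set_option linter.unusedSectionVars false

namespace Pool.Agent.Work.MP_4523ee_co.F2.Mo

open Finset Matrix Pool.Agent.Work.MP_4523ee_co.Fp Pool.Agent.Work.MP_4523ee_co.Fp.Po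
open scoped BigOperators ComplexConjugate

variable {p : ℕ} [Fact p.Prime] {ν : Type} [Fintype ν] [DecidableEq ν] {ρ : ℕ}
variable {C C' ξ ξ' : ℝ} {S S' S'' : Finset (TT p ρ ν)}

/-- every subspace is the range of a square matrix -/
lemma exists_range (E : Submodule (ZMod p) (Fin ρ → ZMod p)) :
    ∃ g : Mx p (Fin ρ) (Fin ρ), LinearMap.range g.mulVecLin = E := by
  obtain ⟨E', hE⟩ := E.exists_isCompl
  refine ⟨LinearMap.toMatrix' (E.subtype ∘ₗ E.projectionOnto E' hE), ?_⟩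
  rw [← Matrix.toLin'_apply', Matrix.toLin'_toMatrix', LinearMap.range_comp,
    Submodule.range_projectionOnto, Submodule.map_top, Submodule.range_subtype]

lemma Lt.mono (h : Lt ξ S) (hξ : ξ ≤ ξ') (hS : S' ⊆ S) : Lt ξ' S' := by
  intro g h0 h1 σ
  refine (Nat.cast_le.2 (card_le_card (filter_subset_filter _ hS))).trans ((h g h0 h1 σ).trans ?_)
  exact mul_le_mul_of_nonneg_right hξ (pow_pos dd_pos _).le

lemma Yf.mono (h : Yf ξ S) (hξ : ξ ≤ ξ') (hS : S' ⊆ S) : Yf ξ' S' := by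
  intro c hc v
  refine (Nat.cast_le.2 (card_le_card (filter_subset_filter _ hS))).trans ((h c hc v).trans ?_)
  exact mul_le_mul_of_nonneg_right hξ (pow_pos dd_pos _).le

lemma Thin.mono (h : Thin C ξ S) (hC : C ≤ C') (h0 : 0 ≤ ξ) (hξ : ξ ≤ ξ') (hS : S' ⊆ S) :
    Thin C' ξ' S' := by
  refine ⟨(Nat.cast_le.2 (card_le_card hS)).trans (h.card.trans ?_), h.lt.mono hξ hS,
    (Nat.cast_le.2 (addEnergy_mono hS hS)).trans (h.en.trans ?_)⟩
  · exact mul_le_mul_of_nonneg_right hC (pow_pos dd_pos _).le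
  · exact mul_le_mul_of_nonneg_right (pow_le_pow_left₀ h0 hξ 4) (pow_pos dd_pos _).le

lemma Nice.mono (h : Nice C ξ S) (hC : C ≤ C') (h0 : 0 ≤ ξ) (hξ : ξ ≤ ξ') (hS : S' ⊆ S) :
    Nice C' ξ' S' := by
  exact ⟨h.toThin.mono hC h0 hξ hS, fun τ hτ => h.inj τ (hS hτ),
    fun τ hτ τ' hτ' => h.dist τ (hS hτ) τ' (hS hτ')⟩

lemma moC_diff {G : Type} [AddCommGroup G] [Fintype G] [DecidableEq G] (A B : Finset G) :
    ∑ x, #{a ∈ A ×ˢ A | a.1 - a.2 = x} * #{a ∈ B ×ˢ B | a.1 - a.2 = x} =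
      Finset.addEnergy A B := by
  rw [← pocB_fib]
  refine card_equiv ((Equiv.refl _).prodCongr (Equiv.prodComm _ _)) fun w => ?_
  simp only [mem_filter, mem_product, sub_eq_sub_iff_add_eq_add,
    Equiv.prodCongr_apply, Prod.map_fst, Prod.map_snd, Equiv.coe_refl, id, Equiv.prodComm_apply,
    Prod.fst_swap, Prod.snd_swap, add_comm w.2.1, and_comm (a := w.2.1 ∈ B)]

lemma moC_two {G : Type} [AddCommGroup G] [Fintype G] [DecidableEq G] (A B : Finset G) :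
    2 * Finset.addEnergy A B ≤ Finset.addEnergy A A + Finset.addEnergy B B := by
  rw [← moC_diff, ← moC_diff, ← moC_diff, mul_sum, ← sum_add_distrib]
  exact sum_le_sum fun x _ => by
    rw [← mul_assoc, ← sq, ← sq]
    exact two_mul_le_add_sq _ _

lemma moC_bi {G κ : Type} [AddCommGroup G] [Fintype G] [DecidableEq G] (s : Finset κ)
    (T : κ → Finset G) : Finset.addEnergy (s.biUnion T) (s.biUnion T) ≤
      #(s ×ˢ s) * ∑ q ∈ s ×ˢ s, Finset.addEnergy (T q.1) (T q.2) := by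
  simp only [addEnergy_eq_sum_sq]
  rw [sum_comm, mul_sum]
  refine sum_le_sum fun x _ => le_trans (Nat.pow_le_pow_left ?_ 2) sq_sum_le_card_mul_sum_sq
  refine le_trans (card_le_card fun a ha => ?_) card_biUnion_le
  obtain ⟨h1, h2⟩ := mem_filter.1 ha
  obtain ⟨h3, h4⟩ := mem_product.1 h1
  obtain ⟨i, hi, h5⟩ := mem_biUnion.1 h3
  obtain ⟨j, hj, h6⟩ := mem_biUnion.1 h4
  exact mem_biUnion.2 ⟨(i, j), mem_product.2 ⟨hi, hj⟩, mem_filter.2 ⟨mem_product.2 ⟨h5, h6⟩, h2⟩⟩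

lemma moC_en {G : Type} [AddCommGroup G] [DecidableEq G] (A : Finset G) (f : G → G)
    (hf : ∀ a b c d, f a + f b = f c + f d → a + b = c + d) :
    Finset.addEnergy (A.image f) (A.image f) ≤ Finset.addEnergy A A := by
  refine le_trans (card_le_card fun w hw => ?_)
    (card_image_le (f := Prod.map (Prod.map f f) (Prod.map f f)))
  obtain ⟨⟨a, b⟩, c, d⟩ := w
  simp only [mem_filter, mem_product, mem_image] at hw
  obtain ⟨⟨⟨⟨a, ha, rfl⟩, b, hb, rfl⟩, ⟨c, hc, rfl⟩, d, hd, rfl⟩, e⟩ := hw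
  exact mem_image.2 ⟨((a, b), c, d), mem_filter.2
    ⟨mem_product.2 ⟨mem_product.2 ⟨ha, hb⟩, mem_product.2 ⟨hc, hd⟩⟩, hf _ _ _ _ e⟩, rfl⟩

lemma moC_img (h : Thin C ξ S) (f : TT p ρ ν → TT p ρ ν)
    (hf : ∀ a b c d, f a + f b = f c + f d → a + b = c + d)
    (hl : ∀ g : Mx p (Fin ρ) (Fin ρ), ∀ σ, ∃ g' : Mx p (Fin ρ) (Fin ρ), ∃ σ', g'.rank = g.rank ∧
      ∀ τ, rm (f τ) g = σ → rm τ g' = σ') : Thin C ξ (S.image f) := by
  refine ⟨(Nat.cast_le.2 card_image_le).trans h.card, fun g h0 h1 σ => ?_,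
    (Nat.cast_le.2 (moC_en S f hf)).trans h.en⟩
  obtain ⟨g', σ', e, k⟩ := hl g σ
  have h2 := h.lt g' (e ▸ h0) (e ▸ h1) σ'
  rw [e] at h2
  refine le_trans (Nat.cast_le.2 ?_) h2
  rw [filter_image]
  exact card_image_le.trans (card_le_card fun τ hτ =>
    mem_filter.2 ⟨(mem_filter.1 hτ).1, k τ (mem_filter.1 hτ).2⟩)

lemma moC_ext {τ τ' : TT p ρ ν} (h1 : yM τ = yM τ') (h2 : zM τ = zM τ') : τ = τ' :=
  Prod.ext (Matrix.of.injective h1) (Matrix.of.injective h2)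

lemma moC_y (τ : TT p ρ ν) (g : Mx p (Fin ρ) (Fin ρ)) : yM (rm τ g) = yM τ * g := rfl

lemma moC_z (τ : TT p ρ ν) (g : Mx p (Fin ρ) (Fin ρ)) : zM (rm τ g) = zM τ * g := rfl

lemma Thin.biUnion {κ : Type} (s : Finset κ) (T : κ → Finset (TT p ρ ν))
    (h : ∀ i ∈ s, Thin C ξ (T i)) : Thin (#s * C) (#s * ξ) (s.biUnion T) := by
  refine ⟨?_, fun g h0 h1 σ => ?_, ?_⟩
  · refine (Nat.cast_le.2 card_biUnion_le).trans ?_
    rw [Nat.cast_sum, mul_assoc, ← nsmul_eq_mul]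
    exact sum_le_card_nsmul _ _ _ fun i hi => (h i hi).card
  · rw [filter_biUnion]
    refine (Nat.cast_le.2 card_biUnion_le).trans ?_
    rw [Nat.cast_sum, mul_assoc, ← nsmul_eq_mul]
    exact sum_le_card_nsmul _ _ _ fun i hi => (h i hi).lt g h0 h1 σ
  · refine (Nat.cast_le.2 (moC_bi s T)).trans ?_
    have h1 : ∑ q ∈ s ×ˢ s, (Finset.addEnergy (T q.1) (T q.2) : ℝ) ≤
        #(s ×ˢ s) • (ξ ^ 4 * dd p ν ^ (3 * ρ)) := by
      refine sum_le_card_nsmul _ _ _ fun q hq => ?_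
      have a1 := (h q.1 (mem_product.1 hq).1).en
      have a2 := (h q.2 (mem_product.1 hq).2).en
      have a3 : 2 * (Finset.addEnergy (T q.1) (T q.2) : ℝ) ≤
          Finset.addEnergy (T q.1) (T q.1) + Finset.addEnergy (T q.2) (T q.2) := by
        exact_mod_cast moC_two (T q.1) (T q.2)
      linarith
    rw [Nat.cast_mul, Nat.cast_sum]
    refine (mul_le_mul_of_nonneg_left h1 (Nat.cast_nonneg _)).trans_eq ?_
    rw [nsmul_eq_mul, card_product]
    push_cast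
    ring

lemma Thin.union (h : Thin C ξ S) (h' : Thin C ξ S') : Thin (2 * C) (2 * ξ) (S ∪ S') := by
  have k := Thin.biUnion (C := C) (ξ := ξ) (univ : Finset Bool) (fun b => if b then S else S')
    fun b _ => by cases b <;> assumption
  have e : (univ : Finset Bool).biUnion (fun b => if b then S else S') = S ∪ S' := by
    ext x
    simp
  rw [e] at k
  simpa using k

/-- image under an additive bijection that commutes with right multiplication -/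
lemma Thin.image (h : Thin C ξ S) (φ : TT p ρ ν →+ TT p ρ ν) (h1 : Function.Injective φ)
    (h2 : ∀ τ g, φ (rm τ g) = rm (φ τ) g) : Thin C ξ (S.image φ) := by
  refine moC_img h φ (fun a b c d e => h1 (by rw [map_add, map_add, e])) fun g σ => ?_
  obtain ⟨σ', rfl⟩ := Finite.surjective_of_injective h1 σ
  exact ⟨g, σ', rfl, fun τ e => h1 ((h2 τ g).trans e)⟩

lemma Thin.add (h : Thin C ξ S) (c : TT p ρ ν) : Thin C ξ (S.image fun τ => τ + c) := by
  refine moC_img h _ (fun a b c' d e => ?_) fun g σ => ⟨g, σ - rm c g, rfl, fun τ e => ?_⟩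
  · rw [add_add_add_comm, add_add_add_comm c'] at e
    exact add_right_cancel e
  · exact eq_sub_of_add_eq (((pocB_rm g).map_add τ c).symm.trans e)

lemma Thin.rmul (h : Thin C ξ S) {g : Mx p (Fin ρ) (Fin ρ)} (hg : Inj g) :
    Thin C ξ (S.image fun τ => rm τ g) := by
  refine moC_img h _ (fun a b c d e => pocB_rm_inj hg ?_) fun g' σ =>
    ⟨g * g', σ, rank_mul_eq_right_of_isUnit_det _ _
      ((isUnit_iff_isUnit_det g).1 (mulVec_injective_iff_isUnit.1 hg)), fun τ e => ?_⟩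
  · rw [map_add, map_add]
    exact e
  · rw [← e]
    exact moC_ext (by simp only [moC_y, Matrix.mul_assoc]) (by simp only [moC_z, Matrix.mul_assoc])

/-- the shear `(y, z) ↦ (y, z + B y)` -/
def shr (B : Mx p ν ν) : TT p ρ ν →+ TT p ρ ν :=
  AddMonoidHom.mk' (fun τ => (τ.1, τ.2 + act B τ.1)) fun a b => by
    simp only [Prod.fst_add, Prod.snd_add, act_add, Prod.mk_add_mk, add_add_add_comm]

lemma yM_shr (B : Mx p ν ν) (τ : TT p ρ ν) : yM (shr B τ) = yM τ := rfl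

lemma zM_shr (B : Mx p ν ν) (τ : TT p ρ ν) : zM (shr B τ) = zM τ + B * yM τ := by
  ext i a
  simp [zM, yM, shr, act, Matrix.mul_apply]

lemma Thin.shear (h : Thin C ξ S) (B : Mx p ν ν) : Thin C ξ (S.image (shr B)) := by
  refine h.image _ (fun a b e => ?_) fun τ g => moC_ext rfl ?_
  · have e1 : yM a = yM b := (congrArg yM e :)
    have e2 := congrArg zM e
    rw [zM_shr, zM_shr, e1] at e2
    exact moC_ext e1 (add_right_cancel e2)
  · rw [zM_shr, moC_z, moC_z, moC_y, zM_shr, Matrix.add_mul, Matrix.mul_assoc]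

lemma hit_shr (M N : SymM p ν) (τ : TT p ρ ν) : hit (M + N) (shr N.1 τ) ↔ hit M τ := by
  unfold hit
  rw [zM_shr, yM_shr, Submodule.coe_add, Matrix.add_mul, add_left_inj]

/-- one representative for each span -/
lemma exists_reps (S : Finset (TT p ρ ν)) : ∃ T ⊆ S,
    (∀ τ ∈ T, ∀ τ' ∈ T, spn τ = spn τ' → τ = τ') ∧ ∀ τ ∈ S, ∃ τ' ∈ T, spn τ' = spn τ := by
  have k : ∀ τ ∈ S, ∃ a ∈ (S : Set (TT p ρ ν)), spn a = spn τ := fun τ hτ => ⟨τ, hτ, rfl⟩
  refine ⟨S.image fun τ => Function.invFunOn spn (S : Set (TT p ρ ν)) (spn τ), fun a ha => ?_,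
    fun a ha b hb e => ?_, fun τ hτ => ⟨_, mem_image_of_mem _ hτ, Function.invFunOn_eq (k τ hτ)⟩⟩
  · obtain ⟨τ, hτ, rfl⟩ := mem_image.1 ha
    exact Function.invFunOn_mem (k τ hτ)
  · obtain ⟨τ, hτ, rfl⟩ := mem_image.1 ha
    obtain ⟨τ', hτ', rfl⟩ := mem_image.1 hb
    rw [Function.invFunOn_eq (k τ hτ), Function.invFunOn_eq (k τ' hτ')] at e
    rw [e]

lemma moC_spn (τ : TT p ρ ν) {g : Mx p (Fin ρ) (Fin ρ)} (hg : Inj g) :
    spn (rm τ g) = spn τ := by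
  have hs : Function.Surjective g.mulVec := Finite.surjective_of_injective hg
  rw [spn_eq, spn_eq, moC_y, moC_z]
  refine le_antisymm ?_ ?_
  · rintro _ ⟨x, rfl⟩
    exact ⟨g *ᵥ x, Prod.ext (mulVec_mulVec x (yM τ) g) (mulVec_mulVec x (zM τ) g)⟩
  · rintro _ ⟨x, rfl⟩
    obtain ⟨y, rfl⟩ := hs x
    exact ⟨y, Prod.ext (mulVec_mulVec y (yM τ) g).symm (mulVec_mulVec y (zM τ) g).symm⟩

/-- tuples of full rank with the same span differ by an invertible matrix -/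
lemma spn_eq_iff {τ τ' : TT p ρ ν} (h : Inj (yM τ')) :
    spn τ' = spn τ ↔ ∃ g : Mx p (Fin ρ) (Fin ρ), Inj g ∧ τ' = rm τ g := by
  refine ⟨fun e => ?_, fun ⟨g, hg, e⟩ => e ▸ moC_spn τ hg⟩
  have k : ∀ a : Fin ρ, ∃ c : Fin ρ → ZMod p,
      yM τ *ᵥ c = (fun i => τ'.1 i a) ∧ zM τ *ᵥ c = fun i => τ'.2 i a := fun a => by
    have m : ((fun i => τ'.1 i a), fun i => τ'.2 i a) ∈ spn τ' := Submodule.subset_span ⟨a, rfl⟩
    rw [e, spn_eq] at m
    obtain ⟨c, hc⟩ := m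
    exact ⟨c, congrArg Prod.fst hc, congrArg Prod.snd hc⟩
  choose c h1 h2 using k
  have e1 : yM τ' = yM τ * Matrix.of fun b a => c a b := by
    ext i a
    exact (congrFun (h1 a) i).symm
  have e2 : zM τ' = zM τ * Matrix.of fun b a => c a b := by
    ext i a
    exact (congrFun (h2 a) i).symm
  refine ⟨Matrix.of fun b a => c a b, fun x y hxy => h ?_, moC_ext e1 e2⟩
  rw [e1, ← mulVec_mulVec, ← mulVec_mulVec, hxy]

lemma spn_rm (τ : TT p ρ ν) {g : Mx p (Fin ρ) (Fin ρ)} (hg : Inj g) :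
    spn (rm τ g) = spn τ := by
  exact moC_spn τ hg

end Pool.Agent.Work.MP_4523ee_co.F2.Mo
end

-- merged part: Pool.Agent.Work.MP_4523ee_co.F2.MoD
section
/-!
Thin families: Fourier and energy bounds.
-/

set_option autoImplicit false
set_option linter.unusedSectionVars false

namespace Pool.Agent.Work.MP_4523ee_co.F2.Mo

open Finset Matrix Pool.Agent.Work.MP_4523ee_co.Fp Pool.Agent.Work.MP_4523ee_co.Fp.Po
open scoped BigOperators ComplexConjugate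

variable {p : ℕ} [Fact p.Prime] {ν : Type} [Fintype ν] [DecidableEq ν] {ρ : ℕ}
variable {C ξ : ℝ} {S S' S'' : Finset (TT p ρ ν)}

lemma moD_cnt {G : Type} [AddCommGroup G] [Fintype G] [DecidableEq G] (S S' S'' : Finset G)
    (f g : G →+ G) (hf : Function.Injective f) (hg : Function.Injective g) (c : G) :
    2 * #{q ∈ S ×ˢ S' | f q.1 + g q.2 + c ∈ S''} ^ 2 ≤
      #S'' * (Finset.addEnergy S S + Finset.addEnergy S' S') := by
  have E : ∀ (S : Finset G) (f : G →+ G), Function.Injective f →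
      ∑ x, #{a ∈ S ×ˢ S | f a.1 - f a.2 = x} ^ 2 = Finset.addEnergy S S := fun S f hf => by
    simp only [sq]
    rw [← pocB_fib]
    refine card_equiv ((Equiv.refl _).prodCongr (Equiv.prodComm _ _)) fun w => ?_
    simp only [mem_filter, mem_product, ← map_sub, hf.eq_iff, sub_eq_sub_iff_add_eq_add,
      Equiv.prodCongr_apply, Prod.map_fst, Prod.map_snd, Equiv.coe_refl, id, Equiv.prodComm_apply,
      Prod.fst_swap, Prod.snd_swap, add_comm w.2.1, and_comm (a := w.2.1 ∈ S)]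
  have Q : ∑ x, #{q ∈ S ×ˢ S' | f q.1 + g q.2 + c = x} ^ 2 =
      ∑ x, #{a ∈ S ×ˢ S | f a.1 - f a.2 = x} * #{a ∈ S' ×ˢ S' | g a.1 - g a.2 = x} := by
    simp only [sq]
    rw [← pocB_fib, ← pocB_fib]
    refine card_equiv ⟨fun w => ((w.1.1, w.2.1), w.2.2, w.1.2),
      fun w => ((w.1.1, w.2.2), w.1.2, w.2.1), fun _ => rfl, fun _ => rfl⟩ fun w => ?_
    simp only [mem_filter, mem_product, sub_eq_sub_iff_add_eq_add, add_left_inj, Equiv.coe_fn_mk,
      add_comm (g w.2.2)]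
    tauto
  have A : 2 * ∑ x, #{q ∈ S ×ˢ S' | f q.1 + g q.2 + c = x} ^ 2 ≤
      Finset.addEnergy S S + Finset.addEnergy S' S' := by
    rw [Q, mul_sum, ← E S f hf, ← E S' g hg, ← sum_add_distrib]
    exact sum_le_sum fun x _ => by rw [← mul_assoc]; exact two_mul_le_add_sq _ _
  rw [← sum_card_fiberwise_eq_card_filter]
  refine (Nat.mul_le_mul_left 2 sq_sum_le_card_mul_sum_sq).trans ?_
  rw [mul_left_comm]
  exact Nat.mul_le_mul_left _
    ((Nat.mul_le_mul_left 2 (sum_le_sum_of_subset (subset_univ S''))).trans A)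

open scoped Pointwise in
/-- few members with a given first component -/
lemma moD_coset (h : Thin C ξ S) (hξ : 0 ≤ ξ) {T : Finset (TT p ρ ν)} (hT : T ⊆ S)
    (hy : ∀ τ ∈ T, ∀ τ' ∈ T, τ.1 = τ'.1) : (#T : ℝ) ≤ ξ * dd p ν ^ ρ := by
  have hd := dd_pos (p := p) (ν := ν)
  have h1 := Finset.le_card_add_mul_addEnergy T T
  have h2 : #(T + T) ≤ Fintype.card (ν → Fin ρ → ZMod p) := by
    refine card_le_card_of_injOn (fun τ => τ.2) (fun _ _ => mem_coe.2 (mem_univ _)) ?_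
    intro a ha b hb e
    obtain ⟨a1, h3, a2, h4, rfl⟩ := mem_add.1 (mem_coe.1 ha)
    obtain ⟨b1, h5, b2, h6, rfl⟩ := mem_add.1 (mem_coe.1 hb)
    refine Prod.ext ?_ e
    rw [Prod.fst_add, Prod.fst_add, hy a1 h3 b1 h5, hy a2 h4 b2 h6]
  have h3 : (Fintype.card (ν → Fin ρ → ZMod p) : ℝ) = dd p ν ^ ρ := by
    rw [dd, ← pow_mul, mul_comm, pow_mul]
    simp
  have h4 : (#T : ℝ) ^ 2 * (#T : ℝ) ^ 2 ≤
      Fintype.card (ν → Fin ρ → ZMod p) * (Finset.addEnergy S S : ℝ) := by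
    exact_mod_cast h1.trans (Nat.mul_le_mul h2 (Finset.addEnergy_mono hT hT))
  rw [h3] at h4
  have h5 := h.en
  refine le_of_pow_le_pow_left₀ (n := 4) (by norm_num) (by positivity) ?_
  calc (#T : ℝ) ^ 4 = (#T : ℝ) ^ 2 * (#T : ℝ) ^ 2 := by ring
    _ ≤ dd p ν ^ ρ * (ξ ^ 4 * dd p ν ^ (3 * ρ)) := h4.trans (by gcongr)
    _ = _ := by ring

theorem Thin.bl (h : Thin C ξ S) (h' : Thin C ξ S') (hC : 1 ≤ C) (hξ : 0 ≤ ξ) :
    BL (C * ξ) S S' := by
  classical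
  intro α hα f g hf hg
  have hd := dd_pos (p := p) (ν := ν)
  have hC0 : 0 ≤ C := by linarith
  set gh : TT p ρ ν → ℂ := fun σ => ∑ τ' ∈ S', g τ' * ee (pcA_psi τ' σ) with hgh
  have h1 : ‖∑ τ ∈ S, ∑ τ' ∈ S', f τ * g τ' * ee (∑ s, ∑ t, α s t * om τ τ' s t)‖ ≤
      ∑ τ ∈ S, ‖gh (rm τ α)‖ := by
    refine (norm_sum_le _ _).trans (sum_le_sum fun τ _ => ?_)
    simp only [pcA_om, mul_assoc, ← mul_sum, norm_mul]
    exact mul_le_of_le_one_left (norm_nonneg _) (hf τ)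
  refine h1.trans ?_
  have hcard : ∀ r : ℕ, (((p ^ r) ^ Fintype.card ν * (p ^ r) ^ Fintype.card ν : ℕ) : ℝ) =
      dd p ν ^ (2 * r) := fun r => by
    rw [dd]; push_cast; ring
  rcases (rank_le_width α).eq_or_lt with hr | hr
  · have hu : IsUnit α := by
      rw [← Matrix.linearIndependent_cols_iff_isUnit, linearIndependent_iff_card_eq_finrank_span,
        Fintype.card_fin, Set.finrank, ← rank_eq_finrank_span_cols, hr]
    have hv := Matrix.vecMul_injective_iff_isUnit.2 hu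
    have hinj : Function.Injective fun τ : TT p ρ ν => rm τ α := fun τ τ' e =>
      Prod.ext (funext fun i => hv (congrFun (congrArg Prod.fst e) i))
        (funext fun i => hv (congrFun (congrArg Prod.snd e) i))
    refine le_of_pow_le_pow_left₀ (n := 4) (by norm_num) (by positivity) ?_
    have h2 : (∑ τ ∈ S, ‖gh (rm τ α)‖) ^ 4 ≤ (#S : ℝ) ^ 3 * ∑ τ ∈ S, ‖gh (rm τ α)‖ ^ 4 :=
      pow_sum_le_card_mul_sum_pow (fun _ _ => norm_nonneg _) 3
    have h3 : ∑ τ ∈ S, ‖gh (rm τ α)‖ ^ 4 ≤ ∑ σ, ‖gh σ‖ ^ 4 := by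
      rw [← sum_image (f := fun σ => ‖gh σ‖ ^ 4) fun x _ y _ e => hinj e]
      exact sum_le_sum_of_subset_of_nonneg (subset_univ _) fun _ _ _ => by positivity
    have h4 := pars (S' ×ˢ S') (fun q => pcA_psi (q.1 + q.2)) (fun q => g q.1 * g q.2)
      (fun q => by rw [norm_mul]; exact mul_le_one₀ (hg _) (norm_nonneg _) (hg _))
      (fun q q' => q.1 + q.2 = q'.1 + q'.2) fun q _ q' _ e =>
        pcA_inj fun σ => DFunLike.congr_fun e σ
    have h5 : ∀ σ, ‖gh σ‖ ^ 4 =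
        ‖∑ q ∈ S' ×ˢ S', g q.1 * g q.2 * ee (pcA_psi (q.1 + q.2) σ)‖ ^ 2 := fun σ => by
      have : ∑ q ∈ S' ×ˢ S', g q.1 * g q.2 * ee (pcA_psi (q.1 + q.2) σ) = gh σ * gh σ := by
        rw [hgh, sum_mul_sum, sum_product]
        refine sum_congr rfl fun x _ => sum_congr rfl fun y _ => ?_
        rw [pcA_add, ee_add]; ring
      rw [this, norm_mul]; ring
    rw [← addEnergy_eq_card_filter, ← sum_congr rfl fun σ _ => h5 σ] at h4
    have h6 : (Fintype.card (TT p ρ ν) : ℝ) = dd p ν ^ (2 * ρ) := by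
      rw [← hcard]; simp
    rw [h6] at h4
    have h7 := h.card
    have h8 := h'.en
    have h9 : C ^ 3 ≤ C ^ 4 := pow_le_pow_right₀ hC (by norm_num)
    calc _ ≤ _ := h2
      _ ≤ (C * dd p ν ^ ρ) ^ 3 * (dd p ν ^ (2 * ρ) * (ξ ^ 4 * dd p ν ^ (3 * ρ))) := by
          gcongr
          exact h3.trans (h4.trans (by gcongr))
      _ = C ^ 3 * (ξ * dd p ν ^ (2 * ρ)) ^ 4 := by ring
      _ ≤ C ^ 4 * (ξ * dd p ν ^ (2 * ρ)) ^ 4 := by gcongr
      _ = _ := by ring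
  · have hr0 : 0 < α.rank := Nat.pos_of_ne_zero fun e => hα (by
      have h2 := Submodule.finrank_eq_zero.1 e
      rw [LinearMap.range_eq_bot] at h2
      exact Matrix.ext_of_mulVec_single fun i =>
        (show α *ᵥ Pi.single i 1 = 0 from DFunLike.congr_fun h2 (Pi.single i 1)).trans
          (zero_mulVec _).symm)
    obtain ⟨k, hk⟩ : ∃ k, ρ = α.rank + k := Nat.exists_eq_add_of_le hr.le
    have hk' : ρ - α.rank = k := by omega
    obtain ⟨E, hE, hm⟩ : ∃ E : Submodule (ZMod p) (Fin ρ → ZMod p),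
        Module.finrank (ZMod p) E = α.rank ∧ ∀ τ : TT p ρ ν, rm τ α ∈ pw ν E :=
      ⟨LinearMap.range αᵀ.mulVecLin, rank_transpose α, fun τ => mem_pw.2
        ⟨fun i => ⟨τ.1 i, mulVec_transpose α _⟩, fun i => ⟨τ.2 i, mulVec_transpose α _⟩⟩⟩
    refine le_of_pow_le_pow_left₀ (n := 2) (by norm_num) (by positivity) ?_
    have h2 : (∑ τ ∈ S, ‖gh (rm τ α)‖) ^ 2 ≤ #S * ∑ τ ∈ S, ‖gh (rm τ α)‖ ^ 2 :=
      sq_sum_le_card_mul_sum_sq
    have h3 : ∑ τ ∈ S, ‖gh (rm τ α)‖ ^ 2 ≤ ξ * dd p ν ^ k * ∑ σ : pw ν E, ‖gh σ.1‖ ^ 2 := by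
      rw [mul_sum, ← sum_fiberwise (s := S) (g := fun τ => (⟨rm τ α, hm τ⟩ : pw ν E))]
      refine sum_le_sum fun σ _ => ?_
      have e : ∀ τ ∈ S.filter fun τ => (⟨rm τ α, hm τ⟩ : pw ν E) = σ, rm τ α = σ.1 :=
        fun τ hτ => congrArg Subtype.val (mem_filter.1 hτ).2
      rw [sum_congr rfl fun τ hτ => by rw [e τ hτ], sum_const, nsmul_eq_mul, ← hk']
      gcongr
      exact le_trans (Nat.cast_le.2 (card_le_card fun τ hτ => mem_filter.2
        ⟨(mem_filter.1 hτ).1, e τ hτ⟩)) (h.lt α hr0 hr σ.1)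
    have h4 := pars (G := pw ν E) S' (fun τ => (pcA_psi τ).comp (pw ν E).subtype.toAddMonoidHom) g hg
      (fun τ τ' => rm τ αᵀ = rm τ' αᵀ) fun τ _ τ' _ e => pcA_inj fun σ => by
        rw [← pcA_rm, ← pcA_rm]
        exact DFunLike.congr_fun e ⟨_, hm σ⟩
    have h5 : (#{q ∈ S' ×ˢ S' | rm q.1 αᵀ = rm q.2 αᵀ} : ℝ) ≤ #S' * (ξ * dd p ν ^ k) := by
      rw [card_filter, sum_product_right]
      push_cast
      refine (sum_le_card_nsmul _ _ (ξ * dd p ν ^ k) fun τ _ => ?_).trans_eq (nsmul_eq_mul _ _)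
      have := h'.lt αᵀ (by rwa [rank_transpose]) (by rwa [rank_transpose]) (rm τ αᵀ)
      rw [rank_transpose, hk', card_filter] at this
      exact_mod_cast this
    have h6 : (Fintype.card (pw ν E) : ℝ) = dd p ν ^ (2 * α.rank) := by
      rw [← hcard, card_pw, card_eq_pow (p := p), hE]
    rw [h6] at h4
    have h7 := h.card
    have h8 := h'.card
    calc _ ≤ _ := h2
      _ ≤ C * dd p ν ^ ρ * (ξ * dd p ν ^ k *
            (dd p ν ^ (2 * α.rank) * (C * dd p ν ^ ρ * (ξ * dd p ν ^ k)))) := by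
          gcongr
          refine h3.trans ?_
          gcongr
          exact h4.trans (by gcongr; exact h5.trans (by gcongr))
      _ = _ := by
          generalize α.rank = r at hk
          subst hk
          ring

theorem Thin.yf (h : Thin C ξ S) (hξ : 0 ≤ ξ) : Yf ξ S := by
  classical
  intro c hc v
  have hd := dd_pos (p := p) (ν := ν)
  obtain ⟨a, ha⟩ := Function.ne_iff.1 hc
  have ha : c a ≠ 0 := ha
  by_cases hρ : ρ = 1
  · subst hρ
    refine moD_coset h hξ (filter_subset _ _) fun τ h1 τ' h2 => ?_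
    funext i b
    have e := congrFun ((mem_filter.1 h1).2.trans (mem_filter.1 h2).2.symm) i
    simp only [mulVec, dotProduct, yM, of_apply] at e
    rw [Fintype.sum_subsingleton _ a, Fintype.sum_subsingleton _ a] at e
    rw [Subsingleton.elim b a]
    exact mul_right_cancel₀ ha e
  have hρ0 : 0 < ρ := a.pos
  have hg0 : vecMulVec c (Pi.single a (1 : ZMod p)) ≠ 0 := fun e => ha (by
    simpa [vecMulVec_apply] using congrFun (congrFun e a) a)
  have hr : (vecMulVec c (Pi.single a (1 : ZMod p))).rank = 1 := by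
    refine le_antisymm (rank_vecMulVec_le _ _) (Nat.pos_of_ne_zero fun e => hg0 ?_)
    have h2 := Submodule.finrank_eq_zero.1 e
    rw [LinearMap.range_eq_bot] at h2
    exact Matrix.ext_of_mulVec_single fun i =>
      (show vecMulVec c (Pi.single a 1) *ᵥ Pi.single i 1 = 0 from DFunLike.congr_fun h2 (Pi.single i 1)).trans
        (zero_mulVec _).symm
  have h1 := h.lt (vecMulVec c (Pi.single a 1)) (by omega) (by omega)
  rw [hr] at h1
  rw [card_eq_sum_card_fiberwise (f := fun τ => zM τ *ᵥ c) (t := univ)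
    fun _ _ => mem_coe.2 (mem_univ _)]
  push_cast
  refine (sum_le_card_nsmul _ _ (ξ * dd p ν ^ (ρ - 1)) fun w _ => ?_).trans_eq ?_
  · refine le_trans (Nat.cast_le.2 (card_le_card fun τ hτ => ?_))
      (h1 (fun i => v i • Pi.single a 1, fun i => w i • Pi.single a 1))
    obtain ⟨h2, h3⟩ := mem_filter.1 hτ
    obtain ⟨h4, h5⟩ := mem_filter.1 h2
    refine mem_filter.2 ⟨h4, Prod.ext (funext fun i => ?_) (funext fun i => ?_)⟩
    · rw [← h5]
      exact vecMul_vecMulVec (τ.1 i) c _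
    · rw [← h3]
      exact vecMul_vecMulVec (τ.2 i) c _
  · obtain ⟨k, rfl⟩ : ∃ k, ρ = k + 1 := ⟨ρ - 1, by omega⟩
    rw [card_univ, nsmul_eq_mul, Fintype.card_fun, ZMod.card, Nat.add_sub_cancel, pow_succ]
    push_cast
    rw [← dd]
    ring

theorem Thin.cnt3 (h : Thin C ξ S) (h' : Thin C ξ S') (h'' : (#S'' : ℝ) ≤ C * dd p ν ^ ρ)
    (hC : 1 ≤ C) (hξ : 0 ≤ ξ) (hξ1 : ξ ≤ 1) {g g' : Mx p (Fin ρ) (Fin ρ)} (hg : Inj g)
    (hg' : Inj g') (c : TT p ρ ν) :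
    (#{q ∈ S ×ˢ S' | rm q.1 g + rm q.2 g' + c ∈ S''} : ℝ) ≤ C * ξ * dd p ν ^ (2 * ρ) := by
  have h1 : 2 * (#{q ∈ S ×ˢ S' | rm q.1 g + rm q.2 g' + c ∈ S''} : ℝ) ^ 2 ≤
      #S'' * ((Finset.addEnergy S S : ℝ) + Finset.addEnergy S' S') := by
    exact_mod_cast moD_cnt S S' S'' _ _ (pocB_rm_inj hg) (pocB_rm_inj hg') c
  have hd := dd_pos (p := p) (ν := ν)
  have h2 : ξ ^ 4 ≤ ξ ^ 2 := pow_le_pow_of_le_one hξ hξ1 (by norm_num)
  have h3 : C ≤ C ^ 2 := by nlinarith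
  have hC0 : 0 ≤ C := by linarith
  have h4 := h.en
  have h5 := h'.en
  refine le_of_sq_le_sq (le_of_mul_le_mul_left (h1.trans ?_) two_pos) (by positivity)
  calc _ ≤ C ^ 2 * dd p ν ^ ρ * (ξ ^ 2 * dd p ν ^ (3 * ρ) + ξ ^ 2 * dd p ν ^ (3 * ρ)) :=
        mul_le_mul (h''.trans (by gcongr))
          (add_le_add (h4.trans (by gcongr)) (h5.trans (by gcongr))) (by positivity)
          (by positivity)
    _ = _ := by ring

open Classical in
/-- few members on a line of second components -/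
theorem Thin.lb (h : Thin C ξ S) (hξ : 0 ≤ ξ) {e : Fin ρ → ZMod p} (he : e ≠ 0)
    (y z : Mx p ν (Fin ρ)) :
    (#{τ ∈ S | yM τ = y ∧ ∃ v, zM τ = z + vecMulVec v e} : ℝ) ≤ ξ * dd p ν := by
  by_cases hρ : ρ = 1
  · subst hρ
    have := moD_coset h hξ (T := {τ ∈ S | yM τ = y ∧ ∃ v, zM τ = z + vecMulVec v e})
      (filter_subset _ _) fun τ h1 τ' h2 =>
        Matrix.of.injective ((mem_filter.1 h1).2.1.trans (mem_filter.1 h2).2.1.symm)
    rwa [pow_one] at this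
  obtain ⟨a, ha⟩ := Function.ne_iff.1 he
  have ha : e a ≠ 0 := ha
  have hρ0 : 0 < ρ := a.pos
  let φ : Module.Dual (ZMod p) (Fin ρ → ZMod p) := (dotProductBilin (ZMod p) (ZMod p)) e
  have hφ : φ ≠ 0 := fun h0 => ha (by
    simpa [φ] using DFunLike.congr_fun h0 (Pi.single a 1))
  obtain ⟨g, hg⟩ := exists_range (LinearMap.ker φ)
  have hr : g.rank + 1 = ρ := by
    have := Module.Dual.finrank_ker_add_one_of_ne_zero hφ
    rw [← hg, Module.finrank_fin_fun] at this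
    exact this
  have he0 : e ᵥ* g = 0 := by
    funext j
    have : g *ᵥ Pi.single j 1 ∈ LinearMap.ker φ := hg ▸ ⟨Pi.single j 1, rfl⟩
    have h2 : e ⬝ᵥ g *ᵥ Pi.single j 1 = 0 := this
    rw [dotProduct_mulVec] at h2
    simpa using h2
  have h1 := h.lt g (by omega) (by omega) (fun i => y i ᵥ* g, fun i => z i ᵥ* g)
  rw [show ρ - g.rank = 1 by omega, pow_one] at h1
  refine le_trans (Nat.cast_le.2 (card_le_card fun τ hτ => ?_)) h1
  obtain ⟨h2, h3, v, h4⟩ := mem_filter.1 hτ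
  refine mem_filter.2 ⟨h2, Prod.ext (funext fun i => ?_) (funext fun i => ?_)⟩
  · exact congrArg (· ᵥ* g) (congrFun h3 i)
  · have h5 : τ.2 i = z i + v i • e := congrFun h4 i
    show τ.2 i ᵥ* g = z i ᵥ* g
    rw [h5, add_vecMul, smul_vecMul, he0, smul_zero, add_zero]

end Pool.Agent.Work.MP_4523ee_co.F2.Mo
end

-- merged part: Pool.Agent.Work.MP_4523ee_co.F2.MoE
section
/-!
Factorisation of the main term.
-/

set_option autoImplicit false
set_option linter.unusedSectionVars false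

namespace Pool.Agent.Work.MP_4523ee_co.F2.Mo

open Finset Matrix Pool.Agent.Work.MP_4523ee_co.Fp Pool.Agent.Work.MP_4523ee_co.Fp.Po
open scoped BigOperators ComplexConjugate

section count
variable {A ι : Type} [Fintype ι] [DecidableEq ι]

lemma moE_update (S : ι → Finset A) (F : (ι → A) → ℝ) (i : ι) :
    ∑ t ∈ Fintype.piFinset S, ∑ a ∈ S i, F (Function.update t i a) =
      #(S i) * ∑ t ∈ Fintype.piFinset S, F t := by
  have hm : ∀ q ∈ Fintype.piFinset S ×ˢ S i,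
      (Function.update q.1 i q.2, q.1 i) ∈ Fintype.piFinset S ×ˢ S i := by
    intro q hq
    obtain ⟨h1, h2⟩ := mem_product.1 hq
    refine mem_product.2 ⟨Fintype.mem_piFinset.2 fun k => ?_, Fintype.mem_piFinset.1 h1 i⟩
    by_cases hk : k = i
    · subst hk
      simpa using h2
    · simpa [Function.update_of_ne hk] using Fintype.mem_piFinset.1 h1 k
  have e : ∑ q ∈ Fintype.piFinset S ×ˢ S i, F (Function.update q.1 i q.2) =
      ∑ q ∈ Fintype.piFinset S ×ˢ S i, F q.1 :=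
    sum_nbij' (fun q => (Function.update q.1 i q.2, q.1 i))
      (fun q => (Function.update q.1 i q.2, q.1 i)) hm hm (fun q _ => by simp) (fun q _ => by simp)
      fun q _ => rfl
  rw [sum_product, sum_product] at e
  rw [e, mul_sum]
  simp

lemma moE_key [LinearOrder ι] (S : ι → Finset A) (K : A → A → ℝ) (Q B : ℝ) (hQ : 1 ≤ Q)
    (hK : ∀ a b, |K a b| ≤ Q) {i j : ι} (hij : i < j)
    (hcut : ∀ f g : A → ℝ, (∀ a, |f a| ≤ 1) → (∀ a, |g a| ≤ 1) →
      |∑ a ∈ S i, ∑ b ∈ S j, f a * g b * (K a b - 1)| ≤ B)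
    (E : Finset (ι × ι)) (hE : ∀ e ∈ E, e.1 < e.2) (he : (i, j) ∉ E) (t : ι → A) :
    |∑ a ∈ S i, ∑ b ∈ S j, (K a b - 1) * ∏ e ∈ E,
      K (Function.update (Function.update t i a) j b e.1)
        (Function.update (Function.update t i a) j b e.2)| ≤ Q ^ (2 * #E) * B := by
  classical
  have hQ0 : 0 < Q := by linarith
  have hP : ∀ (E' : Finset (ι × ι)), E' ⊆ E → ∀ t : ι → A,
      |(∏ e ∈ E', K (t e.1) (t e.2)) / Q ^ #E| ≤ 1 := by
    intro E' hE' t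
    rw [abs_div, abs_of_pos (pow_pos hQ0 _), div_le_one (pow_pos hQ0 _), abs_prod]
    refine (prod_le_prod (g := fun _ => Q) (fun e _ => abs_nonneg _) fun e _ => hK _ _).trans ?_
    rw [prod_const]
    exact pow_le_pow_right₀ hQ (card_le_card hE')
  have h := hcut
    (fun a => (∏ e ∈ E.filter (fun e => e.1 ≠ j ∧ e.2 ≠ j),
      K (Function.update t i a e.1) (Function.update t i a e.2)) / Q ^ #E)
    (fun b => (∏ e ∈ E.filter (fun e => ¬ (e.1 ≠ j ∧ e.2 ≠ j)),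
      K (Function.update t j b e.1) (Function.update t j b e.2)) / Q ^ #E)
    (fun a => hP _ (filter_subset _ _) _) (fun b => hP _ (filter_subset _ _) _)
  have e3 : ∑ a ∈ S i, ∑ b ∈ S j, (K a b - 1) * ∏ e ∈ E,
      K (Function.update (Function.update t i a) j b e.1)
        (Function.update (Function.update t i a) j b e.2) = Q ^ (2 * #E) *
      ∑ a ∈ S i, ∑ b ∈ S j, (∏ e ∈ E.filter (fun e => e.1 ≠ j ∧ e.2 ≠ j),
        K (Function.update t i a e.1) (Function.update t i a e.2)) / Q ^ #E *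
      ((∏ e ∈ E.filter (fun e => ¬ (e.1 ≠ j ∧ e.2 ≠ j)),
        K (Function.update t j b e.1) (Function.update t j b e.2)) / Q ^ #E) *
        (K a b - 1) := by
    rw [mul_sum]
    refine sum_congr rfl fun a _ => ?_
    rw [mul_sum]
    refine sum_congr rfl fun b _ => ?_
    have g1 : ∏ e ∈ E.filter (fun e => e.1 ≠ j ∧ e.2 ≠ j),
        K (Function.update (Function.update t i a) j b e.1)
          (Function.update (Function.update t i a) j b e.2) =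
        ∏ e ∈ E.filter (fun e => e.1 ≠ j ∧ e.2 ≠ j),
        K (Function.update t i a e.1) (Function.update t i a e.2) := by
      refine prod_congr rfl fun e he' => ?_
      obtain ⟨-, h1, h2⟩ := mem_filter.1 he'
      rw [Function.update_of_ne h1, Function.update_of_ne h2]
    have g2 : ∏ e ∈ E.filter (fun e => ¬ (e.1 ≠ j ∧ e.2 ≠ j)),
        K (Function.update (Function.update t i a) j b e.1)
          (Function.update (Function.update t i a) j b e.2) =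
        ∏ e ∈ E.filter (fun e => ¬ (e.1 ≠ j ∧ e.2 ≠ j)),
        K (Function.update t j b e.1) (Function.update t j b e.2) := by
      refine prod_congr rfl fun e he' => ?_
      obtain ⟨h0, h1⟩ := mem_filter.1 he'
      have hlt := hE e h0
      have hne : e ≠ (i, j) := fun h => he (h ▸ h0)
      have n1 : e.1 ≠ i := by
        intro h
        by_cases h2 : e.2 = j
        · exact hne (Prod.ext h h2)
        · exact h1 ⟨by rw [h]; exact hij.ne, h2⟩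
      have n2 : e.2 ≠ i := by
        intro h
        refine h1 ⟨?_, by rw [h]; exact hij.ne⟩
        intro h2
        rw [h, h2] at hlt
        exact lt_asymm hij hlt
      have u : ∀ k, k ≠ i → Function.update (Function.update t i a) j b k =
          Function.update t j b k := by
        intro k hk
        by_cases hkj : k = j
        · subst hkj; simp
        · rw [Function.update_of_ne hkj, Function.update_of_ne hkj, Function.update_of_ne hk]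
      rw [u _ n1, u _ n2]
    rw [← prod_filter_mul_prod_filter_not E (fun e => e.1 ≠ j ∧ e.2 ≠ j), g1, g2, two_mul,
      pow_add]
    field_simp
  rw [e3, abs_mul, abs_of_pos (pow_pos hQ0 _)]
  exact mul_le_mul_of_nonneg_left h (pow_pos hQ0 _).le

theorem moE_edges [LinearOrder ι] (S : ι → Finset A) (K : A → A → ℝ) (Q B N : ℝ) (hQ : 1 ≤ Q)
    (hB : 0 ≤ B) (hN : ∀ k, (#(S k) : ℝ) ≤ N) (hN0 : 0 ≤ N) (hK : ∀ a b, |K a b| ≤ Q)
    (hcut : ∀ i j, i ≠ j → ∀ f g : A → ℝ, (∀ a, |f a| ≤ 1) → (∀ a, |g a| ≤ 1) →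
      |∑ a ∈ S i, ∑ b ∈ S j, f a * g b * (K a b - 1)| ≤ B * N ^ 2)
    (E : Finset (ι × ι)) (hE : ∀ e ∈ E, e.1 < e.2) :
    |∑ t ∈ Fintype.piFinset S, ∏ e ∈ E, K (t e.1) (t e.2) - ∏ k, (#(S k) : ℝ)| ≤
      #E * Q ^ (2 * #E) * B * N ^ Fintype.card ι := by
  classical
  induction E using Finset.induction_on with
  | empty => simp
  | insert e E he ih =>
    have ih' := ih fun e' h => hE e' (mem_insert_of_mem h)
    obtain ⟨i, j⟩ := e
    have hij : i < j := hE _ (mem_insert_self _ _)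
    have hQ0 : 0 < Q := by linarith
    have key : |∑ t ∈ Fintype.piFinset S, (K (t i) (t j) - 1) * ∏ e ∈ E, K (t e.1) (t e.2)| ≤
        Q ^ (2 * #E) * B * N ^ Fintype.card ι := by
      set F : (ι → A) → ℝ := fun t => (K (t i) (t j) - 1) * ∏ e ∈ E, K (t e.1) (t e.2) with hF
      rcases (Fintype.piFinset S).eq_empty_or_nonempty with h0 | ⟨t0, h0⟩
      · rw [h0, sum_empty, abs_zero]
        positivity
      have pi : (0 : ℝ) < #(S i) := by
        exact_mod_cast card_pos.2 ⟨_, Fintype.mem_piFinset.1 h0 i⟩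
      have pj : (0 : ℝ) < #(S j) := by
        exact_mod_cast card_pos.2 ⟨_, Fintype.mem_piFinset.1 h0 j⟩
      have e1 : (#(S i) : ℝ) * #(S j) * ∑ t ∈ Fintype.piFinset S, F t =
          ∑ t ∈ Fintype.piFinset S, ∑ a ∈ S i, ∑ b ∈ S j,
            F (Function.update (Function.update t i a) j b) := by
        rw [moE_update S (fun t => ∑ b ∈ S j, F (Function.update t j b)) i, moE_update S F j]
        ring
      have e2 : ∀ t : ι → A, |∑ a ∈ S i, ∑ b ∈ S j,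
          F (Function.update (Function.update t i a) j b)| ≤ Q ^ (2 * #E) * (B * N ^ 2) := by
        intro t
        have h := moE_key S K Q (B * N ^ 2) hQ hK hij (hcut i j hij.ne) E
          (fun e' h => hE e' (mem_insert_of_mem h)) he t
        simpa only [hF, Function.update_self, Function.update_of_ne hij.ne] using h
      have e3 : (#(Fintype.piFinset S) : ℝ) * N ^ 2 ≤
          (#(S i) : ℝ) * #(S j) * N ^ Fintype.card ι := by
        have hj : j ∈ univ.erase i := mem_erase.2 ⟨hij.ne', mem_univ _⟩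
        rw [Fintype.card_piFinset, Nat.cast_prod, ← mul_prod_erase univ _ (mem_univ i),
          ← mul_prod_erase _ _ hj]
        have c : Fintype.card ι = #((univ.erase i).erase j) + 2 := by
          have c1 := card_erase_add_one hj
          have c2 := card_erase_add_one (mem_univ i)
          rw [card_univ] at c2
          omega
        have b : ∏ k ∈ (univ.erase i).erase j, (#(S k) : ℝ) ≤ N ^ #((univ.erase i).erase j) := by
          rw [← prod_const]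
          exact prod_le_prod (fun _ _ => Nat.cast_nonneg _) fun k _ => hN k
        rw [c, pow_add]
        calc _ = (#(S i) : ℝ) * #(S j) * ((∏ k ∈ (univ.erase i).erase j, (#(S k) : ℝ)) * N ^ 2) := by
              ring
          _ ≤ _ := by gcongr
      refine le_of_mul_le_mul_left ?_ (mul_pos pi pj)
      rw [← abs_of_pos (mul_pos pi pj), ← abs_mul, e1, abs_of_pos (mul_pos pi pj)]
      refine (abs_sum_le_sum_abs _ _).trans ((sum_le_card_nsmul _ _ _ fun t _ => e2 t).trans ?_)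
      rw [nsmul_eq_mul]
      calc _ = Q ^ (2 * #E) * B * ((#(Fintype.piFinset S) : ℝ) * N ^ 2) := by ring
        _ ≤ Q ^ (2 * #E) * B * ((#(S i) : ℝ) * #(S j) * N ^ Fintype.card ι) := by gcongr
        _ = _ := by ring
    have e4 : ∑ t ∈ Fintype.piFinset S, ∏ e ∈ insert (i, j) E, K (t e.1) (t e.2) -
        ∏ k, (#(S k) : ℝ) =
        ∑ t ∈ Fintype.piFinset S, (K (t i) (t j) - 1) * ∏ e ∈ E, K (t e.1) (t e.2) +
          (∑ t ∈ Fintype.piFinset S, ∏ e ∈ E, K (t e.1) (t e.2) - ∏ k, (#(S k) : ℝ)) := by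
      simp only [prod_insert he, sub_mul, one_mul, sum_sub_distrib]
      ring
    rw [e4, card_insert_of_notMem he]
    refine (abs_add_le _ _).trans ((add_le_add key ih').trans ?_)
    have q : Q ^ (2 * #E) ≤ Q ^ (2 * (#E + 1)) := pow_le_pow_right₀ hQ (by omega)
    calc _ = ((#E : ℝ) + 1) * Q ^ (2 * #E) * B * N ^ Fintype.card ι := by ring
      _ ≤ ((#E : ℝ) + 1) * Q ^ (2 * (#E + 1)) * B * N ^ Fintype.card ι := by gcongr
      _ = _ := by push_cast; ring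

end count

section ker
variable {ν : Type} [Fintype ν] [DecidableEq ν] {ρ : ℕ}

/-- the compatibility kernel -/
noncomputable def moEK (τ τ' : TT 2 ρ ν) : ℝ := if om τ τ' = 0 then 2 ^ (ρ ^ 2) else 0

lemma moEK_sub (τ τ' : TT 2 ρ ν) : ((moEK τ τ' - 1 : ℝ) : ℂ) =
    ∑ α ∈ univ.erase (0 : Mx 2 (Fin ρ) (Fin ρ)), ee (∑ s, ∑ t, α s t * om τ τ' s t) := by
  have h := pocB_orth (om τ τ')
  rw [← add_sum_erase _ _ (mem_univ 0)] at h
  simp only [Matrix.zero_apply, zero_mul, sum_const_zero, ee_zero] at h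
  rw [eq_sub_of_add_eq' h, moEK]
  split_ifs <;> simp

lemma moE_cut {ξ : ℝ} (hξ : 0 ≤ ξ) {S S' : Finset (TT 2 ρ ν)} (h : BL ξ S S')
    (P : TT 2 ρ ν → Prop) [DecidablePred P] (f g : TT 2 ρ ν → ℝ) (hf : ∀ a, |f a| ≤ 1)
    (hg : ∀ a, |g a| ≤ 1) :
    |∑ a ∈ S.filter P, ∑ b ∈ S'.filter P, f a * g b * (moEK a b - 1)| ≤
      2 ^ (ρ ^ 2) * ξ * dd 2 ν ^ (2 * ρ) := by
  have k : ∀ f : TT 2 ρ ν → ℝ, (∀ τ, |f τ| ≤ 1) → ∀ τ : TT 2 ρ ν,
      ‖if P τ then (f τ : ℂ) else 0‖ ≤ 1 := fun f hf τ => by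
    split_ifs
    · exact (Complex.norm_real _).trans_le (hf _)
    · simp
  have e : ((∑ a ∈ S.filter P, ∑ b ∈ S'.filter P, f a * g b * (moEK a b - 1) : ℝ) : ℂ) =
      ∑ α ∈ univ.erase (0 : Mx 2 (Fin ρ) (Fin ρ)), ∑ a ∈ S, ∑ b ∈ S',
        (if P a then (f a : ℂ) else 0) * (if P b then (g b : ℂ) else 0) *
          ee (∑ s, ∑ t, α s t * om a b s t) := by
    simp only [Complex.ofReal_sum, sum_filter]
    rw [sum_comm (s := univ.erase 0)]
    refine sum_congr rfl fun a _ => ?_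
    rw [sum_comm (s := univ.erase 0)]
    by_cases ha : P a
    · simp only [if_pos ha, Complex.ofReal_sum]
      refine sum_congr rfl fun b _ => ?_
      by_cases hb : P b
      · simp only [if_pos hb, Complex.ofReal_mul, moEK_sub, mul_sum]
      · simp [hb]
    · simp [ha]
  have c2 : (#(univ.erase (0 : Mx 2 (Fin ρ) (Fin ρ))) : ℝ) ≤ (2 : ℝ) ^ (ρ ^ 2) := by
    have := card_le_univ (univ.erase (0 : Mx 2 (Fin ρ) (Fin ρ)))
    rw [show Fintype.card (Mx 2 (Fin ρ) (Fin ρ)) = Fintype.card (Fin ρ → Fin ρ → ZMod 2) from rfl,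
      Fintype.card_fun, Fintype.card_fun, ZMod.card, Fintype.card_fin, ← pow_mul, ← sq] at this
    exact_mod_cast this
  have hd := (dd_pos (p := 2) (ν := ν)).le
  rw [← Real.norm_eq_abs, ← Complex.norm_real, e]
  calc _ ≤ ∑ _α ∈ univ.erase (0 : Mx 2 (Fin ρ) (Fin ρ)), ξ * dd 2 ν ^ (2 * ρ) :=
        norm_sum_le_of_le _ fun α hα => h α (ne_of_mem_erase hα) _ _ (k f hf) (k g hg)
    _ = #(univ.erase (0 : Mx 2 (Fin ρ) (Fin ρ))) * ξ * dd 2 ν ^ (2 * ρ) := by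
        simp only [sum_const, nsmul_eq_mul]
        ring
    _ ≤ _ := by gcongr

lemma moE_expo (j ρ : ℕ) : (j * ρ + 1).choose 2 = (ρ + 1).choose 2 * j + ρ ^ 2 * j.choose 2 := by
  have h : (((j * ρ + 1).choose 2 : ℕ) : ℚ) =
      (((ρ + 1).choose 2 * j + ρ ^ 2 * j.choose 2 : ℕ) : ℚ) := by
    push_cast [Nat.cast_choose_two]
    ring
  exact_mod_cast h

lemma moE_P0 {ι : Type} [Fintype ι] [DecidableEq ι] [LinearOrder ι] (M0 : SymM 2 ν)
    (t : ι → TT 2 ρ ν) (ht : ∀ k, live M0 (t k)) :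
    P0 M0 t = pp ρ ν ^ Fintype.card ι *
      ∏ e ∈ (univ ×ˢ univ : Finset (ι × ι)).filter (fun e => e.1 < e.2),
        moEK (t e.1) (t e.2) := by
  classical
  by_cases h : ∀ k k', om (t k) (t k') = 0
  · have hk : ∀ e : ι × ι, moEK (t e.1) (t e.2) = (2 : ℝ) ^ (ρ ^ 2) := fun e => if_pos (h _ _)
    rw [P0, if_pos ⟨ht, h⟩, prod_congr rfl fun e _ => hk e, prod_const, Finset.card_product_filter_lt, card_univ, pp, pp,
      moE_expo, div_pow, ← pow_mul, ← pow_mul, ← pow_mul, pow_add, mul_comm ρ]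
    ring
  · rw [P0, if_neg fun k => h k.2]
    have : ∃ e ∈ (univ ×ˢ univ : Finset (ι × ι)).filter (fun e => e.1 < e.2),
        om (t e.1) (t e.2) ≠ 0 := by
      by_contra hc
      push Not at hc
      refine h fun k k' => ?_
      rcases lt_trichotomy k k' with hl | rfl | hl
      · exact hc (k, k') (by simpa using hl)
      · exact (ht k).1
      · rw [om_swap, hc (k', k) (by simpa using hl)]
        simp
    obtain ⟨e, he, h0⟩ := this
    rw [prod_eq_zero he (show moEK (t e.1) (t e.2) = 0 from if_neg h0), mul_zero]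

end ker

open Classical in
theorem FAC (ρ m : ℕ) (C0 : ℝ) (hC : 1 ≤ C0) : ∃ C : ℝ, 0 ≤ C ∧
    ∀ (ν ι : Type) [Fintype ν] [DecidableEq ν] [Fintype ι] [DecidableEq ι], Fintype.card ι ≤ m →
    ∀ ξ : ℝ, 0 ≤ ξ → ∀ S : ι → Finset (TT 2 ρ ν), (∀ k, (#(S k) : ℝ) ≤ C0 * dd 2 ν ^ ρ) →
    (∀ j k, j ≠ k → BL ξ (S j) (S k)) → ∀ M0 : SymM 2 ν,
    |∑ t ∈ Fintype.piFinset S, P0 M0 t - ∏ k, (pp ρ ν * #{τ ∈ S k | live M0 τ})| ≤ C * ξ := by
  refine ⟨(m : ℝ) ^ 2 * (2 ^ (ρ ^ 2)) ^ (2 * m ^ 2) * 2 ^ (ρ ^ 2) *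
    (C0 * 2 ^ (ρ + 1).choose 2) ^ m, by positivity, ?_⟩
  intro ν ι _ _ _ _ hm ξ hξ S hS hBL M0
  let _ : LinearOrder ι := LinearOrder.lift' (Fintype.equivFin ι) (Fintype.equivFin ι).injective
  set L : ι → Finset (TT 2 ρ ν) := fun k => (S k).filter (live M0) with hL
  set E := (univ ×ˢ univ : Finset (ι × ι)).filter (fun e => e.1 < e.2) with hE
  have hd := dd_pos (p := 2) (ν := ν)
  have hQ : (1 : ℝ) ≤ 2 ^ (ρ ^ 2) := one_le_pow₀ one_le_two
  have hp : 0 ≤ pp ρ ν := by unfold pp; positivity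
  have e1 : ∑ t ∈ Fintype.piFinset S, P0 M0 t = pp ρ ν ^ Fintype.card ι *
      ∑ t ∈ Fintype.piFinset L, ∏ e ∈ E, moEK (t e.1) (t e.2) := by
    rw [mul_sum, ← sum_subset (s₁ := Fintype.piFinset L)
      (Fintype.piFinset_subset _ _ fun k => filter_subset _ _)]
    · refine sum_congr rfl fun t ht => ?_
      exact moE_P0 M0 t fun k => (mem_filter.1 (Fintype.mem_piFinset.1 ht k)).2
    · intro t h1 h2
      rw [P0, if_neg]
      exact fun h => h2 (Fintype.mem_piFinset.2 fun k =>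
        mem_filter.2 ⟨Fintype.mem_piFinset.1 h1 k, h.1 k⟩)
  have h := moE_edges L moEK (2 ^ (ρ ^ 2)) (2 ^ (ρ ^ 2) * ξ) (C0 * dd 2 ν ^ ρ) hQ (by positivity)
    (fun k => le_trans (Nat.cast_le.2 (card_filter_le _ _)) (hS k)) (by positivity)
    (fun a b => by
      unfold moEK
      split_ifs
      · exact (abs_of_nonneg (by positivity)).le
      · simp)
    (fun i j hij f g hf hg => (moE_cut hξ (hBL i j hij) (live M0) f g hf hg).trans (by
      rw [mul_pow, ← pow_mul, mul_comm ρ 2]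
      exact mul_le_mul_of_nonneg_left (le_mul_of_one_le_left (by positivity) (one_le_pow₀ hC))
        (by positivity)))
    E fun e he => (mem_filter.1 he).2
  have cE : #E ≤ m ^ 2 := by
    refine (card_filter_le _ _).trans ?_
    rw [card_product, card_univ, sq]
    exact Nat.mul_le_mul hm hm
  have cE' : (#E : ℝ) ≤ (m : ℝ) ^ 2 := by exact_mod_cast cE
  have e2 : pp ρ ν * (C0 * dd 2 ν ^ ρ) = C0 * 2 ^ (ρ + 1).choose 2 := by
    unfold pp
    field_simp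
  have h1 : (1 : ℝ) ≤ C0 * 2 ^ (ρ + 1).choose 2 :=
    one_le_mul_of_one_le_of_one_le hC (one_le_pow₀ one_le_two)
  rw [e1, prod_mul_distrib, prod_const, card_univ, ← mul_sub, abs_mul,
    abs_of_nonneg (pow_nonneg hp _)]
  refine (mul_le_mul_of_nonneg_left h (pow_nonneg hp _)).trans ?_
  calc _ = #E * (2 ^ (ρ ^ 2)) ^ (2 * #E) * 2 ^ (ρ ^ 2) *
        (pp ρ ν * (C0 * dd 2 ν ^ ρ)) ^ Fintype.card ι * ξ := by rw [mul_pow (pp ρ ν)]; ring
    _ ≤ _ := by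
        rw [e2]
        gcongr

end Pool.Agent.Work.MP_4523ee_co.F2.Mo
end

-- merged part: Pool.Agent.Work.MP_4523ee_co.F2.MoA
section
/-!
Moment lemma: sums of inverse powers of the rank.
-/

set_option autoImplicit false
set_option linter.unusedSectionVars false

namespace Pool.Agent.Work.MP_4523ee_co.F2.Mo

open Finset Matrix Pool.Agent.Work.MP_4523ee_co.Fp Pool.Agent.Work.MP_4523ee_co.Fp.Po
open scoped BigOperators ComplexConjugate

variable {p : ℕ} [Fact p.Prime] {ν : Type} [Fintype ν] [DecidableEq ν] {ρ : ℕ}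
variable {ι : Type} [Fintype ι] [DecidableEq ι] {S : ι → Finset (TT p ρ ν)} {C0 ξ : ℝ}

lemma pad_univ (S : ι → Finset (TT p ρ ν)) : pad S univ = S := by
  funext k
  simp [pad]

lemma sum_pad_insert {i : ι} {I : Finset ι} (hi : i ∉ I) (F : (ι → TT p ρ ν) → ℝ) :
    ∑ t ∈ Fintype.piFinset (pad S (insert i I)), F t =
      ∑ w ∈ Fintype.piFinset (pad S I), ∑ a ∈ S i, F (Function.update w i a) := by
  have e0 : pad S I i = {0} := if_neg hi
  have e1 : pad S (insert i I) i = S i := if_pos (mem_insert_self i I)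
  have e2 : ∀ k, k ≠ i → pad S (insert i I) k = pad S I k := fun k hk => by simp [pad, hk]
  rw [← sum_product']
  refine sum_nbij' (fun t => (Function.update t i 0, t i)) (fun q => Function.update q.1 i q.2)
    (fun t ht => ?_) (fun q hq => ?_) (fun t _ => by simp) (fun q hq => ?_) fun t _ => by simp
  · have h := Fintype.mem_piFinset.1 ht
    refine mem_product.2 ⟨Fintype.mem_piFinset.2 fun k => ?_, e1 ▸ h i⟩
    by_cases hk : k = i
    · subst hk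
      simp [e0]
    · simpa [Function.update_of_ne hk, e2 k hk] using h k
  · obtain ⟨h1, h2⟩ := mem_product.1 hq
    refine Fintype.mem_piFinset.2 fun k => ?_
    by_cases hk : k = i
    · subst hk
      simpa [e1] using h2
    · simpa [Function.update_of_ne hk, e2 k hk] using Fintype.mem_piFinset.1 h1 k
  · have h := Fintype.mem_piFinset.1 (mem_product.1 hq).1 i
    rw [e0, mem_singleton] at h
    simp [← h]

lemma card_pad {N : ℝ} (h : ∀ k, (#(S k) : ℝ) ≤ N) (I : Finset ι) :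
    (#(Fintype.piFinset (pad S I)) : ℝ) ≤ N ^ #I := by
  rw [Fintype.card_piFinset, Nat.cast_prod]
  refine (prod_le_prod (g := fun k => if k ∈ I then N else 1) (fun _ _ => Nat.cast_nonneg _)
    fun k _ => ?_).trans (by simp)
  by_cases hk : k ∈ I
  · simpa [pad, hk] using h k
  · simp [pad, hk]

lemma rk_le (t : ι → TT p ρ ν) : rk t ≤ Fintype.card ι * ρ := by
  have h : ⨆ k, spn (t k) ≤ Submodule.span (ZMod p) (Set.range fun q : ι × Fin ρ =>
      ((fun i => (t q.1).1 i q.2, fun i => (t q.1).2 i q.2) : (ν → ZMod p) × (ν → ZMod p))) := by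
    refine iSup_le fun k => Submodule.span_mono ?_
    rintro _ ⟨a, rfl⟩
    exact ⟨(k, a), rfl⟩
  refine (Submodule.finrank_mono h).trans ((finrank_range_le_card _).trans ?_)
  rw [Fintype.card_prod, Fintype.card_fin]

/-- the linear combinations of the columns -/
def col (τ : TT p ρ ν) : (Fin ρ → ZMod p) →ₗ[ZMod p] (ν → ZMod p) × (ν → ZMod p) :=
  (yM τ).mulVecLin.prod (zM τ).mulVecLin

/-- rank defect of a tuple over `Z` -/
noncomputable def bz (Z : SV p ν) (a : TT p ρ ν) : ℕ := Module.finrank (ZMod p) (Z.comap (col a))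

lemma bz_le (Z : SV p ν) (a : TT p ρ ν) : bz Z a ≤ ρ := by
  exact (Submodule.finrank_le _).trans (Module.finrank_fin_fun _).le

lemma bz_full {Z : SV p ν} {a : TT p ρ ν} (h : bz Z a = ρ) : spn a ≤ Z := by
  rw [spn_eq]
  exact LinearMap.range_le_iff_comap.2
    (Submodule.eq_top_of_finrank_eq (h.trans (Module.finrank_fin_fun _).symm))

lemma rk_sup (Z : SV p ν) (a : TT p ρ ν) :
    ρ + Module.finrank (ZMod p) Z ≤ Module.finrank (ZMod p) ↥(spn a ⊔ Z) + bz Z a := by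
  have h1 := LinearMap.finrank_range_add_finrank_ker (Z.mkQ ∘ₗ col a)
  have h2 := LinearMap.finrank_range_add_finrank_ker (Z.mkQ ∘ₗ (spn a ⊔ Z).subtype)
  rw [LinearMap.ker_comp, Submodule.ker_mkQ] at h1 h2
  rw [Module.finrank_fin_fun] at h1
  rw [(Submodule.comapSubtypeEquivOfLe (le_sup_right : Z ≤ spn a ⊔ Z)).finrank_eq] at h2
  have h3 : LinearMap.range (Z.mkQ ∘ₗ col a) ≤
      LinearMap.range (Z.mkQ ∘ₗ (spn a ⊔ Z).subtype) := by
    rw [LinearMap.range_comp, LinearMap.range_comp, Submodule.range_subtype]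
    exact Submodule.map_mono ((spn_eq a).ge.trans le_sup_left)
  have h4 := Submodule.finrank_mono h3
  unfold bz
  omega

lemma FIBG (T : Finset (TT p ρ ν)) (Z : SV p ν) {r : ℕ} (hZ : Module.finrank (ZMod p) Z ≤ r)
    (P : ℕ → Prop) [DecidablePred P] {c : ℝ} (hc : 0 ≤ c)
    (h : ∀ (g : Mx p (Fin ρ) (Fin ρ)) (σ : TT p ρ ν), P g.rank →
      (#{a ∈ T | rm a g = σ} : ℝ) * dd p ν ^ g.rank ≤ c) :
    ∑ a ∈ T with P (bz Z a), dd p ν ^ bz Z a ≤ (p : ℝ) ^ (ρ ^ 2 + r * ρ) * c := by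
  choose G hG using fun a : TT p ρ ν => exists_range (Z.comap (col a))
  have hr : ∀ a, (G a).rank = bz Z a := fun a => by rw [Matrix.rank, hG, bz]
  let R : Finset (TT p ρ ν) :=
    univ.image fun f : Fin ρ → Z => (fun i s => (f s).1.1 i, fun i s => (f s).1.2 i)
  have hR : ∀ a ∈ T.filter fun a => P (bz Z a), (G a, rm a (G a)) ∈ univ ×ˢ R := by
    intro a _
    have k : ∀ s, col a (G a *ᵥ Pi.single s 1) ∈ Z := fun s => (hG a).le ⟨_, rfl⟩
    refine mem_product.2 ⟨mem_univ _, mem_image.2 ⟨fun s => ⟨_, k s⟩, mem_univ _,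
      Prod.ext (funext fun i => funext fun s => ?_) (funext fun i => funext fun s => ?_)⟩⟩
    · show (yM a *ᵥ G a *ᵥ Pi.single s 1) i = _
      rw [mulVec_mulVec, mulVec_single_one]
      rfl
    · show (zM a *ᵥ G a *ᵥ Pi.single s 1) i = _
      rw [mulVec_mulVec, mulVec_single_one]
      rfl
  have hc2 : (#((univ : Finset (Mx p (Fin ρ) (Fin ρ))) ×ˢ R) : ℝ) ≤ (p : ℝ) ^ (ρ ^ 2 + r * ρ) := by
    have k : #R ≤ p ^ (r * ρ) := by
      refine card_image_le.trans ?_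
      rw [card_univ, Fintype.card_fun, Fintype.card_fin, card_eq_pow (p := p), ← pow_mul]
      exact Nat.pow_le_pow_right (Fact.out : p.Prime).pos (Nat.mul_le_mul_right _ hZ)
    rw [card_product, card_univ, pa_card_Mx, Fintype.card_fin, pow_add, ← sq]
    exact_mod_cast Nat.mul_le_mul_left _ k
  rw [← sum_fiberwise_of_maps_to hR]
  refine (sum_le_card_nsmul _ _ c fun q _ => ?_).trans ?_
  · rcases ((T.filter fun a => P (bz Z a)).filter
      fun a => (G a, rm a (G a)) = q).eq_empty_or_nonempty with e | ⟨a0, e⟩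
    · rw [e, sum_empty]
      exact hc
    · obtain ⟨e1, e2⟩ := mem_filter.1 e
      have e3 : P q.1.rank := by
        rw [← e2, hr]
        exact (mem_filter.1 e1).2
      refine le_trans ?_ (h q.1 q.2 e3)
      rw [sum_congr rfl (g := fun _ => dd p ν ^ q.1.rank) fun a ha => by
        rw [← (mem_filter.1 ha).2, hr], sum_const, nsmul_eq_mul]
      refine mul_le_mul_of_nonneg_right (Nat.cast_le.2 (card_le_card fun a ha => ?_))
        (pow_pos dd_pos _).le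
      obtain ⟨k1, k2⟩ := mem_filter.1 ha
      exact mem_filter.2 ⟨(mem_filter.1 k1).1, by rw [← k2]⟩
  · rw [nsmul_eq_mul]
    exact mul_le_mul_of_nonneg_right hc2 hc

lemma STEP {T : Finset (TT p ρ ν)} (hC : 1 ≤ C0) (h1 : (#T : ℝ) ≤ C0 * dd p ν ^ ρ) (h2 : Lt 1 T)
    (Z : SV p ν) {r : ℕ} (hZ : Module.finrank (ZMod p) Z ≤ r) :
    ∑ a ∈ T, (dd p ν ^ Module.finrank (ZMod p) ↥(spn a ⊔ Z))⁻¹ ≤
      (p : ℝ) ^ (ρ ^ 2 + r * ρ) * C0 * (dd p ν ^ Module.finrank (ZMod p) Z)⁻¹ := by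
  have hd := dd_pos (p := p) (ν := ν)
  have h3 : dd p ν ^ ρ ≤ C0 * dd p ν ^ ρ := le_mul_of_one_le_left (by positivity) hC
  have h4 := FIBG T Z hZ (fun _ => True) (c := C0 * dd p ν ^ ρ) (by positivity) fun g σ _ => by
    rcases Nat.eq_zero_or_pos g.rank with k0 | k0
    · rw [k0, pow_zero, mul_one]
      exact (Nat.cast_le.2 (card_filter_le _ _)).trans h1
    rcases (Matrix.rank_le_width g).lt_or_eq with k1 | k1
    · refine (mul_le_mul_of_nonneg_right (h2 g k0 k1 σ) (by positivity)).trans ?_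
      rwa [one_mul, ← pow_add, Nat.sub_add_cancel k1.le]
    · have k2 := LinearMap.finrank_range_add_finrank_ker g.mulVecLin
      rw [Module.finrank_fin_fun, ← Matrix.rank, k1] at k2
      have k3 : Inj g :=
        (LinearMap.ker_eq_bot (f := g.mulVecLin)).1 (Submodule.finrank_eq_zero.1 (by omega))
      have k4 : #{a ∈ T | rm a g = σ} ≤ 1 := card_le_one.2 fun a ha b hb =>
        pocB_rm_inj k3 ((mem_filter.1 ha).2.trans (mem_filter.1 hb).2.symm)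
      rw [k1]
      exact (mul_le_of_le_one_left (by positivity) (by exact_mod_cast k4)).trans h3
  rw [filter_true] at h4
  have h5 : ∀ a ∈ T, (dd p ν ^ Module.finrank (ZMod p) ↥(spn a ⊔ Z))⁻¹ ≤
      dd p ν ^ bz Z a * (dd p ν ^ (ρ + Module.finrank (ZMod p) Z))⁻¹ := fun a _ => by
    rw [← div_eq_mul_inv, inv_eq_one_div, div_le_div_iff₀ (by positivity) (by positivity), one_mul,
      ← pow_add, add_comm (bz Z a)]
    exact pow_le_pow_right₀ one_le_dd (rk_sup Z a)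
  refine (sum_le_sum h5).trans ?_
  rw [← sum_mul]
  refine (mul_le_mul_of_nonneg_right h4 (by positivity)).trans (le_of_eq ?_)
  rw [pow_add (dd p ν)]
  field_simp

lemma moaB_spn0 : spn (0 : TT p ρ ν) = ⊥ := by
  refine Submodule.span_eq_bot.2 ?_
  rintro _ ⟨a, rfl⟩
  rfl

lemma rk_update {w : ι → TT p ρ ν} {i : ι} (h : w i = 0) (a : TT p ρ ν) :
    rk (Function.update w i a) = Module.finrank (ZMod p) ↥(spn a ⊔ ⨆ k, spn (w k)) := by
  have e : ⨆ k, spn (Function.update w i a k) = spn a ⊔ ⨆ k, spn (w k) := by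
    refine le_antisymm (iSup_le fun k => ?_) (sup_le ?_ (iSup_le fun k => ?_))
    · by_cases q : k = i
      · rw [q, Function.update_self]
        exact le_sup_left
      · rw [Function.update_of_ne q]
        exact le_sup_of_le_right (le_iSup (fun k => spn (w k)) k)
    · refine le_trans (le_of_eq ?_) (le_iSup _ i)
      rw [Function.update_self]
    · by_cases q : k = i
      · rw [q, h, moaB_spn0]
        exact bot_le
      · refine le_trans (le_of_eq ?_) (le_iSup _ k)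
        rw [Function.update_of_ne q]
  rw [rk, e]

lemma SUMOUT (hC : 1 ≤ C0) (h1 : ∀ k, (#(S k) : ℝ) ≤ C0 * dd p ν ^ ρ) (h2 : ∀ k, Lt 1 (S k))
    (I J : Finset ι) (hIJ : Disjoint I J) (φ : (ι → TT p ρ ν) → ℝ) (h0 : ∀ t, 0 ≤ φ t)
    (hφ : ∀ w i a, i ∉ I → φ (Function.update w i a) = φ w) :
    ∑ t ∈ Fintype.piFinset (pad S (I ∪ J)), φ t * (dd p ν ^ rk t)⁻¹ ≤
      ((p : ℝ) ^ (ρ ^ 2 + Fintype.card ι * ρ * ρ) * C0) ^ #J *
        ∑ w ∈ Fintype.piFinset (pad S I), φ w * (dd p ν ^ rk w)⁻¹ := by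
  induction J using Finset.induction_on with
  | empty => simp
  | insert j J hj ih =>
    have hjI : j ∉ I := fun q => disjoint_left.1 hIJ q (mem_insert_self _ _)
    have hj2 : j ∉ I ∪ J := fun q => (mem_union.1 q).elim hjI hj
    have ih2 := ih (hIJ.mono_right (subset_insert _ _))
    have hK : 0 ≤ (p : ℝ) ^ (ρ ^ 2 + Fintype.card ι * ρ * ρ) * C0 := by
      have : 0 ≤ C0 := zero_le_one.trans hC
      positivity
    rw [union_insert, sum_pad_insert hj2, card_insert_of_notMem hj, pow_succ', mul_assoc]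
    refine le_trans ?_ (mul_le_mul_of_nonneg_left ih2 hK)
    rw [Finset.mul_sum]
    refine sum_le_sum fun w hw => ?_
    have w0 : w j = 0 := by
      have k := Fintype.mem_piFinset.1 hw j
      rw [pad, if_neg hj2] at k
      exact mem_singleton.1 k
    simp only [hφ w j _ hjI, rk_update w0]
    rw [← Finset.mul_sum, mul_left_comm]
    exact mul_le_mul_of_nonneg_left (STEP hC (h1 j) (h2 j) _ (rk_le w)) (h0 w)

theorem UPP0 (hC : 1 ≤ C0) (h1 : ∀ k, (#(S k) : ℝ) ≤ C0 * dd p ν ^ ρ) (h2 : ∀ k, Lt 1 (S k)) :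
    ∑ t ∈ Fintype.piFinset S, (dd p ν ^ rk t)⁻¹ ≤
      ((p : ℝ) ^ (ρ ^ 2 + Fintype.card ι * ρ * ρ) * C0) ^ Fintype.card ι := by
  have k := SUMOUT hC h1 h2 ∅ univ (disjoint_empty_left _) (fun _ => 1) (fun _ => zero_le_one)
    fun _ _ _ _ => rfl
  have e : Fintype.piFinset (pad S ∅) = {0} := by
    ext t
    simp [pad, funext_iff]
  have e0 : rk (0 : ι → TT p ρ ν) = 0 := by
    have : ⨆ k, spn ((0 : ι → TT p ρ ν) k) = ⊥ := iSup_eq_bot.2 fun _ => moaB_spn0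
    rw [rk, this, finrank_bot]
  rw [empty_union, pad_univ, e, sum_singleton, e0, card_univ] at k
  simpa using k

lemma moaB_fin (hC : 1 ≤ C0) (hξ : 0 ≤ ξ) (h1 : ∀ k, (#(S k) : ℝ) ≤ C0 * dd p ν ^ ρ)
    (I : Finset ι) (e : ℕ) (F : (ι → TT p ρ ν) → ℝ) (hF : ∀ w, F w ≤ ξ * (dd p ν ^ ρ) ^ e) :
    ∑ w ∈ Fintype.piFinset (pad S I), F w ≤
      C0 ^ Fintype.card ι * ξ * (dd p ν ^ ρ) ^ (#I + e) := by
  have d : 0 < dd p ν ^ ρ := pow_pos dd_pos _
  have a1 := Finset.sum_le_card_nsmul (Fintype.piFinset (pad S I)) F _ fun w _ => hF w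
  rw [nsmul_eq_mul] at a1
  have a2 : C0 ^ #I ≤ C0 ^ Fintype.card ι := pow_le_pow_right₀ hC (card_le_univ _)
  refine a1.trans ((mul_le_mul_of_nonneg_right (card_pad h1 I) (by positivity)).trans ?_)
  rw [mul_pow, pow_add]
  calc _ = C0 ^ #I * (ξ * ((dd p ν ^ ρ) ^ #I * (dd p ν ^ ρ) ^ e)) := by ring
    _ ≤ C0 ^ Fintype.card ι * (ξ * ((dd p ν ^ ρ) ^ #I * (dd p ν ^ ρ) ^ e)) :=
      mul_le_mul_of_nonneg_right a2 (by positivity)
    _ = _ := by ring

lemma moaB_upd {k : ι} {I : Finset ι} (hk : k ∉ I) (g : ι → Mx p (Fin ρ) (Fin ρ))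
    (w : ι → TT p ρ ν) (a : TT p ρ ν) :
    ∑ l ∈ insert k I, rm (Function.update w k a l) (g l) =
      rm a (g k) + ∑ l ∈ I, rm (w l) (g l) := by
  rw [sum_insert hk, Function.update_self]
  congr 1
  exact sum_congr rfl fun l hl => by rw [Function.update_of_ne (ne_of_mem_of_not_mem hl hk)]

lemma moaB_one (hC : 1 ≤ C0) (hξ : 0 ≤ ξ) (h1 : ∀ k, (#(S k) : ℝ) ≤ C0 * dd p ν ^ ρ)
    {k : ι} {I : Finset ι} (hk : k ∉ I) (j : ι) (g : ι → Mx p (Fin ρ) (Fin ρ))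
    (h : ∀ w : ι → TT p ρ ν,
      (#{τ ∈ S k | rm τ (g k) + ∑ l ∈ I, rm (w l) (g l) ∈ S j} : ℝ) ≤ ξ * dd p ν ^ ρ) :
    (#{t ∈ Fintype.piFinset (pad S (insert k I)) | ∑ l ∈ insert k I, rm (t l) (g l) ∈ S j} : ℝ) ≤
      C0 ^ Fintype.card ι * ξ * (dd p ν ^ ρ) ^ #(insert k I) := by
  rw [Finset.natCast_card_filter, sum_pad_insert hk, card_insert_of_notMem hk]
  refine moaB_fin hC hξ h1 I 1 _ fun w => ?_
  simp only [moaB_upd hk]
  rw [pow_one, ← Finset.natCast_card_filter]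
  exact h w

theorem Dp.dc {fl : ι → ι → Prop} (h : Dp ξ S fl) (hC : 1 ≤ C0) (hξ : 0 ≤ ξ)
    (h1 : ∀ k, (#(S k) : ℝ) ≤ C0 * dd p ν ^ ρ) : Dc (C0 ^ Fintype.card ι * ξ) S fl := by
  intro j I hj hfl g hg
  rcases h j I hj hfl g hg with q | ⟨k, rfl, q⟩ | ⟨k, hk, q⟩ | ⟨k, hk, k', hk', hne, q⟩
  · rw [Finset.filter_eq_empty_iff.2, card_empty, Nat.cast_zero]
    · have d : 0 < dd p ν ^ ρ := pow_pos dd_pos _
      have : 0 ≤ C0 := zero_le_one.trans hC
      positivity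
    · intro t ht
      refine q t fun k hk => ?_
      have e := Fintype.mem_piFinset.1 ht k
      rwa [pad, if_pos hk] at e
  · refine moaB_one hC hξ h1 (notMem_empty k) j g fun w => ?_
    simpa only [sum_empty, add_zero] using q
  · rw [← insert_erase hk]
    exact moaB_one hC hξ h1 (notMem_erase k I) j g fun w => q _
  · have hk2 : k' ∈ I.erase k := mem_erase.2 ⟨hne.symm, hk'⟩
    obtain ⟨I2, n2, n1, rfl⟩ : ∃ I2 : Finset ι, k' ∉ I2 ∧ k ∉ insert k' I2 ∧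
        I = insert k (insert k' I2) := by
      refine ⟨(I.erase k).erase k', notMem_erase _ _, ?_, ?_⟩
      · rw [insert_erase hk2]
        exact notMem_erase _ _
      · rw [insert_erase hk2, insert_erase hk]
    rw [Finset.natCast_card_filter, sum_pad_insert n1, sum_pad_insert n2,
      card_insert_of_notMem n1, card_insert_of_notMem n2]
    refine moaB_fin hC hξ h1 I2 2 _ fun w => ?_
    simp only [moaB_upd n1, moaB_upd n2, ← add_assoc]
    have k2 := q (∑ l ∈ I2, rm (w l) (g l))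
    rw [Finset.natCast_card_filter, Finset.sum_product, Finset.sum_comm] at k2
    rw [← pow_mul, mul_comm ρ 2]
    exact k2

end Pool.Agent.Work.MP_4523ee_co.F2.Mo
end

-- merged part: Pool.Agent.Work.MP_4523ee_co.F2.MoG
section
/-!
Moment lemma: dependent tuples.
-/

set_option autoImplicit false
set_option linter.unusedSectionVars false

namespace Pool.Agent.Work.MP_4523ee_co.F2.Mo

open Finset Matrix Pool.Agent.Work.MP_4523ee_co.Fp Pool.Agent.Work.MP_4523ee_co.Fp.Po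
open scoped BigOperators ComplexConjugate

variable {p : ℕ} [Fact p.Prime] {ν : Type} [Fintype ν] [DecidableEq ν] {ρ : ℕ}
variable {ι : Type} [Fintype ι] [DecidableEq ι] {S : ι → Finset (TT p ρ ν)} {C0 ξ : ℝ}

def DepOn (I : Finset ι) (t : ι → TT p ρ ν) : Prop :=
  ∃ c : ι → Fin ρ → ZMod p, (∃ k ∈ I, c k ≠ 0) ∧ ∑ k ∈ I, yM (t k) *ᵥ c k = 0

def MnOn (I : Finset ι) (t : ι → TT p ρ ν) : Prop :=
  ∀ c : ι → Fin ρ → ZMod p, ∑ k ∈ I, yM (t k) *ᵥ c k = 0 → (∃ k ∈ I, c k = 0) → ∀ k ∈ I, c k = 0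

lemma dep_iff (t : ι → TT p ρ ν) : Dep t ↔ DepOn univ t := by
  refine ⟨fun ⟨c, h1, h2⟩ => ⟨c, ?_, h2⟩, fun ⟨c, ⟨k, _, h1⟩, h2⟩ => ⟨c, fun h => h1 (congrFun h k), h2⟩⟩
  obtain ⟨k, hk⟩ := Function.ne_iff.1 h1
  exact ⟨k, mem_univ _, hk⟩

lemma exists_min {t : ι → TT p ρ ν} (h : Dep t) :
    ∃ (j : ι) (I : Finset ι), j ∉ I ∧ DepOn (insert j I) t ∧ MnOn (insert j I) t := by
  classical
  obtain ⟨I0, h0, hm⟩ := Finset.exists_min_image (univ.filter fun I : Finset ι => DepOn I t) card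
    ⟨univ, mem_filter.2 ⟨mem_univ _, (dep_iff t).1 h⟩⟩
  have h1 := (mem_filter.1 h0).2
  obtain ⟨_, ⟨j, hj, _⟩, _⟩ := id h1
  refine ⟨j, I0.erase j, notMem_erase _ _, ?_, ?_⟩ <;> rw [insert_erase hj]
  · exact h1
  · rintro c hc ⟨k0, hk0, e0⟩ k1 hk1
    by_contra e1
    have h2 : DepOn (I0.erase k0) t := by
      refine ⟨c, ⟨k1, mem_erase.2 ⟨fun e => e1 (e ▸ e0), hk1⟩, e1⟩, ?_⟩
      rw [sum_erase _ (by rw [e0, mulVec_zero]), hc]
    have h3 := hm _ (mem_filter.2 ⟨mem_univ _, h2⟩)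
    exact absurd (card_erase_lt_of_mem hk0) (not_lt.2 h3)

open Classical in
lemma mgA_dep (hC : 1 ≤ C0) (hξ : 0 ≤ ξ) (h1 : ∀ k, (#(S k) : ℝ) ≤ C0 * dd p ν ^ ρ)
    (h3 : ∀ k, Yf ξ (S k)) {I : Finset ι} (c : ι → Fin ρ → ZMod p) {k : ι} (hk : k ∈ I)
    (hc : c k ≠ 0) :
    (#{t ∈ Fintype.piFinset (pad S I) | ∑ i ∈ I, yM (t i) *ᵥ c i = 0} : ℝ) ≤
      ξ * (C0 * dd p ν ^ ρ) ^ #I := by
  obtain ⟨J, hJ, rfl⟩ : ∃ J, k ∉ J ∧ I = insert k J :=
    ⟨I.erase k, notMem_erase _ _, (insert_erase hk).symm⟩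
  have hd : 0 ≤ dd p ν ^ ρ := (pow_pos dd_pos _).le
  rw [card_filter]
  push_cast
  rw [sum_pad_insert hJ, card_insert_of_notMem hJ]
  calc _ ≤ ∑ _w ∈ Fintype.piFinset (pad S J), ξ * dd p ν ^ ρ := sum_le_sum fun w _ => by
        refine le_trans (le_of_eq ?_) (h3 k (c k) hc (-∑ i ∈ J, yM (w i) *ᵥ c i))
        rw [card_filter]
        push_cast
        refine sum_congr rfl fun a _ => if_congr ?_ rfl rfl
        rw [sum_insert hJ, Function.update_self, eq_neg_iff_add_eq_zero,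
          sum_congr rfl fun i hi => by rw [Function.update_of_ne (ne_of_mem_of_not_mem hi hJ)]]
    _ = #(Fintype.piFinset (pad S J)) * (ξ * dd p ν ^ ρ) := by rw [sum_const, nsmul_eq_mul]
    _ ≤ (C0 * dd p ν ^ ρ) ^ #J * (ξ * (C0 * dd p ν ^ ρ)) :=
        mul_le_mul (card_pad h1 J) (mul_le_mul_of_nonneg_left (le_mul_of_one_le_left hd hC) hξ)
          (mul_nonneg hξ hd) (pow_nonneg (mul_nonneg (zero_le_one.trans hC) hd) _)
    _ = _ := by ring

open Classical in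
lemma DEPC (hC : 1 ≤ C0) (hξ : 0 ≤ ξ) (h1 : ∀ k, (#(S k) : ℝ) ≤ C0 * dd p ν ^ ρ)
    (h3 : ∀ k, Yf ξ (S k)) (I : Finset ι) :
    (#{t ∈ Fintype.piFinset (pad S I) | DepOn I t} : ℝ) ≤
      (p : ℝ) ^ (Fintype.card ι * ρ) * ξ * (C0 * dd p ν ^ ρ) ^ #I := by
  have h0 : 0 ≤ ξ * (C0 * dd p ν ^ ρ) ^ #I :=
    mul_nonneg hξ (pow_nonneg (mul_nonneg (zero_le_one.trans hC) (pow_pos dd_pos _).le) _)
  have e1 : ({t ∈ Fintype.piFinset (pad S I) | DepOn I t} : Finset _) ⊆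
      (univ.filter fun c : ι → Fin ρ → ZMod p => ∃ k ∈ I, c k ≠ 0).biUnion
        fun c => {t ∈ Fintype.piFinset (pad S I) | ∑ i ∈ I, yM (t i) *ᵥ c i = 0} := fun u hu => by
    obtain ⟨c, hc, k⟩ := (mem_filter.1 hu).2
    exact mem_biUnion.2 ⟨c, mem_filter.2 ⟨mem_univ _, hc⟩, mem_filter.2 ⟨(mem_filter.1 hu).1, k⟩⟩
  have e2 := (card_le_card e1).trans card_biUnion_le
  calc _ ≤ ∑ c ∈ univ.filter fun c : ι → Fin ρ → ZMod p => ∃ k ∈ I, c k ≠ 0,
        (#{t ∈ Fintype.piFinset (pad S I) | ∑ i ∈ I, yM (t i) *ᵥ c i = 0} : ℝ) := by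
          exact_mod_cast e2
    _ ≤ #(univ.filter fun c : ι → Fin ρ → ZMod p => ∃ k ∈ I, c k ≠ 0) •
          (ξ * (C0 * dd p ν ^ ρ) ^ #I) :=
        sum_le_card_nsmul _ _ _ fun c hc => by
          obtain ⟨k, hk, hc⟩ := (mem_filter.1 hc).2
          exact mgA_dep hC hξ h1 h3 c hk hc
    _ ≤ _ := by
        rw [nsmul_eq_mul, mul_assoc]
        refine mul_le_mul_of_nonneg_right ?_ h0
        have := card_filter_le (univ : Finset (ι → Fin ρ → ZMod p)) fun c => ∃ k ∈ I, c k ≠ 0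
        simp only [card_univ, Fintype.card_fun, ZMod.card, Fintype.card_fin] at this
        rw [mul_comm, pow_mul]
        exact_mod_cast this

/-- the linear combinations of the columns of a family of tuples -/
def mgL {κ : Type} [Fintype κ] (t : κ → TT p ρ ν) :
    (κ → Fin ρ → ZMod p) →ₗ[ZMod p] (ν → ZMod p) × (ν → ZMod p) :=
  ∑ k, col (t k) ∘ₗ LinearMap.proj k

lemma mgL_apply {κ : Type} [Fintype κ] (t : κ → TT p ρ ν) (c : κ → Fin ρ → ZMod p) :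
    mgL t c = (∑ k, yM (t k) *ᵥ c k, ∑ k, zM (t k) *ᵥ c k) := by
  rw [mgL, LinearMap.sum_apply]
  refine Prod.ext ?_ ?_
  · rw [Prod.fst_sum]; rfl
  · rw [Prod.snd_sum]; rfl

lemma mgL_range {κ : Type} [Fintype κ] (t : κ → TT p ρ ν) :
    ⨆ k, spn (t k) = LinearMap.range (mgL t) := by
  classical
  refine le_antisymm (iSup_le fun k => ?_) ?_
  · rw [spn_eq]
    rintro _ ⟨c, rfl⟩
    refine ⟨Pi.single k c, ?_⟩
    rw [mgL, LinearMap.sum_apply, sum_eq_single k (fun j _ hj => by simp [hj]) (by simp)]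
    simp [col]
  · rintro _ ⟨c, rfl⟩
    rw [mgL, LinearMap.sum_apply]
    refine Submodule.sum_mem _ fun k _ => Submodule.mem_iSup_of_mem k ?_
    rw [spn_eq]
    exact ⟨c k, rfl⟩

lemma mgA_sum {j : ι} {I : Finset ι} (hj : j ∉ I) (w : ι → TT p ρ ν) (a : TT p ρ ν)
    (c : ι → Fin ρ → ZMod p) : ∑ k ∈ insert j I, yM (Function.update w j a k) *ᵥ c k =
      yM a *ᵥ c j + ∑ k : I, yM (w k) *ᵥ c k := by
  rw [sum_insert hj, Function.update_self, sum_coe_sort I fun k => yM (w k) *ᵥ c k,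
    sum_congr rfl fun i hi => by rw [Function.update_of_ne (ne_of_mem_of_not_mem hi hj)]]

lemma rk_min {j : ι} {I : Finset ι} (hj : j ∉ I) {w : ι → TT p ρ ν} {a : TT p ρ ν}
    (h : MnOn (insert j I) (Function.update w j a)) : ρ * #I ≤ rk w := by
  have e1 : Module.finrank (ZMod p) (I → Fin ρ → ZMod p) = ρ * #I := by
    rw [Module.finrank_pi_fintype]
    simp [mul_comm]
  have e2 : Function.Injective (mgL fun k : I => w k) :=
    (injective_iff_map_eq_zero _).2 fun c hc => by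
      rw [mgL_apply] at hc
      have k := h (fun k => if hk : k ∈ I then c ⟨k, hk⟩ else 0) (by
        rw [mgA_sum hj, dif_neg hj, mulVec_zero, zero_add]
        simpa using congrArg Prod.fst hc) ⟨j, mem_insert_self _ _, dif_neg hj⟩
      funext i
      simpa using k i (mem_insert_of_mem i.2)
  rw [← e1, ← LinearMap.finrank_range_of_inj e2, ← mgL_range]
  exact Submodule.finrank_mono (iSup_le fun k => le_iSup (fun k => spn (w k)) k.1)

lemma rep_min {j : ι} {I : Finset ι} (hj : j ∉ I) {w : ι → TT p ρ ν} {a : TT p ρ ν}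
    (hw : ∀ k, k ∉ I → w k = 0) (h : MnOn (insert j I) (Function.update w j a))
    (hl : spn a ≤ ⨆ k, spn (w k)) :
    ∃ g : ι → Mx p (Fin ρ) (Fin ρ), (∀ k, Inj (g k)) ∧ a = ∑ k ∈ I, rm (w k) (g k) := by
  have hl' : spn a ≤ LinearMap.range (mgL fun k : I => w k) := by
    rw [← mgL_range]
    refine hl.trans (iSup_le fun k => ?_)
    by_cases hk : k ∈ I
    · exact le_iSup (fun k : I => spn (w k)) ⟨k, hk⟩
    · rw [hw k hk]
      exact Submodule.span_le.2 (by rintro _ ⟨b, rfl⟩; exact Submodule.zero_mem _)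
  choose c hc using fun b : Fin ρ => hl' (Submodule.subset_span ⟨b, rfl⟩)
  simp only [mgL_apply, Prod.mk.injEq] at hc
  let g : ι → Mx p (Fin ρ) (Fin ρ) := fun k =>
    if hk : k ∈ I then Matrix.of fun s b => c b ⟨k, hk⟩ s else 1
  have hg : ∀ k : I, g k = Matrix.of fun s b => c b k s := fun k => dif_pos k.2
  have hy : yM a = ∑ k : I, yM (w k) * g k := by
    ext i b
    have := congrFun (hc b).1 i
    rw [Finset.sum_apply] at this
    rw [Matrix.sum_apply]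
    simp only [hg]
    exact this.symm
  refine ⟨g, fun k => ?_, ?_⟩
  · by_cases hk : k ∈ I
    · refine (injective_iff_map_eq_zero (Matrix.mulVecLin _)).2 fun v hv => ?_
      have e : ∀ i : I, Function.update (fun k => g k *ᵥ v) j (-v) i = g i *ᵥ v := fun i =>
        Function.update_of_ne (ne_of_mem_of_not_mem i.2 hj) _ _
      have k0 := h (Function.update (fun k => g k *ᵥ v) j (-v)) (by
        rw [mgA_sum hj, Function.update_self]
        simp only [e, mulVec_mulVec]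
        rw [mulVec_neg, hy, sum_mulVec, neg_add_cancel])
        ⟨k, mem_insert_of_mem hk, (e ⟨k, hk⟩).trans hv⟩ j (mem_insert_self _ _)
      rw [Function.update_self] at k0
      exact neg_eq_zero.1 k0
    · have : g k = 1 := dif_neg hk
      rw [this]
      intro x y e
      simpa using e
  · rw [← sum_coe_sort I fun k => rm (w k) (g k)]
    simp only [hg]
    refine Prod.ext ?_ ?_
    · funext i b
      have := congrFun (hc b).1 i
      rw [Finset.sum_apply] at this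
      rw [Prod.fst_sum, Finset.sum_apply, Finset.sum_apply]
      exact this.symm
    · funext i b
      have := congrFun (hc b).2 i
      rw [Finset.sum_apply] at this
      rw [Prod.snd_sum, Finset.sum_apply, Finset.sum_apply]
      exact this.symm

open Classical in
lemma moGB_full {fl : ι → ι → Prop} (hξ : 0 ≤ ξ) (h4 : Dc ξ S fl) {j : ι} {I : Finset ι}
    (hj : j ∉ I) :
    ∑ w ∈ Fintype.piFinset (pad S I), ∑ a ∈ S j,
      (if MnOn (insert j I) (Function.update w j a) ∧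
        (∀ k, I = {k} → fl j k → spn a ≠ spn (w k)) ∧ spn a ≤ ⨆ k, spn (w k) then (1 : ℝ) else 0) ≤
      (p : ℝ) ^ (ρ ^ 2 * Fintype.card ι) * (ξ * (dd p ν ^ ρ) ^ #I) := by
  have hd := dd_pos (p := p) (ν := ν)
  have hw : ∀ w ∈ Fintype.piFinset (pad S I), ∀ k, k ∉ I → w k = 0 := fun w hw k hk => by
    have := Fintype.mem_piFinset.1 hw k
    rwa [pad, if_neg hk, mem_singleton] at this
  by_cases hf : ∀ k, I = {k} → ¬ fl j k
  · set G : Finset (ι → Mx p (Fin ρ) (Fin ρ)) := univ.filter fun g => ∀ k, Inj (g k) with hG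
    calc _ ≤ ∑ w ∈ Fintype.piFinset (pad S I), ∑ g ∈ G,
          (if ∑ k ∈ I, rm (w k) (g k) ∈ S j then (1 : ℝ) else 0) := by
          refine sum_le_sum fun w h => ?_
          rw [sum_boole, sum_boole, Nat.cast_le]
          refine le_trans (card_le_card fun a ha => ?_)
            (card_image_le (f := fun g : ι → Mx p (Fin ρ) (Fin ρ) => ∑ k ∈ I, rm (w k) (g k)))
          obtain ⟨a1, a2, -, a3⟩ := mem_filter.1 ha
          obtain ⟨g, b1, b2⟩ := rep_min hj (hw w h) a2 a3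
          exact mem_image.2 ⟨g, mem_filter.2 ⟨mem_filter.2 ⟨mem_univ _, b1⟩, b2 ▸ a1⟩, b2.symm⟩
      _ ≤ #G • (ξ * (dd p ν ^ ρ) ^ #I) := by
          rw [sum_comm]
          refine sum_le_card_nsmul _ _ _ fun g hg => ?_
          rw [sum_boole]
          convert h4 j I hj hf g (mem_filter.1 hg).2
      _ ≤ _ := by
          rw [nsmul_eq_mul]
          refine mul_le_mul_of_nonneg_right ?_ (by positivity)
          have := card_filter_le (univ : Finset (ι → Mx p (Fin ρ) (Fin ρ))) fun g => ∀ k, Inj (g k)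
          rw [card_univ, Fintype.card_fun, pa_card_Mx, Fintype.card_fin, ← sq, ← pow_mul] at this
          exact_mod_cast this
  · push Not at hf
    obtain ⟨k, rfl, hk⟩ := hf
    refine le_trans (le_of_eq (sum_eq_zero fun w h => sum_eq_zero fun a _ => if_neg ?_))
      (by positivity)
    rintro ⟨a2, a4, a3⟩
    obtain ⟨g, b1, b2⟩ := rep_min hj (hw w h) a2 a3
    rw [sum_singleton] at b2
    exact a4 k rfl hk (by rw [b2, spn_rm _ (b1 k)])

open Classical in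
lemma moGB_mid (hξ : 0 ≤ ξ) (h1 : ∀ k, (#(S k) : ℝ) ≤ C0 * dd p ν ^ ρ) (h2 : ∀ k, Lt ξ (S k))
    (j : ι) (I : Finset ι) :
    ∑ w ∈ Fintype.piFinset (pad S I), ∑ a ∈ S j,
      (if 0 < bz (⨆ k, spn (w k)) a ∧ bz (⨆ k, spn (w k)) a < ρ then
        dd p ν ^ bz (⨆ k, spn (w k)) a else 0) ≤
      (C0 * dd p ν ^ ρ) ^ #I *
        ((p : ℝ) ^ (ρ ^ 2 + Fintype.card ι * ρ * ρ) * (ξ * dd p ν ^ ρ)) := by
  have hd := dd_pos (p := p) (ν := ν)
  refine le_trans (sum_le_card_nsmul _ _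
    ((p : ℝ) ^ (ρ ^ 2 + Fintype.card ι * ρ * ρ) * (ξ * dd p ν ^ ρ)) fun w _ => ?_) ?_
  · rw [← sum_filter]
    refine FIBG (S j) _ (rk_le w) (fun b => 0 < b ∧ b < ρ) (by positivity) fun g σ hg => ?_
    calc _ ≤ ξ * dd p ν ^ (ρ - g.rank) * dd p ν ^ g.rank :=
          mul_le_mul_of_nonneg_right (by convert h2 j g hg.1 hg.2 σ) (by positivity)
      _ = _ := by rw [mul_assoc, ← pow_add, Nat.sub_add_cancel hg.2.le]
  · rw [nsmul_eq_mul]
    exact mul_le_mul_of_nonneg_right (card_pad h1 I) (by positivity)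

open Classical in
lemma MINS {fl : ι → ι → Prop} (hC : 1 ≤ C0) (hξ : 0 ≤ ξ)
    (h1 : ∀ k, (#(S k) : ℝ) ≤ C0 * dd p ν ^ ρ) (h2 : ∀ k, Lt ξ (S k)) (h3 : ∀ k, Yf ξ (S k))
    (h4 : Dc ξ S fl) {j : ι} {I : Finset ι} (hj : j ∉ I) :
    ∑ t ∈ Fintype.piFinset (pad S (insert j I)) with DepOn (insert j I) t ∧ MnOn (insert j I) t ∧
        ∀ k, I = {k} → fl j k → spn (t j) ≠ spn (t k), (dd p ν ^ rk t)⁻¹ ≤
      3 * (p : ℝ) ^ (ρ ^ 2 * (Fintype.card ι + 1) + Fintype.card ι * ρ) *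
        C0 ^ Fintype.card ι * ξ := by
  have hd := dd_pos (p := p) (ν := ν)
  have hd1 := one_le_dd (p := p) (ν := ν)
  have hp := one_le_p (p := p)
  have hD : 0 < (dd p ν ^ ρ) ^ (#I + 1) := by positivity
  have a1 := DEPC hC hξ h1 h3 (insert j I)
  have a2 := moGB_mid hξ h1 h2 j I
  have a3 := mul_le_mul_of_nonneg_right (moGB_full hξ h4 hj) (pow_pos hd ρ).le
  rw [card_filter, card_insert_of_notMem hj] at a1
  push_cast at a1
  rw [sum_pad_insert hj] at a1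
  rw [sum_mul] at a3
  simp only [sum_mul] at a3
  have hn : #I + 1 ≤ Fintype.card ι := by
    rw [← card_insert_of_notMem hj]
    exact card_le_univ _
  refine le_of_mul_le_mul_right ?_ hD
  rw [sum_filter, sum_pad_insert hj, sum_mul]
  have a4 := add_le_add (add_le_add a1 a2) a3
  rw [← sum_add_distrib, ← sum_add_distrib] at a4
  refine le_trans (sum_le_sum fun w hw => ?_) (a4.trans ?_)
  · rw [sum_mul, ← sum_add_distrib, ← sum_add_distrib]
    refine sum_le_sum fun a _ => ?_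
    have hwj : w j = 0 := by
      have := Fintype.mem_piFinset.1 hw j
      rwa [pad, if_neg hj, mem_singleton] at this
    split_ifs with q
    any_goals first | exact absurd q.1 ‹_› | (rw [zero_mul]; positivity)
    all_goals
      have b1 := rk_min hj q.2.1
      have b2 := rk_sup (⨆ k, spn (w k)) a
      have b3 := bz_le (⨆ k, spn (w k)) a
      rw [← rk_update hwj] at b2
      have b4 : (dd p ν ^ rk (Function.update w j a))⁻¹ * (dd p ν ^ ρ) ^ (#I + 1) ≤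
          dd p ν ^ bz (⨆ k, spn (w k)) a := by
        rw [inv_mul_le_iff₀ (by positivity), ← pow_mul, ← pow_add]
        refine pow_le_pow_right₀ hd1 ?_
        rw [mul_add, mul_one]
        unfold rk at b1
        omega
      refine b4.trans ?_
    · have := pow_pos hd ρ
      linarith
    · linarith
    · have := pow_le_pow_right₀ hd1 b3
      linarith
    · rename_i q1 q2 q3
      rcases Nat.eq_zero_or_pos (bz (⨆ k, spn (w k)) a) with e | e
      · rw [e]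
        simp
      · refine absurd ⟨q.2.1, fun k hk hf => ?_, bz_full (by omega)⟩ q3
        have := q.2.2 k hk hf
        have hkj : k ≠ j := by
          rintro rfl
          exact hj (hk ▸ mem_singleton_self _)
        rwa [Function.update_self, Function.update_of_ne hkj] at this
  · have c1 : (p : ℝ) ^ (Fintype.card ι * ρ) ≤
        (p : ℝ) ^ (ρ ^ 2 * (Fintype.card ι + 1) + Fintype.card ι * ρ) :=
      pow_le_pow_right₀ hp (Nat.le_add_left _ _)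
    have c2 : (p : ℝ) ^ (ρ ^ 2 + Fintype.card ι * ρ * ρ) ≤
        (p : ℝ) ^ (ρ ^ 2 * (Fintype.card ι + 1) + Fintype.card ι * ρ) :=
      pow_le_pow_right₀ hp (le_trans (le_of_eq (by ring)) (Nat.le_add_right _ _))
    have c3 : (p : ℝ) ^ (ρ ^ 2 * Fintype.card ι) ≤
        (p : ℝ) ^ (ρ ^ 2 * (Fintype.card ι + 1) + Fintype.card ι * ρ) :=
      pow_le_pow_right₀ hp (le_trans (Nat.mul_le_mul_left _ (Nat.le_succ _)) (Nat.le_add_right _ _))
    have d1 : C0 ^ (#I + 1) ≤ C0 ^ Fintype.card ι := pow_le_pow_right₀ hC hn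
    have d2 : C0 ^ #I ≤ C0 ^ Fintype.card ι := pow_le_pow_right₀ hC (by omega)
    have d3 : 1 ≤ C0 ^ Fintype.card ι := one_le_pow₀ hC
    have hC0 : 0 ≤ C0 := zero_le_one.trans hC
    generalize (p : ℝ) ^ (ρ ^ 2 * (Fintype.card ι + 1) + Fintype.card ι * ρ) = P at *
    have hP : 0 ≤ P := le_trans (by positivity) c1
    have e1 := mul_le_mul c1 d1 (by positivity) hP
    have e2 := mul_le_mul c2 d2 (by positivity) hP
    have e3 := mul_le_mul c3 d3 zero_le_one hP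
    calc _ = ((p : ℝ) ^ (Fintype.card ι * ρ) * C0 ^ (#I + 1) +
          (p : ℝ) ^ (ρ ^ 2 + Fintype.card ι * ρ * ρ) * C0 ^ #I +
          (p : ℝ) ^ (ρ ^ 2 * Fintype.card ι) * 1) * (ξ * (dd p ν ^ ρ) ^ (#I + 1)) := by ring
      _ ≤ (P * C0 ^ Fintype.card ι + P * C0 ^ Fintype.card ι + P * C0 ^ Fintype.card ι) *
          (ξ * (dd p ν ^ ρ) ^ (#I + 1)) :=
          mul_le_mul_of_nonneg_right (add_le_add (add_le_add e1 e2) e3) (by positivity)
      _ = _ := by ring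

open Classical in
theorem ADM {fl : ι → ι → Prop} (hC : 1 ≤ C0) (hξ : 0 ≤ ξ) (hξ1 : ξ ≤ 1)
    (h1 : ∀ k, (#(S k) : ℝ) ≤ C0 * dd p ν ^ ρ) (h2 : ∀ k, Lt ξ (S k)) (h3 : ∀ k, Yf ξ (S k))
    {ξ' : ℝ} (hξ' : ξ ≤ ξ') (h4 : Dc ξ' S fl) :
    ∑ t ∈ Fintype.piFinset S with Adm fl t ∧ Dep t, (dd p ν ^ rk t)⁻¹ ≤
      Fintype.card ι * 2 ^ Fintype.card ι *
        ((p : ℝ) ^ (ρ ^ 2 + Fintype.card ι * ρ * ρ) * C0) ^ Fintype.card ι *
        (3 * (p : ℝ) ^ (ρ ^ 2 * (Fintype.card ι + 1) + Fintype.card ι * ρ) *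
          C0 ^ Fintype.card ι * ξ') := by
  have hd := dd_pos (p := p) (ν := ν)
  have hp := one_le_p (p := p)
  have hC0 : 0 ≤ C0 := zero_le_one.trans hC
  have h0 : 0 ≤ ξ' := hξ.trans hξ'
  set Q : ι × Finset ι → (ι → TT p ρ ν) → Prop := fun x t => DepOn (insert x.1 x.2) t ∧
    MnOn (insert x.1 x.2) t ∧ ∀ k, x.2 = {k} → fl x.1 k → spn (t x.1) ≠ spn (t k) with hQ
  have hK : 1 ≤ (p : ℝ) ^ (ρ ^ 2 + Fintype.card ι * ρ * ρ) * C0 :=
    one_le_mul_of_one_le_of_one_le (one_le_pow₀ hp) hC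
  calc _ ≤ ∑ t ∈ Fintype.piFinset S, ∑ x ∈ univ.filter fun x : ι × Finset ι => x.1 ∉ x.2,
        (if Q x t then (1 : ℝ) else 0) * (dd p ν ^ rk t)⁻¹ := by
        rw [sum_filter]
        refine sum_le_sum fun t _ => ?_
        have k0 : ∀ x ∈ univ.filter fun x : ι × Finset ι => x.1 ∉ x.2,
            0 ≤ (if Q x t then (1 : ℝ) else 0) * (dd p ν ^ rk t)⁻¹ := fun x _ => by
          split_ifs <;> positivity
        split_ifs with q
        · obtain ⟨j, I, a1, a2, a3⟩ := exists_min q.2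
          refine le_trans (le_of_eq ?_)
            (single_le_sum k0 (mem_filter.2 ⟨mem_univ (j, I), a1⟩))
          have a4 : ∀ k, I = {k} → j ≠ k := by
            rintro k rfl rfl
            exact a1 (mem_singleton_self _)
          rw [if_pos ⟨a2, a3, fun k hk hf => q.1 j k (a4 k hk) hf⟩, one_mul]
        · exact sum_nonneg k0
    _ ≤ #(univ.filter fun x : ι × Finset ι => x.1 ∉ x.2) •
        (((p : ℝ) ^ (ρ ^ 2 + Fintype.card ι * ρ * ρ) * C0) ^ Fintype.card ι *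
        (3 * (p : ℝ) ^ (ρ ^ 2 * (Fintype.card ι + 1) + Fintype.card ι * ρ) *
          C0 ^ Fintype.card ι * ξ')) := by
        rw [sum_comm]
        refine sum_le_card_nsmul _ _ _ fun x hx => ?_
        have a1 := SUMOUT hC h1 (fun k => (h2 k).mono hξ1 subset_rfl) (insert x.1 x.2)
          (insert x.1 x.2)ᶜ disjoint_compl_right (fun t => if Q x t then (1 : ℝ) else 0)
          (fun t => by split_ifs <;> positivity) fun w i a hi => by
            have e : ∀ k ∈ insert x.1 x.2, Function.update w i a k = w k := fun k hk =>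
              Function.update_of_ne (by rintro rfl; exact hi hk) _ _
            have e1 : ∀ c : ι → Fin ρ → ZMod p,
                ∑ k ∈ insert x.1 x.2, yM (Function.update w i a k) *ᵥ c k =
                  ∑ k ∈ insert x.1 x.2, yM (w k) *ᵥ c k := fun c =>
              sum_congr rfl fun k hk => by rw [e k hk]
            refine if_congr ?_ rfl rfl
            simp only [hQ, DepOn, MnOn, e1]
            refine and_congr_right fun _ => and_congr_right fun _ => forall_congr' fun k =>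
              imp_congr_right fun hk => ?_
            rw [e _ (mem_insert_self _ _), e k (by rw [hk]; simp)]
        rw [union_compl, pad_univ] at a1
        refine a1.trans (mul_le_mul (pow_le_pow_right₀ hK (card_le_univ _)) ?_
          (sum_nonneg fun t _ => by split_ifs <;> positivity) (by positivity))
        refine le_trans (le_of_eq ?_) (MINS hC h0 h1 (fun k => (h2 k).mono hξ' subset_rfl)
          (fun k => (h3 k).mono hξ' subset_rfl) h4 (mem_filter.1 hx).2)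
        rw [sum_filter]
        refine sum_congr rfl fun t _ => ?_
        rw [ite_mul, one_mul, zero_mul]
    _ ≤ _ := by
        rw [nsmul_eq_mul, mul_assoc ((Fintype.card ι : ℝ) * 2 ^ Fintype.card ι)]
        refine mul_le_mul_of_nonneg_right ?_ (by positivity)
        have := card_filter_le (univ : Finset (ι × Finset ι)) fun x => x.1 ∉ x.2
        rw [card_univ, Fintype.card_prod, Fintype.card_finset] at this
        exact_mod_cast this

lemma adm_of_not_dep (hρ : 0 < ρ) (fl : ι → ι → Prop) {t : ι → TT p ρ ν} (h : ¬ Dep t) :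
    Adm fl t := by
  intro j k hjk _ e
  have h1 : col (t j) (Pi.single ⟨0, hρ⟩ 1) ∈ spn (t k) := by
    rw [← e, spn_eq]
    exact ⟨_, rfl⟩
  rw [spn_eq] at h1
  obtain ⟨c, hc⟩ := h1
  have h2 : yM (t k) *ᵥ c = yM (t j) *ᵥ Pi.single ⟨0, hρ⟩ 1 := congrArg Prod.fst hc
  have h3 : ∀ (i : ι) (v : Fin ρ → ZMod p),
      ∑ l, yM (t l) *ᵥ (Pi.single i v : ι → Fin ρ → ZMod p) l = yM (t i) *ᵥ v := fun i v => by
    rw [sum_eq_single i (fun l _ hl => by simp [hl]) (by simp), Pi.single_eq_same]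
  refine h ⟨Pi.single j (Pi.single ⟨0, hρ⟩ 1) - Pi.single k c, fun h0 => ?_, ?_⟩
  · have := congrFun (congrFun h0 j) ⟨0, hρ⟩
    simp [hjk] at this
  · simp only [Pi.sub_apply, mulVec_sub, sum_sub_distrib, h3, h2, sub_self]

end Pool.Agent.Work.MP_4523ee_co.F2.Mo
end

-- merged part: Pool.Agent.Work.MP_4523ee_co.F2.MoF
section
/-!
Moment lemma and Poisson law on a fibre.
-/

set_option autoImplicit false
set_option linter.unusedSectionVars false

namespace Pool.Agent.Work.MP_4523ee_co.F2.Mo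

open Finset Matrix Pool.Agent.Work.MP_4523ee_co.Fp Pool.Agent.Work.MP_4523ee_co.Fp.Po
open scoped BigOperators ComplexConjugate

open Classical in
/-- the sum of the joint probabilities is a product moment -/
lemma sum_fd {ν ι : Type} [Fintype ν] [DecidableEq ν] [Fintype ι] [DecidableEq ι] {ρ : ℕ}
    (M0 : SymM 2 ν) (S : ι → Finset (TT 2 ρ ν)) :
    ∑ t ∈ Fintype.piFinset S, fd M0 {M | ∀ k, hit M (t k)} =
      𝔼 A : AltM ν, ∏ k, (#{τ ∈ S k | hit (M0 + A.1) τ} : ℝ) := by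
  simp only [fd, Fp.dens]
  rw [← expect_sum_comm]
  refine expect_congr rfl fun A _ => ?_
  simp only [Finset.natCast_card_filter]
  rw [prod_univ_sum]
  refine sum_congr rfl fun t _ => ?_
  by_cases h : ∀ k, hit (M0 + A.1) (t k)
  · rw [ind_of_mem (by exact h)]
    simp [h]
  · rw [ind_of_not (by exact h)]
    obtain ⟨k, hk⟩ := not_forall.1 h
    exact (prod_eq_zero (mem_univ k) (if_neg hk)).symm

lemma moFA_pu {ν ι : Type} [Fintype ν] [DecidableEq ν] [Fintype ι] [DecidableEq ι] {ρ m : ℕ}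
    (hm : Fintype.card ι ≤ m) (M0 : SymM 2 ν) (t : ι → TT 2 ρ ν) :
    fd M0 {M | ∀ k, hit M (t k)} ≤ 2 ^ (m * ρ + 1).choose 2 * (dd 2 ν ^ rk t)⁻¹ := by
  have hd : 0 < dd 2 ν := dd_pos
  refine (PU M0 t).trans (mul_le_mul_of_nonneg_right (pow_le_pow_right₀ one_le_two
    (Nat.choose_le_choose _ (Nat.succ_le_succ ((rk_le t).trans (Nat.mul_le_mul_right _ hm)))))
    (by positivity))

lemma moFA_pow {ρ n m : ℕ} (hm : n ≤ m) {C0 : ℝ} (hC : 1 ≤ C0) :
    (((2 : ℕ) : ℝ) ^ (ρ ^ 2 + n * ρ * ρ) * C0) ^ n ≤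
      (((2 : ℕ) : ℝ) ^ (ρ ^ 2 + m * ρ * ρ) * C0) ^ m := by
  have p1 : (1 : ℝ) ≤ ((2 : ℕ) : ℝ) := by norm_num
  have h0 : 0 ≤ C0 := zero_le_one.trans hC
  refine (pow_le_pow_left₀ (by positivity) ?_ n).trans (pow_le_pow_right₀
    (one_le_mul_of_one_le_of_one_le (one_le_pow₀ p1) hC) hm)
  gcongr

theorem UPP (ρ m : ℕ) (C0 : ℝ) (hC : 1 ≤ C0) : ∃ C : ℝ, 0 ≤ C ∧
    ∀ (ν ι : Type) [Fintype ν] [DecidableEq ν] [Fintype ι] [DecidableEq ι], Fintype.card ι ≤ m →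
    ∀ S : ι → Finset (TT 2 ρ ν), (∀ k, (#(S k) : ℝ) ≤ C0 * dd 2 ν ^ ρ) → (∀ k, Lt 1 (S k)) →
    ∀ M0 : SymM 2 ν, ∑ t ∈ Fintype.piFinset S, fd M0 {M | ∀ k, hit M (t k)} ≤ C := by
  have h0 : 0 ≤ C0 := zero_le_one.trans hC
  refine ⟨2 ^ (m * ρ + 1).choose 2 * (((2 : ℕ) : ℝ) ^ (ρ ^ 2 + m * ρ * ρ) * C0) ^ m,
    by positivity, fun ν ι _ _ _ _ hm S h1 h2 M0 => ?_⟩
  refine (sum_le_sum fun t _ => moFA_pu hm M0 t).trans ?_
  rw [← mul_sum]
  exact mul_le_mul_of_nonneg_left ((UPP0 hC h1 h2).trans (moFA_pow hm hC)) (by positivity)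

open Classical in
theorem MOM (ρ m : ℕ) (hρ : 0 < ρ) (C0 : ℝ) (hC : 1 ≤ C0) : ∃ C : ℝ, 0 ≤ C ∧
    ∀ (ν ι : Type) [Fintype ν] [DecidableEq ν] [Fintype ι] [DecidableEq ι], Fintype.card ι ≤ m →
    ∀ ξ : ℝ, 0 ≤ ξ → ξ ≤ 1 → ∀ (S : ι → Finset (TT 2 ρ ν)) (fl : ι → ι → Prop),
    (∀ k, (#(S k) : ℝ) ≤ C0 * dd 2 ν ^ ρ) → (∀ k, Lt ξ (S k)) → (∀ k, Yf ξ (S k)) →
    ∀ ξ' : ℝ, ξ ≤ ξ' → Dc ξ' S fl → ∀ M0 : SymM 2 ν,
    |∑ t ∈ Fintype.piFinset S with Adm fl t, fd M0 {M | ∀ k, hit M (t k)} -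
      ∑ t ∈ Fintype.piFinset S, P0 M0 t| ≤ C * ξ' := by
  have h0 : 0 ≤ C0 := zero_le_one.trans hC
  have p1 : (1 : ℝ) ≤ ((2 : ℕ) : ℝ) := by norm_num
  refine ⟨2 ^ (m * ρ + 1).choose 2 * (m * 2 ^ m * (((2 : ℕ) : ℝ) ^ (ρ ^ 2 + m * ρ * ρ) * C0) ^ m *
    (3 * ((2 : ℕ) : ℝ) ^ (ρ ^ 2 * (m + 1) + m * ρ) * C0 ^ m)) +
    2 ^ (m * ρ + 1).choose 2 * (((2 : ℕ) : ℝ) ^ (m * ρ) * C0 ^ m), by positivity,
    fun ν ι _ _ _ _ hm ξ x0 x1 S fl h1 h2 h3 ξ' hx h4 M0 => ?_⟩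
  have hd : 0 < dd 2 ν := dd_pos
  have y0 : 0 ≤ ξ' := x0.trans hx
  have e1 : ∑ t ∈ Fintype.piFinset S with Adm fl t, fd M0 {M | ∀ k, hit M (t k)} -
      ∑ t ∈ Fintype.piFinset S, P0 M0 t =
      ∑ t ∈ Fintype.piFinset S with Adm fl t ∧ Dep t, fd M0 {M | ∀ k, hit M (t k)} -
      ∑ t ∈ Fintype.piFinset S with Dep t, P0 M0 t := by
    simp only [sum_filter, ← sum_sub_distrib]
    refine sum_congr rfl fun t _ => ?_
    by_cases k : Dep t
    · simp [k]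
    · simp [k, adm_of_not_dep hρ fl k, PE M0 t k]
  have a1 : ∑ t ∈ Fintype.piFinset S with Adm fl t ∧ Dep t, fd M0 {M | ∀ k, hit M (t k)} ≤
      2 ^ (m * ρ + 1).choose 2 * (m * 2 ^ m * (((2 : ℕ) : ℝ) ^ (ρ ^ 2 + m * ρ * ρ) * C0) ^ m *
        (3 * ((2 : ℕ) : ℝ) ^ (ρ ^ 2 * (m + 1) + m * ρ) * C0 ^ m)) * ξ' := by
    refine (sum_le_sum fun t _ => moFA_pu hm M0 t).trans ?_
    rw [← mul_sum, mul_assoc, mul_assoc _ _ ξ']
    refine mul_le_mul_of_nonneg_left ((ADM hC x0 x1 h1 h2 h3 hx h4).trans ?_) (by positivity)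
    refine mul_le_mul (mul_le_mul ?_ (moFA_pow hm hC) (by positivity) (by positivity)) ?_
      (by positivity) (by positivity)
    · gcongr
    · gcongr
  have a2 : ∀ t : ι → TT 2 ρ ν, 0 ≤ P0 M0 t ∧
      P0 M0 t ≤ 2 ^ (m * ρ + 1).choose 2 / dd 2 ν ^ (Fintype.card ι * ρ) := fun t => by
    unfold P0 pp
    split_ifs
    · refine ⟨by positivity, ?_⟩
      gcongr
    · exact ⟨le_rfl, by positivity⟩
  have a3 : ∑ t ∈ Fintype.piFinset S with Dep t, P0 M0 t ≤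
      2 ^ (m * ρ + 1).choose 2 * (((2 : ℕ) : ℝ) ^ (m * ρ) * C0 ^ m) * ξ' := by
    refine (Finset.sum_le_card_nsmul _ _ _ fun t _ => (a2 t).2).trans ?_
    have k := DEPC hC x0 h1 h3 univ
    rw [pad_univ, card_univ] at k
    simp only [← dep_iff] at k
    rw [nsmul_eq_mul]
    refine (mul_le_mul_of_nonneg_right (le_of_eq_of_le (by congr) k) (by positivity)).trans ?_
    rw [mul_pow, ← pow_mul, mul_comm ρ]
    calc _ = 2 ^ (m * ρ + 1).choose 2 *
          (((2 : ℕ) : ℝ) ^ (Fintype.card ι * ρ) * C0 ^ Fintype.card ι) * ξ := by field_simp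
      _ ≤ _ := by gcongr
  have a4 : 0 ≤ ∑ t ∈ Fintype.piFinset S with Adm fl t ∧ Dep t, fd M0 {M | ∀ k, hit M (t k)} :=
    sum_nonneg fun t _ => dens_nonneg _
  have a5 : 0 ≤ ∑ t ∈ Fintype.piFinset S with Dep t, P0 M0 t := sum_nonneg fun t _ => (a2 t).1
  rw [e1, add_mul, abs_le]
  constructor <;> linarith

lemma moF_zero {ν : Type} [Fintype ν] [DecidableEq ν] {ρ : ℕ} (hρ : 0 < ρ) :
    ¬ Inj (yM (0 : TT 2 ρ ν)) := by
  intro h
  have e : yM (0 : TT 2 ρ ν) = 0 := rfl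
  have h1 : (1 : Fin ρ → ZMod 2) = 0 := h (by rw [e, zero_mulVec, zero_mulVec])
  exact one_ne_zero (congrFun h1 ⟨0, hρ⟩)

lemma moF_dp {ν : Type} [Fintype ν] [DecidableEq ν] {ρ : ℕ} (hρ : 0 < ρ) {C0 ξ : ℝ}
    (hC : 1 ≤ C0) (h0 : 0 ≤ ξ) (h1 : ξ ≤ 1) {T : Finset (TT 2 ρ ν)} (hT : Nice C0 ξ T) (j : ℕ) :
    Dp (C0 * ξ) (fun _ : Fin j => T) fun _ _ => True := by
  intro i I _ hI g hg
  rcases I.eq_empty_or_nonempty with rfl | ⟨k, hk⟩
  · refine Or.inl fun t _ h => moF_zero (ν := ν) hρ (hT.inj _ ?_)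
    rwa [sum_empty] at h
  · have : ∃ k' ∈ I, k' ≠ k := by
      by_contra hn
      push Not at hn
      exact hI k (eq_singleton_iff_unique_mem.2 ⟨hk, hn⟩) trivial
    obtain ⟨k', hk', hne⟩ := this
    exact Or.inr (Or.inr (Or.inr ⟨k, hk, k', hk', hne.symm, fun c =>
      hT.toThin.cnt3 hT.toThin hT.card hC h0 h1 (hg k) (hg k') c⟩))

open Classical in
lemma moF_desc {ν : Type} [Fintype ν] [DecidableEq ν] {ρ : ℕ} {T : Finset (TT 2 ρ ν)}
    (hd : ∀ τ ∈ T, ∀ τ' ∈ T, spn τ = spn τ' → τ = τ') (M0 : SymM 2 ν) (j : ℕ) :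
    𝔼 A : AltM ν, ((#{τ ∈ T | hit (M0 + A.1) τ}).descFactorial j : ℝ) =
      ∑ t ∈ Fintype.piFinset (fun _ : Fin j => T) with Adm (fun _ _ => True) t,
        fd M0 {M | ∀ k, hit M (t k)} := by
  have h := expect_card (fun (t : Fin j → TT 2 ρ ν) (A : AltM ν) => ∀ k, hit (M0 + A.1) (t k))
    fun t => Function.Injective t ∧ ∀ k, t k ∈ T
  have e : (Fintype.piFinset fun _ : Fin j => T).filter (fun t => Adm (fun _ _ => True) t) =
      univ.filter fun t : Fin j → TT 2 ρ ν => Function.Injective t ∧ ∀ k, t k ∈ T := by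
    ext t
    simp only [mem_filter, Fintype.mem_piFinset, mem_univ, true_and]
    constructor
    · rintro ⟨h1, h2⟩
      refine ⟨fun k k' e => ?_, h1⟩
      by_contra hne
      exact h2 k k' hne trivial (by rw [e])
    · rintro ⟨h1, h2⟩
      exact ⟨h2, fun k k' hne _ e => hne (h1 (hd _ (h2 k) _ (h2 k') e))⟩
  rw [e]
  refine Eq.trans (expect_congr rfl fun A _ => ?_) h
  have h2 := card_inj_tuples (fun τ : TT 2 ρ ν => τ ∈ T ∧ hit (M0 + A.1) τ) j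
  have e2 : T.filter (fun τ => hit (M0 + A.1) τ) =
      univ.filter fun τ : TT 2 ρ ν => τ ∈ T ∧ hit (M0 + A.1) τ := by
    ext τ
    simp
  rw [e2, Nat.cast_inj]
  refine Eq.trans (by convert h2.symm) (congrArg Finset.card (?_ : (univ.filter
    fun t : Fin j → TT 2 ρ ν => Function.Injective t ∧ ∀ k, t k ∈ T ∧ hit (M0 + A.1) (t k)) = _))
  ext t
  simp only [mem_filter, mem_univ, true_and, forall_and, and_assoc]

theorem POI (ρ : ℕ) (hρ : 0 < ρ) (C0 γ : ℝ) (hC : 1 ≤ C0) (hγ : 0 < γ) : ∃ ξ : ℝ, 0 < ξ ∧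
    ∀ (ν : Type) [Fintype ν] [DecidableEq ν] (T : Finset (TT 2 ρ ν)), Nice C0 ξ T →
    ∀ M0 : SymM 2 ν, (∀ τ ∈ T, live M0 τ) →
    |fd M0 {M | ∀ τ ∈ T, ¬ hit M τ} - Real.exp (-(pp ρ ν * #T))| ≤ γ := by
  classical
  obtain ⟨m0, δ, hδ, H⟩ := poisson (2 ^ (ρ + 1).choose 2 * C0) γ hγ
  obtain ⟨C1, hC1, H1⟩ := MOM ρ m0 hρ C0 hC
  obtain ⟨C2, hC2, H2⟩ := FAC ρ m0 C0 hC
  have hC0 : 0 ≤ C0 := by linarith
  obtain ⟨B, hB⟩ : ∃ B : ℝ, B = C1 * (C0 ^ m0 * C0) + C2 * C0 := ⟨_, rfl⟩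
  have hB0 : 0 ≤ B := by rw [hB]; positivity
  obtain ⟨ξ, hξ⟩ : ∃ ξ : ℝ, ξ = min 1 (δ / (B + 1)) := ⟨_, rfl⟩
  have h0 : 0 < ξ := by rw [hξ]; positivity
  have h1 : ξ ≤ 1 := hξ ▸ min_le_left _ _
  have h2 : B * ξ ≤ δ := by
    have : ξ ≤ δ / (B + 1) := hξ ▸ min_le_right _ _
    rw [le_div_iff₀ (by positivity)] at this
    nlinarith
  refine ⟨ξ, h0, fun ν _ _ T hT M0 hl => ?_⟩
  have hd : 0 < dd 2 ν ^ ρ := pow_pos dd_pos _
  have e : fd M0 {M | ∀ τ ∈ T, ¬ hit M τ} =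
      Fp.dens {A : AltM ν | #{τ ∈ T | hit (M0 + A.1) τ} = 0} := by
    unfold fd
    congr 1
    ext A
    simp only [Set.mem_ofPred_eq, card_eq_zero, filter_eq_empty_iff]
  have hpp : 0 ≤ pp ρ ν := by
    unfold pp
    positivity
  rw [e]
  refine H _ (fun A : AltM ν => #{τ ∈ T | hit (M0 + A.1) τ}) _ (by positivity) ?_ fun j hj => ?_
  · refine (mul_le_mul_of_nonneg_left hT.card hpp).trans (le_of_eq ?_)
    unfold pp
    field_simp
  · have hj' : Fintype.card (Fin j) ≤ m0 := by rwa [Fintype.card_fin]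
    have hp : C0 ^ Fintype.card (Fin j) ≤ C0 ^ m0 := pow_le_pow_right₀ hC hj'
    have hp1 : 1 ≤ C0 ^ Fintype.card (Fin j) := one_le_pow₀ hC
    have hx : ξ ≤ C0 * ξ := le_mul_of_one_le_left h0.le hC
    have g1 := H1 ν (Fin j) hj' ξ h0.le h1 (fun _ => T) (fun _ _ => True) (fun _ => hT.card)
      (fun _ => hT.lt) (fun _ => hT.toThin.yf h0.le) (C0 ^ Fintype.card (Fin j) * (C0 * ξ))
      (hx.trans (le_mul_of_one_le_left (by positivity) hp1))
      ((moF_dp hρ hC h0.le h1 hT j).dc hC (by positivity) fun _ => hT.card) M0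
    have g2 := H2 ν (Fin j) hj' (C0 * ξ) (by positivity) (fun _ => T) (fun _ => hT.card)
      (fun _ _ _ => hT.toThin.bl hT.toThin hC h0.le) M0
    rw [filter_true_of_mem hl, prod_const, card_univ, Fintype.card_fin] at g2
    have g3 : C1 * (C0 ^ Fintype.card (Fin j) * (C0 * ξ)) ≤ C1 * (C0 ^ m0 * (C0 * ξ)) := by
      gcongr
    have g4 : B * ξ = C1 * (C0 ^ m0 * (C0 * ξ)) + C2 * (C0 * ξ) := by rw [hB]; ring
    have g5 := moF_desc hT.dist M0 j
    rw [← g5] at g1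
    rw [abs_le] at g1 g2 ⊢
    constructor <;> linarith [g1.1, g1.2, g2.1, g2.2]

open Classical in
/-- void probabilities of all sets of spans of a thin family -/
theorem POIS (ρ : ℕ) (hρ : 0 < ρ) (C0 γ : ℝ) (hC : 1 ≤ C0) (hγ : 0 < γ) : ∃ ξ : ℝ, 0 < ξ ∧
    ∀ (ν : Type) [Fintype ν] [DecidableEq ν] (T : Finset (TT 2 ρ ν)), Thin C0 ξ T →
    ∀ M0 : SymM 2 ν, (∀ τ ∈ T, Inj (yM τ) ∧ live M0 τ) → ∀ 𝒜 ⊆ T.image spn,
    |fd M0 {M | ∀ Y ∈ 𝒜, M ∉ CY Y} - Real.exp (-(pp ρ ν * #𝒜))| ≤ γ := by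
  obtain ⟨ξ, h0, H⟩ := POI ρ hρ C0 γ hC hγ
  refine ⟨ξ, h0, fun ν _ _ T hT M0 hl 𝒜 hA => ?_⟩
  obtain ⟨T2, s2, d2, r2⟩ := exists_reps (T.filter fun τ => spn τ ∈ 𝒜)
  have s3 : T2 ⊆ T := s2.trans (filter_subset _ _)
  have im : T2.image spn = 𝒜 := by
    ext Y
    constructor
    · intro hY
      obtain ⟨τ, hτ, rfl⟩ := mem_image.1 hY
      exact (mem_filter.1 (s2 hτ)).2
    · intro hY
      obtain ⟨τ, hτ, rfl⟩ := mem_image.1 (hA hY)
      obtain ⟨τ', h1, h2⟩ := r2 τ (mem_filter.2 ⟨hτ, hY⟩)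
      exact mem_image.2 ⟨τ', h1, h2⟩
  have hc : #𝒜 = #T2 := by
    rw [← im]
    exact card_image_of_injOn fun τ hτ τ' hτ' e => d2 τ hτ τ' hτ' e
  have e : {M : SymM 2 ν | ∀ Y ∈ 𝒜, M ∉ CY Y} = {M | ∀ τ ∈ T2, ¬ hit M τ} := by
    ext M
    rw [← im]
    simp only [Set.mem_ofPred_eq, forall_mem_image, hit_iff]
  rw [e, hc]
  exact H ν T2 ⟨hT.mono le_rfl h0.le le_rfl s3, fun τ hτ => (hl τ (s3 hτ)).1, d2⟩ M0
    fun τ hτ => (hl τ (s3 hτ)).2

end Pool.Agent.Work.MP_4523ee_co.F2.Mo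
end

-- merged part: Pool.Agent.Work.MP_4523ee_co.F2.PtC
section
/-!
Poisson tile: the sets of spans seen from a tile.
-/

set_option autoImplicit false
set_option linter.unusedSectionVars false

namespace Pool.Agent.Work.MP_4523ee_co.F2.Mo

open Finset Matrix Pool.Agent.Work.MP_4523ee_co.Fp Pool.Agent.Work.MP_4523ee_co.Fp.Po
open scoped BigOperators ComplexConjugate

variable {ν J : Type} [Fintype ν] [DecidableEq ν] [Fintype J] [DecidableEq J] {r : ℕ}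

/-- the tuple `(0, G)` -/
def zz (G : Mx 2 ν (Fin r)) : TT 2 r ν := (0, fun i a => G i a)

/-- the tuple `(0, v cᵀ)` -/
def tw (v : ν → ZMod 2) (c : Fin r → ZMod 2) : TT 2 r ν := zz (vecMulVec v c)

/-- the shear `(y, z) ↦ (y, z + B y)` on vectors -/
def shv (B : Mx 2 ν ν) : ((ν → ZMod 2) × (ν → ZMod 2)) →ₗ[ZMod 2] (ν → ZMod 2) × (ν → ZMod 2) :=
  (LinearMap.fst _ _ _).prod (LinearMap.snd _ _ _ + B.mulVecLin ∘ₗ LinearMap.fst _ _ _)

/-- the first components of `Y` are orthogonal to the columns of `U` -/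
def kill (U : Mx 2 ν J) (Y : SV 2 ν) : Prop := ∀ q ∈ Y, Uᵀ *ᵥ q.1 = 0

/-- all members on the fibres of the tile, pulled back to the base fibre -/
noncomputable def TU (Bf : (ν → ZMod 2) → Finset (TT 2 r ν)) (δ : ν → ZMod 2) (U : Mx 2 ν J) :
    Finset (TT 2 r ν) :=
  univ.biUnion fun N : SymM 2 J => (Bf (δ + U *ᵥ dg N)).image (shr (cj U N).1)

open Classical in
/-- their spans -/
noncomputable def SU (Bf : (ν → ZMod 2) → Finset (TT 2 r ν)) (δ : ν → ZMod 2) (U : Mx 2 ν J) :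
    Finset (SV 2 ν) := (TU Bf δ U).image spn

open Classical in
/-- few twisted coincidences between the families of different fibres -/
def TW (ξ : ℝ) (Bf : (ν → ZMod 2) → Finset (TT 2 r ν)) : Prop :=
  ∀ g : Mx 2 (Fin r) (Fin r), Inj g → ∀ c : Fin r → ZMod 2,
    𝔼 δ : ν → ZMod 2, 𝔼 δ₁ : ν → ZMod 2, 𝔼 δ₂ : ν → ZMod 2,
      (#{τ ∈ Bf δ₁ | rm τ g + tw (δ₁ + δ₂) c ∈ Bf δ₂ ∧ live (Dg δ) (rm τ g + tw (δ + δ₁) c) ∧
        spn (rm τ g + tw (δ + δ₁) c) ∉ (Bf δ).image spn} : ℝ) ≤ ξ * dd 2 ν ^ r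

lemma tt_add_self (τ : TT 2 r ν) : τ + τ = 0 := by
  exact Prod.ext (funext fun i => funext fun a => CharTwo.add_self_eq_zero _)
    (funext fun i => funext fun a => CharTwo.add_self_eq_zero _)

lemma yM_add_zz (τ : TT 2 r ν) (G : Mx 2 ν (Fin r)) : yM (τ + zz G) = yM τ := by
  ext i a
  exact add_zero _

lemma zM_add_zz (τ : TT 2 r ν) (G : Mx 2 ν (Fin r)) : zM (τ + zz G) = zM τ + G := by
  rfl

lemma zz_add (G G' : Mx 2 ν (Fin r)) : zz (G + G') = zz G + zz G' := by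
  exact Prod.ext (add_zero _).symm rfl

lemma zz_zero : zz (0 : Mx 2 ν (Fin r)) = 0 := by
  rfl

lemma rm_add (τ τ' : TT 2 r ν) (g : Mx 2 (Fin r) (Fin r)) : rm (τ + τ') g = rm τ g + rm τ' g := by
  exact (pocB_rm g).map_add τ τ'

lemma rm_zz (G : Mx 2 ν (Fin r)) (g : Mx 2 (Fin r) (Fin r)) : rm (zz G) g = zz (G * g) := by
  exact Prod.ext (funext fun _ => zero_vecMul g) rfl

lemma shr_eq (B : Mx 2 ν ν) (τ : TT 2 r ν) : shr B τ = τ + zz (B * yM τ) := by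
  exact moC_ext (yM_add_zz τ _).symm (zM_shr B τ)

lemma tw_add (v v' : ν → ZMod 2) (c : Fin r → ZMod 2) : tw (v + v') c = tw v c + tw v' c := by
  rw [tw, add_vecMulVec, zz_add]
  rfl

lemma tw_add' (v : ν → ZMod 2) (c c' : Fin r → ZMod 2) : tw v (c + c') = tw v c + tw v c' := by
  rw [tw, vecMulVec_add, zz_add]
  rfl

lemma spn_shr (B : Mx 2 ν ν) (τ : TT 2 r ν) : spn (shr B τ) = (spn τ).map (shv B) := by
  rw [spn_eq, spn_eq, ← LinearMap.range_comp, zM_shr, yM_shr]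
  refine congrArg LinearMap.range (LinearMap.ext fun x => Prod.ext rfl ?_)
  show (zM τ + B * yM τ) *ᵥ x = zM τ *ᵥ x + B *ᵥ (yM τ *ᵥ x)
  rw [add_mulVec, mulVec_mulVec]

lemma map_shv_inj (B : Mx 2 ν ν) : Function.Injective fun Y : SV 2 ν => Y.map (shv B) := by
  refine Submodule.map_injective_of_injective fun q q' e => ?_
  have e1 : q.1 = q'.1 := (congrArg Prod.fst e :)
  have e2 : q.2 + B *ᵥ q.1 = q'.2 + B *ᵥ q'.1 := (congrArg Prod.snd e :)
  rw [e1] at e2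
  exact Prod.ext e1 (add_right_cancel e2)

lemma mem_CY_shv (M N : SymM 2 ν) (Y : SV 2 ν) : M + N ∈ CY (Y.map (shv N.1)) ↔ M ∈ CY Y := by
  have k : ∀ q : (ν → ZMod 2) × (ν → ZMod 2),
      (M + N).1 *ᵥ (shv N.1 q).1 = (shv N.1 q).2 ↔ M.1 *ᵥ q.1 = q.2 := fun q => by
    show (M.1 + N.1) *ᵥ q.1 = q.2 + N.1 *ᵥ q.1 ↔ _
    rw [add_mulVec, add_left_inj]
  refine ⟨fun h q hq => (k q).1 (h _ ⟨q, hq, rfl⟩), fun h => ?_⟩
  rintro _ ⟨q, hq, rfl⟩
  exact (k q).2 (h q hq)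

lemma kill_shv (U : Mx 2 ν J) (B : Mx 2 ν ν) (Y : SV 2 ν) :
    kill U (Y.map (shv B)) ↔ kill U Y := by
  refine ⟨fun h q hq => h (shv B q) ⟨q, hq, rfl⟩, fun h => ?_⟩
  rintro _ ⟨q, hq, rfl⟩
  exact h q hq

lemma kill_spn (U : Mx 2 ν J) (τ : TT 2 r ν) : kill U (spn τ) ↔ Uᵀ * yM τ = 0 := by
  rw [spn_eq]
  constructor
  · intro h
    refine Matrix.ext_of_mulVec_single fun a => ?_
    rw [← mulVec_mulVec, zero_mulVec]
    exact h _ ⟨_, rfl⟩
  · rintro h _ ⟨x, rfl⟩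
    show Uᵀ *ᵥ (yM τ *ᵥ x) = 0
    rw [mulVec_mulVec, h, zero_mulVec]

lemma live_shr (M0 N : SymM 2 ν) (τ : TT 2 r ν) : live M0 (shr N.1 τ) ↔ live (M0 + N) τ := by
  have e : om (shr N.1 τ) (shr N.1 τ) = om τ τ := by
    simp only [om, zM_shr, yM_shr, Matrix.mul_add, transpose_add, Matrix.add_mul, transpose_mul,
      SymM_T, Matrix.mul_assoc]
    abel
  unfold live
  rw [e, zM_shr, yM_shr, Submodule.coe_add, Matrix.add_mul, Matrix.mul_add, Matrix.mul_add]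
  refine and_congr_right fun _ => forall_congr' fun a => ?_
  rw [Matrix.add_apply, Matrix.add_apply]
  generalize ((yM τ)ᵀ * zM τ) a a = x
  generalize ((yM τ)ᵀ * (N.1 * yM τ)) a a = y
  generalize ((yM τ)ᵀ * (M0.1 * yM τ)) a a = z
  revert x y z
  decide

lemma live_rm {M0 : SymM 2 ν} {τ : TT 2 r ν} (h : live M0 τ) (g : Mx 2 (Fin r) (Fin r)) :
    live M0 (rm τ g) := by
  have h1 : (yM τ)ᵀ * zM τ = (zM τ)ᵀ * yM τ := sub_eq_zero.1 h.1
  refine ⟨?_, fun a => ?_⟩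
  · rw [om, moC_y, moC_z, transpose_mul, transpose_mul, Matrix.mul_assoc, Matrix.mul_assoc,
      ← Matrix.mul_assoc (yM τ)ᵀ, ← Matrix.mul_assoc (zM τ)ᵀ, h1, sub_self]
  · have hs : ((yM τ)ᵀ * zM τ - (yM τ)ᵀ * (M0.1 * yM τ))ᵀ =
        (yM τ)ᵀ * zM τ - (yM τ)ᵀ * (M0.1 * yM τ) := by
      rw [transpose_sub, transpose_mul, transpose_mul, transpose_mul, transpose_transpose, SymM_T,
        ← h1, Matrix.mul_assoc]
    have h2 := congrFun (dg_cj gᵀ ⟨_, hs⟩) a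
    have h3 : dg (⟨_, hs⟩ : SymM 2 (Fin r)) = 0 := funext fun b => sub_eq_zero.2 (h.2 b)
    rw [h3, mulVec_zero] at h2
    have h4 : (gᵀ * ((yM τ)ᵀ * zM τ - (yM τ)ᵀ * (M0.1 * yM τ)) * g) a a = 0 := h2
    rw [moC_y, moC_z, ← sub_eq_zero, ← h4, ← Matrix.sub_apply]
    simp only [transpose_mul, Matrix.mul_sub, Matrix.sub_mul, Matrix.mul_assoc]

lemma hit_rm {M : SymM 2 ν} {τ : TT 2 r ν} (h : hit M τ) (g : Mx 2 (Fin r) (Fin r)) :
    hit M (rm τ g) := by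
  unfold hit at *
  rw [moC_y, moC_z, ← Matrix.mul_assoc, h]

/-- density form of the line bound -/
lemma Thin.line {C ξ : ℝ} {S : Finset (TT 2 r ν)} (h : Thin C ξ S) (hξ : 0 ≤ ξ)
    {e : Fin r → ZMod 2} (he : e ≠ 0) (x : TT 2 r ν) :
    Fp.dens {v : ν → ZMod 2 | x + tw v e ∈ S} ≤ ξ := by
  classical
  have hd := dd_pos (p := 2) (ν := ν)
  obtain ⟨a, ha⟩ := Function.ne_iff.1 he
  have h1 : #{v : ν → ZMod 2 | x + tw v e ∈ S} ≤
      #{τ ∈ S | yM τ = yM x ∧ ∃ v, zM τ = zM x + vecMulVec v e} := by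
    refine card_le_card_of_injOn (fun v => x + tw v e) (fun v hv => ?_) fun v _ v' _ k => ?_
    · exact mem_coe.2 (mem_filter.2 ⟨(mem_filter.1 (mem_coe.1 hv)).2, yM_add_zz _ _, v,
        zM_add_zz _ _⟩)
    · have k1 := congrArg zM k
      simp only [tw, zM_add_zz, add_right_inj] at k1
      funext i
      exact mul_right_cancel₀ ha (congrFun (congrFun k1 i) a)
  have h2 := (Nat.cast_le.2 h1).trans (h.lb hξ he (yM x) (zM x))
  have h3 : (Fintype.card (ν → ZMod 2) : ℝ) = dd 2 ν := by simp [dd]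
  rw [dens_eq_card, h3, div_le_iff₀ hd]
  simpa using h2

variable {Bf : (ν → ZMod 2) → Finset (TT 2 r ν)}

lemma TU_thin {C ξ : ℝ} (h : ∀ δ, Thin C ξ (Bf δ)) (δ : ν → ZMod 2) (U : Mx 2 ν J) :
    Thin (Fintype.card (SymM 2 J) * C) (Fintype.card (SymM 2 J) * ξ) (TU Bf δ U) := by
  exact Thin.biUnion univ _ fun N _ => (h _).shear _

lemma TU_live (h : ∀ δ, ∀ τ ∈ Bf δ, Inj (yM τ) ∧ live (Dg δ) τ) (δ : ν → ZMod 2) (U : Mx 2 ν J) :
    ∀ τ ∈ TU Bf δ U, Inj (yM τ) ∧ live (Dg δ) τ := by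
  intro τ hτ
  obtain ⟨N, -, k⟩ := mem_biUnion.1 hτ
  obtain ⟨σ, hσ, rfl⟩ := mem_image.1 k
  refine ⟨(h _ σ hσ).1, (live_shr _ _ _).2 ((live_base (fun i => ?_) σ).1 (h _ σ hσ).2)⟩
  have e := congrFun (dg_cj U N) i
  show Matrix.diagonal _ i i = Matrix.diagonal δ i i + dg (cj U N) i
  rw [diagonal_apply_eq, diagonal_apply_eq, e]
  rfl

open Classical in
lemma sub_SU (δ : ν → ZMod 2) (U : Mx 2 ν J) : (Bf δ).image spn ⊆ SU Bf δ U := by
  refine image_subset_image fun τ hτ => mem_biUnion.2 ⟨0, mem_univ _, mem_image.2 ⟨τ, ?_, ?_⟩⟩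
  · have e : U *ᵥ dg (0 : SymM 2 J) = 0 := mulVec_zero U
    rwa [e, add_zero]
  · refine moC_ext rfl ?_
    rw [zM_shr]
    simp [cj]

lemma ptc_mem_SU {δ : ν → ZMod 2} {U : Mx 2 ν J} {Y : SV 2 ν} : Y ∈ SU Bf δ U ↔
    ∃ N : SymM 2 J, ∃ τ ∈ Bf (δ + U *ᵥ dg N), spn (shr (cj U N).1 τ) = Y := by
  classical
  constructor
  · intro h
    obtain ⟨σ, hσ, e⟩ := mem_image.1 h
    obtain ⟨N, -, k⟩ := mem_biUnion.1 hσ
    obtain ⟨τ, hτ, e'⟩ := mem_image.1 k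
    exact ⟨N, τ, hτ, e' ▸ e⟩
  · rintro ⟨N, τ, hτ, e⟩
    exact mem_image.2 ⟨_, mem_biUnion.2 ⟨N, mem_univ _, mem_image_of_mem _ hτ⟩, e⟩

lemma ptc_key (U : Mx 2 ν J) (N₁ N₂ : SymM 2 J) (τ : TT 2 r ν) :
    spn (shr (cj U (N₁ + N₂)).1 τ) = (spn (shr (cj U N₁).1 τ)).map (shv (cj U N₂).1) := by
  have e : shr (cj U (N₁ + N₂)).1 τ = shr (cj U N₂).1 (shr (cj U N₁).1 τ) := by
    refine moC_ext (by rw [yM_shr, yM_shr, yM_shr]) ?_
    rw [zM_shr, zM_shr, zM_shr, yM_shr, cj_add, Submodule.coe_add, Matrix.add_mul, add_assoc]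
  rw [e, spn_shr]

open Classical in
lemma SU_tile (δ : ν → ZMod 2) (U : Mx 2 ν J) (N : SymM 2 J) :
    SU Bf (δ + U *ᵥ dg N) U = (SU Bf δ U).image fun Y => Y.map (shv (cj U N).1) := by
  have two : ∀ N₁ : SymM 2 J, N₁ + N + N = N₁ := fun N₁ => by
    rw [add_assoc, l0_add_self, add_zero]
  have e1 : ∀ N₁ : SymM 2 J, δ + U *ᵥ dg (N₁ + N) = δ + U *ᵥ dg N + U *ᵥ dg N₁ := fun N₁ => by
    rw [dg_add, mulVec_add, add_comm (U *ᵥ dg N₁), add_assoc]
  ext Y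
  rw [mem_image, ptc_mem_SU]
  constructor
  · rintro ⟨N₁, τ, hτ, h⟩
    refine ⟨spn (shr (cj U (N₁ + N)).1 τ), ptc_mem_SU.2 ⟨N₁ + N, τ, ?_, rfl⟩, ?_⟩
    · rw [e1]
      exact hτ
    · rw [← ptc_key, two, h]
  · rintro ⟨Z, hZ, h⟩
    obtain ⟨N₁, τ, hτ, k⟩ := ptc_mem_SU.1 hZ
    refine ⟨N₁ + N, τ, ?_, ?_⟩
    · rw [← e1, two]
      exact hτ
    · rw [ptc_key, k, h]

lemma SU_hit {M : SymM 2 ν} {U : Mx 2 ν J} {N : SymM 2 J} {τ : TT 2 r ν}
    (h1 : τ ∈ Bf (dg (M + cj U N))) (h2 : hit (M + cj U N) τ) :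
    ∃ Y ∈ SU Bf (dg M) U, M ∈ CY Y ∧ (kill U Y → Uᵀ * yM τ = 0) := by
  classical
  refine ⟨spn (shr (cj U N).1 τ), mem_image_of_mem _ (mem_biUnion.2 ⟨N, mem_univ _,
    mem_image_of_mem _ ?_⟩), ?_, fun k => (kill_spn U (shr (cj U N).1 τ)).1 k⟩
  · rwa [dg_add, dg_cj] at h1
  · have k := (hit_shr (M + cj U N) (cj U N) τ).2 h2
    rw [add_assoc, l0_add_self, add_zero] at k
    exact (hit_iff _ _).1 k

end Pool.Agent.Work.MP_4523ee_co.F2.Mo
end

-- merged part: Pool.Agent.Work.MP_4523ee_co.F2.PtD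
section
/-!
Poisson tile: equidistribution and common part.
-/

set_option autoImplicit false
set_option linter.unusedSectionVars false

namespace Pool.Agent.Work.MP_4523ee_co.F2.Mo

open Finset Matrix Pool.Agent.Work.MP_4523ee_co.Fp Pool.Agent.Work.MP_4523ee_co.Fp.Po
open scoped BigOperators ComplexConjugate

section
variable {ν J : Type} [Fintype ν] [DecidableEq ν] [Fintype J] [DecidableEq J] {r : ℕ}

open Classical in
/-- centred indicator of `kill` -/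
noncomputable def ps (r : ℕ) (U : Mx 2 ν J) (Y : SV 2 ν) : ℝ :=
  if kill U Y then 2 ^ (Fintype.card J * r) - 1 else -1

lemma eqd_swap {Ω α : Type} [Fintype Ω] (s : Finset α) (a : Ω → α → ℝ) :
    𝔼 U, 𝔼 U', (∑ Y ∈ s, a U Y * a U' Y) ^ 2 = ∑ Y ∈ s, ∑ Y' ∈ s, (𝔼 U, a U Y * a U Y') ^ 2 := by
  simp only [sq, sum_mul_sum, expect_sum_comm, expect_mul_expect]
  refine sum_congr rfl fun Y _ => sum_congr rfl fun Y' _ => expect_congr rfl fun U _ =>
    expect_congr rfl fun U' _ => ?_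
  ring

lemma eqd_dens {κ : Type} [Fintype κ] [DecidableEq κ] (Y : Mx 2 ν κ) (hY : Inj Y) :
    Fp.dens {U : Mx 2 ν J | Uᵀ * Y = 0} = ((2 : ℝ) ^ (Fintype.card J * Fintype.card κ))⁻¹ := by
  obtain ⟨L, hL⟩ := pa_left Y hY
  let f : Mx 2 ν J →ₗ[ZMod 2] Mx 2 J κ :=
    { toFun := fun U => Uᵀ * Y
      map_add' := fun a b => by rw [transpose_add, Matrix.add_mul]
      map_smul' := fun c a => by rw [transpose_smul, Matrix.smul_mul, RingHom.id_apply] }
  have hf : Function.Surjective f := fun A => ⟨(A * L)ᵀ, by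
    show (A * L)ᵀᵀ * Y = A
    rw [transpose_transpose, Matrix.mul_assoc, hL, Matrix.mul_one]⟩
  have h1 := dens_fibre_surj f hf 0
  rw [pa_card_Mx] at h1
  push_cast at h1
  exact h1

lemma eqd_ps (U : Mx 2 ν J) (τ : TT 2 r ν) : ps r U (spn τ) =
    2 ^ (Fintype.card J * r) * ind {U : Mx 2 ν J | Uᵀ * yM τ = 0} U - 1 := by
  unfold ps
  split_ifs with h
  · rw [ind_of_mem (show U ∈ {U : Mx 2 ν J | Uᵀ * yM τ = 0} from (kill_spn U τ).1 h), mul_one]
  · rw [ind_of_not (show U ∉ {U : Mx 2 ν J | Uᵀ * yM τ = 0} from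
      fun k => h ((kill_spn U τ).2 k)), mul_zero, zero_sub]

lemma eqd_abs (U : Mx 2 ν J) (Y : SV 2 ν) : |ps r U Y| ≤ 2 ^ (Fintype.card J * r) := by
  have h1 : (1 : ℝ) ≤ 2 ^ (Fintype.card J * r) := one_le_pow₀ (by norm_num)
  unfold ps
  split_ifs
  · rw [abs_of_nonneg (by linarith)]
    linarith
  · rwa [abs_neg, abs_one]

lemma eqd_zero {τ τ' : TT 2 r ν} (h1 : Inj (yM τ)) (h2 : Inj (yM τ'))
    (h : Inj (fromCols (yM τ) (yM τ'))) :
    𝔼 U : Mx 2 ν J, ps r U (spn τ) * ps r U (spn τ') = 0 := by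
  have e : {U : Mx 2 ν J | Uᵀ * fromCols (yM τ) (yM τ') = 0} =
      {U : Mx 2 ν J | Uᵀ * yM τ = 0} ∩ {U : Mx 2 ν J | Uᵀ * yM τ' = 0} := by
    ext U
    show Uᵀ * fromCols (yM τ) (yM τ') = 0 ↔ Uᵀ * yM τ = 0 ∧ Uᵀ * yM τ' = 0
    rw [mul_fromCols, ← fromCols_zero, fromCols_ext_iff]
  have a1 := eqd_dens (J := J) _ h1
  have a2 := eqd_dens (J := J) _ h2
  have a3 := eqd_dens (J := J) _ h
  rw [e, Fintype.card_sum, mul_add, pow_add] at a3
  rw [Fintype.card_fin] at a1 a2 a3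
  obtain ⟨x, hx⟩ : ∃ x : ℝ, x = 2 ^ (Fintype.card J * r) := ⟨_, rfl⟩
  have hx0 : x ≠ 0 := by
    rw [hx]
    positivity
  have e2 : ∀ U : Mx 2 ν J, ps r U (spn τ) * ps r U (spn τ') =
      x * x * ind ({U : Mx 2 ν J | Uᵀ * yM τ = 0} ∩ {U : Mx 2 ν J | Uᵀ * yM τ' = 0}) U -
        x * ind {U : Mx 2 ν J | Uᵀ * yM τ = 0} U - x * ind {U : Mx 2 ν J | Uᵀ * yM τ' = 0} U +
        1 := fun U => by
    rw [eqd_ps, eqd_ps, ind_inter, ← hx]
    ring
  unfold Fp.dens at a1 a2 a3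
  rw [← hx] at a1 a2 a3
  rw [expect_congr rfl fun U _ => e2 U, expect_add_distrib, expect_sub_distrib,
    expect_sub_distrib, ← mul_expect, ← mul_expect, ← mul_expect, a1, a2, a3,
    expect_const univ_nonempty]
  field_simp
  ring

open Classical in
lemma eqd_pair {τ τ' : TT 2 r ν} (h1 : Inj (yM τ)) (h2 : Inj (yM τ')) :
    (𝔼 U : Mx 2 ν J, ps r U (spn τ) * ps r U (spn τ')) ^ 2 ≤
      2 ^ (4 * (Fintype.card J * r)) * ∑ c : (Fin r → ZMod 2) × (Fin r → ZMod 2),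
        if c.1 ≠ 0 ∧ yM τ *ᵥ c.1 = -(yM τ' *ᵥ c.2) then (1 : ℝ) else 0 := by
  by_cases h : Inj (fromCols (yM τ) (yM τ'))
  · rw [eqd_zero h1 h2 h, sq, mul_zero]
    exact mul_nonneg (by positivity) (sum_nonneg fun c _ => by split_ifs <;> norm_num)
  · have a1 : ∃ c : (Fin r → ZMod 2) × (Fin r → ZMod 2),
        c.1 ≠ 0 ∧ yM τ *ᵥ c.1 = -(yM τ' *ᵥ c.2) := by
      by_contra hn
      refine h ((injective_iff_map_eq_zero (fromCols (yM τ) (yM τ')).mulVecLin).2 fun v hv => ?_)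
      have hv' : yM τ *ᵥ (v ∘ Sum.inl) + yM τ' *ᵥ (v ∘ Sum.inr) = 0 :=
        (fromCols_mulVec _ _ _).symm.trans hv
      have b1 : v ∘ Sum.inl = 0 := by
        by_contra k
        exact hn ⟨(v ∘ Sum.inl, v ∘ Sum.inr), k, eq_neg_of_add_eq_zero_left hv'⟩
      rw [b1, mulVec_zero, zero_add] at hv'
      have b2 : v ∘ Sum.inr = 0 := h2 (hv'.trans (mulVec_zero _).symm)
      funext i
      rcases i with i | i
      · exact congrFun b1 i
      · exact congrFun b2 i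
    obtain ⟨c, hc⟩ := a1
    have a2 : (1 : ℝ) ≤ ∑ c : (Fin r → ZMod 2) × (Fin r → ZMod 2),
        if c.1 ≠ 0 ∧ yM τ *ᵥ c.1 = -(yM τ' *ᵥ c.2) then (1 : ℝ) else 0 := by
      refine le_trans (le_of_eq (if_pos hc).symm) (single_le_sum (f := fun c : (Fin r → ZMod 2) ×
        (Fin r → ZMod 2) => if c.1 ≠ 0 ∧ yM τ *ᵥ c.1 = -(yM τ' *ᵥ c.2) then (1 : ℝ) else 0)
        (fun c _ => ?_) (mem_univ c))
      split_ifs <;> norm_num
    have a3 : |𝔼 U : Mx 2 ν J, ps r U (spn τ) * ps r U (spn τ')| ≤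
        2 ^ (Fintype.card J * r) * 2 ^ (Fintype.card J * r) := by
      refine (abs_expect_le _ _).trans (expect_le univ_nonempty fun U _ => ?_)
      rw [abs_mul]
      exact mul_le_mul (eqd_abs _ _) (eqd_abs _ _) (abs_nonneg _) (by positivity)
    calc _ = |𝔼 U : Mx 2 ν J, ps r U (spn τ) * ps r U (spn τ')| ^ 2 := (sq_abs _).symm
      _ ≤ (2 ^ (Fintype.card J * r) * 2 ^ (Fintype.card J * r)) ^ 2 := by gcongr
      _ = 2 ^ (4 * (Fintype.card J * r)) * 1 := by ring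
      _ ≤ _ := by gcongr

open Classical in
/-- equidistribution -/
theorem EQD {C ξ : ℝ} {S : Finset (TT 2 r ν)} (h : Thin C ξ S) (hξ : 0 ≤ ξ)
    (hS : ∀ τ ∈ S, Inj (yM τ)) :
    𝔼 U : Mx 2 ν J, 𝔼 U' : Mx 2 ν J, (∑ Y ∈ S.image spn, ps r U Y * ps r U' Y) ^ 2 ≤
      2 ^ (4 * (Fintype.card J * r) + 2 * r) * C * ξ * (dd 2 ν ^ r) ^ 2 := by
  obtain ⟨T, hT, h1, h2⟩ := exists_reps S
  have e : S.image spn = T.image spn := by
    refine Subset.antisymm (fun Y hY => ?_) (image_subset_image hT)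
    obtain ⟨τ, hτ, rfl⟩ := mem_image.1 hY
    obtain ⟨τ', a, b⟩ := h2 τ hτ
    exact mem_image.2 ⟨τ', a, b⟩
  have hy := (h.yf hξ).mono le_rfl hT
  have hc : (#T : ℝ) ≤ C * dd 2 ν ^ r := (Nat.cast_le.2 (card_le_card hT)).trans h.card
  have hd : 0 ≤ ξ * dd 2 ν ^ r := mul_nonneg hξ (pow_pos dd_pos _).le
  rw [eqd_swap, e, sum_image h1]
  simp only [sum_image h1]
  refine (sum_le_sum fun τ a => sum_le_sum fun τ' b =>
    eqd_pair (hS τ (hT a)) (hS τ' (hT b))).trans ?_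
  simp only [← mul_sum]
  rw [sum_comm]
  have a1 : ∀ τ' ∈ T, ∑ τ ∈ T, ∑ c : (Fin r → ZMod 2) × (Fin r → ZMod 2),
      (if c.1 ≠ 0 ∧ yM τ *ᵥ c.1 = -(yM τ' *ᵥ c.2) then (1 : ℝ) else 0) ≤
      2 ^ (2 * r) * (ξ * dd 2 ν ^ r) := by
    intro τ' _
    rw [sum_comm]
    refine (sum_le_card_nsmul _ _ (ξ * dd 2 ν ^ r) fun c _ => ?_).trans (le_of_eq ?_)
    · by_cases k : c.1 = 0
      · simpa [k] using hd
      · simpa [k] using hy c.1 k (-(yM τ' *ᵥ c.2))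
    · rw [nsmul_eq_mul, card_univ, Fintype.card_prod, Fintype.card_fun, ZMod.card,
        Fintype.card_fin]
      push_cast
      ring
  calc _ ≤ 2 ^ (4 * (Fintype.card J * r)) * (#T * (2 ^ (2 * r) * (ξ * dd 2 ν ^ r))) := by
        refine mul_le_mul_of_nonneg_left ((sum_le_card_nsmul _ _ _ a1).trans (le_of_eq ?_))
          (by positivity)
        rw [nsmul_eq_mul]
    _ ≤ 2 ^ (4 * (Fintype.card J * r)) * (C * dd 2 ν ^ r * (2 ^ (2 * r) * (ξ * dd 2 ν ^ r))) := by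
        gcongr
    _ = _ := by ring

lemma ptdB_one {κ : Type} {ζ : κ → ZMod 2} (h : ζ ≠ 0) : ∃ i, ζ i = 1 := by
  obtain ⟨i, hi⟩ := Function.ne_iff.1 h
  refine ⟨i, ?_⟩
  have k : ∀ x : ZMod 2, x ≠ 0 → x = 1 := by decide
  exact k _ hi

lemma col_of_perp {κ : Type} [Fintype κ] [DecidableEq κ] (ζ : κ → ZMod 2) (γ : Mx 2 κ (Fin r))
    (h : ∀ a : κ → ZMod 2, a ⬝ᵥ ζ = 0 → a ᵥ* γ = 0) : ∃ c, γ = vecMulVec ζ c := by
  by_cases h0 : ζ = 0
  · refine ⟨0, ?_⟩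
    ext i a
    have k := congrFun (h (Pi.single i 1) (by rw [h0, dotProduct_zero])) a
    simpa [vecMulVec_apply] using k
  · obtain ⟨i0, hi⟩ := ptdB_one h0
    refine ⟨γ i0, ?_⟩
    ext i a
    have k := congrFun (h (Pi.single i 1 - ζ i • Pi.single i0 1)
      (by simp [sub_dotProduct, hi])) a
    rw [sub_vecMul, smul_vecMul, single_one_vecMul, single_one_vecMul] at k
    rw [vecMulVec_apply, ← sub_eq_zero]
    exact k

variable {Bf : (ν → ZMod 2) → Finset (TT 2 r ν)}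

lemma ptdB_shift {A : Type} [AddCommGroup A] [Fintype A] (f : A → ℝ) (a : A) :
    𝔼 x, f (x + a) = 𝔼 x, f x :=
  Fintype.expect_equiv (Equiv.addRight a) _ _ fun _ => rfl

lemma ptdB_self (v : ν → ZMod 2) : v + v = 0 := by
  funext i
  exact CharTwo.add_self_eq_zero (v i)

lemma ptdB_unif {t : J → ZMod 2} (ht : t ≠ 0) (δ : ν → ZMod 2) (f : (ν → ZMod 2) → ℝ) :
    𝔼 U : Mx 2 ν J, f (δ + U *ᵥ t) = 𝔼 v, f v := by
  obtain ⟨i, hi⟩ := ptdB_one ht
  have e : ∀ x : ν → ZMod 2, 𝔼 U : Mx 2 ν J, f (δ + U *ᵥ t) =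
      𝔼 U : Mx 2 ν J, f (x + (δ + U *ᵥ t)) := fun x => by
    rw [← ptdB_shift (fun U : Mx 2 ν J => f (δ + U *ᵥ t)) (vecMulVec x (Pi.single i 1))]
    refine Finset.expect_congr rfl fun U _ => ?_
    rw [add_mulVec, vecMulVec_mulVec, single_one_dotProduct, hi, MulOpposite.op_one, one_smul,
      ← add_assoc, add_comm]
  calc 𝔼 U : Mx 2 ν J, f (δ + U *ᵥ t)
      = 𝔼 _x : ν → ZMod 2, 𝔼 U : Mx 2 ν J, f (δ + U *ᵥ t) := (Fintype.expect_const _).symm
    _ = 𝔼 x : ν → ZMod 2, 𝔼 U : Mx 2 ν J, f (x + (δ + U *ᵥ t)) :=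
        Finset.expect_congr rfl fun x _ => e x
    _ = 𝔼 U : Mx 2 ν J, 𝔼 x : ν → ZMod 2, f (x + (δ + U *ᵥ t)) := Finset.expect_comm _ _ _
    _ = 𝔼 _U : Mx 2 ν J, 𝔼 v, f v := Finset.expect_congr rfl fun U _ => ptdB_shift f _
    _ = 𝔼 v, f v := Fintype.expect_const _

lemma ptdB_avg {A B D E : Type} [AddCommGroup A] [Fintype A] [AddCommGroup B] [Fintype B]
    [AddCommGroup D] [Fintype D] [Fintype E] [Nonempty E] (F : A → B → D → ℝ) (α : E → A)
    (β : E → B) (γ : E → D) {K : ℝ}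
    (h : ∀ a b d, 𝔼 x, F (a + α x) (b + β x) (d + γ x) ≤ K) :
    𝔼 a, 𝔼 b, 𝔼 d, F a b d ≤ K := by
  have e : ∀ x, 𝔼 a, 𝔼 b, 𝔼 d, F a b d = 𝔼 a, 𝔼 b, 𝔼 d, F (a + α x) (b + β x) (d + γ x) := by
    intro x
    rw [← ptdB_shift (fun a => 𝔼 b, 𝔼 d, F a b d) (α x)]
    refine Finset.expect_congr rfl fun a _ => ?_
    rw [← ptdB_shift (fun b => 𝔼 d, F (a + α x) b d) (β x)]
    exact Finset.expect_congr rfl fun b _ => (ptdB_shift (F (a + α x) (b + β x)) (γ x)).symm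
  rw [← Fintype.expect_const (ι := E) (𝔼 a, 𝔼 b, 𝔼 d, F a b d),
    Finset.expect_congr rfl fun x _ => e x, Finset.expect_comm]
  refine Finset.expect_le univ_nonempty fun a _ => ?_
  rw [Finset.expect_comm]
  refine Finset.expect_le univ_nonempty fun b _ => ?_
  rw [Finset.expect_comm]
  exact Finset.expect_le univ_nonempty fun d _ => h a b d

lemma ptdB_line {C ξ : ℝ} {S S' : Finset (TT 2 r ν)} (h : Thin C ξ S) (h' : Thin C ξ S')
    (hξ : 0 ≤ ξ) {e : Fin r → ZMod 2} (he : e ≠ 0) (φ : TT 2 r ν → TT 2 r ν) :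
    𝔼 x : ν → ZMod 2, (#{τ ∈ S | φ τ + tw x e ∈ S'} : ℝ) ≤ C * ξ * dd 2 ν ^ r := by
  have e1 : ∀ x : ν → ZMod 2, (#{τ ∈ S | φ τ + tw x e ∈ S'} : ℝ) =
      ∑ τ ∈ S, Fp.ind {v : ν → ZMod 2 | φ τ + tw v e ∈ S'} x := fun x => by
    rw [Finset.card_filter, Nat.cast_sum]
    refine Finset.sum_congr rfl fun τ _ => ?_
    by_cases k : φ τ + tw x e ∈ S' <;> simp [Fp.ind, k]
  rw [Finset.expect_congr rfl fun x _ => e1 x, Finset.expect_sum_comm]
  refine (Finset.sum_le_sum fun τ _ => h'.line hξ he (φ τ)).trans ?_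
  rw [Finset.sum_const, nsmul_eq_mul, mul_right_comm]
  exact mul_le_mul_of_nonneg_right h.card hξ

open Classical in
/-- one pattern of coincidences -/
lemma COM1 {C ξ : ℝ} (h : ∀ δ, Thin C ξ (Bf δ)) (hC : 1 ≤ C) (hξ : 0 ≤ ξ) (hw : TW ξ Bf)
    (t t' : J → ZMod 2) {g : Mx 2 (Fin r) (Fin r)} (hg : Inj g) (γ γ' : Mx 2 J (Fin r)) :
    𝔼 δ : ν → ZMod 2, 𝔼 U : Mx 2 ν J, 𝔼 U' : Mx 2 ν J,
      (#{τ ∈ Bf (δ + U *ᵥ t) | rm τ g + zz (U * γ + U' * γ') ∈ Bf (δ + U' *ᵥ t') ∧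
        live (Dg δ) (rm τ g + zz (U * γ)) ∧ spn (rm τ g + zz (U * γ)) ∉ (Bf δ).image spn} : ℝ) ≤
      C * ξ * dd 2 ν ^ r := by
  have hd : 0 < dd 2 ν ^ r := pow_pos dd_pos r
  by_cases hA : ∃ a a' : J → ZMod 2, a ⬝ᵥ t + a' ⬝ᵥ t' = 0 ∧ a ᵥ* γ + a' ᵥ* γ' ≠ 0
  · obtain ⟨a, a', h0, he⟩ := hA
    refine ptdB_avg (E := ν → ZMod 2) _ (fun x => (a ⬝ᵥ t) • x) (fun x => vecMulVec x a)
      (fun x => vecMulVec x a') fun δ U U' => ?_
    refine le_trans (Finset.expect_le_expect fun x _ => ?_) (ptdB_line (h (δ + U *ᵥ t))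
      (h (δ + U' *ᵥ t')) hξ he fun τ => rm τ g + zz (U * γ + U' * γ'))
    have e1 : δ + (a ⬝ᵥ t) • x + (U + vecMulVec x a) *ᵥ t = δ + U *ᵥ t := by
      rw [add_mulVec, vecMulVec_mulVec, op_smul_eq_smul, add_add_add_comm, ptdB_self, add_zero]
    have e2 : δ + (a ⬝ᵥ t) • x + (U' + vecMulVec x a') *ᵥ t' = δ + U' *ᵥ t' := by
      rw [add_mulVec, vecMulVec_mulVec, op_smul_eq_smul, add_add_add_comm, ← add_smul, h0,
        zero_smul, add_zero]
    have e3 : (U + vecMulVec x a) * γ + (U' + vecMulVec x a') * γ' =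
        U * γ + U' * γ' + vecMulVec x (a ᵥ* γ + a' ᵥ* γ') := by
      rw [Matrix.add_mul, Matrix.add_mul, vecMulVec_mul, vecMulVec_mul, vecMulVec_add,
        add_add_add_comm]
    refine Nat.cast_le.2 (Finset.card_le_card fun τ hτ => ?_)
    rw [Finset.mem_filter] at hτ ⊢
    rw [e1, e2, e3, zz_add, ← add_assoc] at hτ
    exact ⟨hτ.1, hτ.2.1⟩
  obtain ⟨c, hc⟩ := col_of_perp (Sum.elim t t') (fromRows γ γ') fun a ha => by
    by_contra k
    refine hA ⟨a ∘ Sum.inl, a ∘ Sum.inr, ?_, ?_⟩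
    · rw [← ha, ← sumElim_dotProduct_sumElim, Sum.elim_comp_inl_inr]
    · rwa [← sumElim_vecMul_fromRows, Sum.elim_comp_inl_inr]
  have g1 : γ = vecMulVec t c := by
    ext i a
    exact congrFun (congrFun hc (Sum.inl i)) a
  have g2 : γ' = vecMulVec t' c := by
    ext i a
    exact congrFun (congrFun hc (Sum.inr i)) a
  have hK : 0 ≤ C * ξ * dd 2 ν ^ r := by positivity
  by_cases ht : t = 0
  · refine Finset.expect_le univ_nonempty fun δ _ => Finset.expect_le univ_nonempty fun U _ =>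
      Finset.expect_le univ_nonempty fun U' _ => ?_
    rw [Finset.filter_eq_empty_iff.2, Finset.card_empty, Nat.cast_zero]
    · exact hK
    · intro τ hτ k
      rw [ht, mulVec_zero, add_zero] at hτ
      refine k.2.2 (Finset.mem_image.2 ⟨τ, hτ, ?_⟩)
      rw [g1, ht, zero_vecMulVec, Matrix.mul_zero, zz_zero, add_zero, spn_rm τ hg]
  by_cases ht' : t' = 0
  · refine Finset.expect_le univ_nonempty fun δ _ => Finset.expect_le univ_nonempty fun U _ =>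
      Finset.expect_le univ_nonempty fun U' _ => ?_
    rw [Finset.filter_eq_empty_iff.2, Finset.card_empty, Nat.cast_zero]
    · exact hK
    · intro τ _ k
      refine k.2.2 (Finset.mem_image_of_mem _ ?_)
      have k1 := k.1
      rwa [g2, ht', zero_vecMulVec, Matrix.mul_zero, mulVec_zero, add_zero, add_zero] at k1
  refine le_trans (le_of_eq ?_) ((hw g hg c).trans ?_)
  · refine Finset.expect_congr rfl fun δ _ => Eq.trans ?_ (ptdB_unif ht δ _)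
    refine Finset.expect_congr rfl fun U _ => Eq.trans ?_ (ptdB_unif ht' δ _)
    refine Finset.expect_congr rfl fun U' _ => ?_
    have e1 : δ + (δ + U *ᵥ t) = U *ᵥ t := by rw [← add_assoc, ptdB_self, zero_add]
    have e2 : δ + U *ᵥ t + (δ + U' *ᵥ t') = U *ᵥ t + U' *ᵥ t' := by
      rw [add_add_add_comm, ptdB_self, zero_add]
    refine congrArg Nat.cast (congrArg Finset.card (Finset.ext fun τ => ?_))
    rw [Finset.mem_filter, Finset.mem_filter, e1, e2, g1, g2, mul_vecMulVec, mul_vecMulVec,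
      ← add_vecMulVec]
    rfl
  · rw [mul_assoc]
    exact le_mul_of_one_le_left (by positivity) hC

open Classical in
lemma ptdB_mem (hl : ∀ δ, ∀ τ ∈ Bf δ, Inj (yM τ) ∧ live (Dg δ) τ) {δ : ν → ZMod 2}
    {U U' : Mx 2 ν J} {Y : SV 2 ν} (h1 : Y ∈ SU Bf δ U) (h2 : Y ∈ SU Bf δ U') :
    ∃ (t t' : J → ZMod 2) (g : Mx 2 (Fin r) (Fin r)) (γ γ' : Mx 2 J (Fin r)) (τ : TT 2 r ν),
      Inj g ∧ τ ∈ Bf (δ + U *ᵥ t) ∧ rm τ g + zz (U * γ + U' * γ') ∈ Bf (δ + U' *ᵥ t') ∧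
      live (Dg δ) (rm τ g + zz (U * γ)) ∧ spn (rm τ g + zz (U * γ)) = Y := by
  obtain ⟨σ, hσ, e1⟩ := Finset.mem_image.1 h1
  obtain ⟨σ', hσ', e2⟩ := Finset.mem_image.1 h2
  obtain ⟨k1, k2⟩ := TU_live hl δ U' σ' hσ'
  obtain ⟨g, hg, e⟩ := (spn_eq_iff k1).1 (e2.trans e1.symm)
  obtain ⟨N, -, hN⟩ := Finset.mem_biUnion.1 hσ
  obtain ⟨τ, hτ, rfl⟩ := Finset.mem_image.1 hN
  obtain ⟨N', -, hN'⟩ := Finset.mem_biUnion.1 hσ'
  obtain ⟨τ', hτ', e'⟩ := Finset.mem_image.1 hN'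
  have e3 : σ' = rm τ g + zz (U * (N.1 * Uᵀ * yM τ * g)) := by
    rw [e, shr_eq, rm_add, rm_zz]
    show _ + zz (U * N.1 * Uᵀ * yM τ * g) = _
    simp only [Matrix.mul_assoc]
  have e4 : σ' = τ' + zz (U' * (N'.1 * U'ᵀ * yM τ')) := by
    rw [← e', shr_eq]
    show _ + zz (U' * N'.1 * U'ᵀ * yM τ') = _
    simp only [Matrix.mul_assoc]
  refine ⟨dg N, dg N', g, N.1 * Uᵀ * yM τ * g, N'.1 * U'ᵀ * yM τ', τ, hg, hτ, ?_, e3 ▸ k2,
    e3 ▸ e2⟩
  rwa [zz_add, ← add_assoc, ← e3, e4, add_assoc, tt_add_self, add_zero]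

open Classical in
/-- the common part of two tiles -/
theorem COM {C ξ : ℝ} (h : ∀ δ, Thin C ξ (Bf δ)) (hC : 1 ≤ C) (hξ : 0 ≤ ξ) (hw : TW ξ Bf)
    (hl : ∀ δ, ∀ τ ∈ Bf δ, Inj (yM τ) ∧ live (Dg δ) τ) :
    𝔼 δ : ν → ZMod 2, 𝔼 U : Mx 2 ν J, 𝔼 U' : Mx 2 ν J,
      (#((SU Bf δ U ∩ SU Bf δ U') \ (Bf δ).image spn) : ℝ) ≤
      2 ^ (2 * Fintype.card J + r ^ 2 + 2 * (Fintype.card J * r)) * (C * ξ * dd 2 ν ^ r) := by
  have hd : 0 < dd 2 ν ^ r := pow_pos dd_pos r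
  let s : Finset ((J → ZMod 2) × (J → ZMod 2) × Mx 2 (Fin r) (Fin r) × Mx 2 J (Fin r) ×
    Mx 2 J (Fin r)) := univ.filter fun q => Inj q.2.2.1
  let F := fun (q : (J → ZMod 2) × (J → ZMod 2) × Mx 2 (Fin r) (Fin r) × Mx 2 J (Fin r) ×
      Mx 2 J (Fin r)) (δ : ν → ZMod 2) (U U' : Mx 2 ν J) =>
    ({τ ∈ Bf (δ + U *ᵥ q.1) | rm τ q.2.2.1 + zz (U * q.2.2.2.1 + U' * q.2.2.2.2) ∈
      Bf (δ + U' *ᵥ q.2.1) ∧ live (Dg δ) (rm τ q.2.2.1 + zz (U * q.2.2.2.1)) ∧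
      spn (rm τ q.2.2.1 + zz (U * q.2.2.2.1)) ∉ (Bf δ).image spn} : Finset (TT 2 r ν))
  have h1 : ∀ δ U U', (#((SU Bf δ U ∩ SU Bf δ U') \ (Bf δ).image spn) : ℝ) ≤
      ∑ q ∈ s, (#(F q δ U U') : ℝ) := fun δ U U' => by
    rw [← Nat.cast_sum, Nat.cast_le]
    refine le_trans (Finset.card_le_card (t := s.biUnion fun q => (F q δ U U').image
      fun τ => spn (rm τ q.2.2.1 + zz (U * q.2.2.2.1))) fun Y hY => ?_)
      (Finset.card_biUnion_le.trans (Finset.sum_le_sum fun q _ => Finset.card_image_le))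
    rw [Finset.mem_sdiff, Finset.mem_inter] at hY
    obtain ⟨t, t', g, γ, γ', τ, k1, k2, k3, k4, k5⟩ := ptdB_mem hl hY.1.1 hY.1.2
    exact Finset.mem_biUnion.2 ⟨(t, t', g, γ, γ'), Finset.mem_filter.2 ⟨mem_univ _, k1⟩,
      Finset.mem_image.2 ⟨τ, Finset.mem_filter.2 ⟨k2, k3, k4, k5 ▸ hY.2⟩, k5⟩⟩
  have h2 : (#s : ℝ) ≤ 2 ^ (2 * Fintype.card J + r ^ 2 + 2 * (Fintype.card J * r)) := by
    have k : #s ≤ 2 ^ (2 * Fintype.card J + r ^ 2 + 2 * (Fintype.card J * r)) := by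
      refine (Finset.card_le_univ s).trans (le_of_eq ?_)
      simp only [Fintype.card_prod, Matrix, Fintype.card_pi, ZMod.card, Finset.prod_const,
        Finset.card_univ, Fintype.card_fin]
      ring
    exact_mod_cast k
  refine (Finset.expect_le_expect fun δ _ => Finset.expect_le_expect fun U _ =>
    Finset.expect_le_expect fun U' _ => h1 δ U U').trans ?_
  simp only [Finset.expect_sum_comm]
  refine (Finset.sum_le_sum fun q hq => COM1 h hC hξ hw q.1 q.2.1 (Finset.mem_filter.1 hq).2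
    q.2.2.2.1 q.2.2.2.2).trans ?_
  rw [Finset.sum_const, nsmul_eq_mul]
  exact mul_le_mul_of_nonneg_right h2 (by positivity)

end

end Pool.Agent.Work.MP_4523ee_co.F2.Mo
end

-- merged part: Pool.Agent.Work.MP_4523ee_co.F2.PtE
section
/-!
Poisson tile with marginal one.
-/

set_option autoImplicit false
set_option linter.unusedSectionVars false

namespace Pool.Agent.Work.MP_4523ee_co.F2.Mo

open Finset Matrix Pool.Agent.Work.MP_4523ee_co.Fp Pool.Agent.Work.MP_4523ee_co.Fp.Po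
open scoped BigOperators ComplexConjugate

section
variable {ν J : Type} [Fintype ν] [DecidableEq ν] [Fintype J] [DecidableEq J] {r : ℕ}
variable {Bf : (ν → ZMod 2) → Finset (TT 2 r ν)}

open Classical in
noncomputable def SA (Bf : (ν → ZMod 2) → Finset (TT 2 r ν)) (δ : ν → ZMod 2) (U : Mx 2 ν J) :
    Finset (SV 2 ν) := (SU Bf δ U).filter (kill U)

open Classical in
noncomputable def SB (Bf : (ν → ZMod 2) → Finset (TT 2 r ν)) (δ : ν → ZMod 2) (U : Mx 2 ν J) :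
    Finset (SV 2 ν) := (SU Bf δ U).filter fun Y => ¬ kill U Y

open Classical in
noncomputable def w0 (q T : ℝ) (K : ℕ) (Bf : (ν → ZMod 2) → Finset (TT 2 r ν)) (M : SymM 2 ν)
    (U : Mx 2 ν J) : ℝ :=
  wt q T K (fun (Y : SV 2 ν) (M : SymM 2 ν) => M ∈ CY Y) (SA Bf (dg M) U) (SB Bf (dg M) U) M

lemma w0_inv (q T : ℝ) (K : ℕ) (M : SymM 2 ν) (U : Mx 2 ν J) (N : SymM 2 J) :
    w0 q T K Bf (M + cj U N) U = w0 q T K Bf M U := by
  classical
  have h0 : SA Bf (dg (M + cj U N)) U = (SA Bf (dg M) U).image fun Y => Y.map (shv (cj U N).1) := by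
    rw [SA, SA, dg_add, dg_cj, SU_tile, filter_image]
    simp only [kill_shv]
  have h1 : SB Bf (dg (M + cj U N)) U = (SB Bf (dg M) U).image fun Y => Y.map (shv (cj U N).1) := by
    rw [SB, SB, dg_add, dg_cj, SU_tile, filter_image]
    simp only [kill_shv]
  rw [w0, w0, h0, h1]
  exact wt_image q T K _ _ _ _ _ _ (map_shv_inj _) fun Y => mem_CY_shv M (cj U N) Y

open Classical in
lemma SAB (δ : ν → ZMod 2) (U : Mx 2 ν J) : SA Bf δ U ∪ SB Bf δ U = SU Bf δ U :=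
  filter_union_filter_not_eq _ _

open Classical in
lemma fzE_eq (δ : ν → ZMod 2) (U : Mx 2 ν J) (Y : SV 2 ν) :
    fz (2 ^ (Fintype.card J * r)) (SA Bf δ U) (SB Bf δ U) Y =
      if Y ∈ SU Bf δ U then ps r U Y else 0 := by
  simp only [fz, SA, SB, ps, mem_filter]
  by_cases h1 : Y ∈ SU Bf δ U <;> by_cases h2 : kill U Y <;> simp [h1, h2]

lemma ps_abs (U : Mx 2 ν J) (Y : SV 2 ν) : |ps r U Y| ≤ 2 ^ (Fintype.card J * r) := by
  have : (1 : ℝ) ≤ 2 ^ (Fintype.card J * r) := one_le_pow₀ one_le_two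
  unfold ps
  split_ifs
  · rw [abs_of_nonneg (by linarith)]
    linarith
  · simpa using this

open Classical in
lemma sum_fz (δ : ν → ZMod 2) (U U' : Mx 2 ν J) :
    |∑ Y ∈ SU Bf δ U ∪ SU Bf δ U', fz (2 ^ (Fintype.card J * r)) (SA Bf δ U) (SB Bf δ U) Y *
        fz (2 ^ (Fintype.card J * r)) (SA Bf δ U') (SB Bf δ U') Y| ≤
      |∑ Y ∈ (Bf δ).image spn, ps r U Y * ps r U' Y| + (2 ^ (Fintype.card J * r)) ^ 2 *
        #((SU Bf δ U ∩ SU Bf δ U') \ (Bf δ).image spn) := by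
  have e : ∑ Y ∈ SU Bf δ U ∪ SU Bf δ U', fz (2 ^ (Fintype.card J * r)) (SA Bf δ U) (SB Bf δ U) Y *
      fz (2 ^ (Fintype.card J * r)) (SA Bf δ U') (SB Bf δ U') Y =
      ∑ Y ∈ SU Bf δ U ∩ SU Bf δ U', ps r U Y * ps r U' Y := by
    rw [← sum_subset (inter_subset_union (s := SU Bf δ U) (t := SU Bf δ U'))]
    · refine sum_congr rfl fun Y hY => ?_
      rw [fzE_eq, fzE_eq, if_pos (mem_inter.1 hY).1, if_pos (mem_inter.1 hY).2]
    · intro Y _ hY
      rw [fzE_eq, fzE_eq]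
      by_cases h1 : Y ∈ SU Bf δ U
      · rw [if_neg fun h2 => hY (mem_inter.2 ⟨h1, h2⟩), mul_zero]
      · rw [if_neg h1, zero_mul]
  rw [e, ← sum_sdiff (subset_inter (sub_SU δ U) (sub_SU δ U')), add_comm]
  refine (abs_add_le _ _).trans (add_le_add le_rfl ((abs_sum_le_sum_abs _ _).trans ?_))
  rw [mul_comm, ← nsmul_eq_mul]
  refine sum_le_card_nsmul _ _ _ fun Y _ => ?_
  rw [abs_mul, sq]
  exact mul_le_mul (ps_abs _ _) (ps_abs _ _) (abs_nonneg _) (by positivity)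

lemma abs_le_am {a : ℝ} (ha : 0 < a) (x : ℝ) : |x| ≤ a / 2 + (2 * a)⁻¹ * x ^ 2 := by
  rw [← sq_abs x, ← sub_nonneg]
  have : a / 2 + (2 * a)⁻¹ * |x| ^ 2 - |x| = (2 * a)⁻¹ * (|x| - a) ^ 2 := by
    field_simp
    ring
  rw [this]
  positivity

end

theorem PT (r J : ℕ) (hr : 0 < r) (C g : ℝ) (hC : 1 ≤ C) (hg : 0 < g) : ∃ ξ : ℝ, 0 < ξ ∧ ∃ n0 : ℕ,
    ∀ (ν : Type) [Fintype ν] [DecidableEq ν], n0 ≤ Fintype.card ν →
    ∀ Bf : (ν → ZMod 2) → Finset (TT 2 r ν), (∀ δ, Thin C ξ (Bf δ)) →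
    (∀ δ, ∀ τ ∈ Bf δ, Inj (yM τ) ∧ live (Dg δ) τ) → TW ξ Bf →
    ∃ w : SymM 2 ν → Mx 2 ν (Fin J) → ℝ, (∀ M U, 0 ≤ w M U) ∧
      (∀ M U N, w (M + cj U N) U = w M U) ∧
      (∀ M U, w M U ≠ 0 → Inj U ∧ ∀ N, ∀ τ ∈ Bf (dg (M + cj U N)), hit (M + cj U N) τ →
        Uᵀ * yM τ = 0) ∧ 𝔼 M, |𝔼 U, w M U - 1| ≤ g := by
  classical
  set T : ℝ := 2 ^ (Fintype.card (Fin J) * r) with hT
  have hT1 : 1 ≤ T := one_le_pow₀ one_le_two
  set s : ℝ := (Fintype.card (SymM 2 (Fin J)) : ℝ) with hs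
  have hs1 : 1 ≤ s := by rw [hs]; exact_mod_cast Fintype.card_pos
  set P : ℝ := 2 ^ (r + 1).choose 2 with hP
  have hP0 : 0 < P := by positivity
  have hC1 : 1 ≤ 2 * (s * C) := by nlinarith [mul_le_mul hs1 hC zero_le_one (by linarith)]
  obtain ⟨K, γ, q0, L, hγ, hq0, hL, HA⟩ := PTA T (P * (2 * (s * C))) (g ^ 2 / 16) hT1
    (by positivity)
  obtain ⟨ξ1, hξ1, HP⟩ := POIS r hr (2 * (s * C)) γ hC1 hγ
  set η : ℝ := g ^ 2 / 16 / (L * P) with hη
  have hη0 : 0 < η := by positivity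
  set c1 : ℝ := 2 ^ (4 * (Fintype.card (Fin J) * r) + 2 * r) * C with hc1
  set c2 : ℝ := T ^ 2 * (2 ^ (2 * Fintype.card (Fin J) + r ^ 2 +
    2 * (Fintype.card (Fin J) * r)) * C) with hc2
  have hc : 0 < (2 * η)⁻¹ * c1 + c2 := by positivity
  set L0 : ℝ := T ^ K * Real.exp (P * (2 * (s * C))) with hL0
  have hL1 : 0 < L0 := by positivity
  obtain ⟨n0, hn0⟩ := pow_unbounded_of_one_lt (P / q0 + 2 ^ J * (2 * L0) / g)
    (one_lt_two : (1 : ℝ) < 2)
  refine ⟨min (ξ1 / (2 * s)) (η / 2 / ((2 * η)⁻¹ * c1 + c2)), by positivity, n0,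
    fun ν _ _ hn Bf h1 h2 h3 => ?_⟩
  set ξ := min (ξ1 / (2 * s)) (η / 2 / ((2 * η)⁻¹ * c1 + c2)) with hξ
  have hξ0 : 0 < ξ := by positivity
  have hξa : 2 * (s * ξ) ≤ ξ1 := by
    have := (le_div_iff₀ (by positivity)).1 (min_le_left _ _ : ξ ≤ _)
    linarith
  have hξb : ξ * ((2 * η)⁻¹ * c1 + c2) ≤ η / 2 := (le_div_iff₀ hc).1 (min_le_right _ _)
  have hd := dd_pos (p := 2) (ν := ν)
  have hdn : P / q0 + 2 ^ J * (2 * L0) / g ≤ dd 2 ν :=
    hn0.le.trans (by rw [dd, Nat.cast_ofNat]; exact pow_le_pow_right₀ one_le_two hn)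
  set q := pp r ν with hq
  have hq1 : q * dd 2 ν ^ r = P := div_mul_cancel₀ _ (pow_pos hd _).ne'
  have hq2 : 0 ≤ q := div_nonneg hP0.le (pow_pos hd _).le
  have hq3 : q ≤ q0 := by
    have a1 : dd 2 ν ≤ dd 2 ν ^ r := le_self_pow₀ one_le_dd hr.ne'
    have a2 : (0 : ℝ) ≤ 2 ^ J * (2 * L0) / g := by positivity
    have a3 : P / q0 ≤ dd 2 ν ^ r := by linarith
    rw [div_le_iff₀ hq0] at a3
    refine le_of_mul_le_mul_right ?_ (pow_pos hd r)
    linarith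
  have hU : ∀ (δ : ν → ZMod 2) (U U' : Mx 2 ν (Fin J)),
      Thin (2 * (s * C)) ξ1 (TU Bf δ U ∪ TU Bf δ U') := fun δ U U' =>
    ((TU_thin h1 δ U).union (TU_thin h1 δ U')).mono le_rfl (by positivity) hξa Subset.rfl
  have hμ : ∀ (δ : ν → ZMod 2) (U U' : Mx 2 ν (Fin J)),
      q * #(SU Bf δ U ∪ SU Bf δ U') ≤ P * (2 * (s * C)) := fun δ U U' => by
    have a1 : (#(SU Bf δ U ∪ SU Bf δ U') : ℝ) ≤ #(TU Bf δ U ∪ TU Bf δ U') := by
      rw [SU, SU, ← image_union]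
      exact_mod_cast card_image_le
    calc _ ≤ q * (2 * (s * C) * dd 2 ν ^ r) :=
          mul_le_mul_of_nonneg_left (a1.trans (hU δ U U').card) hq2
      _ = _ := by rw [← hq1]; ring
  have key : ∀ (δ : ν → ZMod 2) (U U' : Mx 2 ν (Fin J)),
      1 - g ^ 2 / 16 ≤ 𝔼 A : AltM ν, w0 q T K Bf (Dg δ + A.1) U ∧
      𝔼 A : AltM ν, w0 q T K Bf (Dg δ + A.1) U * w0 q T K Bf (Dg δ + A.1) U' ≤ 1 + g ^ 2 / 16 +
        L * (q * (|∑ Y ∈ (Bf δ).image spn, ps r U Y * ps r U' Y| +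
          T ^ 2 * #((SU Bf δ U ∩ SU Bf δ U') \ (Bf δ).image spn))) := fun δ U U' => by
    have e : ∀ (A : AltM ν) (U : Mx 2 ν (Fin J)), w0 q T K Bf (Dg δ + A.1) U =
        wt q T K (fun (Y : SV 2 ν) (A : AltM ν) => Dg δ + A.1 ∈ CY Y) (SA Bf δ U) (SB Bf δ U) A := by
      intro A U
      have : dg (Dg δ + A.1) = δ := funext fun i => by
        show Matrix.diagonal δ i i + A.1.1 i i = δ i
        rw [A.2 i, diagonal_apply_eq, add_zero]
      rw [w0, this]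
      rfl
    simp only [e]
    obtain ⟨a1, a2⟩ := HA (SV 2 ν) (AltM ν) (fun Y A => Dg δ + A.1 ∈ CY Y) q hq2 hq3
      (SA Bf δ U) (SB Bf δ U) (SA Bf δ U') (SB Bf δ U') (disjoint_filter_filter_not _ _ _)
      (disjoint_filter_filter_not _ _ _) (by rw [SAB, SAB]; exact hμ δ U U') (by
        rw [SAB, SAB, SU, SU, ← image_union]
        exact fun 𝒜 h𝒜 => HP ν _ (hU δ U U') (Dg δ) (fun τ hτ => (mem_union.1 hτ).elim
          (TU_live h2 δ U τ) (TU_live h2 δ U' τ)) 𝒜 h𝒜)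
    refine ⟨a1, a2.trans ?_⟩
    rw [SAB, SAB]
    gcongr
    exact sum_fz δ U U'
  have hw0 : ∀ (M : SymM 2 ν) (U : Mx 2 ν (Fin J)), 0 ≤ w0 q T K Bf M U := fun M U =>
    wt_nonneg hq2 hT1 _ _ _ _ _
  have hw1 : ∀ (M : SymM 2 ν) (U : Mx 2 ν (Fin J)), w0 q T K Bf M U ≤ L0 := fun M U => by
    refine wt_le hq2 hT1 _ _ _ (le_trans ?_ (hμ (dg M) U U)) _
    rw [union_self]
    gcongr
    exact filter_subset _ _
  have err : 𝔼 δ : ν → ZMod 2, 𝔼 U : Mx 2 ν (Fin J), 𝔼 U' : Mx 2 ν (Fin J),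
      (|∑ Y ∈ (Bf δ).image spn, ps r U Y * ps r U' Y| +
        T ^ 2 * #((SU Bf δ U ∩ SU Bf δ U') \ (Bf δ).image spn)) ≤ η * dd 2 ν ^ r := by
    have hD := pow_pos hd r
    have a1 : ∀ δ : ν → ZMod 2, 𝔼 U : Mx 2 ν (Fin J), 𝔼 U' : Mx 2 ν (Fin J),
        |∑ Y ∈ (Bf δ).image spn, ps r U Y * ps r U' Y| ≤
        η * dd 2 ν ^ r / 2 + (2 * (η * dd 2 ν ^ r))⁻¹ * (c1 * ξ * (dd 2 ν ^ r) ^ 2) := fun δ => by
      refine (expect_le_expect fun U _ => expect_le_expect fun U' _ =>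
        abs_le_am (a := η * dd 2 ν ^ r) (by positivity) _).trans ?_
      simp only [expect_add_distrib, Fintype.expect_const, ← mul_expect]
      gcongr
      exact EQD (h1 δ) hξ0.le fun τ hτ => (h2 δ τ hτ).1
    have a2 := COM (J := Fin J) h1 hC hξ0.le h3 h2
    simp only [expect_add_distrib, ← mul_expect]
    refine (add_le_add (expect_le univ_nonempty fun δ _ => a1 δ)
      (mul_le_mul_of_nonneg_left a2 (by positivity))).trans ?_
    have a3 : η * dd 2 ν ^ r / 2 + (2 * (η * dd 2 ν ^ r))⁻¹ * (c1 * ξ * (dd 2 ν ^ r) ^ 2) +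
        T ^ 2 * (2 ^ (2 * Fintype.card (Fin J) + r ^ 2 + 2 * (Fintype.card (Fin J) * r)) *
          (C * ξ * dd 2 ν ^ r)) = (η / 2 + ξ * ((2 * η)⁻¹ * c1 + c2)) * dd 2 ν ^ r := by
      rw [hc2]
      field_simp
      ring
    rw [a3]
    gcongr
    linarith
  have sq2 : 𝔼 M : SymM 2 ν, (𝔼 U : Mx 2 ν (Fin J), w0 q T K Bf M U - 1) ^ 2 ≤ g ^ 2 / 4 := by
    have e : ∀ M : SymM 2 ν, (𝔼 U : Mx 2 ν (Fin J), w0 q T K Bf M U - 1) ^ 2 =
        𝔼 U : Mx 2 ν (Fin J), 𝔼 U' : Mx 2 ν (Fin J), (w0 q T K Bf M U * w0 q T K Bf M U' -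
          w0 q T K Bf M U - w0 q T K Bf M U' + 1) := fun M => by
      simp only [expect_add_distrib, expect_sub_distrib, Fintype.expect_const, ← mul_expect,
        ← expect_mul]
      ring
    simp only [e]
    rw [expect_fib]
    have a1 : ∀ δ : ν → ZMod 2, 𝔼 A : AltM ν, 𝔼 U : Mx 2 ν (Fin J), 𝔼 U' : Mx 2 ν (Fin J),
        (w0 q T K Bf (Dg δ + A.1) U * w0 q T K Bf (Dg δ + A.1) U' - w0 q T K Bf (Dg δ + A.1) U -
          w0 q T K Bf (Dg δ + A.1) U' + 1) ≤ 𝔼 U : Mx 2 ν (Fin J), 𝔼 U' : Mx 2 ν (Fin J),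
        (3 * (g ^ 2 / 16) + L * q * (|∑ Y ∈ (Bf δ).image spn, ps r U Y * ps r U' Y| +
          T ^ 2 * #((SU Bf δ U ∩ SU Bf δ U') \ (Bf δ).image spn))) := fun δ => by
      rw [expect_comm]
      refine expect_le_expect fun U _ => ?_
      rw [expect_comm]
      refine expect_le_expect fun U' _ => ?_
      simp only [expect_add_distrib, expect_sub_distrib, Fintype.expect_const]
      linarith [(key δ U U').2, (key δ U U).1, (key δ U' U').1]
    refine (expect_le_expect fun δ _ => a1 δ).trans ?_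
    simp only [expect_add_distrib (f := fun _ => 3 * (g ^ 2 / 16)), Fintype.expect_const,
      ← mul_expect]
    have a2 : L * q * (η * dd 2 ν ^ r) = g ^ 2 / 16 := by
      rw [show L * q * (η * dd 2 ν ^ r) = L * (q * dd 2 ν ^ r) * η by ring, hq1, hη]
      field_simp
    linarith [mul_le_mul_of_nonneg_left err (mul_nonneg hL.le hq2)]
  refine ⟨fun M U => ind {U | Inj U} U * w0 q T K Bf M U,
    fun M U => mul_nonneg (ind_nonneg _ _) (hw0 M U), fun M U N => congrArg _ (w0_inv q T K M U N),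
    fun M U hw => ⟨by_contra fun hI => hw (mul_eq_zero_of_left (ind_of_not hI) _),
      fun N τ a1 a2 => ?_⟩, ?_⟩
  · obtain ⟨Y, b1, b2, b3⟩ := SU_hit a1 a2
    exact b3 (by_contra fun b4 => wt_void (right_ne_zero_of_mul hw) Y (mem_filter.2 ⟨b1, b4⟩) b2)
  · have a1 : L0 * Fp.dens {U : Mx 2 ν (Fin J) | ¬ Inj U} ≤ g / 2 := by
      have b1 := dens_not_inj' (p := 2) (ν := ν) (ν' := Fin J)
      rw [Fintype.card_fin, Nat.cast_ofNat] at b1
      have b2 : (0 : ℝ) ≤ P / q0 := by positivity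
      have b3 : 2 ^ J * (2 * L0) / g ≤ dd 2 ν := by linarith
      rw [div_le_iff₀ hg, dd, Nat.cast_ofNat] at b3
      refine (mul_le_mul_of_nonneg_left b1 hL1.le).trans ?_
      rw [← mul_div_assoc, div_le_iff₀ (by positivity)]
      linarith
    have a2 : ∀ M : SymM 2 ν, |𝔼 U : Mx 2 ν (Fin J), ind {U | Inj U} U * w0 q T K Bf M U - 1| ≤
        g / 2 + (g / 2 / 2 + (2 * (g / 2))⁻¹ * (𝔼 U : Mx 2 ν (Fin J), w0 q T K Bf M U - 1) ^ 2) := by
      intro M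
      have b1 : 𝔼 U : Mx 2 ν (Fin J), ind {U | Inj U} U * w0 q T K Bf M U ≤
          𝔼 U : Mx 2 ν (Fin J), w0 q T K Bf M U :=
        expect_le_expect fun U _ => mul_le_of_le_one_left (hw0 M U) (ind_le_one _ _)
      have b2 : 𝔼 U : Mx 2 ν (Fin J), w0 q T K Bf M U ≤
          𝔼 U : Mx 2 ν (Fin J), ind {U | Inj U} U * w0 q T K Bf M U +
            L0 * Fp.dens {U : Mx 2 ν (Fin J) | ¬ Inj U} := by
        rw [Fp.dens, mul_expect, ← expect_add_distrib]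
        refine expect_le_expect fun U _ => ?_
        by_cases hI : Inj U
        · rw [ind_of_mem (A := {U | Inj U}) hI, ind_of_not (A := {U | ¬ Inj U}) (not_not.2 hI)]
          simp
        · rw [ind_of_not (A := {U | Inj U}) hI, ind_of_mem (A := {U | ¬ Inj U}) hI]
          simpa using hw1 M U
      have b3 := abs_le_am (a := g / 2) (by positivity) (𝔼 U : Mx 2 ν (Fin J), w0 q T K Bf M U - 1)
      rw [abs_le] at b3 ⊢
      constructor <;> linarith [b3.1, b3.2]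
    refine (expect_le_expect fun M _ => a2 M).trans ?_
    simp only [expect_add_distrib, Fintype.expect_const, ← mul_expect]
    have a3 : (2 * (g / 2))⁻¹ * (g ^ 2 / 4) = g / 4 := by field_simp
    linarith [mul_le_mul_of_nonneg_left sq2 (by positivity : 0 ≤ (2 * (g / 2))⁻¹)]

end Pool.Agent.Work.MP_4523ee_co.F2.Mo
end

-- merged part: Pool.Agent.Work.MP_4523ee_co.F2.CAd
section
/-!
Fibred cleaning: adapted tiles for light families.
-/

set_option autoImplicit false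
set_option linter.unusedSectionVars false

namespace Pool.Agent.Work.MP_4523ee_co.F2

open Finset hiding dens
open Matrix Fp Fp.Po
open scoped BigOperators ComplexConjugate

variable {ν ν' : Type} [Fintype ν] [DecidableEq ν] [Fintype ν'] [DecidableEq ν']

/-- orthogonality for the symplectic pairing of tuples -/
def Orth {r : ℕ} (τ τ' : TT 2 r ν) : Prop := ∑ i, τ.1 i ⬝ᵥ τ'.2 i = ∑ i, τ.2 i ⬝ᵥ τ'.1 i

lemma cadA_fib {α β : Type} [DecidableEq β] (T : Finset α) (f : α → β) (B : Set β) [Finite B]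
    (hB : ∀ a ∈ T, f a ∈ B) {x : ℝ} (hx : 0 ≤ x) (h : ∀ b, (#{a ∈ T | f a = b} : ℝ) ≤ x) :
    (#T : ℝ) ≤ Nat.card B * x := by
  have h1 : #(T.image f) ≤ Nat.card B := by
    rw [← Fintype.card_coe, ← Nat.card_eq_fintype_card]
    refine Nat.card_le_card_of_injective (fun y => ⟨y.1, ?_⟩) fun y z e => ?_
    · obtain ⟨a, ha, e⟩ := mem_image.1 y.2
      exact e ▸ hB a ha
    · exact Subtype.ext (congrArg (Subtype.val : B → β) e)
  rw [card_eq_sum_card_image f T, Nat.cast_sum]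
  refine (sum_le_card_nsmul _ _ x fun b _ => h b).trans ?_
  rw [nsmul_eq_mul]
  exact mul_le_mul_of_nonneg_right (Nat.cast_le.2 h1) hx

/-- a subspace containing a share of a light family is light -/
lemma hi_light {r : ℕ} {lam C : ℝ} (hl : 0 ≤ lam) (hC : 0 < C) {S : Finset (TT 2 r ν)}
    (hS : Mo.Lt lam S) (H : Submodule (ZMod 2) (TT 2 r ν)) (T : Finset (TT 2 r ν)) (hT : T ⊆ S)
    (hH : ∀ τ ∈ T, τ ∈ H) (hc : (Nat.card H : ℝ) ≤ C * #T)
    (E : Submodule (ZMod 2) (Fin r → ZMod 2)) (h0 : E ≠ ⊥) (h1 : E ≠ ⊤) :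
    (Nat.card ↥(H ⊓ pw ν E) : ℝ) ≤ C * lam * pn ν E := by
  obtain ⟨F, hF⟩ := Submodule.exists_isCompl E
  obtain ⟨π, hπ⟩ : ∃ π : (Fin r → ZMod 2) →ₗ[ZMod 2] (Fin r → ZMod 2), LinearMap.ker π = E :=
    ⟨F.projection E hF.symm, Submodule.ker_projection _⟩
  have e1 : ((LinearMap.toMatrix' π)ᵀ).rank + Module.finrank (ZMod 2) E = r := by
    have h := LinearMap.finrank_range_add_finrank_ker π
    rw [hπ, Module.finrank_fin_fun] at h
    rw [rank_transpose, Matrix.rank, ← Matrix.toLin'_apply', Matrix.toLin'_toMatrix']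
    exact h
  have e2 : 0 < Module.finrank (ZMod 2) E :=
    Nat.pos_of_ne_zero fun h => h0 (Submodule.finrank_eq_zero.1 h)
  have e3 : Module.finrank (ZMod 2) E < r := by
    have h := Submodule.finrank_lt h1
    rwa [Module.finrank_fin_fun] at h
  have e4 : dd 2 ν ^ (r - ((LinearMap.toMatrix' π)ᵀ).rank) = pn ν E := by
    rw [show r - ((LinearMap.toMatrix' π)ᵀ).rank = Module.finrank (ZMod 2) E by omega, dd, pn,
      Module.natCard_eq_pow_finrank (K := ZMod 2) (V := E), Nat.card_zmod, Nat.cast_pow,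
      ← pow_mul, ← pow_mul, mul_comm]
  have e0 : ∀ x : Fin r → ZMod 2, x ᵥ* (LinearMap.toMatrix' π)ᵀ = π x := fun x => by
    rw [vecMul_transpose, LinearMap.toMatrix'_mulVec]
  have e5 : ∀ τ : TT 2 r ν, rm τ (LinearMap.toMatrix' π)ᵀ = gm ν π τ := fun τ =>
    Prod.ext (funext fun i => e0 (τ.1 i)) (funext fun i => e0 (τ.2 i))
  have e6 : LinearMap.ker (gm ν π) = pw ν E := by
    ext τ
    rw [LinearMap.mem_ker, mem_pw, ← hπ]
    exact ⟨fun h => ⟨fun i => congrFun (congrArg Prod.fst h) i,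
      fun i => congrFun (congrArg Prod.snd h) i⟩, fun h => Prod.ext (funext h.1) (funext h.2)⟩
  have e7 := card_ker_map H (gm ν π)
  rw [e6] at e7
  have hp : 0 < pn ν E := pn_pos
  have e8 : (#T : ℝ) ≤ Nat.card (H.map (gm ν π)) * (lam * pn ν E) := by
    refine cadA_fib T (gm ν π) (H.map (gm ν π)) (fun τ hτ => Submodule.mem_map_of_mem (hH τ hτ))
      (mul_nonneg hl hp.le) fun σ => ?_
    have h := hS (LinearMap.toMatrix' π)ᵀ (by omega) (by omega) σ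
    rw [e4] at h
    refine le_trans (Nat.cast_le.2 (card_le_card fun τ hτ => ?_)) h
    rw [mem_filter] at hτ ⊢
    exact ⟨hT hτ.1, (e5 τ).trans hτ.2⟩
  have hm : (0 : ℝ) < Nat.card (H.map (gm ν π)) := Nat.cast_pos.2 Nat.card_pos
  refine le_of_mul_le_mul_right ?_ hm
  calc _ = (Nat.card H : ℝ) := by rw [e7, Nat.cast_mul]
    _ ≤ C * (Nat.card (H.map (gm ν π)) * (lam * pn ν E)) :=
        hc.trans (mul_le_mul_of_nonneg_left e8 hC.le)
    _ = _ := by ring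

lemma cadA_perp {X : Type} [AddCommGroup X] [Module (ZMod 2) X] [Fintype X] {c θ : ℝ}
    (hc : 0 < c) (hθ : 0 ≤ θ) {H : Submodule (ZMod 2) (GX X ν)} (h : St c θ H) {b : Bil 2 X}
    (hb : NdB b) : St c (θ / c) (ann b H) := by
  have hN : 0 < pn ν X := pn_pos
  have hh : (0 : ℝ) < Nat.card H := Nat.cast_pos.2 Nat.card_pos
  have e1 := card_ann_nd hb H
  have hA : (0 : ℝ) ≤ Nat.card (ann b H) := Nat.cast_nonneg _
  refine ⟨le_of_mul_le_mul_right ?_ hh, ?_, fun E h0 h1 => ?_⟩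
  · rw [e1]
    calc _ ≤ c * pn ν X * (pn ν X / c) := mul_le_mul_of_nonneg_left h.2.1 (mul_pos hc hN).le
      _ = _ := by field_simp
  · rw [le_div_iff₀ hc]
    refine le_of_mul_le_mul_right ?_ hN
    rw [mul_assoc, ← sq, ← e1]
    exact mul_le_mul_of_nonneg_left h.1 hA
  · let f : X →ₗ[ZMod 2] E →ₗ[ZMod 2] ZMod 2 := (b.domRestrict E).flip
    have e2 := alkC_ker f
    have e3 : LinearMap.ker f.flip = ⊥ := by
      rw [Submodule.eq_bot_iff]
      exact fun x hx => Subtype.ext (hb x.1 fun y => LinearMap.congr_fun (LinearMap.mem_ker.1 hx) y)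
    rw [e3, Nat.card_unique (α := (⊥ : Submodule (ZMod 2) E)), mul_one] at e2
    have hX : 0 < Nat.card X := Nat.card_pos
    have g0 : LinearMap.ker f ≠ ⊥ := fun k => by
      rw [k, Nat.card_unique, one_mul] at e2
      refine h1 (Submodule.eq_top_of_finrank_eq ?_)
      rw [Module.natCard_eq_pow_finrank (K := ZMod 2) (V := E),
        Module.natCard_eq_pow_finrank (K := ZMod 2) (V := X), Nat.card_zmod] at e2
      exact Nat.pow_right_injective le_rfl e2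
    have g1 : LinearMap.ker f ≠ ⊤ := fun k => by
      refine h0 ((Submodule.eq_bot_iff _).2 fun x hx => hb x fun y => ?_)
      have hy : y ∈ LinearMap.ker f := k ▸ Submodule.mem_top
      exact LinearMap.congr_fun (LinearMap.mem_ker.1 hy) ⟨x, hx⟩
    have e4 : pn ν (LinearMap.ker f) * pn ν E = pn ν X := by
      rw [pn, pn, pn, ← mul_pow, ← Nat.cast_mul, e2]
    have a1 : ann b H ⊓ pw ν E ≤ ann b (H ⊔ pw ν (LinearMap.ker f)) := by
      intro τ hτ τ' hτ'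
      obtain ⟨y, hy, z, hz, rfl⟩ := Submodule.mem_sup.1 hτ'
      have k1 := hτ.1 y hy
      have k2 := mem_pw.1 hτ.2
      have k3 := mem_pw.1 hz
      have a1 : bt b τ.1 z.2 = 0 := Finset.sum_eq_zero fun i _ =>
        LinearMap.congr_fun (LinearMap.mem_ker.1 (k3.2 i)) ⟨τ.1 i, k2.1 i⟩
      have a2 : bt b τ.2 z.1 = 0 := Finset.sum_eq_zero fun i _ =>
        LinearMap.congr_fun (LinearMap.mem_ker.1 (k3.1 i)) ⟨τ.2 i, k2.2 i⟩
      simp only [sy, Prod.fst_add, Prod.snd_add, bt_add_right] at k1 ⊢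
      linear_combination k1 + a1 - a2
    have a2 := kB_mono a1
    have a3 := card_ann_nd hb (H ⊔ pw ν (LinearMap.ker f))
    have a4 := alkA_mul (le_sup_left : H ≤ H ⊔ pw ν (LinearMap.ker f)) le_sup_right
    rw [card_pw'] at a4
    have a5 := h.2.2 _ g0 g1
    have he : 0 < pn ν (LinearMap.ker f) := pn_pos
    have hs : (0 : ℝ) ≤ Nat.card ↥(H ⊔ pw ν (LinearMap.ker f)) := Nat.cast_nonneg _
    have hB : (0 : ℝ) ≤ Nat.card (ann b (H ⊔ pw ν (LinearMap.ker f))) := Nat.cast_nonneg _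
    refine a2.trans ?_
    rw [div_mul_eq_mul_div, le_div_iff₀ hc]
    refine le_of_mul_le_mul_right ?_ (mul_pos hN (pow_pos he 2))
    have a6 : c * pn ν X * pn ν (LinearMap.ker f) ^ 2 ≤
        θ * pn ν (LinearMap.ker f) * Nat.card ↥(H ⊔ pw ν (LinearMap.ker f)) :=
      ((mul_le_mul_of_nonneg_right h.1 (pow_pos he 2).le).trans a4).trans
        (mul_le_mul_of_nonneg_right a5 hs)
    calc _ = (Nat.card (ann b (H ⊔ pw ν (LinearMap.ker f))) : ℝ) *
          (c * pn ν X * pn ν (LinearMap.ker f) ^ 2) := by ring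
      _ ≤ _ := mul_le_mul_of_nonneg_left a6 hB
      _ = θ * pn ν (LinearMap.ker f) * pn ν X ^ 2 := by
          rw [← a3]
          ring
      _ = _ := by
          rw [← e4]
          ring

/-- the symplectic annihilator of a full light subspace is full and light -/
lemma hi_perp {r : ℕ} {c θ : ℝ} (hc : 0 < c) (hθ : 0 ≤ θ) {H : Submodule (ZMod 2) (TT 2 r ν)}
    (h : St c θ H) : ∃ Γ : Submodule (ZMod 2) (TT 2 r ν), St c (θ / c) Γ ∧
      ∀ τ ∈ H, ∀ τ' ∈ Γ, Orth τ τ' := by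
  refine ⟨ann (dotProductBilin (ZMod 2) (ZMod 2)) H,
    cadA_perp hc hθ h fun x hx => dotProduct_eq_zero x hx, fun τ hτ τ' hτ' => ?_⟩
  have k : ∑ i, τ'.1 i ⬝ᵥ τ.2 i - ∑ i, τ'.2 i ⬝ᵥ τ.1 i = 0 := hτ' τ hτ
  unfold Orth
  simp only [dotProduct_comm (τ.1 _), dotProduct_comm (τ.2 _)]
  exact (sub_eq_zero.1 k).symm

lemma hiB_pn (ν : Type) [Fintype ν] (r : ℕ) : pn ν (Fin r → ZMod 2) = dd 2 ν ^ r := by
  unfold pn dd
  rw [Nat.card_eq_fintype_card, Fintype.card_fun, ZMod.card, Fintype.card_fin]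
  push_cast
  rw [← pow_mul, ← pow_mul, mul_comm]

lemma hiB_pn_nonneg (ν : Type) [Fintype ν] (E : Type) : 0 ≤ pn ν E := by
  unfold pn
  positivity

lemma hiB_mono {X : Type} [AddCommGroup X] [Module (ZMod 2) X] [Fintype X] {c c' θ θ' : ℝ}
    {Γ : Submodule (ZMod 2) (GX X ν)} (h : St c θ Γ) (h0 : 0 < c') (h1 : c' ≤ c) (h2 : θ ≤ θ') :
    St c' θ' Γ := by
  obtain ⟨a, b, e⟩ := h
  have hp := hiB_pn_nonneg ν X
  refine ⟨(mul_le_mul_of_nonneg_right h1 hp).trans a,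
    b.trans (div_le_div_of_nonneg_left hp h0 h1), fun E hE hE' => (e E hE hE').trans ?_⟩
  exact mul_le_mul_of_nonneg_right h2 (hiB_pn_nonneg ν E)

/-- structure of a light family of high energy -/
theorem HI1 (r : ℕ) (ε κ : ℝ) (hε : 0 < ε) (hκ : 0 < κ) : ∃ c : ℝ, 0 < c ∧
    ∀ (ν : Type) [Fintype ν] [DecidableEq ν] (lam : ℝ) (v : ν → ZMod 2) (S : Finset (TT 2 r ν)),
      0 ≤ lam → Lf ε lam v S → κ * dd 2 ν ^ (3 * r) ≤ Finset.addEnergy S S →
      ∃ Γ : Submodule (ZMod 2) (TT 2 r ν), St c (lam / c) Γ ∧ ∃ T ⊆ S, c * dd 2 ν ^ r ≤ #T ∧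
        ∀ τ ∈ T, ∀ τ' ∈ Γ, Orth τ τ' := by
  obtain ⟨C, hC, hfr⟩ := _root_.MP_4523ee_co.Fp.fr 2 κ hκ
  set c0 : ℝ := min (ε / C) (1 / C) with hc0
  have hc0p : 0 < c0 := lt_min (by positivity) (by positivity)
  have hc1 : c0 ≤ ε / C := min_le_left _ _
  have hc2 : c0 ≤ 1 / C := min_le_right _ _
  have hcp : 0 < min c0 (c0 / C ^ 2) := lt_min hc0p (by positivity)
  refine ⟨min c0 (c0 / C ^ 2), hcp, fun ν _ _ lam v S hl hS hE => ?_⟩
  have hd : 0 < dd 2 ν := by unfold dd; positivity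
  have hdr : 0 < dd 2 ν ^ r := pow_pos hd r
  have hS0 : (0 : ℝ) < #S := lt_of_lt_of_le (by positivity) hS.lo
  have hne : S.Nonempty := card_pos.1 (by exact_mod_cast hS0)
  have hen : κ * (#S : ℝ) ^ 3 ≤ Finset.addEnergy S S := by
    refine le_trans ?_ hE
    rw [mul_comm 3 r, pow_mul]
    exact mul_le_mul_of_nonneg_left (pow_le_pow_left₀ hS0.le hS.hi 3) hκ.le
  obtain ⟨H, h1, h2⟩ := hfr (TT 2 r ν) S hne hen
  obtain ⟨T, hT, hTH, h2⟩ : ∃ T ⊆ S, (∀ τ ∈ T, τ ∈ H) ∧ (#S : ℝ) ≤ C * #T := by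
    refine ⟨_, ?_, ?_, h2⟩
    · intro τ h
      simp only [mem_filter] at h
      exact h.1
    · intro τ h
      simp only [mem_filter] at h
      exact h.2
  have h3 : (Nat.card H : ℝ) ≤ C ^ 2 * #T :=
    calc (Nat.card H : ℝ) ≤ C * #S := h1
      _ ≤ C * (C * #T) := mul_le_mul_of_nonneg_left h2 hC.le
      _ = C ^ 2 * #T := by ring
  have h4 : c0 * dd 2 ν ^ r ≤ #T := by
    refine (mul_le_mul_of_nonneg_right hc1 hdr.le).trans ?_
    rw [div_mul_eq_mul_div, div_le_iff₀ hC, mul_comm _ C]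
    exact hS.lo.trans h2
  have h5 : (#T : ℝ) ≤ Nat.card H := by
    have : #T ≤ Nat.card H := by
      rw [← Nat.card_eq_finsetCard]
      exact Nat.card_le_card_of_injective (fun x : T => (⟨x.1, hTH _ x.2⟩ : H))
        fun x y e => Subtype.ext (congrArg (fun z : H => z.1) e)
    exact_mod_cast this
  have hSt : St c0 (C ^ 2 * lam) H := by
    refine ⟨?_, ?_, fun E hE0 hE1 => hi_light hl (by positivity) hS.lt H T hT hTH h3 E hE0 hE1⟩
    · rw [hiB_pn]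
      exact h4.trans h5
    · rw [hiB_pn, le_div_iff₀ hc0p]
      calc (Nat.card H : ℝ) * c0 ≤ C * dd 2 ν ^ r * (1 / C) :=
            mul_le_mul (h1.trans (mul_le_mul_of_nonneg_left hS.hi hC.le)) hc2 hc0p.le
              (by positivity)
        _ = dd 2 ν ^ r := by field_simp
  obtain ⟨Γ, hΓ, hO⟩ := hi_perp hc0p (by positivity) hSt
  refine ⟨Γ, hiB_mono hΓ hcp (min_le_left _ _) ?_, T, hT,
    (mul_le_mul_of_nonneg_right (min_le_left _ _) hdr.le).trans h4,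
    fun τ h τ' h' => hO τ (hTH τ h) τ' h'⟩
  calc C ^ 2 * lam / c0 = lam / (c0 / C ^ 2) := by field_simp
    _ ≤ _ := div_le_div_of_nonneg_left hl hcp (min_le_right _ _)

lemma hiB_tr {r : ℕ} (A B : ν → Fin r → ZMod 2) :
    ∑ i, A i ⬝ᵥ B i = Matrix.trace ((Matrix.of A)ᵀ * Matrix.of B) := by
  simp only [Matrix.trace, Matrix.diag, Matrix.mul_apply, dotProduct, transpose_apply, of_apply]
  exact sum_comm

lemma hiB_act {r : ℕ} {μ : Type} (U : Matrix μ ν (ZMod 2)) (l : ν → Fin r → ZMod 2) :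
    Matrix.of (act U l) = U * Matrix.of l := by
  ext i a
  simp [act, Matrix.mul_apply, Finset.sum_apply]

/-- an aligned tile sees one column of the orthogonal tuples in a small space -/
theorem HI2 {r K : ℕ} {ξ : Fin r → ZMod 2} {Γ : Submodule (ZMod 2) (TT 2 r ν)} {M : SymM 2 ν}
    {U : Matrix ν ν' (ZMod 2)} (h : Algn K ξ Γ M U) :
    ∃ Ξ : Submodule (ZMod 2) (ν' → ZMod 2), Module.finrank (ZMod 2) Ξ ≤ K ∧
      ∀ (N : SymM 2 ν') (τ : TT 2 r ν), (∀ τ' ∈ Γ, Orth τ τ') → Mo.hit (M + cj U N) τ →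
        Uᵀ *ᵥ (yM τ *ᵥ ξ) ∈ Ξ := by
  obtain ⟨Wd, hK, hW⟩ := h
  refine ⟨Wd.dualAnnihilator.map (dotProductEquiv (ZMod 2) ν').symm.toLinearMap, ?_,
    fun N τ hO hh => ?_⟩
  · rw [LinearEquiv.finrank_map_eq]
    have h1 := Subspace.finrank_add_finrank_dualAnnihilator_eq Wd
    rw [Module.natCard_eq_pow_finrank (K := ZMod 2) (V := ν' → ZMod 2),
      Module.natCard_eq_pow_finrank (K := ZMod 2) (V := Wd), ← h1, pow_add, mul_comm K] at hK
    have h2 := Nat.le_of_mul_le_mul_left hK (by rw [Nat.card_zmod]; positivity)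
    rw [Nat.card_zmod] at h2
    exact Nat.lt_two_pow_self.le.trans h2
  · rw [Submodule.mem_map_equiv, LinearEquiv.symm_symm, Submodule.mem_dualAnnihilator]
    intro w hw
    obtain ⟨τ', hτ', e1, e2⟩ := hW w hw
    have o := hO τ' hτ'
    unfold Orth at o
    rw [hiB_tr, hiB_tr] at o
    have e3 : Uᵀ * yM τ' = 0 := by
      unfold yM
      rw [← hiB_act, e2]
      rfl
    have e4 : zM τ' = (M + cj U N).1 * yM τ' + vecMulVec (U *ᵥ w) ξ := by
      have e5 : zM τ' - M.1 * yM τ' = vecMulVec (U *ᵥ w) ξ := by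
        unfold yM zM
        rw [← hiB_act]
        ext i a
        exact congrFun (congrFun e1 i) a
      show _ = (M.1 + U * N.1 * Uᵀ) * yM τ' + _
      rw [Matrix.add_mul, Matrix.mul_assoc (U * N.1), e3, Matrix.mul_zero, add_zero, ← e5]
      abel
    have e6 : zM τ = (M + cj U N).1 * yM τ := hh.symm
    change trace ((yM τ)ᵀ * zM τ') = trace ((zM τ)ᵀ * yM τ') at o
    rw [e4, e6, transpose_mul, SymM_T, Matrix.mul_add, trace_add, Matrix.mul_assoc,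
      add_eq_left, mul_vecMulVec, trace_vecMulVec] at o
    show (Uᵀ *ᵥ (yM τ *ᵥ ξ)) ⬝ᵥ w = 0
    rw [mulVec_transpose, ← dotProduct_mulVec, dotProduct_comm, dotProduct_mulVec,
      ← mulVec_transpose]
    exact o

lemma cadC_ne {r : ℕ} (hr : 0 < r) : (Pi.single ⟨0, hr⟩ 1 : Fin r → ZMod 2) ≠ 0 := fun h => by
  have h1 := congrFun h ⟨0, hr⟩
  rw [Pi.single_eq_same] at h1
  exact one_ne_zero h1

open Classical in
lemma cadC_avg {β : Type} (D : Set (ν → ZMod 2)) (T : (ν → ZMod 2) → Finset β) (x : ℝ)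
    (h : ∀ v ∈ D, x ≤ #(T v)) : dens D * x ≤ 𝔼 v, (#(if v ∈ D then T v else ∅) : ℝ) := by
  rw [dens, Finset.expect_mul]
  refine Finset.expect_le_expect fun v _ => ?_
  by_cases hv : v ∈ D
  · rw [if_pos hv, ind_of_mem hv, one_mul]
    exact h v hv
  · rw [if_neg hv, ind_of_not hv, zero_mul]
    exact Nat.cast_nonneg _

lemma cadC_mono {r K0 K0' : ℕ} {F : ℕ → ℕ} {g : ℕ → ℝ} {D D' : Set (ν → ZMod 2)}
    {S : (ν → ZMod 2) → Finset (TT 2 r ν)} (h : AdOut K0 F g D S) (hK : K0 ≤ K0') (hD : D ⊆ D') :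
    AdOut K0' F g D' S := by
  obtain ⟨K, h1, S', h2, h3⟩ := h
  exact ⟨K, h1.trans hK, S', fun v => ⟨(h2 v).1, fun hv => (h2 v).2 fun h => hv (hD h)⟩, h3⟩

lemma cadC_Lf {r : ℕ} {ε lam lam' : ℝ} {v : ν → ZMod 2} {S : Finset (TT 2 r ν)}
    (h : Lf ε lam v S) (hl : lam ≤ lam') : Lf ε lam' v S :=
  ⟨h.lt.mono hl (Subset.refl _), h.lo, h.hi, h.inj, h.live⟩

theorem HI (hW : CWUs) (r : ℕ) (ε₁ ε₂ κ : ℝ) (F : ℕ → ℕ) (g : ℕ → ℝ) (hr : 0 < r) (h₁ : 0 < ε₁)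
    (h₂ : 0 < ε₂) (hκ : 0 < κ) (hg : ∀ K, 0 < g K) :
    ∃ K0 : ℕ, ∃ lam : ℝ, 0 < lam ∧ ∃ n0 : ℕ, ∀ (ν : Type) [Fintype ν] [DecidableEq ν],
      n0 ≤ Fintype.card ν → ∀ (D : Set (ν → ZMod 2)) (S : (ν → ZMod 2) → Finset (TT 2 r ν)),
        ε₂ ≤ dens D → (∀ v ∈ D, Lf ε₁ lam v (S v) ∧
          κ * dd 2 ν ^ (3 * r) ≤ Finset.addEnergy (S v) (S v)) → AdOut K0 F g D S := by
  classical
  obtain ⟨c, hc, H1⟩ := HI1 r ε₁ κ h₁ hκ
  obtain ⟨K1, hK1⟩ := exists_nat_ge (1 / c)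
  have hK1p : (0 : ℝ) < K1 := lt_of_lt_of_le (one_div_pos.2 hc) hK1
  have hK1n : 0 < K1 := Nat.cast_pos.1 hK1p
  obtain ⟨K0, lam, hlam, n0, H2⟩ := hW (2 ^ r) c ε₂ hc h₂ (fun K => F (K * K1))
    (fun K => g (K * K1)) fun K => hg _
  refine ⟨K0 * K1, lam * c, mul_pos hlam hc, n0, fun ν _ _ hn D S hD hS => ?_⟩
  have H3 : ∀ v, ∃ (Γ : Submodule (ZMod 2) (TT 2 r ν)) (T : Finset (TT 2 r ν)), v ∈ D →
      St c lam Γ ∧ T ⊆ S v ∧ c * dd 2 ν ^ r ≤ #T ∧ ∀ τ ∈ T, ∀ τ' ∈ Γ, Orth τ τ' := by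
    intro v
    by_cases hv : v ∈ D
    · obtain ⟨Γ, h1, T, h2, h3, h4⟩ :=
        H1 ν (lam * c) v (S v) (mul_pos hlam hc).le (hS v hv).1 (hS v hv).2
      rw [mul_div_cancel_right₀ _ hc.ne'] at h1
      exact ⟨Γ, T, fun _ => ⟨h1, h2, h3, h4⟩⟩
    · exact ⟨⊥, ∅, fun h => absurd h hv⟩
  choose Γ T H3 using H3
  obtain ⟨K, hK, hK0, D', hD', hd, w, hw, hA⟩ := H2 ν hn (Fin r → ZMod 2) (by simp) _
    (cadC_ne hr) D hD Γ fun v hv => (H3 v hv).1
  refine ⟨K * K1, Nat.mul_le_mul_right _ hK0, fun v => if v ∈ D' then T v else ∅, fun v => ?_, ?_,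
    w, hw, fun M U hMU => ?_⟩
  · by_cases hv : v ∈ D'
    · simp only [if_pos hv]
      exact ⟨(H3 v (hD' hv)).2.1, fun h => absurd (hD' hv) h⟩
    · simp only [if_neg hv]
      exact ⟨empty_subset _, fun _ => trivial⟩
  · have h1 := cadC_avg D' T (c * dd 2 ν ^ r) fun v hv => (H3 v (hD' hv)).2.2.1
    have hKp : (0 : ℝ) < K := Nat.cast_pos.2 hK
    have h2 : 1 ≤ K * dens D' := (div_le_iff₀' hKp).1 hd
    have h3 : 1 ≤ K1 * c := (div_le_iff₀ hc).1 hK1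
    have h4 : (0 : ℝ) < dd 2 ν ^ r := pow_pos dd_pos _
    calc dd 2 ν ^ r ≤ (K * dens D' * (K1 * c)) * dd 2 ν ^ r :=
          le_mul_of_one_le_left h4.le (one_le_mul_of_one_le_of_one_le h2 h3)
      _ = ((K * K1 : ℕ) : ℝ) * (dens D' * (c * dd 2 ν ^ r)) := by
          push_cast
          ring
      _ ≤ _ := mul_le_mul_of_nonneg_left h1 (Nat.cast_nonneg _)
  · have H4 : ∀ t : Fin (F (K * K1)) → ZMod 2,
        ∃ Ξ : Submodule (ZMod 2) (Fin (F (K * K1)) → ZMod 2),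
          Module.finrank (ZMod 2) Ξ ≤ K * K1 ∧ (dg M + U *ᵥ t ∈ D' →
            ∀ (N : SymM 2 (Fin (F (K * K1)))) (τ : TT 2 r ν),
              (∀ τ' ∈ Γ (dg M + U *ᵥ t), Orth τ τ') → Mo.hit (M + cj U N) τ →
              Uᵀ *ᵥ (yM τ *ᵥ Pi.single ⟨0, hr⟩ 1) ∈ Ξ) := by
      intro t
      by_cases ht : dg M + U *ᵥ t ∈ D'
      · obtain ⟨Ξ, h1, h2⟩ := HI2 (hA M U hMU t ht)
        exact ⟨Ξ, h1.trans (Nat.le_mul_of_pos_right _ hK1n), fun _ => h2⟩
      · exact ⟨⊥, by rw [finrank_bot]; exact Nat.zero_le _, fun h => absurd h ht⟩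
    choose Ξ h1 h2 using H4
    refine ⟨Ξ, h1, fun N τ hτ hh => ⟨_, cadC_ne hr, ?_⟩⟩
    rw [dg_add, dg_cj] at hτ
    by_cases ht : dg M + U *ᵥ dg N ∈ D'
    · simp only [if_pos ht] at hτ
      exact h2 _ ht N τ ((H3 _ (hD' ht)).2.2.2 τ hτ) hh
    · simp only [if_neg ht] at hτ
      exact absurd hτ (notMem_empty _)

theorem LO (hP : PTLs) (r : ℕ) (ε₁ ε₂ : ℝ) (F : ℕ → ℕ) (g : ℕ → ℝ) (hr : 0 < r) (h₁ : 0 < ε₁)
    (h₂ : 0 < ε₂) (hg : ∀ K, 0 < g K) :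
    ∃ K0 : ℕ, ∃ ξ : ℝ, 0 < ξ ∧ ∃ n0 : ℕ, ∀ (ν : Type) [Fintype ν] [DecidableEq ν],
      n0 ≤ Fintype.card ν → ∀ (D : Set (ν → ZMod 2)) (S : (ν → ZMod 2) → Finset (TT 2 r ν)),
        ε₂ ≤ dens D → (∀ v ∈ D, Lf ε₁ ξ v (S v) ∧
          (Finset.addEnergy (S v) (S v) : ℝ) ≤ ξ ^ 4 * dd 2 ν ^ (3 * r)) → AdOut K0 F g D S := by
  classical
  obtain ⟨K, hK⟩ := exists_nat_ge ((2 : ℝ) ^ (r ^ 2 + r + 1) / (ε₂ * ε₁))
  obtain ⟨ξ, hξ, n0, H⟩ := hP r (F K) (g K) hr (hg K)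
  refine ⟨K, ξ, hξ, n0, fun ν _ _ hn D S hD hS => ?_⟩
  have h4 : (0 : ℝ) < dd 2 ν ^ r := pow_pos dd_pos _
  obtain ⟨S', h1, h2, w, hw, hA⟩ := H ν hn (fun v => if v ∈ D then S v else ∅) (fun v => by
    by_cases hv : v ∈ D
    · simp only [if_pos hv]
      exact ⟨by rw [one_mul]; exact (hS v hv).1.hi, (hS v hv).1.lt, (hS v hv).2⟩
    · simp only [if_neg hv]
      refine ⟨by rw [card_empty, Nat.cast_zero, one_mul]; exact h4.le, fun a _ _ σ => ?_, ?_⟩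
      · rw [filter_empty, card_empty, Nat.cast_zero]
        exact (mul_pos hξ (pow_pos dd_pos _)).le
      · rw [addEnergy_empty_left, Nat.cast_zero]
        exact (mul_pos (pow_pos hξ _) (pow_pos dd_pos _)).le) (fun v τ hτ => by
    by_cases hv : v ∈ D
    · simp only [if_pos hv] at hτ
      exact ⟨(hS v hv).1.inj τ hτ, (hS v hv).1.live τ hτ⟩
    · simp only [if_neg hv] at hτ
      exact absurd hτ (notMem_empty _))
  refine ⟨K, le_rfl, S', fun v => ?_, ?_, w, hw, fun M U hMU => ?_⟩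
  · have h3 := h1 v
    by_cases hv : v ∈ D
    · simp only [if_pos hv] at h3
      exact ⟨h3, fun h => absurd hv h⟩
    · simp only [if_neg hv] at h3
      exact ⟨h3.trans (empty_subset _), fun _ => subset_empty.1 h3⟩
  · have h3 := cadC_avg D S (ε₁ * dd 2 ν ^ r) fun v hv => (hS v hv).1.lo
    have h5 : 𝔼 v, (#(if v ∈ D then S v else ∅) : ℝ) ≤
        2 ^ (r ^ 2 + r + 1) * 𝔼 v, (#(S' v) : ℝ) := by
      rw [Fintype.expect_eq_sum_div_card, Fintype.expect_eq_sum_div_card, ← mul_div_assoc]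
      refine div_le_div_of_nonneg_right ?_ (Nat.cast_nonneg _)
      exact_mod_cast h2
    have h6 : (0 : ℝ) ≤ 𝔼 v, (#(S' v) : ℝ) := Finset.expect_nonneg fun _ _ => Nat.cast_nonneg _
    have h7 : (2 : ℝ) ^ (r ^ 2 + r + 1) ≤ K * (ε₂ * ε₁) := (div_le_iff₀ (mul_pos h₂ h₁)).1 hK
    refine le_of_mul_le_mul_left ?_ (mul_pos h₂ h₁)
    calc ε₂ * ε₁ * dd 2 ν ^ r = ε₂ * (ε₁ * dd 2 ν ^ r) := mul_assoc _ _ _
      _ ≤ dens D * (ε₁ * dd 2 ν ^ r) := mul_le_mul_of_nonneg_right hD (mul_pos h₁ h4).le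
      _ ≤ K * (ε₂ * ε₁) * 𝔼 v, (#(S' v) : ℝ) :=
          (h3.trans h5).trans (mul_le_mul_of_nonneg_right h7 h6)
      _ = _ := by ring
  · refine ⟨fun _ => ⊥, fun _ => by rw [finrank_bot]; exact Nat.zero_le _,
      fun N τ hτ hh => ⟨_, cadC_ne hr, ?_⟩⟩
    rw [mulVec_mulVec, hA (M + cj U N) U (by rw [hw.inv]; exact hMU) τ hτ hh, zero_mulVec]
    exact Submodule.zero_mem _

theorem adapt (hW : CWUs) (hP : PTLs) : ADAPT := by
  intro r ε₁ ε₂ F g hr h₁ h₂ hg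
  obtain ⟨K1, ξ, hξ, n1, H1⟩ := LO hP r ε₁ (ε₂ / 2) F g hr h₁ (half_pos h₂) hg
  obtain ⟨K2, lam, hlam, n2, H2⟩ :=
    HI hW r ε₁ (ε₂ / 2) (ξ ^ 4) F g hr h₁ (half_pos h₂) (pow_pos hξ 4) hg
  refine ⟨max K1 K2, min ξ lam, lt_min hξ hlam, max n1 n2, fun ν _ _ hn D S hD hS => ?_⟩
  let P : Set (ν → ZMod 2) :=
    {v | (Finset.addEnergy (S v) (S v) : ℝ) ≤ ξ ^ 4 * dd 2 ν ^ (3 * r)}
  have h1 : dens D = dens (D ∩ P) + dens (D ∩ Pᶜ) := by
    rw [dens, dens, dens, ← Finset.expect_add_distrib]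
    refine Finset.expect_congr rfl fun v _ => ?_
    rw [ind_inter, ind_inter]
    by_cases hv : v ∈ P
    · rw [ind_of_mem hv, ind_of_not (A := Pᶜ) fun h => h hv, mul_one, mul_zero, add_zero]
    · rw [ind_of_not hv, ind_of_mem (A := Pᶜ) hv, mul_one, mul_zero, zero_add]
  by_cases h2 : ε₂ / 2 ≤ dens (D ∩ P)
  · exact cadC_mono (H1 ν ((le_max_left _ _).trans hn) (D ∩ P) S h2 fun v hv =>
      ⟨cadC_Lf (hS v hv.1) (min_le_left _ _), hv.2⟩) (le_max_left _ _) Set.inter_subset_left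
  · exact cadC_mono (H2 ν ((le_max_right _ _).trans hn) (D ∩ Pᶜ) S (by linarith) fun v hv =>
      ⟨cadC_Lf (hS v hv.1) (min_le_right _ _), le_of_not_ge hv.2⟩) (le_max_right _ _)
      Set.inter_subset_left

end Pool.Agent.Work.MP_4523ee_co.F2
end

-- merged part: Pool.Agent.Work.MP_4523ee_co.F2.CKey
section
/-!
Fibred cleaning: the induction on the codimension.
-/

set_option autoImplicit false
set_option linter.unusedSectionVars false

namespace Pool.Agent.Work.MP_4523ee_co.F2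

open Finset hiding dens
open Matrix Fp Fp.Po
open scoped BigOperators ComplexConjugate

variable {ν ν' : Type} [Fintype ν] [DecidableEq ν] [Fintype ν'] [DecidableEq ν']

lemma ckA_LtS {r : ℕ} {b b' : ℝ} {F F' : Finset (SV 2 ν)} (h : LtS r b F) (hb : b ≤ b')
    (hF : F' ⊆ F) : LtS r b' F' := by
  classical
  intro Z h1 h2
  have := dd_pos (p := 2) (ν := ν)
  refine le_trans ?_ ((h Z h1 h2).trans (by gcongr))
  exact Nat.cast_le.2 (card_le_card (filter_subset_filter _ hF))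

lemma ckA_lt {r : ℕ} {lam : ℝ} {S : Finset (TT 2 r ν)} (hl : 0 ≤ lam) (h : Fam lam S) :
    Mo.Lt lam S := by
  classical
  intro g h0 h1 σ
  rcases (S.filter fun τ => rm τ g = σ).eq_empty_or_nonempty with h2 | ⟨τ0, h2⟩
  · rw [h2, card_empty, Nat.cast_zero]
    have := dd_pos (p := 2) (ν := ν)
    positivity
  obtain ⟨a, rfl⟩ := mem_filter.1 h2
  have hi : Inj (yM τ0) := Matrix.mulVec_injective_iff.2 (h.indep τ0 a)
  have hinj : Function.Injective ((yM τ0).mulVecLin.prod (zM τ0).mulVecLin) := fun x y e =>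
    hi (congrArg Prod.fst e)
  have e1 : Module.finrank (ZMod 2) ((LinearMap.range g.mulVecLin).map
      ((yM τ0).mulVecLin.prod (zM τ0).mulVecLin)) = g.rank :=
    (Submodule.equivMapOfInjective _ hinj _).finrank_eq.symm
  have h3 := h.light _ (e1 ▸ h0) (e1 ▸ h1)
  rw [e1] at h3
  refine le_trans (Nat.cast_le.2 (card_le_card fun τ hτ => ?_)) h3
  obtain ⟨c, d⟩ := mem_filter.1 hτ
  refine mem_filter.2 ⟨c, ?_⟩
  rintro _ ⟨_, ⟨x, rfl⟩, rfl⟩
  have d1 : yM τ * g = yM τ0 * g := congrArg yM d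
  have d2 : zM τ * g = zM τ0 * g := congrArg zM d
  rw [spn_eq]
  refine ⟨g *ᵥ x, Prod.ext ?_ ?_⟩
  · show yM τ *ᵥ (g *ᵥ x) = yM τ0 *ᵥ (g *ᵥ x)
    rw [mulVec_mulVec, mulVec_mulVec, d1]
  · show zM τ *ᵥ (g *ᵥ x) = zM τ0 *ᵥ (g *ᵥ x)
    rw [mulVec_mulVec, mulVec_mulVec, d2]

/-- one spanning tuple for each member of a light family -/
lemma exists_tuples {r : ℕ} {ε lam : ℝ} {v : ν → ZMod 2} {F : Finset (SV 2 ν)} (hε : ε ≤ 1)
    (hl : 0 ≤ lam) (h1 : Liv r v F) (h2 : LtS r lam F) (h3 : ε * dd 2 ν ^ r ≤ #F) :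
    ∃ S : Finset (TT 2 r ν), Lf ε lam v S ∧ (∀ τ ∈ S, spn τ ∈ F) ∧
      ∀ τ ∈ S, ∀ τ' ∈ S, spn τ = spn τ' → τ = τ' := by
  obtain ⟨F', hF', hc⟩ := exists_subset_card_eq (s := F)
    (min_le_left #F ((2 ^ Fintype.card ν) ^ r))
  obtain ⟨S, h4, h5, h6⟩ := exists_Fam (ρ := r) lam F'
    (fun Y hY => ⟨(h1 Y (hF' hY)).1, (h1 Y (hF' hY)).2.mono Set.inter_subset_left⟩)
    (ckA_LtS h2 le_rfl hF')
  have hd : dd 2 ν ^ r = (((2 ^ Fintype.card ν) ^ r : ℕ) : ℝ) := by simp [dd]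
  have hp : 0 < dd 2 ν ^ r := pow_pos dd_pos r
  refine ⟨S, ⟨ckA_lt hl h4, ?_, ?_, fun τ hτ => Matrix.mulVec_injective_iff.2 (h4.indep τ hτ),
    fun τ hτ => ?_⟩, fun τ hτ => hF' (h6 τ hτ), h4.inj⟩
  · rw [h5, hc, Nat.cast_min, ← hd]
    exact le_min h3 (by nlinarith)
  · rw [h5, hc, Nat.cast_min, ← hd]
    exact min_le_right _ _
  · obtain ⟨A, hA⟩ := (live_iff v _).1 (h1 _ (hF' (h6 τ hτ))).2
    exact Mo.live_of_hit ((Mo.hit_iff _ _).2 hA)

/-- no large light family of heavy spaces on many fibres -/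
theorem KEY (hA : ADAPT) (hD : DCs) {s j : ℕ} (h : CLN s j) (r : ℕ) (η θ ε₁ ε₂ : ℝ) (hr : 0 < r)
    (hη : 0 < η) (hθ : 0 < θ) (h₁ : 0 < ε₁) (h₂ : 0 < ε₂) :
    ∃ lam : ℝ, 0 < lam ∧ Ev 2 fun ν _ _ A =>
      ∀ (D : Set (ν → ZMod 2)) (Zf : (ν → ZMod 2) → Finset (SV 2 ν)),
        (∀ v ∈ D, Liv r v (Zf v) ∧ LtS r lam (Zf v) ∧ ε₁ * dd 2 ν ^ r ≤ #(Zf v) ∧
          ∀ Z ∈ Zf v, θ * Mo.fd (Mo.Dg v) (CY Z) ≤ Mo.fd (Mo.Dg v) (BZ η s A (j + 1) v Z)) →
        dens D < ε₂ := by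
  classical
  obtain ⟨C, hC, hDC⟩ := hD r
  have hT := fun K : ℕ => TRF2 hη (CLK_of_CLN h (j + 1) K (η := η / 4) (by positivity))
    (θ ^ 2 / (2 * C * (K + 1))) (by positivity)
  choose J η0 hη0 g hg hT using hT
  obtain ⟨K0, lam, hlam, n0, hAd⟩ := hA r (min ε₁ 1) ε₂ J g hr (lt_min h₁ one_pos) h₂ hg
  refine ⟨min lam 1, lt_min hlam one_pos, (Ev.all (range (K0 + 1)) fun K _ =>
    Ev_basic (η0 K) (hη0 K) n0).mono fun ν _ _ A hE D Zf hZ => ?_⟩
  by_contra hc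
  have hp : 0 < dd 2 ν ^ r := pow_pos dd_pos r
  have hS : ∀ v, ∃ S : Finset (TT 2 r ν), v ∈ D → Lf (min ε₁ 1) lam v S ∧
      (∀ τ ∈ S, spn τ ∈ Zf v) ∧ ∀ τ ∈ S, ∀ τ' ∈ S, spn τ = spn τ' → τ = τ' := by
    intro v
    by_cases hv : v ∈ D
    · obtain ⟨a1, a2, a3, -⟩ := hZ v hv
      obtain ⟨S, hS⟩ := exists_tuples (min_le_right ε₁ 1) hlam.le a1
        (ckA_LtS a2 (min_le_left _ _) (Subset.refl _))
        ((mul_le_mul_of_nonneg_right (min_le_left _ _) hp.le).trans a3)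
      exact ⟨S, fun _ => hS⟩
    · exact ⟨∅, fun h => absurd h hv⟩
  choose S hS using hS
  obtain ⟨K, hK, S', hS', hmass, w, hw, hadp⟩ :=
    hAd ν (hE 0 (by simp)).1 D S (not_lt.1 hc) fun v hv => (hS v hv).1
  have hmem : ∀ v, ∀ τ ∈ S' v, v ∈ D := fun v τ hτ => by
    by_contra hv
    rw [(hS' v).2 hv] at hτ
    exact notMem_empty _ hτ
  obtain ⟨Ys, hYs⟩ : ∃ Ys : (ν → ZMod 2) → Set (SV 2 ν), ∀ v Y, Y ∈ Ys v ↔
      Module.finrank (ZMod 2) Y = j + 1 ∧ BadY η s A v Y ∧ ∃ τ ∈ S' v, spn τ ≤ Y :=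
    ⟨fun v => {Y | _}, fun _ _ => Iff.rfl⟩
  have hDrop : Drop j K Ys w := by
    intro M U hw0
    obtain ⟨Ξ, hΞ, hq⟩ := hadp M U hw0
    refine ⟨Ξ, hΞ, fun N Y hY hM => ?_⟩
    obtain ⟨b1, -, τ, hτ, hle⟩ := (hYs _ _).1 hY
    obtain ⟨c, hc0, hcΞ⟩ := hq N τ hτ ((Mo.hit_iff _ _).2 (CY_anti hle hM))
    have hi := (hS _ (hmem _ τ hτ)).1.inj τ ((hS' _).1 hτ)
    have hne : ((yM τ *ᵥ c, zM τ *ᵥ c) : (ν → ZMod 2) × (ν → ZMod 2)) ≠ 0 := fun e =>
      hc0 (hi ((congrArg Prod.fst e).trans (mulVec_zero _).symm))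
    refine ⟨Submodule.span (ZMod 2) {(yM τ *ᵥ c, zM τ *ᵥ c)}, ?_, ?_, fun q hq => ?_⟩
    · rw [Submodule.span_singleton_le_iff_mem]
      refine hle ?_
      rw [spn_eq]
      exact ⟨c, rfl⟩
    · rw [finrank_span_singleton hne, b1]
    · obtain ⟨a, rfl⟩ := Submodule.mem_span_singleton.1 hq
      show Uᵀ *ᵥ (a • (yM τ *ᵥ c)) ∈ _
      rw [mulVec_smul]
      exact Submodule.smul_mem _ _ hcΞ
  have hB := hT K ν A (hE K (mem_range.2 (by omega))).2 w Ys hw hDrop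
    fun v Y hY => ⟨((hYs _ _).1 hY).1.le, ((hYs _ _).1 hY).2.1⟩
  have hv : ∀ v, θ ^ 2 * (#(S' v) : ℝ) ≤
      C * dd 2 ν ^ r * Mo.fd (Mo.Dg v) {M | ∃ Y ∈ Ys (dg M), M ∈ CY Y} := by
    intro v
    by_cases hv : v ∈ D
    · obtain ⟨a1, a2, -, a4⟩ := hZ v hv
      obtain ⟨b1, b2, b3⟩ := hS v hv
      have hsub : (S' v).image spn ⊆ Zf v := fun Y hY => by
        obtain ⟨τ, hτ, rfl⟩ := mem_image.1 hY
        exact b2 τ ((hS' v).1 hτ)
      have hcard : #((S' v).image spn) = #(S' v) :=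
        card_image_of_injOn fun τ hτ τ' hτ' e => b3 τ ((hS' v).1 hτ) τ' ((hS' v).1 hτ') e
      rw [← hcard]
      refine hDC ν v r _ _ θ hr le_rfl (fun Y hY => a1 Y (hsub hY))
        (ckA_LtS a2 (min_le_right _ _) hsub) ?_ hθ.le fun Y hY => (a4 Y (hsub hY)).trans ?_
      · rw [hcard]
        exact le_trans (Nat.cast_le.2 (card_le_card (hS' v).1)) b1.hi
      · obtain ⟨τ, hτ, rfl⟩ := mem_image.1 hY
        refine fd_mono _ ?_
        rintro M - ⟨Y', c1, c2, ⟨c3, c4⟩, c5⟩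
        have c6 : dg M = v := c4
        exact ⟨⟨Y', (hYs _ _).2 (c6 ▸ ⟨c2, c5, τ, hτ, c1⟩), c3⟩, CY_anti c1 c3⟩
    · rw [(hS' v).2 hv, card_empty, Nat.cast_zero, mul_zero]
      exact mul_nonneg (by positivity) (Mo.fd_nonneg _ _)
  have hav := expect_le_expect (s := univ) fun v _ => hv v
  rw [← mul_expect, ← mul_expect, ← dens_fib] at hav
  have hK0 : (0 : ℝ) ≤ K := Nat.cast_nonneg K
  have e1 : θ ^ 2 * dd 2 ν ^ r ≤ K * (C * dd 2 ν ^ r * (θ ^ 2 / (2 * C * (K + 1)))) :=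
    calc θ ^ 2 * dd 2 ν ^ r ≤ θ ^ 2 * (K * 𝔼 v, (#(S' v) : ℝ)) := by gcongr
      _ = K * (θ ^ 2 * 𝔼 v, (#(S' v) : ℝ)) := by ring
      _ ≤ _ := mul_le_mul_of_nonneg_left (hav.trans (by gcongr)) hK0
  have e2 : K * (C * dd 2 ν ^ r * (θ ^ 2 / (2 * C * (K + 1)))) =
      θ ^ 2 * dd 2 ν ^ r * (K / (2 * (K + 1))) := by
    field_simp
  have e3 : (K : ℝ) / (2 * (K + 1)) < 1 := by
    rw [div_lt_one (by positivity)]
    linarith
  have e4 : 0 < θ ^ 2 * dd 2 ν ^ r := by positivity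
  nlinarith

/-- the union of the heavy cosets of codimension at most `r` -/
def HU (η : ℝ) (s : ℕ) (A : Set (SymM 2 ν)) (i r : ℕ) (θ : ℝ) : Set (SymM 2 ν) :=
  {M | ∃ Z : SV 2 ν, 0 < Module.finrank (ZMod 2) Z ∧ Module.finrank (ZMod 2) Z ≤ r ∧ M ∈ CY Z ∧
    θ * Mo.fd (Mo.Dg (dg M)) (CY Z) ≤ Mo.fd (Mo.Dg (dg M)) (BZ η s A i (dg M) Z)}

lemma ckB_dd : 0 < dd 2 ν := by
  unfold dd
  positivity

lemma ckB_un {α : Type} [Fintype α] {E A B : Set α} (h : ∀ x ∈ E, x ∈ A ∨ x ∈ B) :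
    dens E ≤ dens A + dens B := by
  unfold dens
  rw [← expect_add_distrib]
  refine expect_le_expect fun x _ => ?_
  by_cases hx : x ∈ E
  · rw [ind_of_mem hx]
    rcases h x hx with h1 | h1
    · rw [ind_of_mem h1]
      linarith [ind_nonneg B x]
    · rw [ind_of_mem h1]
      linarith [ind_nonneg A x]
  · rw [ind_of_not hx]
    linarith [ind_nonneg A x, ind_nonneg B x]

lemma ckB_sub (η : ℝ) (s : ℕ) (A : Set (SymM 2 ν)) (i : ℕ) (v : ν → ZMod 2) (S : SV 2 ν) :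
    BZ η s A i v S ∩ CY S = BZ η s A i v S :=
  Set.inter_eq_left.2 fun _ ⟨_, h1, _, h3, _⟩ q hq => h3.1 q (h1 hq)

lemma ckB_anti (η : ℝ) (s : ℕ) (A : Set (SymM 2 ν)) (i : ℕ) (v : ν → ZMod 2) :
    Antitone (BZ η s A i v) :=
  fun _ _ hab _ ⟨Y, h1, h2⟩ => ⟨Y, hab.trans h1, h2⟩

lemma ckB_lt {r : ℕ} {b b' : ℝ} {F : Finset (SV 2 ν)} (h : LtS r b F) (hb : b ≤ b') :
    LtS r b' F := fun Z h1 h2 =>
  (h Z h1 h2).trans (mul_le_mul_of_nonneg_right hb (pow_pos ckB_dd _).le)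

/-- the minimal heavy spaces of dimension `r` -/
noncomputable def ckB_Z (η : ℝ) (s : ℕ) (A : Set (SymM 2 ν)) (i r : ℕ) (θ β : ℝ)
    (v : ν → ZMod 2) : Finset (SV 2 ν) :=
  (Set.toFinite {Z : SV 2 ν | (Module.finrank (ZMod 2) Z = r ∧ (CY Z ∩ Fb v).Nonempty) ∧
    θ * Mo.fd (Mo.Dg v) (CY Z) ≤ Mo.fd (Mo.Dg v) (BZ η s A i v Z) ∧
    ∀ S, S < Z → 0 < Module.finrank (ZMod 2) S →
      Mo.fd (Mo.Dg v) (BZ η s A i v S) ≤ β * Mo.fd (Mo.Dg v) (CY S)}).toFinset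

lemma ckB_mem {η : ℝ} {s : ℕ} {A : Set (SymM 2 ν)} {i r : ℕ} {θ β : ℝ} {v : ν → ZMod 2}
    {Z : SV 2 ν} : Z ∈ ckB_Z η s A i r θ β v ↔
      (Module.finrank (ZMod 2) Z = r ∧ (CY Z ∩ Fb v).Nonempty) ∧
      θ * Mo.fd (Mo.Dg v) (CY Z) ≤ Mo.fd (Mo.Dg v) (BZ η s A i v Z) ∧
      ∀ S, S < Z → 0 < Module.finrank (ZMod 2) S →
        Mo.fd (Mo.Dg v) (BZ η s A i v S) ≤ β * Mo.fd (Mo.Dg v) (CY S) :=
  Set.Finite.mem_toFinset _

lemma ckB_small {r : ℕ} {t : ℝ} (ht : 0 < t) (Zf : (ν → ZMod 2) → Finset (SV 2 ν))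
    (hl : ∀ v, Liv r v (Zf v)) :
    dens {M : SymM 2 ν | ¬ t / 2 ^ (r + 1).choose 2 * dd 2 ν ^ r ≤ (Zf (dg M)).card ∧
      ∃ Z ∈ Zf (dg M), M ∈ CY Z} ≤ t := by
  rw [dens_fib]
  refine (expect_le_expect (g := fun _ => t) fun v _ => ?_).trans
    (by rw [expect_const univ_nonempty])
  by_cases hv : t / 2 ^ (r + 1).choose 2 * dd 2 ν ^ r ≤ (Zf v).card
  · refine (fd_mono _ (E' := ∅) fun M h1 h2 => ?_).trans ?_
    · rw [dg_Dg] at h1
      exact h2.1 (h1 ▸ hv)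
    · exact (Mo.mb_empty _ fun ⟨_, hA⟩ => hA).le.trans ht.le
  · have hd : 0 < dd 2 ν ^ r := pow_pos ckB_dd _
    refine (dens_le_sum (Zf v) _ (fun Z => {A : Mo.AltM ν | Mo.Dg v + A.1 ∈ CY Z})
      fun A hA => ?_).trans ?_
    · obtain ⟨_, Z, h1, h2⟩ := hA
      rw [cfA_dg, dg_Dg] at h1
      exact ⟨Z, h1, h2⟩
    · have e : ∀ Z ∈ Zf v, dens {A : Mo.AltM ν | Mo.Dg v + A.1 ∈ CY Z} = Mo.pp r ν := by
        intro Z hZ
        have := Mo.PZ (Mo.Dg v) Z ((live_iff v Z).1 (hl v Z hZ).2)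
        rwa [(hl v Z hZ).1] at this
      rw [sum_congr rfl e, sum_const, nsmul_eq_mul, Mo.pp, mul_div_assoc', div_le_iff₀ hd]
      have h2 : (0 : ℝ) < 2 ^ (r + 1).choose 2 := by positivity
      have h3 := (not_le.1 hv).le
      rw [div_mul_eq_mul_div, le_div_iff₀ h2] at h3
      exact h3

theorem HV (hA : ADAPT) (hD : DCs) (hL : LIs) {s j : ℕ} (h : CLN s j) {η : ℝ} (hη : 0 < η)
    (r : ℕ) : ∀ θ ε : ℝ, 0 < θ → 0 < ε → Ev 2 fun _ _ _ A => dens (HU η s A (j + 1) r θ) ≤ ε := by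
  induction r with
  | zero =>
    intro θ ε _ hε
    refine (Ev_basic 1 one_pos 0).mono fun ν _ _ A _ => ?_
    have e : HU η s A (j + 1) 0 θ = ∅ :=
      Set.eq_empty_of_forall_notMem fun M ⟨Z, h1, h2, _⟩ => absurd h1 (not_lt.2 h2)
    rw [e]
    simp [dens, ind, hε.le]
  | succ r ih =>
    intro θ ε hθ hε
    obtain ⟨C, hC, HL⟩ := hL (r + 1)
    have h3 : 0 < ε / 3 := by positivity
    obtain ⟨lam, hlam, HK⟩ := KEY hA hD h (r + 1) η θ (ε / 3 / 2 ^ (r + 1 + 1).choose 2) (ε / 3)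
      r.succ_pos hη hθ (by positivity) h3
    have hm : 0 < min lam 1 := lt_min hlam one_pos
    set β := min θ (min lam 1 * θ ^ 2 / (2 * C)) with hβ
    have hβ0 : 0 < β := lt_min hθ (by positivity)
    have hβ1 : β ≤ θ := min_le_left _ _
    have hβ2 : C * β ≤ min lam 1 * θ ^ 2 / 2 := by
      have := mul_le_mul_of_nonneg_left (min_le_right θ (min lam 1 * θ ^ 2 / (2 * C))) hC.le
      refine this.trans (le_of_eq ?_)
      field_simp
    have hθ2 : 0 < θ ^ 2 := by positivity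
    have hβ3 : C * β < θ ^ 2 := by nlinarith [min_le_right lam 1]
    have hβ4 : C * β / θ ^ 2 ≤ lam := by
      rw [div_le_iff₀ hθ2]
      nlinarith [min_le_left lam 1]
    refine ((ih β (ε / 3) hβ0 h3).and HK).mono fun ν _ _ A ⟨h1, h2⟩ => ?_
    have hl : ∀ v, Liv (r + 1) v (ckB_Z η s A (j + 1) (r + 1) θ β v) :=
      fun v Z hZ => (ckB_mem.1 hZ).1
    have h4 := h2 {v | ε / 3 / 2 ^ (r + 1 + 1).choose 2 * dd 2 ν ^ (r + 1) ≤
        (ckB_Z η s A (j + 1) (r + 1) θ β v).card} (ckB_Z η s A (j + 1) (r + 1) θ β)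
      fun v hv => ⟨hl v, ckB_lt (HL ν v (r + 1) _ (BZ η s A (j + 1) v) θ β le_rfl (hl v)
        (ckB_anti η s A _ v) hθ hβ0.le hβ3
        (fun Y hY => by rw [ckB_sub]; exact (ckB_mem.1 hY).2.1)
        (fun Y hY S hS h0 => by rw [ckB_sub]; exact (ckB_mem.1 hY).2.2 S hS h0)) hβ4, hv,
        fun Z hZ => (ckB_mem.1 hZ).2.1⟩
    have h5 := ckB_small h3 (ckB_Z η s A (j + 1) (r + 1) θ β) hl
    have h6 : dens {M : SymM 2 ν | ε / 3 / 2 ^ (r + 1 + 1).choose 2 * dd 2 ν ^ (r + 1) ≤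
        (ckB_Z η s A (j + 1) (r + 1) θ β (dg M)).card} < ε / 3 :=
      lt_of_eq_of_lt (expect_dg (ind {v | ε / 3 / 2 ^ (r + 1 + 1).choose 2 * dd 2 ν ^ (r + 1) ≤
        (ckB_Z η s A (j + 1) (r + 1) θ β v).card})) h4
    have h7 : dens {M : SymM 2 ν | ∃ Z ∈ ckB_Z η s A (j + 1) (r + 1) θ β (dg M), M ∈ CY Z} ≤
        ε / 3 + ε / 3 := by
      refine le_trans (ckB_un fun M hM => ?_) (add_le_add h6.le h5)
      exact (em _).imp id fun hn => ⟨hn, hM⟩
    refine (ckB_un (fun M hM => (em _).imp id fun hn => ?_)).trans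
      ((add_le_add h1 h7).trans (by linarith))
    obtain ⟨Z, z1, z2, z3, z4⟩ := hM
    have key : ∀ S : SV 2 ν, 0 < Module.finrank (ZMod 2) S → Module.finrank (ZMod 2) S ≤ r →
        M ∈ CY S → Mo.fd (Mo.Dg (dg M)) (BZ η s A (j + 1) (dg M) S) <
          β * Mo.fd (Mo.Dg (dg M)) (CY S) :=
      fun S s1 s2 s3 => not_le.1 fun s4 => hn ⟨S, s1, s2, s3, s4⟩
    have z5 : Module.finrank (ZMod 2) Z = r + 1 := by
      by_contra hne
      have := key Z z1 (by omega) z3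
      have h0 : 0 ≤ Mo.fd (Mo.Dg (dg M)) (CY Z) := dens_nonneg _
      nlinarith
    refine ⟨Z, ckB_mem.2 ⟨⟨z5, M, z3, rfl⟩, z4, fun S hS h0 => (key S h0 ?_ ?_).le⟩, z3⟩
    · have := Submodule.finrank_lt_finrank_of_lt hS
      omega
    · exact fun q hq => z3 q (hS.le hq)

theorem CLN_succ (hA : ADAPT) (hD : DCs) (hL : LIs) {s j : ℕ} (h : CLN s j) : CLN s (j + 1) := by
  intro η ε hη hε
  refine ((h η (ε / 2) hη (half_pos hε)).and
    (HV hA hD hL h hη (j + 1) 1 (ε / 2) one_pos (half_pos hε))).mono fun ν _ _ A ⟨h1, h2⟩ => ?_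
  refine (ckB_un fun M hM => ?_).trans ((add_le_add h1 h2).trans (by linarith))
  obtain ⟨Y, y1, y2, y3⟩ := hM
  by_cases hj : Module.finrank (ZMod 2) Y ≤ j
  · exact .inl ⟨Y, hj, y2, y3⟩
  · refine .inr ⟨Y, by omega, y1, y2, ?_⟩
    rw [one_mul]
    refine fd_mono _ fun N h3 h4 => ⟨Y, le_rfl, by omega, ⟨h4, ?_⟩, y3⟩
    exact h3.trans (dg_Dg _)

theorem FC_of (hA : ADAPT) (hD : DCs) (hL : LIs) {s : ℕ} (hC : Claim2 2 s) (R : ℕ) :
    FCout s R := by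
  refine FC_of_CLN ?_
  induction R with
  | zero => exact CLN_zero hC
  | succ j ih => exact CLN_succ hA hD hL ih

end Pool.Agent.Work.MP_4523ee_co.F2
end
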