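import Mathlib
import Pool.Agent.Work.MP_4523ee_co.Fp.Wick
import Pool.Agent.Work.MP_4523ee_co.Fp.End
import Pool.Agent.Work.MP_4523ee_co.F2.PtB
import Pool.Agent.Work.MP_4523ee_co.F2.AlA
import Pool.Agent.Work.MP_4523ee_co.Fp.Inv

-- merged part: Pool.Agent.Work.MP_4523ee_co.F2.Weyl2
section
/-!
Weyl calculus in characteristic two. The operator `W β (u, v)` of the odd case is the plain
product of a shift and a modulation here, and commuting families need a phase function.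
-/

set_option autoImplicit false
set_option linter.unusedSectionVars false

namespace Pool.Agent.Work.MP_4523ee_co.F2

open Finset hiding dens
open Matrix Pool.Agent.Work.MP_4523ee_co.Fp
open scoped BigOperators ComplexConjugate

lemma ee_neg2 (t : ZMod 2) : ee (-t) = ee t := by rw [CharTwo.neg_eq]

lemma ee_mul_self2 (t : ZMod 2) : ee t * ee t = 1 := by
  rw [← ee_add, CharTwo.add_self_eq_zero, ee_zero]

lemma conj_ee2 (t : ZMod 2) : conj (ee t) = ee t := by rw [conj_ee, ee_neg2]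

lemma ee_one2 : ee (1 : ZMod 2) = -1 := by
  have h := ee_mul_self2 1
  rcases mul_self_eq_one_iff.1 h with h1 | h1
  · exact absurd (ee_eq_one.1 h1) one_ne_zero
  · exact h1

lemma add_self2 {Y : Type} [AddCommGroup Y] [Module (ZMod 2) Y] (y : Y) : y + y = 0 := by
  rw [← two_smul (ZMod 2) y, show (2 : ZMod 2) = 0 from rfl, zero_smul]

lemma neg_eq2 {Y : Type} [AddCommGroup Y] [Module (ZMod 2) Y] (y : Y) : -y = y :=
  neg_eq_of_add_eq_zero_right (add_self2 y)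

/-- an alternating form is the polar form of a bilinear form -/
lemma exists_half {L : Type} [AddCommGroup L] [Module (ZMod 2) L] [Fintype L] (b : Bil 2 L)
    (hb : ∀ x, b x x = 0) : ∃ c : Bil 2 L, ∀ x y, b x y = c x y + c y x := by
  have hs : ∀ x y, b x y = b y x := fun x y => by
    have h := hb (x + y)
    simp only [map_add, LinearMap.add_apply, hb, zero_add, add_zero] at h
    rw [← CharTwo.neg_eq (b y x)]
    exact eq_neg_of_add_eq_zero_right h
  let e := Module.finBasis (ZMod 2) L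
  let c : Bil 2 L := e.constr (ZMod 2) fun i => e.constr (ZMod 2) fun j =>
    if i < j then b (e i) (e j) else 0
  have hc : ∀ i j, c (e i) (e j) = if i < j then b (e i) (e j) else 0 := fun i j => by
    simp only [c, Module.Basis.constr_basis]
  have h : b = c + c.flip := by
    refine LinearMap.ext_basis e e fun i j => ?_
    rw [LinearMap.add_apply, LinearMap.add_apply, LinearMap.flip_apply, hc, hc]
    rcases lt_trichotomy i j with h | h | h
    · rw [if_pos h, if_neg h.not_gt, add_zero]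
    · rw [h, if_neg (lt_irrefl j), hb, add_zero]
    · rw [if_neg h.not_gt, if_pos h, zero_add, hs]
  exact ⟨c, fun x y => by rw [h]; rfl⟩

/-- a fourth root of unity valued refinement of a symmetric form -/
lemma exists_phase {L : Type} [AddCommGroup L] [Module (ZMod 2) L] [Fintype L] (b : Bil 2 L)
    (hb : ∀ x y, b x y = b y x) :
    ∃ σ : L → ℂ, (∀ x, ‖σ x‖ = 1) ∧ ∀ x y, σ x * σ y * ee (b x y) = σ (x + y) := by
  have hq : ∀ t : ZMod 2, t * t = t := by decide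
  let lam : L →ₗ[ZMod 2] ZMod 2 :=
    { toFun := fun x => b x x
      map_add' := fun x y => by
        simp only [map_add, LinearMap.add_apply]
        rw [hb y x]
        linear_combination CharTwo.add_self_eq_zero (b x y)
      map_smul' := fun s x => by
        simp only [map_smul, LinearMap.smul_apply, smul_eq_mul, RingHom.id_apply]
        rw [← mul_assoc, hq] }
  obtain ⟨c, hc⟩ := exists_half (b + (LinearMap.mul (ZMod 2) (ZMod 2)).compl₁₂ lam lam)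
    fun x => by
      show b x x + b x x * b x x = 0
      rw [hq, CharTwo.add_self_eq_zero]
  let τ : ZMod 2 → ℂ := fun t => if t = 0 then 1 else Complex.I
  have hτ : ∀ s t, τ s * τ t * ee (s * t) = τ (s + t) := by
    have h01 : ∀ s : ZMod 2, s = 0 ∨ s = 1 := by decide
    intro s t
    rcases h01 s with rfl | rfl <;> rcases h01 t with rfl | rfl
    · simp [τ]
    · simp [τ]
    · simp [τ]
    · simp only [τ, mul_one, ee_one2, CharTwo.add_self_eq_zero, if_true, one_ne_zero, if_false]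
      rw [Complex.I_mul_I]
      ring
  refine ⟨fun x => τ (lam x) * ee (c x x), fun x => ?_, fun x y => ?_⟩
  · rw [norm_mul, norm_ee, mul_one]
    simp only [τ]
    split_ifs <;> simp
  · have h1 : b x y = lam x * lam y + (c x y + c y x) := by
      rw [← hc]
      show b x y = lam x * lam y + (b x y + lam x * lam y)
      linear_combination -CharTwo.add_self_eq_zero (lam x * lam y)
    show τ (lam x) * ee (c x x) * (τ (lam y) * ee (c y y)) * ee (b x y) =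
      τ (lam (x + y)) * ee (c (x + y) (x + y))
    rw [map_add lam, ← hτ, h1]
    simp only [map_add, LinearMap.add_apply, ee_add]
    ring

variable {X : Type} [AddCommGroup X] [Module (ZMod 2) X]
variable {ν : Type} [Fintype ν] [DecidableEq ν]

lemma W2 (β : Bil 2 X) (x : GX X ν) (a : (ν → X) → ℂ) (l : ν → X) :
    W β x a l = ee (bt β x.2 l) * a (l + x.1) := by
  rw [W, show (2 : ZMod 2) = 0 from rfl, _root_.inv_zero, zero_mul, add_zero]

lemma W_W2 (β : Bil 2 X) (x y : GX X ν) (a : (ν → X) → ℂ) :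
    W β x (W β y a) = fun l => ee (bt β y.2 x.1) * W β (x + y) a l := by
  funext l
  simp only [W2, Prod.fst_add, Prod.snd_add, ← mul_assoc, ← ee_add, add_assoc l, bt_add_left,
    bt_add_right]
  congr 2
  ring

lemma W_comm2 {β : Bil 2 X} (hβ : SymB β) (x y : GX X ν) (a : (ν → X) → ℂ) :
    W β x (W β y a) = fun l => ee (sy β x y) * W β y (W β x a) l := by
  rw [W_W2, W_W2, add_comm y x]
  funext l
  rw [← mul_assoc, ← ee_add, sy, bt_comm hβ x.1]
  congr 2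
  ring

/-- `x ↦ σ x • W (j x)` is a representation -/
def Ph (β : Bil 2 X) {L : Type} [AddCommGroup L] [Module (ZMod 2) L]
    (j : L →ₗ[ZMod 2] GX X ν) (σ : L → ℂ) : Prop :=
  (∀ x, ‖σ x‖ = 1) ∧ ∀ x y, σ x * σ y * ee (bt β (j y).2 (j x).1) = σ (x + y)

/-- joint eigenprojection with a phase function -/
noncomputable def Pq (β : Bil 2 X) {L : Type} [AddCommGroup L] [Module (ZMod 2) L] [Fintype L]
    (j : L →ₗ[ZMod 2] GX X ν) (σ : L → ℂ) (φ : Module.Dual (ZMod 2) L) (a : (ν → X) → ℂ) :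
    (ν → X) → ℂ := fun l => 𝔼 x : L, (ee (-φ x) * σ x) * W β (j x) a l

section Pq
variable {L : Type} [AddCommGroup L] [Module (ZMod 2) L] [Fintype L]
  {β : Bil 2 X} {j : L →ₗ[ZMod 2] GX X ν} {σ : L → ℂ}

lemma Pq_one (φ : Module.Dual (ZMod 2) L) (a : (ν → X) → ℂ) :
    Pq β j (fun _ => 1) φ a = Pj β j φ a := by
  funext l
  simp only [Pq, Pj, mul_one]

lemma Ph_one (hj : ∀ x y, bt β (j y).2 (j x).1 = 0) : Ph β j fun _ => 1 :=
  ⟨fun _ => norm_one, fun x y => by rw [hj, ee_zero, mul_one, mul_one]⟩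

lemma Ph_pw [Fintype X] {N : Submodule (ZMod 2) X} (h : Iso β N) : Ph β (pw ν N).subtype fun _ => 1 :=
  Ph_one fun x y => sum_eq_zero fun i _ => h _ ((mem_pw.1 y.2).2 i) _ ((mem_pw.1 x.2).1 i)

lemma exists_Ph (hβ : SymB β) (hj : ∀ x y, sy β (j x) (j y) = 0) : ∃ σ, Ph β j σ := by
  refine exists_phase (LinearMap.mk₂ (ZMod 2) (fun x y => bt β (j y).2 (j x).1)
    (fun x x' y => ?_) (fun c x y => ?_) (fun x y y' => ?_) fun c x y => ?_) fun x y => ?_
  · rw [map_add, Prod.fst_add, bt_add_right]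
  · rw [map_smul, Prod.smul_fst, bt_smul_right, smul_eq_mul]
  · rw [map_add, Prod.snd_add, bt_add_left]
  · rw [map_smul, Prod.smul_snd, bt_smul_left, smul_eq_mul]
  · have h := hj x y
    rw [sy, sub_eq_zero, bt_comm hβ] at h
    exact h

lemma Ph.comp (h : Ph β j σ) {L' : Type} [AddCommGroup L'] [Module (ZMod 2) L']
    (i : L' →ₗ[ZMod 2] L) : Ph β (j.comp i) fun x => σ (i x) :=
  ⟨fun _ => h.1 _, fun x y => (h.2 (i x) (i y)).trans (congrArg σ (map_add i x y).symm)⟩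

lemma Ph.zero (h : Ph β j σ) : σ 0 = 1 := by
  have h1 := h.2 0 0
  have h2 : σ 0 ≠ 0 := fun e => by simpa [e] using h.1 0
  rw [map_zero, Prod.fst_zero, bt_zero_right, ee_zero, mul_one, add_zero] at h1
  exact mul_left_cancel₀ h2 (h1.trans (mul_one _).symm)

lemma Ph.conj (h : Ph β j σ) (x : L) : conj (σ x) = σ x * ee (bt β (j x).2 (j x).1) := by
  have h1 := h.2 x x
  rw [add_self2, h.zero] at h1
  have h2 : σ x ≠ 0 := fun e => by simpa [e] using h.1 x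
  refine mul_left_cancel₀ h2 ?_
  rw [Complex.mul_conj', h.1, ← mul_assoc, h1]
  simp

lemma Ph.sy (h : Ph β j σ) (hβ : SymB β) (x y : L) : sy β (j x) (j y) = 0 := by
  have h1 := h.2 x y
  have h2 := h.2 y x
  rw [add_comm y x, ← h1, mul_comm (σ y)] at h2
  have h3 : σ x * σ y ≠ 0 := mul_ne_zero (fun e => by simpa [e] using h.1 x)
    fun e => by simpa [e] using h.1 y
  have h4 := mul_left_cancel₀ h3 h2
  rw [Fp.sy, bt_comm hβ (j x).1, CharTwo.sub_eq_add, ← ee_eq_one, ee_add, h4, ee_mul_self2]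

lemma W_Pq (h : Ph β j σ) (φ : Module.Dual (ZMod 2) L) (a : (ν → X) → ℂ) (x : L) (l : ν → X) :
    σ x * W β (j x) (Pq β j σ φ a) l = ee (φ x) * Pq β j σ φ a l := by
  unfold Pq
  rw [W_expect]
  simp only [W_W2, mul_expect]
  refine Fintype.expect_equiv (Equiv.addLeft x) _ _ fun y => ?_
  simp only [Equiv.coe_addLeft, map_add, ← h.2 x y, neg_add, ee_add, ee_neg2]
  linear_combination (-(ee (φ y) * σ x * σ y * ee (bt β (j y).2 (j x).1) *
    W β (j x + j y) a l)) * ee_mul_self2 (φ x)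

lemma Pq_of_eigen (φ : Module.Dual (ZMod 2) L) (a : (ν → X) → ℂ)
    (h : ∀ x l, σ x * W β (j x) a l = ee (φ x) * a l) : Pq β j σ φ a = a := by
  funext l
  simp only [Pq, mul_assoc, h]
  simp only [← mul_assoc, ← ee_add, neg_add_cancel, ee_zero, one_mul]
  exact Fintype.expect_const _

lemma Pq_Pq (h : Ph β j σ) (φ : Module.Dual (ZMod 2) L) (a : (ν → X) → ℂ) :
    Pq β j σ φ (Pq β j σ φ a) = Pq β j σ φ a := Pq_of_eigen φ _ (W_Pq h φ a)

lemma sum_Pq (h : Ph β j σ) (a : (ν → X) → ℂ) (l : ν → X) :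
    ∑ φ : Module.Dual (ZMod 2) L, Pq β j σ φ a l = a l := by
  classical
  unfold Pq
  rw [← expect_sum_comm]
  have h1 : ∀ x : L, ∑ φ : Module.Dual (ZMod 2) L, (ee (-φ x) * σ x) * W β (j x) a l =
      if x = 0 then (Fintype.card L : ℂ) * a l else 0 := fun x => by
    rw [← sum_mul, ← sum_mul]
    split_ifs with hx
    · simp [hx, card_dual, h.zero]
    · simp only [← map_neg]
      rw [sum_ee_dual _ (neg_ne_zero.2 hx), zero_mul, zero_mul]
  have h0 : (Fintype.card L : ℂ) ≠ 0 := by exact_mod_cast Fintype.card_ne_zero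
  simp only [h1, Fintype.expect_eq_sum_div_card, sum_ite_eq', mem_univ, if_true]
  field_simp

/-- Weyl operators permute the projections -/
lemma W_Pq_comm (hβ : SymB β) (φ : Module.Dual (ZMod 2) L) (a : (ν → X) → ℂ) (y : GX X ν) :
    W β y (Pq β j σ φ a) = Pq β j σ (φ - (syL β ν y).comp j) (W β y a) := by
  unfold Pq
  rw [W_expect]
  funext l
  refine expect_congr rfl fun x _ => ?_
  rw [W_comm2 hβ y]
  simp only [LinearMap.sub_apply, LinearMap.comp_apply, syL_apply, CharTwo.sub_eq_add,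
    ee_add, ee_neg2]
  ring

lemma Pq_expect (φ : Module.Dual (ZMod 2) L) {I : Type} [Fintype I] (c : I → ℂ)
    (a : I → (ν → X) → ℂ) :
    Pq β j σ φ (fun l => 𝔼 i, c i * a i l) = fun l => 𝔼 i, c i * Pq β j σ φ (a i) l := by
  funext l
  simp only [Pq, W_expect, mul_expect]
  rw [expect_comm]
  exact expect_congr rfl fun i _ => expect_congr rfl fun x _ => by ring

variable [Fintype X]

lemma ip_smul_left2 {α : Type} [Fintype α] (c : ℂ) (a b : α → ℂ) :
    ip (fun l => c * a l) b = conj c * ip a b := by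
  simp only [ip, mul_sum, map_mul]
  exact sum_congr rfl fun l _ => by ring

lemma ip_W2 (β : Bil 2 X) (x : GX X ν) (a b : (ν → X) → ℂ) :
    ip a (W β x b) = ee (bt β x.2 x.1) * ip (W β x a) b := by
  rw [← ip_W_W β x a, W_W2, add_self2, W_zero, weyl_ip_mul]

lemma norm_ip_W2 (β : Bil 2 X) (x : GX X ν) (a b : (ν → X) → ℂ) :
    ‖ip a (W β x b)‖ = ‖ip (W β x a) b‖ := by
  rw [ip_W2, norm_mul, norm_ee, one_mul]

lemma ip_Pq_eq (φ : Module.Dual (ZMod 2) L) (a b : (ν → X) → ℂ) :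
    ip b (Pq β j σ φ a) = 𝔼 x : L, (ee (-φ x) * σ x) * ip b (W β (j x) a) :=
  weyl_ip_expect _ b _

lemma ip_Pq (h : Ph β j σ) (φ : Module.Dual (ZMod 2) L) (a b : (ν → X) → ℂ) :
    ip a (Pq β j σ φ b) = ip (Pq β j σ φ a) b := by
  rw [← ip_conj b (Pq β j σ φ a), ip_Pq_eq, ip_Pq_eq, map_expect]
  refine expect_congr rfl fun x _ => ?_
  simp only [map_mul, conj_ee2, ip_conj, h.conj]
  rw [ip_W2]
  ring

lemma nsq_Pq (h : Ph β j σ) (φ : Module.Dual (ZMod 2) L) (a : (ν → X) → ℂ) :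
    (nsq (Pq β j σ φ a) : ℂ) = ip a (Pq β j σ φ a) := by
  rw [← ip_self, ← ip_Pq h, Pq_Pq h]

lemma sum_nsq_Pq (h : Ph β j σ) (a : (ν → X) → ℂ) :
    ∑ φ : Module.Dual (ZMod 2) L, nsq (Pq β j σ φ a) = nsq a := by
  have h1 : ∑ φ : Module.Dual (ZMod 2) L, (nsq (Pq β j σ φ a) : ℂ) = nsq a := by
    simp only [nsq_Pq h]
    rw [← ip_self]
    unfold ip
    rw [sum_comm]
    exact sum_congr rfl fun l _ => by rw [← mul_sum, sum_Pq h]
  exact_mod_cast h1

lemma nsq_Pq_le (h : Ph β j σ) (φ : Module.Dual (ZMod 2) L) (a : (ν → X) → ℂ) :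
    nsq (Pq β j σ φ a) ≤ nsq a := by
  rw [← sum_nsq_Pq h a]
  exact single_le_sum (f := fun φ => nsq (Pq β j σ φ a)) (fun _ _ => nsq_nonneg _) (mem_univ φ)

/-- a smaller group has a larger projection -/
lemma nsq_Pq_le_comp (h : Ph β j σ) {L' : Type} [AddCommGroup L'] [Module (ZMod 2) L']
    [Fintype L'] (i : L' →ₗ[ZMod 2] L) (φ : Module.Dual (ZMod 2) L) (a : (ν → X) → ℂ) :
    nsq (Pq β j σ φ a) ≤ nsq (Pq β (j.comp i) (fun x => σ (i x)) (φ.comp i) a) := by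
  have h1 : Pq β (j.comp i) (fun x => σ (i x)) (φ.comp i) (Pq β j σ φ a) = Pq β j σ φ a :=
    Pq_of_eigen _ _ fun x => W_Pq h φ a (i x)
  have h2 : (nsq (Pq β j σ φ a) : ℂ) =
      ip (Pq β (j.comp i) (fun x => σ (i x)) (φ.comp i) a) (Pq β j σ φ a) := by
    rw [nsq_Pq h, ← ip_Pq (h.comp i), h1]
  have h3 := norm_ip_sq_le (Pq β (j.comp i) (fun x => σ (i x)) (φ.comp i) a) (Pq β j σ φ a)
  rw [← h2, Complex.norm_real, Real.norm_eq_abs, sq_abs, sq] at h3
  rcases (nsq_nonneg (Pq β j σ φ a)).eq_or_lt with h4 | h4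
  · rw [← h4]; exact nsq_nonneg _
  · exact le_of_mul_le_mul_right h3 h4

/-- Parseval along `j` -/
lemma weyl_parseval2 (h : Ph β j σ) (a b : (ν → X) → ℂ) :
    𝔼 x : L, ‖ip b (W β (j x) a)‖ ^ 2 =
      ∑ φ : Module.Dual (ZMod 2) L, ‖ip b (Pq β j σ φ a)‖ ^ 2 := by
  have h1 := parseval_dual_sq (p := 2) fun x : L => σ x * ip b (W β (j x) a)
  simp only [norm_mul, h.1, one_mul] at h1
  rw [h1]
  simp only [ip_Pq_eq, mul_assoc]

lemma weyl_shift2 (hβ : SymB β) (h : Ph β j σ) (a b : (ν → X) → ℂ) (z : GX X ν) :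
    𝔼 x : L, ‖ip b (W β (z + j x) a)‖ ^ 2 ≤ ∑ φ : Module.Dual (ZMod 2) L,
      nsq (Pq β j σ (φ - (syL β ν z).comp j) b) * nsq (Pq β j σ φ a) := by
  have h1 : ∀ x, ‖ip b (W β (z + j x) a)‖ = ‖ip (W β z b) (W β (j x) a)‖ := fun x => by
    rw [← norm_ip_W2, W_W2, weyl_ip_mul, norm_mul, norm_ee, one_mul]
  simp only [h1]
  rw [weyl_parseval2 h]
  refine sum_le_sum fun φ _ => ?_
  have h2 : ‖ip (W β z b) (Pq β j σ φ a)‖ =
      ‖ip (Pq β j σ (φ - (syL β ν z).comp j) b) (W β z (Pq β j σ φ a))‖ := by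
    rw [← norm_ip_W2, ← ip_Pq h, ← W_Pq_comm hβ, Pq_Pq h]
  rw [h2, ← nsq_W β z (Pq β j σ φ a)]
  exact norm_ip_sq_le _ _

lemma nsq_Pq_sq_le (h : Ph β j σ) (φ : Module.Dual (ZMod 2) L) (a : (ν → X) → ℂ) :
    nsq (Pq β j σ φ a) ^ 2 ≤ 𝔼 x : L, ‖Xi β a (j x)‖ ^ 2 := by
  unfold Xi
  rw [weyl_parseval2 h]
  have h1 : nsq (Pq β j σ φ a) ^ 2 = ‖ip a (Pq β j σ φ a)‖ ^ 2 := by
    rw [← nsq_Pq h, Complex.norm_real, Real.norm_eq_abs, sq_abs]
  rw [h1]
  exact single_le_sum (f := fun φ => ‖ip a (Pq β j σ φ a)‖ ^ 2) (fun _ _ => by positivity)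
    (mem_univ φ)

end Pq

section Pj
variable {L : Type} [AddCommGroup L] [Module (ZMod 2) L] [Fintype L]
  {β : Bil 2 X} {j : L →ₗ[ZMod 2] GX X ν}

lemma W_Pj2 (h : Ph β j fun _ => 1) (φ : Module.Dual (ZMod 2) L) (a : (ν → X) → ℂ) (x : L) :
    W β (j x) (Pj β j φ a) = fun l => ee (φ x) * Pj β j φ a l := by
  funext l
  have := W_Pq h φ a x l
  rwa [one_mul, Pq_one] at this

lemma Pj_Pj2 (h : Ph β j fun _ => 1) (φ : Module.Dual (ZMod 2) L) (a : (ν → X) → ℂ) :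
    Pj β j φ (Pj β j φ a) = Pj β j φ a := Pj_of_eigen φ _ (W_Pj2 h φ a)

lemma W_Pj_comm2 (hβ : SymB β) (φ : Module.Dual (ZMod 2) L) (a : (ν → X) → ℂ) (y : GX X ν) :
    W β y (Pj β j φ a) = Pj β j (φ - (syL β ν y).comp j) (W β y a) := by
  rw [← Pq_one, ← Pq_one, W_Pq_comm hβ]

variable [Fintype X]

lemma ip_Pj2 (h : Ph β j fun _ => 1) (φ : Module.Dual (ZMod 2) L) (a b : (ν → X) → ℂ) :
    ip a (Pj β j φ b) = ip (Pj β j φ a) b := by
  rw [← Pq_one, ← Pq_one, ip_Pq h]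

lemma nsq_Pj2 (h : Ph β j fun _ => 1) (φ : Module.Dual (ZMod 2) L) (a : (ν → X) → ℂ) :
    (nsq (Pj β j φ a) : ℂ) = ip a (Pj β j φ a) := by
  rw [← Pq_one, nsq_Pq h]

lemma sum_nsq_Pj2 (h : Ph β j fun _ => 1) (a : (ν → X) → ℂ) :
    ∑ φ : Module.Dual (ZMod 2) L, nsq (Pj β j φ a) = nsq a := by
  simp only [← Pq_one, sum_nsq_Pq h]

lemma nsq_Pj_le2 (h : Ph β j fun _ => 1) (φ : Module.Dual (ZMod 2) L) (a : (ν → X) → ℂ) :
    nsq (Pj β j φ a) ≤ nsq a := by
  rw [← Pq_one]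
  exact nsq_Pq_le h φ a

end Pj

variable [Fintype X] {β : Bil 2 X}

theorem self_dual2 (hβ : SymB β) (hn : NdB β) (a : (ν → X) → ℂ) (x : GX X ν) :
    ∑ y : GX X ν, ((‖Xi β a y‖ ^ 2 : ℝ) : ℂ) * ee (sy β y x) =
      (Fintype.card X : ℂ) ^ Fintype.card ν * ((‖Xi β a x‖ ^ 2 : ℝ) : ℂ) := by
  have h := moyal hβ hn (W β x a) (W β x a) a a
  have h1 : ∀ y, ip (W β x a) (W β y (W β x a)) = ee (sy β y x) * Xi β a y := fun y => by
    rw [W_comm2 hβ y, weyl_ip_mul, ip_W_W, Xi]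
  rw [← ip_conj a (W β x a)] at h
  simp only [h1] at h
  simp only [Complex.ofReal_pow, ← Complex.mul_conj']
  rw [mul_comm (Xi β a x)]
  refine Eq.trans (sum_congr rfl fun y _ => ?_) h
  rw [Xi]; ring

lemma coset_sum_le2 (hβ : SymB β) (hn : NdB β) (a : (ν → X) → ℂ)
    (H : Submodule (ZMod 2) (GX X ν)) (z : GX X ν) :
    ∑ x : H, ‖Xi β a (x.1 + z)‖ ^ 2 ≤ ∑ x : H, ‖Xi β a x.1‖ ^ 2 := by
  classical
  have hD : (0 : ℝ) < (Fintype.card X : ℝ) ^ Fintype.card ν := by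
    have : 0 < Fintype.card X := Fintype.card_pos
    positivity
  have h1 : ∀ y : GX X ν, ∃ s : ℝ, 0 ≤ s ∧ ∑ x : H, ee (sy β y x.1) = s := fun y => by
    by_cases h : (syL β ν y).comp H.subtype = 0
    · refine ⟨Fintype.card H, by positivity, ?_⟩
      have : ∀ x : H, sy β y x.1 = 0 := fun x => DFunLike.congr_fun h x
      simp [this]
    · exact ⟨0, le_rfl, weyl_sum_hom ((syL β ν y).comp H.subtype).toAddMonoidHom fun e =>
        h (LinearMap.ext fun x => DFunLike.congr_fun e x)⟩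
  choose s hs0 hs using h1
  have h2 : ∀ z : GX X ν, (((Fintype.card X : ℝ) ^ Fintype.card ν *
      ∑ x : H, ‖Xi β a (x.1 + z)‖ ^ 2 : ℝ) : ℂ) =
      ∑ y, ((‖Xi β a y‖ ^ 2 * s y : ℝ) : ℂ) * ee (sy β y z) := fun z => by
    rw [Complex.ofReal_mul, Complex.ofReal_sum, mul_sum]
    simp only [Complex.ofReal_pow (Fintype.card X : ℝ), Complex.ofReal_natCast,
      ← self_dual2 hβ hn]
    rw [sum_comm]
    refine sum_congr rfl fun y _ => ?_
    rw [Complex.ofReal_mul, ← hs, mul_sum, sum_mul]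
    exact sum_congr rfl fun x _ => by rw [sy_add_right, ee_add, mul_assoc]
  refine le_of_mul_le_mul_left ?_ hD
  have h3 := h2 0
  have h4 : ∀ y : GX X ν, sy β y 0 = 0 := fun y => (syL β ν y).map_zero
  simp only [add_zero, h4, ee_zero, mul_one, ← Complex.ofReal_sum, Complex.ofReal_inj] at h3
  rw [h3]
  refine (le_abs_self _).trans ?_
  rw [← Real.norm_eq_abs, ← Complex.norm_real, h2]
  refine (norm_sum_le _ _).trans (le_of_eq (sum_congr rfl fun y _ => ?_))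
  rw [norm_mul, norm_ee, mul_one, Complex.norm_real, Real.norm_eq_abs,
    abs_of_nonneg (mul_nonneg (by positivity) (hs0 y))]

section CO
variable {H : Type} [AddCommGroup H] [Module (ZMod 2) H] [Fintype H]

lemma weyl_co2 (hβ : SymB β) (j : H →ₗ[ZMod 2] GX X ν) (L : Submodule (ZMod 2) H)
    {σ : L → ℂ} (hL : Ph β (j.comp L.subtype) σ) (a : (ν → X) → ℂ) :
    ∑ x : H, ‖Xi β a (j x)‖ ^ 2 ≤ ∑ φ : Module.Dual (ZMod 2) L,
      (∑ x : H, nsq (Pq β (j.comp L.subtype) σ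
        (φ - (syL β ν (j x)).comp (j.comp L.subtype)) a)) *
        nsq (Pq β (j.comp L.subtype) σ φ a) := by
  have h1 : ∑ x : H, ‖Xi β a (j x)‖ ^ 2 =
      ∑ x : H, 𝔼 y : L, ‖ip a (W β (j x + j.comp L.subtype y) a)‖ ^ 2 := by
    rw [← expect_sum_comm]
    have : ∀ y : L, ∑ x : H, ‖ip a (W β (j x + j.comp L.subtype y) a)‖ ^ 2 =
        ∑ x : H, ‖Xi β a (j x)‖ ^ 2 := fun y =>
      Fintype.sum_equiv (Equiv.addRight y.1) _ _ fun x => by
        simp only [Equiv.coe_addRight, map_add]; rfl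
    simp only [this]
    exact (Fintype.expect_const _).symm
  rw [h1]
  refine (sum_le_sum fun x _ => weyl_shift2 hβ hL a a (j x)).trans (le_of_eq ?_)
  rw [sum_comm]
  simp only [sum_mul]

/-- (CO), first bound -/
theorem CO1_2 (hβ : SymB β) (j : H →ₗ[ZMod 2] GX X ν) (L : Submodule (ZMod 2) H)
    (hL : ∀ x ∈ L, ∀ y ∈ L, sy β (j x) (j y) = 0)
    (hmax : ∀ x, (∀ y ∈ L, sy β (j x) (j y) = 0) → x ∈ L) (a : (ν → X) → ℂ) :
    ∑ x : H, ‖Xi β a (j x)‖ ^ 2 ≤ Fintype.card L * nsq a ^ 2 := by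
  classical
  have hj : ∀ x y : L, sy β (j.comp L.subtype x) (j.comp L.subtype y) = 0 :=
    fun x y => hL _ x.2 _ y.2
  obtain ⟨σ, hσ⟩ := exists_Ph hβ hj
  refine (weyl_co2 hβ j L hσ a).trans ?_
  rw [sq, ← mul_assoc]
  conv_rhs => rw [← sum_nsq_Pq hσ a, mul_sum]
  refine sum_le_sum fun φ _ => mul_le_mul_of_nonneg_right ?_ (nsq_nonneg _)
  rw [mul_sum, ← sum_fiberwise (s := univ)
    (g := fun x => φ - (syL β ν (j x)).comp (j.comp L.subtype))]
  refine sum_le_sum fun ψ _ => ?_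
  rw [sum_congr rfl fun x hx => by rw [(mem_filter.1 hx).2], sum_const, nsmul_eq_mul]
  refine mul_le_mul_of_nonneg_right (Nat.cast_le.2 ?_) (nsq_nonneg _)
  rcases (univ.filter fun x => φ - (syL β ν (j x)).comp (j.comp L.subtype) = ψ).eq_empty_or_nonempty
    with h | ⟨x0, h⟩
  · rw [h]; exact Nat.zero_le _
  · have key : ∀ x ∈ univ.filter fun x => φ - (syL β ν (j x)).comp (j.comp L.subtype) = ψ,
        x - x0 ∈ L := by
      intro x hx
      refine hmax _ fun y hy => ?_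
      have e := DFunLike.congr_fun ((mem_filter.1 hx).2.trans (mem_filter.1 h).2.symm) ⟨y, hy⟩
      simp only [LinearMap.sub_apply, LinearMap.comp_apply, Submodule.subtype_apply,
        sub_right_inj] at e
      rw [← syL_apply, map_sub, map_sub, LinearMap.sub_apply, e, sub_self]
    rw [← card_univ]
    refine card_le_card_of_injOn (fun x => if h : x - x0 ∈ L then ⟨x - x0, h⟩ else 0)
      (fun _ _ => mem_coe.2 (mem_univ _)) fun x hx x' hx' e => ?_
    simp only [dif_pos (key x hx), dif_pos (key x' hx'), Subtype.mk.injEq, sub_left_inj] at e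
    exact e

/-- (CO), second bound -/
theorem CO2_2 (hβ : SymB β) (j : H →ₗ[ZMod 2] GX X ν) (L : Submodule (ZMod 2) H)
    {σ : L → ℂ} (hL : Ph β (j.comp L.subtype) σ) (a : (ν → X) → ℂ) (q : ℝ)
    (hq : ∀ φ, nsq (Pq β (j.comp L.subtype) σ φ a) ≤ q) :
    ∑ x : H, ‖Xi β a (j x)‖ ^ 2 ≤ Fintype.card H * (q * nsq a) := by
  refine (weyl_co2 hβ j L hL a).trans ?_
  rw [← mul_assoc]
  conv_rhs => rw [← sum_nsq_Pq hL a, mul_sum]
  refine sum_le_sum fun φ _ => mul_le_mul_of_nonneg_right ?_ (nsq_nonneg _)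
  refine (sum_le_sum fun x _ => hq _).trans (le_of_eq ?_)
  rw [sum_const, card_univ, nsmul_eq_mul]

end CO

/-- (CO) for a family indexed by `D^ν × D^ν` whose commutator is `± β` on a nondegenerate `D` -/
theorem CO_nd2 (hβ : SymB β) {Z : Type} [AddCommGroup Z] [Module (ZMod 2) Z]
    [Fintype Z] {γ : Bil 2 Z} (hγ : SymB γ) {D : Submodule (ZMod 2) Z} (hD : NdOn γ D)
    (j : pw ν D →ₗ[ZMod 2] GX X ν) (c : ZMod 2) (hc : c ≠ 0)
    (hj : ∀ x y, sy β (j x) (j y) = c * sy γ x.1 y.1) (a : (ν → X) → ℂ) :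
    ∑ x : pw ν D, ‖Xi β a (j x)‖ ^ 2 ≤
      (Fintype.card D : ℝ) ^ Fintype.card ν * nsq a ^ 2 := by
  classical
  let L : Submodule (ZMod 2) (pw ν D) :=
    LinearMap.ker ((LinearMap.snd (ZMod 2) _ _).comp (pw ν D).subtype)
  have hm : ∀ x : pw ν D, x ∈ L ↔ x.1.2 = 0 := fun x => Iff.rfl
  refine (CO1_2 hβ j L (fun x hx y hy => ?_) (fun x hx => ?_) a).trans ?_
  · rw [hj, sy, (hm x).1 hx, (hm y).1 hy]
    simp
  · refine (hm x).2 (funext fun i => hD _ ((mem_pw.1 x.2).2 i) fun d hd => ?_)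
    have hy : ((Pi.single i d, 0) : GX Z ν) ∈ pw ν D := mem_pw.2 ⟨fun k => by
      by_cases h : k = i
      · subst h; simpa using hd
      · simp [h], fun k => D.zero_mem⟩
    have h1 := hx ⟨_, hy⟩ ((hm _).2 rfl)
    rw [hj, mul_eq_zero] at h1
    have h2 := h1.resolve_left hc
    simp only [sy, bt_zero_right, zero_sub, neg_eq_zero] at h2
    rw [bt, sum_eq_single i (fun k _ h => by simp [h]) (by simp)] at h2
    simpa using h2
  · refine mul_le_mul_of_nonneg_right ?_ (sq_nonneg _)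
    have h1 : Fintype.card L ≤ Fintype.card (ν → D) := Fintype.card_le_of_injective
      (fun x i => ⟨x.1.1.1 i, (mem_pw.1 x.1.2).1 i⟩) fun x y e => Subtype.ext (Subtype.ext
        (Prod.ext (funext fun i => congrArg Subtype.val (congrFun e i))
          (((hm _).1 x.2).trans ((hm _).1 y.2).symm)))
    rw [Fintype.card_fun] at h1
    exact_mod_cast h1

end Pool.Agent.Work.MP_4523ee_co.F2
end

-- merged part: Pool.Agent.Work.MP_4523ee_co.F2.Alt2
section
/-!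
Averages over a fibre of the diagonal map in characteristic two.
-/

set_option autoImplicit false
set_option linter.unusedSectionVars false

namespace Pool.Agent.Work.MP_4523ee_co.F2

open Finset hiding dens
open Matrix Pool.Agent.Work.MP_4523ee_co.Fp
open scoped BigOperators ComplexConjugate

/-- symmetric matrices with zero diagonal -/
abbrev AltM (ν : Type) : Submodule (ZMod 2) (SymM 2 ν) := Mo.AltM ν

variable {ν ν' : Type} [Fintype ν] [DecidableEq ν] [Fintype ν'] [DecidableEq ν']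

lemma mem_AltM {M : SymM 2 ν} : M ∈ AltM ν ↔ ∀ i, M.1 i i = 0 := Iff.rfl

lemma mem_AltM_dg {M : SymM 2 ν} : M ∈ AltM ν ↔ dg M = 0 :=
  ⟨fun h => funext h, fun h => congrFun h⟩

lemma dg_add_alt (M : SymM 2 ν) (N : AltM ν) : dg (M + N.1) = dg M := by
  rw [dg_add, mem_AltM_dg.1 N.2, add_zero]

/-- the mean over all matrices is the mean of the means over the fibres -/
lemma expect_fibre {E : Type} [AddCommMonoid E] [Module ℚ≥0 E] (F : SymM 2 ν → E) :
    𝔼 M, F M = 𝔼 M0, 𝔼 N : AltM ν, F (M0 + N.1) := by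
  rw [expect_comm]
  have h : ∀ N : AltM ν, 𝔼 M0, F (M0 + N.1) = 𝔼 M, F M := fun N =>
    Fintype.expect_equiv (Equiv.addRight N.1) _ _ fun _ => rfl
  simp only [h, Fintype.expect_const]

/-- the mean over a fibre does not depend on the base point -/
lemma expect_fibre_shift {E : Type} [AddCommMonoid E] [Module ℚ≥0 E] (F : SymM 2 ν → E)
    (M0 : SymM 2 ν) (N0 : AltM ν) :
    𝔼 N : AltM ν, F (M0 + N0.1 + N.1) = 𝔼 N : AltM ν, F (M0 + N.1) :=
  Fintype.expect_equiv (Equiv.addLeft N0) _ _ fun N => by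
    rw [add_assoc]
    rfl

lemma expect_alt_chQ (Q : Matrix ν ν (ZMod 2)) (h : Q + Qᵀ ≠ 0) :
    𝔼 N : AltM ν, chQ Q N.1 = 0 := by
  refine expect_ee_hom ((four_hom Q).comp (AltM ν).subtype.toAddMonoidHom) fun k => h ?_
  ext a b
  have hs : (Matrix.single a b (1 : ZMod 2) + Matrix.single b a 1) ∈ SymM 2 ν := by
    show (Matrix.single a b (1 : ZMod 2) + Matrix.single b a 1)ᵀ = _
    rw [transpose_add, transpose_single, transpose_single, add_comm]
  have ha : (⟨_, hs⟩ : SymM 2 ν) ∈ AltM ν := fun i => by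
    show Matrix.single a b (1 : ZMod 2) i i + Matrix.single b a 1 i i = 0
    simp only [Matrix.single_apply, and_comm]
    exact CharTwo.add_self_eq_zero _
  have k1 : ∑ i, ∑ j, (Matrix.single a b (1 : ZMod 2) + Matrix.single b a 1 :
      Matrix ν ν (ZMod 2)) i j * Q i j = 0 := DFunLike.congr_fun k ⟨_, ha⟩
  simp only [Matrix.add_apply, add_mul, sum_add_distrib, four_single] at k1
  exact k1

lemma chQ_alt_of_sym (Q : Matrix ν ν (ZMod 2)) (h : Q + Qᵀ = 0) (N : AltM ν) :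
    chQ Q N.1 = 1 := by
  refine ee_eq_one.2 ?_
  rw [← Finset.sum_product' (s := univ) (t := univ) (f := fun i j => N.1.1 i j * Q i j)]
  refine Finset.sum_involution (fun q _ => q.swap) (fun q _ => ?_) (fun q _ hq e => hq ?_)
    (fun q _ => mem_product.2 ⟨mem_univ _, mem_univ _⟩) fun q _ => rfl
  · have h1 : N.1.1 q.2 q.1 = N.1.1 q.1 q.2 := congrFun (congrFun (SymM_T N.1) q.1) q.2
    have h2 : Q q.1 q.2 + Q q.2 q.1 = 0 := congrFun (congrFun h q.1) q.2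
    show N.1.1 q.1 q.2 * Q q.1 q.2 + N.1.1 q.2 q.1 * Q q.2 q.1 = 0
    rw [h1, ← mul_add, h2, mul_zero]
  · have h1 : q.2 = q.1 := congrArg Prod.fst e
    rw [h1, N.2 q.1, zero_mul]

lemma chQ_mul_self (Q : Matrix ν ν (ZMod 2)) (M : SymM 2 ν) : chQ Q M * chQ Q M = 1 :=
  ee_mul_self2 _

lemma conj_chQ2 (Q : Matrix ν ν (ZMod 2)) (M : SymM 2 ν) : conj (chQ Q M) = chQ Q M :=
  conj_ee2 _

variable {X : Type} [AddCommGroup X] [Module (ZMod 2) X]

/-- `β` is the polar form of the quadratic form `x ↦ c x x` -/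
def Pol (c β : Bil 2 X) : Prop := ∀ x y, β x y = c x y + c y x

lemma Pol.sym {c β : Bil 2 X} (h : Pol c β) : SymB β := fun x y => by
  rw [h, h, add_comm]

lemma Pol.alt {c β : Bil 2 X} (h : Pol c β) (x : X) : β x x = 0 := by
  rw [h, CharTwo.add_self_eq_zero]

lemma exists_Pol [Fintype X] {β : Bil 2 X} (h : ∀ x, β x x = 0) : ∃ c, Pol c β :=
  exists_half β h

lemma Pol_flip (c : Bil 2 X) : Pol c (c + c.flip) := fun _ _ => rfl

lemma Pol_pol (c : Bil 2 X) : Pol c (pol c) := fun _ _ => rfl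

lemma Pol.gram {c β : Bil 2 X} (h : Pol c β) (l : ν → X) :
    gram c l + (gram c l)ᵀ = gram β l := by
  ext i j
  exact (h _ _).symm

lemma Pol.bt {c β : Bil 2 X} (h : Pol c β) (u v : ν → X) :
    bt β u v = bt c u v + bt c v u := by
  simp only [Fp.bt, h _ _, sum_add_distrib]

lemma Pol.bp {X₂ : Type} [AddCommGroup X₂] [Module (ZMod 2) X₂] {c β : Bil 2 X}
    {c₂ β₂ : Bil 2 X₂} (h : Pol c β) (h₂ : Pol c₂ β₂) : Pol (bp c c₂) (bp β β₂) := fun x y => by
  simp only [bp_apply, h _ _, h₂ _ _]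
  ring

lemma neg_bil2 (β : Bil 2 X) : -β = β := neg_eq2 β

lemma chi_plus (c : Bil 2 X) (M N : SymM 2 ν) (l : ν → X) :
    chi c (M + N) l = chi c M l * chi c N l := chQ_add _ _ _

lemma chi_mul_self (c : Bil 2 X) (M : SymM 2 ν) (l : ν → X) : chi c M l * chi c M l = 1 :=
  ee_mul_self2 _

lemma conj_chi2 (c : Bil 2 X) (M : SymM 2 ν) (l : ν → X) : conj (chi c M l) = chi c M l :=
  conj_ee2 _

lemma chi_add2 {c β : Bil 2 X} (h : Pol c β) (M : SymM 2 ν) (l u : ν → X) :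
    chi c M (l + u) = chi c M l * chi c M u * ee (bt β (act M.1 u) l) := by
  rw [chi_eq, chi_eq, chi_eq, ← ee_add, ← ee_add, act_add, bt_add_left, bt_add_right,
    bt_add_right, h.bt]
  have h2 : bt c u (act M.1 l) = bt c (act M.1 u) l := by rw [bt_act, SymM_T]
  rw [h2]
  congr 1
  ring

/-- on the alternating matrices the character depends only on the polar form -/
lemma chi_alt_congr {c c' β : Bil 2 X} (h : Pol c β) (h' : Pol c' β) (N : AltM ν) (l : ν → X) :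
    chi c N.1 l = chi c' N.1 l := by
  have h1 := chQ_alt_of_sym (gram c l + gram c' l) (by
    rw [transpose_add, add_add_add_comm, h.gram, h'.gram, add_self2]) N
  rw [add_chQ] at h1
  calc chi c N.1 l = chi c N.1 l * (chi c' N.1 l * chi c' N.1 l) := by rw [chi_mul_self, mul_one]
    _ = chi c' N.1 l := by rw [← mul_assoc, show chi c N.1 l * chi c' N.1 l = 1 from h1, one_mul]

lemma expect_alt_chi {c β : Bil 2 X} (h : Pol c β) (l : ν → X) :
    𝔼 N : AltM ν, chi c N.1 l = (ind {l : ν → X | gram β l = 0} l : ℂ) := by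
  by_cases h0 : gram β l = 0
  · rw [ind_of_mem (show l ∈ {l : ν → X | gram β l = 0} from h0)]
    simp only [chi, chQ_alt_of_sym _ ((h.gram l).trans h0), Fintype.expect_const,
      Complex.ofReal_one]
  · rw [ind_of_not (show l ∉ {l : ν → X | gram β l = 0} from h0), Complex.ofReal_zero]
    exact expect_alt_chQ _ fun e => h0 ((h.gram l).symm.trans e)

lemma expect_alt_chi_mul {c β : Bil 2 X} (h : Pol c β) {l l' : ν → X}
    (hl : gram β l ≠ gram β l') : 𝔼 N : AltM ν, chi c N.1 l * chi c N.1 l' = 0 := by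
  simp only [chi, ← add_chQ]
  refine expect_alt_chQ _ fun e => hl ?_
  rw [transpose_add, add_add_add_comm, h.gram, h.gram] at e
  exact (eq_neg_of_add_eq_zero_left e).trans (neg_eq2 _)

variable [Fintype X]

lemma FF_shift (c : Bil 2 X) (a : (ν → X) → ℂ) (M N : SymM 2 ν) :
    FF c a (M + N) = FF c (fun l => a l * chi c M l) N := by
  simp only [FF, chi_plus, mul_assoc]

lemma FF_conj2 (c : Bil 2 X) (a : (ν → X) → ℂ) (M : SymM 2 ν) :
    FF c (fun l => conj (a l)) M = conj (FF c a M) := by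
  simp only [FF, map_sum, map_mul, conj_chi2]

/-- the mean of `FF` on a fibre -/
lemma expect_alt_FF {c β : Bil 2 X} (h : Pol c β) (a : (ν → X) → ℂ) (M0 : SymM 2 ν) :
    𝔼 N : AltM ν, FF c a (M0 + N.1) =
      ∑ l, (ind {l : ν → X | gram β l = 0} l : ℂ) * (a l * chi c M0 l) := by
  simp only [FF, chi_plus, ← mul_assoc]
  rw [expect_sum_comm]
  refine sum_congr rfl fun l _ => ?_
  rw [← mul_expect, expect_alt_chi h]
  ring

/-- (O) on a fibre -/
lemma FF_ip2 {ι : Type} {c β : Bil 2 X} (h : Pol c β) (hn : NdB β)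
    {κ : Matrix ι ν (ZMod 2)} {e : ι → X} (he : Submodule.span (ZMod 2) (Set.range e) = ⊤)
    {a b : (ν → X) → ℂ} (ha : OnSl κ e a) (hb : OnSl κ e b) (M0 : SymM 2 ν) :
    𝔼 N : AltM ν, FF c a (M0 + N.1) * conj (FF c b (M0 + N.1)) = ip b a := by
  classical
  have key : ∀ l l' : ν → X,
      𝔼 N : AltM ν, a l * chi c (M0 + N.1) l * conj (b l' * chi c (M0 + N.1) l') =
      if l' = l then conj (b l) * a l else 0 := by
    intro l l'
    by_cases h' : l' = l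
    · subst h'
      have h2 : ∀ M : SymM 2 ν, a l' * chi c M l' * conj (b l' * chi c M l') =
          conj (b l') * a l' := fun M => by
        rw [map_mul, conj_chi2]
        linear_combination (a l' * conj (b l')) * chi_mul_self c M l'
      simp only [h2, if_true, Fintype.expect_const]
    · rw [if_neg h']
      by_cases h3 : a l = 0
      · simp only [h3, zero_mul, Fintype.expect_const]
      by_cases h4 : b l' = 0
      · simp only [h4, zero_mul, map_zero, mul_zero, Fintype.expect_const]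
      have h1 : ∀ N : AltM ν, a l * chi c (M0 + N.1) l * conj (b l' * chi c (M0 + N.1) l') =
          a l * conj (b l') * chi c M0 l * chi c M0 l' * (chi c N.1 l * chi c N.1 l') := fun N => by
        rw [map_mul, conj_chi2, chi_plus, chi_plus]
        ring
      simp only [h1]
      rw [← mul_expect, expect_alt_chi_mul h fun e' =>
        h' (gram_inj h.sym hn he (ha l h3) (hb l' h4) e').symm, mul_zero]
  simp only [FF, map_sum, sum_mul_sum, expect_sum_comm, key, sum_ite_eq', mem_univ, if_true, ip]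

lemma FF_en2 {ι : Type} {c β : Bil 2 X} (h : Pol c β) (hn : NdB β)
    {κ : Matrix ι ν (ZMod 2)} {e : ι → X} (he : Submodule.span (ZMod 2) (Set.range e) = ⊤)
    {a : (ν → X) → ℂ} (ha : OnSl κ e a) (M0 : SymM 2 ν) :
    en (fun N : AltM ν => FF c a (M0 + N.1)) = nsq a := by
  have h1 := FF_ip2 h hn he ha ha M0
  rw [ip_self] at h1
  apply Complex.ofReal_injective
  rw [← h1, en, Complex.ofReal_expect]
  refine expect_congr rfl fun M _ => ?_
  rw [Complex.mul_conj, Complex.normSq_eq_norm_sq]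

lemma en_FF_mul2 {ι : Type} {X₂ : Type} [AddCommGroup X₂] [Module (ZMod 2) X₂] [Fintype X₂]
    {c₁ β₁ : Bil 2 X} {c₂ β₂ : Bil 2 X₂} (s₁ : Pol c₁ β₁) (n₁ : NdB β₁) (s₂ : Pol c₂ β₂)
    (n₂ : NdB β₂) {κ : Matrix ι ν (ZMod 2)} {e : ι → X × X₂}
    (he : Submodule.span (ZMod 2) (Set.range e) = ⊤) {a₁ : (ν → X) → ℂ} {a₂ : (ν → X₂) → ℂ}
    (h₁ : OnSl κ (fun i => (e i).1) a₁) (h₂ : OnSl κ (fun i => (e i).2) a₂) (M0 : SymM 2 ν) :
    en (fun N : AltM ν => FF c₁ a₁ (M0 + N.1) * FF c₂ a₂ (M0 + N.1)) = nsq a₁ * nsq a₂ := by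
  have h := FF_en2 (s₁.bp s₂) (NdB_bp n₁ n₂) he (OnSl_tp h₁ h₂) M0
  rw [nsq_tp] at h
  rw [← h]
  exact congrArg en (funext fun N => (FF_tp c₁ c₂ a₁ a₂ _).symm)

end Pool.Agent.Work.MP_4523ee_co.F2
end

-- merged part: Pool.Agent.Work.MP_4523ee_co.F2.Prim2
section
/-!
Primitive vectors in characteristic two: inheritance, purity bounds, invariance under the
quadratic phases.
-/

set_option autoImplicit false
set_option linter.unusedSectionVars false

namespace Pool.Agent.Work.MP_4523ee_co.F2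

open Finset hiding dens
open Matrix Pool.Agent.Work.MP_4523ee_co.Fp
open scoped BigOperators ComplexConjugate

variable {X : Type} [AddCommGroup X] [Module (ZMod 2) X] [Fintype X]
variable {ν ν' : Type} [Fintype ν] [DecidableEq ν] [Fintype ν'] [DecidableEq ν'] {β : Bil 2 X}

/-- small purity on every proper nonzero subspace -/
def PU (β : Bil 2 X) (θ : ℝ) (a : (ν → X) → ℂ) : Prop :=
  ∀ E : Submodule (ZMod 2) X, E ≠ ⊥ → E ≠ ⊤ →
    ∑ x : pw ν E, ‖Xi β a x.1‖ ^ 2 ≤ θ ^ 2 * (Fintype.card E : ℝ) ^ Fintype.card ν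

/-- weak primitivity: the eigenspace masses are only bounded -/
def Prw (β : Bil 2 X) (K θ : ℝ) (a : (ν → X) → ℂ) : Prop :=
  nsq a ≤ 1 ∧ GG β K a ∧ PU β θ a ∧ PP β θ a

lemma PU.mono {θ θ' : ℝ} (h0 : 0 ≤ θ) (h : θ ≤ θ') {a : (ν → X) → ℂ} (ha : PU β θ a) :
    PU β θ' a := fun E h1 h2 => (ha E h1 h2).trans
  (mul_le_mul_of_nonneg_right (pow_le_pow_left₀ h0 h 2) (by positivity))

lemma PU.ss {θ : ℝ} {a : (ν → X) → ℂ} (ha : PU β θ a) : SS β θ a := fun D h1 h2 _ => ha D h1 h2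

lemma Prw.mono {K K' θ θ' : ℝ} (hK : K ≤ K') (h0 : 0 ≤ θ) (h : θ ≤ θ') {a : (ν → X) → ℂ}
    (ha : Prw β K θ a) : Prw β K' θ' a :=
  ⟨ha.1, ha.2.1.mono hK, ha.2.2.1.mono h0 h,
    ha.2.2.2.trans (mul_le_mul_of_nonneg_right h (by positivity))⟩

lemma GG_W2 (hβ : SymB β) {θ : ℝ} {a : (ν → X) → ℂ} (ha : GG β θ a) (y : GX X ν) :
    GG β θ (W β y a) := by
  intro N h1 h2 φ
  have k := W_Pj_comm2 hβ (j := (pw ν N).subtype) (φ + (syL β ν y).comp (pw ν N).subtype) a y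
  rw [add_sub_cancel_right] at k
  rw [← k, nsq_W]
  exact ha N h1 h2 _

lemma GG_avg2 (hβ : SymB β) {θ : ℝ} {a : (ν → X) → ℂ} (ha : GG β θ a) {I : Type}
    [Fintype I] [Nonempty I] (c : I → ℂ) (hc : ∀ i, ‖c i‖ ≤ 1) (y : I → GX X ν) :
    GG β θ fun l => 𝔼 i, c i * W β (y i) a l := by
  intro N h1 h2 φ
  rw [Pj_expect]
  refine (mul_le_mul_of_nonneg_left (nsq_expect_le c hc _) (by positivity)).trans ?_
  rw [Finset.mul_expect]
  exact expect_le univ_nonempty fun i _ => GG_W2 hβ ha (y i) N h1 h2 φ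

lemma prim_Xi_avg2 (a : (ν → X) → ℂ) {I : Type} [Fintype I]
    (c : I → ℂ) (hc : ∀ i, ‖c i‖ ≤ 1) (y : I → GX X ν) (x : GX X ν) :
    ‖Xi β (fun l => 𝔼 i, c i * W β (y i) a l) x‖ ≤
      𝔼 q : I × I, ‖Xi β a (x + (y q.1 + y q.2))‖ := by
  rw [Xi, W_expect, ← univ_product_univ, expect_product]
  refine (prim_ip_avg c hc _ _).trans (expect_le_expect fun k _ => ?_)
  rw [prim_ip_comm]
  refine (prim_ip_avg c hc _ _).trans (expect_le_expect fun i _ => le_of_eq ?_)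
  rw [prim_ip_comm, ← norm_ip_W2, W_W2 β x, W_smul, W_W2, prim_ip_smul, prim_ip_smul, norm_mul,
    norm_mul, norm_ee, norm_ee, one_mul, one_mul, Xi]
  congr 3
  abel

section avg
variable {a : (ν → X) → ℂ} {I : Type} [Fintype I] [Nonempty I] (c : I → ℂ) (hc : ∀ i, ‖c i‖ ≤ 1)
  (y : I → GX X ν)
include hc

lemma nsq_avg2 : nsq (fun l => 𝔼 i, c i * W β (y i) a l) ≤ nsq a :=
  (nsq_expect_le c hc _).trans (expect_le univ_nonempty fun _ _ => (nsq_W _ _ _).le)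

lemma Xi_avg_sq2 (x : GX X ν) : ‖Xi β (fun l => 𝔼 i, c i * W β (y i) a l) x‖ ^ 2 ≤
    𝔼 q : I × I, ‖Xi β a (x + (y q.1 + y q.2))‖ ^ 2 :=
  (pow_le_pow_left₀ (norm_nonneg _) (prim_Xi_avg2 a c hc y x) 2).trans (prim_jensen _)

/-- the purity on a subspace of the phase space does not grow under averaging -/
lemma pur_avg2 (hβ : SymB β) (hn : NdB β) (H : Submodule (ZMod 2) (GX X ν)) :
    ∑ x : H, ‖Xi β (fun l => 𝔼 i, c i * W β (y i) a l) x.1‖ ^ 2 ≤ ∑ x : H, ‖Xi β a x.1‖ ^ 2 := by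
  refine (sum_le_sum fun x _ => Xi_avg_sq2 c hc y x.1).trans ?_
  rw [← expect_sum_comm]
  exact expect_le univ_nonempty fun q _ => coset_sum_le2 hβ hn a _ _

lemma PP_avg2 {θ : ℝ} (ha : PP β θ a) : PP β θ fun l => 𝔼 i, c i * W β (y i) a l := by
  have h4 : ∀ x, ‖Xi β (fun l => 𝔼 i, c i * W β (y i) a l) x‖ ^ 4 ≤
      𝔼 q : I × I, ‖Xi β a (x + (y q.1 + y q.2))‖ ^ 4 := fun x => by
    have := (pow_le_pow_left₀ (sq_nonneg _) (Xi_avg_sq2 (β := β) (a := a) c hc y x) 2).trans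
      (prim_jensen _)
    simpa only [← pow_mul] using this
  refine (sum_le_sum fun x _ => h4 x).trans ?_
  rw [← expect_sum_comm]
  refine expect_le univ_nonempty fun q _ => le_trans (le_of_eq ?_) ha
  exact Equiv.sum_comp (Equiv.addRight (y q.1 + y q.2)) fun x => ‖Xi β a x‖ ^ 4

lemma Prim_avg2 (hβ : SymB β) (hn : NdB β) {θ : ℝ} (ha : Prim β θ a) :
    Prim β θ fun l => 𝔼 i, c i * W β (y i) a l :=
  ⟨(nsq_avg2 c hc y).trans ha.1, GG_avg2 hβ ha.2.1 c hc y,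
    fun D h1 h3 h4 => (pur_avg2 c hc y hβ hn _).trans (ha.2.2.1 D h1 h3 h4),
    PP_avg2 c hc y ha.2.2.2⟩

lemma Prw_avg2 (hβ : SymB β) (hn : NdB β) {K θ : ℝ} (ha : Prw β K θ a) :
    Prw β K θ fun l => 𝔼 i, c i * W β (y i) a l :=
  ⟨(nsq_avg2 c hc y).trans ha.1, GG_avg2 hβ ha.2.1 c hc y,
    fun D h1 h3 => (pur_avg2 c hc y hβ hn _).trans (ha.2.2.1 D h1 h3), PP_avg2 c hc y ha.2.2.2⟩

end avg

lemma W_eq_avg (y : GX X ν) (a : (ν → X) → ℂ) :
    W β y a = fun l => 𝔼 _i : Unit, (1 : ℂ) * W β y a l := by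
  funext l
  rw [Fintype.expect_const, one_mul]

lemma Prim_W2 (hβ : SymB β) (hn : NdB β) {θ : ℝ} {a : (ν → X) → ℂ} (ha : Prim β θ a)
    (y : GX X ν) : Prim β θ (W β y a) := by
  rw [W_eq_avg]
  exact Prim_avg2 _ (fun _ => norm_one.le) _ hβ hn ha

lemma Prw_W2 (hβ : SymB β) (hn : NdB β) {K θ : ℝ} {a : (ν → X) → ℂ} (ha : Prw β K θ a)
    (y : GX X ν) : Prw β K θ (W β y a) := by
  rw [W_eq_avg]
  exact Prw_avg2 _ (fun _ => norm_one.le) _ hβ hn ha

lemma GG_cut2 (hβ : SymB β) (hn : NdB β) {θ : ℝ} {a : (ν → X) → ℂ} (ha : GG β θ a)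
    (U : Matrix ν' ν (ZMod 2)) (s : ν' → X) : GG β θ (cut U s a) := by
  rw [cut_eq_avg hβ hn]
  exact GG_avg2 hβ ha _ (fun _ => (norm_ee _).le) _

lemma Prim_cut2 (hβ : SymB β) (hn : NdB β) {θ : ℝ} {a : (ν → X) → ℂ}
    (ha : Prim β θ a) (U : Matrix ν' ν (ZMod 2)) (s : ν' → X) : Prim β θ (cut U s a) := by
  rw [cut_eq_avg hβ hn]
  exact Prim_avg2 _ (fun _ => (norm_ee _).le) _ hβ hn ha

lemma Prw_cut2 (hβ : SymB β) (hn : NdB β) {K θ : ℝ} {a : (ν → X) → ℂ}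
    (ha : Prw β K θ a) (U : Matrix ν' ν (ZMod 2)) (s : ν' → X) : Prw β K θ (cut U s a) := by
  rw [cut_eq_avg hβ hn]
  exact Prw_avg2 _ (fun _ => (norm_ee _).le) _ hβ hn ha

lemma norm_Xi_conj2 (a : (ν → X) → ℂ) (x : GX X ν) :
    ‖Xi β (fun l => conj (a l)) x‖ = ‖Xi β a x‖ := by
  have h := prim_Xi_conj (β := β) a x
  rwa [neg_bil2] at h

lemma GG_conj2 {θ : ℝ} {a : (ν → X) → ℂ} (ha : GG β θ a) : GG β θ fun l => conj (a l) := by
  have h := ha.conj
  rwa [neg_bil2] at h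

lemma Prim_conj2 {θ : ℝ} {a : (ν → X) → ℂ} (ha : Prim β θ a) :
    Prim β θ fun l => conj (a l) := by
  have h := ha.conj
  rwa [neg_bil2] at h

lemma Prw_conj2 {K θ : ℝ} {a : (ν → X) → ℂ} (ha : Prw β K θ a) :
    Prw β K θ fun l => conj (a l) := by
  refine ⟨(prim_nsq_conj a).trans_le ha.1, GG_conj2 ha.2.1, fun D h1 h2 => ?_, ?_⟩
  · simp only [norm_Xi_conj2]
    exact ha.2.2.1 D h1 h2
  · simp only [PP, norm_Xi_conj2]
    exact ha.2.2.2

lemma OnSl_conj2 {ι : Type} {κ : Matrix ι ν (ZMod 2)} {e : ι → X} {a : (ν → X) → ℂ}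
    (ha : OnSl κ e a) : OnSl κ e fun l => conj (a l) := fun l hl =>
  ha l fun h => hl (by simp only [h, map_zero])

/-- purity of an isotropic subspace -/
lemma pur_iso {N : Submodule (ZMod 2) X} (hN : Iso β N) (a : (ν → X) → ℂ) :
    ∑ x : pw ν N, ‖Xi β a x.1‖ ^ 2 = (Fintype.card N : ℝ) ^ Fintype.card ν *
      ((Fintype.card N : ℝ) ^ Fintype.card ν *
        ∑ φ : Module.Dual (ZMod 2) (pw ν N), nsq (Pj β (pw ν N).subtype φ a) ^ 2) := by
  have h := weyl_parseval (β := β) (j := (pw ν N).subtype) a a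
  have h1 : ∀ φ, ‖ip a (Pj β (pw ν N).subtype φ a)‖ = nsq (Pj β (pw ν N).subtype φ a) :=
    fun φ => by
      rw [← nsq_Pj2 (Ph_pw hN), Complex.norm_real, Real.norm_of_nonneg (nsq_nonneg _)]
  simp only [h1] at h
  have h0 : (0 : ℝ) < (Fintype.card N : ℝ) ^ Fintype.card ν :=
    pow_pos (by exact_mod_cast Fintype.card_pos) _
  rw [← h, Fintype.expect_eq_sum_div_card, card_pw]
  push_cast
  field_simp
  rfl

/-- the purity of a subspace is controlled by its radical -/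
theorem PUR_rad (hβ : SymB β) (a : (ν → X) → ℂ) {E N D : Submodule (ZMod 2) X} (h1 : N ⊔ D = E)
    (h2 : N ⊓ D = ⊥) (h3 : ∀ x ∈ N, ∀ y ∈ E, β x y = 0) (h4 : NdOn β D) :
    ∑ x : pw ν E, ‖Xi β a x.1‖ ^ 2 ≤ (Fintype.card E : ℝ) ^ Fintype.card ν *
      ((Fintype.card N : ℝ) ^ Fintype.card ν *
        ∑ φ : Module.Dual (ZMod 2) (pw ν N), nsq (Pj β (pw ν N).subtype φ a) ^ 2) := by
  have hN : N ≤ E := h1 ▸ le_sup_left
  have hD : D ≤ E := h1 ▸ le_sup_right
  have hI : Iso β N := fun x hx y hy => h3 x hx y (hN hy)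
  have hj := Ph_pw (ν := ν) hI
  have hs : ∀ (x : pw ν D) (y : pw ν N), sy β x.1 y.1 = 0 := fun x y => by
    have a1 := mem_pw.1 x.2
    have a2 := mem_pw.1 y.2
    rw [sy, bt, bt, sum_eq_zero, sum_eq_zero, sub_zero]
    · exact fun i _ => (hβ _ _).trans (h3 _ (a2.1 i) _ (hD (a1.2 i)))
    · exact fun i _ => (hβ _ _).trans (h3 _ (a2.2 i) _ (hD (a1.1 i)))
  let f : pw ν D × pw ν N → pw ν E := fun q => ⟨q.1.1 + q.2.1, mem_pw.2
    ⟨fun i => E.add_mem (hD ((mem_pw.1 q.1.2).1 i)) (hN ((mem_pw.1 q.2.2).1 i)),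
      fun i => E.add_mem (hD ((mem_pw.1 q.1.2).2 i)) (hN ((mem_pw.1 q.2.2).2 i))⟩⟩
  have hf : Function.Surjective f := fun x => by
    choose u hu v hv e using fun i => Submodule.mem_sup.1 (h1.ge ((mem_pw.1 x.2).1 i))
    choose u' hu' v' hv' e' using fun i => Submodule.mem_sup.1 (h1.ge ((mem_pw.1 x.2).2 i))
    exact ⟨(⟨(v, v'), mem_pw.2 ⟨hv, hv'⟩⟩, ⟨(u, u'), mem_pw.2 ⟨hu, hu'⟩⟩), Subtype.ext (Prod.ext
      (funext fun i => (add_comm _ _).trans (e i)) (funext fun i => (add_comm _ _).trans (e' i)))⟩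
  have hc : (Fintype.card N : ℝ) * Fintype.card D ≤ Fintype.card E := by
    have := Fintype.card_le_of_injective
      (fun q : N × D => (⟨q.1.1 + q.2.1, E.add_mem (hN q.1.2) (hD q.2.2)⟩ : E)) fun q q' e => by
        have e1 : q.1.1 + q.2.1 = q'.1.1 + q'.2.1 := congrArg Subtype.val e
        have e2 : q.1.1 - q'.1.1 = q'.2.1 - q.2.1 := by
          rw [sub_eq_sub_iff_add_eq_add, e1, add_comm]
        have e3 := (Submodule.eq_bot_iff _).1 h2 _
          ⟨N.sub_mem q.1.2 q'.1.2, e2 ▸ D.sub_mem q'.2.2 q.2.2⟩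
        exact Prod.ext (Subtype.ext (sub_eq_zero.1 e3))
          (Subtype.ext (sub_eq_zero.1 (e2 ▸ e3)).symm)
    rw [Fintype.card_prod] at this
    exact_mod_cast this
  have key : ∀ x : pw ν D, ∑ y : pw ν N, ‖Xi β a (x.1 + y.1)‖ ^ 2 = Fintype.card (pw ν N) *
      ∑ φ : Module.Dual (ZMod 2) (pw ν N), ‖Xi β (Pj β (pw ν N).subtype φ a) x.1‖ ^ 2 := by
    intro x
    have k := parseval_dual_sq (p := 2) fun y : pw ν N => ip (W β x.1 a) (W β y.1 a)
    have e1 : ∀ y : pw ν N, ‖ip (W β x.1 a) (W β y.1 a)‖ = ‖Xi β a (x.1 + y.1)‖ := fun y => by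
      rw [← norm_ip_W2, W_W2, prim_ip_smul, norm_mul, norm_ee, one_mul, Xi]
    have e2 : ∀ φ : Module.Dual (ZMod 2) (pw ν N),
        ‖𝔼 y : pw ν N, ee (-φ y) * ip (W β x.1 a) (W β y.1 a)‖ =
          ‖Xi β (Pj β (pw ν N).subtype φ a) x.1‖ := fun φ => by
      have k2 := W_Pj_comm2 hβ (j := (pw ν N).subtype) φ (Pj β (pw ν N).subtype φ a) x.1
      rw [show (syL β ν x.1).comp (pw ν N).subtype = 0 from LinearMap.ext (hs x), sub_zero,
        Pj_Pj2 hj] at k2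
      rw [Xi, ← ip_Pj2 hj, ← k2, norm_ip_W2, ip_Pj_eq]
      rfl
    simp only [e1, e2] at k
    rw [← k, Fintype.expect_eq_sum_div_card, mul_div_cancel₀]
    exact_mod_cast Fintype.card_ne_zero
  refine (prim_sum_le f hf _ fun _ => sq_nonneg _).trans ?_
  rw [Fintype.sum_prod_type]
  simp only [f, key]
  rw [← mul_sum, sum_comm, card_pw]
  have b2 := sum_le_sum fun φ (_ : φ ∈ (univ : Finset (Module.Dual (ZMod 2) (pw ν N)))) =>
    CO_nd2 hβ hβ h4 (pw ν D).subtype 1 one_ne_zero (fun x y => (one_mul _).symm)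
      (Pj β (pw ν N).subtype φ a)
  rw [← mul_sum] at b2
  push_cast
  refine (mul_le_mul_of_nonneg_left b2 (by positivity)).trans ?_
  rw [mul_mul_mul_comm, ← mul_pow]
  exact mul_le_mul_of_nonneg_right (pow_le_pow_left₀ (by positivity) hc _) (by positivity)

lemma pur_of_sup {N : Submodule (ZMod 2) X} (hN : Iso β N) {a : (ν → X) → ℂ} {g : ℝ}
    (h : ∀ φ, (Fintype.card N : ℝ) ^ Fintype.card ν * nsq (Pj β (pw ν N).subtype φ a) ≤ g) :
    (Fintype.card N : ℝ) ^ Fintype.card ν *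
      ∑ φ : Module.Dual (ZMod 2) (pw ν N), nsq (Pj β (pw ν N).subtype φ a) ^ 2 ≤ g * nsq a := by
  rw [← sum_nsq_Pj2 (Ph_pw (ν := ν) hN) a, mul_sum, mul_sum]
  refine sum_le_sum fun φ _ => ?_
  rw [sq, ← mul_assoc]
  exact mul_le_mul_of_nonneg_right (h φ) (nsq_nonneg _)

/-- purity of a degenerate subspace -/
theorem PUR_deg (hβ : SymB β) {a : (ν → X) → ℂ} {g : ℝ} (hG : GG β g a)
    {E : Submodule (ZMod 2) X} (hE : ¬ NdOn β E) :
    ∑ x : pw ν E, ‖Xi β a x.1‖ ^ 2 ≤ g * nsq a * (Fintype.card E : ℝ) ^ Fintype.card ν := by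
  obtain ⟨N, D, h1, h2, h3, h4, h5⟩ := exists_rad_compl hβ E
  have hI : Iso β N := fun x hx y hy => h3 x hx y ((h1 ▸ le_sup_left : N ≤ E) hy)
  refine (PUR_rad hβ a h1 h2 h3 h4).trans ?_
  rw [mul_comm]
  exact mul_le_mul_of_nonneg_right (pur_of_sup hI (hG N (fun e => hE (h5.1 e)) hI))
    (by positivity)

theorem PUR_nd (hβ : SymB β) (a : (ν → X) → ℂ) {E : Submodule (ZMod 2) X} (hE : NdOn β E) :
    ∑ x : pw ν E, ‖Xi β a x.1‖ ^ 2 ≤ (Fintype.card E : ℝ) ^ Fintype.card ν * nsq a ^ 2 :=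
  CO_nd2 hβ hβ hE (pw ν E).subtype 1 one_ne_zero (fun _ _ => (one_mul _).symm) a

theorem PUR2 (hβ : SymB β) {a : (ν → X) → ℂ} (ha : nsq a ≤ 1) {K : ℝ} (hK : 1 ≤ K)
    (hG : GG β K a) (E : Submodule (ZMod 2) X) :
    ∑ x : pw ν E, ‖Xi β a x.1‖ ^ 2 ≤ K * (Fintype.card E : ℝ) ^ Fintype.card ν := by
  by_cases hE : NdOn β E
  · refine (PUR_nd hβ a hE).trans ?_
    rw [mul_comm]
    exact mul_le_mul_of_nonneg_right ((pow_le_one₀ (nsq_nonneg _) ha).trans hK) (by positivity)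
  · exact (PUR_deg hβ hG hE).trans (mul_le_mul_of_nonneg_right
      (mul_le_of_le_one_right (zero_le_one.trans hK) ha) (by positivity))

/-- it is enough to test the nondegenerate and the isotropic subspaces -/
theorem PU_of_iso (hβ : SymB β) {θ : ℝ} {a : (ν → X) → ℂ} (hS : SS β θ a)
    (h : ∀ N : Submodule (ZMod 2) X, N ≠ ⊥ → Iso β N →
      ∑ x : pw ν N, ‖Xi β a x.1‖ ^ 2 ≤ θ ^ 2 * (Fintype.card N : ℝ) ^ Fintype.card ν) :
    PU β θ a := by
  intro E e1 e2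
  by_cases hE : NdOn β E
  · exact hS E e1 e2 hE
  obtain ⟨N, D, h1, h2, h3, h4, h5⟩ := exists_rad_compl hβ E
  have hI : Iso β N := fun x hx y hy => h3 x hx y ((h1 ▸ le_sup_left : N ≤ E) hy)
  have h6 := h N (fun e => hE (h5.1 e)) hI
  have h0 : (0 : ℝ) < (Fintype.card N : ℝ) ^ Fintype.card ν :=
    pow_pos (by exact_mod_cast Fintype.card_pos) _
  rw [pur_iso hI, mul_comm (θ ^ 2)] at h6
  refine (PUR_rad hβ a h1 h2 h3 h4).trans ?_
  rw [mul_comm]
  exact mul_le_mul_of_nonneg_right (le_of_mul_le_mul_left h6 h0) (by positivity)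

theorem Prw_of_Prim (hβ : SymB β) {θ : ℝ} (h0 : 0 ≤ θ) (h1 : θ ≤ 1) {a : (ν → X) → ℂ}
    (ha : Prim β θ a) : Prw β 1 (√θ) a := by
  have h2 : θ ≤ √θ := Real.le_sqrt_of_sq_le (by nlinarith)
  refine ⟨ha.1, ha.2.1.mono h1, fun E e1 e2 => ?_,
    ha.2.2.2.trans (mul_le_mul_of_nonneg_right h2 (by positivity))⟩
  by_cases hE : NdOn β E
  · exact (ha.2.2.1 E e1 e2 hE).trans
      (mul_le_mul_of_nonneg_right (pow_le_pow_left₀ h0 h2 2) (by positivity))
  · rw [Real.sq_sqrt h0]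
    exact (PUR_deg hβ ha.2.1 hE).trans (mul_le_mul_of_nonneg_right
      (mul_le_of_le_one_right h0 ha.1) (by positivity))

/-- the shear `(u, v) ↦ (u, v + M u)` of the phase space -/
def shr (X : Type) [AddCommGroup X] [Module (ZMod 2) X] (M : SymM 2 ν) :
    GX X ν →ₗ[ZMod 2] GX X ν :=
  (LinearMap.fst _ _ _).prod (LinearMap.snd _ _ _ + (actL X M.1).comp (LinearMap.fst _ _ _))

lemma shr_apply (M : SymM 2 ν) (x : GX X ν) : shr X M x = (x.1, x.2 + act M.1 x.1) := rfl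

lemma shr_shr (M : SymM 2 ν) (x : GX X ν) : shr X M (shr X M x) = x := by
  rw [shr_apply, shr_apply]
  exact Prod.ext rfl (by rw [add_assoc, add_self2, add_zero])

lemma shr_mem (M : SymM 2 ν) {E : Submodule (ZMod 2) X} {x : GX X ν} (hx : x ∈ pw ν E) :
    shr X M x ∈ pw ν E :=
  mem_pw.2 ⟨(mem_pw.1 hx).1, fun i => E.add_mem ((mem_pw.1 hx).2 i)
    (E.sum_mem fun j _ => E.smul_mem _ ((mem_pw.1 hx).1 j))⟩

section chi
variable {c : Bil 2 X} (h : Pol c β) (M : SymM 2 ν) {a : (ν → X) → ℂ}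

lemma nsq_chi (c : Bil 2 X) (M : SymM 2 ν) (a : (ν → X) → ℂ) :
    nsq (fun l => a l * chi c M l) = nsq a := by
  simp only [nsq, norm_mul, norm_chi, mul_one]

lemma ip_chi (c : Bil 2 X) (M : SymM 2 ν) (a b : (ν → X) → ℂ) :
    ip (fun l => a l * chi c M l) (fun l => b l * chi c M l) = ip a b := by
  refine sum_congr rfl fun l _ => ?_
  rw [map_mul, conj_chi2]
  linear_combination (conj (a l) * b l) * chi_mul_self c M l

lemma OnSl_chi {ι : Type} {κ : Matrix ι ν (ZMod 2)} {e : ι → X} (ha : OnSl κ e a) :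
    OnSl κ e fun l => a l * chi c M l := fun l hl => ha l (left_ne_zero_of_mul hl)

lemma Pos_chi {θ : ℝ} (ha : Pos β θ a) : Pos β θ fun l => a l * chi c M l := by
  intro x hx v
  simp only [norm_mul, norm_chi, mul_one]
  exact ha x hx v

include h

lemma W_chi (x : GX X ν) (a : (ν → X) → ℂ) : W β x (fun l => a l * chi c M l) =
    fun l => chi c M x.1 * (W β (shr X M x) a l * chi c M l) := by
  funext l
  rw [W2, W2, chi_add2 h, shr_apply, bt_add_left, ee_add]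
  ring

lemma Xi_chi (a : (ν → X) → ℂ) (x : GX X ν) :
    Xi β (fun l => a l * chi c M l) x = chi c M x.1 * Xi β a (shr X M x) := by
  rw [Xi, W_chi h, weyl_ip_mul, ip_chi, Xi]

lemma pur_chi (a : (ν → X) → ℂ) (E : Submodule (ZMod 2) X) :
    ∑ x : pw ν E, ‖Xi β (fun l => a l * chi c M l) x.1‖ ^ 2 = ∑ x : pw ν E, ‖Xi β a x.1‖ ^ 2 := by
  simp only [Xi_chi h, norm_mul, norm_chi, one_mul]
  exact Fintype.sum_equiv (Function.Involutive.toPerm
    (fun x : pw ν E => ⟨shr X M x.1, shr_mem M x.2⟩) fun x => Subtype.ext (shr_shr M x.1)) _ _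
    fun _ => rfl

lemma PP_chi {θ : ℝ} (ha : PP β θ a) : PP β θ fun l => a l * chi c M l := by
  simp only [PP, Xi_chi h, norm_mul, norm_chi, one_mul]
  refine le_trans (le_of_eq ?_) ha
  exact Fintype.sum_equiv (Function.Involutive.toPerm (shr X M) (shr_shr M)) _ _ fun _ => rfl

lemma Pj_chi {N : Submodule (ZMod 2) X} (hN : Iso β N) (φ : Module.Dual (ZMod 2) (pw ν N)) :
    ∃ φ' : Module.Dual (ZMod 2) (pw ν N), ∀ a : (ν → X) → ℂ,
      Pj β (pw ν N).subtype φ (fun l => a l * chi c M l) =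
        fun l => Pj β (pw ν N).subtype φ' a l * chi c M l := by
  let q : pw ν N →ₗ[ZMod 2] ZMod 2 := AddMonoidHom.toZModLinearMap 2 (AddMonoidHom.mk'
    (fun x : pw ν N => bt c x.1.1 (act M.1 x.1.1)) fun x y => by
      have h1 : bt β x.1.1 (act M.1 y.1.1) = 0 := sum_eq_zero fun i _ =>
        hN _ ((mem_pw.1 x.2).1 i) _ (N.sum_mem fun j _ => N.smul_mem _ ((mem_pw.1 y.2).1 j))
      have h2 : bt c y.1.1 (act M.1 x.1.1) = bt c (act M.1 y.1.1) x.1.1 := by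
        rw [bt_act, SymM_T]
      rw [h.bt] at h1
      show bt c (x.1.1 + y.1.1) (act M.1 (x.1.1 + y.1.1)) = _
      rw [act_add, bt_add_left, bt_add_right, bt_add_right, h2]
      linear_combination h1)
  let T : pw ν N →ₗ[ZMod 2] pw ν N := (shr X M).restrict fun _ hx => shr_mem M hx
  have hT : Function.Involutive T := fun x => Subtype.ext (shr_shr M x.1)
  refine ⟨(φ + q).comp T, fun a => funext fun l => ?_⟩
  simp only [Pj, W_chi h, expect_mul]
  refine Fintype.expect_bijective T hT.bijective _ _ fun x => ?_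
  have e1 : ((φ + q).comp T) (T x) = φ x + q x := by
    show (φ + q) (T (T x)) = _
    rw [hT x, LinearMap.add_apply]
  have e2 : chi c M ((pw ν N).subtype x).1 = ee (q x) := chi_eq _ _ _
  have e3 : (pw ν N).subtype (T x) = shr X M ((pw ν N).subtype x) := rfl
  rw [e1, e2, e3, ee_neg2, ee_neg2, ee_add]
  ring

lemma GG_chi {θ : ℝ} (ha : GG β θ a) : GG β θ fun l => a l * chi c M l := by
  intro N h1 h2 φ
  obtain ⟨φ', e⟩ := Pj_chi h M h2 φ
  rw [e, nsq_chi]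
  exact ha N h1 h2 φ'

lemma Prim_chi {θ : ℝ} (ha : Prim β θ a) : Prim β θ fun l => a l * chi c M l :=
  ⟨(nsq_chi c M a).trans_le ha.1, GG_chi h M ha.2.1,
    fun D h1 h2 h3 => (pur_chi h M a D).trans_le (ha.2.2.1 D h1 h2 h3), PP_chi h M ha.2.2.2⟩

lemma Prw_chi {K θ : ℝ} (ha : Prw β K θ a) : Prw β K θ fun l => a l * chi c M l :=
  ⟨(nsq_chi c M a).trans_le ha.1, GG_chi h M ha.2.1,
    fun D h1 h2 => (pur_chi h M a D).trans_le (ha.2.2.1 D h1 h2), PP_chi h M ha.2.2.2⟩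

end chi

end Pool.Agent.Work.MP_4523ee_co.F2
end

-- merged part: Pool.Agent.Work.MP_4523ee_co.F2.PB2
section
/-!
The two party peeling bound in characteristic two.
-/

set_option autoImplicit false
set_option linter.unusedSectionVars false

namespace Pool.Agent.Work.MP_4523ee_co.F2

open Finset hiding dens
open Matrix Pool.Agent.Work.MP_4523ee_co.Fp
open scoped BigOperators ComplexConjugate

variable {X Y : Type} [AddCommGroup X] [Module (ZMod 2) X] [Fintype X] [AddCommGroup Y]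
  [Module (ZMod 2) Y] [Fintype Y]
variable {ν : Type} [Fintype ν] [DecidableEq ν]

lemma PBc_K {β : Bil 2 X} (hβ : SymB β) {ψ : (ν → X) → ℂ} (h1 : nsq ψ ≤ 1) {K : ℝ}
    (hK : 1 ≤ K) (hG : GG β K ψ) (D : Submodule (ZMod 2) X) : PBc β ψ D K := by
  by_cases h : NdOn β D
  · refine Or.inr ⟨h, zero_le_one.trans hK, (PUR2 hβ h1 hK hG D).trans ?_⟩
    exact mul_le_mul_of_nonneg_right (by nlinarith) (by positivity)
  · exact Or.inl ⟨h, hG⟩

/-- Cauchy-Schwarz and (CO) on a nondegenerate subspace -/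
lemma PB_nd2 {B : Bil 2 Y} (hB : SymB B) {β : Bil 2 X} (hβ : SymB β)
    {D : Submodule (ZMod 2) X} (hD : NdOn β D) (J : GX X ν →ₗ[ZMod 2] GX Y ν)
    (hJ : ∀ x ∈ pw ν D, ∀ y ∈ pw ν D, sy B (J x) (J y) = -sy β x y) (Φ : (ν → Y) → ℂ)
    (ψ : (ν → X) → ℂ) {g : ℝ} (hg : 0 ≤ g)
    (h : ∑ x : pw ν D, ‖Xi β ψ x.1‖ ^ 2 ≤ g ^ 2 * (Fintype.card D : ℝ) ^ Fintype.card ν) :
    (Fintype.card D : ℝ) ^ Fintype.card ν * ‖𝔼 x : pw ν D, Xi B Φ (J x.1) * Xi β ψ x.1‖ ≤
      g * nsq Φ := by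
  have h1 := CO_nd2 hB hβ hD (J.comp (pw ν D).subtype) (-1) (by simp)
    (fun x y => by rw [neg_one_mul]; exact hJ x.1 x.2 y.1 y.2) Φ
  have h2 := norm_expect_mul_le (fun x : pw ν D => Xi B Φ (J x.1)) fun x : pw ν D => Xi β ψ x.1
  have hQ : (0 : ℝ) < (Fintype.card D : ℝ) ^ Fintype.card ν :=
    pow_pos (by exact_mod_cast Fintype.card_pos) _
  have hc : (Fintype.card (pw ν D) : ℝ) =
      (Fintype.card D : ℝ) ^ Fintype.card ν * (Fintype.card D : ℝ) ^ Fintype.card ν := by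
    rw [card_pw]
    push_cast
    rfl
  generalize (Fintype.card D : ℝ) ^ Fintype.card ν = Q at *
  have hn := nsq_nonneg Φ
  have h3 : en (fun x : pw ν D => Xi B Φ (J x.1)) ≤ nsq Φ ^ 2 / Q := by
    rw [en, Fintype.expect_eq_sum_div_card, hc, div_le_div_iff₀ (by positivity) hQ]
    have := mul_le_mul_of_nonneg_right h1 hQ.le
    simp only [LinearMap.comp_apply, Submodule.subtype_apply] at this
    linarith
  have h4 : en (fun x : pw ν D => Xi β ψ x.1) ≤ g ^ 2 / Q := by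
    rw [en, Fintype.expect_eq_sum_div_card, hc, div_le_div_iff₀ (by positivity) hQ]
    have := mul_le_mul_of_nonneg_right h hQ.le
    linarith
  have h5 : √(en fun x : pw ν D => Xi B Φ (J x.1)) * √(en fun x : pw ν D => Xi β ψ x.1) ≤
      g * nsq Φ / Q := by
    rw [← Real.sqrt_mul (en_nonneg _)]
    refine Real.sqrt_le_iff.2 ⟨by positivity, ?_⟩
    refine (mul_le_mul h3 h4 (en_nonneg _) (by positivity)).trans (le_of_eq ?_)
    field_simp
  have h6 := mul_le_mul_of_nonneg_left (h2.trans h5) hQ.le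
  rwa [mul_div_cancel₀ _ hQ.ne'] at h6

/-- Fourier coefficient of `Xi` along a represented family -/
lemma PB_four2 {β : Bil 2 X} (hβ : SymB β) {L : Type} [AddCommGroup L]
    [Module (ZMod 2) L] [Fintype L] {j : L →ₗ[ZMod 2] GX X ν}
    (hj : Ph β j fun _ => 1) (φ : Module.Dual (ZMod 2) L) (a : (ν → X) → ℂ)
    (y : GX X ν) (hy : ∀ x, bt β y.2 (j x).1 = 0) (hy' : ∀ x, bt β (j x).2 y.1 = 0) :
    𝔼 x : L, ee (-φ x) * Xi β a (j x + y) = Xi β (Pj β j φ a) y := by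
  have h1 : ∀ x, W β (j x + y) a = W β (j x) (W β y a) := fun x => by
    rw [W_W2, hy, ee_zero]
    simp
  have h2 : (syL β ν y).comp j = 0 := by
    ext x
    rw [LinearMap.comp_apply, syL_apply, sy, hy, bt_comm hβ, hy', sub_zero, LinearMap.zero_apply]
  simp only [Xi, h1]
  rw [← ip_Pj_eq, W_Pj_comm2 hβ, h2, sub_zero, ← ip_Pj2 hj, Pj_Pj2 hj]

lemma PB_key2 {B : Bil 2 Y} (hB : SymB B) {β : Bil 2 X} (hβ : SymB β)
    {D : Submodule (ZMod 2) X} (J : X →ₗ[ZMod 2] Y)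
    (hJ : ∀ a ∈ D, ∀ b ∈ D, B (J a) (J b) = -β a b) (Φ : (ν → Y) → ℂ)
    (ψ : (ν → X) → ℂ) {g : ℝ} (hg : PBc β ψ D g) :
    (Fintype.card D : ℝ) ^ Fintype.card ν *
      ‖𝔼 x : pw ν D, Xi B Φ (PB_lift ν J x.1) * Xi β ψ x.1‖ ≤ g * nsq Φ := by
  have hb : ∀ u v : ν → X, (∀ i, u i ∈ D) → (∀ i, v i ∈ D) →
      bt B (fun i => J (u i)) (fun i => J (v i)) = -bt β u v := fun u v hu hv => by
    rw [bt, bt, ← sum_neg_distrib]
    exact sum_congr rfl fun i _ => hJ _ (hu i) _ (hv i)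
  have hs : ∀ x ∈ pw ν D, ∀ y ∈ pw ν D,
      sy B (PB_lift ν J x) (PB_lift ν J y) = -sy β x y := fun x hx y hy => by
    have a1 : bt B (PB_lift ν J x).1 (PB_lift ν J y).2 = -bt β x.1 y.2 :=
      hb _ _ (mem_pw.1 hx).1 (mem_pw.1 hy).2
    have a2 : bt B (PB_lift ν J x).2 (PB_lift ν J y).1 = -bt β x.2 y.1 :=
      hb _ _ (mem_pw.1 hx).2 (mem_pw.1 hy).1
    rw [sy, sy, a1, a2]
    ring
  rcases hg with ⟨hn, hG⟩ | ⟨hn, h0, hg⟩
  swap
  · exact PB_nd2 hB hβ hn _ hs Φ ψ h0 hg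
  obtain ⟨N, D₁, h1, h2, h3, h4, h5⟩ := exists_rad_compl hβ D
  have a1 : N ≤ D := h1 ▸ le_sup_left
  have a2 : D₁ ≤ D := h1 ▸ le_sup_right
  have hN : Iso β N := fun x hx y hy => h3 x hx y (a1 hy)
  have b0 : ∀ u v : ν → X, (∀ i, u i ∈ N) → (∀ i, v i ∈ D) → bt β u v = 0 :=
    fun u v hu hv => sum_eq_zero fun i _ => h3 _ (hu i) _ (hv i)
  have b1 : ∀ u v : ν → X, (∀ i, u i ∈ N) → (∀ i, v i ∈ D) →
      bt B (fun i => J (u i)) (fun i => J (v i)) = 0 := fun u v hu hv => by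
    rw [hb u v (fun i => a1 (hu i)) hv, b0 u v hu hv, neg_zero]
  have b3 := Ph_pw (ν := ν) hN
  have b4 : Ph B ((PB_lift ν J).comp (pw ν N).subtype) fun _ => 1 :=
    Ph_one fun x y => b1 _ _ (mem_pw.1 y.2).2 fun i => a1 ((mem_pw.1 x.2).1 i)
  have c1 : ∀ y : pw ν D₁,
      𝔼 x : pw ν N, Xi B Φ (PB_lift ν J (x.1 + y.1)) * Xi β ψ (x.1 + y.1) =
      ∑ φ : Module.Dual (ZMod 2) (pw ν N),
        Xi B (Pj B ((PB_lift ν J).comp (pw ν N).subtype) (-φ) Φ) (PB_lift ν J y.1) *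
          Xi β (Pj β (pw ν N).subtype φ ψ) y.1 := by
    intro y
    have y1 : ∀ i, y.1.1 i ∈ D := fun i => a2 ((mem_pw.1 y.2).1 i)
    have y2 : ∀ i, y.1.2 i ∈ D := fun i => a2 ((mem_pw.1 y.2).2 i)
    rw [parseval_dual (p := 2)]
    refine sum_congr rfl fun φ _ => ?_
    rw [← PB_four2 hB b4 (-φ) Φ (PB_lift ν J y.1)
        (fun x => (bt_comm hB _ _).trans (b1 _ _ (mem_pw.1 x.2).1 y2))
        fun x => b1 _ _ (mem_pw.1 x.2).2 y1,
      ← PB_four2 hβ b3 φ ψ y.1 (fun x => (bt_comm hβ _ _).trans (b0 _ _ (mem_pw.1 x.2).1 y2))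
        fun x => b0 _ _ (mem_pw.1 x.2).2 y1]
    simp only [map_add, LinearMap.neg_apply, neg_neg, LinearMap.comp_apply, Submodule.subtype_apply]
  rw [PB_split h1 h2 fun x => Xi B Φ (PB_lift ν J x) * Xi β ψ x]
  simp only [c1]
  rw [expect_sum_comm, PB_card h1 h2, Nat.cast_mul, mul_pow,
    ← sum_nsq_Pj2 b4 Φ, ← Equiv.sum_comp (Equiv.neg _) fun φ : Module.Dual (ZMod 2) (pw ν N) =>
      nsq (Pj B ((PB_lift ν J).comp (pw ν N).subtype) φ Φ), mul_sum]
  refine (mul_le_mul_of_nonneg_left (norm_sum_le _ _) (by positivity)).trans ?_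
  rw [mul_sum]
  refine sum_le_sum fun φ _ => ?_
  have d1 := PB_nd2 hB hβ h4 (PB_lift ν J)
    (fun x hx y hy => hs x (PB_pw_mono a2 hx) y (PB_pw_mono a2 hy))
    (Pj B ((PB_lift ν J).comp (pw ν N).subtype) (-φ) Φ) (Pj β (pw ν N).subtype φ ψ)
    (nsq_nonneg _) (by
      rw [mul_comm]
      exact PUR_nd hβ _ h4)
  have d2 := hG N (fun e => hn (h5.1 e)) hN φ
  rw [mul_assoc]
  refine (mul_le_mul_of_nonneg_left d1 (by positivity)).trans ?_
  rw [← mul_assoc]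
  exact mul_le_mul_of_nonneg_right d2 (nsq_nonneg _)

theorem PB2 {B : Bil 2 Y} (hB : SymB B) {β : Bil 2 X} (hβ : SymB β)
    (ι : X →ₗ[ZMod 2] Y) (π : Y →ₗ[ZMod 2] X) (h1 : ∀ x, π (ι x) = x)
    (h2 : ∀ x y, B (ι x) y = β x (π y)) (S : Submodule (ZMod 2) Y) (hS : Iso B S)
    (hinj : ∀ s ∈ S, π s = 0 → s = 0) (Φ : (ν → Y) → ℂ)
    (hΦ : ∀ (l : ν → Y) (m : ν → X), Φ (l + fun i => ι (m i)) = Φ l) (ψ : (ν → X) → ℂ) {g : ℝ}
    (hg : PBc β ψ (S.map π) g) :
    (Fintype.card S : ℝ) ^ Fintype.card ν *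
        nsq (Pj B (pw ν S).subtype 0 fun l => Φ l * ψ fun i => π (l i)) ≤
      g * (nsq Φ / (Fintype.card X : ℝ) ^ Fintype.card ν) := by
  obtain ⟨σ, s1, s2⟩ : ∃ σ : X →ₗ[ZMod 2] Y, (∀ d ∈ S.map π, σ d ∈ S) ∧ ∀ s ∈ S, σ (π s) = s := by
    obtain ⟨r, hr⟩ := (π.comp S.subtype).exists_leftInverse_of_injective
      (LinearMap.ker_eq_bot'.2 fun s hs => Subtype.ext (hinj s.1 s.2 hs))
    exact ⟨S.subtype.comp r, fun d _ => (r d).2, fun s hs =>
      congrArg Subtype.val (LinearMap.congr_fun hr ⟨s, hs⟩)⟩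
  have s3 : ∀ d ∈ S.map π, π (σ d) = d := by
    rintro _ ⟨s, hs, rfl⟩
    rw [s2 s hs]
  have s4 : ∀ a ∈ S.map π, ∀ b ∈ S.map π, B ((σ - ι) a) ((σ - ι) b) = -β a b := by
    intro a ha b hb
    simp only [LinearMap.sub_apply, map_sub]
    rw [hS _ (s1 a ha) _ (s1 b hb), hB (σ a) (ι b), h2, h2, h2, s3 a ha, s3 b hb, h1, hβ b a]
    ring
  have hk := PB_key2 hB hβ (D := S.map π) (σ - ι) s4 Φ ψ hg
  have hc : Fintype.card S = Fintype.card (S.map π) := Fintype.card_congr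
    ⟨fun s => ⟨π s.1, s.1, s.2, rfl⟩, fun d => ⟨σ d.1, s1 d.1 d.2⟩,
      fun s => Subtype.ext (s2 s.1 s.2), fun d => Subtype.ext (s3 d.1 d.2)⟩
  let e : pw ν (S.map π) ≃ pw ν S :=
    ⟨fun y => ⟨PB_lift ν σ y.1, mem_pw.2 ⟨fun i => s1 _ ((mem_pw.1 y.2).1 i),
        fun i => s1 _ ((mem_pw.1 y.2).2 i)⟩⟩,
      fun x => ⟨PB_lift ν π x.1, mem_pw.2 ⟨fun i => ⟨_, (mem_pw.1 x.2).1 i, rfl⟩,
        fun i => ⟨_, (mem_pw.1 x.2).2 i, rfl⟩⟩⟩,
      fun y => Subtype.ext (Prod.ext (funext fun i => s3 _ ((mem_pw.1 y.2).1 i))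
        (funext fun i => s3 _ ((mem_pw.1 y.2).2 i))),
      fun x => Subtype.ext (Prod.ext (funext fun i => s2 _ ((mem_pw.1 x.2).1 i))
        (funext fun i => s2 _ ((mem_pw.1 x.2).2 i)))⟩
  have he : (Fintype.card X : ℂ) ^ Fintype.card ν *
      (nsq (Pj B (pw ν S).subtype 0 fun l => Φ l * ψ fun i => π (l i)) : ℂ) =
      𝔼 y : pw ν (S.map π), Xi B Φ (PB_lift ν (σ - ι) y.1) * Xi β ψ y.1 := by
    rw [nsq_Pj2 (Ph_pw hS), ip_Pj_eq, mul_expect]
    refine (Fintype.expect_equiv e _ _ fun y => ?_).symm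
    rw [← PB_Xi hB ι π h1 h2 Φ hΦ ψ (PB_lift ν (σ - ι) y.1)
      (fun i => by
        show π (σ (y.1.1 i) - ι (y.1.1 i)) = 0
        rw [map_sub, s3 _ ((mem_pw.1 y.2).1 i), h1, sub_self])
      (fun i => by
        show π (σ (y.1.2 i) - ι (y.1.2 i)) = 0
        rw [map_sub, s3 _ ((mem_pw.1 y.2).2 i), h1, sub_self]) y.1]
    have a1 : PB_lift ν (σ - ι) y.1 + PB_lift ν ι y.1 = (pw ν S).subtype (e y) :=
      Prod.ext (funext fun i => sub_add_cancel _ _) (funext fun i => sub_add_cancel _ _)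
    rw [a1, LinearMap.zero_apply, neg_zero, ee_zero, one_mul]
    rfl
  have hQ : (0 : ℝ) < (Fintype.card X : ℝ) ^ Fintype.card ν :=
    pow_pos (by exact_mod_cast Fintype.card_pos) _
  rw [← he, norm_mul, norm_pow, Complex.norm_natCast, Complex.norm_real,
    Real.norm_of_nonneg (nsq_nonneg _)] at hk
  rw [hc, ← mul_div_assoc, le_div_iff₀ hQ]
  linarith

end Pool.Agent.Work.MP_4523ee_co.F2
end

-- merged part: Pool.Agent.Work.MP_4523ee_co.F2.Gt2W
section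
/-!
The fibred Gaussian tile: reduction to families that are invariant along the rows of the slice.
-/

set_option autoImplicit false
set_option linter.unusedSectionVars false

namespace Pool.Agent.Work.MP_4523ee_co.F2

open Finset hiding dens
open Matrix Pool.Agent.Work.MP_4523ee_co.Fp
open scoped BigOperators ComplexConjugate

/-- the Gaussian tile for invariant families -/
def GTcore (k r : ℕ) : Prop :=
  ∀ ε : ℝ, 0 < ε → ∃ J0 : ℕ, ∀ J : ℕ, J0 ≤ J → ∃ θ : ℝ, 0 < θ ∧ ∃ C : ℝ, 0 < C ∧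
    ∀ (X : Type) [AddCommGroup X] [Module (ZMod 2) X] [Fintype X] [Nontrivial X],
    Fintype.card X ≤ k → ∀ (ν : Type) [Fintype ν] [DecidableEq ν] (b : Bil 2 X), NdB (pol b) →
    ∀ (κ : Matrix (Fin r) ν (ZMod 2)) (e : Fin r → X),
    Submodule.span (ZMod 2) (Set.range e) = ⊤ →
    ∀ (cst : Prop) (a : (ν → ZMod 2) → (ν → X) → ℂ) (D : Set (ν → ZMod 2)),
    (∀ v ∈ D, nsq (a v) = 1 ∧ OnSl κ e (a v) ∧ Prim (pol b) θ (a v) ∧ Pos (pol b) θ (a v)) →
    (∀ v, v ∉ D → a v = 0) → (∀ v y, a (v + κᵀ *ᵥ y) = a v) →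
    (∀ v y, v + κᵀ *ᵥ y ∈ D ↔ v ∈ D) → (cst → D = Set.univ ∧ ∀ v v', a v = a v') →
    (¬ cst → SP (pol b) θ Set.univ a) →
    ∀ n : (ν → ZMod 2) → ℝ, (∀ v, 0 ≤ n v ∧ n v ≤ 1) →
    ∃ w : SymM 2 ν → Matrix ν (Fin J) (ZMod 2) → ℝ, (∀ M U, 0 ≤ w M U) ∧
      (∀ M U (N : SymM 2 (Fin r ⊕ Fin J)), w (M + cj (fromCols κᵀ U) N) U = w M U) ∧
      (∀ U, SlInv b κ e fun M => w M U) ∧
      𝔼 M, (𝔼 U, w M U - 1) ^ 2 ≤ ε ^ 2 ∧ (∀ U, 𝔼 M, w M U ≤ C) ∧
      (200 : ℝ)⁻¹ * (𝔼 v, ind D v * n v) - ε ≤ 𝔼 M, 𝔼 U, w M U *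
        (ind D (dg M) * n (dg M) * ‖FF b (cut Uᵀ 0 (a (dg M))) M‖ ^ 2)

section
variable {ν : Type} [Fintype ν] [DecidableEq ν] {r : ℕ}

/-- a representative of each coset that maximises `F` -/
lemma g2w_rep (K : Matrix ν (Fin r) (ZMod 2)) (F : (ν → ZMod 2) → ℝ) :
    ∃ rep : (ν → ZMod 2) → (ν → ZMod 2), (∀ d y, rep (d + K *ᵥ y) = rep d) ∧
      (∀ d, ∃ y, rep d = d + K *ᵥ y) ∧ ∀ d, F d ≤ F (rep d) := by
  let P : (ν → ZMod 2) → (ν → ZMod 2) → Prop := fun d x =>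
    (∃ y, x = d + K *ᵥ y) ∧ ∀ y, F (d + K *ᵥ y) ≤ F x
  have hP : ∀ d, ∃ x, P d x := fun d => by
    obtain ⟨y, hy⟩ := Finite.exists_max fun y : Fin r → ZMod 2 => F (d + K *ᵥ y)
    exact ⟨d + K *ᵥ y, ⟨y, rfl⟩, hy⟩
  have hI : ∀ d y, P (d + K *ᵥ y) = P d := fun d y => by
    funext x
    apply propext
    constructor
    · rintro ⟨⟨z, hz⟩, h2⟩
      refine ⟨⟨y + z, by rw [hz, mulVec_add, add_assoc]⟩, fun z' => ?_⟩
      have := h2 (z' - y)
      rwa [add_assoc, ← mulVec_add, add_sub_cancel] at this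
    · rintro ⟨⟨z, hz⟩, h2⟩
      refine ⟨⟨z - y, by rw [hz, add_assoc, ← mulVec_add, add_sub_cancel]⟩, fun z' => ?_⟩
      rw [add_assoc, ← mulVec_add]
      exact h2 _
  refine ⟨fun d => Classical.epsilon (P d), fun d y => by simp only [hI], fun d =>
    (Classical.epsilon_spec (hP d)).1, fun d => ?_⟩
  have := (Classical.epsilon_spec (hP d)).2 0
  rwa [mulVec_zero, add_zero] at this

lemma g2w_sum (K : Matrix ν (Fin r) (ZMod 2)) (G : (ν → ZMod 2) → ℝ) :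
    𝔼 d, ∑ y : Fin r → ZMod 2, G (d + K *ᵥ y) = 2 ^ r * 𝔼 d, G d := by
  have h1 : ∀ y : Fin r → ZMod 2, 𝔼 d, G (d + K *ᵥ y) = 𝔼 d, G d := fun y =>
    Fintype.expect_equiv (Equiv.addRight (K *ᵥ y)) _ _ fun _ => rfl
  rw [Finset.expect_sum_comm]
  simp only [h1, sum_const, card_univ, Fintype.card_fun, ZMod.card, Fintype.card_fin, nsmul_eq_mul]
  push_cast
  rfl

/-- a value at the representative is bounded by the sum over the coset -/
lemma g2w_avg (K : Matrix ν (Fin r) (ZMod 2)) {rep : (ν → ZMod 2) → (ν → ZMod 2)}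
    (h : ∀ d, ∃ y, rep d = d + K *ᵥ y) (G : (ν → ZMod 2) → ℝ) (hG : ∀ d, 0 ≤ G d) :
    𝔼 d, G (rep d) ≤ 2 ^ r * 𝔼 d, G d := by
  rw [← g2w_sum K G]
  refine Finset.expect_le_expect fun d _ => ?_
  obtain ⟨y, hy⟩ := h d
  rw [hy]
  exact single_le_sum (f := fun y : Fin r → ZMod 2 => G (d + K *ᵥ y)) (fun _ _ => hG _)
    (mem_univ y)

variable {X : Type} [AddCommGroup X] [Module (ZMod 2) X] [Fintype X]

/-- on a slice a shift along the rows changes the twist by a constant phase -/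
lemma g2w_phase (β : Bil 2 X) (c : X) {κ : Matrix (Fin r) ν (ZMod 2)} {e : Fin r → X}
    {a : (ν → X) → ℂ} (ha : OnSl κ e a) (a' : (ν → X) → ℂ) (x : ν → ZMod 2)
    (y : Fin r → ZMod 2) :
    ‖∑ l, conj (a l) * a' l * ee (β c (∑ i, (x + κᵀ *ᵥ y) i • l i))‖ =
      ‖∑ l, conj (a l) * a' l * ee (β c (∑ i, x i • l i))‖ := by
  have h1 : ∀ l, conj (a l) * a' l * ee (β c (∑ i, (x + κᵀ *ᵥ y) i • l i)) =
      conj (a l) * a' l * ee (β c (∑ i, x i • l i)) * ee (β c (∑ j, y j • e j)) := by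
    intro l
    by_cases hl : a l = 0
    · simp [hl]
    · have h2 : ∑ i, (κᵀ *ᵥ y) i • l i = ∑ j, y j • e j := by
        rw [← ha l hl]
        simp only [act, mulVec, dotProduct, transpose_apply, Finset.sum_smul, Finset.smul_sum,
          smul_smul]
        rw [Finset.sum_comm]
        exact sum_congr rfl fun j _ => sum_congr rfl fun i _ => by rw [mul_comm]
      simp only [Pi.add_apply, add_smul, sum_add_distrib, h2, map_add, ee_add, mul_assoc]
  simp only [h1]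
  rw [← Finset.sum_mul, norm_mul, norm_ee, mul_one]

end

theorem GT2_of_core {k r : ℕ} (h : GTcore k r) : GTout k r := by
  classical
  intro ε hε
  obtain ⟨J0, hJ0⟩ := h ε hε
  refine ⟨J0, fun J hJ => ?_⟩
  obtain ⟨θ, hθ, C, hC, H⟩ := hJ0 J hJ
  have h4 : (1 : ℝ) ≤ 4 ^ r := one_le_pow₀ (by norm_num)
  have h2 : (1 : ℝ) ≤ 2 ^ r := one_le_pow₀ (by norm_num)
  have hθ' : θ / 4 ^ r ≤ θ := div_le_self hθ.le h4
  refine ⟨θ / 4 ^ r, by positivity, C, hC, ?_⟩
  intro X _ _ _ _ hX ν _ _ b hb κ e he a D hD hcase n hn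
  have hD' : ∀ v ∈ D, nsq (a v) = 1 ∧ OnSl κ e (a v) ∧ Prim (pol b) θ (a v) ∧
      Pos (pol b) θ (a v) := fun v hv =>
    ⟨(hD v hv).1, (hD v hv).2.1, (hD v hv).2.2.1.mono (by positivity) hθ',
      fun c hc u => ((hD v hv).2.2.2 c hc u).trans hθ'⟩
  have hF0 : ∀ v, 0 ≤ ind D v * n v := fun v => mul_nonneg (ind_nonneg _ _) (hn v).1
  rcases hcase with ⟨rfl, hc⟩ | hsp
  · obtain ⟨w, w1, w2, w3, w4, w5, w6⟩ := H X hX ν b hb κ e he True a Set.univ hD'
      (fun v hv => absurd trivial hv) (fun v y => hc _ _) (fun v y => Iff.rfl)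
      (fun _ => ⟨rfl, hc⟩) (fun ht => absurd trivial ht) n hn
    refine ⟨w, w1, w2, w3, w4, w5, le_trans (sub_le_sub_right ?_ ε) w6⟩
    refine mul_le_mul_of_nonneg_right (inv_anti₀ (by norm_num) (by linarith)) ?_
    exact Finset.expect_nonneg fun v _ => hF0 v
  obtain ⟨rep, r1, r2, r3⟩ := g2w_rep κᵀ fun v => ind D v * n v
  have r4 : ∀ d, rep (rep d) = rep d := fun d => by
    obtain ⟨y, hy⟩ := r2 d
    conv_lhs => rw [hy]
    exact r1 d y
  let D' : Set (ν → ZMod 2) := {v | rep v ∈ D}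
  let a' : (ν → ZMod 2) → (ν → X) → ℂ := fun v => if rep v ∈ D then a (rep v) else 0
  let n' : (ν → ZMod 2) → ℝ := fun v => if rep v = v then n v else 0
  have ha1 : ∀ v, rep v ∈ D → a' v = a (rep v) := fun v hv => if_pos hv
  have ha0 : ∀ v, rep v ∉ D → a' v = 0 := fun v hv => if_neg hv
  have hn' : ∀ v, 0 ≤ n' v ∧ n' v ≤ 1 := fun v => by
    by_cases hv : rep v = v
    · simp only [n', if_pos hv]
      exact hn v
    · simp only [n', if_neg hv]
      exact ⟨le_rfl, zero_le_one⟩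
  have hSP : SP (pol b) θ Set.univ a' := by
    intro c
    let G : (ν → ZMod 2) → (ν → ZMod 2) → ℝ := fun v v' => ind D v * ind D v' *
      ‖∑ l, conj (a v l) * a v' l * ee (pol b c (∑ i, (v + v') i • l i))‖ ^ 2
    have G0 : ∀ v v', 0 ≤ G v v' := fun v v' =>
      mul_nonneg (mul_nonneg (ind_nonneg _ _) (ind_nonneg _ _)) (sq_nonneg _)
    have k1 : ∀ v v', ind Set.univ v * ind Set.univ v' *
        ‖∑ l, conj (a' v l) * a' v' l * ee (pol b c (∑ i, (v + v') i • l i))‖ ^ 2 ≤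
        G (rep v) (rep v') := by
      intro v v'
      rw [ind_of_mem (Set.mem_univ v), ind_of_mem (Set.mem_univ v'), one_mul, one_mul]
      by_cases hv : rep v ∈ D
      swap
      · rw [ha0 v hv]
        simpa using G0 _ _
      by_cases hv' : rep v' ∈ D
      swap
      · rw [ha0 v' hv']
        simpa using G0 _ _
      obtain ⟨y, hy⟩ := r2 v
      obtain ⟨y', hy'⟩ := r2 v'
      have e1 : rep v + rep v' = v + v' + κᵀ *ᵥ (y + y') := by
        rw [hy, hy', mulVec_add]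
        abel
      simp only [G]
      rw [ha1 v hv, ha1 v' hv', ind_of_mem hv, ind_of_mem hv', one_mul, one_mul, e1,
        g2w_phase _ c (hD _ hv).2.1]
    calc _ ≤ 𝔼 v, 𝔼 v', G (rep v) (rep v') :=
          Finset.expect_le_expect fun v _ => Finset.expect_le_expect fun v' _ => k1 v v'
      _ ≤ 𝔼 v, 2 ^ r * 𝔼 v', G (rep v) v' :=
          Finset.expect_le_expect fun v _ => g2w_avg κᵀ r2 _ (G0 _)
      _ ≤ 2 ^ r * 𝔼 v, 2 ^ r * 𝔼 v', G v v' :=
          g2w_avg κᵀ r2 (fun v => 2 ^ r * 𝔼 v', G v v') fun v =>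
            mul_nonneg (by positivity) (Finset.expect_nonneg fun v' _ => G0 v v')
      _ = 4 ^ r * 𝔼 v, 𝔼 v', G v v' := by
          rw [← Finset.mul_expect, ← mul_assoc, ← mul_pow]
          norm_num
      _ ≤ 4 ^ r * (θ / 4 ^ r) := mul_le_mul_of_nonneg_left (hsp c) (by positivity)
      _ = θ := by field_simp
  obtain ⟨w, w1, w2, w3, w4, w5, w6⟩ := H X hX ν b hb κ e he False a' D'
    (fun v hv => by rw [ha1 v hv]; exact hD' _ hv) ha0
    (fun v y => by simp only [a', r1]) (fun v y => by simp only [D', Set.mem_ofPred_eq, r1])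
    False.elim (fun _ => hSP) n' hn'
  refine ⟨w, w1, w2, w3, w4, w5, le_trans (sub_le_sub_right ?_ ε) (w6.trans ?_)⟩
  · have k2 : 𝔼 v, ind D v * n v ≤ 2 ^ r * 𝔼 v, ind D' v * n' v := by
      refine le_trans (Finset.expect_le_expect fun d _ => (r3 d).trans (le_of_eq ?_))
        (g2w_avg κᵀ r2 (fun v => ind D' v * n' v) fun v =>
          mul_nonneg (ind_nonneg _ _) (hn' v).1)
      have e1 : n' (rep d) = n (rep d) := if_pos (r4 d)
      have e2 : ind D' (rep d) = ind D (rep d) := by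
        by_cases hd : rep d ∈ D
        · rw [ind_of_mem hd, ind_of_mem (show rep d ∈ D' by show rep (rep d) ∈ D; rwa [r4])]
        · rw [ind_of_not hd, ind_of_not (show rep d ∉ D' from fun h' => hd (r4 d ▸ h'))]
      simp only [e1, e2]
    rw [mul_inv, mul_assoc]
    refine mul_le_mul_of_nonneg_left ?_ (by norm_num)
    rwa [inv_mul_le_iff₀ (by positivity)]
  · refine Finset.expect_le_expect fun M _ => Finset.expect_le_expect fun U _ =>
      mul_le_mul_of_nonneg_left ?_ (w1 M U)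
    have k3 : 0 ≤ ind D (dg M) * n (dg M) * ‖FF b (cut Uᵀ 0 (a (dg M))) M‖ ^ 2 :=
      mul_nonneg (hF0 _) (sq_nonneg _)
    by_cases hv : rep (dg M) = dg M
    swap
    · have e1 : n' (dg M) = 0 := if_neg hv
      rw [e1, mul_zero, zero_mul]
      exact k3
    by_cases hd : dg M ∈ D
    · have e1 : n' (dg M) = n (dg M) := if_pos hv
      have hd' : rep (dg M) ∈ D := hv.symm ▸ hd
      rw [e1, ha1 _ hd', hv, ind_of_mem hd, ind_of_mem (show dg M ∈ D' from hd')]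
    · rw [ind_of_not (show dg M ∉ D' from fun h' => hd (hv ▸ h')), zero_mul, zero_mul]
      exact k3

end Pool.Agent.Work.MP_4523ee_co.F2
end

-- merged part: Pool.Agent.Work.MP_4523ee_co.F2.Inv2
section
/-!
Inverse theorem for the fourth moment of the characteristic function in characteristic two.
-/

set_option autoImplicit false
set_option linter.unusedSectionVars false

namespace Pool.Agent.Work.MP_4523ee_co.F2

open Finset hiding dens
open Matrix Pool.Agent.Work.MP_4523ee_co.Fp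
open scoped BigOperators ComplexConjugate

section
variable {X : Type} [AddCommGroup X] [Module (ZMod 2) X] [Fintype X]
variable {ν : Type} [Fintype ν] [DecidableEq ν] {β : Bil 2 X}

/-- a heavy eigenspace of `L` forces `L` to meet every subspace `H` of small purity thinly -/
lemma card_inf_le2 {a : (ν → X) → ℂ} {L : Submodule (ZMod 2) (GX X ν)} {σ : L → ℂ}
    (hL : Ph β L.subtype σ) {φ : Module.Dual (ZMod 2) L} {c : ℝ} (hc : 0 ≤ c)
    (h : c ≤ nsq (Pq β L.subtype σ φ a)) (H : Submodule (ZMod 2) (GX X ν)) :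
    c ^ 2 * Fintype.card ↥(L ⊓ H) ≤ ∑ x : H, ‖Xi β a x.1‖ ^ 2 := by
  classical
  let i : ↥(L ⊓ H) →ₗ[ZMod 2] L := Submodule.inclusion inf_le_left
  have h1 := h.trans (nsq_Pq_le_comp hL i φ a)
  have h2 := nsq_Pq_sq_le (hL.comp i) (φ.comp i) a
  have h3 : c ^ 2 ≤ _ := (pow_le_pow_left₀ hc h1 2).trans h2
  have h0 : (0 : ℝ) < Fintype.card ↥(L ⊓ H) := by exact_mod_cast Fintype.card_pos
  rw [Fintype.expect_eq_sum_div_card, le_div_iff₀ h0] at h3
  refine h3.trans ?_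
  let k : ↥(L ⊓ H) → H := fun x => ⟨x.1, x.2.2⟩
  have hk : Function.Injective k := fun x y e => Subtype.ext (congrArg Subtype.val e :)
  calc _ = ∑ x ∈ univ.image k, ‖Xi β a x.1‖ ^ 2 := by
        rw [sum_image fun x _ y _ e => hk e]; rfl
    _ ≤ _ := sum_le_sum_of_subset_of_nonneg (subset_univ _) fun _ _ _ => by positivity

end

theorem INV2 (ε : ℝ) (hε : 0 < ε) : ∃ c : ℝ, 0 < c ∧
    ∀ (X : Type) [AddCommGroup X] [Module (ZMod 2) X] [Fintype X] (ν : Type) [Fintype ν]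
    [DecidableEq ν] (β : Bil 2 X), SymB β → NdB β → ∀ a : (ν → X) → ℂ, nsq a ≤ 1 →
    ¬ PP β ε a → ∃ L : Submodule (ZMod 2) (GX X ν), (∀ x ∈ L, ∀ y ∈ L, sy β x y = 0) ∧
      c * (Fintype.card X : ℝ) ^ Fintype.card ν ≤ Fintype.card L ∧
      (∃ (σ : L → ℂ) (φ : Module.Dual (ZMod 2) L), Ph β L.subtype σ ∧
        c ≤ nsq (Pq β L.subtype σ φ a)) ∧
      ∀ E : Submodule (ZMod 2) X,
        c ^ 2 * Fintype.card ↥(L ⊓ pw ν E) ≤ ∑ x : pw ν E, ‖Xi β a x.1‖ ^ 2 := by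
  classical
  obtain ⟨C, hC, hcore⟩ := MP_4523ee_co.Fp.inv_core 2 ε hε
  refine ⟨(C ^ 2 + C)⁻¹, by positivity, fun X _ _ _ ν _ _ β hβ hn a ha hP => ?_⟩
  set D : ℝ := (Fintype.card X : ℝ) ^ Fintype.card ν with hDd
  have hD : 0 < D := by
    have : 0 < Fintype.card X := Fintype.card_pos
    positivity
  have h0 := nsq_nonneg a
  have hneg : ∀ x y : GX X ν, sy β x (-y) = -sy β x y := fun x y => (syL β ν x).map_neg y
  obtain ⟨H, hH1, hH2⟩ := hcore (GX X ν) (fun y x => ee (sy β y x)) (fun x => ‖Xi β a x‖ ^ 2) D hD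
    (fun y x x' => by rw [sy_add_right, ee_add])
    (fun x y => by rw [hneg, sy_anti hβ y x])
    (fun x y => by rw [hneg, sy_anti hβ x y])
    (fun x => by rw [neg_eq2])
    (fun x => by positivity)
    (fun x => pow_le_one₀ (norm_nonneg _) ((norm_Xi_le β a x).trans ha))
    (by
      rw [sum_Xi_sq hβ hn]
      exact mul_le_of_le_one_right hD.le (pow_le_one₀ h0 ha))
    (fun x => by rw [self_dual2 hβ hn, hDd]; push_cast; rfl)
    (by
      simp only [← pow_mul]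
      exact (not_le.1 hP).le)
  obtain ⟨L, hLH, hL, hmax⟩ := exists_max_iso hβ H
  obtain ⟨σ, hσ⟩ := exists_Ph (j := L.subtype) hβ fun x y => hL _ x.2 _ y.2
  have hsum : ∑ x ∈ univ.filter (fun x => x ∈ H), ‖Xi β a x‖ ^ 2 =
      ∑ x : H, ‖Xi β a (H.subtype x)‖ ^ 2 :=
    sum_subtype _ (fun x => by simp) fun x => ‖Xi β a x‖ ^ 2
  rw [hsum] at hH2
  let L' : Submodule (ZMod 2) H := L.comap H.subtype
  have hL' : ∀ x ∈ L', ∀ y ∈ L', sy β (H.subtype x) (H.subtype y) = 0 :=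
    fun x hx y hy => hL _ hx _ hy
  let e : L' ≃ₗ[ZMod 2] L := Submodule.comapSubtypeEquivOfLe hLH
  have hσ' : Ph β (H.subtype.comp L'.subtype) fun x => σ (e x) := hσ.comp e.toLinearMap
  have hc1 : (C ^ 2 + C)⁻¹ * C ≤ 1 := by
    rw [inv_mul_le_iff₀ (by positivity)]; nlinarith
  have hc2 : (C ^ 2 + C)⁻¹ * C ^ 2 < 1 := by
    rw [inv_mul_lt_iff₀ (by positivity)]; nlinarith
  have hc0 : 0 < (C ^ 2 + C)⁻¹ := by positivity
  generalize (C ^ 2 + C)⁻¹ = c at hc0 hc1 hc2 ⊢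
  have hφ : ∃ φ : Module.Dual (ZMod 2) L, c ≤ nsq (Pq β L.subtype σ φ a) := by
    by_contra hcon
    push Not at hcon
    have h1 := CO2_2 hβ H.subtype L' hσ' a c fun φ => by
      have e1 : Pq β (H.subtype.comp L'.subtype) (fun x => σ (e x)) φ a =
          Pq β L.subtype σ (φ.comp e.symm.toLinearMap) a := by
        funext l
        refine Fintype.expect_equiv e.toEquiv _ _ fun x => ?_
        have e2 : φ.comp e.symm.toLinearMap (e.toEquiv x) = φ x := by simp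
        rw [e2]; rfl
      rw [e1]
      exact (hcon _).le
    rw [Nat.card_eq_fintype_card] at hH1
    have h2 : (Fintype.card H : ℝ) * (c * nsq a) ≤ C * D * (c * 1) := by gcongr
    have h3 : C * ∑ x : H, ‖Xi β a (H.subtype x)‖ ^ 2 ≤ C * (C * D * (c * 1)) := by
      gcongr; exact h1.trans h2
    nlinarith
  obtain ⟨φ, hφ⟩ := hφ
  refine ⟨L, hL, ?_, ⟨σ, φ, hσ, hφ⟩, fun E => card_inf_le2 hσ hc0.le hφ _⟩
  have h1 := CO1_2 hβ H.subtype L' hL' (fun x hx => hmax _ x.2 fun y hy =>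
    hx ⟨y, hLH hy⟩ hy) a
  rw [Fintype.card_congr e.toEquiv] at h1
  have h2 : (Fintype.card L : ℝ) * nsq a ^ 2 ≤ Fintype.card L :=
    mul_le_of_le_one_right (by positivity) (pow_le_one₀ h0 ha)
  have h3 : D ≤ C * Fintype.card L := hH2.trans (by gcongr; exact h1.trans h2)
  calc c * D ≤ c * (C * Fintype.card L) := by gcongr
    _ = c * C * Fintype.card L := by ring
    _ ≤ 1 * Fintype.card L := by gcongr
    _ = _ := one_mul _

end Pool.Agent.Work.MP_4523ee_co.F2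
end
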