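import Mathlib
import Pool.Agent.Work.MP_4523ee_co.Fp.Wick
import Pool.Agent.Work.MP_4523ee_co.F2.Inv2
import Pool.Agent.Work.MP_4523ee_co.Fp.StD
import Pool.Agent.Work.MP_4523ee_co.F2.AlA

-- merged part: Pool.Agent.Work.MP_4523ee_co.F2.Val2
section
/-!
Values of isotropic subspaces on product vectors in characteristic two.
-/

set_option autoImplicit false
set_option linter.unusedSectionVars false

namespace Pool.Agent.Work.MP_4523ee_co.F2

open Finset hiding dens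
open Matrix Pool.Agent.Work.MP_4523ee_co.Fp
open scoped BigOperators ComplexConjugate

variable {X : Type} [AddCommGroup X] [Module (ZMod 2) X]
variable {K : Type} [Fintype K] [DecidableEq K]

/-- bilinear pairing of two vectors -/
noncomputable def bil {α : Type} [Fintype α] (a b : α → ℂ) : ℂ := ∑ l, a l * b l

lemma bil_comm {α : Type} [Fintype α] (a b : α → ℂ) : bil a b = bil b a :=
  sum_congr rfl fun _ _ => mul_comm _ _

lemma bil_eq_ip {α : Type} [Fintype α] (a b : α → ℂ) : bil a b = ip (fun l => conj (a l)) b := by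
  simp only [bil, ip, Complex.conj_conj]

lemma norm_bil_le {α : Type} [Fintype α] (a b : α → ℂ) : ‖bil a b‖ ≤ √(nsq a) * √(nsq b) := by
  rw [bil_eq_ip, ← prim_nsq_conj a]
  exact norm_ip_le _ _

lemma norm_bil_le_one {α : Type} [Fintype α] {a b : α → ℂ} (ha : nsq a ≤ 1) (hb : nsq b ≤ 1) :
    ‖bil a b‖ ≤ 1 :=
  (norm_bil_le a b).trans (mul_le_one₀ (Real.sqrt_le_one.2 ha) (Real.sqrt_nonneg _)
    (Real.sqrt_le_one.2 hb))

/-- the matching subspace -/
def Tm (X : Type) [AddCommGroup X] [Module (ZMod 2) X] {K : Type} (τ : K → K) :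
    Submodule (ZMod 2) (K → X) where
  carrier := {t | ∀ k, t (τ k) = t k}
  add_mem' := fun {a b} ha hb i => by
    have h1 := ha i
    have h2 := hb i
    simp only [Pi.add_apply, h1, h2]
  zero_mem' := fun _ => rfl
  smul_mem' := fun c a ha i => by
    have h1 := ha i
    simp only [Pi.smul_apply, h1]

/-- the diagonal on one pair -/
def vp (a b : K) (x : X) : K → X := Pi.single a x + Pi.single b x

lemma vp_eq {β : Bil 2 X} (hβ : SymB β) (hn : NdB β) {T : Submodule (ZMod 2) (K → X)}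
    (hT : Iso (BK fun _ => β) T) {a b : K} (h : ∀ x, vp a b x ∈ T) {t : K → X} (ht : t ∈ T) :
    t b = t a := by
  refine (neg_eq2 _).symm.trans (neg_eq_of_add_eq_zero_left (hn _ fun y => ?_))
  have h1 := hT _ (h y) _ ht
  rw [vp, map_add, LinearMap.add_apply, va_single, va_single] at h1
  rw [hβ, map_add, h1]

lemma vp_find {β : Bil 2 X} (hn : NdB β) {T : Submodule (ZMod 2) (K → X)}
    (hT : Iso (BK fun _ => β) T) (hΔ : ∀ x : X, (fun _ => x) ∈ T)
    (h2 : ∀ I, TI T I ≠ ⊥ → (∀ j ∈ I, TI T (I.erase j) = ⊥) → 2 ≤ I.card →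
      I.card ≤ 2 ∧ ∀ j ∈ I, (TI T I).map (LinearMap.proj j) = ⊤)
    {J : Finset K} (hJ : TI T J ≠ ⊥) :
    ∃ a b, a ≠ b ∧ a ∈ J ∧ b ∈ J ∧ ∀ x, vp a b x ∈ T := by
  classical
  obtain ⟨I, hI, hmin⟩ := exists_min_image (J.powerset.filter fun I => TI T I ≠ ⊥) card
    ⟨J, mem_filter.mpr ⟨mem_powerset_self J, hJ⟩⟩
  obtain ⟨hIJ, hI0⟩ := mem_filter.mp hI
  rw [mem_powerset] at hIJ
  have hm : ∀ j ∈ I, TI T (I.erase j) = ⊥ := fun j hj => by
    by_contra h
    have := hmin _ (mem_filter.mpr ⟨mem_powerset.mpr ((erase_subset j I).trans hIJ), h⟩)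
    have := card_erase_lt_of_mem hj
    omega
  have hB : ∀ t ∈ TI T I, ∑ i ∈ I, t i = 0 := fun t ht => hn _ fun y => by
    have h3 := hT t (mem_TI.mp ht).1 _ (hΔ y)
    rw [BK_apply, ← sum_subset (subset_univ I) fun i _ hi => by
      rw [(mem_TI.mp ht).2 i hi, map_zero, LinearMap.zero_apply]] at h3
    rw [map_sum, LinearMap.sum_apply, h3]
  have hc : 2 ≤ I.card := by
    by_contra h
    refine hI0 ((Submodule.eq_bot_iff _).mpr fun t ht => funext fun j => ?_)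
    by_cases hj : j ∈ I
    · have h3 := hB t ht
      rwa [sum_eq_single_of_mem j hj fun b hb hbj =>
        absurd (card_le_one.mp (by omega) b hb j hj) hbj] at h3
    · exact (mem_TI.mp ht).2 j hj
  obtain ⟨h3, h4⟩ := h2 I hI0 hm hc
  obtain ⟨a, b, hab, rfl⟩ := card_eq_two.mp (le_antisymm h3 hc)
  refine ⟨a, b, hab, hIJ (by simp), hIJ (by simp), fun x => ?_⟩
  obtain ⟨t, ht, htx⟩ := (Submodule.eq_top_iff'.mp (h4 a (by simp))) x
  have a3 : t a = x := htx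
  have a4 : t b = x := by
    have h5 := hB t ht
    rw [sum_pair hab, a3] at h5
    exact (eq_neg_of_add_eq_zero_right h5).trans (neg_eq2 x)
  have a5 : vp a b x = t := by
    funext k
    by_cases k1 : k = a
    · simp [vp, k1, a3, hab]
    · by_cases k2 : k = b
      · simp [vp, k2, a4, hab.symm]
      · rw [(mem_TI.mp ht).2 k (by simp [k1, k2])]
        simp [vp, k1, k2]
  rw [a5]
  exact (mem_TI.mp ht).1

/-- a set of representatives of the pairs -/
lemma exists_reps {τ : K → K} (h1 : ∀ k, τ k ≠ k) (h2 : ∀ k, τ (τ k) = k) :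
    ∃ R : Finset K, ∀ k, τ k ∈ R ↔ k ∉ R := by
  let e := Fintype.equivFin K
  refine ⟨univ.filter fun k => e k < e (τ k), fun k => ?_⟩
  simp only [mem_filter, mem_univ, true_and, h2, not_lt]
  exact ⟨le_of_lt, fun h => lt_of_le_of_ne h fun h' => h1 k (e.injective h')⟩

/-- linear algebra: without a gain the subspace is a perfect matching -/
theorem struct_match [Nontrivial X] {β : Bil 2 X} (hβ : SymB β) (hn : NdB β)
    (T : Submodule (ZMod 2) (K → X)) (hT : Iso (BK fun _ => β) T)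
    (hΔ : ∀ x : X, (fun _ => x) ∈ T)
    (h2 : ∀ I, TI T I ≠ ⊥ → (∀ j ∈ I, TI T (I.erase j) = ⊥) → 2 ≤ I.card →
      I.card ≤ 2 ∧ ∀ j ∈ I, (TI T I).map (LinearMap.proj j) = ⊤) :
    ∃ τ : K → K, (∀ k, τ k ≠ k) ∧ (∀ k, τ (τ k) = k) ∧ T = Tm X τ := by
  obtain ⟨x0, hx0⟩ := exists_ne (0 : X)
  have key : ∀ (n : ℕ) (J : Finset K), J.card ≤ n →
      (∀ x : X, (fun k => if k ∈ J then x else 0) ∈ T) →
      ∀ a ∈ J, ∃ b, b ≠ a ∧ ∀ x, vp a b x ∈ T := by
    intro n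
    induction n with
    | zero =>
      intro J hJ _ a ha
      have := card_pos.mpr ⟨_, ha⟩
      omega
    | succ n ih =>
      intro J hJ hd a ha
      have hJ0 : TI T J ≠ ⊥ := fun h => by
        have h3 := (Submodule.eq_bot_iff _).mp h _
          (mem_TI.mpr ⟨hd x0, fun j hj => if_neg hj⟩)
        have h4 := congrFun h3 a
        rw [if_pos ha] at h4
        exact hx0 h4
      obtain ⟨a0, b0, c0, c1, c2, c3⟩ := vp_find hn hT hΔ h2 hJ0
      by_cases haa : a = a0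
      · exact ⟨b0, haa ▸ c0.symm, haa ▸ c3⟩
      by_cases hab : a = b0
      · refine ⟨a0, Ne.symm haa, fun x => ?_⟩
        rw [hab, vp, add_comm]
        exact c3 x
      refine ih ((J.erase a0).erase b0) ?_ (fun x => ?_) a (by simp [ha, haa, hab])
      · have := card_erase_lt_of_mem c1
        have := card_erase_le (s := J.erase a0) (a := b0)
        omega
      · have h3 := T.sub_mem (hd x) (c3 x)
        refine (congrArg (· ∈ T) (funext fun k => ?_)).mp h3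
        by_cases k1 : k = a0
        · simp [vp, k1, c1, c0]
        · by_cases k2 : k = b0
          · simp [vp, k2, c2, c0.symm]
          · simp [vp, k1, k2]
  choose f hf0 hf using fun a => key _ univ le_rfl (fun x => by simpa using hΔ x) a (mem_univ _)
  have hinv : ∀ a, f (f a) = a := fun a => by
    by_contra hne
    have h3 := vp_eq hβ hn hT (hf (f a)) (hf a x0)
    simp [vp, hne, hf0 a, hf0 (f a)] at h3
    exact hx0 h3.symm
  refine ⟨f, hf0, hinv, le_antisymm (fun t ht i => vp_eq hβ hn hT (hf i) ht) fun t ht => ?_⟩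
  obtain ⟨R, hR⟩ := exists_reps hf0 hinv
  have h3 : t = ∑ a ∈ R, vp a (f a) (t a) := by
    funext k
    have h4 : ∀ a, k = f a ↔ f k = a := fun a =>
      ⟨fun e => by rw [e, hinv], fun e => by rw [← e, hinv]⟩
    simp only [Finset.sum_apply, vp, Pi.add_apply, Pi.single_apply, sum_add_distrib, h4,
      sum_ite_eq, hR, ht k]
    by_cases hk : k ∈ R <;> simp [hk]
  rw [h3]
  exact T.sum_mem fun a _ => hf a _

lemma Tm_iso (β : Bil 2 X) {τ : K → K} (h1 : ∀ k, τ k ≠ k) (h2 : ∀ k, τ (τ k) = k) :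
    Iso (BK fun _ => β) (Tm X τ) := by
  intro x hx y hy
  rw [BK_apply]
  refine Finset.sum_involution (fun k _ => τ k) (fun k _ => ?_) (fun k _ _ => h1 k)
    (fun _ _ => mem_univ _) fun k _ => h2 k
  rw [hx k, hy k, CharTwo.add_self_eq_zero]

lemma vp_mem {τ : K → K} (h2 : ∀ k, τ (τ k) = k) (a : K) (x : X) : vp a (τ a) x ∈ Tm X τ := by
  intro k
  have h4 : ∀ a b, τ a = b ↔ a = τ b := fun a b =>
    ⟨fun e => by rw [← e, h2], fun e => by rw [e, h2]⟩
  simp only [vp, Pi.add_apply, Pi.single_apply, h4, h2]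
  exact add_comm _ _

lemma Tm_max {β : Bil 2 X} (hβ : SymB β) (hn : NdB β) {τ : K → K} (h2 : ∀ k, τ (τ k) = k)
    (T : Submodule (ZMod 2) (K → X)) (hT : Iso (BK fun _ => β) T) (h : Tm X τ ≤ T) :
    T = Tm X τ :=
  le_antisymm (fun _ ht i => vp_eq hβ hn hT (fun x => h (vp_mem h2 i x)) ht) h

lemma sgB2 (β : Bil 2 X) (K₀ : Type) : sgB β K₀ = fun _ => β := by
  funext j
  rcases j with j | j
  · rfl
  · exact neg_bil2 β

/-- a matching of `K₀ ⊕ K₀` is a permutation or contains a pair on the left side -/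
lemma Tm_cross {K₀ : Type} [Fintype K₀] [DecidableEq K₀] {τ : K₀ ⊕ K₀ → K₀ ⊕ K₀}
    (h2 : ∀ k, τ (τ k) = k) :
    (∃ σ : Equiv.Perm K₀, Tm X τ = Tσ 2 X σ) ∨ ∃ i j, τ (Sum.inl i) = Sum.inl j := by
  refine or_iff_not_imp_right.mpr fun h => ?_
  have h3 : ∀ i, ∃ j, τ (Sum.inl i) = Sum.inr j := fun i => by
    rcases e : τ (Sum.inl i) with j | j
    · exact absurd ⟨i, j, e⟩ h
    · exact ⟨j, rfl⟩
  choose f hf using h3
  have hinj : Function.Injective f := fun a b e => by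
    have h4 := h2 (Sum.inl a)
    rw [hf, e, ← hf, h2] at h4
    exact (Sum.inl_injective h4).symm
  let σ : Equiv.Perm K₀ := Equiv.ofBijective f (Finite.injective_iff_bijective.mp hinj)
  refine ⟨σ, le_antisymm (fun t ht i => ?_) fun t ht => ?_⟩
  · have h4 := ht (Sum.inl i)
    rwa [hf] at h4
  · rintro (i | i)
    · rw [hf]
      exact ht i
    · obtain ⟨j, rfl⟩ := σ.surjective i
      have h4 : τ (Sum.inr (σ j)) = Sum.inl j := by
        rw [← h2 (Sum.inl j), hf]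
        rfl
      rw [h4]
      exact (ht j).symm

variable [Fintype X] {ν : Type} [Fintype ν] [DecidableEq ν]

lemma valT_Tm {τ : K → K} (h2 : ∀ k, τ (τ k) = k) {R : Finset K} (hR : ∀ k, τ k ∈ R ↔ k ∉ R)
    (ψ : K → (ν → X) → ℂ) : valT (Tm X τ) (tens ψ) = ∏ k ∈ R, bil (ψ k) (ψ (τ k)) := by
  simp only [bil]
  rw [← prod_coe_sort R, Fintype.prod_sum, valT]
  have hR' : ∀ k, k ∈ R → τ k ∉ R := fun k hk h => (hR k).1 h hk
  refine (Fintype.sum_of_injective
    (fun (f : R → ν → X) (i : ν) (k : K) =>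
      if h : k ∈ R then f ⟨k, h⟩ i else f ⟨τ k, (hR k).2 h⟩ i)
    (fun f g h => funext fun k => funext fun i => ?_) _ _ (fun l hl => ?_) fun f => ?_).symm
  · have h3 := congrFun (congrFun h i) k.1
    simpa only [dif_pos k.2] using h3
  · rw [ind_of_not, Complex.ofReal_zero, zero_mul]
    refine fun h => hl ⟨fun k i => l i k.1, funext fun i => funext fun k => ?_⟩
    by_cases hk : k ∈ R
    · simp only [dif_pos hk]
    · simp only [dif_neg hk]
      exact h i k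
  · rw [ind_of_mem, Complex.ofReal_one, one_mul, tens, ← prod_mul_prod_compl R, prod_mul_distrib]
    · congr 1
      · rw [← prod_coe_sort R]
        exact prod_congr rfl fun k _ => by simp only [dif_pos k.2]
      · refine prod_bij (fun k _ => τ k.1) (fun k _ => mem_compl.2 (hR' _ k.2))
          (fun a _ b _ e => Subtype.ext (by rw [← h2 a.1, e, h2]))
          (fun k hk => ⟨⟨τ k, (hR k).2 (mem_compl.1 hk)⟩, mem_univ _, h2 k⟩) fun k _ => ?_
        simp only [dif_neg (hR' _ k.2), h2]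
    · intro i k
      by_cases hk : k ∈ R
      · simp only [dif_pos hk, dif_neg (hR' _ hk), h2]
      · simp only [dif_neg hk, dif_pos ((hR k).2 hk)]

lemma norm_valT_Tm_le {τ : K → K} (h1 : ∀ k, τ k ≠ k) (h2 : ∀ k, τ (τ k) = k)
    {ψ : K → (ν → X) → ℂ} (hψ : ∀ k, nsq (ψ k) ≤ 1) (k : K) :
    ‖valT (Tm X τ) (tens ψ)‖ ≤ ‖bil (ψ k) (ψ (τ k))‖ := by
  obtain ⟨R, hR⟩ := exists_reps h1 h2
  have key : ∀ a ∈ R, ‖valT (Tm X τ) (tens ψ)‖ ≤ ‖bil (ψ a) (ψ (τ a))‖ := fun a ha => by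
    rw [valT_Tm h2 hR, norm_prod, ← mul_prod_erase R _ ha]
    exact mul_le_of_le_one_right (norm_nonneg _)
      (prod_le_one (fun _ _ => norm_nonneg _) fun _ _ => norm_bil_le_one (hψ _) (hψ _))
  by_cases hk : k ∈ R
  · exact key k hk
  · have h3 := key _ ((hR k).2 hk)
    rwa [h2, bil_comm] at h3

variable {β : K → Bil 2 X} {ψ : K → (ν → X) → ℂ} {T : Submodule (ZMod 2) (K → X)}

lemma ValB_Pj_sub2 {Y : Type} [AddCommGroup Y] [Module (ZMod 2) Y] [Fintype Y]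
    {B : Bil 2 Y} {N N' : Submodule (ZMod 2) Y} (h : N ≤ N') (hN : Iso B N')
    (a : (ν → Y) → ℂ) :
    Pj B (pw ν N).subtype 0 (Pj B (pw ν N').subtype 0 a) = Pj B (pw ν N').subtype 0 a :=
  Pj_of_eigen _ _ fun x => W_Pj2 (Ph_pw hN) 0 a
    ⟨x.1, mem_pw.2 ⟨fun i => h ((mem_pw.1 x.2).1 i), fun i => h ((mem_pw.1 x.2).2 i)⟩⟩

lemma ValB_Pj_le2 {Y : Type} [AddCommGroup Y] [Module (ZMod 2) Y] [Fintype Y]
    {B : Bil 2 Y} {N S N' : Submodule (ZMod 2) Y} (h : N ≤ N') (h' : S ≤ N')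
    (hN : Iso B N') (a : (ν → Y) → ℂ) :
    nsq (Pj B (pw ν N').subtype 0 a) ≤
      nsq (Pj B (pw ν S).subtype 0 (Pj B (pw ν N).subtype 0 a)) := by
  have h1 := nsq_Pj2 (Ph_pw (ν := ν) hN) 0 a
  have h2 := norm_ip_sq_le (Pj B (pw ν S).subtype 0 (Pj B (pw ν N).subtype 0 a))
    (Pj B (pw ν N').subtype 0 a)
  have i1 : Iso B S := fun x hx y hy => hN x (h' hx) y (h' hy)
  have i2 : Iso B N := fun x hx y hy => hN x (h hx) y (h hy)
  rw [← ip_Pj2 (Ph_pw i1), ValB_Pj_sub2 h' hN, ← ip_Pj2 (Ph_pw i2), ValB_Pj_sub2 h hN, ← h1,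
    Complex.norm_real, Real.norm_eq_abs, sq_abs, sq] at h2
  rcases (nsq_nonneg (Pj B (pw ν N').subtype 0 a)).eq_or_lt with h3 | h3
  · exact h3 ▸ nsq_nonneg _
  · exact le_of_mul_le_mul_right h2 h3

theorem ValI_step2 (hβ : ∀ j, SymB (β j)) (hT : Iso (BK β) T) {I : Finset K} {j : K}
    (hj : j ∉ I) {g : ℝ} (hg : PBc (β j) (ψ j) ((TI T (insert j I)).map (LinearMap.proj j)) g) :
    ValI β ψ T (insert j I) ≤ g * ValI β ψ T I := by
  have hB := SymB_BK hβ
  have h0 : ∀ t ∈ TI T I, t j = 0 := fun t ht => (mem_TI.1 ht).2 j hj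
  have hle : TI T I ≤ TI T (insert j I) := fun t ht => mem_TI.2
    ⟨(mem_TI.1 ht).1, fun k hk => (mem_TI.1 ht).2 k fun h => hk (mem_insert_of_mem h)⟩
  obtain ⟨C, hC⟩ := (TI T I).exists_isCompl
  obtain ⟨S, hS⟩ : ∃ S, S = C ⊓ TI T (insert j I) := ⟨_, rfl⟩
  have hS1 : S ≤ TI T (insert j I) := hS ▸ inf_le_right
  have hS2 : TI T I ⊔ S = TI T (insert j I) := by
    rw [hS, ← sup_inf_assoc_of_le _ hle, hC.sup_eq_top, top_inf_eq]
  have hS3 : TI T I ⊓ S = ⊥ := by rw [hS, ← inf_assoc, hC.inf_eq_bot, bot_inf_eq]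
  have hc : Fintype.card (TI T (insert j I)) = Fintype.card (TI T I) * Fintype.card S := by
    have := Submodule.finrank_sup_add_finrank_inf_eq (TI T I) S
    rw [hS2, hS3, finrank_bot, add_zero] at this
    rw [card_eq_pow (p := 2), card_eq_pow (p := 2), card_eq_pow (p := 2), this, pow_add]
  have hm : (TI T (insert j I)).map (LinearMap.proj j) = S.map (LinearMap.proj j) := by
    have h1 : (TI T I).map (LinearMap.proj j) = ⊥ :=
      eq_bot_iff.2 fun x ⟨t, ht, e⟩ => e ▸ h0 t ht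
    rw [← hS2, Submodule.map_sup, h1, bot_sup_eq]
  obtain ⟨Φ, hΦ⟩ : ∃ Φ : (ν → K → X) → ℂ,
      Φ = fun l => ∏ k ∈ univ.erase j, psiI ψ I k fun i => l i k := ⟨_, rfl⟩
  have hΦ1 : ∀ (l : ν → K → X) (m : ν → X), Φ (l + fun i => Pi.single j (m i)) = Φ l :=
    fun l m => by
      rw [hΦ]
      refine prod_congr rfl fun k hk => congrArg _ (funext fun i => ?_)
      simp [Pi.single_eq_of_ne (ne_of_mem_erase hk)]
  have hΦ2 : tens (psiI ψ (insert j I)) = fun l => Φ l * ψ j fun i => l i j := funext fun l => by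
    rw [hΦ, tens, ← prod_erase_mul _ _ (mem_univ j), psiI, if_pos (mem_insert_self j I)]
    refine congrArg (· * _) (prod_congr rfl fun k hk => ?_)
    simp only [psiI, mem_insert, ne_of_mem_erase hk, false_or]
  have hΦ3 : tens (psiI ψ I) = fun l => Φ l * (ind {0} fun i => l i j : ℝ) := funext fun l => by
    rw [hΦ, tens, ← prod_erase_mul _ _ (mem_univ j), psiI, if_neg hj]
  have h1 := ValB_Pj_inv hβ h0 hΦ1
  have h2 := PB2 hB (hβ j) (LinearMap.single (ZMod 2) (fun _ => X) j) (LinearMap.proj j)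
    (fun x => Pi.single_eq_same (M := fun _ => X) j x) (ValB_single j) S
    (fun x hx y hy => ValB_iso hT _ x (hS1 hx) y (hS1 hy))
    (fun t ht e => by
      have h3 : t ∈ TI T I ⊓ S := ⟨mem_TI.2 ⟨(mem_TI.1 (hS1 ht)).1, fun k hk => by
        by_cases h4 : k = j
        · exact h4 ▸ e
        · exact (mem_TI.1 (hS1 ht)).2 k fun h => (mem_insert.1 h).elim h4 hk⟩, ht⟩
      rwa [hS3] at h3) _ h1 (ψ j) (hm ▸ hg)
  have h3 := ValB_Pj_le2 hle hS1 (ValB_iso hT _) (tens (psiI ψ (insert j I)))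
  have h4 : (0 : ℝ) < (Fintype.card X : ℝ) ^ Fintype.card ν := by positivity
  rw [ValB_nsq_inv h1, mul_div_cancel_left₀ _ h4.ne'] at h2
  rw [ValI, ValI, hc, hΦ3, ValB_Pj_mul h0 Φ fun l => (ind {0} l : ℂ), Nat.cast_mul, mul_pow,
    mul_assoc, mul_left_comm g]
  refine mul_le_mul_of_nonneg_left (le_trans ?_ h2) (by positivity)
  refine mul_le_mul_of_nonneg_left (h3.trans_eq ?_) (by positivity)
  rw [hΦ2, ValB_Pj_mul h0]
  rfl

theorem valT_sq_le2 (hT : Iso (BK β) T) :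
    ‖valT T (tens ψ)‖ ^ 2 ≤ ValI β ψ T univ := by
  have h1 : TI T univ = T := by
    ext t
    simp [mem_TI]
  have h2 : psiI ψ univ = ψ := funext fun j => if_pos (mem_univ j)
  obtain ⟨A, hA⟩ : ∃ A, A = {l : ν → K → X | ∀ i, l i ∈ T} := ⟨_, rfl⟩
  have hA1 : ∀ l : ν → K → X, (∀ i, l i ∈ T) → ind A l = 1 := fun l h => ind_of_mem (hA ▸ h)
  have hA0 : ∀ l : ν → K → X, (¬ ∀ i, l i ∈ T) → ind A l = 0 := fun l h => ind_of_not (hA ▸ h)
  obtain ⟨u, hu⟩ : ∃ u : (ν → K → X) → ℂ, u = fun l => (ind A l : ℂ) := ⟨_, rfl⟩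
  have h3 : Pj (BK β) (pw ν T).subtype 0 u = u := Pj_of_eigen _ _ fun x => funext fun l => by
    obtain ⟨a, b⟩ := mem_pw.1 x.2
    by_cases h : ∀ i, l i ∈ T
    · have c : ∀ v : ν → K → X, (∀ i, v i ∈ T) → bt (BK β) x.1.2 v = 0 :=
        fun v hv => sum_eq_zero fun i _ => hT _ (b i) _ (hv i)
      have d : ∀ i, (l + x.1.1) i ∈ T := fun i => T.add_mem (h i) (a i)
      simp only [W, hu, Submodule.subtype_apply, c l h, c _ a, hA1 _ h, hA1 _ d]
      simp
    · have d : ¬ ∀ i, (l + x.1.1) i ∈ T := fun e => h fun i => (T.add_mem_iff_left (a i)).1 (e i)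
      simp only [W, hu, Submodule.subtype_apply, hA0 _ h, hA0 _ d]
      simp
  have h4 : nsq u = (Fintype.card T : ℝ) ^ Fintype.card ν := by
    have a : ∀ l : ν → K → X, ind A l = ∏ i, ind (T : Set (K → X)) (l i) := fun l => by
      by_cases h : ∀ i, l i ∈ T
      · rw [hA1 l h, prod_eq_one fun i _ => ind_of_mem (A := (T : Set (K → X))) (h i)]
      · obtain ⟨i, hi⟩ := not_forall.1 h
        rw [hA0 l h, prod_eq_zero (mem_univ i) (ind_of_not (A := (T : Set (K → X))) hi)]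
    have b : ∑ y, ind (T : Set (K → X)) y = Fintype.card T := by
      classical
      simp [ind, Fintype.card_subtype]
    simp only [nsq, hu, ValB_ind_sq]
    simp only [a]
    rw [← Fintype.prod_sum fun _ y => ind (T : Set (K → X)) y, b, prod_const, card_univ]
  have h5 : valT T (tens ψ) = ip u (tens ψ) := by simp [valT, ip, hu, hA]
  rw [ValI, h1, h2, h5, ← h3, ← ip_Pj2 (Ph_pw hT), ← h4]
  exact norm_ip_sq_le _ _

theorem ValI_triple2 (hβ : ∀ j, SymB (β j)) (hn : ∀ j, NdB (β j))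
    (hT : Iso (BK β) T) {I : Finset K} (hI : 3 ≤ I.card)
    (hinj : ∀ j ∈ I, ∀ t ∈ TI T I, t j = 0 → t = 0)
    (hsurj : ∀ j ∈ I, (TI T I).map (LinearMap.proj j) = ⊤) {θ : ℝ}
    (h1 : ∀ j, nsq (ψ j) ≤ 1) (hP : ∀ j, PP (β j) θ (ψ j)) : ValI β ψ T I ≤ √θ := by
  obtain ⟨a, ha, b, hb, c, hc, hab, hac, hbc⟩ := two_lt_card.1 hI
  have hbij := fun j hj => ValB_bij (ν := ν) (hinj j hj) (hsurj j hj)
  obtain ⟨D, hD⟩ : ∃ D : ℝ, D = (Fintype.card X : ℝ) ^ Fintype.card ν := ⟨_, rfl⟩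
  have hD0 : 0 < D := by rw [hD]; positivity
  have hcard : (Fintype.card (GX X ν) : ℝ) = D * D := by
    rw [Fintype.card_prod, Fintype.card_fun, hD]
    push_cast
    rfl
  obtain ⟨F, hF⟩ : ∃ F : K → pw ν (TI T I) → ℝ,
      F = fun j x => ‖Xi (β j) (psiI ψ I j) (ValB_pr j x.1)‖ := ⟨_, rfl⟩
  have hF0 : ∀ j x, 0 ≤ F j x := fun j x => hF ▸ norm_nonneg _
  have hF1 : ∀ j x, F j x ≤ 1 := fun j x => by
    rw [hF]
    refine (norm_Xi_le _ _ _).trans ?_
    unfold psiI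
    split_ifs
    exacts [h1 j, ValB_nsq_delta.le]
  have hE : ∀ j ∈ I, ∀ k, 𝔼 x, F j x ^ k = (∑ y, ‖Xi (β j) (ψ j) y‖ ^ k) / (D * D) :=
    fun j hj k => by
      rw [← hcard, ← Fintype.expect_eq_sum_div_card]
      refine Fintype.expect_bijective _ (hbij j hj).2 _ _ fun x => ?_
      simp only [hF, psiI, if_pos hj]
  have h2 : 𝔼 x, F a x ^ 2 ≤ 1 / D := by
    rw [hE a ha, sum_Xi_sq (hβ a) (hn a), ← hD, mul_div_mul_left _ _ hD0.ne']
    exact div_le_div_of_nonneg_right (pow_le_one₀ (nsq_nonneg _) (h1 a)) hD0.le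
  have h4 : ∀ j ∈ I, 𝔼 x, (F j x ^ 2) ^ 2 ≤ θ / D := fun j hj => by
    simp only [← pow_mul]
    rw [hE j hj, ← mul_div_mul_right θ D hD0.ne']
    exact div_le_div_of_nonneg_right (hD ▸ hP j) (by positivity)
  have h5 : 0 ≤ θ / D := (expect_nonneg fun x _ => by positivity).trans (h4 a ha)
  have h6 : 𝔼 x, (F b x * F c x) ^ 2 ≤ θ / D := by
    simp only [mul_pow]
    refine (expect_mul_le_sqrt _ _).trans ((mul_le_mul (Real.sqrt_le_sqrt (h4 b hb))
      (Real.sqrt_le_sqrt (h4 c hc)) (by positivity) (by positivity)).trans_eq ?_)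
    exact Real.mul_self_sqrt h5
  have h7 : nsq (Pj (BK β) (pw ν (TI T I)).subtype 0 (tens (psiI ψ I))) ≤
      𝔼 x, F a x * (F b x * F c x) := by
    have e := congrArg norm (nsq_Pj2 (Ph_pw (ν := ν) (ValB_iso hT I)) 0
      (tens (psiI ψ I)))
    rw [Complex.norm_real, Real.norm_of_nonneg (nsq_nonneg _), ip_Pj_eq] at e
    rw [e]
    refine (RCLike.norm_expect_le (K := ℂ)).trans (expect_le_expect fun x _ => ?_)
    have e1 : ‖ee (-(0 : Module.Dual (ZMod 2) (pw ν (TI T I))) x) * ip (tens (psiI ψ I))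
        (W (BK β) ((pw ν (TI T I)).subtype x) (tens (psiI ψ I)))‖ = ∏ j, F j x := by
      rw [norm_mul, norm_ee, one_mul, ← Xi, ValB_Xi, norm_prod, hF]
      rfl
    rw [e1, ← prod_pair (f := fun j => F j x) hbc,
      ← prod_insert (f := fun j => F j x) (by simp [hab, hac])]
    exact prod_le_prod_of_subset_of_le_one (subset_univ _) (fun j _ => hF0 j x)
      fun j _ _ => hF1 j x
  have h8 := h7.trans ((expect_mul_le_sqrt _ _).trans (mul_le_mul (Real.sqrt_le_sqrt h2)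
    (Real.sqrt_le_sqrt h6) (by positivity) (by positivity)))
  rw [ValI, Fintype.card_of_bijective (hbij a ha).1, ← hD]
  refine (mul_le_mul_of_nonneg_left h8 hD0.le).trans_eq ?_
  rw [Real.sqrt_div' _ hD0.le, Real.sqrt_div' _ hD0.le, Real.sqrt_one, div_mul_div_comm,
    Real.mul_self_sqrt hD0.le, one_mul, mul_div_cancel₀ _ hD0.ne']

lemma Val_pur {γ : Bil 2 X} {a : (ν → X) → ℂ} {N : Submodule (ZMod 2) (K → X)} {j : K}
    (hi : ∀ t ∈ N, t j = 0 → t = 0) {t : ℝ} (ht : 0 ≤ t)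
    (h : ∑ x : pw ν (N.map (LinearMap.proj j)), ‖Xi γ a x.1‖ ^ 2 ≤
      t * (Fintype.card (N.map (LinearMap.proj j)) : ℝ) ^ Fintype.card ν) :
    𝔼 x : pw ν N, ‖Xi γ a (ValB_pr j x.1)‖ ^ 2 ≤ t / (Fintype.card N : ℝ) ^ Fintype.card ν := by
  classical
  have h1 : ∀ t ∈ N, ∀ t' ∈ N, t j = t' j → t = t' := fun t ht t' ht' e =>
    sub_eq_zero.1 (hi _ (N.sub_mem ht ht') (sub_eq_zero.2 e))
  let k : pw ν N → pw ν (N.map (LinearMap.proj j)) := fun x => ⟨ValB_pr j x.1,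
    mem_pw.2 ⟨fun i => ⟨_, (mem_pw.1 x.2).1 i, rfl⟩, fun i => ⟨_, (mem_pw.1 x.2).2 i, rfl⟩⟩⟩
  have hk : Function.Injective k := fun x x' e => by
    have e' : ValB_pr j x.1 = ValB_pr j x'.1 := congrArg Subtype.val e
    exact Subtype.ext (Prod.ext
      (funext fun i => h1 _ ((mem_pw.1 x.2).1 i) _ ((mem_pw.1 x'.2).1 i)
        (congrFun (congrArg Prod.fst e') i))
      (funext fun i => h1 _ ((mem_pw.1 x.2).2 i) _ ((mem_pw.1 x'.2).2 i)
        (congrFun (congrArg Prod.snd e') i)))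
  have h2 : ∑ x : pw ν N, ‖Xi γ a (ValB_pr j x.1)‖ ^ 2 ≤
      ∑ x : pw ν (N.map (LinearMap.proj j)), ‖Xi γ a x.1‖ ^ 2 :=
    calc _ = ∑ x ∈ univ.image k, ‖Xi γ a x.1‖ ^ 2 := by rw [sum_image fun x _ y _ e => hk e]
      _ ≤ _ := sum_le_sum_of_subset_of_nonneg (subset_univ _) fun _ _ _ => by positivity
  have h3 : Fintype.card (N.map (LinearMap.proj j)) ≤ Fintype.card N :=
    Fintype.card_le_of_surjective (fun t : N => ⟨t.1 j, t.1, t.2, rfl⟩) (by
      rintro ⟨_, t, ht, rfl⟩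
      exact ⟨⟨t, ht⟩, rfl⟩)
  have h0 : (0 : ℝ) < (Fintype.card N : ℝ) ^ Fintype.card ν :=
    pow_pos (by exact_mod_cast Fintype.card_pos) _
  rw [Fintype.expect_eq_sum_div_card, card_pw, ← mul_div_mul_right t _ h0.ne']
  push_cast
  refine div_le_div_of_nonneg_right (h2.trans (h.trans ?_)) (by positivity)
  exact mul_le_mul_of_nonneg_left (pow_le_pow_left₀ (by positivity) (by exact_mod_cast h3) _) ht

/-- Cauchy-Schwarz on two parties that see the whole subspace -/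
theorem ValI_pair2 (hT : Iso (BK β) T) {I : Finset K} {a b : K} (hab : a ≠ b) (ha : a ∈ I)
    (hb : b ∈ I) (h1 : ∀ j, nsq (ψ j) ≤ 1) {s t : ℝ} (hs : 0 ≤ s) (ht : 0 ≤ t)
    (h2 : 𝔼 x : pw ν (TI T I), ‖Xi (β a) (ψ a) (ValB_pr a x.1)‖ ^ 2 ≤
      s ^ 2 / (Fintype.card (TI T I) : ℝ) ^ Fintype.card ν)
    (h3 : 𝔼 x : pw ν (TI T I), ‖Xi (β b) (ψ b) (ValB_pr b x.1)‖ ^ 2 ≤
      t ^ 2 / (Fintype.card (TI T I) : ℝ) ^ Fintype.card ν) : ValI β ψ T I ≤ s * t := by
  obtain ⟨F, hF⟩ : ∃ F : K → pw ν (TI T I) → ℝ,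
      F = fun j x => ‖Xi (β j) (psiI ψ I j) (ValB_pr j x.1)‖ := ⟨_, rfl⟩
  have hF0 : ∀ j x, 0 ≤ F j x := fun j x => hF ▸ norm_nonneg _
  have hF1 : ∀ j x, F j x ≤ 1 := fun j x => by
    rw [hF]
    refine (norm_Xi_le _ _ _).trans ?_
    unfold psiI
    split_ifs
    exacts [h1 j, ValB_nsq_delta.le]
  have hE : ∀ j ∈ I, ∀ x, F j x = ‖Xi (β j) (ψ j) (ValB_pr j x.1)‖ := fun j hj x => by
    simp only [hF, psiI, if_pos hj]
  have h7 : nsq (Pj (BK β) (pw ν (TI T I)).subtype 0 (tens (psiI ψ I))) ≤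
      𝔼 x, F a x * F b x := by
    have e := congrArg norm (nsq_Pj2 (Ph_pw (ν := ν) (ValB_iso hT I)) 0 (tens (psiI ψ I)))
    rw [Complex.norm_real, Real.norm_of_nonneg (nsq_nonneg _), ip_Pj_eq] at e
    rw [e]
    refine (RCLike.norm_expect_le (K := ℂ)).trans (expect_le_expect fun x _ => ?_)
    have e1 : ‖ee (-(0 : Module.Dual (ZMod 2) (pw ν (TI T I))) x) * ip (tens (psiI ψ I))
        (W (BK β) ((pw ν (TI T I)).subtype x) (tens (psiI ψ I)))‖ = ∏ j, F j x := by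
      rw [norm_mul, norm_ee, one_mul, ← Xi, ValB_Xi, norm_prod, hF]
      rfl
    rw [e1, ← prod_pair (f := fun j => F j x) hab]
    exact prod_le_prod_of_subset_of_le_one (subset_univ _) (fun j _ => hF0 j x)
      fun j _ _ => hF1 j x
  simp only [← hE a ha] at h2
  simp only [← hE b hb] at h3
  have h8 := h7.trans ((expect_mul_le_sqrt _ _).trans (mul_le_mul (Real.sqrt_le_sqrt h2)
    (Real.sqrt_le_sqrt h3) (by positivity) (by positivity)))
  have hD0 : (0 : ℝ) < (Fintype.card (TI T I) : ℝ) ^ Fintype.card ν :=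
    pow_pos (by exact_mod_cast Fintype.card_pos) _
  rw [ValI]
  refine (mul_le_mul_of_nonneg_left h8 hD0.le).trans_eq ?_
  rw [Real.sqrt_div' _ hD0.le, Real.sqrt_div' _ hD0.le, Real.sqrt_sq hs, Real.sqrt_sq ht,
    div_mul_div_comm, Real.mul_self_sqrt hD0.le, mul_div_cancel₀ _ hD0.ne']

lemma ValI_anti2 (hβ : ∀ j, SymB (β j)) (hT : Iso (BK β) T) (h1 : ∀ j, nsq (ψ j) ≤ 1) {g : ℝ}
    (hg : 1 ≤ g) (hG : ∀ j, GG (β j) g (ψ j)) (I' I : Finset K) (h : I ⊆ I') :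
    ValI β ψ T I' ≤ g ^ Fintype.card K * ValI β ψ T I := by
  have hg0 : 0 ≤ g := zero_le_one.trans hg
  have key : ∀ J : Finset K, ValI β ψ T (J ∪ I) ≤ g ^ J.card * ValI β ψ T I := fun J => by
    induction J using Finset.induction_on with
    | empty => rw [empty_union, card_empty, pow_zero, one_mul]
    | insert j J hjJ ih =>
      rw [insert_union, card_insert_of_notMem hjJ, pow_succ', mul_assoc]
      by_cases hj : j ∈ J ∪ I
      · rw [insert_eq_of_mem hj]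
        exact ih.trans (le_mul_of_one_le_left
          (mul_nonneg (pow_nonneg hg0 _) (ValI_nonneg _)) hg)
      · exact (ValI_step2 hβ hT hj (PBc_K (hβ j) (h1 j) hg (hG j) _)).trans
          (mul_le_mul_of_nonneg_left ih hg0)
  have h2 := key I'
  rw [union_eq_left.2 h] at h2
  exact h2.trans (mul_le_mul_of_nonneg_right (pow_le_pow_right₀ hg (card_le_univ _))
    (ValI_nonneg _))

theorem valT_le2 (hβ : ∀ j, SymB (β j)) (hT : Iso (BK β) T) (h1 : ∀ j, nsq (ψ j) ≤ 1) {g : ℝ}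
    (hg : 1 ≤ g) (hG : ∀ j, GG (β j) g (ψ j)) : ‖valT T (tens ψ)‖ ≤ g ^ Fintype.card K := by
  have h2 := (valT_sq_le2 (ψ := ψ) hT).trans (ValI_anti2 hβ hT h1 hg hG _ _ (empty_subset _))
  rw [ValI_empty, mul_one] at h2
  have h3 : 1 ≤ g ^ Fintype.card K := one_le_pow₀ hg
  nlinarith [norm_nonneg (valT T (tens ψ))]

theorem valT_struct2 [Nontrivial X] {β : Bil 2 X} (hβ : SymB β) (hn : NdB β) {g θ : ℝ}
    (hg : 1 ≤ g) (h0 : 0 ≤ θ) (h1 : θ ≤ 1) (hψ : ∀ j, Prw β g θ (ψ j)) {ι : Type}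
    {κ : Matrix ι ν (ZMod 2)} {e : ι → X} (he : Submodule.span (ZMod 2) (Set.range e) = ⊤)
    (hs : ∀ j, OnSl κ e (ψ j)) (hT : Iso (BK fun _ => β) T) :
    ‖valT T (tens ψ)‖ ^ 2 ≤ g ^ (Fintype.card K + 1) * √θ ∨
      ∃ τ : K → K, (∀ k, τ k ≠ k) ∧ (∀ k, τ (τ k) = k) ∧ T = Tm X τ := by
  refine or_iff_not_imp_left.mpr fun hlt => ?_
  have hg0 : 0 ≤ g := zero_le_one.trans hg
  have h2 : ∀ j, nsq (ψ j) ≤ 1 := fun j => (hψ j).1
  have hv : ∀ I, ¬ ValI (fun _ => β) ψ T I ≤ g * √θ := fun I hI => hlt (by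
    refine (valT_sq_le2 hT).trans ((ValI_anti2 (fun _ => hβ) hT h2 hg (fun j => (hψ j).2.1) _ I
      (subset_univ I)).trans ?_)
    rw [pow_succ, mul_assoc]
    exact mul_le_mul_of_nonneg_left hI (pow_nonneg hg0 _))
  refine struct_match hβ hn T hT (diag_mem_of_valT he hs fun h => hlt ?_) fun I hI hm hc => ?_
  · rw [h, norm_zero, zero_pow two_ne_zero]
    positivity
  have hinj : ∀ j ∈ I, ∀ t ∈ TI T I, t j = 0 → t = 0 := fun j hj t ht htj => by
    have : t ∈ TI T (I.erase j) := mem_TI.mpr ⟨(mem_TI.mp ht).1, fun i hi => by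
      by_cases hij : i = j
      · rw [hij, htj]
      · exact (mem_TI.mp ht).2 i fun h3 => hi (mem_erase.mpr ⟨hij, h3⟩)⟩
    rwa [hm j hj, Submodule.mem_bot] at this
  have htop : ∀ j ∈ I, (TI T I).map (LinearMap.proj j) = ⊤ := fun j hj => by
    by_contra h3
    have h4 : (TI T I).map (LinearMap.proj j) ≠ ⊥ := fun h => hI
      ((Submodule.eq_bot_iff _).mpr fun t ht => hinj j hj t ht
        ((Submodule.eq_bot_iff _).mp h _ (Submodule.mem_map_of_mem ht)))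
    obtain ⟨b, hb, hbj⟩ := exists_mem_ne (by omega : 1 < I.card) j
    have h5 := ValI_pair2 (β := fun _ => β) hT hbj hb hj h2 hg0 h0
      (Val_pur (hinj b hb) (sq_nonneg g) ((PUR2 hβ (h2 b) hg (hψ b).2.1 _).trans
        (mul_le_mul_of_nonneg_right (by nlinarith) (by positivity))))
      (Val_pur (hinj j hj) (sq_nonneg θ) ((hψ j).2.2.1 _ h4 h3))
    exact hv I (h5.trans (mul_le_mul_of_nonneg_left
      (Real.le_sqrt_of_sq_le (by nlinarith)) hg0))
  refine ⟨?_, htop⟩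
  by_contra h4
  exact hv I ((ValI_triple2 (fun _ => hβ) (fun _ => hn) hT (by omega) hinj htop h2
    fun j => (hψ j).2.2.2).trans (le_mul_of_one_le_left (Real.sqrt_nonneg _) hg))

end Pool.Agent.Work.MP_4523ee_co.F2
end

-- merged part: Pool.Agent.Work.MP_4523ee_co.F2.Wick2
section
/-!
Wick formula and moment bound on a fibre of the diagonal in characteristic two.
-/

set_option autoImplicit false
set_option linter.unusedSectionVars false

namespace Pool.Agent.Work.MP_4523ee_co.F2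

open Finset hiding dens
open Matrix Pool.Agent.Work.MP_4523ee_co.Fp
open scoped BigOperators ComplexConjugate

section
variable {X : Type} [AddCommGroup X] [Module (ZMod 2) X] [Fintype X]
variable {ν : Type} [Fintype ν] [DecidableEq ν] {K : Type} [Fintype K] [DecidableEq K]

lemma Pol_BK {c β : K → Bil 2 X} (h : ∀ j, Pol (c j) (β j)) : Pol (BK c) (BK β) := fun x y => by
  simp only [BK_apply, h _ _ _, sum_add_distrib]

lemma bil_chi (c : Bil 2 X) (M : SymM 2 ν) (a b : (ν → X) → ℂ) :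
    bil (fun l => a l * chi c M l) (fun l => b l * chi c M l) = bil a b :=
  sum_congr rfl fun l _ => by linear_combination (a l * b l) * chi_mul_self c M l

/-- the mean of a product on a fibre as a signed sum of values of isotropic subspaces -/
lemma wick_expand2 {c β : K → Bil 2 X} (h : ∀ j, Pol (c j) (β j)) (ψ : K → (ν → X) → ℂ)
    (M0 : SymM 2 ν) (s : Finset (Submodule (ZMod 2) (K → X)))
    (m : Submodule (ZMod 2) (K → X) → ℤ)
    (hm : ∀ S : Submodule (ZMod 2) (K → X),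
      ∑ T ∈ s, (m T : ℝ) * ind {T | S ≤ T} T = ind {S | Iso (BK β) S} S) :
    𝔼 N : AltM ν, ∏ j, FF (c j) (ψ j) (M0 + N.1) =
      ∑ T ∈ s, (m T : ℂ) * valT T (tens fun j l => ψ j l * chi (c j) M0 l) := by
  have e0 : ∀ N : AltM ν, ∏ j, FF (c j) (ψ j) (M0 + N.1) =
      FF (BK c) (tens fun j l => ψ j l * chi (c j) M0 l) (0 + N.1) := fun N => by
    rw [zero_add, ← prod_FF]
    exact prod_congr rfl fun j _ => FF_shift _ _ _ _
  simp only [e0]
  rw [expect_alt_FF (Pol_BK h)]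
  simp only [valT, mul_sum]
  rw [sum_comm]
  refine sum_congr rfl fun l _ => ?_
  have h1 := hm (Submodule.span (ZMod 2) (Set.range l))
  have h2 : ind {l : ν → K → X | gram (BK β) l = 0} l =
      ind {S | Iso (BK β) S} (Submodule.span (ZMod 2) (Set.range l)) := by
    by_cases h3 : gram (BK β) l = 0
    · rw [ind_of_mem (show l ∈ {l : ν → K → X | gram (BK β) l = 0} from h3),
        ind_of_mem (A := {S | Iso (BK β) S}) ((wick_iso_span _ l).2 h3)]
    · rw [ind_of_not (show l ∉ {l : ν → K → X | gram (BK β) l = 0} from h3),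
        ind_of_not (A := {S | Iso (BK β) S}) fun h4 => h3 ((wick_iso_span _ l).1 h4)]
  have h3 : chi (BK c) (0 : SymM 2 ν) l = 1 := by simp [chi_eq, act, bt]
  rw [h2, ← h1, h3, mul_one]
  push_cast
  rw [sum_mul]
  refine sum_congr rfl fun T _ => ?_
  rw [mul_assoc]
  congr 3
  by_cases hl : ∀ i, l i ∈ T
  · rw [ind_of_mem (show l ∈ {l : ν → K → X | ∀ i, l i ∈ T} from hl), ind_of_mem]
    show Submodule.span (ZMod 2) (Set.range l) ≤ T
    rw [Submodule.span_le]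
    rintro _ ⟨i, rfl⟩
    exact hl i
  · rw [ind_of_not (show l ∉ {l : ν → K → X | ∀ i, l i ∈ T} from hl), ind_of_not]
    exact fun hle => hl fun i => hle (Submodule.subset_span ⟨i, rfl⟩)

lemma wick_prod2 {K₀ : Type} [Fintype K₀] [DecidableEq K₀] (c : Bil 2 X)
    (a a' : K₀ → (ν → X) → ℂ) (M : SymM 2 ν) :
    ∏ i, (FF c (a i) M * conj (FF c (a' i) M)) =
      ∏ j, FF c (Sum.elim a (fun i l => conj (a' i l)) j) M := by
  rw [Fintype.prod_sum_type, prod_mul_distrib]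
  congr 1
  exact prod_congr rfl fun i _ => (FF_conj2 c (a' i) M).symm

lemma wick_elim_chi {K₀ : Type} (c : Bil 2 X) (a a' : K₀ → (ν → X) → ℂ) (M : SymM 2 ν) :
    (fun j l => Sum.elim a (fun i l => conj (a' i l)) j l * chi c M l) =
      Sum.elim (fun i l => a i l * chi c M l) fun i l => conj (a' i l * chi c M l) := by
  funext j l
  rcases j with j | j
  · rfl
  · simp only [Sum.elim_inr, map_mul, conj_chi2]

end

/-- Wick formula on a fibre for weakly primitive vectors with a small pseudo Gram matrix -/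
theorem wick2 (m k : ℕ) (K : ℝ) (hK : 1 ≤ K) : ∃ C : ℝ, 0 < C ∧
    ∀ (X : Type) [AddCommGroup X] [Module (ZMod 2) X] [Fintype X] [Nontrivial X],
    Fintype.card X ≤ k → ∀ (K₀ : Type) [Fintype K₀] [DecidableEq K₀], Fintype.card K₀ ≤ m →
    ∀ (ν : Type) [Fintype ν] [DecidableEq ν] (c β : Bil 2 X), Pol c β → NdB β →
    ∀ θ δ : ℝ, 0 ≤ θ → θ ≤ 1 → 0 ≤ δ → ∀ (ι : Type) (κ : Matrix ι ν (ZMod 2)) (e : ι → X),
    Submodule.span (ZMod 2) (Set.range e) = ⊤ → ∀ a a' : K₀ → (ν → X) → ℂ,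
    (∀ i, Prw β K θ (a i) ∧ OnSl κ e (a i)) → (∀ i, Prw β K θ (a' i) ∧ OnSl κ e (a' i)) →
    (∀ i j, i ≠ j → ‖bil (a i) (a j)‖ ≤ δ) → ∀ M0 : SymM 2 ν,
    ‖𝔼 N : AltM ν, ∏ i, (FF c (a i) (M0 + N.1) * conj (FF c (a' i) (M0 + N.1))) -
      ∑ σ : Equiv.Perm K₀, ∏ i, ip (a' (σ i)) (a i)‖ ≤ C * (√(√θ) + δ) := by
  have hK0 : 0 < K := zero_lt_one.trans_le hK
  refine ⟨((2 ^ 2 ^ k ^ (2 * m) : ℤ) : ℝ) * K ^ (2 * m + 1), by positivity, ?_⟩
  intro X _ _ _ _ hX K₀ _ _ hK₀ ν _ _ c β hc hn θ δ h0 h1 hδ ι κ e he a a' ha ha' hb M0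
  classical
  have hβ := hc.sym
  obtain ⟨s, w, hs, hw1, hw, hsum⟩ := exists_moebius (BK fun _ : K₀ ⊕ K₀ => β)
  simp only [wick_prod2]
  rw [wick_expand2 (fun _ => hc) _ M0 s w hsum, wick_elim_chi]
  set ψ : K₀ ⊕ K₀ → (ν → X) → ℂ :=
    Sum.elim (fun i l => a i l * chi c M0 l) fun i l => conj (a' i l * chi c M0 l) with hψ
  set P : Finset (Submodule (ZMod 2) (K₀ ⊕ K₀ → X)) := univ.image fun σ => Tσ 2 X σ with hP
  have hiso : ∀ σ : Equiv.Perm K₀, Iso (BK fun _ : K₀ ⊕ K₀ => β) (Tσ 2 X σ) := fun σ => by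
    rw [← sgB2]
    exact Tσ_iso β σ
  have hPs : P ⊆ s := by
    intro T hT
    obtain ⟨σ, -, rfl⟩ := mem_image.1 hT
    exact (hs _).2 (hiso σ)
  have e1 : ∑ T ∈ P, (w T : ℂ) * valT T (tens ψ) =
      ∑ σ : Equiv.Perm K₀, ∏ i, ip (a' (σ i)) (a i) := by
    rw [hP, sum_image fun σ _ σ' _ h => Tσ_inj σ σ' h]
    refine sum_congr rfl fun σ _ => ?_
    rw [hw1 _ ((hs _).2 (hiso σ)) fun T' hT' hle =>
      Tσ_max hβ hn σ T' (by rw [sgB2]; exact (hs _).1 hT') hle, hψ, valT_Tσ]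
    simp [ip_chi]
  rw [← sum_sdiff hPs, e1, add_sub_cancel_right, mul_assoc]
  have hK1 : 1 ≤ K ^ (2 * m + 1) := one_le_pow₀ hK
  refine wick_bound _ w _ (by positivity) (fun T hT => ?_) ?_
  · have hT' := mem_sdiff.1 hT
    have hpr : ∀ j, Prw β K θ (ψ j) := by
      rintro (j | j)
      · exact Prw_chi hc M0 (ha j).1
      · exact Prw_conj2 (Prw_chi hc M0 (ha' j).1)
    have hsl : ∀ j, OnSl κ e (ψ j) := by
      rintro (j | j)
      · exact OnSl_chi M0 (ha j).2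
      · exact OnSl_conj2 (OnSl_chi M0 (ha' j).2)
    rcases valT_struct2 hβ hn hK h0 h1 hpr he hsl ((hs T).1 hT'.1) with h | ⟨τ, t1, t2, h⟩
    · have h2 : K ^ (Fintype.card (K₀ ⊕ K₀) + 1) ≤ (K ^ (2 * m + 1)) ^ 2 := by
        rw [← pow_mul]
        refine pow_le_pow_right₀ hK ?_
        rw [Fintype.card_sum]
        omega
      have h3 : ‖valT T (tens ψ)‖ ≤ K ^ (2 * m + 1) * √(√θ) := by
        refine abs_le_of_sq_le_sq' (h.trans ?_) (by positivity) |>.2
        rw [mul_pow, Real.sq_sqrt (Real.sqrt_nonneg θ)]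
        exact mul_le_mul_of_nonneg_right h2 (Real.sqrt_nonneg θ)
      exact h3.trans (mul_le_mul_of_nonneg_left (le_add_of_nonneg_right hδ) (by positivity))
    · rcases Tm_cross (X := X) t2 with ⟨σ, hσ⟩ | ⟨i, j, hij⟩
      · exact absurd (mem_image.2 ⟨σ, mem_univ _, (h.trans hσ).symm⟩) hT'.2
      · have h2 := norm_valT_Tm_le t1 t2 (fun j => (hpr j).1) (Sum.inl i)
        rw [hij, ← h] at h2
        have h3 : bil (ψ (Sum.inl i)) (ψ (Sum.inl j)) = bil (a i) (a j) := bil_chi c M0 _ _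
        rw [h3] at h2
        refine (h2.trans (hb i j fun e' => t1 (Sum.inl i) (by rw [hij, e']))).trans ?_
        exact (le_add_of_nonneg_left (Real.sqrt_nonneg _)).trans
          (le_mul_of_one_le_left (by positivity) hK1)
  · refine le_trans ?_ (hw.trans (wick_const hX hK₀))
    exact sum_le_sum_of_subset_of_nonneg sdiff_subset fun _ _ _ => abs_nonneg _

/-- Wick formula on a fibre for primitive vectors -/
theorem wick2_prim (m k : ℕ) : ∃ C : ℝ, 0 < C ∧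
    ∀ (X : Type) [AddCommGroup X] [Module (ZMod 2) X] [Fintype X] [Nontrivial X],
    Fintype.card X ≤ k → ∀ (K₀ : Type) [Fintype K₀] [DecidableEq K₀], Fintype.card K₀ ≤ m →
    ∀ (ν : Type) [Fintype ν] [DecidableEq ν] (b : Bil 2 X), NdB (pol b) →
    ∀ θ δ : ℝ, 0 ≤ θ → θ ≤ 1 → 0 ≤ δ → ∀ (ι : Type) (κ : Matrix ι ν (ZMod 2)) (e : ι → X),
    Submodule.span (ZMod 2) (Set.range e) = ⊤ → ∀ a a' : K₀ → (ν → X) → ℂ,
    (∀ i, Prim (pol b) θ (a i) ∧ OnSl κ e (a i)) →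
    (∀ i, Prim (pol b) θ (a' i) ∧ OnSl κ e (a' i)) →
    (∀ i j, i ≠ j → ‖bil (a i) (a j)‖ ≤ δ) → ∀ M0 : SymM 2 ν,
    ‖𝔼 N : AltM ν, ∏ i, (FF b (a i) (M0 + N.1) * conj (FF b (a' i) (M0 + N.1))) -
      ∑ σ : Equiv.Perm K₀, ∏ i, ip (a' (σ i)) (a i)‖ ≤ C * (√(√(√θ)) + δ) := by
  obtain ⟨C, hC, h⟩ := wick2 m k 1 le_rfl
  refine ⟨C, hC, ?_⟩
  intro X _ _ _ _ hX K₀ _ _ hK₀ ν _ _ b hn θ δ h0 h1 hδ ι κ e he a a' ha ha' hb M0
  exact h X hX K₀ hK₀ ν b _ (Pol_pol b) hn _ δ (Real.sqrt_nonneg θ) (Real.sqrt_le_one.2 h1) hδ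
    ι κ e he a a' (fun i => ⟨Prw_of_Prim (pol_sym b) h0 h1 (ha i).1, (ha i).2⟩)
    (fun i => ⟨Prw_of_Prim (pol_sym b) h0 h1 (ha' i).1, (ha' i).2⟩) hb M0

/-- moment bound on a fibre -/
theorem MB2 (m k : ℕ) (K : ℝ) (hK : 1 ≤ K) : ∃ C : ℝ, 0 < C ∧
    ∀ (X : Type) [AddCommGroup X] [Module (ZMod 2) X] [Fintype X],
    Fintype.card X ≤ k → ∀ (ν : Type) [Fintype ν] [DecidableEq ν] (b : Bil 2 X)
    (a : (ν → X) → ℂ), nsq a ≤ 1 → GG (pol b) K a → ∀ M0 : SymM 2 ν,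
    𝔼 N : AltM ν, ‖FF b a (M0 + N.1)‖ ^ (2 * m) ≤ C := by
  have hK0 : 0 < K := zero_lt_one.trans_le hK
  refine ⟨((2 ^ 2 ^ k ^ (2 * m) : ℤ) : ℝ) * K ^ (2 * m), by positivity, ?_⟩
  intro X _ _ _ hX ν _ _ b a ha hG M0
  classical
  obtain ⟨s, w, hs, -, hw, hsum⟩ := exists_moebius (BK fun _ : Fin m ⊕ Fin m => pol b)
  have e1 : (((𝔼 N : AltM ν, ‖FF b a (M0 + N.1)‖ ^ (2 * m) : ℝ)) : ℂ) =
      𝔼 N : AltM ν, ∏ _i : Fin m, (FF b a (M0 + N.1) * conj (FF b a (M0 + N.1))) := by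
    rw [Complex.ofReal_expect]
    refine Finset.expect_congr rfl fun M _ => ?_
    rw [prod_const, card_univ, Fintype.card_fin, Complex.mul_conj', pow_mul]
    push_cast
    rfl
  have e2 := wick_prod2 (K₀ := Fin m) b (fun _ => a) fun _ => a
  simp only [e2] at e1
  rw [wick_expand2 (fun _ => Pol_pol b) _ M0 s w hsum, wick_elim_chi] at e1
  have e3 := wick_bound s w
    (fun T => valT T (tens (Sum.elim (fun (_ : Fin m) l => a l * chi b M0 l)
      fun (_ : Fin m) l => conj (a l * chi b M0 l))))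
    (by positivity) (fun T hT => valT_le2 (fun _ => pol_sym b) ((hs T).1 hT) ?_ hK ?_)
    (hw.trans (wick_const hX (Fintype.card_fin m).le))
  · rw [← e1, Complex.norm_real, Fintype.card_sum, Fintype.card_fin, ← two_mul] at e3
    exact (le_abs_self _).trans e3
  · rintro (j | j)
    · exact (nsq_chi b M0 a).trans_le ha
    · exact (prim_nsq_conj _).trans_le ((nsq_chi b M0 a).trans_le ha)
  · rintro (j | j)
    · exact GG_chi (Pol_pol b) M0 hG
    · exact GG_conj2 (GG_chi (Pol_pol b) M0 hG)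

end Pool.Agent.Work.MP_4523ee_co.F2
end

-- merged part: Pool.Agent.Work.MP_4523ee_co.F2.Gt2B
section
/-!
The fibred Gaussian tile: most tiles have almost orthogonal pieces.
-/

set_option autoImplicit false
set_option linter.unusedSectionVars false

namespace Pool.Agent.Work.MP_4523ee_co.F2

open Finset hiding dens
open Matrix Pool.Agent.Work.MP_4523ee_co.Fp
open scoped BigOperators ComplexConjugate

variable {X : Type} [AddCommGroup X] [Module (ZMod 2) X] [Fintype X]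
variable {ν ν' : Type} [Fintype ν] [DecidableEq ν] [Fintype ν'] [DecidableEq ν']

/-- the sign attached to `c` and `u` -/
noncomputable def gtSg (β : Bil 2 X) (c : X) (u : ν → ZMod 2) (l : ν → X) : ℂ :=
  ee (β c (∑ i, u i • l i))

/-- twisted sum -/
noncomputable def Tw (β : Bil 2 X) (g : (ν → X) → ℂ) (U : Matrix ν ν' (ZMod 2)) (w : ν' → X) : ℂ :=
  ∑ l, g l * ee (bt β w (act Uᵀ l))

lemma g2b_orth (β : Bil 2 X) (c : X) (l l' : ν → X) :
    ((ind {m : ν → X | ∀ i, β c (m i) = β c (l i)} l' : ℝ) : ℂ) =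
      𝔼 x : ν → ZMod 2, gtSg β c x l * conj (gtSg β c x l') := by
  have e : ∀ x : ν → ZMod 2, gtSg β c x l * conj (gtSg β c x l') =
      ee (∑ i, x i * (β c (l i) - β c (l' i))) := fun x => by
    rw [gtSg, gtSg, conj_ee, ← ee_add]
    simp only [map_sum, map_smul, smul_eq_mul, mul_sub, sum_sub_distrib, sub_eq_add_neg (∑ _, _)]
  simp only [e]
  by_cases h : ∀ i, β c (l' i) = β c (l i)
  · rw [ind_of_mem (A := {m : ν → X | ∀ i, β c (m i) = β c (l i)}) h]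
    simp [h]
  · rw [ind_of_not (A := {m : ν → X | ∀ i, β c (m i) = β c (l i)}) h]
    refine (expect_ee_hom (AddMonoidHom.mk'
      (fun x : ν → ZMod 2 => ∑ i, x i * (β c (l i) - β c (l' i))) fun u v => by
        simp only [Pi.add_apply, add_mul, sum_add_distrib]) fun k => h fun i => ?_).symm
    have k1 := DFunLike.congr_fun k (Pi.single i 1)
    simp only [AddMonoidHom.mk'_apply, AddMonoidHom.zero_apply, Pi.single_apply, ite_mul, one_mul,
      zero_mul, sum_ite_eq', mem_univ, if_true] at k1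
    exact (sub_eq_zero.1 k1).symm

/-- a fresh random sign decouples -/
lemma fresh {β : Bil 2 X} {θ : ℝ} {a b : (ν → X) → ℂ} (ha : nsq a ≤ 1) (hb : Pos β θ b) {c : X}
    (hc : c ≠ 0) : 𝔼 x : ν → ZMod 2, ‖∑ l, a l * b l * gtSg β c x l‖ ^ 2 ≤ θ := by
  have h0 : 0 ≤ θ := (sum_nonneg fun l _ => mul_nonneg (ind_nonneg _ _) (sq_nonneg _)).trans
    (hb c hc 0)
  have h1 : ((𝔼 x : ν → ZMod 2, ‖∑ l, a l * b l * gtSg β c x l‖ ^ 2 : ℝ) : ℂ) =
      ∑ l, ∑ l', a l * b l * conj (a l' * b l') *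
        (ind {m : ν → X | ∀ i, β c (m i) = β c (l i)} l' : ℝ) := by
    rw [Complex.ofReal_expect]
    simp only [g2b_orth, mul_expect, ← expect_sum_comm]
    refine expect_congr rfl fun x _ => ?_
    rw [Complex.ofReal_pow, ← Complex.mul_conj', map_sum, sum_mul_sum]
    refine sum_congr rfl fun l _ => sum_congr rfl fun l' _ => ?_
    rw [map_mul (starRingEnd ℂ) (a l' * b l')]
    ring
  have h2 : ∀ l : ν → X, ‖a l‖ ^ 2 * ∑ l', ind {m : ν → X | ∀ i, β c (m i) = β c (l i)} l' *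
      ‖b l'‖ ^ 2 ≤ ‖a l‖ ^ 2 * θ := fun l =>
    mul_le_mul_of_nonneg_left (hb c hc fun i => β c (l i)) (sq_nonneg _)
  have h3 := sum_le_sum fun l (_ : l ∈ univ) => h2 l
  rw [← sum_mul] at h3
  have h4 := h3.trans (mul_le_of_le_one_left h0 ha)
  simp only [mul_sum] at h4
  have h5 := h4
  rw [sum_comm] at h5
  have h6 : ∀ l l' : ν → X, ind {m : ν → X | ∀ i, β c (m i) = β c (l' i)} l =
      ind {m : ν → X | ∀ i, β c (m i) = β c (l i)} l' := fun l l' => by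
    by_cases h : ∀ i, β c (l i) = β c (l' i)
    · rw [ind_of_mem (A := {m : ν → X | ∀ i, β c (m i) = β c (l' i)}) h,
        ind_of_mem (A := {m : ν → X | ∀ i, β c (m i) = β c (l i)}) fun i => (h i).symm]
    · rw [ind_of_not (A := {m : ν → X | ∀ i, β c (m i) = β c (l' i)}) h,
        ind_of_not (A := {m : ν → X | ∀ i, β c (m i) = β c (l i)}) fun k => h fun i => (k i).symm]
  have h7 : ‖∑ l, ∑ l', a l * b l * conj (a l' * b l') *
      (ind {m : ν → X | ∀ i, β c (m i) = β c (l i)} l' : ℝ)‖ ≤ ∑ l, ∑ l', 2⁻¹ *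
      (‖a l‖ ^ 2 * (ind {m : ν → X | ∀ i, β c (m i) = β c (l i)} l' * ‖b l'‖ ^ 2) +
        ‖a l'‖ ^ 2 * (ind {m : ν → X | ∀ i, β c (m i) = β c (l' i)} l * ‖b l‖ ^ 2)) := by
    refine norm_sum_le_of_le _ fun l _ => norm_sum_le_of_le _ fun l' _ => ?_
    rw [h6 l l', norm_mul, norm_mul, RCLike.norm_conj, norm_mul, norm_mul, Complex.norm_real,
      Real.norm_of_nonneg (ind_nonneg _ _)]
    nlinarith [mul_nonneg (ind_nonneg {m : ν → X | ∀ i, β c (m i) = β c (l i)} l')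
      (sq_nonneg (‖a l‖ * ‖b l'‖ - ‖a l'‖ * ‖b l‖))]
  rw [← h1, Complex.norm_real] at h7
  simp only [← mul_sum (a := (2⁻¹ : ℝ)), sum_add_distrib] at h7
  exact ((le_abs_self _).trans h7).trans (by linarith)

lemma tw_cut {β : Bil 2 X} (hβ : SymB β) (hn : NdB β) (g : (ν → X) → ℂ)
    (U : Matrix ν ν' (ZMod 2)) {δ : ℝ} (h : ∀ w, ‖Tw β g U w‖ ≤ δ) (φ : (ν' → X) → ℂ)
    (hφ : ∀ s, ‖φ s‖ ≤ 1) :
    ‖∑ l, g l * φ (act Uᵀ l)‖ ≤ (Fintype.card X : ℝ) ^ Fintype.card ν' * δ := by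
  have h1 : ∀ s : ν' → X, ‖∑ l, cut Uᵀ s g l‖ ≤ δ := fun s => by
    have e : ∑ l, cut Uᵀ s g l = 𝔼 w : ν' → X, ee (-bt β w s) * Tw β g U w := by
      rw [cut_eq_avg hβ hn]
      simp only [← expect_sum_comm, Tw, mul_sum]
      refine expect_congr rfl fun w _ => sum_congr rfl fun l _ => ?_
      rw [W, bt_zero_right, mul_zero, add_zero, add_zero, transpose_transpose, bt_act,
        mul_comm (g l)]
    rw [e]
    refine (RCLike.norm_expect_le (K := ℂ)).trans (expect_le univ_nonempty fun w _ => ?_)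
    rw [norm_mul, norm_ee, one_mul]
    exact h w
  have h2 : ∑ l, g l * φ (act Uᵀ l) = ∑ s, φ s * ∑ l, cut Uᵀ s g l := by
    simp only [mul_sum]
    rw [sum_comm]
    refine sum_congr rfl fun l _ => ?_
    unfold cut
    rw [sum_eq_single (act Uᵀ l) (fun s _ hs => by rw [if_neg (Ne.symm hs), mul_zero])
      (fun h => absurd (mem_univ _) h), if_pos rfl, mul_comm]
  rw [h2]
  refine (norm_sum_le_of_le (n := fun _ => δ) _ fun s _ => ?_).trans (le_of_eq ?_)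
  · rw [norm_mul]
    exact (mul_le_of_le_one_left (norm_nonneg _) (hφ s)).trans (h1 s)
  · rw [sum_const, card_univ, Fintype.card_fun, nsmul_eq_mul, Nat.cast_pow]

lemma g2b_neg {α : Type} (x : α → ZMod 2) : -x = x := funext fun i => CharTwo.neg_eq (x i)

lemma g2b_shift (τ : ν' → ZMod 2) (F : (ν → ZMod 2) → Matrix ν ν' (ZMod 2) → ℝ) :
    𝔼 d, 𝔼 U : Matrix ν ν' (ZMod 2), F (d + U *ᵥ τ) U = 𝔼 d, 𝔼 U, F d U := by
  rw [expect_comm, expect_comm (f := F)]
  exact expect_congr rfl fun U _ => Fintype.expect_equiv (Equiv.addRight (U *ᵥ τ)) _ _ fun _ => rfl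

lemma g2b_col (γ : ν' → ZMod 2) (H : Matrix ν ν' (ZMod 2) → ℝ) :
    𝔼 U, H U = 𝔼 U, 𝔼 x : ν → ZMod 2, H (U + vecMulVec x γ) := by
  rw [expect_comm, ← expect_const (s := (univ : Finset (ν → ZMod 2))) univ_nonempty (𝔼 U, H U)]
  exact expect_congr rfl fun x _ =>
    (Fintype.expect_equiv (Equiv.addRight (vecMulVec x γ)) _ _ fun _ => rfl).symm

lemma g2b_nsq {a : (ν → X) → ℂ} (h : nsq a ≤ 1) (t : (ν → X) → ZMod 2) :
    nsq (fun l => a l * ee (t l)) ≤ 1 := by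
  simpa only [nsq, norm_mul, norm_ee, mul_one] using h

/-- different fibres -/
lemma tw_far {β : Bil 2 X} {θ : ℝ} {a : (ν → ZMod 2) → (ν → X) → ℂ} (h1 : ∀ v, nsq (a v) ≤ 1)
    (hP : ∀ v, Pos β θ (a v)) (hS : SP β θ Set.univ a) {τ τ' : ν' → ZMod 2} (hτ : τ ≠ τ')
    (w : ν' → X) : 𝔼 d, 𝔼 U : Matrix ν ν' (ZMod 2),
      ‖Tw β (fun l => conj (a (d + U *ᵥ τ) l) * a (d + U *ᵥ τ') l) U w‖ ^ 2 ≤ θ := by
  have hz : τ + τ' ≠ 0 := fun h => hτ (by rw [eq_neg_of_add_eq_zero_left h, g2b_neg])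
  have e0 : ∀ (d : ν → ZMod 2) (U : Matrix ν ν' (ZMod 2)),
      d + U *ᵥ τ' = d + U *ᵥ τ + U *ᵥ (τ + τ') := fun d U => by
    rw [mulVec_add, add_assoc, ← add_assoc (U *ᵥ τ),
      show U *ᵥ τ + U *ᵥ τ = 0 by nth_rewrite 1 [← g2b_neg (U *ᵥ τ)]; exact neg_add_cancel _,
      zero_add]
  simp only [e0]
  rw [g2b_shift τ fun d U => ‖Tw β (fun l => conj (a d l) * a (d + U *ᵥ (τ + τ')) l) U w‖ ^ 2]
  generalize τ + τ' = z at hz
  obtain ⟨j0, hj⟩ := Function.ne_iff.1 hz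
  have hj0 : z j0 = 1 := (by decide : ∀ t : ZMod 2, t ≠ 0 → t = 1) _ hj
  by_cases hw : ∀ j, w j = z j • w j0
  · refine le_trans (le_of_eq ?_) (hS (w j0))
    refine expect_congr rfl fun d _ => ?_
    have e1 : ∀ (U : Matrix ν ν' (ZMod 2)) (l : ν → X),
        bt β w (act Uᵀ l) = β (w j0) (∑ i, (U *ᵥ z) i • l i) := fun U l => by
      rw [show w = fun j => z j • w j0 from funext hw]
      simp only [bt, act, map_sum, map_smul, LinearMap.smul_apply, smul_eq_mul, mulVec, dotProduct,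
        transpose_apply, sum_mul, hj0, one_mul]
      rw [sum_comm]
      exact sum_congr rfl fun i _ => sum_congr rfl fun j _ => by ring
    simp only [Tw, e1]
    rw [g2b_col (Pi.single j0 1)]
    have e2 : ∀ (U : Matrix ν ν' (ZMod 2)) (x : ν → ZMod 2),
        (U + vecMulVec x (Pi.single j0 1)) *ᵥ z = U *ᵥ z + x := fun U x => by
      rw [add_mulVec, vecMulVec_mulVec, single_dotProduct, hj0, one_mul, MulOpposite.op_one,
        one_smul]
    simp only [e2]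
    refine (expect_congr rfl fun U _ => ?_).trans (expect_const univ_nonempty _)
    refine Fintype.expect_equiv (Equiv.addLeft (d + U *ᵥ z)) _ _ fun x => ?_
    have e3 : d + (d + U *ᵥ z + x) = U *ᵥ z + x := by
      nth_rewrite 1 [← g2b_neg d]
      abel
    rw [Equiv.coe_addLeft, e3, ind_of_mem (Set.mem_univ _), ind_of_mem (Set.mem_univ _), one_mul,
      one_mul, ← add_assoc]
  · obtain ⟨j, hj1⟩ := not_forall.1 hw
    refine expect_le univ_nonempty fun d _ => ?_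
    rw [g2b_col (Pi.single j 1 + Pi.single j0 (z j))]
    refine expect_le univ_nonempty fun U _ => ?_
    have e2 : ∀ x : ν → ZMod 2,
        (U + vecMulVec x (Pi.single j 1 + Pi.single j0 (z j))) *ᵥ z = U *ᵥ z := fun x => by
      rw [add_mulVec, vecMulVec_mulVec, add_dotProduct, single_dotProduct, single_dotProduct, hj0,
        one_mul, mul_one, CharTwo.add_self_eq_zero, MulOpposite.op_zero, zero_smul, add_zero]
    have hc : w j + z j • w j0 ≠ 0 := fun h => hj1 (by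
      rw [eq_neg_of_add_eq_zero_left h, ← neg_smul, CharTwo.neg_eq])
    refine le_trans (le_of_eq (expect_congr rfl fun x _ => ?_))
      (fresh (g2b_nsq (a := fun l => conj (a d l)) ((prim_nsq_conj _).trans_le (h1 d))
        fun l => bt β w (act Uᵀ l)) (hP (d + U *ᵥ z)) hc)
    rw [e2, Tw]
    congr 2
    refine sum_congr rfl fun l _ => ?_
    have e3 : bt β w (act (vecMulVec x (Pi.single j 1 + Pi.single j0 (z j)))ᵀ l) =
        β (w j + z j • w j0) (∑ i, x i • l i) := by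
      have e4 : ∀ γ : ν' → ZMod 2, act (vecMulVec x γ)ᵀ l = fun k => γ k • ∑ i, x i • l i :=
        fun γ => funext fun k => by
          simp only [act, transpose_apply, vecMulVec_apply, mul_comm (x _), mul_smul, smul_sum]
      rw [e4]
      generalize ∑ i, x i • l i = y
      simp only [bt, map_smul, smul_eq_mul, Pi.add_apply, add_mul, sum_add_distrib,
        Pi.single_apply, ite_mul, zero_mul, sum_ite_eq', mem_univ, if_true, one_mul, map_add,
        LinearMap.add_apply, LinearMap.smul_apply]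
    rw [transpose_add, add_act, bt_add_right, ee_add, e3, gtSg]
    ring

/-- the good tiles -/
def Good (β : Bil 2 X) (cst : Prop) (D : Set (ν → ZMod 2)) (a : (ν → ZMod 2) → (ν → X) → ℂ)
    (c : X) (δ : ℝ) (u d : ν → ZMod 2) (U : Matrix ν ν' (ZMod 2)) : Prop :=
  ∀ (τ τ' : ν' → ZMod 2) (w : ν' → X),
    (d + U *ᵥ τ ∈ D → |nsq (cut Uᵀ w (a (d + U *ᵥ τ))) -
      ((Fintype.card X : ℝ) ^ Fintype.card ν')⁻¹| ≤ δ) ∧
    (¬ cst → τ ≠ τ' → ‖Tw β (fun l => conj (a (d + U *ᵥ τ) l) * a (d + U *ᵥ τ') l) U w‖ ≤ δ) ∧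
    ‖Tw β (fun l => a (d + U *ᵥ τ) l * a (d + U *ᵥ τ') l * gtSg β c u l) U w‖ ≤ δ ∧
    ‖Tw β (fun l => conj (a (d + U *ᵥ τ) l) * a (d + U *ᵥ τ') l * gtSg β c u l) U w‖ ≤ δ

lemma g2b_fresh {β : Bil 2 X} {θ : ℝ} (a b : (ν → ZMod 2) → Matrix ν ν' (ZMod 2) → (ν → X) → ℂ)
    (ha : ∀ d U, nsq (a d U) ≤ 1) (hb : ∀ d U, Pos β θ (b d U)) {c : X} (hc : c ≠ 0) (w : ν' → X) :
    𝔼 u, 𝔼 d, 𝔼 U, ‖Tw β (fun l => a d U l * b d U l * gtSg β c u l) U w‖ ^ 2 ≤ θ := by
  rw [expect_comm]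
  refine expect_le univ_nonempty fun d _ => ?_
  rw [expect_comm]
  refine expect_le univ_nonempty fun U _ => ?_
  refine le_trans (le_of_eq (expect_congr rfl fun x _ => ?_))
    (fresh (g2b_nsq (ha d U) fun l => bt β w (act Uᵀ l)) (hb d U) hc)
  rw [Tw]
  congr 2
  exact sum_congr rfl fun l _ => by ring

theorem g2_bad {β : Bil 2 X} (hn : NdB β) {ι : Type} {κ : Matrix ι ν (ZMod 2)} {e : ι → X}
    (he : Submodule.span (ZMod 2) (Set.range e) = ⊤) (cst : Prop) (D : Set (ν → ZMod 2))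
    (a : (ν → ZMod 2) → (ν → X) → ℂ) {θ : ℝ} (hθ : 0 ≤ θ)
    (ha : ∀ v ∈ D, nsq (a v) = 1 ∧ OnSl κ e (a v)) (h1 : ∀ v, nsq (a v) ≤ 1)
    (hP : ∀ v, Pos β θ (a v)) (hS : ¬ cst → SP β θ Set.univ a) {c : X} (hc : c ≠ 0) {δ : ℝ}
    (hδ : 0 < δ) : ∃ u, 𝔼 d, dens {U : Matrix ν ν' (ZMod 2) | ¬ Good β cst D a c δ u d U} ≤
      4 ^ Fintype.card ν' * (Fintype.card X : ℝ) ^ Fintype.card ν' *
        (((Fintype.card X : ℝ) ^ 2 + 3) * θ / δ ^ 2) := by
  classical
  obtain ⟨π, hπ⟩ : ∃ π : ℝ, π = ((Fintype.card X : ℝ) ^ Fintype.card ν')⁻¹ := ⟨_, rfl⟩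
  let T := (ν' → ZMod 2) × (ν' → ZMod 2) × (ν' → X)
  let g1 : T → (ν → ZMod 2) → Matrix ν ν' (ZMod 2) → ℝ := fun t d U =>
    ind D (d + U *ᵥ t.1) * (nsq (cut Uᵀ t.2.2 (a (d + U *ᵥ t.1))) - π) ^ 2
  let g2 : T → (ν → ZMod 2) → Matrix ν ν' (ZMod 2) → ℝ := fun t d U =>
    ind {t : T | ¬ cst ∧ t.1 ≠ t.2.1} t *
      ‖Tw β (fun l => conj (a (d + U *ᵥ t.1) l) * a (d + U *ᵥ t.2.1) l) U t.2.2‖ ^ 2
  let g3 : T → (ν → ZMod 2) → (ν → ZMod 2) → Matrix ν ν' (ZMod 2) → ℝ := fun t u d U =>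
    ‖Tw β (fun l => a (d + U *ᵥ t.1) l * a (d + U *ᵥ t.2.1) l * gtSg β c u l) U t.2.2‖ ^ 2
  let g4 : T → (ν → ZMod 2) → (ν → ZMod 2) → Matrix ν ν' (ZMod 2) → ℝ := fun t u d U =>
    ‖Tw β (fun l => conj (a (d + U *ᵥ t.1) l) * a (d + U *ᵥ t.2.1) l * gtSg β c u l) U t.2.2‖ ^ 2
  have p1 : ∀ t d U, 0 ≤ g1 t d U := fun t d U => mul_nonneg (ind_nonneg _ _) (sq_nonneg _)
  have p2 : ∀ t d U, 0 ≤ g2 t d U := fun t d U => mul_nonneg (ind_nonneg _ _) (sq_nonneg _)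
  have p3 : ∀ t u d U, 0 ≤ g3 t u d U := fun t u d U => sq_nonneg _
  have p4 : ∀ t u d U, 0 ≤ g4 t u d U := fun t u d U => sq_nonneg _
  have b1 : ∀ t, 𝔼 d, 𝔼 U, g1 t d U ≤ (Fintype.card X : ℝ) ^ 2 * θ := fun t => by
    rw [g2b_shift t.1 fun d U => ind D d * (nsq (cut Uᵀ t.2.2 (a d)) - π) ^ 2]
    refine expect_le univ_nonempty fun d _ => ?_
    rw [← mul_expect]
    by_cases hd : d ∈ D
    · rw [ind_of_mem hd, one_mul, hπ]
      exact gu_var hn he (ha d hd).1 (ha d hd).2 hθ (hP d) _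
    · rw [ind_of_not hd, zero_mul]
      positivity
  have b2 : ∀ t, 𝔼 d, 𝔼 U, g2 t d U ≤ θ := fun t => by
    simp only [g2, ← mul_expect]
    by_cases ht : ¬ cst ∧ t.1 ≠ t.2.1
    · rw [ind_of_mem (A := {t : T | ¬ cst ∧ t.1 ≠ t.2.1}) ht, one_mul]
      exact tw_far h1 hP (hS ht.1) ht.2 _
    · rw [ind_of_not (A := {t : T | ¬ cst ∧ t.1 ≠ t.2.1}) ht, zero_mul]
      exact hθ
  have b3 : ∀ t, 𝔼 u, 𝔼 d, 𝔼 U, g3 t u d U ≤ θ := fun t =>
    g2b_fresh (fun d U => a (d + U *ᵥ t.1)) (fun d U => a (d + U *ᵥ t.2.1)) (fun _ _ => h1 _)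
      (fun _ _ => hP _) hc _
  have b4 : ∀ t, 𝔼 u, 𝔼 d, 𝔼 U, g4 t u d U ≤ θ := fun t =>
    g2b_fresh (fun d U l => conj (a (d + U *ᵥ t.1) l)) (fun d U => a (d + U *ᵥ t.2.1))
      (fun _ _ => (prim_nsq_conj _).trans_le (h1 _)) (fun _ _ => hP _) hc _
  have hsq : ∀ x : ℝ, ¬ x ≤ δ → δ ^ 2 ≤ x ^ 2 := fun x hx =>
    pow_le_pow_left₀ hδ.le (not_le.1 hx).le 2
  have key : ∀ u d U, ind {U : Matrix ν ν' (ZMod 2) | ¬ Good β cst D a c δ u d U} U ≤
      (δ ^ 2)⁻¹ * ∑ t, (g1 t d U + g2 t d U + g3 t u d U + g4 t u d U) := fun u d U => by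
    have h0 : ∀ t, 0 ≤ g1 t d U + g2 t d U + g3 t u d U + g4 t u d U := fun t =>
      add_nonneg (add_nonneg (add_nonneg (p1 _ _ _) (p2 _ _ _)) (p3 _ _ _ _)) (p4 _ _ _ _)
    by_cases hG : Good β cst D a c δ u d U
    · rw [ind_of_not (A := {U : Matrix ν ν' (ZMod 2) | ¬ Good β cst D a c δ u d U}) (not_not.2 hG)]
      exact mul_nonneg (by positivity) (sum_nonneg fun t _ => h0 t)
    rw [ind_of_mem (A := {U : Matrix ν ν' (ZMod 2) | ¬ Good β cst D a c δ u d U}) hG,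
      le_inv_mul_iff₀ (by positivity), mul_one]
    by_contra hlt
    refine hG fun τ τ' w => ?_
    have h2 := (single_le_sum (fun t _ => h0 t) (mem_univ (τ, τ', w))).trans_lt (not_le.1 hlt)
    have q1 := p1 (τ, τ', w) d U
    have q2 := p2 (τ, τ', w) d U
    have q3 := p3 (τ, τ', w) u d U
    have q4 := p4 (τ, τ', w) u d U
    refine ⟨fun hd => by_contra fun h => ?_, fun a1 a2 => by_contra fun h => ?_,
      by_contra fun h => ?_, by_contra fun h => ?_⟩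
    · have k : δ ^ 2 ≤ g1 (τ, τ', w) d U := by
        simp only [g1]
        rw [ind_of_mem hd, one_mul, hπ, ← sq_abs (_ - _)]
        exact hsq _ h
      linarith
    · have k : δ ^ 2 ≤ g2 (τ, τ', w) d U := by
        simp only [g2]
        rw [ind_of_mem (A := {t : T | ¬ cst ∧ t.1 ≠ t.2.1}) ⟨a1, a2⟩, one_mul]
        exact hsq _ h
      linarith
    · have k : δ ^ 2 ≤ g3 (τ, τ', w) u d U := hsq _ h
      linarith
    · have k : δ ^ 2 ≤ g4 (τ, τ', w) u d U := hsq _ h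
      linarith
  obtain ⟨u, -, hu⟩ := exists_le_of_expect_le (s := (univ : Finset (ν → ZMod 2))) univ_nonempty
    (f := fun u => 𝔼 d, dens {U : Matrix ν ν' (ZMod 2) | ¬ Good β cst D a c δ u d U})
    (a := 4 ^ Fintype.card ν' * (Fintype.card X : ℝ) ^ Fintype.card ν' *
        (((Fintype.card X : ℝ) ^ 2 + 3) * θ / δ ^ 2)) (by
      refine (expect_le_expect fun u _ => expect_le_expect fun d _ =>
        expect_le_expect fun U _ => key u d U).trans ?_
      simp only [← mul_expect, expect_sum_comm, expect_add_distrib, expect_const univ_nonempty]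
      refine (mul_le_mul_of_nonneg_left (sum_le_sum fun t _ =>
        add_le_add (add_le_add (add_le_add (b1 t) (b2 t)) (b3 t)) (b4 t)) (by positivity)).trans
        (le_of_eq ?_)
      rw [sum_const, card_univ, Fintype.card_prod, Fintype.card_prod, Fintype.card_fun,
        Fintype.card_fun, ZMod.card, nsmul_eq_mul, show (4 : ℝ) = 2 * 2 by norm_num, mul_pow]
      push_cast
      ring)
  exact ⟨u, hu⟩

end Pool.Agent.Work.MP_4523ee_co.F2
end

-- merged part: Pool.Agent.Work.MP_4523ee_co.F2.Gt2A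
section
/-!
The formal Gaussian model with a weighted rank one coupling of the two tiles.
-/

set_option autoImplicit false
set_option linter.unusedSectionVars false

namespace Pool.Agent.Work.MP_4523ee_co.F2

open Finset hiding dens
open Polynomial Pool.Agent.Work.MP_4523ee_co.Fp
open scoped BigOperators Nat

/-- rescaled moment polynomial -/
noncomputable def He (r : ℝ) (i : ℕ) : ℝ[X] :=
  ∑ k ∈ range (i + 1), C ((((i.choose k) ^ 2 * (i - k).factorial : ℕ) : ℝ) * r ^ k) * X ^ k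

lemma He_eval (r : ℝ) (i : ℕ) (u : ℝ) : (He r i).eval u = (Hp i).eval (r * u) := by
  simp only [He, Hp, eval_finsetSum, eval_mul, eval_C, eval_pow, eval_X, mul_pow, mul_assoc]

lemma He_natDegree (r : ℝ) (i : ℕ) : (He r i).natDegree ≤ i :=
  natDegree_sum_le_of_forall_le _ _ fun k hk =>
    (natDegree_C_mul_X_pow_le _ _).trans (by have := mem_range.1 hk; omega)

lemma He_one (i : ℕ) : He 1 i = qq i := by
  unfold He qq
  exact sum_congr rfl fun j _ => by push_cast; rw [one_pow, mul_one]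

lemma He_zero (i : ℕ) : He 0 i = C ((qq i).coeff 0) := by
  unfold He qq
  rw [sum_range_succ', sum_range_succ', sum_eq_zero fun k _ => by simp]
  simp [finsetSum_coeff, coeff_X_pow]

/-- Gram matrix of two tiles coupled along the weight `e` -/
def Ge {S : Type} [DecidableEq S] (π : ℝ) (e : S ⊕ S → ℝ) : S ⊕ S → S ⊕ S → ℝ
  | .inl s, .inl t => if s = t then 1 else 0
  | .inr s, .inr t => if s = t then 1 else 0
  | .inl s, .inr t => π * (e (.inl s) * e (.inr t))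
  | .inr s, .inl t => π * (e (.inr s) * e (.inl t))

theorem perm_modelE {S K : Type} [Fintype S] [DecidableEq S] [Fintype K] [DecidableEq K] (π : ℝ)
    (e : S ⊕ S → ℝ) (c : K → S ⊕ S) {N : ℕ} (hN : Fintype.card K ≤ N) :
    ∑ σ : Equiv.Perm K, ∏ x, Ge π e (c (σ x)) (c x) = ∑ t ∈ range (N + 1),
      (t.factorial * π ^ t * (∏ s, He (e (.inl s) ^ 2) #{x | c x = .inl s}).coeff t) *
        (t.factorial * π ^ t * (∏ s, He (e (.inr s) ^ 2) #{x | c x = .inr s}).coeff t) := by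
  obtain ⟨q, y, z, h⟩ := gp_meas (N + N)
  have h1 := gp_iss h (K := K) (V := (S ⊕ S) ⊕ Option Bool) (by omega)
    (fun x => Sum.elim (fun w => if w = c x then 1 else 0)
      fun v => e (c x) * if v = none then 1 else if v = some (c x).isRight then 1 else 0)
    (fun x => Sum.elim (fun w => if w = c x then 1 else 0)
      fun v => e (c x) * if v = none then π else if v = some (c x).isRight then -π else 0)
  have h2 : ∀ a b : S ⊕ S, ∑ v : (S ⊕ S) ⊕ Option Bool,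
      Sum.elim (fun w => if w = a then (1 : ℝ) else 0)
        (fun v => e a * if v = none then 1 else if v = some a.isRight then 1 else 0) v *
      Sum.elim (fun w => if w = b then (1 : ℝ) else 0)
        (fun v => e b * if v = none then π else if v = some b.isRight then -π else 0) v =
        Ge π e b a := by
    intro a b
    rw [Fintype.sum_sum_type]
    simp only [Sum.elim_inl, Sum.elim_inr, ite_mul, one_mul, zero_mul, sum_ite_eq', mem_univ,
      if_true]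
    rcases a with a | a <;> rcases b with b | b <;> simp [Fintype.sum_option, Ge, eq_comm] <;> ring
  simp only [h2] at h1
  rw [← h1, ← Equiv.sum_comp (Equiv.sumArrowEquivProdArrow _ _ _).symm, Fintype.sum_prod_type,
    sum_comm]
  have hd : ∀ g : S → S ⊕ S, Function.Injective g →
      (∏ s, He (e (g s) ^ 2) #{x | c x = g s}).natDegree < N + 1 :=
    fun g hg => by
      refine Nat.lt_succ_of_le ((natDegree_prod_le _ _).trans
        ((sum_le_sum fun s _ => He_natDegree _ _).trans ?_))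
      rw [← card_biUnion]
      · exact (card_le_univ _).trans hN
      · intro s _ s' _ hs
        rw [Function.onFun, disjoint_filter]
        exact fun x _ k k' => hs (hg (k.symm.trans k'))
  calc _ = ∑ ω : Option Bool → Fin (N + N + 1) × Fin (N + N + 1), (∏ v, q (ω v)) *
        ((∏ s, He (e (.inl s) ^ 2) #{x | c x = .inl s}).eval
          ((y (ω none) + y (ω (some false))) * (π * (z (ω none) - z (ω (some false))))) *
        (∏ s, He (e (.inr s) ^ 2) #{x | c x = .inr s}).eval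
          ((y (ω none) + y (ω (some true))) * (π * (z (ω none) - z (ω (some true)))))) := by
        refine sum_congr rfl fun ω _ => ?_
        have h3 : ∏ w : S ⊕ S, (He (e w ^ 2) #{x | c x = w}).eval
            ((y (ω none) + y (ω (some w.isRight))) *
            (π * (z (ω none) - z (ω (some w.isRight))))) = _ := Fintype.prod_sum_type _
        rw [eval_prod, eval_prod]
        simp only [Sum.isRight_inl, Sum.isRight_inr] at h3
        rw [← h3]
        have h4 : ∀ w : S ⊕ S, #{x | c x = w} ≤ N + N := fun w =>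
          (card_le_univ _).trans (by omega)
        have h5 : ∀ (w : S ⊕ S) (a b : ℝ), (He (e w ^ 2) #{x | c x = w}).eval (a * b) =
            ∑ o, q o * ((e w * a + y o) * (e w * b + z o)) ^ #{x | c x = w} := fun w a b => by
          rw [gp_one h (h4 _), He_eval]
          congr 1
          ring
        simp only [h5]
        rw [Fintype.prod_sum, mul_sum]
        refine sum_congr rfl fun η _ => ?_
        rw [Fintype.prod_sum_type, prod_mul_distrib, ← prod_mul_distrib (s := univ (α := K)),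
          ← prod_fiberwise univ c]
        simp only [Equiv.sumArrowEquivProdArrow_symm_apply_inl,
          Equiv.sumArrowEquivProdArrow_symm_apply_inr]
        rw [mul_comm (∏ w, q (η w)), mul_assoc]
        congr 2
        refine prod_congr rfl fun w _ => ?_
        rw [← prod_const]
        refine prod_congr rfl fun x hx => ?_
        rw [(mem_filter.1 hx).2]
        simp only [Fintype.sum_sum_type (α₁ := S ⊕ S), Sum.elim_inl, Sum.elim_inr, ite_mul, one_mul,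
          zero_mul, sum_ite_eq', mem_univ, if_true, Equiv.sumArrowEquivProdArrow_symm_apply_inl,
          Equiv.sumArrowEquivProdArrow_symm_apply_inr]
        cases w.isRight <;> simp [Fintype.sum_option] <;> ring
    _ = ∑ ω : Option Bool → Fin (N + N + 1) × Fin (N + N + 1), ∑ t ∈ range (N + 1),
        ∑ t' ∈ range (N + 1), ((∏ s, He (e (.inl s) ^ 2) #{x | c x = .inl s}).coeff t * π ^ t *
          ((∏ s, He (e (.inr s) ^ 2) #{x | c x = .inr s}).coeff t' * π ^ t')) * ((∏ v, q (ω v)) *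
        (((y (ω none) + y (ω (some false))) * (z (ω none) - z (ω (some false)))) ^ t *
        ((y (ω none) + y (ω (some true))) * (z (ω none) - z (ω (some true)))) ^ t')) := by
        refine sum_congr rfl fun ω _ => ?_
        rw [eval_eq_sum_range' (hd _ Sum.inl_injective), eval_eq_sum_range' (hd _ Sum.inr_injective),
          sum_mul_sum, mul_sum]
        refine sum_congr rfl fun t _ => ?_
        rw [mul_sum]
        exact sum_congr rfl fun t' _ => by simp only [mul_pow]; ring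
    _ = _ := by
        rw [sum_comm]
        refine sum_congr rfl fun t ht => ?_
        have := mem_range.1 ht
        rw [sum_comm, sum_eq_single t]
        · rw [← mul_sum, gp_two h (by omega), if_pos rfl]; ring
        · intro t' ht' k
          have := mem_range.1 ht'
          rw [← mul_sum, gp_two h (by omega), if_neg k.symm, mul_zero]
        · exact fun k => (k ht).elim

section
variable {S : Type} [Fintype S] [DecidableEq S]

theorem perm_formulaE (π : ℝ) (e : S ⊕ S → ℝ) (i i' : S → ℕ) (T : ℕ) (hT : ∑ s, i s < T) :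
    ∑ σ : Equiv.Perm ((Σ s, Fin (i s)) ⊕ (Σ s, Fin (i' s))),
        ∏ x, Ge π e (lab i i' (σ x)) (lab i i' x) =
      ∑ t ∈ range T, cT π (∏ s, He (e (.inl s) ^ 2) (i s)) t *
        cT π (∏ s, He (e (.inr s) ^ 2) (i' s)) t := by
  have e3 : ∀ (j : S → ℕ) (s : S), ∑ x : (Σ s, Fin (j s)), (if x.1 = s then 1 else 0) = j s :=
    fun j s => by
      rw [Fintype.sum_sigma, sum_eq_single s] <;> simp +contextual
  have c1 : ∀ s, #{x | lab i i' x = .inl s} = i s := fun s => by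
    rw [card_filter, Fintype.sum_sum_type]
    simp only [lab, Sum.map_inl, Sum.map_inr, Sum.inl.injEq, e3, reduceCtorEq, if_false,
      sum_const_zero, add_zero]
  have c2 : ∀ s, #{x | lab i i' x = .inr s} = i' s := fun s => by
    rw [card_filter, Fintype.sum_sum_type]
    simp only [lab, Sum.map_inl, Sum.map_inr, Sum.inr.injEq, e3, reduceCtorEq, if_false,
      sum_const_zero, zero_add]
  rw [perm_modelE π e (lab i i') (Nat.le_add_right _ T)]
  simp only [c1, c2, cT]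
  refine (sum_subset (range_subset_range.2 (by omega)) fun t _ ht => ?_).symm
  have h0 : (∏ s, He (e (.inl s) ^ 2) (i s)).natDegree < t :=
    ((natDegree_prod_le _ _).trans (sum_le_sum fun s _ => He_natDegree _ _)).trans_lt
      (hT.trans_le (not_lt.1 fun k => ht (mem_range.2 k)))
  rw [coeff_eq_zero_of_natDegree_lt h0, mul_zero, zero_mul]

/-- linear extension of `He r` -/
noncomputable def Le (r : ℝ) (h : ℝ[X]) : ℝ[X] := h.sum fun i c => C c * He r i

lemma Le_one (h : ℝ[X]) : Le 1 h = Lq h := by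
  simp only [Le, Lq, He_one]

lemma Le_zero (h : ℝ[X]) : Le 0 h = C ((Lq h).coeff 0) := by
  simp only [Le, Lq, He_zero, Polynomial.sum_def, finsetSum_coeff, coeff_C_mul, map_sum, map_mul]

lemma Le_of_one (r : ℝ) : Le r 1 = 1 := by
  have h : (1 : ℝ[X]) = monomial 0 1 := rfl
  unfold Le
  rw [h, Polynomial.sum_monomial_index _ _ (by simp)]
  simp [He]

lemma cT_prodE (π : ℝ) (r : S → ℝ) (h : S → ℝ[X]) (t : ℕ) :
    cT π (∏ s, Le (r s) (h s)) t = ∑ i ∈ Fintype.piFinset fun s => (h s).support,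
      (∏ s, (h s).coeff (i s)) * cT π (∏ s, He (r s) (i s)) t := by
  have e : ∏ s, Le (r s) (h s) = ∑ i ∈ Fintype.piFinset fun s => (h s).support,
      C (∏ s, (h s).coeff (i s)) * ∏ s, He (r s) (i s) := by
    simp_rw [Le, Polynomial.sum_def]
    rw [Finset.prod_univ_sum]
    refine Finset.sum_congr rfl fun i _ => ?_
    rw [Finset.prod_mul_distrib, map_prod]
  rw [e]
  unfold cT
  rw [Polynomial.finsetSum_coeff, Finset.mul_sum]
  refine Finset.sum_congr rfl fun i _ => ?_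
  rw [Polynomial.coeff_C_mul]
  ring

theorem poly_transferE {Ω : Type} [Fintype Ω] (Z Z' : Ω → S → ℝ) (π δ : ℝ) (r r' : S → ℝ)
    (h h' : S → ℝ[X]) (T : ℕ)
    (hm : ∀ i i' : S → ℕ, (∀ s, i s ≤ (h s).natDegree) → (∀ s, i' s ≤ (h' s).natDegree) →
      |𝔼 ω, (∏ s, Z ω s ^ i s) * ∏ s, Z' ω s ^ i' s -
        ∑ t ∈ range T, cT π (∏ s, He (r s) (i s)) t * cT π (∏ s, He (r' s) (i' s)) t| ≤ δ) :
    |𝔼 ω, (∏ s, (h s).eval (Z ω s)) * ∏ s, (h' s).eval (Z' ω s) -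
        ∑ t ∈ range T, cT π (∏ s, Le (r s) (h s)) t * cT π (∏ s, Le (r' s) (h' s)) t| ≤
      δ * ((∏ s, l1 (h s)) * ∏ s, l1 (h' s)) := by
  have hE : 𝔼 ω, (∏ s, (h s).eval (Z ω s)) * ∏ s, (h' s).eval (Z' ω s) =
      ∑ i ∈ Fintype.piFinset fun s => (h s).support,
        ∑ i' ∈ Fintype.piFinset fun s => (h' s).support,
          ((∏ s, (h s).coeff (i s)) * ∏ s, (h' s).coeff (i' s)) *
            𝔼 ω, (∏ s, Z ω s ^ i s) * ∏ s, Z' ω s ^ i' s := by
    simp_rw [gsaB_prod_eval, Finset.sum_mul_sum, Finset.expect_sum_comm, Finset.mul_expect]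
    refine Finset.sum_congr rfl fun i _ => Finset.sum_congr rfl fun i' _ =>
      Finset.expect_congr rfl fun ω _ => by ring
  have hC : ∑ t ∈ range T, cT π (∏ s, Le (r s) (h s)) t * cT π (∏ s, Le (r' s) (h' s)) t =
      ∑ i ∈ Fintype.piFinset fun s => (h s).support,
        ∑ i' ∈ Fintype.piFinset fun s => (h' s).support,
          ((∏ s, (h s).coeff (i s)) * ∏ s, (h' s).coeff (i' s)) *
            ∑ t ∈ range T, cT π (∏ s, He (r s) (i s)) t * cT π (∏ s, He (r' s) (i' s)) t := by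
    simp_rw [cT_prodE, Finset.sum_mul_sum]
    rw [Finset.sum_comm]
    refine Finset.sum_congr rfl fun i _ => ?_
    rw [Finset.sum_comm]
    refine Finset.sum_congr rfl fun i' _ => ?_
    rw [Finset.mul_sum]
    refine Finset.sum_congr rfl fun t _ => by ring
  rw [hE, hC, ← Finset.sum_sub_distrib, gsaB_prod_l1, gsaB_prod_l1, Finset.sum_mul_sum,
    Finset.mul_sum]
  refine (Finset.abs_sum_le_sum_abs _ _).trans (Finset.sum_le_sum fun i hi => ?_)
  rw [← Finset.sum_sub_distrib, Finset.mul_sum]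
  refine (Finset.abs_sum_le_sum_abs _ _).trans (Finset.sum_le_sum fun i' hi' => ?_)
  rw [← mul_sub, abs_mul, abs_mul, mul_comm δ]
  refine mul_le_mul_of_nonneg_left (hm i i' (fun s => ?_) fun s => ?_) (by positivity)
  · exact Polynomial.le_natDegree_of_mem_supp _ (Fintype.mem_piFinset.1 hi s)
  · exact Polynomial.le_natDegree_of_mem_supp _ (Fintype.mem_piFinset.1 hi' s)

/-- a polynomial weight against a complex function -/
theorem poly_small {Ω : Type} [Fintype Ω] (Z : Ω → S → ℝ) (g : Ω → ℂ) (δ : ℝ) (h : S → ℝ[X])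
    (hm : ∀ i : S → ℕ, (∀ s, i s ≤ (h s).natDegree) →
      ‖𝔼 ω, ((∏ s, Z ω s ^ i s : ℝ) : ℂ) * g ω‖ ≤ δ) :
    ‖𝔼 ω, ((∏ s, (h s).eval (Z ω s) : ℝ) : ℂ) * g ω‖ ≤ δ * ∏ s, l1 (h s) := by
  have hE : 𝔼 ω, ((∏ s, (h s).eval (Z ω s) : ℝ) : ℂ) * g ω =
      ∑ i ∈ Fintype.piFinset fun s => (h s).support,
        ((∏ s, (h s).coeff (i s) : ℝ) : ℂ) * 𝔼 ω, ((∏ s, Z ω s ^ i s : ℝ) : ℂ) * g ω := by
    simp_rw [gsaB_prod_eval, Complex.ofReal_sum, Finset.sum_mul, Finset.expect_sum_comm,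
      Finset.mul_expect]
    refine Finset.sum_congr rfl fun i _ => Finset.expect_congr rfl fun ω _ => ?_
    rw [Complex.ofReal_mul, mul_assoc]
  rw [hE, gsaB_prod_l1, Finset.mul_sum]
  refine (norm_sum_le _ _).trans (Finset.sum_le_sum fun i hi => ?_)
  rw [norm_mul, Complex.norm_real, Real.norm_eq_abs, mul_comm δ]
  exact mul_le_mul_of_nonneg_left (hm i fun s =>
    Polynomial.le_natDegree_of_mem_supp _ (Fintype.mem_piFinset.1 hi s)) (abs_nonneg _)

end

lemma Lq_C_mul (a : ℝ) (h : ℝ[X]) : Lq (C a * h) = C a * Lq h := by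
  unfold Lq
  rw [C_mul', Polynomial.sum_smul_index' _ _ _ (by simp), Polynomial.sum_def, Polynomial.sum_def,
    Finset.mul_sum]
  refine sum_congr rfl fun i _ => ?_
  rw [smul_eq_mul, map_mul, mul_assoc]

lemma cT_C_mul (π a : ℝ) (P : ℝ[X]) (t : ℕ) : cT π (C a * P) t = a * cT π P t := by
  unfold cT
  rw [coeff_C_mul]
  ring

/-- the weight with mean exactly one -/
theorem weight_norm (ε : ℝ) (hε : 0 < ε) : ∃ m0 : ℕ, ∀ m : ℕ, m0 ≤ m → ∃ h0 : ℝ[X],
    (∀ x, 0 ≤ x → 0 ≤ h0.eval x) ∧ (Lq h0 * Lq hh ^ m).coeff 0 = 1 ∧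
    (∀ T, ∑ t ∈ range T, cT ((m : ℝ) + 1)⁻¹ (Lq h0 * Lq hh ^ m) t ^ 2 ≤ 1 + ε) ∧
    1 / 100 - ε ≤ ((m : ℝ) + 1)⁻¹ * (Lq (X * h0) * Lq hh ^ m).coeff 0 := by
  obtain ⟨η, h0η, h1η, h2η⟩ : ∃ η : ℝ, 0 < η ∧ 10 * η ≤ ε ∧ 200 * η ≤ 1 :=
    ⟨min (ε / 10) (1 / 200), by positivity, by linarith [min_le_left (ε / 10) (1 / 200)],
      by linarith [min_le_right (ε / 10) (1 / 200)]⟩
  obtain ⟨m0, hm0⟩ := weight_choice η h0η
  refine ⟨m0, fun m hm => ?_⟩
  obtain ⟨h0, a0, a1, a2, a3⟩ := hm0 m hm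
  have z0 : ∀ P : ℝ[X], cT ((m : ℝ) + 1)⁻¹ P 0 = P.coeff 0 := fun P => by simp [cT]
  rw [z0] at a1 a3
  set c := (Lq h0 * Lq hh ^ m).coeff 0 with hc
  obtain ⟨c1, c2⟩ := abs_le.1 a1
  have cpos : 0 < c := by linarith
  have ci : c⁻¹ * c = 1 := inv_mul_cancel₀ cpos.ne'
  have ci0 : 0 < c⁻¹ := inv_pos.2 cpos
  have ci1 : c⁻¹ ≤ 1 + 2 * η := by
    rw [inv_le_iff_one_le_mul₀ cpos]
    nlinarith
  have ci2 : 1 - η ≤ c⁻¹ := by
    rw [inv_eq_one_div, le_div_iff₀ cpos]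
    nlinarith
  refine ⟨C c⁻¹ * h0, fun x hx => ?_, ?_, fun T => ?_, ?_⟩
  · rw [eval_mul, eval_C]
    exact mul_nonneg ci0.le (a0 x hx)
  · rw [Lq_C_mul, mul_assoc, coeff_C_mul, ← hc, ci]
  · simp only [Lq_C_mul, mul_assoc, cT_C_mul, mul_pow]
    rw [← mul_sum]
    have k := a2 T
    have k0 : 0 ≤ ∑ t ∈ range T, cT ((m : ℝ) + 1)⁻¹ (Lq h0 * Lq hh ^ m) t ^ 2 :=
      sum_nonneg fun _ _ => sq_nonneg _
    have k1 : c⁻¹ ^ 2 ≤ (1 + 2 * η) ^ 2 := pow_le_pow_left₀ ci0.le ci1 2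
    have k2 := mul_le_mul k1 k k0 (by positivity)
    have k3 : (1 + 2 * η) ^ 2 * (1 + η) ≤ 1 + 10 * η := by
      nlinarith [mul_pos h0η h0η, mul_pos h0η (mul_pos h0η h0η)]
    linarith
  · rw [mul_left_comm X, Lq_C_mul, mul_assoc, coeff_C_mul, mul_left_comm]
    have k : 0 ≤ 1 / 100 - η := by linarith
    have k2 := mul_le_mul ci2 a3 k ci0.le
    nlinarith

end Pool.Agent.Work.MP_4523ee_co.F2
end

-- merged part: Pool.Agent.Work.MP_4523ee_co.F2.Gt2C
section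
/-!
The fibred Gaussian tile: the abstract model on one fibre.
-/

set_option autoImplicit false
set_option linter.unusedSectionVars false

namespace Pool.Agent.Work.MP_4523ee_co.F2

open Finset hiding dens
open Polynomial Pool.Agent.Work.MP_4523ee_co.Fp
open scoped BigOperators ComplexConjugate Nat

lemma g2_good {S Ω : Type} [Fintype S] [DecidableEq S] [Fintype Ω] {n : ℕ} {c L π δ : ℝ}
    {F : S ⊕ S → Ω → ℂ} {G : S ⊕ S → S ⊕ S → ℂ} (h : GtW n c F G) (hL : 1 ≤ L) (hπ : |π| ≤ 1)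
    (e : S ⊕ S → ℝ) (he : ∀ y, |e y| ≤ 1) (hδ : 0 ≤ δ) (hδ1 : δ ≤ 1) (P : S ⊕ S → Prop)
    (hG : ∀ y x, P y → P x → ‖L * G y x - (Ge π e y x : ℝ)‖ ≤ δ) (f f' : S → ℝ[X])
    (hP : ∀ s, (f s).natDegree ≠ 0 → P (Sum.inl s))
    (hP' : ∀ s, (f' s).natDegree ≠ 0 → P (Sum.inr s))
    (hf : ∑ s, (f s).natDegree + ∑ s, (f' s).natDegree ≤ n) :
    |𝔼 ω, (∏ s, (f s).eval (L * ‖F (Sum.inl s) ω‖ ^ 2)) *
      ∏ s, (f' s).eval (L * ‖F (Sum.inr s) ω‖ ^ 2) -
      ∑ t ∈ range (n + 1), cT π (∏ s, Le (e (Sum.inl s) ^ 2) (f s)) t *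
        cT π (∏ s, Le (e (Sum.inr s) ^ 2) (f' s)) t| ≤
      (L ^ n * c + n ! * (n * 2 ^ n * δ)) * ((∏ s, l1 (f s)) * ∏ s, l1 (f' s)) := by
  refine poly_transferE (fun ω s => L * ‖F (Sum.inl s) ω‖ ^ 2)
    (fun ω s => L * ‖F (Sum.inr s) ω‖ ^ 2) π _ _ _ f f' (n + 1) fun i i' a1 a2 => ?_
  have hi : ∑ s, i s + ∑ s, i' s ≤ n :=
    (add_le_add (sum_le_sum fun s _ => a1 s) (sum_le_sum fun s _ => a2 s)).trans hf
  have h1 := gt_mom h hL i i' hi
  have hl : ∀ y, P (lab i i' y) := fun y => by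
    rcases y with ⟨s, k⟩ | ⟨s, k⟩
    · have := k.2
      have := a1 s
      exact hP s (by omega)
    · have := k.2
      have := a2 s
      exact hP' s (by omega)
  have hee : ∀ u v, |π * (e u * e v)| ≤ 1 := fun u v => by
    rw [abs_mul, abs_mul]
    exact mul_le_one₀ hπ (by positivity) (mul_le_one₀ (he _) (abs_nonneg _) (he _))
  have h2 := perm_close (fun y x => (L : ℂ) * G (lab i i' y) (lab i i' x))
    (fun y x => ((Ge π e (lab i i' y) (lab i i' x) : ℝ) : ℂ)) hδ hδ1 (fun y x => by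
      rw [Complex.norm_real, Real.norm_eq_abs]
      generalize lab i i' y = u
      generalize lab i i' x = v
      rcases u with u | u <;> rcases v with v | v <;> simp only [Ge]
      · split_ifs <;> simp
      · exact hee _ _
      · exact hee _ _
      · split_ifs <;> simp) fun y x => hG _ _ (hl y) (hl x)
  rw [gt_card] at h2
  have h3 : ((∑ s, i s + ∑ s, i' s)! : ℝ) * ((∑ s, i s + ∑ s, i' s : ℕ) *
      2 ^ (∑ s, i s + ∑ s, i' s) * δ) ≤ n ! * (n * 2 ^ n * δ) :=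
    mul_le_mul (Nat.cast_le.2 (Nat.factorial_le hi)) (mul_le_mul_of_nonneg_right
      (mul_le_mul (Nat.cast_le.2 hi) (pow_le_pow_right₀ one_le_two hi) (by positivity)
        (by positivity)) hδ) (by positivity) (by positivity)
  have h4 := (norm_sub_le_norm_sub_add_norm_sub _ _ _).trans (add_le_add h1 (h2.trans h3))
  rw [← perm_formulaE π e i i' (n + 1) (by omega), ← Real.norm_eq_abs, ← Complex.norm_real]
  push_cast
  push_cast at h4
  exact h4

lemma g2_cT_one (π : ℝ) (P : ℝ[X]) (n : ℕ) :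
    ∑ t ∈ range (n + 1), cT π P t * cT π 1 t = P.coeff 0 := by
  rw [sum_range_succ', sum_eq_zero fun t _ => by simp [cT, Polynomial.coeff_one]]
  simp [cT]

lemma g2_gain (z z' : ℂ) : 2 * ‖z‖ ^ 2 + 4 * (z * conj z').im ≤
    ‖(1 - Complex.I) * z + (1 + Complex.I) * z'‖ ^ 2 := by
  rw [← Complex.normSq_eq_norm_sq, ← Complex.normSq_eq_norm_sq, Complex.normSq_apply,
    Complex.normSq_apply]
  simp
  nlinarith [sq_nonneg z'.re, sq_nonneg z'.im]

section
variable {T S : Type} [Fintype T] [DecidableEq T] [Fintype S] [DecidableEq S]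

open Classical in
/-- the polynomials of the weight -/
noncomputable def gF (A : T → Prop) (s0 : S) (h : T → ℝ[X]) (x : T × S) : ℝ[X] :=
  if A x.1 then (if x.2 = s0 then h x.1 else hh) else 1

/-- the weight -/
noncomputable def gW (A : T → Prop) (s0 : S) (h : T → ℝ[X]) (L : ℝ) (z : T × S → ℂ) : ℝ :=
  ∏ x, (gF A s0 h x).eval (L * ‖z x‖ ^ 2)

/-- the coupled labels -/
def gE (t0 : T) : (T × S) ⊕ (T × S) → ℝ :=
  Sum.elim (fun x => if x.1 = t0 then 1 else 0) fun x => if x.1 = t0 then 1 else 0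

/-- the active labels -/
def gP (A A' : T → Prop) : (T × S) ⊕ (T × S) → Prop :=
  Sum.elim (fun x => A x.1) fun x => A' x.1

lemma gF_on {A : T → Prop} (s0 : S) (h : T → ℝ[X]) {t : T} (ht : A t) (s : S) :
    gF A s0 h (t, s) = if s = s0 then h t else hh := by
  unfold gF
  rw [if_pos ht]

lemma gF_off {A : T → Prop} (s0 : S) (h : T → ℝ[X]) {x : T × S} (ht : ¬ A x.1) :
    gF A s0 h x = 1 := if_neg ht

lemma gF_ind (Q : ℝ[X] → Prop) (A : T → Prop) (s0 : S) (h : T → ℝ[X]) (h1 : ∀ t, Q (h t))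
    (h2 : Q hh) (h3 : Q 1) (x : T × S) : Q (gF A s0 h x) := by
  unfold gF
  split_ifs
  · exact h1 _
  · exact h2
  · exact h3

lemma gW_nonneg (A : T → Prop) (s0 : S) {h0 : ℝ[X]} (a0 : ∀ x, 0 ≤ x → 0 ≤ h0.eval x) {L : ℝ}
    (hL : 0 ≤ L) (z : T × S → ℂ) : 0 ≤ gW A s0 (fun _ => h0) L z :=
  prod_nonneg fun x _ => gF_ind (fun f => ∀ y, 0 ≤ y → 0 ≤ f.eval y) A s0 _ (fun _ => a0)
    (fun y _ => hh_nonneg y) (fun _ _ => by simp) x _ (by positivity)

open Classical in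
lemma gF_Le {m : ℕ} (hS : Fintype.card S = m + 1) (A : T → Prop) (t0 : T) (s0 : S)
    (h : T → ℝ[X]) (a1 : ∀ t, t ≠ t0 → (Lq (h t) * Lq hh ^ m).coeff 0 = 1) :
    ∏ x : T × S, Le ((if x.1 = t0 then 1 else 0) ^ 2) (gF A s0 h x) =
      if A t0 then Lq (h t0) * Lq hh ^ m else 1 := by
  rw [Fintype.prod_prod_type, prod_eq_single t0]
  · by_cases k : A t0
    · simp only [gF_on s0 h k, if_true, one_pow, Le_one, if_pos k]
      exact gt_prod_ite hS s0 Lq _ _
    · rw [if_neg k]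
      exact prod_eq_one fun s _ => by rw [gF_off s0 h k, Le_of_one]
  · intro t _ ht
    by_cases k : A t
    · simp only [gF_on s0 h k, if_neg ht, ne_eq, OfNat.ofNat_ne_zero, not_false_eq_true, zero_pow,
        Le_zero]
      rw [gt_prod_ite hS s0 (fun f => C ((Lq f).coeff 0)), ← map_pow, ← map_mul, ← C_1,
        ← a1 t ht, mul_coeff_zero, coeff_zero_eq_eval_zero (Lq hh ^ m), eval_pow,
        ← coeff_zero_eq_eval_zero]
    · exact prod_eq_one fun s _ => by rw [gF_off s0 h k, Le_of_one]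
  · exact fun k => (k (mem_univ _)).elim

lemma gW_X {A : T → Prop} {t0 : T} (ht : A t0) (s0 : S) (h0 : ℝ[X]) (L : ℝ) (z : T × S → ℂ) :
    gW A s0 (fun t => if t = t0 then X * h0 else h0) L z =
      gW A s0 (fun _ => h0) L z * (L * ‖z (t0, s0)‖ ^ 2) := by
  unfold gW
  rw [← mul_prod_erase univ _ (mem_univ (t0, s0)), ← mul_prod_erase univ _ (mem_univ (t0, s0)),
    gF_on s0 _ ht, gF_on s0 _ ht, prod_congr rfl
      (g := fun x => (gF A s0 (fun _ => h0) x).eval (L * ‖z x‖ ^ 2)) fun x hx => by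
        congr 1
        unfold gF
        beta_reduce
        split_ifs with k1 k2 k3
        · exact absurd (Prod.ext k3 k2) (ne_of_mem_erase hx)
        all_goals rfl]
  simp only [if_true, eval_mul, eval_X]
  ring

end

theorem g2_model (η : ℝ) (hη : 0 < η) (m tt : ℕ) (h0 : ℝ[X])
    (a0 : ∀ x, 0 ≤ x → 0 ≤ h0.eval x) (a1 : (Lq h0 * Lq hh ^ m).coeff 0 = 1)
    (a2 : ∀ T, ∑ t ∈ range T, cT ((m : ℝ) + 1)⁻¹ (Lq h0 * Lq hh ^ m) t ^ 2 ≤ 1 + η)
    (a3 : 1 / 100 - η ≤ ((m : ℝ) + 1)⁻¹ * (Lq (X * h0) * Lq hh ^ m).coeff 0) :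
    ∃ n : ℕ, ∃ δ : ℝ, 0 < δ ∧ δ ≤ 1 ∧ ∀ Cw : ℝ, 0 ≤ Cw → ∃ C : ℝ, 0 < C ∧
    ∀ (T S Ω I : Type) [Fintype T] [DecidableEq T] [Fintype S] [DecidableEq S] [Fintype Ω]
      [Nonempty Ω] [Fintype I] [Nonempty I], Fintype.card T = tt → Fintype.card S = m + 1 →
    ∀ (t0 : T) (s0 : S) (F : I → T × S → Ω → ℂ) (F' : I → Ω → ℂ) (A : I → T → Prop) (on : Prop)
      (G : I × I → (T × S) ⊕ (T × S) → (T × S) ⊕ (T × S) → ℂ) (B : Set (I × I)),
    (∀ U, A U t0 ↔ on) → (∀ r y x, ‖G r y x‖ ≤ 1) →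
    (∀ r : I × I, GtW n Cw (Sum.elim (F r.1) (F r.2)) (G r)) →
    (∀ r, r ∉ B → GtW n δ (Sum.elim (F r.1) (F r.2)) (G r) ∧
      (∀ y x, gP (A r.1) (A r.2) y → gP (A r.1) (A r.2) x →
        ‖((4 * ((m : ℝ) + 1) : ℝ) : ℂ) * G r y x - (Ge ((m : ℝ) + 1)⁻¹ (gE t0) y x : ℝ)‖ ≤ δ) ∧
      ∀ i : T × S → ℕ, ∑ x, i x + 1 ≤ n → ‖𝔼 ω, ((∏ x, (‖F r.1 x ω‖ ^ 2) ^ i x : ℝ) : ℂ) *
        (F r.1 (t0, s0) ω * conj (F' r.1 ω))‖ ≤ δ) →
    𝔼 ω, (𝔼 U, gW (A U) s0 (fun _ => h0) (4 * ((m : ℝ) + 1)) (fun x => F U x ω) - 1) ^ 2 ≤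
      4 * η + C * dens B ∧
    (∀ U, 𝔼 ω, gW (A U) s0 (fun _ => h0) (4 * ((m : ℝ) + 1)) (fun x => F U x ω) ≤ C) ∧
    (on → 1 / 200 - 2 * η - dens B ≤ 𝔼 ω, 𝔼 U,
      gW (A U) s0 (fun _ => h0) (4 * ((m : ℝ) + 1)) (fun x => F U x ω) *
        ‖(1 - Complex.I) * F U (t0, s0) ω + (1 + Complex.I) * F' U ω‖ ^ 2) := by
  classical
  obtain ⟨N, hN⟩ : ∃ N : ℝ, N = (m : ℝ) + 1 := ⟨_, rfl⟩
  have hN1 : 1 ≤ N := by rw [hN]; exact le_add_of_nonneg_left (Nat.cast_nonneg m)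
  have hN0 : 0 < N := one_pos.trans_le hN1
  rw [← hN] at a2 a3 ⊢
  obtain ⟨L, hL⟩ : ∃ L : ℝ, L = 4 * N := ⟨_, rfl⟩
  have hL1 : 1 ≤ L := by rw [hL]; linarith
  rw [← hL]
  obtain ⟨d, hd⟩ : ∃ d : ℕ, d = tt * (m + 1) * (h0.natDegree + 3) := ⟨_, rfl⟩
  obtain ⟨n, hn⟩ : ∃ n : ℕ, n = d + d + 1 := ⟨_, rfl⟩
  obtain ⟨b, hb⟩ : ∃ b : ℝ, b = l1 h0 + l1 (X * h0) + l1 hh + 1 := ⟨_, rfl⟩
  have b1 := gt_l1_nonneg h0
  have b2 := gt_l1_nonneg (X * h0)
  have b3 := gt_l1_nonneg hh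
  obtain ⟨Λ, hΛ⟩ : ∃ Λ : ℝ, Λ = b ^ (tt * (m + 1)) := ⟨_, rfl⟩
  have hΛ1 : 1 ≤ Λ := by rw [hΛ]; exact one_le_pow₀ (by rw [hb]; linarith)
  obtain ⟨K, hK⟩ : ∃ K : ℝ, K = L ^ n + n ! * (n * 2 ^ n) := ⟨_, rfl⟩
  have hK0 : L ^ n ≤ K := by rw [hK]; exact le_add_of_nonneg_right (by positivity)
  have hK1 : 0 ≤ K := le_trans (by positivity) hK0
  obtain ⟨δ, d0, d1, d2⟩ := gt_small (K * (Λ * Λ)) (η / 8) (by positivity)
  refine ⟨n, δ, d0, d1, fun Cw hCw => ⟨L ^ n * (Cw + n !) * (Λ * Λ) + 2, by positivity, ?_⟩⟩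
  intro T S Ω I _ _ _ _ _ _ _ _ hT hS t0 s0 F F' A on G B hA hG1 hW hB
  have hc : Fintype.card (T × S) = tt * (m + 1) := by rw [Fintype.card_prod, hT, hS]
  let h1 : T → ℝ[X] := fun t => if t = t0 then X * h0 else h0
  have hdeg : ∀ (U : I) (h : T → ℝ[X]), (∀ t, h t = h0 ∨ h t = X * h0) →
      ∑ x, (gF (A U) s0 h x).natDegree ≤ d := fun U h hh' => by
    refine (sum_le_card_nsmul _ _ (h0.natDegree + 3) fun x _ => ?_).trans ?_
    · refine gF_ind (fun f => f.natDegree ≤ h0.natDegree + 3) _ _ _ (fun t => ?_) ?_ (by simp) x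
      · have := Polynomial.natDegree_mul_le (p := X) (q := h0)
        have := Polynomial.natDegree_X_le (R := ℝ)
        rcases hh' t with k | k <;> rw [k] <;> omega
      · have := hh_natDegree
        omega
    · rw [card_univ, hc, smul_eq_mul, hd]
  have hl1 : ∀ (U : I) (h : T → ℝ[X]), (∀ t, h t = h0 ∨ h t = X * h0) →
      0 ≤ ∏ x, l1 (gF (A U) s0 h x) ∧ ∏ x, l1 (gF (A U) s0 h x) ≤ Λ := fun U h hh' => by
    refine ⟨prod_nonneg fun _ _ => gt_l1_nonneg _, ?_⟩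
    rw [hΛ, ← hc, ← card_univ, ← prod_const]
    refine prod_le_prod (fun _ _ => gt_l1_nonneg _) fun x _ => ?_
    refine gF_ind (fun f => l1 f ≤ b) _ _ _ (fun t => ?_) ?_ ?_ x
    · rcases hh' t with k | k <;> rw [k, hb] <;> linarith
    · rw [hb]; linarith
    · rw [hb, gt_l1_one]; linarith
  have o0 : ∀ t : T, (fun _ : T => h0) t = h0 ∨ (fun _ : T => h0) t = X * h0 := fun _ => .inl rfl
  have o1 : ∀ t, h1 t = h0 ∨ h1 t = X * h0 := fun t => by
    simp only [h1]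
    split_ifs
    · exact .inr rfl
    · exact .inl rfl
  have g3 : ∑ _s : T × S, (1 : ℝ[X]).natDegree = 0 := by simp
  have hπ : |N⁻¹| ≤ 1 := by
    rw [abs_of_nonneg (by positivity)]
    exact inv_le_one_of_one_le₀ hN1
  have hE : ∀ y : (T × S) ⊕ (T × S), |gE t0 y| ≤ 1 := fun y => by
    rcases y with y | y <;> simp only [gE, Sum.elim_inl, Sum.elim_inr] <;> split_ifs <;> simp
  have hact : ∀ (U : I) (h : T → ℝ[X]) x, (gF (A U) s0 h x).natDegree ≠ 0 → A U x.1 :=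
    fun U h x k => by_contra fun k' => k (by rw [gF_off s0 h k', natDegree_one])
  have eK : L ^ n * δ + n ! * (n * 2 ^ n * δ) = K * δ := by rw [hK]; ring
  have p0 : 0 ≤ K * δ := by positivity
  have p1 : K * δ * (Λ * Λ) ≤ η / 8 := by linarith
  have p2 : K * δ * Λ ≤ η / 8 :=
    (mul_le_mul_of_nonneg_left (le_mul_of_one_le_right (by linarith) hΛ1) p0).trans p1
  have w0 : ∀ (ω : Ω) (U : I), 0 ≤ gW (A U) s0 (fun _ => h0) L fun x => F U x ω :=
    fun ω U => gW_nonneg _ _ a0 (by linarith) _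
  have p4 : 0 ≤ L ^ n * (Cw + n !) := by positivity
  have hone : ∀ r, r ∉ B → ∀ h : T → ℝ[X], (∀ t, h t = h0 ∨ h t = X * h0) →
      (∀ t, t ≠ t0 → h t = h0) →
      (if A r.1 t0 then Lq (h t0) * Lq hh ^ m else 1).coeff 0 - η / 8 ≤
        𝔼 ω, gW (A r.1) s0 h L fun x => F r.1 x ω := fun r hr h k1 k2 => by
    have k := g2_good (hB r hr).1 hL1 hπ _ hE d0.le d1 _ (hB r hr).2.1 (gF (A r.1) s0 h)
      (fun _ => 1) (hact _ _) (fun s k => (k natDegree_one).elim)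
      (by have := hdeg r.1 h k1; omega)
    simp only [gE, Sum.elim_inl, Sum.elim_inr, Le_of_one, prod_const_one, eval_one, mul_one,
      gt_l1_one, g2_cT_one] at k
    rw [gF_Le hS _ t0 s0 h fun t ht => by rw [k2 t ht, a1], eK] at k
    have k3 := mul_le_mul_of_nonneg_left (hl1 r.1 h k1).2 p0
    unfold gW
    linarith [(abs_le.1 k).1]
  refine ⟨(gt_var (fun ω U => gW (A U) s0 (fun _ => h0) L fun x => F U x ω) B (2 * η) η
    (L ^ n * (Cw + n !) * (Λ * Λ)) (fun r => ?_) fun r => ?_).trans (by linarith), fun U => ?_,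
    fun hon => ?_⟩
  · have k3 := mul_le_mul (hl1 r.1 _ o0).2 (hl1 r.2 _ o0).2 (hl1 r.2 _ o0).1 (by linarith)
    have k4 := hdeg r.1 _ o0
    have k5 := hdeg r.2 _ o0
    by_cases hr : r ∈ B
    · have k := (le_abs_self _).trans (gt_all (hW r) hL1 (hG1 r) (gF (A r.1) s0 fun _ => h0)
        (gF (A r.2) s0 fun _ => h0) (by omega))
      rw [ind_of_mem hr]
      exact (k.trans (mul_le_mul_of_nonneg_left k3 p4)).trans (by linarith)
    · have k := g2_good (hB r hr).1 hL1 hπ _ hE d0.le d1 _ (hB r hr).2.1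
        (gF (A r.1) s0 fun _ => h0) (gF (A r.2) s0 fun _ => h0) (hact _ _) (hact _ _) (by omega)
      simp only [gE, Sum.elim_inl, Sum.elim_inr] at k
      rw [gF_Le hS _ t0 s0 _ fun t _ => a1, gF_Le hS _ t0 s0 _ fun t _ => a1, eK] at k
      have k6 : ∑ t ∈ range (n + 1), cT N⁻¹ (if A r.1 t0 then Lq h0 * Lq hh ^ m else 1) t *
          cT N⁻¹ (if A r.2 t0 then Lq h0 * Lq hh ^ m else 1) t ≤ 1 + η := by
        by_cases hon : on
        · rw [if_pos ((hA _).2 hon), if_pos ((hA _).2 hon)]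
          simpa only [sq] using a2 (n + 1)
        · rw [if_neg fun k => hon ((hA _).1 k), if_neg fun k => hon ((hA _).1 k), g2_cT_one,
            coeff_one_zero]
          linarith
      have k7 := mul_le_mul_of_nonneg_left k3 p0
      rw [ind_of_not hr]
      unfold gW
      linarith [(abs_le.1 k).2]
  · by_cases hr : r ∈ B
    · rw [ind_of_mem hr]
      exact le_trans (by linarith) (expect_nonneg fun ω _ => w0 ω r.1)
    · have k := hone r hr _ o0 fun _ _ => rfl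
      have k1 : (if A r.1 t0 then Lq h0 * Lq hh ^ m else 1).coeff 0 = 1 := by
        split_ifs
        · exact a1
        · exact coeff_one_zero
      rw [ind_of_not hr]
      linarith
  · have k := (le_abs_self _).trans (gt_all (hW (U, U)) hL1 (hG1 _) (gF (A U) s0 fun _ => h0)
      (fun _ => 1) (by have := hdeg U _ o0; omega))
    simp only [eval_one, prod_const_one, mul_one, gt_l1_one, Sum.elim_inl] at k
    have k3 := mul_le_mul_of_nonneg_left
      ((hl1 U _ o0).2.trans (le_mul_of_one_le_right (by linarith) hΛ1)) p4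
    unfold gW
    linarith
  · refine le_trans (le_of_eq ?_) (gt_low (fun ω U => gW (A U) s0 (fun _ => h0) L
      (fun x => F U x ω) * ‖(1 - Complex.I) * F U (t0, s0) ω + (1 + Complex.I) * F' U ω‖ ^ 2) B
      (1 / 200 - 2 * η) fun r => ?_)
    · rfl
    by_cases hr : r ∈ B
    · rw [ind_of_mem hr]
      exact le_trans (by linarith) (expect_nonneg fun ω _ => mul_nonneg (w0 ω r.1) (sq_nonneg _))
    have k := hone r hr h1 o1 fun t ht => if_neg ht
    rw [if_pos ((hA _).2 hon), show h1 t0 = X * h0 from if_pos rfl] at k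
    simp only [h1, gW_X ((hA r.1).2 hon)] at k
    have k2 := poly_small (fun ω x => L * ‖F r.1 x ω‖ ^ 2)
      (fun ω => F r.1 (t0, s0) ω * conj (F' r.1 ω)) (K * δ) (gF (A r.1) s0 fun _ => h0)
      fun i hi => by
        have j1 : ∑ x, i x ≤ d := (sum_le_sum fun x _ => hi x).trans (hdeg r.1 _ o0)
        have j2 := (hB r hr).2.2 i (by omega)
        have j3 : ∀ ω, ((∏ x, (L * ‖F r.1 x ω‖ ^ 2) ^ i x : ℝ) : ℂ) *
            (F r.1 (t0, s0) ω * conj (F' r.1 ω)) = ((L ^ (∑ x, i x) : ℝ) : ℂ) *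
            (((∏ x, (‖F r.1 x ω‖ ^ 2) ^ i x : ℝ) : ℂ) * (F r.1 (t0, s0) ω * conj (F' r.1 ω))) :=
          fun ω => by
            simp only [mul_pow L, prod_mul_distrib, prod_pow_eq_pow_sum]
            rw [Complex.ofReal_mul, mul_assoc]
        simp only [j3]
        rw [← mul_expect, norm_mul, Complex.norm_real, Real.norm_of_nonneg (by positivity)]
        exact mul_le_mul ((pow_le_pow_right₀ hL1 (by omega)).trans hK0) j2 (norm_nonneg _) hK1
    have k3 := (k2.trans (mul_le_mul_of_nonneg_left (hl1 r.1 _ o0).2 p0)).trans p2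
    have k4 := (abs_le.1 ((Complex.abs_im_le_norm _).trans k3)).1
    rw [Complex.im_expect] at k4
    have k5 := expect_le_expect (s := univ) fun (ω : Ω) _ =>
      mul_le_mul_of_nonneg_left (g2_gain (F r.1 (t0, s0) ω) (F' r.1 ω)) (w0 ω r.1)
    have k6 : ∀ ω, gW (A r.1) s0 (fun _ => h0) L (fun x => F r.1 x ω) *
        (2 * ‖F r.1 (t0, s0) ω‖ ^ 2 + 4 * (F r.1 (t0, s0) ω * conj (F' r.1 ω)).im) =
        (2 * N)⁻¹ * (gW (A r.1) s0 (fun _ => h0) L (fun x => F r.1 x ω) *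
          (L * ‖F r.1 (t0, s0) ω‖ ^ 2)) +
        4 * (((∏ x, (gF (A r.1) s0 (fun _ => h0) x).eval (L * ‖F r.1 x ω‖ ^ 2) : ℝ) : ℂ) *
          (F r.1 (t0, s0) ω * conj (F' r.1 ω))).im := fun ω => by
      rw [Complex.im_ofReal_mul, hL]
      unfold gW
      field_simp
      ring
    simp only [k6] at k5
    rw [expect_add_distrib, ← mul_expect, ← mul_expect] at k5
    have k7 := mul_le_mul_of_nonneg_left k (by positivity : 0 ≤ (2 * N)⁻¹)
    have k8 : (2 * N)⁻¹ * (η / 8) ≤ η / 8 :=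
      mul_le_of_le_one_left (by positivity) (inv_le_one_of_one_le₀ (by linarith))
    rw [mul_sub, mul_inv, mul_assoc] at k7
    rw [mul_inv] at k5 k8
    rw [ind_of_not hr]
    linarith

end Pool.Agent.Work.MP_4523ee_co.F2
end

-- merged part: Pool.Agent.Work.MP_4523ee_co.F2.Gt2D
section
/-!
The fibred Gaussian tile: the vectors and their Gram matrices.
-/

set_option autoImplicit false
set_option linter.unusedSectionVars false

namespace Pool.Agent.Work.MP_4523ee_co.F2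

open Finset hiding dens
open Matrix Pool.Agent.Work.MP_4523ee_co.Fp
open scoped BigOperators ComplexConjugate Nat

lemma g2_perm_small {K : Type} [Fintype K] [DecidableEq K] (A : K → K → ℂ) (k0 : K) {δ : ℝ}
    (h0 : ∀ x, ‖A k0 x‖ ≤ δ) (h1 : ∀ y x, ‖A y x‖ ≤ 1) :
    ‖∑ σ : Equiv.Perm K, ∏ x, A (σ x) x‖ ≤ (Fintype.card K)! * δ := by
  refine (norm_sum_le_of_le (n := fun _ => δ) _ fun σ _ => ?_).trans ?_
  · rw [← mul_prod_erase univ _ (mem_univ (σ.symm k0)), norm_mul, Equiv.apply_symm_apply,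
      norm_prod]
    exact (mul_le_of_le_one_right (norm_nonneg _)
      (prod_le_one (fun _ _ => norm_nonneg _) fun _ _ => h1 _ _)).trans (h0 _)
  · rw [sum_const, card_univ, Fintype.card_perm, nsmul_eq_mul]

lemma g2_ip_le {α : Type} [Fintype α] {a b : α → ℂ} (ha : nsq a ≤ 1) (hb : nsq b ≤ 1) :
    ‖ip a b‖ ≤ 1 :=
  (norm_ip_le _ _).trans (mul_le_one₀ (Real.sqrt_le_one.2 ha) (Real.sqrt_nonneg _)
    (Real.sqrt_le_one.2 hb))

lemma g2_bil_le {α : Type} [Fintype α] {a b : α → ℂ} (ha : nsq a ≤ 1) (hb : nsq b ≤ 1) :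
    ‖∑ l, a l * b l‖ ≤ 1 := by
  have h := g2_ip_le ((prim_nsq_conj a).trans_le ha) hb
  simpa only [ip, Complex.conj_conj] using h

lemma gW_congr {T S : Type} [Fintype T] [DecidableEq T] [Fintype S] [DecidableEq S] (f : T ≃ T)
    {A A' : T → Prop} (hA : ∀ t, A' t ↔ A (f t)) (s0 : S) (h0 : Polynomial ℝ) (L : ℝ)
    {z z' : T × S → ℂ} (hz : ∀ t s, ‖z' (t, s)‖ = ‖z (f t, s)‖) :
    gW A' s0 (fun _ => h0) L z' = gW A s0 (fun _ => h0) L z := by
  refine Fintype.prod_equiv (f.prodCongr (Equiv.refl S)) _ _ fun ⟨t, s⟩ => ?_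
  show _ = (gF A s0 (fun _ => h0) (f t, s)).eval (L * ‖z (f t, s)‖ ^ 2)
  rw [hz]
  by_cases k : A' t
  · rw [gF_on s0 _ k, gF_on s0 _ ((hA t).1 k)]
  · rw [gF_off s0 _ (x := (t, s)) k, gF_off s0 _ (x := (f t, s)) fun k' => k ((hA t).2 k')]

variable {X : Type} [AddCommGroup X] [Module (ZMod 2) X] [Fintype X]
variable {ν μ : Type} [Fintype ν] [DecidableEq ν] [Fintype μ] [DecidableEq μ]

lemma g2_Prw_zero (β : Bil 2 X) {θ : ℝ} (hθ : 0 ≤ θ) : Prw β 1 θ (0 : (ν → X) → ℂ) := by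
  refine ⟨by simp [nsq], fun N _ _ ξ => by simp [nsq, Pj, W], fun E _ _ => ?_, ?_⟩
  · simp only [Xi, ip, Pi.zero_apply, map_zero, zero_mul, sum_const_zero, norm_zero]
    rw [zero_pow two_ne_zero, sum_const_zero]
    positivity
  · simp only [PP, Xi, ip, Pi.zero_apply, map_zero, zero_mul, sum_const_zero, norm_zero]
    rw [zero_pow (by norm_num), sum_const_zero]
    positivity

/-- half of the fourth root of unity attached to `c` and `u` -/
noncomputable def gM (β : Bil 2 X) (c : X) (u : ν → ZMod 2) (l : ν → X) : ℂ :=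
  ((1 + Complex.I) + (1 - Complex.I) * gtSg β c u l) / 4

section
variable (β : Bil 2 X) (c : X) (u : ν → ZMod 2)

lemma gM_conj (l : ν → X) :
    conj (gM β c u l) = ((1 - Complex.I) + (1 + Complex.I) * gtSg β c u l) / 4 := by
  simp only [gM, gtSg, map_div₀, map_add, map_mul, map_sub, map_one, Complex.conj_I, conj_ee2,
    map_ofNat]
  ring

lemma gM_conj_mul (l : ν → X) : conj (gM β c u l) * gM β c u l = 4⁻¹ := by
  have h : gtSg β c u l * gtSg β c u l = 1 := ee_mul_self2 _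
  rw [gM_conj, gM]
  linear_combination (1 - Complex.I ^ 2) / 16 * h +
    (-(1 - gtSg β c u l) / 8) * Complex.I_sq

lemma gM_sq (l : ν → X) : gM β c u l * gM β c u l = 4⁻¹ * gtSg β c u l := by
  have h : gtSg β c u l * gtSg β c u l = 1 := ee_mul_self2 _
  rw [gM]
  linear_combination (1 - Complex.I) ^ 2 / 16 * h + ((1 - gtSg β c u l) / 8) * Complex.I_sq

lemma gM_sum (l : ν → X) :
    (1 - Complex.I) * gM β c u l + (1 + Complex.I) * conj (gM β c u l) = 1 := by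
  rw [gM_conj, gM]
  linear_combination (-(1 - gtSg β c u l) / 2) * Complex.I_sq

lemma g2_Prw_mul (hβ : SymB β) (hn : NdB β) {K θ : ℝ} {a : (ν → X) → ℂ} (ha : Prw β K θ a)
    {z z' : ℂ} (hz : ‖z‖ ≤ 2) (hz' : ‖z'‖ ≤ 2) :
    Prw β K θ fun l => (z + z' * gtSg β c u l) / 4 * a l := by
  have h := Prw_avg2 (fun i : Bool => if i then z / 2 else z' / 2) (fun i => by
    cases i <;> simp only [Bool.false_eq_true, if_true, if_false, norm_div, Complex.norm_ofNat] <;>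
      linarith) (fun i : Bool => if i then (0 : GX X ν) else (0, fun i => u i • c)) hβ hn ha
  convert h using 2 with l
  have h1 : bt β (fun i => u i • c) l = β c (∑ i, u i • l i) := by
    simp only [bt, map_sum, map_smul, LinearMap.smul_apply]
  have h2 : bt β (0 : ν → X) l = 0 := by simp [bt]
  rw [expect_eq_sum_div_card, Fintype.sum_bool]
  simp only [Bool.false_eq_true, if_true, if_false, W2, Prod.fst_zero, Prod.snd_zero, add_zero,
    h1, h2, ee_zero, card_univ, Fintype.card_bool, gtSg]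
  push_cast
  ring

lemma g2_norm_I : ‖1 + Complex.I‖ ≤ 2 ∧ ‖1 - Complex.I‖ ≤ 2 :=
  ⟨(norm_add_le _ _).trans (by rw [norm_one, Complex.norm_I]; norm_num),
    (norm_sub_le _ _).trans (by rw [norm_one, Complex.norm_I]; norm_num)⟩

lemma gM_Prw (hβ : SymB β) (hn : NdB β) {K θ : ℝ} {a : (ν → X) → ℂ} (ha : Prw β K θ a) :
    Prw β K θ fun l => gM β c u l * a l :=
  g2_Prw_mul β c u hβ hn ha g2_norm_I.1 g2_norm_I.2

lemma gM_Prw' (hβ : SymB β) (hn : NdB β) {K θ : ℝ} {a : (ν → X) → ℂ} (ha : Prw β K θ a) :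
    Prw β K θ fun l => conj (gM β c u l) * a l := by
  simp only [gM_conj]
  exact g2_Prw_mul β c u hβ hn ha g2_norm_I.2 g2_norm_I.1

end

/-- the pieces of a family on the cube of fibres spanned by a tile -/
noncomputable def gV (a : (ν → ZMod 2) → (ν → X) → ℂ) (d : ν → ZMod 2) (U : Matrix ν μ (ZMod 2))
    (x : (μ → ZMod 2) × (μ → X)) : (ν → X) → ℂ := cut Uᵀ x.2 (a (d + U *ᵥ x.1))

/-- the active fibres -/
def gA (cst : Prop) (D : Set (ν → ZMod 2)) (d : ν → ZMod 2) (U : Matrix ν μ (ZMod 2))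
    (t : μ → ZMod 2) : Prop := (cst → t = 0) ∧ d + U *ᵥ t ∈ D

/-- labels on two tiles -/
abbrev gL (μ X : Type) := ((μ → ZMod 2) × (μ → X)) ⊕ ((μ → ZMod 2) × (μ → X))

/-- the fibre of a label -/
def gT : gL μ X → μ ⊕ μ → ZMod 2 := Sum.elim (fun x => Sum.elim x.1 0) fun x => Sum.elim 0 x.1

lemma gV_eq (a : (ν → ZMod 2) → (ν → X) → ℂ) (d : ν → ZMod 2) (U U' : Matrix ν μ (ZMod 2))
    (y : gL μ X) : Sum.elim (gV a d U) (gV a d U') y =
      gtV U U' (a (d + fromCols U U' *ᵥ gT y)) (Sum.map Prod.snd Prod.snd y) := by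
  rcases y with y | y <;>
    simp only [gV, gtV, gT, Sum.elim_inl, Sum.elim_inr, Sum.map_inl, Sum.map_inr,
      fromCols_mulVec_sumElim, mulVec_zero, add_zero, zero_add]

lemma g2_gtV (U U' : Matrix ν μ (ZMod 2)) (y : (μ → X) ⊕ (μ → X)) : ∃ ξ : (μ ⊕ μ → X) → ℂ,
    (∀ s, ‖ξ s‖ ≤ 1) ∧ (∀ s, conj (ξ s) = ξ s) ∧
      ∀ (a : (ν → X) → ℂ) l, gtV U U' a y l = ξ (act (fromCols U U')ᵀ l) * a l := by
  classical
  rcases y with y | y
  · refine ⟨fun s => if s ∘ Sum.inl = y then 1 else 0, fun s => ?_, fun s => ?_, fun a l => ?_⟩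
    · beta_reduce
      split_ifs <;> simp
    · beta_reduce
      split_ifs <;> simp
    · simp only [gtV, Sum.elim_inl, cut, gt_act_cols, Sum.elim_comp_inl]
      split_ifs <;> simp
  · refine ⟨fun s => if s ∘ Sum.inr = y then 1 else 0, fun s => ?_, fun s => ?_, fun a l => ?_⟩
    · beta_reduce
      split_ifs <;> simp
    · beta_reduce
      split_ifs <;> simp
    · simp only [gtV, Sum.elim_inr, cut, gt_act_cols, Sum.elim_comp_inr]
      split_ifs <;> simp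

section
variable {β : Bil 2 X} (hβ : SymB β) (hn : NdB β) {N δ : ℝ}
  (hN : (Fintype.card (μ → X) : ℝ) = N) (U U' : Matrix ν μ (ZMod 2))
include hN

lemma g2_card : (Fintype.card X : ℝ) ^ Fintype.card (μ ⊕ μ) = N ^ 2 := by
  rw [← hN, Fintype.card_sum, pow_add, Fintype.card_fun, sq]
  push_cast
  rfl

include hβ hn

lemma g2_bil {g p q : (ν → X) → ℂ} (h : ∀ w, ‖Tw β g (fromCols U U') w‖ ≤ δ) {z : ℂ}
    (hz : ‖z‖ ≤ 1) (hg : ∀ l, p l * q l = z * g l) (y x : (μ → X) ⊕ (μ → X)) :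
    ‖∑ l, gtV U U' p y l * gtV U U' q x l‖ ≤ N ^ 2 * δ := by
  obtain ⟨ξ, a1, -, a3⟩ := g2_gtV U U' y
  obtain ⟨ψ, b1, -, b3⟩ := g2_gtV U U' x
  have k := tw_cut hβ hn g _ h (fun s => z * (ξ s * ψ s)) fun s => by
    rw [norm_mul, norm_mul]
    exact mul_le_one₀ hz (by positivity) (mul_le_one₀ (a1 s) (norm_nonneg _) (b1 s))
  rw [g2_card hN] at k
  refine le_of_eq_of_le (congrArg _ (sum_congr rfl fun l _ => ?_)) k
  rw [a3, b3]
  linear_combination ξ (act (fromCols U U')ᵀ l) * ψ (act (fromCols U U')ᵀ l) * hg l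

lemma g2_ip {g p q : (ν → X) → ℂ} (h : ∀ w, ‖Tw β g (fromCols U U') w‖ ≤ δ) {z : ℂ}
    (hz : ‖z‖ ≤ 1) (hg : ∀ l, conj (p l) * q l = z * g l) (y x : (μ → X) ⊕ (μ → X)) :
    ‖ip (gtV U U' p y) (gtV U U' q x)‖ ≤ N ^ 2 * δ := by
  refine le_of_eq_of_le (congrArg _ (sum_congr rfl fun l _ => ?_))
    (g2_bil hβ hn hN U U' (p := fun l => conj (p l)) h hz hg y x)
  obtain ⟨ξ, -, a2, a3⟩ := g2_gtV U U' y
  rw [a3 p, a3, map_mul, a2]

variable {cst : Prop} {D : Set (ν → ZMod 2)} {a : (ν → ZMod 2) → (ν → X) → ℂ} {c : X}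
  {u d : ν → ZMod 2} (hG : Good β cst D a c δ u d (fromCols U U'))
include hG

lemma g2_G2 (y x : gL μ X) :
    ‖∑ l, Sum.elim (gV (fun v l => gM β c u l * a v l) d U)
        (gV (fun v l => gM β c u l * a v l) d U') y l *
      Sum.elim (gV (fun v l => gM β c u l * a v l) d U)
        (gV (fun v l => gM β c u l * a v l) d U') x l‖ ≤ N ^ 2 * δ := by
  rw [gV_eq, gV_eq]
  refine g2_bil hβ hn hN U U' (fun w => (hG (gT y) (gT x) w).2.2.1) (z := 4⁻¹) (by norm_num)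
    (fun l => ?_) _ _
  linear_combination a (d + fromCols U U' *ᵥ gT y) l * a (d + fromCols U U' *ᵥ gT x) l *
    gM_sq β c u l

lemma g2_G3 (y x : (μ → ZMod 2) × (μ → X)) :
    ‖ip (gV (fun v l => conj (gM β c u l) * a v l) d U y)
      (gV (fun v l => gM β c u l * a v l) d U x)‖ ≤ N ^ 2 * δ := by
  rw [show gV _ d U y = _ from gV_eq _ d U U' (Sum.inl y),
    show gV _ d U x = _ from gV_eq _ d U U' (Sum.inl x)]
  refine g2_ip hβ hn hN U U' (fun w => (hG (gT (Sum.inl y)) (gT (Sum.inl x)) w).2.2.2) (z := 4⁻¹)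
    (by norm_num) (fun l => ?_) _ _
  rw [map_mul, Complex.conj_conj]
  linear_combination conj (a (d + fromCols U U' *ᵥ gT (Sum.inl y)) l) *
    a (d + fromCols U U' *ᵥ gT (Sum.inl x)) l * gM_sq β c u l

lemma g2_G1 [DecidableEq X] (hN1 : 1 ≤ N) (hδ : 0 ≤ δ) (y x : gL μ X)
    (hy : gP (gA cst D d U) (gA cst D d U') y) (hx : gP (gA cst D d U) (gA cst D d U') x) :
    ‖((4 * N : ℝ) : ℂ) * ip (Sum.elim (gV (fun v l => gM β c u l * a v l) d U)
        (gV (fun v l => gM β c u l * a v l) d U') y)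
      (Sum.elim (gV (fun v l => gM β c u l * a v l) d U)
        (gV (fun v l => gM β c u l * a v l) d U') x) - (Ge N⁻¹ (gE 0) y x : ℝ)‖ ≤ N ^ 3 * δ := by
  have h1 : ((4 * N : ℝ) : ℂ) * ip (Sum.elim (gV (fun v l => gM β c u l * a v l) d U)
        (gV (fun v l => gM β c u l * a v l) d U') y)
      (Sum.elim (gV (fun v l => gM β c u l * a v l) d U)
        (gV (fun v l => gM β c u l * a v l) d U') x) =
      N * ip (gtV U U' (a (d + fromCols U U' *ᵥ gT y)) (Sum.map Prod.snd Prod.snd y))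
        (gtV U U' (a (d + fromCols U U' *ᵥ gT x)) (Sum.map Prod.snd Prod.snd x)) := by
    rw [gV_eq, gV_eq]
    obtain ⟨ξ, -, -, a3⟩ := g2_gtV U U' (Sum.map Prod.snd Prod.snd y)
    obtain ⟨ψ, -, -, b3⟩ := g2_gtV U U' (Sum.map Prod.snd Prod.snd x)
    simp only [ip, mul_sum, a3, b3, map_mul]
    refine sum_congr rfl fun l _ => ?_
    push_cast
    linear_combination 4 * (N : ℂ) * (conj (ξ (act (fromCols U U')ᵀ l)) *
      conj (a (d + fromCols U U' *ᵥ gT y) l) * ψ (act (fromCols U U')ᵀ l) *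
      a (d + fromCols U U' *ᵥ gT x) l) * gM_conj_mul β c u l
  have z1 : ∀ t t' : μ → ZMod 2, Sum.elim t (0 : μ → ZMod 2) = Sum.elim (0 : μ → ZMod 2) t' ↔
      t = 0 ∧ t' = 0 := fun t t' => by rw [Sum.elim_eq_iff, eq_comm (a := 0)]
  have z2 : ∀ t t' : μ → ZMod 2, Sum.elim (0 : μ → ZMod 2) t = Sum.elim t' (0 : μ → ZMod 2) ↔
      t = 0 ∧ t' = 0 := fun t t' => by rw [Sum.elim_eq_iff, eq_comm (a := 0), and_comm]
  rw [h1]
  by_cases k : gT y = gT x
  · have h2 : d + fromCols U U' *ᵥ gT x ∈ D := by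
      rcases x with x | x <;>
        simpa only [gT, Sum.elim_inl, Sum.elim_inr, fromCols_mulVec_sumElim, mulVec_zero, add_zero,
          zero_add] using hx.2
    have h3 : Ge N⁻¹ (gE 0) y x =
        Cm N⁻¹ (Sum.map Prod.snd Prod.snd y) (Sum.map Prod.snd Prod.snd x) := by
      rcases y with ⟨t, s⟩ | ⟨t, s⟩ <;> rcases x with ⟨t', s'⟩ | ⟨t', s'⟩ <;>
        simp only [gT, Sum.elim_inl, Sum.elim_inr, z1, z2] at k <;>
        simp only [Ge, gE, Cm, Sum.map_inl, Sum.map_inr, Sum.elim_inl, Sum.elim_inr, Prod.mk.injEq]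
      · simp only [(Sum.elim_eq_iff.1 k).1, true_and]
      · simp only [k.1, k.2, if_true, mul_one]
      · simp only [k.1, k.2, if_true, mul_one]
      · simp only [(Sum.elim_eq_iff.1 k).2, true_and]
    rw [h3, k]
    refine (gt_gram hN hN1 hδ U U' _ (fun s => ?_) _ _).trans
      (mul_le_mul_of_nonneg_right (pow_le_pow_right₀ hN1 (by norm_num)) hδ)
    rw [← g2_card hN]
    exact (hG (gT x) (gT x) s).1 h2
  · have h2 : ¬ cst := fun h => k (by
      rcases y with y | y <;> rcases x with x | x <;>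
        simp only [gT, Sum.elim_inl, Sum.elim_inr, hy.1 h, hx.1 h])
    have h3 : Ge N⁻¹ (gE 0) y x = 0 := by
      rcases y with ⟨t, s⟩ | ⟨t, s⟩ <;> rcases x with ⟨t', s'⟩ | ⟨t', s'⟩ <;>
        simp only [gT, Sum.elim_inl, Sum.elim_inr, z1, z2] at k <;>
        simp only [Ge, gE, Sum.elim_inl, Sum.elim_inr, Prod.mk.injEq]
      · exact if_neg fun h => k (by rw [h.1])
      · by_cases h : t = 0
        · rw [if_neg fun h' : t' = 0 => k ⟨h, h'⟩, mul_zero, mul_zero]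
        · rw [if_neg h, zero_mul, mul_zero]
      · by_cases h : t = 0
        · rw [if_neg fun h' : t' = 0 => k ⟨h, h'⟩, mul_zero, mul_zero]
        · rw [if_neg h, zero_mul, mul_zero]
      · exact if_neg fun h => k (by rw [h.1])
    rw [h3, Complex.ofReal_zero, sub_zero, norm_mul, Complex.norm_real,
      Real.norm_of_nonneg (zero_le_one.trans hN1), show N ^ 3 * δ = N * (N ^ 2 * δ) by ring]
    exact mul_le_mul_of_nonneg_left (g2_ip hβ hn hN U U' (fun w => (hG (gT y) (gT x) w).2.1 h2 k)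
      norm_one.le (fun l => (one_mul _).symm) _ _) (zero_le_one.trans hN1)

end

end Pool.Agent.Work.MP_4523ee_co.F2
end

-- merged part: Pool.Agent.Work.MP_4523ee_co.F2.GT2
section
/-!
The fibred Gaussian tile in characteristic two.
-/

set_option autoImplicit false
set_option linter.unusedSectionVars false

namespace Pool.Agent.Work.MP_4523ee_co.F2

open Finset hiding dens
open Matrix Pool.Agent.Work.MP_4523ee_co.Fp
open scoped BigOperators ComplexConjugate Nat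

lemma g2_extra {S Ω α : Type} [Fintype S] [DecidableEq S] [Fintype Ω] [Fintype α]
    (Φ : (α → ℂ) → Ω → ℂ) (V : S → α → ℂ) (V' : α → ℂ) (s0 : S) (i : S → ℕ) {c δ : ℝ}
    (hV : ∀ s, nsq (V s) ≤ 1) (hV' : nsq V' ≤ 1) (h : ∀ s, ‖ip V' (V s)‖ ≤ δ)
    (hW : ‖𝔼 ω, ∏ o : Option (Σ s, Fin (i s)), (Φ (V (o.elim s0 Sigma.fst)) ω *
        conj (Φ (o.elim V' fun z => V z.1) ω)) - ∑ σ : Equiv.Perm (Option (Σ s, Fin (i s))),
        ∏ o, ip ((σ o).elim V' fun z => V z.1) (V (o.elim s0 Sigma.fst))‖ ≤ c) :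
    ‖𝔼 ω, ((∏ s, (‖Φ (V s) ω‖ ^ 2) ^ i s : ℝ) : ℂ) * (Φ (V s0) ω * conj (Φ V' ω))‖ ≤
      c + (∑ s, i s + 1)! * δ := by
  have h1 := g2_perm_small (fun y x : Option (Σ s, Fin (i s)) =>
    ip (y.elim V' fun z => V z.1) (V (x.elim s0 Sigma.fst))) none (fun x => h _)
    fun y x => g2_ip_le (by
      rcases y with _ | y
      · exact hV'
      · exact hV _) (hV _)
  have h2 : Fintype.card (Option (Σ s, Fin (i s))) = ∑ s, i s + 1 := by
    simp only [Fintype.card_option, Fintype.card_sigma, Fintype.card_fin]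
  rw [h2] at h1
  refine le_of_eq_of_le (congrArg _ (expect_congr rfl fun ω _ => ?_))
    ((norm_le_norm_sub_add _ _).trans (add_le_add hW h1))
  rw [Fintype.prod_option, Fintype.prod_sigma, mul_comm]
  simp only [Option.elim_none, Option.elim_some, prod_const, card_univ, Fintype.card_fin,
    Complex.mul_conj']
  push_cast
  rfl

/-- the conclusion for spaces of a given size -/
def GtC2 (q r J : ℕ) (ε θ C : ℝ) : Prop :=
  ∀ (X : Type) [AddCommGroup X] [Module (ZMod 2) X] [Fintype X] [Nontrivial X],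
    Fintype.card X = q → ∀ (ν : Type) [Fintype ν] [DecidableEq ν] (b : Bil 2 X), NdB (pol b) →
    ∀ (κ : Matrix (Fin r) ν (ZMod 2)) (e : Fin r → X),
    Submodule.span (ZMod 2) (Set.range e) = ⊤ →
    ∀ (cst : Prop) (a : (ν → ZMod 2) → (ν → X) → ℂ) (D : Set (ν → ZMod 2)),
    (∀ v ∈ D, nsq (a v) = 1 ∧ OnSl κ e (a v) ∧ Prim (pol b) θ (a v) ∧ Pos (pol b) θ (a v)) →
    (∀ v, v ∉ D → a v = 0) → (∀ v y, a (v + κᵀ *ᵥ y) = a v) →
    (∀ v y, v + κᵀ *ᵥ y ∈ D ↔ v ∈ D) → (cst → D = Set.univ ∧ ∀ v v', a v = a v') →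
    (¬ cst → SP (pol b) θ Set.univ a) →
    ∀ n : (ν → ZMod 2) → ℝ, (∀ v, 0 ≤ n v ∧ n v ≤ 1) →
    ∃ w : SymM 2 ν → Matrix ν (Fin J) (ZMod 2) → ℝ, (∀ M U, 0 ≤ w M U) ∧
      (∀ M U (N : SymM 2 (Fin r ⊕ Fin J)), w (M + cj (fromCols κᵀ U) N) U = w M U) ∧
      (∀ U, SlInv b κ e fun M => w M U) ∧
      𝔼 M, (𝔼 U, w M U - 1) ^ 2 ≤ ε ^ 2 ∧ (∀ U, 𝔼 M, w M U ≤ C) ∧
      (200 : ℝ)⁻¹ * (𝔼 v, ind D v * n v) - ε ≤ 𝔼 M, 𝔼 U, w M U *
        (ind D (dg M) * n (dg M) * ‖FF b (cut Uᵀ 0 (a (dg M))) M‖ ^ 2)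

lemma g2_main (ε η : ℝ) (hη : 0 < η) (hη1 : 3 * η ≤ ε) (hη2 : 5 * η ≤ ε ^ 2) (q r J m : ℕ)
    (hm : q ^ J = m + 1) (h0 : Polynomial ℝ) (a0 : ∀ x, 0 ≤ x → 0 ≤ h0.eval x)
    (a1 : (Lq h0 * Lq hh ^ m).coeff 0 = 1)
    (a2 : ∀ T, ∑ t ∈ range T, cT ((m : ℝ) + 1)⁻¹ (Lq h0 * Lq hh ^ m) t ^ 2 ≤ 1 + η)
    (a3 : 1 / 100 - η ≤ ((m : ℝ) + 1)⁻¹ * (Lq (Polynomial.X * h0) * Lq hh ^ m).coeff 0) :
    ∃ θ : ℝ, 0 < θ ∧ ∃ C : ℝ, 0 < C ∧ GtC2 q r J ε θ C := by
  classical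
  obtain ⟨n, δ, d0, d1, hM⟩ := g2_model η hη m (2 ^ J) h0 a0 a1 a2 a3
  obtain ⟨Cw, hCw, hW⟩ := wick2 n q 1 le_rfl
  obtain ⟨C, hC, hM⟩ := hM (Cw * 2) (by positivity)
  obtain ⟨N, hN⟩ : ∃ N : ℝ, N = (m : ℝ) + 1 := ⟨_, rfl⟩
  have hN1 : 1 ≤ N := by rw [hN]; exact le_add_of_nonneg_left (Nat.cast_nonneg m)
  rw [← hN] at hM
  obtain ⟨δ0, e0, -, e2⟩ := gt_small ((Cw + n ! + 1) * N ^ 3) (δ / 2) (by positivity)
  have e3 : N ^ 2 * δ0 ≤ N ^ 3 * δ0 :=
    mul_le_mul_of_nonneg_right (pow_le_pow_right₀ hN1 (by norm_num)) e0.le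
  have e4 : 0 ≤ N ^ 2 * δ0 := by positivity
  have e5 := mul_le_mul_of_nonneg_left e3 hCw.le
  have e6 := mul_le_mul_of_nonneg_left e3 (Nat.cast_nonneg (α := ℝ) n !)
  have e7 : 0 ≤ Cw * (N ^ 2 * δ0) := by positivity
  have e8 : 0 ≤ (n ! : ℝ) * (N ^ 2 * δ0) := by positivity
  obtain ⟨P, hP⟩ : ∃ P : ℝ, P = 4 ^ (J + J) * N ^ 2 * ((q ^ 2 + 3) / δ0 ^ 2) := ⟨_, rfl⟩
  have hP0 : 0 ≤ P := by rw [hP]; positivity
  obtain ⟨ρ, r0, r1, r2⟩ := gt_small (Cw + (C + 1) * P) (min (δ / 2) η) (by positivity)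
  have r3 : ρ ^ 8 ≤ ρ := pow_le_of_le_one r0.le r1 (by norm_num)
  have r4 : √(ρ ^ 8) = ρ ^ 4 := by
    rw [show ρ ^ 8 = (ρ ^ 4) ^ 2 by ring, Real.sqrt_sq (by positivity)]
  have r5 : √(√(ρ ^ 4)) = ρ := by
    rw [show ρ ^ 4 = (ρ ^ 2) ^ 2 by ring, Real.sqrt_sq (sq_nonneg _), Real.sqrt_sq r0.le]
  have r6 : 0 ≤ Cw * ρ := by positivity
  have r7 : 0 ≤ C * (P * ρ) := by positivity
  have r8 : 0 ≤ P * ρ := by positivity
  have r9 : Cw * ρ ≤ δ / 2 := by nlinarith [min_le_left (δ / 2) η]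
  have r10 : C * (P * ρ) + P * ρ ≤ η := by nlinarith [min_le_right (δ / 2) η]
  refine ⟨ρ ^ 8, by positivity, C, hC, ?_⟩
  intro X _ _ _ _ hq ν _ _ b hn κ e he cst a D ha ha0 hκ hκD hc hSP nn hnn
  have hβ := pol_sym b
  have hS : Fintype.card (Fin J → X) = m + 1 := by
    rw [Fintype.card_fun, Fintype.card_fin, hq, hm]
  have hS' : (Fintype.card (Fin J → X) : ℝ) = N := by rw [hS, hN]; push_cast; rfl
  have hT : Fintype.card (Fin J → ZMod 2) = 2 ^ J := by
    rw [Fintype.card_fun, Fintype.card_fin, ZMod.card]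
  have hall : ∀ v, Prw (pol b) 1 (ρ ^ 4) (a v) ∧ OnSl κ e (a v) ∧ Pos (pol b) (ρ ^ 8) (a v) :=
    fun v => by
      by_cases hv : v ∈ D
      · exact ⟨r4 ▸ Prw_of_Prim hβ (by positivity) (r3.trans r1) (ha v hv).2.2.1, (ha v hv).2.1,
          (ha v hv).2.2.2⟩
      · rw [ha0 v hv]
        refine ⟨g2_Prw_zero _ (by positivity), fun l h => (h rfl).elim, fun c _ z => ?_⟩
        simp only [Pi.zero_apply, norm_zero, zero_pow two_ne_zero, mul_zero, sum_const_zero]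
        positivity
  obtain ⟨c, hc0⟩ := exists_ne (0 : X)
  obtain ⟨u, hu⟩ := g2_bad (ν' := Fin J ⊕ Fin J) hn he cst D a (by positivity : 0 ≤ ρ ^ 8)
    (fun v hv => ⟨(ha v hv).1, (ha v hv).2.1⟩) (fun v => (hall v).1.1) (fun v => (hall v).2.2)
    hSP hc0 e0
  let B : (ν → ZMod 2) → Set (Matrix ν (Fin J) (ZMod 2) × Matrix ν (Fin J) (ZMod 2)) := fun d =>
    {r | ¬ Good (pol b) cst D a c δ0 u d (fromCols r.1 r.2)}
  have hB : 𝔼 M : SymM 2 ν, dens (B (dg M)) ≤ P * ρ := by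
    rw [expect_dg fun d => dens (B d)]
    rw [g2_card hS', hq, Fintype.card_sum, Fintype.card_fin] at hu
    refine le_trans (le_of_eq (expect_congr rfl fun d _ => gt_dens
      {U | ¬ Good (pol b) cst D a c δ0 u d U})) (hu.trans ?_)
    rw [hP, mul_assoc _ _ ρ, div_mul_eq_mul_div]
    exact mul_le_mul_of_nonneg_left (div_le_div_of_nonneg_right
      (mul_le_mul_of_nonneg_left r3 (by positivity)) (by positivity)) (by positivity)
  let p : (ν → ZMod 2) → (ν → X) → ℂ := fun v l => gM (pol b) c u l * a v l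
  let p' : (ν → ZMod 2) → (ν → X) → ℂ := fun v l => conj (gM (pol b) c u l) * a v l
  have hp0 : ∀ v, OnSl κ e (p v) := fun v l h => (hall v).2.1 l (right_ne_zero_of_mul h)
  have hp : ∀ d (U : Matrix ν (Fin J) (ZMod 2)) x,
      Prw (pol b) 1 (ρ ^ 4) (gV p d U x) ∧ OnSl κ e (gV p d U x) := fun d U x =>
    ⟨Prw_cut2 hβ hn (gM_Prw _ c u hβ hn (hall _).1) _ _, (hp0 _).cut _ _⟩
  have hp' : ∀ d (U : Matrix ν (Fin J) (ZMod 2)) x,
      Prw (pol b) 1 (ρ ^ 4) (gV p' d U x) ∧ OnSl κ e (gV p' d U x) := fun d U x =>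
    ⟨Prw_cut2 hβ hn (gM_Prw' _ c u hβ hn (hall _).1) _ _,
      OnSl.cut (fun l h => (hall _).2.1 l (right_ne_zero_of_mul h)) _ _⟩
  have hp2 : ∀ d (U U' : Matrix ν (Fin J) (ZMod 2)) y,
      Prw (pol b) 1 (ρ ^ 4) (Sum.elim (gV p d U) (gV p d U') y) ∧
        OnSl κ e (Sum.elim (gV p d U) (gV p d U') y) := fun d U U' y => by
    rcases y with y | y <;> exact hp _ _ _
  have hW' := fun (K₀ : Type) [Fintype K₀] [DecidableEq K₀] (hK : Fintype.card K₀ ≤ n) (de : ℝ)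
      (hde : 0 ≤ de) => hW X hq.le K₀ hK ν b _ (Pol_pol b) hn (ρ ^ 4) de (by positivity)
        (pow_le_one₀ r0.le r1) hde _ κ e he
  rw [r5] at hW'
  have hG : ∀ (M0 : SymM 2 ν) d (U U' : Matrix ν (Fin J) (ZMod 2)) (de : ℝ), 0 ≤ de →
      (∀ y x, ‖∑ l, Sum.elim (gV p d U) (gV p d U') y l * Sum.elim (gV p d U) (gV p d U') x l‖ ≤
        de) → ∀ c', Cw * (ρ + de) ≤ c' → GtW n c'
        (Sum.elim (fun x (A : AltM ν) => FF b (gV p d U x) (M0 + A.1))
          fun x (A : AltM ν) => FF b (gV p d U' x) (M0 + A.1))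
        fun y x => ip (Sum.elim (gV p d U) (gV p d U') y) (Sum.elim (gV p d U) (gV p d U') x) :=
    fun M0 d U U' de hde h c' hc' i i' hi => by
      refine le_of_eq_of_le ?_ ((hW' _ ((gt_card i i').trans_le hi) de hde
        (fun x => Sum.elim (gV p d U) (gV p d U') (lab i i' x))
        (fun x => Sum.elim (gV p d U) (gV p d U') (lab i i' x)) (fun x => hp2 _ _ _ _)
        (fun x => hp2 _ _ _ _) (fun _ _ _ => h _ _) M0).trans hc')
      congr 2
      refine expect_congr rfl fun A _ => prod_congr rfl fun x _ => ?_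
      rcases lab i i' x with y | y <;> rfl
  let w : SymM 2 ν → Matrix ν (Fin J) (ZMod 2) → ℝ := fun M U =>
    gW (gA cst D (dg M) U) 0 (fun _ => h0) (4 * N) fun x => FF b (gV p (dg M) U x) M
  have w0 : ∀ M U, 0 ≤ w M U := fun M U => gW_nonneg _ _ a0 (by linarith) _
  have hb0 : ∀ (M : SymM 2 ν) d (U : Matrix ν (Fin J) (ZMod 2)),
      (1 - Complex.I) * FF b (gV p d U (0, 0)) M + (1 + Complex.I) * FF b (gV p' d U (0, 0)) M =
        FF b (cut Uᵀ 0 (a d)) M := fun M d U => by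
    simp only [FF, gV, mulVec_zero, add_zero, mul_sum, ← sum_add_distrib]
    refine sum_congr rfl fun l _ => ?_
    unfold cut
    split_ifs
    · simp only [p, p']
      linear_combination a d l * chi b M l * gM_sum (pol b) c u l
    · simp
  have key : ∀ M0 : SymM 2 ν,
      𝔼 A : AltM ν, (𝔼 U, w (M0 + A.1) U - 1) ^ 2 ≤ 4 * η + C * dens (B (dg M0)) ∧
      (∀ U, 𝔼 A : AltM ν, w (M0 + A.1) U ≤ C) ∧
      (dg M0 ∈ D → 1 / 200 - 2 * η - dens (B (dg M0)) ≤ 𝔼 A : AltM ν, 𝔼 U, w (M0 + A.1) U *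
        ‖FF b (cut Uᵀ 0 (a (dg M0))) (M0 + A.1)‖ ^ 2) := fun M0 => by
    have k := hM (Fin J → ZMod 2) (Fin J → X) (AltM ν) (Matrix ν (Fin J) (ZMod 2)) hT hS 0 0
      (fun U x A => FF b (gV p (dg M0) U x) (M0 + A.1))
      (fun U A => FF b (gV p' (dg M0) U (0, 0)) (M0 + A.1)) (gA cst D (dg M0)) (dg M0 ∈ D)
      (fun r y x => ip (Sum.elim (gV p (dg M0) r.1) (gV p (dg M0) r.2) y)
        (Sum.elim (gV p (dg M0) r.1) (gV p (dg M0) r.2) x)) (B (dg M0))
      (fun U => by simp only [gA, mulVec_zero, add_zero, implies_true, true_and])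
      (fun r y x => g2_ip_le (hp2 _ _ _ _).1.1 (hp2 _ _ _ _).1.1)
      (fun r => hG M0 _ r.1 r.2 1 zero_le_one
        (fun y x => g2_bil_le (hp2 _ _ _ _).1.1 (hp2 _ _ _ _).1.1) _
        (mul_le_mul_of_nonneg_left (by linarith) hCw.le))
      fun r hr => by
        have hg : Good (pol b) cst D a c δ0 u (dg M0) (fromCols r.1 r.2) := not_not.1 hr
        have g2 := g2_G2 hβ hn hS' r.1 r.2 hg
        refine ⟨hG M0 _ r.1 r.2 _ e4 g2 _ (by linarith), fun y x hy hx =>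
          (g2_G1 hβ hn hS' r.1 r.2 hg hN1 e0.le y x hy hx).trans (by linarith), fun i hi => ?_⟩
        refine (g2_extra (fun v (A : AltM ν) => FF b v (M0 + A.1)) (gV p (dg M0) r.1)
          (gV p' (dg M0) r.1 (0, 0)) (0, 0) i (fun s => (hp _ _ _).1.1) (hp' _ _ _).1.1
          (fun s => g2_G3 hβ hn hS' r.1 r.2 hg _ s) (hW' _ (by
            simpa only [Fintype.card_option, Fintype.card_sigma, Fintype.card_fin] using hi) _ e4
            _ _ (fun o => hp _ _ _) (fun o => ?_)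
            (fun o o' _ => g2 (Sum.inl _) (Sum.inl _)) M0)).trans ?_
        · rcases o with _ | o
          · exact hp' _ _ _
          · exact hp _ _ _
        · have := mul_le_mul_of_nonneg_right (Nat.cast_le (α := ℝ).2 (Nat.factorial_le hi)) e4
          linarith
    simp only [hb0] at k
    simpa only [w, dg_add_alt] using k
  refine ⟨w, w0, fun M U N' => ?_, fun U M M' h1 h2 => ?_, ?_, fun U => ?_, ?_⟩
  · have h1 : ∀ t, dg (M + cj (fromCols κᵀ U) N') + U *ᵥ t =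
        dg M + U *ᵥ (t + dg N' ∘ Sum.inr) + κᵀ *ᵥ (dg N' ∘ Sum.inl) := fun t => by
      rw [dg_add, dg_cj, fromCols_mulVec, mulVec_add]
      abel
    by_cases k : cst
    · refine gW_congr (Equiv.refl _) (fun t => ?_) _ _ _ fun t s => ?_
      · simp only [gA, (hc k).1, Set.mem_univ, Equiv.refl_apply]
      · rw [gt_tile b (hp _ _ _).2 (OnSl_cut _ _ _)]
        simp only [gV, p, Equiv.refl_apply, (hc k).2 _ 0]
    · refine gW_congr (Equiv.addRight (dg N' ∘ Sum.inr)) (fun t => ?_) _ _ _ fun t s => ?_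
      · simp only [gA, k, false_imp_iff, true_and, h1, hκD, Equiv.coe_addRight]
      · rw [gt_tile b (hp _ _ _).2 (OnSl_cut _ _ _)]
        simp only [gV, p, h1, hκ, Equiv.coe_addRight]
  · simp only [w, h1]
    congr 1
    funext x
    refine sum_congr rfl fun l _ => ?_
    by_cases k : gV p (dg M') U x l = 0
    · rw [k, zero_mul, zero_mul]
    · rw [h2 l ((hp _ _ _).2 l k)]
  · rw [expect_fibre]
    refine (expect_le_expect fun M0 _ => (key M0).1).trans ?_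
    rw [expect_add_distrib, expect_const univ_nonempty, ← mul_expect]
    have := mul_le_mul_of_nonneg_left hB hC.le
    linarith
  · rw [expect_fibre]
    exact expect_le univ_nonempty fun M0 _ => (key M0).2.1 U
  · rw [expect_fibre, ← expect_dg fun v => ind D v * nn v]
    refine le_trans ?_ (expect_le_expect (f := fun M0 => 200⁻¹ * (ind D (dg M0) * nn (dg M0)) -
      2 * η - dens (B (dg M0))) fun M0 _ => ?_)
    · rw [expect_sub_distrib, expect_sub_distrib, expect_const univ_nonempty, ← mul_expect]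
      linarith
    have k0 : 0 ≤ dens (B (dg M0)) := expect_nonneg fun _ _ => l0_ind_nonneg _ _
    simp only [dg_add_alt]
    by_cases k : dg M0 ∈ D
    · have k1 := mul_le_mul_of_nonneg_left ((key M0).2.2 k) (hnn (dg M0)).1
      have k2 := mul_le_of_le_one_left (by linarith : 0 ≤ 2 * η + dens (B (dg M0)))
        (hnn (dg M0)).2
      simp only [mul_expect] at k1
      simp only [ind_of_mem k, one_mul, mul_left_comm _ (nn (dg M0))]
      linarith
    · simp only [ind_of_not k, zero_mul, mul_zero, expect_const univ_nonempty]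
      linarith

theorem GT2_core (k r : ℕ) : GTcore k r := by
  intro ε hε
  have hη : 0 < min (ε / 3) (ε ^ 2 / 5) := lt_min (by positivity) (by positivity)
  obtain ⟨m0, hm0⟩ := weight_norm _ hη
  refine ⟨m0, fun J hJ => ?_⟩
  have key : ∀ q : ℕ, ∃ θ : ℝ, 0 < θ ∧ ∃ C : ℝ, 0 < C ∧ GtC2 q r J ε θ C := fun q => by
    by_cases hq : 1 < q
    · have h1 : J < q ^ J := Nat.lt_pow_self hq
      obtain ⟨h0, a0, a1, a2, a3⟩ := hm0 (q ^ J - 1) (by omega)
      exact g2_main ε _ hη (by linarith [min_le_left (ε / 3) (ε ^ 2 / 5)])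
        (by linarith [min_le_right (ε / 3) (ε ^ 2 / 5)]) q r J _ (by omega) h0 a0 a1 a2 a3
    · exact ⟨1, one_pos, 1, one_pos, fun X _ _ _ _ h => absurd (h ▸ Fintype.one_lt_card) hq⟩
  choose θ hθ C hC h using key
  obtain ⟨q0, -, h0⟩ := (range (k + 1)).exists_min_image θ nonempty_range_add_one
  obtain ⟨q1, -, h1⟩ := (range (k + 1)).exists_max_image C nonempty_range_add_one
  refine ⟨θ q0, hθ q0, C q1, hC q1, ?_⟩
  intro X _ _ _ _ hk ν _ _ b hn κ e he cst a D ha ha0 hκ hκD hc hSP n hnn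
  have hk' := mem_range.2 (Nat.lt_succ_of_le hk)
  obtain ⟨w, b1, b2, b3, b4, b5, b6⟩ := h _ X rfl ν b hn κ e he cst a D
    (fun v hv => ⟨(ha v hv).1, (ha v hv).2.1, (ha v hv).2.2.1.mono (hθ q0).le (h0 _ hk'),
      fun c hc z => ((ha v hv).2.2.2 c hc z).trans (h0 _ hk')⟩) ha0 hκ hκD hc
    (fun k c => (hSP k c).trans (h0 _ hk')) n hnn
  exact ⟨w, b1, b2, b3, b4, fun U => (b5 U).trans (h1 _ hk'), b6⟩

/-- the fibred Gaussian tile -/
theorem GT2 (k r : ℕ) : GTout k r := GT2_of_core (GT2_core k r)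

end Pool.Agent.Work.MP_4523ee_co.F2
end
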