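import Mathlib
import Pool.Agent.Work.MP_4523ee_co.F2.AlA
import Pool.Agent.Work.MP_4523ee_co.Fp.End
import Pool.Agent.Work.MP_4523ee_co.Fp.StD
import Pool.Agent.Work.MP_4523ee_co.F2.Inv2

-- merged part: Pool.Agent.Work.MP_4523ee_co.F2.Four2
section
/-!
Characters of half forms, levels on tiles, the factorisation identity and the isometries.
-/

set_option autoImplicit false
set_option linter.unusedSectionVars false

namespace Pool.Agent.Work.MP_4523ee_co.F2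

open Finset hiding dens
open Matrix Pool.Agent.Work.MP_4523ee_co.Fp
open scoped BigOperators ComplexConjugate

section one
variable {X : Type} [AddCommGroup X] [Module (ZMod 2) X]
variable {ν ν' : Type} [Fintype ν] [DecidableEq ν] [Fintype ν'] [DecidableEq ν']

lemma f2_conj_ee (t : ZMod 2) : conj (ee t) = ee t := by rw [conj_ee, CharTwo.neg_eq]

lemma f2_ee_sq (t : ZMod 2) : ee t * ee t = 1 := by
  rw [← ee_add, CharTwo.add_self_eq_zero, ee_zero]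

lemma gram_pol (b : Bil 2 X) (l : ν → X) : gram b l + (gram b l)ᵀ = gram (pol b) l := by
  ext i j
  rfl

lemma conj_chi (b : Bil 2 X) (M : SymM 2 ν) (l : ν → X) : conj (chi b M l) = chi b M l :=
  f2_conj_ee _

lemma chi_sq (b : Bil 2 X) (M : SymM 2 ν) (l : ν → X) : chi b M l * chi b M l = 1 := f2_ee_sq _

lemma chi_addM (b : Bil 2 X) (M N : SymM 2 ν) (l : ν → X) :
    chi b (M + N) l = chi b M l * chi b N l := chQ_add _ _ _

lemma bt_pol (b : Bil 2 X) (u v : ν → X) : bt (pol b) u v = bt b u v + bt b v u := by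
  simp only [bt, pol_apply, sum_add_distrib]

lemma chi_addP (b : Bil 2 X) (M : SymM 2 ν) (l u : ν → X) :
    chi b M (l + u) = chi b M l * chi b M u * ee (bt (pol b) (act M.1 u) l) := by
  rw [chi_eq, chi_eq, chi_eq, ← ee_add, ← ee_add, act_add, bt_add_left, bt_add_right, bt_add_right,
    bt_pol]
  have h2 : bt b u (act M.1 l) = bt b (act M.1 u) l := by rw [bt_act, SymM_T]
  rw [h2]
  congr 1
  ring

/-- a matrix that is symmetric with zero diagonal pairs trivially with symmetric matrices -/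
lemma chQ_alt2 (Q : Matrix ν ν (ZMod 2)) (h : ∀ i j, Q i j = Q j i) (h0 : ∀ i, Q i i = 0)
    (M : SymM 2 ν) : chQ Q M = 1 := by
  have hs : ∀ i j, M.1 i j = M.1 j i := fun s t => (congrFun (congrFun (SymM_T M) s) t).symm
  have e : ∑ i, ∑ j, M.1 i j * Q i j = 0 := by
    rw [← sum_product', univ_product_univ]
    refine sum_involution (fun q _ => q.swap) (fun q _ => ?_) (fun q _ hq e => hq ?_)
      (fun _ _ => mem_univ _) fun q _ => Prod.swap_swap q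
    · rw [Prod.fst_swap, Prod.snd_swap, hs q.2, h q.2]
      exact CharTwo.add_self_eq_zero _
    · have : q.2 = q.1 := congrArg Prod.fst e
      rw [this, h0, mul_zero]
  rw [chQ, e, ee_zero]

/-- the characters depend only on the quadratic form -/
lemma chi_congr {X' : Type} [AddCommGroup X'] [Module (ZMod 2) X'] {b : Bil 2 X} {b' : Bil 2 X'}
    {l : ν → X} {l' : ν → X'} (h : ∀ i, b (l i) (l i) = b' (l' i) (l' i))
    (h' : ∀ i j, pol b (l i) (l j) = pol b' (l' i) (l' j)) (M : SymM 2 ν) :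
    chi b M l = chi b' M l' := by
  have e : gram b l = gram b' l' + (gram b l + gram b' l') := by
    ext i j
    simp only [Matrix.add_apply]
    rw [add_comm (gram b l i j), ← add_assoc, CharTwo.add_self_eq_zero, zero_add]
  rw [chi, e, add_chQ, chQ_alt2 (gram b l + gram b' l') (fun i j => ?_) (fun i => ?_), mul_one, chi]
  · have := h' i j
    simp only [pol_apply] at this
    simp only [Matrix.add_apply, Fp.gram, of_apply]
    have h2 : ∀ a b c d : ZMod 2, a + b = c + d → a + c = b + d := by decide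
    exact h2 _ _ _ _ this
  · simp only [Matrix.add_apply, Fp.gram, of_apply, h i]
    exact CharTwo.add_self_eq_zero _

/-- the half form twisted by the linear form `pol b c` -/
def tw (b : Bil 2 X) (c : X) : Bil 2 X :=
  b + (LinearMap.mul (ZMod 2) (ZMod 2)).compl₁₂ (pol b c) (pol b c)

lemma tw_apply (b : Bil 2 X) (c x y : X) : tw b c x y = b x y + pol b c x * pol b c y := rfl

lemma pol_tw (b : Bil 2 X) (c : X) : pol (tw b c) = pol b := by
  refine LinearMap.ext₂ fun x y => ?_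
  rw [pol_apply, tw_apply, tw_apply, pol_apply b x y, mul_comm (pol b c y)]
  have h2 : ∀ a b c : ZMod 2, a + c + (b + c) = a + b := by decide
  exact h2 _ _ _

lemma chi_tw (b : Bil 2 X) (c : X) (M : SymM 2 ν) (l : ν → X) :
    chi (tw b c) M l = chi b M l * ee (pol b c (∑ i, dg M i • l i)) := by
  have e : gram (tw b c) l = gram b l + diagonal (fun i => pol b c (l i)) +
      (Matrix.of (fun i j => pol b c (l i) * pol b c (l j)) + diagonal fun i => pol b c (l i)) := by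
    ext i j
    simp only [Fp.gram, of_apply, tw_apply, Matrix.add_apply]
    have h2 : ∀ a b c : ZMod 2, a + b = a + c + (b + c) := by decide
    exact h2 _ _ _
  rw [chi, e, add_chQ, add_chQ, chQ_alt2 (_ + _) (fun i j => ?_) (fun i => ?_), mul_one, chi]
  · congr 1
    unfold chQ
    congr 1
    rw [map_sum]
    refine sum_congr rfl fun i _ => ?_
    rw [sum_eq_single i (fun j _ hj => by rw [diagonal_apply_ne _ hj.symm, mul_zero])
      (fun h => absurd (mem_univ i) h), diagonal_apply_eq, map_smul, smul_eq_mul]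
    rfl
  · simp only [Matrix.add_apply, of_apply]
    rw [mul_comm]
    congr 1
    by_cases h : i = j
    · rw [h]
    · rw [diagonal_apply_ne _ h, diagonal_apply_ne _ (Ne.symm h)]
  · simp only [Matrix.add_apply, of_apply, diagonal_apply_eq, l0_sq]
    exact CharTwo.add_self_eq_zero _

lemma SlInv_dg {ι α : Type} (b : Bil 2 X) (κ : Matrix ι ν (ZMod 2)) (e : ι → X)
    (g : (ν → ZMod 2) → α) : SlInv b κ e fun M => g (dg M) := fun _ _ h _ => congrArg g h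

variable [Fintype X]

lemma conj_FF (b : Bil 2 X) (a : (ν → X) → ℂ) (M : SymM 2 ν) :
    conj (FF b a M) = FF b (fun l => conj (a l)) M := by
  simp only [FF, map_sum, map_mul, conj_chi]

lemma Lv_FF_tile (b : Bil 2 X) {s : ℕ} (a : (ν → X) → ℂ) (M : SymM 2 ν)
    (U : Matrix ν ν' (ZMod 2)) (h : ∀ l, a l ≠ 0 →
      Module.finrank (ZMod 2) (Submodule.span (ZMod 2) (Set.range (act Uᵀ l))) ≤ s) :
    Lv s fun N => FF b a (M + cj U N) := by
  have h1 := Lv_sum (s := s) univ (fun l : ν → X => a l * chi b M l)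
    (fun l => chQ (gram b (act Uᵀ l))) fun l _ hl => Lv_chQ (by
      rw [gram_pol]
      exact (rank_gram_le _ _).trans (h l (left_ne_zero_of_mul hl)))
  have h2 : (fun N => FF b a (M + cj U N)) =
      fun N => ∑ l : ν → X, a l * chi b M l * chQ (gram b (act Uᵀ l)) N := by
    funext N
    simp only [FF, chi_tile, mul_assoc]
    rfl
  rw [h2]
  exact h1

lemma FF_slice {ι : Type} {b : Bil 2 X} {κ : Matrix ι ν (ZMod 2)} {e : ι → X}
    {a : (ν → X) → ℂ} (ha : OnSl κ e a) {M M' : SymM 2 ν}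
    (h : ∀ l, act κ l = e → chi b M l = chi b M' l) : FF b a M = FF b a M' := by
  refine sum_congr rfl fun l _ => ?_
  by_cases h0 : a l = 0
  · rw [h0, zero_mul, zero_mul]
  · rw [h l (ha l h0)]

lemma SlInv_FV {ι : Type} (b : Bil 2 X) {κ : Matrix ι ν (ZMod 2)} {e : ι → X}
    {a : (ν → ZMod 2) → (ν → X) → ℂ} (ha : ∀ v, OnSl κ e (a v)) : SlInv b κ e (FV b a) :=
  fun M M' h h' => by rw [FV, FV, h, FF_slice (ha _) h']

lemma FV_tile (b : Bil 2 X) (a : (ν → ZMod 2) → (ν → X) → ℂ) (M : SymM 2 ν)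
    (U : Matrix ν ν' (ZMod 2)) (N : SymM 2 ν') :
    FV b a (M + cj U N) = FV b (fun t => aT b (a (dg M + U *ᵥ t)) M U) N := by
  rw [FV, FV, FF_tile, dg_add, dg_cj]

/-- the shift `κᵀ B + Bᵀ κ` -/
def shM {ι : Type} [Fintype ι] (κ B : Matrix ι ν (ZMod 2)) : SymM 2 ν :=
  ⟨κᵀ * B + Bᵀ * κ, by
    show (κᵀ * B + Bᵀ * κ)ᵀ = _
    rw [transpose_add, transpose_mul, transpose_mul, transpose_transpose, transpose_transpose,
      add_comm]⟩

lemma dg_shM {ι : Type} [Fintype ι] (κ B : Matrix ι ν (ZMod 2)) : dg (shM κ B) = 0 := by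
  funext i
  show (κᵀ * B + Bᵀ * κ) i i = 0
  simp only [Matrix.add_apply, Matrix.mul_apply, transpose_apply, mul_comm (B _ i)]
  exact CharTwo.add_self_eq_zero _

omit [Fintype X] in
lemma chi_shM {ι : Type} [Fintype ι] (b : Bil 2 X) (κ B : Matrix ι ν (ZMod 2)) (l : ν → X) :
    chi b (shM κ B) l = ee (bt (pol b) (act Bᵀ (act κ l)) l) := by
  have e : act (shM κ B).1 l = act κᵀ (act B l) + act Bᵀ (act κ l) := by
    rw [← act_mul, ← act_mul]
    funext i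
    simp only [shM, act, Matrix.add_apply, add_smul, sum_add_distrib, Pi.add_apply]
  rw [chi_eq, e, bt_add_right, bt_pol, bt_act b Bᵀ, transpose_transpose, bt_act b κ]

theorem FAC_core {ι : Type} [Fintype ι] [DecidableEq ι] {b : Bil 2 X} (hn : NdB (pol b))
    {κ : Matrix ι ν (ZMod 2)} {e : ι → X} (S : Submodule (ZMod 2) (ι → ZMod 2))
    (hS : ∀ x : X, ∃ c ∈ S, ∑ a, c a • e a = x) (P : SymM 2 ν → ℝ)
    (hP : ∀ M (B : Matrix ι ν (ZMod 2)), (∀ k, (fun a => B a k) ∈ S) → P (M + shM κ B) = P M)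
    {a : (ν → ZMod 2) → (ν → X) → ℂ} (ha : ∀ v, OnSl κ e (a v)) :
    𝔼 M, P M * ‖FV b a M‖ ^ 2 = 𝔼 M, P M * nsq (a (dg M)) := by
  classical
  let mB : (ν → S) → Matrix ι ν (ZMod 2) := fun B => Matrix.of fun i k => (B k).1 i
  have h1 : ∀ B : ν → S, 𝔼 M, P M * ‖FV b a M‖ ^ 2 =
      𝔼 M, P M * ‖FV b a (M + shM κ (mB B))‖ ^ 2 := fun B =>
    (Fintype.expect_equiv (Equiv.addRight (shM κ (mB B))) _ _ fun M => by
      rw [Equiv.coe_addRight, hP M (mB B) fun k => (B k).2]).symm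
  have h2 : ∀ l l' : ν → X, l ≠ l' →
      𝔼 B : ν → S, ee (bt (pol b) (act (mB B)ᵀ e) (l + l')) = 0 := fun l l' hl => by
    let φ : (ν → S) →+ ZMod 2 := AddMonoidHom.mk' (fun B => bt (pol b) (act (mB B)ᵀ e) (l + l'))
      fun B B' => by
        rw [← bt_add_left]
        congr 1
        funext k
        simp only [act, mB, transpose_apply, of_apply, Pi.add_apply, Submodule.coe_add, add_smul,
          sum_add_distrib]
    refine expect_ee_hom φ fun h0 => hl ?_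
    have h3 : l + l' = 0 := bt_nd hn _ fun x => by
      choose c hc hc' using fun k => hS (x k)
      have := DFunLike.congr_fun h0 fun k => ⟨c k, hc k⟩
      rw [bt_comm (pol_sym b), ← funext hc']
      exact this
    funext i
    have h4 : l i + l' i = 0 := congrFun h3 i
    have h5 : l' i + l' i = 0 := by rw [← two_smul (ZMod 2), show (2 : ZMod 2) = 0 from rfl, zero_smul]
    exact add_right_cancel (h4.trans h5.symm)
  have h3 : ∀ M, 𝔼 B : ν → S, ‖FV b a (M + shM κ (mB B))‖ ^ 2 = nsq (a (dg M)) := fun M => by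
    apply Complex.ofReal_injective
    rw [Complex.ofReal_expect, ← ip_self, ip]
    have e1 : ∀ B : ν → S, ((‖FV b a (M + shM κ (mB B))‖ ^ 2 : ℝ) : ℂ) =
        ∑ l, ∑ l', (conj (a (dg M) l) * chi b M l * (a (dg M) l' * chi b M l')) *
          ee (bt (pol b) (act (mB B)ᵀ e) (l + l')) := fun B => by
      rw [Complex.ofReal_pow, ← Complex.conj_mul', FV, dg_add, dg_shM, add_zero, conj_FF, FF, FF,
        sum_mul_sum]
      refine sum_congr rfl fun l _ => sum_congr rfl fun l' _ => ?_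
      by_cases k : a (dg M) l = 0
      · simp [k]
      by_cases k' : a (dg M) l' = 0
      · simp [k']
      rw [chi_addM, chi_addM, chi_shM, chi_shM, ha _ l k, ha _ l' k', bt_add_right, ee_add]
      ring
    simp only [e1, expect_sum_comm, ← mul_expect]
    refine sum_congr rfl fun l _ => ?_
    rw [sum_eq_single l (fun l' _ hl => by rw [h2 l l' hl.symm, mul_zero])
      fun h => absurd (mem_univ l) h]
    have e2 : l + l = 0 := funext fun i => by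
      rw [Pi.add_apply, ← two_smul (ZMod 2), show (2 : ZMod 2) = 0 from rfl, zero_smul]
      rfl
    simp only [e2, bt_zero_right, ee_zero]
    rw [expect_const univ_nonempty, mul_one, mul_mul_mul_comm, chi_sq, mul_one]
  calc _ = 𝔼 _B : ν → S, 𝔼 M, P M * ‖FV b a M‖ ^ 2 := (expect_const univ_nonempty _).symm
    _ = 𝔼 B : ν → S, 𝔼 M, P M * ‖FV b a (M + shM κ (mB B))‖ ^ 2 := expect_congr rfl fun B _ => h1 B
    _ = _ := by
      rw [expect_comm]
      exact expect_congr rfl fun M _ => by rw [← mul_expect, h3]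

/-- isometry on every fibre -/
theorem FAC1 {ι : Type} [Fintype ι] [DecidableEq ι] {b : Bil 2 X} (hn : NdB (pol b))
    {κ : Matrix ι ν (ZMod 2)} {e : ι → X} (he : Submodule.span (ZMod 2) (Set.range e) = ⊤)
    (g : (ν → ZMod 2) → ℝ) {a : (ν → ZMod 2) → (ν → X) → ℂ} (ha : ∀ v, OnSl κ e (a v)) :
    𝔼 M, g (dg M) * ‖FV b a M‖ ^ 2 = 𝔼 v, g v * nsq (a v) := by
  rw [FAC_core hn ⊤ (fun x => ?_) (fun M => g (dg M)) (fun M B _ => by
    rw [dg_add, dg_shM, add_zero]) ha]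
  · exact expect_dg fun v => g v * nsq (a v)
  · obtain ⟨c, hc⟩ := (Submodule.mem_span_range_iff_exists_fun _).1
      (he ▸ Submodule.mem_top : x ∈ Submodule.span (ZMod 2) (Set.range e))
    exact ⟨c, Submodule.mem_top, hc⟩

end one

section two
variable {X₁ X₂ : Type} [AddCommGroup X₁] [Module (ZMod 2) X₁] [AddCommGroup X₂]
  [Module (ZMod 2) X₂] {ν ν' : Type} [Fintype ν] [DecidableEq ν] [Fintype ν'] [DecidableEq ν']

lemma pol_bp (b₁ : Bil 2 X₁) (b₂ : Bil 2 X₂) : pol (bp b₁ b₂) = bp (pol b₁) (pol b₂) := by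
  refine LinearMap.ext₂ fun x y => ?_
  simp only [pol_apply, bp_apply]
  ring

lemma NdB_pol_bp {b₁ : Bil 2 X₁} {b₂ : Bil 2 X₂} (n₁ : NdB (pol b₁)) (n₂ : NdB (pol b₂)) :
    NdB (pol (bp b₁ b₂)) := pol_bp b₁ b₂ ▸ NdB_bp n₁ n₂

variable [Fintype X₁] [Fintype X₂]

/-- two copies of the second family always contract with each other -/
theorem FAC {ι : Type} [Fintype ι] [DecidableEq ι] {b₁ : Bil 2 X₁} {b₂ : Bil 2 X₂}
    (n₂ : NdB (pol b₂)) {κ : Matrix ι ν (ZMod 2)} {e : ι → X₁ × X₂}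
    (he : Submodule.span (ZMod 2) (Set.range e) = ⊤) {P : SymM 2 ν → ℝ}
    (hP : SlInv b₁ κ (fun i => (e i).1) P) {a₂ : (ν → ZMod 2) → (ν → X₂) → ℂ}
    (h₂ : ∀ v, OnSl κ (fun i => (e i).2) (a₂ v)) :
    𝔼 M, P M * ‖FV b₂ a₂ M‖ ^ 2 = 𝔼 M, P M * nsq (a₂ (dg M)) := by
  refine FAC_core n₂ (LinearMap.ker (Fintype.linearCombination (ZMod 2) fun i => (e i).1))
    (fun x => ?_) P (fun M B hB => hP _ _ (by rw [dg_add, dg_shM, add_zero]) fun l hl => ?_) h₂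
  · obtain ⟨c, hc⟩ := (Submodule.mem_span_range_iff_exists_fun _).1
      (he ▸ Submodule.mem_top : ((0, x) : X₁ × X₂) ∈ Submodule.span (ZMod 2) (Set.range e))
    refine ⟨c, ?_, ?_⟩
    · have := congrArg Prod.fst hc
      rw [Prod.fst_sum] at this
      exact this
    · have := congrArg Prod.snd hc
      rw [Prod.snd_sum] at this
      exact this
  · have h0 : act Bᵀ (fun i => (e i).1) = 0 := funext fun k => hB k
    rw [chi_addM, chi_shM, hl, h0, bt_zero_left, ee_zero, mul_one]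

lemma en_FV_mul {ι : Type} [Fintype ι] [DecidableEq ι] {b₁ : Bil 2 X₁} {b₂ : Bil 2 X₂}
    (n₁ : NdB (pol b₁)) (n₂ : NdB (pol b₂)) {κ : Matrix ι ν (ZMod 2)} {e : ι → X₁ × X₂}
    (he : Submodule.span (ZMod 2) (Set.range e) = ⊤) {a₁ : (ν → ZMod 2) → (ν → X₁) → ℂ}
    {a₂ : (ν → ZMod 2) → (ν → X₂) → ℂ} (h₁ : ∀ v, OnSl κ (fun i => (e i).1) (a₁ v))
    (h₂ : ∀ v, OnSl κ (fun i => (e i).2) (a₂ v)) :
    en (fun M => FV b₁ a₁ M * FV b₂ a₂ M) = 𝔼 v, nsq (a₁ v) * nsq (a₂ v) := by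
  have k1 := FAC n₂ he (P := fun M => ‖FV b₁ a₁ M‖ ^ 2)
    (fun M M' h h' => congrArg (fun z => ‖z‖ ^ 2) (SlInv_FV b₁ h₁ M M' h h')) h₂
  have k2 := FAC1 n₁ (span_fst he) (fun v => nsq (a₂ v)) h₁
  simp only [en, norm_mul, mul_pow]
  rw [k1]
  simp only [mul_comm (nsq (a₂ _))] at k2
  exact k2

/-- a vector supported on `pol b₁ c (l i) = y i` loses one level on tiles with `Uᵀ y = 0` -/
lemma Lv_pos {b₁ : Bil 2 X₁} (b₂ : Bil 2 X₂) (n₁ : NdB (pol b₁)) {r : ℕ}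
    (hr : Module.finrank (ZMod 2) X₁ + Module.finrank (ZMod 2) X₂ = r) {c : X₁} (hc : c ≠ 0)
    {y : ν → ZMod 2} {u : (ν → X₁) → ℂ} (hu : ∀ l, u l ≠ 0 → ∀ i, pol b₁ c (l i) = y i)
    (a₂ : (ν → X₂) → ℂ) (M : SymM 2 ν) (U : Matrix ν ν' (ZMod 2)) (hU : Uᵀ *ᵥ y = 0) :
    Lv (r - 1) fun N => FF b₁ u (M + cj U N) * FF b₂ a₂ (M + cj U N) := by
  simp only [← FF_tp]
  refine Lv_FF_tile _ _ M U fun l hl => ?_
  have h1 := hu _ (left_ne_zero_of_mul hl)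
  have h2 : Submodule.span (ZMod 2) (Set.range (act Uᵀ l)) ≤
      LinearMap.ker ((pol b₁ c).comp (LinearMap.fst _ X₁ X₂)) :=
    Submodule.span_le.2 (Set.range_subset_iff.2 fun t => by
      show pol b₁ c (act Uᵀ l t).1 = 0
      rw [← show (Uᵀ *ᵥ y) t = 0 from congrFun hU t]
      simp [act, Prod.fst_sum, mulVec, dotProduct, h1])
  have h3 : Submodule.span (ZMod 2) (Set.range (act Uᵀ l)) ≠ ⊤ := fun e =>
    hc (n₁ c fun y => h2 (e ▸ Submodule.mem_top : ((y, 0) : X₁ × X₂) ∈ _))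
  have h4 := Submodule.finrank_lt h3
  rw [Module.finrank_prod, hr] at h4
  omega

end two

theorem bnd_one2 (cst : Prop) (r r₁ : ℕ) : Bnd2 cst r r₁ 1 := by
  refine ⟨1, one_pos, 0, fun ν _ _ _ A _ X₁ X₂ _ _ _ _ _ _ b₁ b₂ e κ n₁ n₂ _ _ he a₁ a₂ _
    h₁ h₂ => ?_⟩
  refine (norm_expect_mul_le _ _).trans ?_
  rw [en_FV_mul n₁ n₂ he h₁ h₂]
  exact mul_le_mul_of_nonneg_right (end_en_fA A) (by positivity)

lemma Bnd2.mono {cst : Prop} {r r₁ : ℕ} {c c' : ℝ} (h : c ≤ c') (hB : Bnd2 cst r r₁ c) :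
    Bnd2 cst r r₁ c' := by
  refine Ev.mono hB ?_
  intro ν _ _ A hA X₁ X₂ _ _ _ _ _ _ b₁ b₂ e κ n1 n2 d1 d2 he a₁ a₂ h₀ h₁ h₂
  exact (hA X₁ X₂ b₁ b₂ e κ n1 n2 d1 d2 he a₁ a₂ h₀ h₁ h₂).trans
    (mul_le_mul_of_nonneg_right h (by positivity))

end Pool.Agent.Work.MP_4523ee_co.F2
end

-- merged part: Pool.Agent.Work.MP_4523ee_co.F2.StepA2
section
/-!
The estimate on one good tile and the numerical inequality of the contraction step.
-/

set_option autoImplicit false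
set_option linter.unusedSectionVars false

namespace Pool.Agent.Work.MP_4523ee_co.F2

open Finset hiding dens
open Matrix Pool.Agent.Work.MP_4523ee_co.Fp
open scoped BigOperators ComplexConjugate

theorem good_tile2 (cst : Prop) {r r₁ : ℕ} (hr : 0 < r₁) (hC : Claim2 2 (r - 1)) {c : ℝ}
    (hB : Bnd2 cst r r₁ c) (ε : ℝ) (hε : 0 < ε) :
    ∃ η : ℝ, 0 < η ∧ ∃ J0 : ℕ, ∀ J : ℕ, J0 ≤ J → ∀ A : Set (SymM 2 (Fin r ⊕ Fin J)), NE η A →
      Data2 r r₁ (Fin r ⊕ Fin J) fun X₁ X₂ _ _ _ _ _ _ b₁ b₂ e κ =>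
        κ = fromCols (1 : Matrix (Fin r) (Fin r) (ZMod 2)) 0 →
        ∀ (a₁ : (Fin r ⊕ Fin J → ZMod 2) → (Fin r ⊕ Fin J → X₁) → ℂ)
          (a₂ : (Fin r ⊕ Fin J → ZMod 2) → (Fin r ⊕ Fin J → X₂) → ℂ),
          (cst → ∀ v v', a₁ v = a₁ v') → (∀ v, OnSl κ (fun i => (e i).1) (a₁ v)) →
          (∀ v, OnSl κ (fun i => (e i).2) (a₂ v)) →
          ‖𝔼 N, fA A N * (FV b₁ a₁ N * FV b₂ a₂ N)‖ ≤
            ε * √(𝔼 v, nsq (a₁ v) * nsq (a₂ v)) + c * √(𝔼 v, nsq (a₁ v) * nsq (a₂ v) -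
              𝔼 v, ‖a₁ v (Sum.elim (fun i => (e i).1) 0)‖ ^ 2 * nsq (a₂ v)) := by
  classical
  obtain ⟨η, hη, n0, h⟩ := (SC2 hC r ε hε).and hB
  refine ⟨η, hη, n0, fun J hJ A hA => ?_⟩
  obtain ⟨h1, h2⟩ := h (Fin r ⊕ Fin J) (by simp; omega) A hA
  intro X₁ X₂ _ _ _ _ _ _ b₁ b₂ e κ n₁ n₂ d₁ d₂ he _ a₁ a₂ hc o₁ o₂
  set l0 : Fin r ⊕ Fin J → X₁ := Sum.elim (fun i => (e i).1) 0 with hl0
  let δ : (Fin r ⊕ Fin J → ZMod 2) → (Fin r ⊕ Fin J → X₁) → ℂ :=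
    fun v l => if l = l0 then a₁ v l else 0
  let ρ : (Fin r ⊕ Fin J → ZMod 2) → (Fin r ⊕ Fin J → X₁) → ℂ :=
    fun v l => if l = l0 then 0 else a₁ v l
  have oδ : ∀ v, OnSl κ (fun i => (e i).1) (δ v) := fun v l hl =>
    o₁ v l fun h0 => hl (by simp [δ, h0])
  have oρ : ∀ v, OnSl κ (fun i => (e i).1) (ρ v) := fun v l hl =>
    o₁ v l fun h0 => hl (by simp [ρ, h0])
  have nδ : ∀ v, nsq (δ v) = ‖a₁ v l0‖ ^ 2 := fun v => by
    rw [nsq, sum_eq_single l0 (fun l _ hl => by simp [δ, hl]) fun h0 => absurd (mem_univ _) h0]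
    simp [δ]
  have nρ : ∀ v, nsq (ρ v) = nsq (a₁ v) - ‖a₁ v l0‖ ^ 2 := fun v => by
    rw [← nδ, nsq, nsq, nsq, ← sum_sub_distrib]
    refine sum_congr rfl fun l _ => ?_
    by_cases hl : l = l0 <;> simp [δ, ρ, hl]
  have hsum : ∀ N, FV b₁ a₁ N = FV b₁ δ N + FV b₁ ρ N := fun N => by
    rw [FV, FV, FV, ← FF_add]
    refine congrArg (fun b => FF b₁ b N) (funext fun l => ?_)
    by_cases hl : l = l0 <;> simp [δ, ρ, hl]
  have hδ : ∀ N, FV b₁ δ N = a₁ (dg N) l0 * chi b₁ N l0 := fun N => by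
    rw [FV, FF, sum_eq_single l0 (fun l _ hl => by simp [δ, hl]) fun h0 => absurd (mem_univ _) h0]
    simp [δ]
  have k1 := h1 (Fin r) (by simp) (fun _ i => Pi.single (Sum.inl i) 1)
    (fun N => FV b₁ δ N * FV b₂ a₂ N) fun m M U hU => by
      have hU0 : act Uᵀ l0 = 0 := funext fun s => by
        have : ∀ i, U (Sum.inl i) s = 0 := fun i => by
          simpa using congrFun (hU i) s
        simp [act, hl0, Fintype.sum_sum_type, this]
      refine ⟨fun N => a₁ (dg M) l0 * chi b₁ M l0 * FF b₂ (a₂ (dg M)) (M + cj U N),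
        Lv_smul _ (Lv_FF_tile b₂ _ M U fun l _ => (Submodule.finrank_le _).trans (by omega)),
        fun N hN => ?_⟩
      have g0 : Fp.gram b₁ (0 : Fin m → X₁) = 0 := by
        ext i j
        simp [Fp.gram]
      have g1 : dg (M + cj U N) = dg M := by rw [dg_add, dg_cj, hN, mulVec_zero, add_zero]
      rw [hδ, chi_tile, hU0, FV, g1, chi, chi, g0, zero_chQ, mul_one]
  have k2 := h2 X₁ X₂ b₁ b₂ e κ n₁ n₂ d₁ d₂ he ρ a₂
    (fun h v v' => by simp only [ρ, hc h v v']) oρ o₂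
  rw [en_FV_mul n₁ n₂ he oδ o₂] at k1
  have k3 : √(𝔼 v, nsq (δ v) * nsq (a₂ v)) ≤ √(𝔼 v, nsq (a₁ v) * nsq (a₂ v)) :=
    Real.sqrt_le_sqrt (expect_le_expect fun v _ => mul_le_mul_of_nonneg_right
      (by linarith [nsq_nonneg (ρ v), nρ v, nδ v]) (nsq_nonneg _))
  have k4 : 𝔼 N, fA A N * (FV b₁ a₁ N * FV b₂ a₂ N) =
      𝔼 N, fA A N * (FV b₁ δ N * FV b₂ a₂ N) + 𝔼 N, fA A N * (FV b₁ ρ N * FV b₂ a₂ N) := by
    rw [← expect_add_distrib]
    refine expect_congr rfl fun N _ => ?_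
    rw [hsum]
    ring
  simp only [nρ, sub_mul, expect_sub_distrib] at k2
  rw [k4]
  refine (norm_add_le _ _).trans ?_
  have k5 := mul_le_mul_of_nonneg_left k3 hε.le
  linarith

lemma StN_num {γ c u ε t s W x q b : ℝ} (hγ : 0 < γ) (hγ1 : γ ≤ 1) (hc : 0 < c) (hc1 : c ≤ 1)
    (hu : u = γ * c / 40) (hε0 : 0 ≤ ε) (hε : ε ≤ u) (ht0 : 0 ≤ t) (ht : t ≤ u) (hs : s ≤ u)
    (hW : W ≤ 1 + ε) (hx : x ≤ 1 + t) (hq : q ≤ 1 - γ + t) (hb : b ≤ u ^ 2) :
    s + (u * (√W * √x) + c * (√W * √q) + √b * √x) < (1 - γ / 4) * c - u := by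
  have u0 : 0 < u := by rw [hu]; positivity
  have u1 : u ≤ 1 / 40 := by rw [hu]; nlinarith
  have u2 : u ≤ γ / 40 := by rw [hu]; nlinarith
  have a1 : √W ≤ 5 / 4 := Real.sqrt_le_iff.2 ⟨by norm_num, by linarith⟩
  have a2 : √x ≤ 5 / 4 := Real.sqrt_le_iff.2 ⟨by norm_num, by linarith⟩
  have a3 : √b ≤ u := Real.sqrt_le_iff.2 ⟨u0.le, hb⟩
  have a4 : √W ≤ 1 + ε / 2 := Real.sqrt_le_iff.2 ⟨by linarith, by nlinarith⟩
  have a5 : √q ≤ 1 - γ / 2 + t / 2 := Real.sqrt_le_iff.2 ⟨by linarith, by nlinarith⟩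
  have b1 : √W * √x ≤ 5 / 4 * (5 / 4) := mul_le_mul a1 a2 (Real.sqrt_nonneg _) (by norm_num)
  have b2 : √W * √q ≤ (1 + ε / 2) * (1 - γ / 2 + t / 2) :=
    mul_le_mul a4 a5 (Real.sqrt_nonneg _) (by linarith)
  have b3 : √b * √x ≤ u * (5 / 4) := mul_le_mul a3 a2 (Real.sqrt_nonneg _) u0.le
  have b4 : (1 + ε / 2) * (1 - γ / 2 + t / 2) ≤ 1 - γ / 2 + u := by nlinarith
  have c1 := mul_le_mul_of_nonneg_left b1 u0.le
  have c2 := mul_le_mul_of_nonneg_left (b2.trans b4) hc.le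
  have c3 : c * u ≤ u := mul_le_of_le_one_left u0.le hc1
  nlinarith

lemma sum_nsq_cut {X ν ν' : Type} [AddCommGroup X] [Module (ZMod 2) X] [Fintype X] [Fintype ν]
    [DecidableEq ν] [Fintype ν'] [DecidableEq ν'] (U : Matrix ν' ν (ZMod 2)) (a : (ν → X) → ℂ) :
    ∑ s, nsq (cut U s a) = nsq a := by
  classical
  unfold nsq
  rw [sum_comm]
  refine sum_congr rfl fun l _ => ?_
  rw [sum_eq_single (act U l) (fun s _ hs => by simp [cut, hs.symm])
    fun h => absurd (mem_univ _) h]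
  simp [cut]

lemma GG_zero {X ν : Type} [AddCommGroup X] [Module (ZMod 2) X] [Fintype X] [Fintype ν]
    [DecidableEq ν] (β : Bil 2 X) : GG β 1 (0 : (ν → X) → ℂ) := fun N _ _ φ => by
  have : Pj β (pw ν N).subtype φ (0 : (ν → X) → ℂ) = 0 := by
    funext l
    simp [Pj, W]
  rw [this]
  simp [nsq]

end Pool.Agent.Work.MP_4523ee_co.F2
end

-- merged part: Pool.Agent.Work.MP_4523ee_co.F2.Step2
section
/-!
The contraction step in characteristic two, for both classes.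
-/

set_option autoImplicit false
set_option linter.unusedSectionVars false

namespace Pool.Agent.Work.MP_4523ee_co.F2

open Finset hiding dens
open Matrix Pool.Agent.Work.MP_4523ee_co.Fp
open scoped BigOperators ComplexConjugate

/-- fourth moments on a fibre -/
def MBout (k : ℕ) : Prop :=
  ∃ C : ℝ, 0 < C ∧ ∀ (X : Type) [AddCommGroup X] [Module (ZMod 2) X] [Fintype X],
    Fintype.card X ≤ k → ∀ (ν : Type) [Fintype ν] [DecidableEq ν] (b : Bil 2 X), NdB (pol b) →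
    ∀ a : (ν → X) → ℂ, nsq a ≤ 1 → GG (pol b) 1 a → ∀ M0 : SymM 2 ν,
      𝔼 N : AltM ν, ‖FF b a (M0 + N.1)‖ ^ 4 ≤ C

section core
variable {X₁ X₂ : Type} [AddCommGroup X₁] [Module (ZMod 2) X₁] [Fintype X₁] [AddCommGroup X₂]
  [Module (ZMod 2) X₂] [Fintype X₂] {ν : Type} [Fintype ν] [DecidableEq ν]

lemma St2_nsq_aT {ν' : Type} [Fintype ν'] [DecidableEq ν'] (b : Bil 2 X₁) (a : (ν → X₁) → ℂ)
    (M : SymM 2 ν) (U : Matrix ν ν' (ZMod 2)) (N : SymM 2 ν') :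
    nsq (aT b a (M + cj U N) U) = nsq (aT b a M U) :=
  sum_congr rfl fun s _ => by rw [aT_tile, norm_mul, norm_chi, mul_one]

lemma St2_inv {ν' : Type} [Fintype ν'] [DecidableEq ν'] (U : Matrix ν ν' (ZMod 2))
    (w g : SymM 2 ν → ℝ) (hw : ∀ M N, w (M + cj U N) = w M) :
    𝔼 M, w M * 𝔼 N : SymM 2 ν', g (M + cj U N) = 𝔼 M, w M * g M := by
  simp only [mul_expect]
  rw [expect_comm]
  have h : ∀ N : SymM 2 ν', 𝔼 M, w M * g (M + cj U N) = 𝔼 M, w M * g M := fun N =>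
    Fintype.expect_equiv (Equiv.addRight (cj U N)) _ _ fun M => by rw [Equiv.coe_addRight, hw]
  simp only [h, Fintype.expect_const]

theorem St2_core {cst : Prop} {r J : ℕ} {b₁ : Bil 2 X₁} {b₂ : Bil 2 X₂} (n1 : NdB (pol b₁))
    (n2 : NdB (pol b₂)) {e : Fin r → X₁ × X₂}
    (he : Submodule.span (ZMod 2) (Set.range e) = ⊤) {κ : Matrix (Fin r) ν (ZMod 2)}
    {c₁ : (ν → ZMod 2) → (ν → X₁) → ℂ} {c₂ : (ν → ZMod 2) → (ν → X₂) → ℂ}
    (h₀ : cst → ∀ v v', c₁ v = c₁ v') (h₁ : ∀ v, OnSl κ (fun i => (e i).1) (c₁ v))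
    (h₂ : ∀ v, OnSl κ (fun i => (e i).2) (c₂ v)) (u1 : ∀ v, nsq (c₁ v) ≤ 1) {T : ℝ}
    (hT : 0 < T) (u2 : ∀ v, nsq (c₂ v) ≤ T) (u3 : 𝔼 v, nsq (c₂ v) ≤ 1)
    (A : Set (SymM 2 ν)) {γ c u ε K η bad : ℝ} (hγ : 0 < γ) (hγ1 : γ ≤ 1) (hc : 0 < c)
    (hc1 : c ≤ 1) (hu : u = γ * c / 40) (hε : 0 ≤ ε) (hK : 0 ≤ K)
    (w : SymM 2 ν → Matrix ν (Fin J) (ZMod 2) → ℝ) (hw : ∀ M U, 0 ≤ w M U)
    (hinv : ∀ M U (N : SymM 2 (Fin r ⊕ Fin J)), w (M + cj (fromCols κᵀ U) N) U = w M U)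
    (hsl : ∀ U, SlInv b₁ κ (fun i => (e i).1) fun M => w M U)
    (hρ : 𝔼 M, (𝔼 U, w M U - 1) ^ 2 ≤ ε ^ 2)
    (hb : γ * (𝔼 v, nsq (c₁ v) * nsq (c₂ v)) - T * ε ≤ 𝔼 M, 𝔼 U, w M U *
      (‖FF b₁ (cut Uᵀ 0 (c₁ (dg M))) M‖ ^ 2 * nsq (c₂ (dg M))))
    (m1 : 𝔼 M, ‖FV b₁ c₁ M‖ ^ 4 ≤ K ^ 2)
    (hbad : 𝔼 M, 𝔼 U, w M U *
      ind {U | ¬ (Inj (fromCols κᵀ U) ∧ NE η (res A M (fromCols κᵀ U)))} U ≤ bad)
    (hgood : ∀ A' : Set (SymM 2 (Fin r ⊕ Fin J)), NE η A' →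
      ∀ (a₁ : (Fin r ⊕ Fin J → ZMod 2) → (Fin r ⊕ Fin J → X₁) → ℂ)
        (a₂ : (Fin r ⊕ Fin J → ZMod 2) → (Fin r ⊕ Fin J → X₂) → ℂ),
        (cst → ∀ v v', a₁ v = a₁ v') →
        (∀ v, OnSl (fromCols (1 : Matrix (Fin r) (Fin r) (ZMod 2))
          (0 : Matrix (Fin r) (Fin J) (ZMod 2))) (fun i => (e i).1) (a₁ v)) →
        (∀ v, OnSl (fromCols (1 : Matrix (Fin r) (Fin r) (ZMod 2))
          (0 : Matrix (Fin r) (Fin J) (ZMod 2))) (fun i => (e i).2) (a₂ v)) →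
        ‖𝔼 N, fA A' N * (FV b₁ a₁ N * FV b₂ a₂ N)‖ ≤
          u * √(𝔼 v, nsq (a₁ v) * nsq (a₂ v)) + c * √(𝔼 v, nsq (a₁ v) * nsq (a₂ v) -
            𝔼 v, ‖a₁ v (Sum.elim (fun i => (e i).1) 0)‖ ^ 2 * nsq (a₂ v)))
    (hε1 : ε ≤ u) (hε2 : T * ε * (K + 1) ≤ u) (hε3 : √T * ε ≤ u) (hbad1 : bad ≤ u ^ 2) :
    ‖𝔼 M, fA A M * (FV b₁ c₁ M * FV b₂ c₂ M)‖ < (1 - γ / 4) * c - u := by
  set U : Matrix ν (Fin J) (ZMod 2) → Matrix ν (Fin r ⊕ Fin J) (ZMod 2) :=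
    fun i => fromCols κᵀ i with hU
  have u0 : 0 < u := by rw [hu]; positivity
  have hm : ∀ M, marg U w M = 𝔼 i, w M i := marg_of_inv U w hinv
  have hρ' : 𝔼 M, (marg U w M - 1) ^ 2 ≤ ε ^ 2 := by simpa only [hm] using hρ
  have hms : SlInv b₁ κ (fun i => (e i).1) (marg U w) := fun M M' k k' => by
    rw [hm, hm]
    exact expect_congr rfl fun i _ => hsl i M M' k k'
  set A₁ := fun (M : SymM 2 ν) (i : Matrix ν (Fin J) (ZMod 2)) (t : Fin r ⊕ Fin J → ZMod 2) =>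
    aT b₁ (c₁ (dg M + U i *ᵥ t)) M (U i) with hA₁
  set A₂ := fun (M : SymM 2 ν) (i : Matrix ν (Fin J) (ZMod 2)) (t : Fin r ⊕ Fin J → ZMod 2) =>
    aT b₂ (c₂ (dg M + U i *ᵥ t)) M (U i) with hA₂
  set x : SymM 2 ν → Matrix ν (Fin J) (ZMod 2) → ℝ :=
    fun M i => 𝔼 t, nsq (A₁ M i t) * nsq (A₂ M i t) with hx
  set z : SymM 2 ν → Matrix ν (Fin J) (ZMod 2) → ℝ :=
    fun M i => 𝔼 t, ‖A₁ M i t (Sum.elim (fun i => (e i).1) 0)‖ ^ 2 * nsq (A₂ M i t) with hz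
  set bd : SymM 2 ν → Matrix ν (Fin J) (ZMod 2) → ℝ :=
    fun M i => ind {U | ¬ (Inj (fromCols κᵀ U) ∧ NE η (res A M (fromCols κᵀ U)))} i with hbd
  have o1 : ∀ M i t, OnSl _ _ (A₁ M i t) := fun M i t => OnSl_aT b₁ (h₁ _) M i (ν' := Fin J)
  have o2 : ∀ M i t, OnSl _ _ (A₂ M i t) := fun M i t => OnSl_aT b₂ (h₂ _) M i (ν' := Fin J)
  have ex : ∀ M i, x M i =
      en fun N => FV b₁ c₁ (M + cj (U i) N) * FV b₂ c₂ (M + cj (U i) N) := fun M i => by
    simp only [FV_tile]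
    exact (en_FV_mul n1 n2 he (o1 M i) (o2 M i)).symm
  set R := 𝔼 v, nsq (c₁ v) * nsq (c₂ v) with hR
  have R1 : R ≤ 1 := le_trans (expect_le_expect fun v _ =>
    mul_le_of_le_one_left (nsq_nonneg _) (u1 v)) u3
  have e1 : en (FV b₁ c₁) ≤ 1 := by
    have k := FAC1 n1 (span_fst he) (fun _ => 1) h₁
    simp only [one_mul] at k
    exact k.trans_le (expect_le univ_nonempty fun v _ => u1 v)
  have bx : 𝔼 M, 𝔼 i, w M i * x M i ≤ R + T * ε * K := by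
    have k0 := marg_id_real U w fun M => ‖FV b₁ c₁ M * FV b₂ c₂ M‖ ^ 2
    have k1 := FAC (b₁ := b₁) n2 he (P := fun M => marg U w M * ‖FV b₁ c₁ M‖ ^ 2)
      (fun M M' k k' => by simp only [hms M M' k k', SlInv_FV b₁ h₁ M M' k k']) h₂
    have k2 := FAC1 n1 (span_fst he) (fun v => nsq (c₂ v)) h₁
    have k3 := expect_mul_le_sqrt (fun M => |marg U w M - 1|) fun M => ‖FV b₁ c₁ M‖ ^ 2
    simp only [sq_abs, ← pow_mul] at k3
    have k4 := k3.trans (mul_le_mul (Real.sqrt_le_iff.2 ⟨hε, hρ'⟩) (Real.sqrt_le_iff.2 ⟨hK, m1⟩)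
      (Real.sqrt_nonneg _) hε)
    simp only [ex, en]
    rw [k0]
    simp only [norm_mul, mul_pow, ← mul_assoc]
    rw [k1]
    calc _ ≤ 𝔼 M, (nsq (c₂ (dg M)) * ‖FV b₁ c₁ M‖ ^ 2 +
          T * (|marg U w M - 1| * ‖FV b₁ c₁ M‖ ^ 2)) := expect_le_expect fun M _ => by
            have a1 := nsq_nonneg (c₂ (dg M))
            have a2 := mul_le_mul (u2 (dg M)) (mul_le_mul_of_nonneg_right
              (le_abs_self (marg U w M - 1)) (sq_nonneg ‖FV b₁ c₁ M‖))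
            have a3 := mul_le_mul_of_nonneg_left (mul_le_mul_of_nonneg_right
              (le_abs_self (marg U w M - 1)) (sq_nonneg ‖FV b₁ c₁ M‖)) a1
            have a4 := mul_le_mul_of_nonneg_right (u2 (dg M))
              (mul_nonneg (abs_nonneg (marg U w M - 1)) (sq_nonneg ‖FV b₁ c₁ M‖))
            nlinarith
      _ ≤ _ := by
            rw [expect_add_distrib, k2, ← mul_expect, mul_assoc T]
            simp only [mul_comm (nsq (c₂ _))]
            exact add_le_add le_rfl (mul_le_mul_of_nonneg_left k4 hT.le)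
  have bz : γ * R - T * ε ≤ 𝔼 M, 𝔼 i, w M i * z M i := by
    refine hb.trans_eq ?_
    rw [expect_comm, expect_comm (f := fun M i => w M i * z M i)]
    refine expect_congr rfl fun i _ => ?_
    let g : SymM 2 ν → ℝ := fun M => ‖FF b₁ (cut iᵀ 0 (c₁ (dg M))) M‖ ^ 2 *
      nsq (aT b₂ (c₂ (dg M)) M (U i))
    have k1 : ∀ M, z M i = 𝔼 N : SymM 2 (Fin r ⊕ Fin J), g (M + cj (U i) N) := fun M => by
      rw [hz]
      refine (expect_dg fun t => ‖A₁ M i t (Sum.elim (fun i => (e i).1) 0)‖ ^ 2 *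
        nsq (A₂ M i t)).symm.trans (expect_congr rfl fun N _ => ?_)
      simp only [g, hA₁, hA₂, dg_add, dg_cj, St2_nsq_aT]
      rw [← aT_elim b₁ (h₁ _) (M + cj (U i) N) i 0, aT_tile, norm_mul, norm_chi, mul_one]
    simp only [k1]
    rw [St2_inv (U i) (fun M => w M i) g fun M N => hinv M i N]
    have k2 := fun s => FAC (b₁ := b₁) n2 he
      (P := fun M => w M i * ‖FV b₁ (fun v => cut iᵀ 0 (c₁ v)) M‖ ^ 2)
      (fun M M' k k' => by
        simp only [show w M i = w M' i from hsl i M M' k k',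
          SlInv_FV b₁ (fun v => (h₁ v).cut iᵀ 0) M M' k k'])
      (a₂ := fun v => cut (U i)ᵀ s (c₂ v)) fun v => (h₂ v).cut _ s
    simp only [g, ← mul_assoc]
    conv_lhs => simp only [← sum_nsq_cut (U i)ᵀ (c₂ _), mul_sum]
    conv_rhs => simp only [nsq, aT, mul_sum]
    rw [expect_sum_comm, expect_sum_comm]
    exact sum_congr rfl fun s _ => (k2 s).symm
  have x0 : ∀ M i, 0 ≤ x M i := fun M i =>
    expect_nonneg fun _ _ => mul_nonneg (nsq_nonneg _) (nsq_nonneg _)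
  have zx : ∀ M i, 0 ≤ x M i - z M i := fun M i => by
    rw [sub_nonneg]
    exact expect_le_expect fun t _ => mul_le_mul_of_nonneg_right
      (single_le_sum (f := fun l => ‖A₁ M i t l‖ ^ 2) (fun _ _ => by positivity) (mem_univ _))
      (nsq_nonneg _)
  have bd0 : ∀ M i, 0 ≤ bd M i := fun M i => ind_nonneg _ _
  have TK : 0 ≤ T * ε * K := by positivity
  have Tε : 0 ≤ T * ε := by positivity
  have bq : 𝔼 M, 𝔼 i, w M i * (x M i - z M i) ≤ 1 - γ + T * ε * (K + 1) := by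
    have : 𝔼 M, 𝔼 i, w M i * (x M i - z M i) =
        𝔼 M, 𝔼 i, w M i * x M i - 𝔼 M, 𝔼 i, w M i * z M i := by
      simp only [mul_sub, expect_sub_distrib]
    rw [this]
    nlinarith
  have bW : 𝔼 M, 𝔼 i, w M i * 1 ≤ 1 + ε := by
    have k := StC_l1 _ hε hρ
    simp only [mul_one]
    have k2 : 𝔼 M, 𝔼 i, w M i ≤ 𝔼 M, (1 + |𝔼 i, w M i - 1|) :=
      expect_le_expect fun M _ => by linarith [le_abs_self (𝔼 i, w M i - 1)]
    rw [expect_add_distrib, expect_const univ_nonempty] at k2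
    linarith
  have tile : ∀ M i, ‖𝔼 N : SymM 2 (Fin r ⊕ Fin J), fA A (M + cj (U i) N) *
      (FV b₁ c₁ (M + cj (U i) N) * FV b₂ c₂ (M + cj (U i) N))‖ ≤
      u * (√1 * √(x M i)) + c * (√1 * √(x M i - z M i)) + √(bd M i) * √(x M i) := fun M i => by
    have p1 : 0 ≤ u * (√1 * √(x M i)) := by positivity
    have p2 : 0 ≤ c * (√1 * √(x M i - z M i)) := by positivity
    have p3 : 0 ≤ √(bd M i) * √(x M i) := by positivity
    by_cases hg : Inj (fromCols κᵀ i) ∧ NE η (res A M (fromCols κᵀ i))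
    · have h := hgood _ hg.2 (A₁ M i) (A₂ M i)
        (fun k t t' => by simp only [hA₁, h₀ k (dg M + U i *ᵥ t) (dg M + U i *ᵥ t')])
        (o1 M i) (o2 M i)
      simp only [fA_res] at h
      simp only [FV_tile, Real.sqrt_one, one_mul]
      exact h.trans (le_add_of_nonneg_right p3)
    · have hb1 : bd M i = 1 := ind_of_mem hg
      have h := norm_expect_mul_le (fun N : SymM 2 (Fin r ⊕ Fin J) => fA A (M + cj (U i) N))
        fun N => FV b₁ c₁ (M + cj (U i) N) * FV b₂ c₂ (M + cj (U i) N)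
      rw [← ex] at h
      have h' : √(en fun N : SymM 2 (Fin r ⊕ Fin J) => fA A (M + cj (U i) N)) ≤ 1 := by
        refine Real.sqrt_le_iff.2 ⟨zero_le_one, ?_⟩
        rw [one_pow]
        refine expect_le univ_nonempty fun N _ => ?_
        exact pow_le_one₀ (norm_nonneg _) (norm_fA_le _ _)
      have h2 := mul_le_mul_of_nonneg_right h' (Real.sqrt_nonneg (x M i))
      rw [hb1, Real.sqrt_one] at *
      linarith
  set g : SymM 2 ν → ℂ := fun M => fA A M * (FV b₁ c₁ M * FV b₂ c₂ M) with hg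
  have split : 𝔼 M, g M = 𝔼 M, (marg U w M : ℂ) * g M +
      𝔼 M, (((1 - marg U w M : ℝ) : ℂ) * fA A M * FV b₂ c₂ M) * FV b₁ c₁ M := by
    rw [← expect_add_distrib]
    refine expect_congr rfl fun M _ => ?_
    simp only [hg]
    push_cast
    ring
  have t2 : ‖𝔼 M, (((1 - marg U w M : ℝ) : ℂ) * fA A M * FV b₂ c₂ M) * FV b₁ c₁ M‖ ≤ √T * ε := by
    refine (norm_expect_mul_le _ _).trans ?_
    refine (mul_le_of_le_one_right (Real.sqrt_nonneg _) (Real.sqrt_le_one.2 e1)).trans ?_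
    refine Real.sqrt_le_iff.2 ⟨by positivity, ?_⟩
    have k1 := FAC (b₁ := b₁) n2 he (P := fun M => (marg U w M - 1) ^ 2)
      (fun M M' k k' => by simp only [hms M M' k k']) h₂
    rw [mul_pow, Real.sq_sqrt hT.le]
    calc _ ≤ 𝔼 M, (marg U w M - 1) ^ 2 * ‖FV b₂ c₂ M‖ ^ 2 := expect_le_expect fun M _ => by
          rw [norm_mul, norm_mul, Complex.norm_real, mul_pow, mul_pow, Real.norm_eq_abs, sq_abs]
          have := pow_le_one₀ (norm_nonneg _) (norm_fA_le A M) (n := 2)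
          refine mul_le_mul_of_nonneg_right ?_ (sq_nonneg _)
          nlinarith [sq_nonneg (1 - marg U w M)]
      _ ≤ 𝔼 M, T * (marg U w M - 1) ^ 2 := by
          rw [k1]
          exact expect_le_expect fun M _ => by
            rw [mul_comm]
            exact mul_le_mul_of_nonneg_right (u2 _) (sq_nonneg _)
      _ ≤ _ := by
          rw [← mul_expect]
          exact mul_le_mul_of_nonneg_left hρ' hT.le
  have t1 : ‖𝔼 M, (marg U w M : ℂ) * g M‖ ≤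
      u * (√(𝔼 M, 𝔼 i, w M i * 1) * √(𝔼 M, 𝔼 i, w M i * x M i)) +
      c * (√(𝔼 M, 𝔼 i, w M i * 1) * √(𝔼 M, 𝔼 i, w M i * (x M i - z M i))) +
      √(𝔼 M, 𝔼 i, w M i * bd M i) * √(𝔼 M, 𝔼 i, w M i * x M i) := by
    rw [← marg_id U w g]
    have c1 := StC_cs w (fun _ _ => 1) x hw (fun _ _ => zero_le_one) x0
    have c2 := StC_cs w (fun _ _ => 1) (fun M i => x M i - z M i) hw (fun _ _ => zero_le_one) zx
    have c3 := StC_cs w bd x hw bd0 x0
    calc _ ≤ 𝔼 M, 𝔼 i, w M i * (u * (√1 * √(x M i)) +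
          c * (√1 * √(x M i - z M i)) + √(bd M i) * √(x M i)) := by
          refine (RCLike.norm_expect_le (K := ℂ)).trans (expect_le_expect fun M _ => ?_)
          refine (RCLike.norm_expect_le (K := ℂ)).trans (expect_le_expect fun i _ => ?_)
          rw [norm_mul, Complex.norm_real, Real.norm_of_nonneg (hw M i)]
          exact mul_le_mul_of_nonneg_left (tile M i) (hw M i)
      _ = u * (𝔼 M, 𝔼 i, w M i * (√1 * √(x M i))) +
          c * (𝔼 M, 𝔼 i, w M i * (√1 * √(x M i - z M i))) +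
          𝔼 M, 𝔼 i, w M i * (√(bd M i) * √(x M i)) := by
          simp only [mul_expect, ← expect_add_distrib]
          exact expect_congr rfl fun M _ => expect_congr rfl fun i _ => by ring
      _ ≤ _ := by
          have d1 := mul_le_mul_of_nonneg_left c1 u0.le
          have d2 := mul_le_mul_of_nonneg_left c2 hc.le
          linarith
  have fin := StN_num (t := T * ε * (K + 1)) hγ hγ1 hc hc1 hu hε hε1 (by positivity) hε2 hε3 bW
    (bx.trans (by nlinarith)) bq (hbad.trans hbad1)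
  rw [split]
  refine lt_of_le_of_lt ((norm_add_le _ _).trans ?_) fin
  linarith

end core

theorem STEP2 {r r₁ : ℕ} (hGT : GTout (2 ^ r) r) (hMB : MBout (2 ^ r)) (cst : Prop) (hr : 0 < r₁)
    (hC : Claim2 2 (r - 1)) (hP : PrimOut2 cst r r₁) {c : ℝ} (hc : 0 < c) (hc1 : c ≤ 1)
    (hB : Bnd2 cst r r₁ c) : Bnd2 cst r r₁ ((1 - (800 * 2 ^ r : ℝ)⁻¹) * c) := by
  obtain ⟨γ, hγ⟩ : ∃ γ : ℝ, γ = (200 * 2 ^ r : ℝ)⁻¹ := ⟨_, rfl⟩
  have γ0 : 0 < γ := by rw [hγ]; positivity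
  have γ1 : γ ≤ 1 := by
    rw [hγ]
    exact inv_le_one_of_one_le₀ (by linarith [(one_le_pow₀ one_le_two : (1 : ℝ) ≤ 2 ^ r)])
  rw [show (800 * 2 ^ r : ℝ)⁻¹ = γ / 4 by rw [hγ]; field_simp; norm_num]
  obtain ⟨u, hu⟩ : ∃ u : ℝ, u = γ * c / 40 := ⟨_, rfl⟩
  have u0 : 0 < u := by rw [hu]; positivity
  have u1 : u ≤ 1 := by rw [hu]; nlinarith
  have l0 : 0 < (1 - γ / 4) * c := mul_pos (by linarith) hc
  obtain ⟨C₂, hC₂, hM₂⟩ := hMB
  obtain ⟨η, hη, J₁, hgood⟩ := good_tile2 cst hr hC hB u u0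
  obtain ⟨T, hT, hPr⟩ := hP u _ u0 l0
  set K : ℝ := √C₂ with hK
  have hK0 : 0 ≤ K := Real.sqrt_nonneg _
  have hK2 : K ^ 2 = C₂ := Real.sq_sqrt hC₂.le
  obtain ⟨ε, hε, e1, e2, e4, e3⟩ : ∃ ε : ℝ, 0 < ε ∧ ε ≤ u ∧ T * ε * (K + 1) ≤ u ∧ √T * ε ≤ u ∧
      ε + (2 * ε + ε + 4 * ε) / η ≤ u ^ 2 := by
    obtain ⟨d, d0, d1, d2⟩ := gt_small (1 + T * (K + 1) + √T + (1 + 7 / η)) (u ^ 2) (by positivity)
    have a1 : 0 ≤ T * (K + 1) * d := by positivity
    have a2 : 0 ≤ √T * d := by positivity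
    have a3 : 0 ≤ (1 + 7 / η) * d := by positivity
    have a4 : u ^ 2 ≤ u := by nlinarith
    have a5 : d + (2 * d + d + 4 * d) / η = (1 + 7 / η) * d := by ring
    refine ⟨d, d0, ?_, ?_, ?_, ?_⟩ <;> nlinarith
  obtain ⟨J₂, hUB⟩ := UB (p := 2) ε hε
  obtain ⟨J₃, hGT⟩ := hGT ε hε
  set J := max J₁ (max J₂ J₃) with hJ
  obtain ⟨θ, hθ, CG, hCG, hGT'⟩ := hGT J ((le_max_right _ _).trans (le_max_right _ _))
  obtain ⟨n0, hn0⟩ := pow_unbounded_of_one_lt (CG * ((2 : ℕ) : ℝ) ^ (r + J) / ε)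
    (by norm_num : (1 : ℝ) < (2 : ℕ))
  refine Ev.mono ((hPr (min θ 1) (by positivity)).and (Ev_basic ε hε n0)) ?_
  rintro ν _ _ A ⟨hA, hn, hNE⟩ X₁ X₂ _ _ _ _ _ _ b₁ b₂ e κ n1 n2 d1 d2 he a₁ a₂ h₀ h₁ h₂
  obtain ⟨R, hR⟩ : ∃ R : ℝ, R = 𝔼 v, nsq (a₁ v) * nsq (a₂ v) := ⟨_, rfl⟩
  have R0 : 0 ≤ R := hR ▸ expect_nonneg fun _ _ => mul_nonneg (nsq_nonneg _) (nsq_nonneg _)
  rw [← hR]
  rcases R0.eq_or_lt with z | z
  · have k := norm_expect_mul_le (fA A) fun M => FV b₁ a₁ M * FV b₂ a₂ M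
    rw [en_FV_mul n1 n2 he h₁ h₂, ← hR, ← z, Real.sqrt_zero, mul_zero] at k
    rw [← z, Real.sqrt_zero, mul_zero]
    exact k
  have sR : 0 < √R := Real.sqrt_pos.2 z
  let a₂' : (ν → ZMod 2) → (ν → X₂) → ℂ := fun v l => (((√R)⁻¹ : ℝ) : ℂ) * a₂ v l
  have h₂' : ∀ v, OnSl κ (fun i => (e i).2) (a₂' v) := fun v l hl =>
    h₂ v l (right_ne_zero_of_mul hl)
  have q1 : 𝔼 v, nsq (a₁ v) * nsq (a₂' v) ≤ 1 := by
    simp only [a₂', nsq_smul, Complex.norm_real, Real.norm_eq_abs, sq_abs, inv_pow,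
      Real.sq_sqrt R0, mul_left_comm _ R⁻¹]
    rw [← mul_expect, ← hR, inv_mul_cancel₀ z.ne']
  have hE : 𝔼 M, fA A M * (FV b₁ a₁ M * FV b₂ a₂ M) =
      ((√R : ℝ) : ℂ) * 𝔼 M, fA A M * (FV b₁ a₁ M * FV b₂ a₂' M) := by
    rw [mul_expect]
    refine expect_congr rfl fun M _ => ?_
    have : ((√R : ℝ) : ℂ) ≠ 0 := by exact_mod_cast sR.ne'
    simp only [FV, a₂', FF_smul]
    push_cast
    field_simp
  rw [hE, norm_mul, Complex.norm_real, Real.norm_of_nonneg sR.le, mul_comm]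
  refine mul_le_mul_of_nonneg_right ?_ sR.le
  by_contra hcon
  have hcon' := (not_le.1 hcon).le
  obtain ⟨D, c₁, c₂, k₁, k₂, hD, hD0, hE1, hO, hT2, hT1, hval⟩ :=
    hA X₁ X₂ b₁ b₂ e κ n1 n2 d1 d2 he a₁ a₂' h₀ h₁ h₂' q1 hcon'
  have c1 : Fintype.card X₁ ≤ 2 ^ r := by
    rw [card_eq_pow (p := 2)]
    exact Nat.pow_le_pow_right two_pos (by omega)
  haveI : Nontrivial X₁ := Module.nontrivial_of_finrank_pos (R := ZMod 2) (by omega)
  have hθ' : 0 ≤ min θ 1 := by positivity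
  have v1 : ∀ v, nsq (c₁ v) = ind D v := fun v => by
    by_cases hv : v ∈ D
    · rw [(hD v hv).1, ind_of_mem hv]
    · rw [hD0 v hv, ind_of_not hv]
      simp [nsq]
  have v2 : ∀ v, nsq (c₁ v) ≤ 1 := fun v => (v1 v).trans_le (l0_ind_le _ _)
  have hG₁ : ∀ v, GG (pol b₁) 1 (c₁ v) := fun v => by
    by_cases hv : v ∈ D
    · exact (hD v hv).2.1.2.1.mono (min_le_right _ _)
    · rw [hD0 v hv]
      exact GG_zero _
  obtain ⟨w, hw, hinv, hsl, hρ, hwC, hb⟩ := hGT' X₁ c1 ν b₁ n1 κ _ (span_fst he) c₁ D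
    (fun v hv => ⟨(hD v hv).1, k₁ v, (hD v hv).2.1.mono hθ' (min_le_left _ _),
      fun c hc y => ((hD v hv).2.2 c hc y).trans (min_le_left _ _)⟩)
    ((em cst).imp hE1 fun h c => (hO h c).trans (min_le_left _ _))
    (fun v => nsq (c₂ v) / T) fun v =>
      ⟨div_nonneg (nsq_nonneg _) hT.le, (div_le_one hT).2 (hT2 v)⟩
  have m1 : 𝔼 M, ‖FV b₁ c₁ M‖ ^ 4 ≤ K ^ 2 := by
    rw [hK2, expect_fibre]
    refine expect_le univ_nonempty fun M _ => le_trans (le_of_eq ?_)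
      (hM₂ X₁ c1 ν b₁ n1 (c₁ (dg M)) (v2 _) (hG₁ _) M)
    refine expect_congr rfl fun N _ => ?_
    rw [FV, dg_add, show dg N.1 = 0 from funext N.2, add_zero]
  have hpos : 0 < ‖𝔼 M, fA A M * (FV b₁ c₁ M * FV b₂ c₂ M)‖ := by
    have : u < (1 - γ / 4) * c := by rw [hu]; nlinarith
    linarith
  obtain ⟨M0, -, hM0⟩ := exists_ne_zero_of_expect_ne_zero (norm_pos_iff.1 hpos)
  obtain ⟨l₁, -, hl₁⟩ := exists_ne_zero_of_sum_ne_zero
    (left_ne_zero_of_mul (right_ne_zero_of_mul hM0))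
  obtain ⟨l₂, -, hl₂⟩ := exists_ne_zero_of_sum_ne_zero
    (right_ne_zero_of_mul (right_ne_zero_of_mul hM0))
  have hκ : Inj κᵀ := inj_slice d2 he (k₁ _ l₁ (left_ne_zero_of_mul hl₁))
    (k₂ _ l₂ (left_ne_zero_of_mul hl₂))
  have hm : ∀ M, marg (fun i : Matrix ν (Fin J) (ZMod 2) => fromCols κᵀ i) w M = 𝔼 i, w M i :=
    marg_of_inv _ w hinv
  have hni : 𝔼 M, 𝔼 i : Matrix ν (Fin J) (ZMod 2), w M i * ind {i | ¬ Inj (fromCols κᵀ i)} i ≤
      ε := by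
    rw [expect_comm]
    have hd := dens_not_inj (ν' := Fin J) κᵀ hκ
    simp only [Fintype.card_fin] at hd
    have hpn : ((2 : ℕ) : ℝ) ^ n0 ≤ ((2 : ℕ) : ℝ) ^ Fintype.card ν :=
      pow_le_pow_right₀ (by norm_num) hn
    calc _ ≤ 𝔼 i : Matrix ν (Fin J) (ZMod 2), CG * ind {i | ¬ Inj (fromCols κᵀ i)} i := by
          refine expect_le_expect fun i _ => ?_
          rw [← expect_mul]
          exact mul_le_mul_of_nonneg_right (hwC i) (ind_nonneg _ _)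
      _ = CG * dens {i : Matrix ν (Fin J) (ZMod 2) | ¬ Inj (fromCols κᵀ i)} := by
          rw [dens, mul_expect]
      _ ≤ CG * (((2 : ℕ) : ℝ) ^ (r + J) / ((2 : ℕ) : ℝ) ^ Fintype.card ν) :=
          mul_le_mul_of_nonneg_left hd hCG.le
      _ ≤ ε := by
          rw [← mul_div_assoc, div_le_iff₀ (by positivity)]
          rw [div_lt_iff₀ hε] at hn0
          nlinarith
  have hbad := MK (fun i : Matrix ν (Fin J) (ZMod 2) => fromCols κᵀ i) w hε.le hη (e1.trans u1) hNE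
    (hUB (Fin r ⊕ Fin J) (by
      simp only [Fintype.card_sum, Fintype.card_fin]
      exact ((le_max_left _ _).trans (le_max_right _ _)).trans (Nat.le_add_left _ _))) hw
    (StC_l1 _ hε.le (by simpa only [hm] using hρ)) hni
  have hb' : γ * (𝔼 v, nsq (c₁ v) * nsq (c₂ v)) - T * ε ≤ 𝔼 M, 𝔼 U, w M U *
      (‖FF b₁ (cut Uᵀ 0 (c₁ (dg M))) M‖ ^ 2 * nsq (c₂ (dg M))) := by
    have k := mul_le_mul_of_nonneg_left hb hT.le
    rw [← hγ, mul_sub, mul_left_comm, mul_expect (a := T), mul_expect (a := T)] at k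
    refine le_trans (le_of_eq ?_) (k.trans (expect_le_expect fun M _ => ?_))
    · congr 2
      refine expect_congr rfl fun v _ => ?_
      rw [v1]
      field_simp
    · rw [mul_expect]
      refine expect_le_expect fun U _ => ?_
      rw [mul_left_comm]
      refine mul_le_mul_of_nonneg_left ?_ (hw M U)
      have a1 : T * (ind D (dg M) * (nsq (c₂ (dg M)) / T) *
          ‖FF b₁ (cut Uᵀ 0 (c₁ (dg M))) M‖ ^ 2) = ind D (dg M) *
          (‖FF b₁ (cut Uᵀ 0 (c₁ (dg M))) M‖ ^ 2 * nsq (c₂ (dg M))) := by field_simp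
      rw [a1]
      exact mul_le_of_le_one_left (mul_nonneg (sq_nonneg _) (nsq_nonneg _)) (l0_ind_le _ _)
  have fin := St2_core (cst := cst) n1 n2 he (fun h => (hE1 h).2) k₁ k₂ v2 hT hT2 hT1 A γ0 γ1 hc hc1
    hu hε.le hK0 w hw hinv hsl hρ hb' m1 hbad
    (fun A' hA' a₁ a₂ o0 o1 o2 => hgood J (le_max_left _ _) A' hA' X₁ X₂ b₁ b₂ e _ n1 n2 d1 d2
      he rfl a₁ a₂ o0 o1 o2) e1 e2 e4 e3
  linarith

end Pool.Agent.Work.MP_4523ee_co.F2
end

-- merged part: Pool.Agent.Work.MP_4523ee_co.F2.PrB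
section
/-!
Reduction to primitive vectors in characteristic two: fibre means and stabiliser vectors.
-/

set_option autoImplicit false
set_option linter.unusedSectionVars false

namespace Pool.Agent.Work.MP_4523ee_co.F2

open Finset hiding dens
open Matrix Pool.Agent.Work.MP_4523ee_co.Fp
open scoped BigOperators ComplexConjugate

variable {ν : Type} [Fintype ν] [DecidableEq ν]

/-- mean over the fibre over `v` -/
noncomputable def fm (v : ν → ZMod 2) (G : SymM 2 ν → ℂ) : ℂ :=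
  (2 : ℂ) ^ Fintype.card ν * 𝔼 M, (ind (Fb v) M : ℂ) * G M

/-- joint eigenvector of a full size light group of Weyl operators -/
def Stab {X : Type} [AddCommGroup X] [Module (ZMod 2) X] [Fintype X] (β : Bil 2 X) (c lam : ℝ)
    (u : (ν → X) → ℂ) : Prop :=
  ∃ L : Submodule (ZMod 2) (GX X ν), St c lam L ∧ ∀ x ∈ L, ∃ z : ℂ, W β x u = fun l => z * u l

lemma card_vec2 : (Fintype.card (ν → ZMod 2) : ℝ) = 2 ^ Fintype.card ν := by
  simp [ZMod.card]

lemma expect_ind_pt (w : ν → ZMod 2) (g : (ν → ZMod 2) → ℂ) :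
    𝔼 v, (2 : ℂ) ^ Fintype.card ν * ((ind {v | w = v} v : ℂ) * g v) = g w := by
  classical
  have h : (Fintype.card (ν → ZMod 2) : ℂ) = 2 ^ Fintype.card ν := by simp [ZMod.card]
  rw [← mul_expect, Fintype.expect_eq_sum_div_card, sum_eq_single w
    (fun v _ hv => by rw [ind_of_not (A := {v | w = v}) (Ne.symm hv)]; simp)
    (fun a => absurd (mem_univ w) a), ind_of_mem (A := {v | w = v}) rfl, h]
  have : (2 : ℂ) ^ Fintype.card ν ≠ 0 := pow_ne_zero _ two_ne_zero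
  field_simp
  simp

lemma fm_avg (G : (ν → ZMod 2) → SymM 2 ν → ℂ) : 𝔼 v, fm v (G v) = 𝔼 M, G (dg M) M := by
  simp only [fm, mul_expect]
  rw [expect_comm]
  exact expect_congr rfl fun M _ => expect_ind_pt (dg M) fun v => G v M

lemma fm_smul (v : ν → ZMod 2) (c : ℂ) (G : SymM 2 ν → ℂ) :
    fm v (fun M => c * G M) = c * fm v G := by
  simp only [fm, mul_expect]
  exact expect_congr rfl fun M _ => by ring

lemma fm_congr {v : ν → ZMod 2} {G H : SymM 2 ν → ℂ} (h : ∀ M, dg M = v → G M = H M) :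
    fm v G = fm v H := by
  unfold fm
  refine congrArg _ (expect_congr rfl fun M _ => ?_)
  by_cases k : M ∈ Fb v
  · rw [h M k]
  · rw [ind_of_not k]
    simp

lemma expect_ind_pt_real (w : ν → ZMod 2) (g : (ν → ZMod 2) → ℝ) :
    (2 : ℝ) ^ Fintype.card ν * 𝔼 v, ind {v | v = w} v * g v = g w := by
  classical
  rw [Fintype.expect_eq_sum_div_card, sum_eq_single w
    (fun v _ hv => by rw [ind_of_not (A := {v | v = w}) hv, zero_mul])
    (fun a => absurd (mem_univ w) a), ind_of_mem (A := {v | v = w}) rfl, card_vec2]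
  field_simp

lemma dens_Fb_one (v : ν → ZMod 2) : (2 : ℝ) ^ Fintype.card ν * dens (Fb v) = 1 := by
  have h := expect_dg (ν := ν) fun d => ind {d | d = v} d * 1
  rw [← expect_ind_pt_real v fun _ => 1, ← h]
  simp only [mul_one]
  rfl

section
variable {X₁ X₂ : Type} [AddCommGroup X₁] [Module (ZMod 2) X₁] [Fintype X₁] [AddCommGroup X₂]
  [Module (ZMod 2) X₂] [Fintype X₂] {ι : Type} [Fintype ι] [DecidableEq ι] {b₁ : Bil 2 X₁}
  {b₂ : Bil 2 X₂} {κ : Matrix ι ν (ZMod 2)} {e : ι → X₁ × X₂}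

/-- isometry on one fibre -/
lemma fm_en (n₁ : NdB (pol b₁)) (n₂ : NdB (pol b₂))
    (he : Submodule.span (ZMod 2) (Set.range e) = ⊤) {u : (ν → X₁) → ℂ} {a : (ν → X₂) → ℂ}
    (h₁ : OnSl κ (fun i => (e i).1) u) (h₂ : OnSl κ (fun i => (e i).2) a) (v : ν → ZMod 2) :
    (2 : ℝ) ^ Fintype.card ν * 𝔼 M, ind (Fb v) M * ‖FF b₁ u M * FF b₂ a M‖ ^ 2 =
      nsq u * nsq a := by
  have h := FAC1 (NdB_pol_bp n₁ n₂) he (fun d => ind {d | d = v} d) (a := fun _ => tp u a)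
    fun _ => OnSl_tp h₁ h₂
  simp only [FV, FF_tp, nsq_tp] at h
  rw [← expect_ind_pt_real v fun _ => nsq u * nsq a, ← h]
  rfl

lemma fm_le (n₁ : NdB (pol b₁)) (n₂ : NdB (pol b₂))
    (he : Submodule.span (ZMod 2) (Set.range e) = ⊤) {u : (ν → X₁) → ℂ} {a : (ν → X₂) → ℂ}
    (h₁ : OnSl κ (fun i => (e i).1) u) (h₂ : OnSl κ (fun i => (e i).2) a) (v : ν → ZMod 2)
    {f : SymM 2 ν → ℂ} (hf : ∀ M, ‖f M‖ ≤ 1) :
    ‖fm v fun M => f M * (FF b₁ u M * FF b₂ a M)‖ ≤ √(nsq u) * √(nsq a) := by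
  have hi : ∀ M : SymM 2 ν, ind (Fb v) M * ind (Fb v) M = ind (Fb v) M := fun M => by
    rw [← ind_inter, Set.inter_self]
  have h := norm_expect_mul_le (fun M => (ind (Fb v) M : ℂ) * f M)
    fun M => (ind (Fb v) M : ℂ) * (FF b₁ u M * FF b₂ a M)
  have e1 : 𝔼 M, (ind (Fb v) M : ℂ) * f M * ((ind (Fb v) M : ℂ) * (FF b₁ u M * FF b₂ a M)) =
      𝔼 M, (ind (Fb v) M : ℂ) * (f M * (FF b₁ u M * FF b₂ a M)) :=
    expect_congr rfl fun M _ => by rw [mul_mul_mul_comm, ← Complex.ofReal_mul, hi]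
  have e2 : en (fun M => (ind (Fb v) M : ℂ) * f M) ≤ dens (Fb v) :=
    expect_le_expect fun M _ => by
      rw [norm_mul, mul_pow, Complex.norm_real, Real.norm_eq_abs, sq_abs, sq, hi]
      exact mul_le_of_le_one_right (ind_nonneg _ _) (pow_le_one₀ (norm_nonneg _) (hf M))
  have e3 : en (fun M => (ind (Fb v) M : ℂ) * (FF b₁ u M * FF b₂ a M)) =
      𝔼 M, ind (Fb v) M * ‖FF b₁ u M * FF b₂ a M‖ ^ 2 :=
    expect_congr rfl fun M _ => by
      rw [norm_mul, mul_pow, Complex.norm_real, Real.norm_eq_abs, sq_abs, sq, hi]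
  have p0 : (0 : ℝ) ≤ 2 ^ Fintype.card ν := by positivity
  rw [e1, e3] at h
  rw [fm, norm_mul, norm_pow, Complex.norm_ofNat, ← Real.sqrt_mul (nsq_nonneg _),
    ← fm_en n₁ n₂ he h₁ h₂ v, Real.sqrt_mul p0]
  refine (mul_le_mul_of_nonneg_left (h.trans (mul_le_mul_of_nonneg_right (Real.sqrt_le_sqrt e2)
    (Real.sqrt_nonneg _))) p0).trans (le_of_eq ?_)
  rw [← mul_assoc]
  congr 1
  nth_rewrite 1 [← Real.mul_self_sqrt p0]
  rw [mul_assoc, ← Real.sqrt_mul p0, dens_Fb_one, Real.sqrt_one, mul_one]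

/-- the vector that represents the pairing on one fibre -/
lemma exists_rep (b₁ : Bil 2 X₁) (κ : Matrix ι ν (ZMod 2)) (e₁ : ι → X₁) (v : ν → ZMod 2)
    (g : SymM 2 ν → ℂ) : ∃ ψ : (ν → X₁) → ℂ, OnSl κ e₁ ψ ∧
      ∀ u, ip ψ u = fm v fun M => g M * FF b₁ (cut κ e₁ u) M := by
  refine ⟨cut κ e₁ fun l => conj (fm v fun M => g M * chi b₁ M l), OnSl_cut _ _ _, fun u => ?_⟩
  simp only [FF, mul_sum, ip, fm]
  rw [expect_sum_comm, mul_sum]
  refine sum_congr rfl fun l _ => ?_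
  simp only [cut]
  split_ifs
  · rw [Complex.conj_conj, mul_assoc, Finset.expect_mul]
    exact congrArg _ (expect_congr rfl fun M _ => by ring)
  · simp

end

end Pool.Agent.Work.MP_4523ee_co.F2
end

-- merged part: Pool.Agent.Work.MP_4523ee_co.F2.PrV2
section
/-!
From tests to primitivity (no sets, only vectors).
-/

set_option autoImplicit false
set_option linter.unusedSectionVars false

namespace Pool.Agent.Work.MP_4523ee_co.F2

open Finset hiding dens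
open Matrix Pool.Agent.Work.MP_4523ee_co.Fp
open scoped BigOperators ComplexConjugate

/-- port of `Fp.pr_G` (`Ph_pw`, `Pj_Pj2`, `nsq_Pj2`) -/
lemma pr_G2 {X : Type} [AddCommGroup X] [Module (ZMod 2) X] [Fintype X] {ν : Type}
    [Fintype ν] [DecidableEq ν] {β : Bil 2 X} {b : (ν → X) → ℂ} {τ : ℝ} (h0 : 0 ≤ τ) (h2 : τ ≤ 1)
    (h : ∀ N : Submodule (ZMod 2) X, N ≠ ⊥ → Iso β N → ∀ (φ : Module.Dual (ZMod 2) (pw ν N))
      (u : (ν → X) → ℂ), Pj β (pw ν N).subtype φ u = u →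
      (Fintype.card N : ℝ) ^ Fintype.card ν * ‖ip b u‖ ^ 2 ≤ τ ^ 2 * nsq u) : GG β τ b := by
  intro N a1 a2 φ
  have h3 := h N a1 a2 φ _ (Pj_Pj2 (Ph_pw a2) φ b)
  rw [← nsq_Pj2 (Ph_pw a2), Complex.norm_real, Real.norm_of_nonneg (nsq_nonneg _)] at h3
  rcases (nsq_nonneg (Pj β (pw ν N).subtype φ b)).eq_or_lt with h4 | h4
  · rw [← h4, mul_zero]
    exact h0
  generalize nsq (Pj β (pw ν N).subtype φ b) = x at h3 h4 ⊢
  have h5 : τ ^ 2 * x ≤ τ * x := mul_le_mul_of_nonneg_right (by nlinarith) h4.le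
  refine le_of_mul_le_mul_right (le_of_eq_of_le ?_ (h3.trans h5)) h4
  ring

/-- `c` is `min c0 (c0 ^ 2)` with `c0` from `INV2`, `τ = min (min θ 1) (lam * c0 ^ 2)`.
`SS_of_test`; purity at `E ≠ ⊥, ⊤` is at most `τ |E| ^ n` (`SS` or `PUR_deg`), at `⊤` at most
`|X| ^ n` (`PUR2`); the vector `Pq` is `Stab` (`W_Pq`, `nsq_Pq`); `Pos` as in `Fp.PRIM` -/
theorem prim_of_tests (θ : ℝ) (hθ : 0 < θ) : ∃ c : ℝ, 0 < c ∧ ∀ lam : ℝ, 0 < lam →
    ∃ τ : ℝ, 0 < τ ∧ τ ≤ 1 ∧ ∀ (X : Type) [AddCommGroup X] [Module (ZMod 2) X] [Fintype X]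
      (ν : Type) [Fintype ν] [DecidableEq ν] (β : Bil 2 X), SymB β → NdB β →
      ∀ b : (ν → X) → ℂ, nsq b = 1 → GG β τ b →
      (∀ D D' : Submodule (ZMod 2) X, D ≠ ⊥ → D ≠ ⊤ → NdOn β D → NdOn β D' → IsCompl D D' →
        (∀ x ∈ D, ∀ y ∈ D', β x y = 0) → ∀ u, IsProd D D' u → ‖ip b u‖ ≤ τ * √(nsq u)) →
      (∀ x : X, x ≠ 0 → ∀ (y : ν → ZMod 2) (u : (ν → X) → ℂ),
        (∀ l, u l ≠ 0 → ∀ i, β x (l i) = y i) → ‖ip b u‖ ≤ τ * √(nsq u)) →
      (∀ u, nsq u ≤ 1 → Stab β c lam u → ‖ip b u‖ < c) → Prim β θ b ∧ Pos β θ b := by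
  obtain ⟨c, hc, hI⟩ := INV2 θ hθ
  refine ⟨min c (c ^ 2), by positivity, fun lam hl => ?_⟩
  obtain ⟨τ, τ0, τ1, τ2, τ3⟩ : ∃ τ : ℝ, 0 < τ ∧ τ ≤ θ ∧ τ ≤ 1 ∧ τ ≤ lam * c ^ 2 :=
    ⟨min (min θ 1) (lam * c ^ 2), by positivity, (min_le_left _ _).trans (min_le_left _ _),
      (min_le_left _ _).trans (min_le_right _ _), min_le_right _ _⟩
  refine ⟨τ, τ0, τ2, fun X _ _ _ ν _ _ β s1 n1 b hb hG hS hP hT => ?_⟩
  have hSS : SS β τ b := SS_of_test s1 n1 τ0.le hb.le fun D D' a1 a2 a3 a4 a5 a6 u hu => by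
    rw [prim_ip_comm]
    exact hS D D' a1 a2 a3 a4 a5 a6 u hu
  refine ⟨⟨hb.le, hG.mono τ1, fun D a1 a2 a3 => (hSS D a1 a2 a3).trans
    (mul_le_mul_of_nonneg_right (pow_le_pow_left₀ τ0.le τ1 2) (by positivity)), ?_⟩,
    fun x hx v => ?_⟩
  · by_contra hn
    obtain ⟨L, -, a2, ⟨σ, φ, hσ, a3⟩, a4⟩ := hI X ν β s1 n1 b hb.le hn
    have c2 : 0 < c ^ 2 := by positivity
    have hSt : St (min c (c ^ 2)) lam L := by
      refine ⟨?_, ?_, fun E e1 e2 => ?_⟩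
      · rw [pn, Nat.card_eq_fintype_card, Nat.card_eq_fintype_card]
        exact (mul_le_mul_of_nonneg_right (min_le_left _ _) (by positivity)).trans a2
      · have k1 := (a4 ⊤).trans (PUR2 s1 hb.le le_rfl (hG.mono τ2) ⊤)
        have k2 : L ⊓ pw ν (⊤ : Submodule (ZMod 2) X) = L :=
          inf_eq_left.2 fun x _ => mem_pw.2 ⟨fun _ => trivial, fun _ => trivial⟩
        have k3 : Nat.card (⊤ : Submodule (ZMod 2) X) = Nat.card X :=
          Nat.card_congr Submodule.topEquiv.toEquiv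
        rw [← Nat.card_eq_fintype_card, ← Nat.card_eq_fintype_card (α := (⊤ : Submodule _ X)),
          k2, k3, one_mul] at k1
        rw [le_div_iff₀ (by positivity), mul_comm, pn]
        exact (mul_le_mul_of_nonneg_right (min_le_right _ _) (Nat.cast_nonneg _)).trans k1
      · have k1 : ∑ x : pw ν E, ‖Xi β b x.1‖ ^ 2 ≤
            τ * (Fintype.card E : ℝ) ^ Fintype.card ν := by
          by_cases hE : NdOn β E
          · exact (hSS E e1 e2 hE).trans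
              (mul_le_mul_of_nonneg_right (by nlinarith) (by positivity))
          · have := PUR_deg s1 hG hE
            rwa [hb, mul_one] at this
        have k2 := ((a4 E).trans k1).trans (mul_le_mul_of_nonneg_right τ3 (by positivity))
        rw [pn, Nat.card_eq_fintype_card, Nat.card_eq_fintype_card]
        refine le_of_mul_le_mul_left (k2.trans (le_of_eq ?_)) c2
        ring
    have hu := hT (Pq β L.subtype σ φ b) ((nsq_Pq_le hσ φ b).trans hb.le)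
      ⟨L, hSt, fun x hx => ⟨(σ ⟨x, hx⟩)⁻¹ * ee (φ ⟨x, hx⟩), funext fun l => by
        have k1 := W_Pq hσ φ b ⟨x, hx⟩ l
        have k2 : σ ⟨x, hx⟩ ≠ 0 := fun e => by simpa [e] using hσ.1 ⟨x, hx⟩
        rw [mul_assoc, ← k1, inv_mul_cancel_left₀ k2]
        rfl⟩⟩
    rw [← nsq_Pq hσ, Complex.norm_real, Real.norm_of_nonneg (nsq_nonneg _)] at hu
    exact absurd ((min_le_left _ _).trans a3) hu.not_ge
  · let u : (ν → X) → ℂ := fun l => (ind {l : ν → X | ∀ i, β x (l i) = v i} l : ℝ) * b l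
    have u2 : ∀ l, u l = b l ∧ ind {l : ν → X | ∀ i, β x (l i) = v i} l = 1 ∨
        u l = 0 ∧ ind {l : ν → X | ∀ i, β x (l i) = v i} l = 0 := fun l => by
      by_cases h : l ∈ {l : ν → X | ∀ i, β x (l i) = v i}
      · simp [u, ind_of_mem h]
      · simp [u, ind_of_not h]
    have u3 : ip b u = nsq u := by
      rw [← ip_self]
      refine sum_congr rfl fun l _ => ?_
      rcases u2 l with ⟨a, -⟩ | ⟨a, -⟩ <;> simp [a]
    have u4 := hP x hx v u fun l hl => by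
      by_contra h
      exact hl (by simp only [u, ind_of_not (A := {l : ν → X | ∀ i, β x (l i) = v i}) h]; simp)
    rw [u3, Complex.norm_real, Real.norm_of_nonneg (nsq_nonneg u)] at u4
    refine le_of_eq_of_le (sum_congr rfl fun l _ => ?_)
      ((pr_sq (nsq_nonneg u) τ0.le τ2 u4).trans τ1)
    rcases u2 l with ⟨a, b⟩ | ⟨a, b⟩ <;> simp [a, b]

lemma prV_ip_smul {α : Type} [Fintype α] (c : ℂ) (a b : α → ℂ) :
    ip a (fun l => c * b l) = c * ip a b := by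
  simp only [ip, mul_sum]
  exact sum_congr rfl fun l _ => by ring

lemma prV_sq {x t : ℝ} (hx : 0 ≤ x) (h : x ≤ t * √x) : x ≤ t ^ 2 := by
  have h1 := Real.mul_self_sqrt hx
  nlinarith [sq_nonneg (√x - t)]

/-- choose on the bad set a unit witness with a phase, zero elsewhere -/
lemma bad_dens {V α : Type} [Fintype V] [Nonempty V] [Fintype α] (ψ : V → α → ℂ)
    (P : V → (α → ℂ) → Prop) (hP : ∀ v u (c : ℂ), P v u → P v fun l => c * u l)
    (h0 : ∀ v, P v fun _ => 0) {t η : ℝ} (ht : 0 ≤ t) (hη : 0 < η)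
    (h : ∀ u : V → α → ℂ, (∀ v, P v (u v)) → ‖𝔼 v, ip (ψ v) (u v)‖ ≤ t * √(𝔼 v, nsq (u v))) :
    dens {v | ∃ u, P v u ∧ η * √(nsq u) < ‖ip (ψ v) u‖} ≤ (t / η) ^ 2 := by
  set B : Set V := {v | ∃ u, P v u ∧ η * √(nsq u) < ‖ip (ψ v) u‖} with hB
  have key : ∀ v, ∃ (w : α → ℂ) (r : ℝ), P v w ∧ nsq w = ind B v ∧ η * ind B v ≤ r ∧
      ip (ψ v) w = (r : ℂ) := by
    intro v
    by_cases k : v ∈ B
    · obtain ⟨u, hu, hl⟩ := k
      have k' : v ∈ B := ⟨u, hu, hl⟩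
      have s0 := Real.sqrt_nonneg (nsq u)
      have z0 : 0 < ‖ip (ψ v) u‖ := lt_of_le_of_lt (mul_nonneg hη.le s0) hl
      have s1 : 0 < √(nsq u) := by
        refine lt_of_le_of_ne s0 fun e => ?_
        have := norm_ip_le (ψ v) u
        rw [← e, mul_zero] at this
        exact absurd z0 (not_lt.2 this)
      refine ⟨fun l => (conj (ip (ψ v) u) / ((‖ip (ψ v) u‖ * √(nsq u) : ℝ) : ℂ)) * u l,
        ‖ip (ψ v) u‖ / √(nsq u), hP _ _ _ hu, ?_, ?_, ?_⟩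
      · rw [nsq_smul, ind_of_mem k', norm_div, Complex.norm_conj, Complex.norm_real,
          Real.norm_of_nonneg (by positivity), div_pow, mul_pow, Real.sq_sqrt (nsq_nonneg u)]
        have : 0 < nsq u := Real.sqrt_pos.1 s1
        field_simp
      · rw [ind_of_mem k', mul_one, le_div_iff₀ s1]
        exact hl.le
      · rw [prV_ip_smul, div_mul_eq_mul_div, Complex.conj_mul']
        have a1 : ((‖ip (ψ v) u‖ : ℝ) : ℂ) ≠ 0 := by exact_mod_cast z0.ne'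
        have a2 : ((√(nsq u) : ℝ) : ℂ) ≠ 0 := by exact_mod_cast s1.ne'
        push_cast
        field_simp
    · refine ⟨fun _ => 0, 0, h0 v, ?_, ?_, ?_⟩
      · simp [nsq, ind_of_not k]
      · simp [ind_of_not k]
      · simp [ip]
  choose w r hw hn hr hi using key
  have h1 := h w hw
  have e1 : 𝔼 v, nsq (w v) = dens B := expect_congr rfl fun v _ => hn v
  have e2 : 𝔼 v, ip (ψ v) (w v) = ((𝔼 v, r v : ℝ) : ℂ) := by
    rw [Complex.ofReal_expect]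
    exact expect_congr rfl fun v _ => hi v
  have e3 : η * dens B ≤ 𝔼 v, r v := by
    rw [dens, mul_expect]
    exact expect_le_expect fun v _ => hr v
  rw [e1, e2, Complex.norm_real, Real.norm_eq_abs] at h1
  refine prV_sq (dens_nonneg B) ?_
  rw [div_mul_eq_mul_div, le_div_iff₀ hη, mul_comm]
  exact e3.trans ((le_abs_self _).trans h1)

/-- for fixed `v` test against `g l = a v l * ee (β c (∑ v i • l i))` and `z v' = conj (ip ..)` -/
lemma SP_of_test {X : Type} [AddCommGroup X] [Module (ZMod 2) X] [Fintype X] {ν : Type}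
    [Fintype ν] [DecidableEq ν] (β : Bil 2 X) (ψ a : (ν → ZMod 2) → (ν → X) → ℂ)
    (D : Set (ν → ZMod 2)) {t m θ : ℝ} (ht : 0 ≤ t) (hθ : (m * t) ^ 2 ≤ θ)
    (ha : ∀ v ∈ D, nsq (a v) ≤ 1 ∧ ∃ k : ℂ, ‖k‖ ≤ m ∧ a v = fun l => k * ψ v l)
    (h : ∀ (c : X) (g : (ν → X) → ℂ) (z : (ν → ZMod 2) → ℂ),
      ‖𝔼 v, ip (ψ v) fun l => z v * (g l * ee (β c (∑ i, v i • l i)))‖ ≤
        t * √(𝔼 v, ‖z v‖ ^ 2 * nsq g)) : SP β θ D a := by
  intro c
  refine expect_le univ_nonempty fun v _ => ?_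
  by_cases hv : v ∈ D
  swap
  · simp only [ind_of_not hv, zero_mul, expect_const_zero]
    exact (sq_nonneg _).trans hθ
  have ce : ∀ x : ZMod 2, conj (ee x) = ee x := fun x => by rw [conj_ee, CharTwo.neg_eq]
  set g : (ν → X) → ℂ := fun l => a v l * ee (β c (∑ i, v i • l i)) with hg
  set I : (ν → ZMod 2) → ℂ := fun v' =>
    ip (ψ v') fun l => g l * ee (β c (∑ i, v' i • l i)) with hI
  have ng : nsq g ≤ 1 := by
    refine le_of_eq_of_le ?_ (ha v hv).1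
    simp only [nsq, hg, norm_mul, norm_ee, mul_one]
  have x0 : 0 ≤ 𝔼 v', ‖I v'‖ ^ 2 := expect_nonneg fun _ _ => sq_nonneg _
  have h1 : 𝔼 v', ‖I v'‖ ^ 2 ≤ t ^ 2 := by
    refine prV_sq x0 ?_
    have k := h c g fun v' => conj (I v')
    have e1 : (𝔼 v', ip (ψ v') fun l => conj (I v') * (g l * ee (β c (∑ i, v' i • l i)))) =
        ((𝔼 v', ‖I v'‖ ^ 2 : ℝ) : ℂ) := by
      rw [Complex.ofReal_expect]
      refine expect_congr rfl fun v' _ => ?_
      rw [prV_ip_smul, Complex.ofReal_pow]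
      exact Complex.conj_mul' _
    rw [e1, Complex.norm_real, Real.norm_of_nonneg x0] at k
    refine k.trans (mul_le_mul_of_nonneg_left (Real.sqrt_le_sqrt ?_) ht)
    refine expect_le_expect fun v' _ => ?_
    rw [Complex.norm_conj]
    exact mul_le_of_le_one_right (sq_nonneg _) ng
  have h2 : ∀ v', ind D v * ind D v' *
      ‖∑ l, conj (a v l) * a v' l * ee (β c (∑ i, (v + v') i • l i))‖ ^ 2 ≤
        m ^ 2 * ‖I v'‖ ^ 2 := by
    intro v'
    by_cases hv' : v' ∈ D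
    swap
    · rw [ind_of_not hv', mul_zero, zero_mul]
      positivity
    obtain ⟨-, k, hk, e⟩ := ha v' hv'
    have e1 : ∑ l, conj (a v l) * a v' l * ee (β c (∑ i, (v + v') i • l i)) =
        k * conj (I v') := by
      simp only [hI, hg, ip, map_sum, map_mul, Complex.conj_conj, ce, mul_sum, e]
      refine sum_congr rfl fun l _ => ?_
      simp only [Pi.add_apply, add_smul, map_add, sum_add_distrib, ee_add]
      ring
    rw [ind_of_mem hv, ind_of_mem hv', one_mul, one_mul, e1, norm_mul, Complex.norm_conj, mul_pow]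
    exact mul_le_mul_of_nonneg_right (pow_le_pow_left₀ (norm_nonneg _) hk 2) (sq_nonneg _)
  refine (expect_le_expect fun v' _ => h2 v').trans ?_
  rw [← mul_expect]
  refine (mul_le_mul_of_nonneg_left h1 (sq_nonneg _)).trans ?_
  rwa [← mul_pow]

end Pool.Agent.Work.MP_4523ee_co.F2
end

-- merged part: Pool.Agent.Work.MP_4523ee_co.F2.PrM2
section
/-!
Normalised vectors; most fibres of a family that passes the tests are primitive.
-/

set_option autoImplicit false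
set_option linter.unusedSectionVars false

namespace Pool.Agent.Work.MP_4523ee_co.F2

open Finset hiding dens
open Matrix Pool.Agent.Work.MP_4523ee_co.Fp
open scoped BigOperators ComplexConjugate

section
variable {α : Type} [Fintype α]

/-- normalised vector -/
noncomputable def nrm (a : α → ℂ) : α → ℂ := fun l => (((√(nsq a))⁻¹ : ℝ) : ℂ) * a l

lemma nsq_real_smul (c : ℝ) (a : α → ℂ) : nsq (fun l => (c : ℂ) * a l) = c ^ 2 * nsq a := by
  rw [nsq_smul, Complex.norm_real, Real.norm_eq_abs, sq_abs]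

lemma nsq_nrm {a : α → ℂ} (h : nsq a ≠ 0) : nsq (nrm a) = 1 := by
  unfold nrm
  rw [nsq_real_smul, inv_pow, Real.sq_sqrt (nsq_nonneg a), inv_mul_cancel₀ h]

lemma nsq_nrm_le (a : α → ℂ) : nsq (nrm a) ≤ 1 := by
  by_cases h : nsq a = 0
  · unfold nrm
    rw [nsq_real_smul, h, mul_zero]
    exact zero_le_one
  · exact (nsq_nrm h).le

lemma mul_nrm (a : α → ℂ) : a = fun l => ((√(nsq a) : ℝ) : ℂ) * nrm a l := by
  funext l
  by_cases h : nsq a = 0
  · have h1 := (sum_eq_zero_iff_of_nonneg fun l _ => sq_nonneg ‖a l‖).1 h l (mem_univ l)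
    rw [nrm, norm_eq_zero.1 (pow_eq_zero_iff two_ne_zero |>.1 h1), mul_zero, mul_zero]
  · rw [nrm, ← mul_assoc, ← Complex.ofReal_mul, mul_inv_cancel₀
      (Real.sqrt_ne_zero'.2 ((nsq_nonneg a).lt_of_ne' h)), Complex.ofReal_one, one_mul]

lemma ip_nrm_le {a : α → ℂ} {m : ℝ} (h : m ^ 2 ≤ nsq a) (u : α → ℂ) :
    m * ‖ip (nrm a) u‖ ≤ ‖ip a u‖ := by
  conv_rhs => rw [mul_nrm a, ip_smul_left2, norm_mul, Complex.conj_ofReal, Complex.norm_real,
    Real.norm_of_nonneg (Real.sqrt_nonneg _)]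
  exact mul_le_mul_of_nonneg_right (Real.le_sqrt_of_sq_le h) (norm_nonneg _)

end

theorem prim_most (θ : ℝ) (hθ : 0 < θ) : ∃ c : ℝ, 0 < c ∧ ∀ lam : ℝ, 0 < lam →
    ∃ τ : ℝ, 0 < τ ∧ τ ≤ 1 ∧ ∀ (X : Type) [AddCommGroup X] [Module (ZMod 2) X] [Fintype X]
      (ν : Type) [Fintype ν] [DecidableEq ν] (β : Bil 2 X), SymB β → NdB β →
      ∀ (ψ : (ν → ZMod 2) → (ν → X) → ℂ) (m t ρ : ℝ), 0 < m → 0 ≤ t → t ≤ τ * m →
      (∀ v, ∀ N : Submodule (ZMod 2) X, N ≠ ⊥ → Iso β N →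
        ∀ (φ : Module.Dual (ZMod 2) (pw ν N)) (u : (ν → X) → ℂ), Pj β (pw ν N).subtype φ u = u →
        (Fintype.card N : ℝ) ^ Fintype.card ν * ‖ip (ψ v) u‖ ^ 2 ≤ t ^ 2 * nsq u) →
      (∀ D D' : Submodule (ZMod 2) X, D ≠ ⊥ → D ≠ ⊤ → NdOn β D → NdOn β D' → IsCompl D D' →
        (∀ x ∈ D, ∀ y ∈ D', β x y = 0) → ∀ u : (ν → ZMod 2) → (ν → X) → ℂ,
        (∀ v, IsProd D D' (u v)) → ‖𝔼 v, ip (ψ v) (u v)‖ ≤ t * √(𝔼 v, nsq (u v))) →
      (∀ x : X, x ≠ 0 → ∀ u : (ν → ZMod 2) → (ν → X) → ℂ,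
        (∀ v, ∃ y : ν → ZMod 2, ∀ l, u v l ≠ 0 → ∀ i, β x (l i) = y i) →
        ‖𝔼 v, ip (ψ v) (u v)‖ ≤ t * √(𝔼 v, nsq (u v))) →
      (∀ u : (ν → ZMod 2) → (ν → X) → ℂ, (∀ v, nsq (u v) ≤ 1) →
        dens {v | Stab β c lam (u v) ∧ c * m ≤ ‖ip (ψ v) (u v)‖} ≤ ρ) →
      dens {v | m ^ 2 ≤ nsq (ψ v) ∧ ¬ (Prim β θ (nrm (ψ v)) ∧ Pos β θ (nrm (ψ v)))} ≤
        (2 ^ Fintype.card X * 2 ^ Fintype.card X + Fintype.card X) * (t / (τ * m)) ^ 2 + ρ := by
  classical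
  obtain ⟨c, hc, h⟩ := prim_of_tests θ hθ
  refine ⟨c, hc, fun lam hlam => ?_⟩
  obtain ⟨τ, τ0, τ1, h⟩ := h lam hlam
  refine ⟨τ, τ0, τ1, fun X _ _ _ ν _ _ β s1 n1 ψ m t ρ hm ht htm hG hS hP hT => ?_⟩
  have η0 : 0 < τ * m := mul_pos τ0 hm
  have hu : ∀ v, ∃ u, nsq u ≤ 1 ∧ ((∃ u, nsq u ≤ 1 ∧ Stab β c lam u ∧ c * m ≤ ‖ip (ψ v) u‖) →
      Stab β c lam u ∧ c * m ≤ ‖ip (ψ v) u‖) := fun v => by
    by_cases k : ∃ u, nsq u ≤ 1 ∧ Stab β c lam u ∧ c * m ≤ ‖ip (ψ v) u‖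
    · exact ⟨_, k.choose_spec.1, fun _ => k.choose_spec.2⟩
    · exact ⟨fun _ => 0, by simp [nsq], fun a => absurd a k⟩
  choose u0 u1 u2 using hu
  let _ : Fintype (Submodule (ZMod 2) X) := Fintype.ofFinite _
  let C : Submodule (ZMod 2) X × Submodule (ZMod 2) X → Prop := fun q =>
    q.1 ≠ ⊥ ∧ q.1 ≠ ⊤ ∧ NdOn β q.1 ∧ NdOn β q.2 ∧ IsCompl q.1 q.2 ∧ ∀ x ∈ q.1, ∀ y ∈ q.2, β x y = 0
  let B1 : Submodule (ZMod 2) X × Submodule (ZMod 2) X → Set (ν → ZMod 2) := fun q =>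
    {v | C q ∧ ∃ u, IsProd q.1 q.2 u ∧ τ * m * √(nsq u) < ‖ip (ψ v) u‖}
  let B2 : X → Set (ν → ZMod 2) := fun x => {v | x ≠ 0 ∧ ∃ u : (ν → X) → ℂ,
    (∃ y : ν → ZMod 2, ∀ l, u l ≠ 0 → ∀ i, β x (l i) = y i) ∧ τ * m * √(nsq u) < ‖ip (ψ v) u‖}
  let B3 : Set (ν → ZMod 2) := {v | Stab β c lam (u0 v) ∧ c * m ≤ ‖ip (ψ v) (u0 v)‖}
  have z0 : ∀ {S : Set (ν → ZMod 2)}, (∀ v, v ∉ S) → dens S ≤ (t / (τ * m)) ^ 2 := fun hS => by
    rw [dens, expect_eq_zero fun v _ => ind_of_not (hS v)]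
    positivity
  have d1 : ∀ q, dens (B1 q) ≤ (t / (τ * m)) ^ 2 := fun q => by
    by_cases k : C q
    · refine (dens_mono fun v hv => hv.2).trans (bad_dens ψ (fun _ u => IsProd q.1 q.2 u)
        (fun _ u z ⟨g, g', hg⟩ => ⟨fun l => z * g l, g', fun x y a b => by
          simp only [hg x y a b, mul_assoc]⟩)
        (fun _ => ⟨fun _ => 0, fun _ => 0, fun _ _ _ _ => (mul_zero _).symm⟩) ht η0 ?_)
      exact hS q.1 q.2 k.1 k.2.1 k.2.2.1 k.2.2.2.1 k.2.2.2.2.1 k.2.2.2.2.2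
    · exact z0 fun v hv => k hv.1
  have d2 : ∀ x, dens (B2 x) ≤ (t / (τ * m)) ^ 2 := fun x => by
    by_cases k : x = 0
    · exact z0 fun v hv => hv.1 k
    · exact (dens_mono fun v hv => hv.2).trans (bad_dens ψ
        (fun _ u => ∃ y : ν → ZMod 2, ∀ l, u l ≠ 0 → ∀ i, β x (l i) = y i)
        (fun _ u z ⟨y, hy⟩ => ⟨y, fun l hl => hy l (right_ne_zero_of_mul hl)⟩)
        (fun _ => ⟨0, fun l hl => absurd rfl hl⟩) ht η0 (hP x k))
  refine (dens_le_sum univ _ (fun o : Option (_ ⊕ X) => o.elim B3 (Sum.elim B1 B2))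
    fun v hv => ?_).trans ?_
  · by_contra hn
    push Not at hn
    have k := ip_nrm_le hv.1
    have k' : ∀ u, ‖ip (ψ v) u‖ ≤ τ * m * √(nsq u) → ‖ip (nrm (ψ v)) u‖ ≤ τ * √(nsq u) :=
      fun u hu => le_of_mul_le_mul_left ((k u).trans (hu.trans_eq (by ring))) hm
    refine hv.2 (h X ν β s1 n1 _ (nsq_nrm ((pow_pos hm 2).trans_le hv.1).ne')
      (pr_G2 τ0.le τ1 fun N a1 a2 φ u a3 => ?_) (fun D D' a1 a2 a3 a4 a5 a6 u a7 => k' u ?_)
      (fun x hx y u a1 => k' u ?_) fun u a1 a2 => ?_)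
    · have b1 := pow_le_pow_left₀ (by positivity) (k u) 2
      have b2 := mul_le_mul_of_nonneg_right (pow_le_pow_left₀ ht htm 2) (nsq_nonneg u)
      have b3 := (mul_le_mul_of_nonneg_left b1 (by positivity)).trans
        ((hG v N a1 a2 φ u a3).trans b2)
      refine le_of_mul_le_mul_left (le_of_eq_of_le ?_ (b3.trans_eq ?_)) (pow_pos hm 2) <;> ring
    · exact not_lt.1 fun a => hn (some (Sum.inl (D, D'))) (mem_univ _)
        ⟨⟨a1, a2, a3, a4, a5, a6⟩, u, a7, a⟩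
    · exact not_lt.1 fun a => hn (some (Sum.inr x)) (mem_univ _) ⟨hx, u, ⟨y, a1⟩, a⟩
    · refine not_le.1 fun a => hn none (mem_univ _) (u2 v ⟨u, a1, a2, le_trans ?_ (k u)⟩)
      rw [mul_comm]
      exact mul_le_mul_of_nonneg_left a hm.le
  · rw [Fintype.sum_option, Fintype.sum_sum_type, add_comm, add_mul]
    refine add_le_add (add_le_add ((sum_le_card_nsmul _ _ _ fun q _ => d1 q).trans ?_)
      ((sum_le_card_nsmul _ _ _ fun x _ => d2 x).trans_eq ?_)) (hT u0 u1)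
    · have k : (Fintype.card (Submodule (ZMod 2) X) : ℝ) ≤ 2 ^ Fintype.card X := by
        rw [← Nat.card_eq_fintype_card]
        exact_mod_cast card_submodule_le (p := 2) (X := X)
      rw [nsmul_eq_mul, card_univ, Fintype.card_prod, Nat.cast_mul]
      gcongr
    · rw [nsmul_eq_mul, card_univ]

end Pool.Agent.Work.MP_4523ee_co.F2
end

-- merged part: Pool.Agent.Work.MP_4523ee_co.F2.PrK2
section
/-!
Position type tests: supports on which `pol b ξ` is almost constant.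
-/

set_option autoImplicit false
set_option linter.unusedSectionVars false

namespace Pool.Agent.Work.MP_4523ee_co.F2

open Finset hiding dens
open Matrix Pool.Agent.Work.MP_4523ee_co.Fp
open scoped BigOperators ComplexConjugate

/-- port of `Fp.atom` in one direction (`W2`, `chi_addP`, `bt_act`) -/
theorem atom2 {X : Type} [AddCommGroup X] [Module (ZMod 2) X] [Fintype X]
    {ν ν' : Type} [Fintype ν] [DecidableEq ν] [Fintype ν'] [DecidableEq ν'] (b : Bil 2 X)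
    (u : (ν → X) → ℂ) (M : SymM 2 ν) (U : Matrix ν ν' (ZMod 2)) (ξ : X) (w : ν' → ZMod 2)
    (x : GX X ν) (h1 : ∃ c : ℂ, W (pol b) x u = fun l => c * u l)
    (h2 : x.2 - act M.1 x.1 = fun i => (U *ᵥ w) i • ξ) (h3 : act Uᵀ x.1 = 0) {s s' : ν' → X}
    (hs : aT b u M U s ≠ 0) (hs' : aT b u M U s' ≠ 0) :
    w ⬝ᵥ (fun j => pol b ξ (s j)) = w ⬝ᵥ fun j => pol b ξ (s' j) := by
  obtain ⟨c, h1⟩ := h1
  have e3 : (fun i => (U *ᵥ w) i • ξ) = act U fun j => w j • ξ := by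
    funext i
    simp only [act, mulVec, dotProduct, Finset.sum_smul, mul_smul]
  have key : ∀ s, aT b u M U s =
      c * chi b M x.1 * ee (w ⬝ᵥ fun j => pol b ξ (s j)) * aT b u M U s := by
    intro s
    rw [aT, FF, mul_sum, ← Equiv.sum_comp (Equiv.addRight x.1)]
    refine sum_congr rfl fun l _ => ?_
    have e0 : act Uᵀ (l + x.1) = act Uᵀ l := by rw [act_add, h3, add_zero]
    rw [Equiv.coe_addRight, cut, cut]
    by_cases k : act Uᵀ l = s
    swap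
    · rw [if_neg k, if_neg (e0 ▸ k), zero_mul, zero_mul, mul_zero]
    rw [if_pos k, if_pos (e0.trans k)]
    have e1 : u (l + x.1) = ee (bt (pol b) x.2 l) * (c * u l) := by
      rw [← congrFun h1 l, W2, ← mul_assoc, ee_mul_self2, one_mul]
    have e2 : bt (pol b) x.2 l =
        (w ⬝ᵥ fun j => pol b ξ (s j)) + bt (pol b) (act M.1 x.1) l := by
      rw [sub_eq_iff_eq_add.1 h2, bt_add_left, e3, bt_act, k]
      simp only [bt, dotProduct, map_smul, LinearMap.smul_apply, smul_eq_mul]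
    rw [e1, chi_addP, e2, ee_add]
    linear_combination (c * chi b M x.1 * ee (w ⬝ᵥ fun j => pol b ξ (s j)) * (u l * chi b M l)) *
      ee_mul_self2 (bt (pol b) (act M.1 x.1) l)
  have a1 := (mul_eq_right₀ hs).1 (key s).symm
  have a2 := (mul_eq_right₀ hs').1 (key s').symm
  exact ZMod.injective_stdAddChar
    (mul_left_cancel₀ (left_ne_zero_of_mul_eq_one a1) (a1.trans a2.symm))

/-- the annihilator of a subspace of index at most `K` has at most `K` elements -/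
lemma flds {J : Type} [Fintype J] [DecidableEq J] {K : ℕ} (Wd : Submodule (ZMod 2) (J → ZMod 2))
    (h : Nat.card (J → ZMod 2) ≤ K * Nat.card Wd) :
    ∃ ψ : Fin K → J → ZMod 2, ∀ y : J → ZMod 2, (∀ w ∈ Wd, w ⬝ᵥ y = 0) → ∃ i, ψ i = y := by
  let P := Wd.dualAnnihilator.map (dotProductEquiv (ZMod 2) J).symm.toLinearMap
  have hP : Nat.card P ≤ K := by
    have h1 := Subspace.finrank_add_finrank_dualAnnihilator_eq Wd
    rw [Module.natCard_eq_pow_finrank (K := ZMod 2) (V := J → ZMod 2),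
      Module.natCard_eq_pow_finrank (K := ZMod 2) (V := Wd), ← h1, pow_add, mul_comm K] at h
    rw [Module.natCard_eq_pow_finrank (K := ZMod 2) (V := P), LinearEquiv.finrank_map_eq]
    exact Nat.le_of_mul_le_mul_left h (by rw [Nat.card_zmod]; positivity)
  refine ⟨fun i => if k : i.1 < Nat.card P then ((Finite.equivFin P).symm ⟨i.1, k⟩).1 else 0,
    fun y hy => ?_⟩
  have hy' : y ∈ P := by
    rw [Submodule.mem_map_equiv, LinearEquiv.symm_symm, Submodule.mem_dualAnnihilator]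
    intro w hw
    rw [← hy w hw, dotProduct_comm]
    rfl
  refine ⟨⟨(Finite.equivFin P ⟨y, hy'⟩).1, (Finite.equivFin P ⟨y, hy'⟩).2.trans_le hP⟩, ?_⟩
  simp only [Fin.is_lt, dif_pos, Fin.eta, Equiv.symm_apply_apply]

/-- `Lv_pos` with a moving value -/
lemma Lv_pos' {X₁ X₂ : Type} [AddCommGroup X₁] [Module (ZMod 2) X₁] [Fintype X₁] [AddCommGroup X₂]
    [Module (ZMod 2) X₂] [Fintype X₂] {ν ν' : Type} [Fintype ν] [DecidableEq ν] [Fintype ν']
    [DecidableEq ν'] {b₁ : Bil 2 X₁} (b₂ : Bil 2 X₂) (n₁ : NdB (pol b₁)) {r : ℕ}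
    (hr : Module.finrank (ZMod 2) X₁ + Module.finrank (ZMod 2) X₂ = r) {c : X₁} (hc : c ≠ 0)
    {u : (ν → X₁) → ℂ} (a₂ : (ν → X₂) → ℂ) (M : SymM 2 ν) (U : Matrix ν ν' (ZMod 2))
    (hu : ∀ l, u l ≠ 0 → Uᵀ *ᵥ (fun i => pol b₁ c (l i)) = 0) :
    Lv (r - 1) fun N => FF b₁ u (M + cj U N) * FF b₂ a₂ (M + cj U N) := by
  simp only [← FF_tp]
  refine Lv_FF_tile _ _ M U fun l hl => ?_
  have h1 := hu _ (left_ne_zero_of_mul hl)
  have h2 : Submodule.span (ZMod 2) (Set.range (act Uᵀ l)) ≤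
      LinearMap.ker ((pol b₁ c).comp (LinearMap.fst _ X₁ X₂)) :=
    Submodule.span_le.2 (Set.range_subset_iff.2 fun t => by
      show pol b₁ c (act Uᵀ l t).1 = 0
      refine Eq.trans ?_ (congrFun h1 t)
      simp [act, Prod.fst_sum, mulVec, dotProduct])
  have h3 : Submodule.span (ZMod 2) (Set.range (act Uᵀ l)) ≠ ⊤ := fun e =>
    hc (n₁ c fun y => h2 (e ▸ Submodule.mem_top : ((y, 0) : X₁ × X₂) ∈ _))
  have h4 := Submodule.finrank_lt h3
  rw [Module.finrank_prod, hr] at h4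
  omega

/-- `SC2` with the `K + 1` fields `Option (Fin K)`: the value at one point of the support of `a₁ t`
and the elements given by `flds` -/
theorem TPK {r : ℕ} (hC : Claim2 2 (r - 1)) (K : ℕ) (ε : ℝ) (hε : 0 < ε) :
    Ev 2 fun ν _ _ A => ∀ (X₁ X₂ : Type) [AddCommGroup X₁] [Module (ZMod 2) X₁] [Fintype X₁]
      [AddCommGroup X₂] [Module (ZMod 2) X₂] [Fintype X₂] (b₁ : Bil 2 X₁) (b₂ : Bil 2 X₂),
      NdB (pol b₁) → Module.finrank (ZMod 2) X₁ + Module.finrank (ZMod 2) X₂ = r →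
      ∀ ξ : X₁, ξ ≠ 0 → ∀ (a₁ : (ν → ZMod 2) → (ν → X₁) → ℂ) (a₂ : (ν → ZMod 2) → (ν → X₂) → ℂ),
      (∀ t, ∃ Wd : Submodule (ZMod 2) (ν → ZMod 2), Nat.card (ν → ZMod 2) ≤ K * Nat.card Wd ∧
        ∀ s s', a₁ t s ≠ 0 → a₁ t s' ≠ 0 → ∀ w ∈ Wd,
          w ⬝ᵥ (fun j => pol b₁ ξ (s j)) = w ⬝ᵥ fun j => pol b₁ ξ (s' j)) →
      ‖𝔼 M, fA A M * (FV b₁ a₁ M * FV b₂ a₂ M)‖ ≤ ε * √(en fun M => FV b₁ a₁ M * FV b₂ a₂ M) := by
  refine (SC2 hC (K + 1) ε hε).mono fun ν _ _ A H X₁ X₂ _ _ _ _ _ _ b₁ b₂ n₁ hr ξ hξ a₁ a₂ h => ?_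
  choose Wd h1 h2 using h
  choose ψ h3 using fun t => flds (Wd t) (h1 t)
  have h4 : ∀ t, ∃ y : ν → ZMod 2, ∀ l, a₁ t l ≠ 0 →
      ∃ i, (fun j => pol b₁ ξ (l j)) = ψ t i + y := by
    intro t
    by_cases k : ∃ s, a₁ t s ≠ 0
    · obtain ⟨s, hs⟩ := k
      refine ⟨fun j => pol b₁ ξ (s j), fun l hl => ?_⟩
      obtain ⟨i, hi⟩ := h3 t ((fun j => pol b₁ ξ (l j)) - fun j => pol b₁ ξ (s j)) fun w hw => by
        rw [dotProduct_sub, h2 t l s hl hs w hw, sub_self]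
      exact ⟨i, by rw [hi, sub_add_cancel]⟩
    · exact ⟨0, fun l hl => absurd ⟨l, hl⟩ k⟩
  choose y h4 using h4
  refine H (Option (Fin K)) (by rw [Fintype.card_option, Fintype.card_fin])
    (fun t o => o.elim (y t) (ψ t)) _ fun m M U hU => ?_
  refine ⟨fun N => FF b₁ (a₁ (dg M)) (M + cj U N) * FF b₂ (a₂ (dg M)) (M + cj U N),
    Lv_pos' b₂ n₁ hr hξ _ M U fun l hl => ?_, fun N hN => ?_⟩
  · obtain ⟨i, hi⟩ := h4 _ l hl
    have k1 : Uᵀ *ᵥ ψ (dg M) i = 0 := hU (some i)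
    have k2 : Uᵀ *ᵥ y (dg M) = 0 := hU none
    rw [hi, mulVec_add, k1, k2, add_zero]
  · simp only [FV, dg_add, dg_cj, hN, mulVec_zero, add_zero]

/-- `TPK` with `K = 1`, `Wd = ⊤`, and `en_FV_mul` -/
theorem TPos2 {r : ℕ} (hC : Claim2 2 (r - 1)) (r₁ : ℕ) (ε : ℝ) (hε : 0 < ε) :
    Ev 2 fun ν _ _ A => Data2 r r₁ ν fun X₁ X₂ _ _ _ _ _ _ b₁ b₂ e κ =>
        ∀ c : X₁, c ≠ 0 → ∀ u : (ν → ZMod 2) → (ν → X₁) → ℂ,
          (∀ v, ∃ y : ν → ZMod 2, ∀ l, u v l ≠ 0 → ∀ i, pol b₁ c (l i) = y i) →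
          ∀ a₂ : (ν → ZMod 2) → (ν → X₂) → ℂ, (∀ v, OnSl κ (fun i => (e i).2) (a₂ v)) →
          ‖𝔼 M, fA A M * (FV b₁ (fun v => cut κ (fun i => (e i).1) (u v)) M * FV b₂ a₂ M)‖ ≤
            ε * √(𝔼 v, nsq (u v) * nsq (a₂ v)) := by
  refine (TPK hC 1 ε hε).mono
    fun ν _ _ A H X₁ X₂ _ _ _ _ _ _ b₁ b₂ e κ n₁ n₂ _ hr he c hc u hu a₂ h₂ => ?_
  refine (H X₁ X₂ b₁ b₂ n₁ hr c hc _ a₂ fun t => ⟨⊤, ?_, fun s s' hs hs' w _ => ?_⟩).trans ?_
  · rw [one_mul]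
    exact (Nat.card_congr Submodule.topEquiv.toEquiv).ge
  · obtain ⟨y, hy⟩ := hu t
    have k : ∀ l, cut κ (fun i => (e i).1) (u t) l ≠ 0 → u t l ≠ 0 := fun l hl h0 => hl (by
      unfold cut
      split_ifs
      · exact h0
      · rfl)
    rw [funext (hy s (k s hs)), funext (hy s' (k s' hs'))]
  · rw [en_FV_mul n₁ n₂ he (fun v => OnSl_cut _ _ _) h₂]
    exact mul_le_mul_of_nonneg_left (Real.sqrt_le_sqrt (expect_le_expect fun v _ =>
      mul_le_mul_of_nonneg_right (nsq_cut_le _ _ _) (nsq_nonneg _))) hε.le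

end Pool.Agent.Work.MP_4523ee_co.F2
end
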