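import Mathlib
import Pool.Agent.Work.MP_4523ee_co.F2.AlA
import Pool.Agent.Work.MP_4523ee_co.Fp.End
import Pool.Agent.Work.MP_4523ee_co.F2.PrK2
import Pool.Agent.Work.MP_4523ee_co.F2.Inv2
import Pool.Agent.Work.MP_4523ee_co.F2.CTrf
import Pool.Agent.Work.MP_4523ee_co.Fp.StD

-- merged part: Pool.Agent.Work.MP_4523ee_co.F2.Ext2
section
/-!
Extension of a function of bounded level from a tile `CY Y` to the whole space, and the form of
the fibred cleaning that is used on one tile.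
-/

set_option autoImplicit false
set_option linter.unusedSectionVars false

namespace Pool.Agent.Work.MP_4523ee_co.F2

open Finset hiding dens
open Matrix Pool.Agent.Work.MP_4523ee_co.Fp
open scoped BigOperators ComplexConjugate

section
variable {p : ℕ} [Fact p.Prime] {ν : Type} [Fintype ν] [DecidableEq ν]

lemma ext2_cj_one (N : SymM p ν) : cj (1 : Matrix ν ν (ZMod p)) N = N := by
  apply Subtype.ext
  show 1 * N.1 * (1 : Matrix ν ν (ZMod p))ᵀ = N.1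
  rw [transpose_one, Matrix.mul_one, Matrix.one_mul]

/-- the tile `CY Y` through a given point, with a linear left inverse of its parametrisation -/
lemma ext2_tile {Y : SV p ν} {M₀ : SymM p ν} (h0 : M₀ ∈ CY Y) :
    ∃ (m : ℕ) (U : Matrix ν (Fin m) (ZMod p)) (L : Matrix (Fin m) ν (ZMod p)),
      (∀ q ∈ Y, Uᵀ *ᵥ q.1 = 0) ∧ L * U = 1 ∧
      ∀ M ∈ CY Y, M₀ + cj U (-cj L M₀ + cj L M) = M := by
  obtain ⟨m, U, R, -, hR, hU⟩ := trB_exists_U (Y.map (LinearMap.fst (ZMod p) _ _))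
  have h1 : Rᵀ * U = 1 := by
    have := congrArg transpose hR
    rwa [transpose_mul, transpose_transpose, transpose_one] at this
  refine ⟨m, U, Rᵀ, fun q hq => (hU _).2 ⟨q, hq, rfl⟩, h1, fun M hM => ?_⟩
  obtain ⟨N, hN⟩ := trB_cj_surj hR (M - M₀) fun y hy => by
    obtain ⟨q, hq, rfl⟩ := (hU y).1 hy
    show (M.1 - M₀.1) *ᵥ q.1 = 0
    rw [sub_mulVec, hM q hq, h0 q hq, sub_self]
  have e : M = M₀ + cj U N := by rw [hN, add_sub_cancel]
  rw [e, cj_add Rᵀ, neg_add_cancel_left, cj_cj Rᵀ U N, h1, ext2_cj_one]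

/-- local form: `G` agrees on `CY Y ∩ S` with a function of level `s` on the whole space -/
lemma Lv_ext_loc {s : ℕ} {Y : SV p ν} {S : Set (SymM p ν)} {G : SymM p ν → ℂ}
    (hY : (CY Y ∩ S).Nonempty)
    (hG : ∀ (m : ℕ) (M : SymM p ν) (U : Matrix ν (Fin m) (ZMod p)), M ∈ CY Y → M ∈ S →
      (∀ q ∈ Y, Uᵀ *ᵥ q.1 = 0) → ∃ H : SymM p (Fin m) → ℂ, Lv s H ∧
        ∀ N, M + cj U N ∈ S → G (M + cj U N) = H N) :
    ∃ G₂ : SymM p ν → ℂ, Lv s G₂ ∧ ∀ M ∈ CY Y ∩ S, G₂ M = G M := by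
  obtain ⟨M₀, h0, h1⟩ := hY
  obtain ⟨m, U, L, hU, -, hM⟩ := ext2_tile h0
  obtain ⟨H, hH, hE⟩ := hG m M₀ U h0 h1 hU
  refine ⟨fun M => H (-cj L M₀ + cj L M), hH.tile _ L, fun M hM' => ?_⟩
  have e := hM M hM'.1
  have k := hE (-cj L M₀ + cj L M) (by rw [e]; exact hM'.2)
  rw [e] at k
  exact k.symm

lemma Lv_ext {s : ℕ} {Y : SV p ν} {G : SymM p ν → ℂ} (hY : (CY Y).Nonempty)
    (hG : ∀ (m : ℕ) (M : SymM p ν) (U : Matrix ν (Fin m) (ZMod p)), (∀ q ∈ Y, Uᵀ *ᵥ q.1 = 0) →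
      Lv s fun N => G (M + cj U N)) :
    ∃ G₂ : SymM p ν → ℂ, Lv s G₂ ∧ ∀ M ∈ CY Y, G₂ M = G M := by
  obtain ⟨G₂, h1, h2⟩ := Lv_ext_loc (s := s) (Y := Y) (S := Set.univ) (G := G)
    (by rwa [Set.inter_univ]) fun m M U _ _ hU => ⟨_, hG m M U hU, fun _ _ => rfl⟩
  exact ⟨G₂, h1, fun M hM => h2 M ⟨hM, trivial⟩⟩

end

/-- the cleaning bound for functions that have level `s` only on the piece `CY Y ∩ Fb v` -/
theorem FCout.clg_loc {s R : ℕ} (h : FCout s R) (ε : ℝ) (hε : 0 < ε) :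
    Ev 2 fun ν _ _ A => ∃ B : Set (SymM 2 ν), dens B ≤ ε ∧
    ∀ (v : ν → ZMod 2) (Y : SV 2 ν), Module.finrank (ZMod 2) Y ≤ R → ∀ G : SymM 2 ν → ℂ,
      (∀ (m : ℕ) (M : SymM 2 ν) (U : Matrix ν (Fin m) (ZMod 2)), M ∈ CY Y → dg M = v →
        (∀ q ∈ Y, Uᵀ *ᵥ q.1 = 0) → ∃ H : SymM 2 (Fin m) → ℂ, Lv s H ∧
          ∀ N, dg (M + cj U N) = v → G (M + cj U N) = H N) →
      ‖𝔼 M, (ind (CY Y ∩ Fb v) M : ℂ) * (fB A B M * G M)‖ ≤
        ε * (√(dens (CY Y ∩ Fb v)) * √(𝔼 M, ind (CY Y ∩ Fb v) M * ‖G M‖ ^ 2)) := by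
  refine (h ε hε).mono fun ν _ _ A ⟨B, hB, hA⟩ => ⟨B, hB, fun v Y hY G hG => ?_⟩
  obtain ⟨G₂, h1, h2⟩ : ∃ G₂ : SymM 2 ν → ℂ, Lv s G₂ ∧ ∀ M ∈ CY Y ∩ Fb v, G₂ M = G M := by
    rcases (CY Y ∩ Fb v).eq_empty_or_nonempty with hE | hN
    · exact ⟨fun _ => 0, Lv_zero s, fun M hM => absurd (hE ▸ hM) (Set.notMem_empty M)⟩
    · exact Lv_ext_loc hN hG
  have e1 : ∀ M, (ind (CY Y ∩ Fb v) M : ℂ) * (fB A B M * G M) =
      (ind (CY Y ∩ Fb v) M : ℂ) * (fB A B M * G₂ M) := fun M => by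
    by_cases hM : M ∈ CY Y ∩ Fb v
    · rw [h2 M hM]
    · rw [ind_of_not hM, Complex.ofReal_zero, zero_mul, zero_mul]
  have e2 : ∀ M, ind (CY Y ∩ Fb v) M * ‖G M‖ ^ 2 = ind (CY Y ∩ Fb v) M * ‖G₂ M‖ ^ 2 := fun M => by
    by_cases hM : M ∈ CY Y ∩ Fb v
    · rw [h2 M hM]
    · rw [ind_of_not hM, zero_mul, zero_mul]
  simp only [e1, e2]
  exact hA v Y hY G₂ h1

/-- the shape of `Fp.CLG` on `CY Y ∩ Fb v` -/
theorem FCout.clg {s R : ℕ} (h : FCout s R) (ε : ℝ) (hε : 0 < ε) :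
    Ev 2 fun ν _ _ A => ∃ B : Set (SymM 2 ν), dens B ≤ ε ∧
    ∀ (v : ν → ZMod 2) (Y : SV 2 ν), Module.finrank (ZMod 2) Y ≤ R → ∀ G : SymM 2 ν → ℂ,
      (∀ (m : ℕ) (M : SymM 2 ν) (U : Matrix ν (Fin m) (ZMod 2)), (∀ q ∈ Y, Uᵀ *ᵥ q.1 = 0) →
        Lv s fun N => G (M + cj U N)) →
      ‖𝔼 M, (ind (CY Y ∩ Fb v) M : ℂ) * (fB A B M * G M)‖ ≤
        ε * (√(dens (CY Y ∩ Fb v)) * √(𝔼 M, ind (CY Y ∩ Fb v) M * ‖G M‖ ^ 2)) :=
  (h.clg_loc ε hε).mono fun _ _ _ _ ⟨B, hB, hA⟩ => ⟨B, hB, fun v Y hY G hG =>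
    hA v Y hY G fun m M U _ _ hU => ⟨_, hG m M U hU, fun _ _ => rfl⟩⟩

end Pool.Agent.Work.MP_4523ee_co.F2
end

-- merged part: Pool.Agent.Work.MP_4523ee_co.F2.PrG2
section
/-!
Test (G) on every fibre.
-/

set_option autoImplicit false
set_option linter.unusedSectionVars false

namespace Pool.Agent.Work.MP_4523ee_co.F2

open Finset hiding dens
open Matrix Pool.Agent.Work.MP_4523ee_co.Fp
open scoped BigOperators ComplexConjugate

/-- relative measure of a cell: `dens_Fb`, `live_iff`, `Mo.PZ` -/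
lemma dens_cell {ν : Type} [Fintype ν] [DecidableEq ν] (v : ν → ZMod 2) (Y : SV 2 ν) :
    (2 : ℝ) ^ Fintype.card ν * dens (CY Y ∩ Fb v) ≤
      2 ^ ((Module.finrank (ZMod 2) Y + 1) ^ 2) *
        (((2 : ℝ) ^ Fintype.card ν) ^ Module.finrank (ZMod 2) Y)⁻¹ := by
  have h0 : (2 : ℝ) ^ Fintype.card ν = Po.dd 2 ν := by simp [Po.dd]
  have h1 : (0 : ℝ) < Po.dd 2 ν := by rw [← h0]; positivity
  rw [dens_Fb, h0, mul_inv_cancel_left₀ h1.ne']
  by_cases h : ∃ A : Mo.AltM ν, Mo.Dg v + A.1 ∈ CY Y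
  · rw [Mo.PZ _ _ h, Mo.pp, div_eq_mul_inv]
    exact mul_le_mul_of_nonneg_right (pow_le_pow_right₀ one_le_two (Nat.choose_le_pow _ _))
      (by positivity)
  · rw [Mo.mb_empty _ h]
    positivity

section aux
variable {X : Type} [AddCommGroup X] [Module (ZMod 2) X] [Fintype X] {ν ν' : Type} [Fintype ν]
  [DecidableEq ν] [Fintype ν'] [DecidableEq ν'] {b : Bil 2 X}
  {N : Submodule (ZMod 2) X} {φ : Module.Dual (ZMod 2) (pw ν N)} {u : (ν → X) → ℂ}

lemma prg2_supp (hN : Iso (pol b) N) (hu : Pj (pol b) (pw ν N).subtype φ u = u)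
    {l l0 : ν → X} (hl : u l ≠ 0) (h0 : u l0 ≠ 0) {w : ν → X} (hw : ∀ i, w i ∈ N) :
    bt (pol b) w l = bt (pol b) w l0 := by
  have h := W_Pj2 (Ph_pw hN) φ u ⟨(0, w), mem_pw.2 ⟨fun _ => N.zero_mem, hw⟩⟩
  rw [hu] at h
  have key : ∀ l, u l ≠ 0 →
      bt (pol b) w l = φ ⟨(0, w), mem_pw.2 ⟨fun _ => N.zero_mem, hw⟩⟩ := fun l hl => by
    have h1 := congrFun h l
    simp only [W2, Submodule.subtype_apply, add_zero] at h1
    exact PrG_ee_inj (mul_right_cancel₀ hl h1)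
  rw [key l hl, key l0 h0]

lemma prg2_chi (hN : Iso (pol b) N) {w : ν → X} (hw : ∀ i, w i ∈ N) (M : SymM 2 ν) :
    chi b M w = ee (dg M ⬝ᵥ fun i => b (w i) (w i)) := by
  refine chQ_of_pol_zero ?_ M
  rw [gram_pol]
  ext i j
  exact hN _ (hw i) _ (hw j)

lemma prg2_shift (hN : Iso (pol b) N) (hu : Pj (pol b) (pw ν N).subtype φ u = u)
    {κ : Matrix ν' ν (ZMod 2)} {e : ν' → X} {M M' : SymM 2 ν} (hd : dg M = dg M')
    (hM : FF b (cut κ e u) M ≠ 0)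
    (hM' : FF b (cut κ e u) M' ≠ 0) {l0 : ν → X} (h0 : u l0 ≠ 0) {w : ν → X} (hw : ∀ i, w i ∈ N)
    (hκ : act κ w = 0) : bt (pol b) (act M.1 w) l0 = bt (pol b) (act M'.1 w) l0 := by
  have h := W_Pj2 (Ph_pw hN) φ u ⟨(w, 0), mem_pw.2 ⟨hw, fun _ => N.zero_mem⟩⟩
  rw [hu] at h
  obtain ⟨s, hs⟩ : ∃ s, ∀ l, u (l + w) = ee s * u l := ⟨_, fun l => by
    simpa only [W2, Submodule.subtype_apply, bt_zero_left, ee_zero, one_mul]
      using congrFun h l⟩
  have key : ∀ M : SymM 2 ν, FF b (cut κ e u) M ≠ 0 →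
      s + (dg M ⬝ᵥ fun i => b (w i) (w i)) + bt (pol b) (act M.1 w) l0 = 0 :=
    fun M hM => by
      have hw' : ∀ i, act M.1 w i ∈ N := fun i => N.sum_mem fun j _ => N.smul_mem _ (hw j)
      have h2 : FF b (cut κ e u) M = ee (s + (dg M ⬝ᵥ fun i => b (w i) (w i)) +
          bt (pol b) (act M.1 w) l0) * FF b (cut κ e u) M := by
        conv_lhs => rw [FF, ← Equiv.sum_comp (Equiv.addRight w)]
        rw [FF, mul_sum]
        refine sum_congr rfl fun l _ => ?_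
        have h3 : act κ (l + w) = act κ l := by rw [act_add, hκ, add_zero]
        simp only [Equiv.coe_addRight]
        by_cases h4 : act κ l = e
        · simp only [cut, if_pos h4, if_pos (h3.trans h4), hs]
          by_cases h5 : u l = 0
          · simp [h5]
          · rw [chi_addP, prg2_chi hN hw, prg2_supp hN hu h5 h0 hw', ee_add, ee_add]
            ring
        · simp only [cut, if_neg h4, if_neg (h3 ▸ h4), zero_mul, mul_zero]
      exact ee_eq_one.1 (mul_right_cancel₀ hM (h2.symm.trans (one_mul _).symm))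
  have k1 := key M hM
  rw [hd] at k1
  exact add_left_cancel (k1.trans (key M' hM').symm)

end aux

/-- port of `Fp.TG`: on the fibre over `v` take `M0` with `dg M0 = v` and nonzero `FF`; in the port
of `PrG_shift` assume `dg M = dg M'`, then `chi b M w = chi b M' w` for `w` with values in the
isotropic space `N` (`M' = M + alternating`, or `chi_congr`/`chQ_alt2`); apply `PrG_tiles` to the
cells `CY (spn (y, z)) ∩ Fb v` and to `ind (Fb v) * G`; `FCout.clg`, `Lv_pos`, `fm_en`. -/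
theorem TG2 {r : ℕ} (hr : 0 < r) (hF : FCout (r - 1) r) (r₁ : ℕ) (ε : ℝ) (hε : 0 < ε) :
    Ev 2 fun ν _ _ A => ∃ B : Set (SymM 2 ν), dens B ≤ ε ∧
      Data2 r r₁ ν fun X₁ X₂ _ _ _ _ _ _ b₁ b₂ e κ =>
        ∀ N : Submodule (ZMod 2) X₁, N ≠ ⊥ → Iso (pol b₁) N →
          ∀ (φ : Module.Dual (ZMod 2) (pw ν N)) (u : (ν → X₁) → ℂ),
          Pj (pol b₁) (pw ν N).subtype φ u = u → ∀ a₂ : (ν → X₂) → ℂ,
          OnSl κ (fun i => (e i).2) a₂ → ∀ v : ν → ZMod 2,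
          (Fintype.card N : ℝ) ^ Fintype.card ν * ‖fm v fun M =>
            fB A B M * (FF b₁ (cut κ (fun i => (e i).1) u) M * FF b₂ a₂ M)‖ ^ 2 ≤
            ε * (nsq u * nsq a₂) := by
  classical
  obtain ⟨P, hP⟩ : ∃ P : ℝ, P = 2 ^ (r * r + (r + 1) ^ 2) := ⟨_, rfl⟩
  have hP1 : 1 ≤ P := hP ▸ one_le_pow₀ one_le_two
  obtain ⟨ε', hε'⟩ : ∃ ε', ε' = min ε 1 / P := ⟨_, rfl⟩
  have e0 : 0 < ε' := by rw [hε']; positivity
  have e1 : ε' ≤ ε := hε' ▸ (div_le_self (by positivity) hP1).trans (min_le_left _ _)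
  have e2 : P * ε' ^ 2 ≤ ε := by
    have : P * ε' ≤ 1 := by
      rw [hε', mul_div_cancel₀ _ (by positivity)]
      exact min_le_right _ _
    rw [sq, ← mul_assoc]
    exact (mul_le_of_le_one_left e0.le this).trans e1
  refine (hF.clg ε' e0).mono fun ν _ _ A ⟨B, hB, h⟩ => ⟨B, hB.trans e1, ?_⟩
  intro X₁ X₂ _ _ _ _ _ _ b₁ b₂ e κ n₁ n₂ _ hr' he N hN0 hN φ u hu a₂ ha v
  have hnn : 0 ≤ ε * (nsq u * nsq a₂) :=
    mul_nonneg hε.le (mul_nonneg (nsq_nonneg _) (nsq_nonneg _))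
  by_cases hF0 : ∀ M, dg M = v → FF b₁ (cut κ (fun i => (e i).1) u) M = 0
  · rw [fm_congr (H := fun _ => 0) fun M hM => by rw [hF0 M hM, zero_mul, mul_zero]]
    simpa [fm] using hnn
  obtain ⟨M0, hM0⟩ := not_forall.1 hF0
  obtain ⟨hd0, hM0⟩ := Classical.not_imp.1 hM0
  obtain ⟨l0, -, hl0⟩ := exists_ne_zero_of_sum_ne_zero hM0
  have hcut : ∀ l, cut κ (fun i => (e i).1) u l ≠ 0 → u l ≠ 0 := fun l hl h0 => hl (by
    simp [cut, h0])
  have h1 := OnSl_cut κ _ u l0 (left_ne_zero_of_mul hl0)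
  have h0 := hcut l0 (left_ne_zero_of_mul hl0)
  obtain ⟨k, hk⟩ : ∃ k, Module.finrank (ZMod 2) N = k := ⟨_, rfl⟩
  have hk0 : 0 < k := hk ▸ Nat.pos_of_ne_zero fun a => hN0 (Submodule.finrank_eq_zero.1 a)
  have hkr : k ≤ r := hk ▸ N.finrank_le.trans (hr' ▸ Nat.le_add_right _ _)
  have c := Module.finBasisOfFinrankEq (ZMod 2) N hk
  obtain ⟨y, hy⟩ : ∃ y : ν → Fin k → ZMod 2, y = fun i a => pol b₁ (c a) (l0 i) := ⟨_, rfl⟩
  have hli : LinearIndependent (ZMod 2) fun (a : Fin k) (i : ν) => y i a := by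
    rw [hy]
    refine c.linearIndependent.map' (LinearMap.pi fun i => ((pol b₁).flip (l0 i)).comp N.subtype)
      (LinearMap.ker_eq_bot'.2 fun x hx => Subtype.ext (n₁ _ fun z => ?_))
    have h2 : Submodule.span (ZMod 2) (Set.range fun i => (e i).1) ≤ LinearMap.ker (pol b₁ x) :=
      Submodule.span_le.2 (Set.range_subset_iff.2 fun a => by
        have h3 : ∀ i, pol b₁ x (l0 i) = 0 := congrFun hx
        show pol b₁ x (e a).1 = 0
        rw [← show act κ l0 a = (e a).1 from congrFun h1 a]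
        simp [act, h3])
    exact h2 (span_fst he ▸ Submodule.mem_top)
  have hfin : ∀ z, Module.finrank (ZMod 2) (spn (y, z)) = k := fun z =>
    (finrank_span_eq_card (LinearIndependent.of_comp (LinearMap.fst _ _ _) hli)).trans
      (Fintype.card_fin k)
  have hv : ∀ l, cut κ (fun i => (e i).1) u l ≠ 0 → ∀ i,
      pol b₁ (c ⟨0, hk0⟩) (l i) = y i ⟨0, hk0⟩ :=
    fun l hl i => by
      have h2 := prg2_supp hN hu (hcut l hl) h0 (w := Pi.single i (c ⟨0, hk0⟩).1) fun j => by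
        by_cases hj : j = i
        · simp [hj]
        · simp [Pi.single_eq_of_ne hj]
      have h3 : ∀ l : ν → X₁, bt (pol b₁) (Pi.single i (c ⟨0, hk0⟩).1) l =
          pol b₁ (c ⟨0, hk0⟩) (l i) :=
        fun l => by
          rw [bt, sum_eq_single i (fun j _ hj => by simp [Pi.single_eq_of_ne hj])
            fun a => absurd (mem_univ i) a, Pi.single_eq_same]
      rw [h3, h3] at h2
      rw [h2, hy]
  obtain ⟨S, hS⟩ : ∃ S : Finset (ν → Fin k → ZMod 2),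
      S = univ.image fun t : Fin r → Fin k → ZMod 2 => act M0.1 y + act κᵀ t := ⟨_, rfl⟩
  have hS1 : (#S : ℝ) ≤ 2 ^ (r * r) := by
    have : #S ≤ 2 ^ (k * r) := by
      rw [hS]
      refine card_image_le.trans_eq ?_
      simp [pow_mul]
    exact (Nat.cast_le.2 this).trans (by
      push_cast
      exact pow_le_pow_right₀ one_le_two (Nat.mul_le_mul_right r hkr))
  have hS2 : ∀ M, dg M = v → FF b₁ (cut κ (fun i => (e i).1) u) M ≠ 0 → act M.1 y ∈ S :=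
    fun M hd hM => by
    have h2 : ∀ (M : SymM 2 ν) a (v : ν → ZMod 2),
        bt (pol b₁) (act M.1 fun i => v i • (c a).1) l0 = ∑ i, v i * act M.1 y i a :=
      fun M a v => by
      rw [bt_act, SymM_T]
      simp only [bt, act, hy, map_smul, map_sum, LinearMap.smul_apply, smul_eq_mul,
        Finset.sum_apply, Pi.smul_apply, mul_sum, mul_left_comm]
    have h3 : ∀ a, ∃ t : Fin r → ZMod 2, ∀ j,
        act M.1 y j a - act M0.1 y j a = ∑ s, κ s j * t s := fun a =>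
      PrG_perp κ _ fun v hv => by
        have h4 := prg2_shift hN hu (hd.trans hd0.symm) hM hM0 h0 (w := fun i => v i • (c a).1)
          (fun i => N.smul_mem _ (c a).2) (funext fun s => by
            have h5 : ∑ j, κ s j * v j = 0 := congrFun hv s
            simp only [act, smul_smul, ← sum_smul, h5, zero_smul, Pi.zero_apply])
        rw [h2, h2] at h4
        simp only [mul_sub, sum_sub_distrib, h4, sub_self]
    choose t ht using h3
    rw [hS]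
    refine mem_image.2 ⟨fun s a => t a s, mem_univ _, funext fun j => funext fun a => ?_⟩
    rw [eq_add_of_sub_eq' (ht a j)]
    simp [act]
  obtain ⟨d, hd⟩ : ∃ d : ℝ, d = 2 ^ Fintype.card ν := ⟨_, rfl⟩
  have d0 : 0 < d := by rw [hd]; positivity
  obtain ⟨G, hG⟩ : ∃ G : SymM 2 ν → ℂ,
    G = fun M => FF b₁ (cut κ (fun i => (e i).1) u) M * FF b₂ a₂ M := ⟨_, rfl⟩
  have h2 := PrG_tiles S (fun z => CY (spn (y, z)) ∩ Fb v) (fB A B)
    (fun M => (ind (Fb v) M : ℂ) * G M) (ε := ε')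
    (δ := d⁻¹ * ((2 : ℝ) ^ ((k + 1) ^ 2) * (d ^ k)⁻¹))
    (fun M hM => by
      have a1 : M ∈ Fb v := by
        by_contra a2
        exact left_ne_zero_of_mul hM (by rw [ind_of_not a2, Complex.ofReal_zero])
      have a2 := right_ne_zero_of_mul hM
      rw [hG] at a2
      rw [sum_eq_single_of_mem _ (hS2 M a1 (left_ne_zero_of_mul a2))
        fun z _ hz => ind_of_not fun a => hz ((mem_CY_spn _ _).1 a.1)]
      exact ind_of_mem ⟨(mem_CY_spn _ _).2 rfl, a1⟩)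
    (fun z => by
      have a1 := dens_cell v (spn (y, z))
      rw [hfin, ← hd] at a1
      exact (le_inv_mul_iff₀ d0).2 a1)
    fun z => by
      have a1 := h v _ ((hfin z).trans_le hkr) G fun m M U hU => by
        rw [hG]
        exact Lv_pos b₂ n₁ hr' (fun a => c.ne_zero _ (Subtype.ext a)) hv a₂ M U
          (hU _ (Submodule.subset_span ⟨⟨0, hk0⟩, rfl⟩))
      have a2 : ∀ M, (ind (CY (spn (y, z)) ∩ Fb v) M : ℂ) * (fB A B M * ((ind (Fb v) M : ℂ) * G M)) =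
          (ind (CY (spn (y, z)) ∩ Fb v) M : ℂ) * (fB A B M * G M) := fun M => by
        by_cases a3 : M ∈ CY (spn (y, z)) ∩ Fb v
        · rw [ind_of_mem a3.2, Complex.ofReal_one, one_mul (G M)]
        · rw [ind_of_not a3, Complex.ofReal_zero, zero_mul, zero_mul]
      have a4 : ∀ M, ind (CY (spn (y, z)) ∩ Fb v) M * ‖(ind (Fb v) M : ℂ) * G M‖ ^ 2 =
          ind (CY (spn (y, z)) ∩ Fb v) M * ‖G M‖ ^ 2 := fun M => by
        by_cases a3 : M ∈ CY (spn (y, z)) ∩ Fb v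
        · rw [ind_of_mem a3.2, Complex.ofReal_one, one_mul (G M)]
        · rw [ind_of_not a3, zero_mul, zero_mul]
      simp only [a2, a4]
      exact a1
  have h8 : en (fun M => (ind (Fb v) M : ℂ) * G M) =
      d⁻¹ * (nsq (cut κ (fun i => (e i).1) u) * nsq a₂) := by
    rw [← fm_en n₁ n₂ he (OnSl_cut _ _ _) ha v, ← hd, inv_mul_cancel_left₀ d0.ne', hG]
    refine expect_congr rfl fun M _ => ?_
    beta_reduce
    by_cases a3 : M ∈ Fb v
    · rw [ind_of_mem a3, Complex.ofReal_one, one_mul, one_mul]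
    · rw [ind_of_not a3]
      simp
  have h9 : ‖fm v fun M => fB A B M * (FF b₁ (cut κ (fun i => (e i).1) u) M * FF b₂ a₂ M)‖ =
      d * ‖𝔼 M, fB A B M * ((ind (Fb v) M : ℂ) * G M)‖ := by
    rw [fm, norm_mul, norm_pow, Complex.norm_ofNat, ← hd, hG]
    congr 2
    exact expect_congr rfl fun M _ => by ring
  rw [h8] at h2
  have h3 : (Fintype.card N : ℝ) ^ Fintype.card ν = d ^ k := by
    rw [card_eq_pow (p := 2), hk, Nat.cast_pow, pow_right_comm, hd]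
    norm_num
  have h4 : (0 : ℝ) < d ^ k := by positivity
  have h5 : (2 : ℝ) ^ ((k + 1) ^ 2) ≤ 2 ^ ((r + 1) ^ 2) :=
    pow_le_pow_right₀ one_le_two (Nat.pow_le_pow_left (Nat.succ_le_succ hkr) 2)
  have h6 := mul_le_mul_of_nonneg_right (nsq_cut_le κ (fun i => (e i).1) u) (nsq_nonneg a₂)
  have h7 := mul_nonneg (nsq_nonneg (cut κ (fun i => (e i).1) u)) (nsq_nonneg a₂)
  rw [h3, h9, mul_pow, ← mul_assoc]
  refine (mul_le_mul_of_nonneg_left h2 (by positivity)).trans (le_trans (le_of_eq ?_)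
    (mul_le_mul ((mul_le_mul_of_nonneg_right ((mul_le_mul hS1 h5 (by positivity)
      (by positivity)).trans_eq ((pow_add _ _ _).symm.trans hP.symm)) (sq_nonneg ε')).trans e2)
      h6 h7 hε.le))
  field_simp

end Pool.Agent.Work.MP_4523ee_co.F2
end
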