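import Mathlib
import Pool.Agent.Work.MP_4523ee_co.F2.CTrf
import Pool.Agent.Work.MP_4523ee_co.Fp.Inv
import Pool.Agent.Work.MP_4523ee_co.F2.PrK2

-- merged part: Pool.Agent.Work.MP_4523ee_co.F2.PrT2
section
/-!
Tile kill: a bound on all good tiles of a weight gives a global bound.
-/

set_option autoImplicit false
set_option linter.unusedSectionVars false

namespace Pool.Agent.Work.MP_4523ee_co.F2

open Finset hiding dens
open Matrix Pool.Agent.Work.MP_4523ee_co.Fp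
open scoped BigOperators ComplexConjugate

lemma prt_glue {ν ν' : Type} [Fintype ν] [DecidableEq ν] [Fintype ν'] [DecidableEq ν']
    {A : Set (SymM 2 ν)} {g δ η ε₁ : ℝ} (hε : 0 ≤ ε₁)
    {w : SymM 2 ν → Matrix ν ν' (ZMod 2) → ℝ} (hw : Wt g w)
    (mk : 𝔼 M, 𝔼 U, w M U * ind {U | ¬ NE η (res A M U)} U ≤ δ) (G : SymM 2 ν → ℂ)
    (hG : ∀ M U, w M U ≠ 0 → NE η (res A M U) →
      ‖𝔼 N, fA (res A M U) N * G (M + cj U N)‖ ≤ ε₁ * √(en fun N => G (M + cj U N))) :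
    ‖𝔼 M, fA A M * G M‖ ≤ (√g + √(4 * ε₁ ^ 2 + 2 * δ) * √2) * √(en G) := by
  have h0 := hw.nn
  have hρ := marg_nonneg (fun U => U) w h0
  have em := expect_marg (fun U : Matrix ν ν' (ZMod 2) => U) w
  have h2 : ∀ M, marg (fun U => U) w M ≤ 2 := fun M => by
    rw [marg_of_inv (fun U => U) w hw.inv]
    exact hw.le2 M
  have c2 : 𝔼 M, (marg (fun U => U) w M - 1) ^ 2 ≤ g := by
    refine le_trans (expect_le_expect fun M _ => ?_) hw.l1
    rw [← marg_of_inv (fun U => U) w hw.inv, ← sq_abs, sq]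
    refine mul_le_of_le_one_right (abs_nonneg _) (abs_le.2 ⟨?_, ?_⟩)
    · linarith [hρ M]
    · linarith [h2 M]
  have fa : ∀ B : Set (SymM 2 ν'), √(en (fA B)) ≤ 1 :=
    fun B => Real.sqrt_le_one.2 (expect_le univ_nonempty fun M _ =>
      pow_le_one₀ (norm_nonneg _) (norm_fA_le B M))
  have e : 𝔼 M, fA A M * G M = (𝔼 M, ((1 - marg (fun U => U) w M : ℝ) * fA A M) * G M) +
      𝔼 M, (marg (fun U => U) w M : ℂ) * (fA A M * G M) := by
    rw [← expect_add_distrib]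
    refine expect_congr rfl fun M _ => ?_
    push_cast
    ring
  rw [e, add_mul]
  refine (norm_add_le _ _).trans (add_le_add ((norm_expect_mul_le _ _).trans
    (mul_le_mul_of_nonneg_right (Real.sqrt_le_sqrt (le_trans (expect_le_expect fun M _ => ?_) c2))
      (Real.sqrt_nonneg _))) ?_)
  · rw [norm_mul, mul_pow, Complex.norm_real, Real.norm_eq_abs, sq_abs, sub_sq_comm]
    exact mul_le_of_le_one_right (sq_nonneg _) (pow_le_one₀ (norm_nonneg _) (norm_fA_le A M))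
  rw [← marg_id (fun U => U) w fun M => fA A M * G M]
  have b : ∀ M U, ‖(w M U : ℂ) * 𝔼 N : SymM 2 ν', fA A (M + cj U N) * G (M + cj U N)‖ ≤
      w M U * ((ε₁ + ind {U | ¬ NE η (res A M U)} U) * √(en fun N => G (M + cj U N))) :=
    fun M U => by
    rw [norm_mul, Complex.norm_real, Real.norm_of_nonneg (h0 M U)]
    by_cases k : w M U = 0
    · rw [k, zero_mul, zero_mul]
    refine mul_le_mul_of_nonneg_left ?_ (h0 M U)
    by_cases k' : NE η (res A M U)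
    · rw [ind_of_not (show U ∉ {U | ¬ NE η (res A M U)} from fun k2 => k2 k'), add_zero]
      exact hG M U k k'
    · rw [ind_of_mem (show U ∈ {U | ¬ NE η (res A M U)} from k')]
      refine (norm_expect_mul_le (fA (res A M U)) _).trans
        (mul_le_mul_of_nonneg_right ?_ (Real.sqrt_nonneg _))
      linarith [fa (res A M U)]
  refine ((RCLike.norm_expect_le (K := ℂ)).trans (expect_le_expect fun M _ =>
    (RCLike.norm_expect_le (K := ℂ)).trans (expect_le_expect fun U _ => b M U))).trans ?_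
  refine (prp_cs w _ _ h0 fun _ _ => en_nonneg _).trans ?_
  rw [mul_assoc, ← Real.sqrt_mul zero_le_two]
  refine mul_le_mul (Real.sqrt_le_sqrt ?_) (Real.sqrt_le_sqrt ?_) (Real.sqrt_nonneg _)
    (Real.sqrt_nonneg _)
  · have d : ∀ M U, w M U * (ε₁ + ind {U | ¬ NE η (res A M U)} U) ^ 2 ≤
        2 * ε₁ ^ 2 * w M U + 2 * (w M U * ind {U | ¬ NE η (res A M U)} U) := by
      intro M U
      have i0 := ind_nonneg {U | ¬ NE η (res A M U)} U
      have i1 := ind_le_one {U | ¬ NE η (res A M U)} U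
      generalize ind {U | ¬ NE η (res A M U)} U = i at i0 i1
      have : (ε₁ + i) ^ 2 ≤ 2 * ε₁ ^ 2 + 2 * i := by nlinarith [sq_nonneg (ε₁ - i)]
      nlinarith [mul_le_mul_of_nonneg_left this (h0 M U)]
    refine (expect_le_expect fun M _ => expect_le_expect fun U _ => d M U).trans ?_
    simp only [expect_add_distrib, ← Finset.mul_expect]
    have d2 : 𝔼 M, 𝔼 U, w M U ≤ 2 := expect_le univ_nonempty fun M _ => hw.le2 M
    nlinarith [mul_le_mul_of_nonneg_left d2 (sq_nonneg ε₁)]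
  · refine (marg_id_real (fun U => U) w fun M => ‖G M‖ ^ 2).trans_le ?_
    rw [en, Finset.mul_expect]
    exact expect_le_expect fun M _ => mul_le_mul_of_nonneg_right (h2 M) (sq_nonneg _)

/-- `BD` gives `w'` with marginal `ρ ≤ 2`; split `1 = (1 - ρ) + ρ` as in `Fp.prp_glue`
(`marg_of_inv`, `marg_id`, `prp_cs`, `(1 - ρ) ^ 2 ≤ |ρ - 1|`), bad tiles by `MKW` -/
theorem TK (η ε : ℝ) (hη : 0 < η) (hε : 0 < ε) : ∃ J0 : ℕ, ∃ η0 : ℝ, 0 < η0 ∧ ∃ g : ℝ, 0 < g ∧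
    ∀ (ν ν' : Type) [Fintype ν] [DecidableEq ν] [Fintype ν'] [DecidableEq ν'],
      J0 ≤ Fintype.card ν' → ∀ A : Set (SymM 2 ν), NE η0 A →
      ∀ w : SymM 2 ν → Matrix ν ν' (ZMod 2) → ℝ,
        Wt0 (g / (1 + 2 * Fintype.card (SymM 2 ν'))) w → ∀ G : SymM 2 ν → ℂ,
        (∀ M U, w M U ≠ 0 → NE η (res A M U) →
          ‖𝔼 N, fA (res A M U) N * G (M + cj U N)‖ ≤ ε / 8 * √(en fun N => G (M + cj U N))) →
        ‖𝔼 M, fA A M * G M‖ ≤ ε * √(en G) := by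
  obtain ⟨J0, η0, h0, g1, hg1, hK⟩ := MKW η (ε ^ 2 / 32) hη (by positivity)
  refine ⟨J0, η0, h0, min g1 (ε ^ 2 / 4), by positivity,
    fun ν ν' _ _ _ _ hJ A hA w hw G hG => ?_⟩
  obtain ⟨w', hw', hs⟩ := BD hw
  rw [mul_div_cancel₀ _ (by positivity)] at hw'
  have mk := hK ν ν' hJ A hA w' (hw'.toWt0.mono (min_le_left _ _))
  refine (prt_glue (η := η) (ε₁ := ε / 8) (by positivity) hw' mk G
    fun M U k => hG M U (hs M U k)).trans (mul_le_mul_of_nonneg_right ?_ (Real.sqrt_nonneg _))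
  have b3 : √(min g1 (ε ^ 2 / 4)) ≤ ε / 2 :=
    Real.sqrt_le_iff.2 ⟨by positivity, (min_le_right _ _).trans (by linarith)⟩
  have b4 : √(4 * (ε / 8) ^ 2 + 2 * (ε ^ 2 / 32)) * √2 ≤ ε / 2 := by
    rw [← Real.sqrt_mul' _ zero_le_two]
    exact Real.sqrt_le_iff.2 ⟨by positivity, by linarith⟩
  linarith

end Pool.Agent.Work.MP_4523ee_co.F2
end

-- merged part: Pool.Agent.Work.MP_4523ee_co.F2.PrP2
section
/-!
Test (P): few fibres correlate with a stabiliser vector.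
-/

set_option autoImplicit false
set_option linter.unusedSectionVars false

namespace Pool.Agent.Work.MP_4523ee_co.F2

open Finset hiding dens
open Matrix Pool.Agent.Work.MP_4523ee_co.Fp
open scoped BigOperators ComplexConjugate

section
variable {X ν ι : Type} [AddCommGroup X] [Module (ZMod 2) X] [Fintype X] [Fintype ν]
  [DecidableEq ν] [Fintype ι] [DecidableEq ι]

/-- the part of phase space that keeps the slice -/
def slK (X : Type) [AddCommGroup X] [Module (ZMod 2) X] (κ : Matrix ι ν (ZMod 2)) :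
    Submodule (ZMod 2) (GX X ν) := LinearMap.ker ((actL X κ).comp (LinearMap.fst _ _ _))

lemma slK_card (L : Submodule (ZMod 2) (GX X ν)) (κ : Matrix ι ν (ZMod 2)) :
    Nat.card L ≤ Fintype.card X ^ Fintype.card ι * Nat.card ↥(L ⊓ slK X κ) := by
  let f : L →ₗ[ZMod 2] (ι → X) := ((actL X κ).comp (LinearMap.fst _ _ _)).comp L.subtype
  rw [Nat.card_eq_fintype_card, Nat.card_eq_fintype_card, card_eq_pow (p := 2) (L := L),
    ← f.finrank_range_add_finrank_ker, pow_add, ← card_eq_pow, ← card_eq_pow, ← Fintype.card_fun]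
  refine Nat.mul_le_mul (Fintype.card_le_of_injective _ Subtype.val_injective)
    (Fintype.card_le_of_injective (fun x => ⟨x.1.1, x.1.2, x.2⟩) fun x y e => ?_)
  exact Subtype.ext (Subtype.ext (congrArg (fun y : ↥(L ⊓ slK X κ) => y.1) e))

lemma St_slK {c lam : ℝ} (hc : 0 < c) {L : Submodule (ZMod 2) (GX X ν)} (h : St c lam L)
    (κ : Matrix ι ν (ZMod 2)) :
    St (c / (Fintype.card X : ℝ) ^ Fintype.card ι) lam (L ⊓ slK X κ) := by
  have k1 : (1 : ℝ) ≤ (Fintype.card X : ℝ) ^ Fintype.card ι :=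
    one_le_pow₀ (by exact_mod_cast Fintype.card_pos)
  have k2 : ∀ {S S' : Submodule (ZMod 2) (GX X ν)}, S ≤ S' → (Nat.card S : ℝ) ≤ Nat.card S' :=
    fun h => Nat.cast_le.2 (Nat.card_le_card_of_injective _ (Submodule.inclusion_injective h))
  refine ⟨?_, (k2 inf_le_left).trans (h.2.1.trans ?_), fun E a b =>
    (k2 (inf_le_inf_right _ inf_le_left)).trans (h.2.2 E a b)⟩
  · rw [div_mul_eq_mul_div, div_le_iff₀' (by positivity)]
    exact h.1.trans (by exact_mod_cast slK_card L κ)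
  · exact div_le_div_of_nonneg_left (by unfold pn; positivity) (by positivity)
      (div_le_self hc.le k1)

lemma W_cut_eigen {β : Bil 2 X} {u : (ν → X) → ℂ} {x : GX X ν} {κ : Matrix ι ν (ZMod 2)}
    (h : ∃ z : ℂ, W β x u = fun l => z * u l) (hx : x ∈ slK X κ) (e : ι → X) (k : ℂ) :
    ∃ z : ℂ, W β x (fun l => k * cut κ e u l) = fun l => z * (k * cut κ e u l) := by
  obtain ⟨z, hz⟩ := h
  refine ⟨z, funext fun l => ?_⟩
  have e0 : act κ (l + x.1) = act κ l := by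
    rw [act_add, show act κ x.1 = 0 from hx, add_zero]
  rw [W, cut, cut]
  by_cases k3 : act κ l = e
  · rw [if_pos k3, if_pos (e0.trans k3), mul_left_comm, mul_left_comm z]
    exact congrArg _ (congrFun hz l)
  · rw [if_neg k3, if_neg (e0 ▸ k3), mul_zero, mul_zero, mul_zero]

end

lemma tp2_num {η T d x y : ℝ} {K K0 : ℕ} (hη : 0 < η) (hT : 0 < T) (hK : 0 < K) (hK0 : K ≤ K0)
    (hd : 1 / (K : ℝ) ≤ d) (hd1 : d ≤ 1) (hy : y ≤ T * d) (hx : η * d ≤ x)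
    (h : x ≤ (η / (4 * (K + 1) * √T) + η / (4 * (K0 + 1) * √T)) * √y) : False := by
  have k0 : (0 : ℝ) < K := by exact_mod_cast hK
  have k1 : (K : ℝ) ≤ K0 := by exact_mod_cast hK0
  have d0 : 0 < d := lt_of_lt_of_le (by positivity) hd
  have s0 : 0 < √T := Real.sqrt_pos.2 hT
  have a1 : η / (4 * (K0 + 1) * √T) ≤ η / (4 * (K + 1) * √T) := by gcongr
  have a2 : √y ≤ √T * √d := by
    rw [← Real.sqrt_mul hT.le]
    exact Real.sqrt_le_sqrt hy
  have a3 : η * d ≤ 2 * (η / (4 * (K + 1) * √T)) * (√T * √d) :=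
    hx.trans (h.trans (mul_le_mul (by linarith) a2 (Real.sqrt_nonneg _) (by positivity)))
  have a4 : 2 * (η / (4 * (K + 1) * √T)) * (√T * √d) = η * (√d / (2 * (K + 1))) := by
    field_simp
    ring
  rw [a4] at a3
  have a5 := le_of_mul_le_mul_left a3 hη
  have a6 : √d ≤ 1 := Real.sqrt_le_one.2 hd1
  rw [le_div_iff₀ (by positivity)] at a5
  rw [div_le_iff₀ k0] at hd
  nlinarith

theorem TP2 (hW : CWUs) {r r₁ : ℕ} (hr : 0 < r₁) (hC : Claim2 2 (r - 1)) (c η ε T : ℝ)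
    (hc : 0 < c) (hη : 0 < η) (hε : 0 < ε) (hT : 0 < T) :
    ∃ lam : ℝ, 0 < lam ∧ ∃ δ : ℝ, 0 < δ ∧
    Ev 2 fun ν _ _ A => Data2 r r₁ ν fun X₁ X₂ _ _ _ _ _ _ b₁ b₂ e κ =>
      ∀ B : Set (SymM 2 ν), dens B ≤ δ → ∀ (u : (ν → ZMod 2) → (ν → X₁) → ℂ)
        (a₂ : (ν → ZMod 2) → (ν → X₂) → ℂ), (∀ v, nsq (u v) ≤ 1) →
        (∀ v, OnSl κ (fun i => (e i).2) (a₂ v)) → (∀ v, nsq (a₂ v) ≤ T) →
        dens {v | Stab (pol b₁) c lam (u v) ∧ η ≤ ‖fm v fun M => fB A B M *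
          (FF b₁ (cut κ (fun i => (e i).1) (u v)) M * FF b₂ (a₂ v) M)‖} ≤ ε := by
  have s0 : 0 < √T := Real.sqrt_pos.2 hT
  have e0 : ∀ K : ℕ, 0 < η / (4 * (K + 1) * √T) := fun K => by positivity
  choose η₁ hη₁ n₁ h1 using fun K : ℕ => TPK hC K _ (div_pos (e0 K) (by norm_num : (0 : ℝ) < 8))
  choose J0 η0 hη0 g hg h2 using fun K : ℕ => TK (η₁ K) _ (hη₁ K) (e0 K)
  obtain ⟨K0, lam, hlam, n0, h3⟩ := hW (2 ^ r₁) (c / ((2 : ℝ) ^ r₁) ^ r) ε (by positivity) hε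
    (fun K => n₁ K + J0 K)
    (fun K => g K / (1 + 2 * Fintype.card (SymM 2 (Fin (n₁ K + J0 K)))))
    fun K => div_pos (hg K) (by positivity)
  refine ⟨lam, hlam, _, pow_pos (e0 K0) 2, (Ev.all (range (K0 + 1))
    fun K _ => Ev_basic (η0 K) (hη0 K) n0).mono fun ν _ _ A hA => ?_⟩
  intro X₁ X₂ _ _ _ _ _ _ b₁ b₂ e κ n1 n2 d1 d2 he B hB u a₂ hu o₂ ha
  have hX : Fintype.card X₁ = 2 ^ r₁ := by rw [card_eq_pow (p := 2), d1]
  obtain ⟨ξ, hξ⟩ : ∃ ξ : X₁, ξ ≠ 0 := by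
    have : Nontrivial X₁ := Module.nontrivial_of_finrank_pos (d1 ▸ hr)
    exact exists_ne 0
  obtain ⟨Λ, hΛ⟩ : ∃ Λ : (ν → ZMod 2) → ℂ, ∀ v, Λ v = fm v fun M => fB A B M *
    (FF b₁ (cut κ (fun i => (e i).1) (u v)) M * FF b₂ (a₂ v) M) := ⟨_, fun _ => rfl⟩
  simp only [← hΛ]
  by_contra hn
  have hL : ∀ v, ∃ L : Submodule (ZMod 2) (GX X₁ ν), Stab (pol b₁) c lam (u v) →
      St c lam L ∧ ∀ x ∈ L, ∃ z : ℂ, W (pol b₁) x (u v) = fun l => z * u v l := fun v => by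
    by_cases k : Stab (pol b₁) c lam (u v)
    · exact ⟨_, fun _ => k.choose_spec⟩
    · exact ⟨⊥, fun a => absurd a k⟩
  choose L hL using hL
  obtain ⟨K, K1, K2, D', D1, D2, w, w1, w2⟩ := h3 ν (hA 0 (by simp)).1 X₁ hX.le ξ hξ _
    (not_le.1 hn).le (fun v => L v ⊓ slK X₁ κ) fun v hv => by
      have := St_slK hc (hL v hv.1).1 κ
      rwa [hX, Fintype.card_fin, Nat.cast_pow, Nat.cast_ofNat] at this
  choose z z1 z2 using fun v => Complex.exists_norm_eq_mul_self (Λ v)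
  obtain ⟨a₁, ha₁⟩ : ∃ a₁ : (ν → ZMod 2) → (ν → X₁) → ℂ, ∀ v, a₁ v = fun l =>
    ((ind D' v : ℂ) * z v) * cut κ (fun i => (e i).1) (u v) l := ⟨_, fun _ => rfl⟩
  have o₁ : ∀ v, OnSl κ (fun i => (e i).1) (a₁ v) := fun v l hl =>
    OnSl_cut κ _ (u v) l (right_ne_zero_of_mul (ha₁ v ▸ hl))
  have b1 := h2 K ν (Fin (n₁ K + J0 K)) (by simp) A (hA K (mem_range.2 (by omega))).2 w w1
    (fun M => FV b₁ a₁ M * FV b₂ a₂ M) fun M U hw hN => by
      simp only [FV_tile]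
      refine h1 K _ (by simp) _ hN X₁ X₂ b₁ b₂ n1 d2 ξ hξ _ _ fun t => ?_
      by_cases k : dg M + U *ᵥ t ∈ D'
      · obtain ⟨Wd, c1, c2⟩ := w2 M U hw t k
        refine ⟨Wd, c1, fun s s' hs hs' y hy => ?_⟩
        obtain ⟨τ, t1, t2, t3⟩ := c2 y hy
        refine atom2 b₁ _ M U ξ y τ ?_ t2 t3 hs hs'
        rw [ha₁]
        exact W_cut_eigen ((hL _ (D1 k).1).2 τ t1.1) t1.2 _ _
      · refine ⟨⊤, ?_, fun s s' hs => absurd ?_ hs⟩
        · rw [Nat.card_congr Submodule.topEquiv.toEquiv]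
          exact Nat.le_mul_of_pos_left _ K1
        · simp [ha₁, ind_of_not k, aT, FF, cut]
  have b2 := fA_sub_fB A B fun M => FV b₁ a₁ M * FV b₂ a₂ M
  have b3 : 𝔼 M, fB A B M * (FV b₁ a₁ M * FV b₂ a₂ M) = ((𝔼 v, ind D' v * ‖Λ v‖ : ℝ) : ℂ) := by
    rw [Complex.ofReal_expect]
    refine (fm_avg fun v M => fB A B M * (FF b₁ (a₁ v) M * FF b₂ (a₂ v) M)).symm.trans
      (expect_congr rfl fun v _ => ?_)
    rw [Complex.ofReal_mul, z2, ← mul_assoc, hΛ, ← fm_smul, ha₁]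
    refine fm_congr fun M _ => ?_
    rw [FF_smul]
    ring
  have b4 : η * dens D' ≤ 𝔼 v, ind D' v * ‖Λ v‖ := by
    rw [dens, mul_expect]
    refine expect_le_expect fun v _ => ?_
    by_cases k : v ∈ D'
    · rw [ind_of_mem k, mul_one, one_mul]
      exact (D1 k).2
    · rw [ind_of_not k, mul_zero, zero_mul]
  have b5 : en (fun M => FV b₁ a₁ M * FV b₂ a₂ M) ≤ T * dens D' := by
    rw [en_FV_mul n1 n2 he o₁ o₂, dens, mul_expect]
    refine expect_le_expect fun v _ => ?_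
    rw [ha₁, nsq_smul, norm_mul, z1, mul_one, mul_comm]
    refine mul_le_mul (ha v) ?_ (mul_nonneg (sq_nonneg _) (nsq_nonneg _)) hT.le
    by_cases k : v ∈ D'
    · rw [ind_of_mem k, Complex.ofReal_one, norm_one, one_pow, one_mul]
      exact (nsq_cut_le _ _ _).trans (hu v)
    · simp [ind_of_not k]
  have b6 : √(dens B) ≤ η / (4 * (K0 + 1) * √T) := Real.sqrt_le_iff.2 ⟨(e0 K0).le, hB⟩
  refine tp2_num hη hT K1 K2 D2 (dens_le_one _) b5 b4 ?_
  have b7 := (norm_sub_norm_le _ _).trans ((norm_sub_rev _ _).trans_le b2)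
  rw [b3, Complex.norm_real] at b7
  have b8 := mul_le_mul_of_nonneg_right b6
    (Real.sqrt_nonneg (en fun M => FV b₁ a₁ M * FV b₂ a₂ M))
  have b9 := le_abs_self (𝔼 v, ind D' v * ‖Λ v‖)
  rw [Real.norm_eq_abs] at b7
  linarith

end Pool.Agent.Work.MP_4523ee_co.F2
end
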