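import Mathlib
import Pool.Agent.Work.MP_4523ee_co.F2.PrK2
import Pool.Agent.Work.MP_4523ee_co.F2.AlA
import Pool.Agent.Work.MP_4523ee_co.F2.GT2
import Pool.Agent.Work.MP_4523ee_co.Fp.Wick
import Pool.Agent.Work.MP_4523ee_co.F2.PrG2
import Pool.Agent.Work.MP_4523ee_co.F2.PrP2

-- merged part: Pool.Agent.Work.MP_4523ee_co.F2.Ind2
section
/-!
Characteristic two: the double induction, from the two steps to `aS 2 = 0`.
-/

set_option autoImplicit false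
set_option linter.unusedSectionVars false

namespace Pool.Agent.Work.MP_4523ee_co.F2

open Finset hiding dens
open Matrix Pool.Agent.Work.MP_4523ee_co.Fp
open scoped BigOperators ComplexConjugate

/-- the statement of the reduction to primitive vectors -/
def PrimSt : Prop :=
  ∀ (cst : Prop) (r r₁ : ℕ), 0 < r₁ → r₁ ≤ r → Claim2 2 (r - 1) →
    (∀ u, 1 ≤ u → u < r₁ → ∀ c : ℝ, 0 < c → Bnd2 False r u c) →
    (¬ cst → ∀ c : ℝ, 0 < c → Bnd2 True r r₁ c) → PrimOut2 cst r r₁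

/-- the statement of the contraction step, with a factor `lam r < 1` -/
def StepSt (lam : ℕ → ℝ) : Prop :=
  ∀ (cst : Prop) (r r₁ : ℕ) (c : ℝ), 0 < r₁ → Claim2 2 (r - 1) → PrimOut2 cst r r₁ → 0 < c →
    c ≤ 1 → Bnd2 cst r r₁ c → Bnd2 cst r r₁ (lam r * c)

lemma bnd_of_prim {lam : ℕ → ℝ} (h0 : ∀ r, 0 < lam r) (h1 : ∀ r, lam r < 1) (hS : StepSt lam)
    {cst : Prop} {r r₁ : ℕ} (hr : 0 < r₁) (hC : Claim2 2 (r - 1)) (hP : PrimOut2 cst r r₁)
    (c : ℝ) (hc : 0 < c) : Bnd2 cst r r₁ c := by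
  have key : ∀ k : ℕ, Bnd2 cst r r₁ (lam r ^ k) := by
    intro k
    induction k with
    | zero => simpa using bnd_one2 cst r r₁
    | succ k ihk =>
      rw [pow_succ']
      exact hS cst r r₁ _ hr hC hP (pow_pos (h0 r) k) (pow_le_one₀ (h0 r).le (h1 r).le) ihk
  obtain ⟨k, hk⟩ := exists_pow_lt_of_lt_one hc (h1 r)
  exact (key k).mono hk.le

theorem bnd_all2 {lam : ℕ → ℝ} (h0 : ∀ r, 0 < lam r) (h1 : ∀ r, lam r < 1) (hS : StepSt lam)
    (hP : PrimSt) {r : ℕ} (hC : Claim2 2 (r - 1)) (r₁ : ℕ) :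
    1 ≤ r₁ → r₁ ≤ r → ∀ c : ℝ, 0 < c → Bnd2 False r r₁ c := by
  induction r₁ using Nat.strong_induction_on with
  | _ r₁ ih =>
    intro a1 a2
    have hB : ∀ u, 1 ≤ u → u < r₁ → ∀ c : ℝ, 0 < c → Bnd2 False r u c :=
      fun u hu hu' => ih u hu' hu (hu'.le.trans a2)
    have hE := bnd_of_prim h0 h1 hS a1 hC (hP True r r₁ a1 a2 hC hB fun h => absurd trivial h)
    exact bnd_of_prim h0 h1 hS a1 hC (hP False r r₁ a1 a2 hC hB fun _ => hE)

theorem aS_two_of {lam : ℕ → ℝ} (h0 : ∀ r, 0 < lam r) (h1 : ∀ r, lam r < 1) (hS : StepSt lam)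
    (hP : PrimSt) : aS 2 = 0 := by
  refine aS_eq_zero2 fun s => ?_
  induction s with
  | zero => exact claim_zero2
  | succ s ih =>
    exact claim_succ2 ih
      (bnd_all2 h0 h1 hS hP (r := s + 1) (by simpa using ih) (s + 1) (by omega) le_rfl)

/-- the form with the constant of `STEP2` -/
theorem aS_two_of_step (hS : StepSt fun r => 1 - (800 * 2 ^ r : ℝ)⁻¹) (hP : PrimSt) :
    aS 2 = 0 := by
  refine aS_two_of (fun r => ?_) (fun r => ?_) hS hP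
  · have h1 : (1 : ℝ) ≤ 2 ^ r := one_le_pow₀ one_le_two
    have h2 : (800 * 2 ^ r : ℝ)⁻¹ < 1 := inv_lt_one_of_one_lt₀ (by linarith)
    linarith
  · have h2 : 0 < (800 * 2 ^ r : ℝ)⁻¹ := by positivity
    linarith

end Pool.Agent.Work.MP_4523ee_co.F2
end

-- merged part: Pool.Agent.Work.MP_4523ee_co.F2.StepB2
section
/-!
Characteristic two: the contraction step from the statement on Gaussian tiles alone.
-/

set_option autoImplicit false
set_option linter.unusedSectionVars false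

namespace Pool.Agent.Work.MP_4523ee_co.F2

open Pool.Agent.Work.MP_4523ee_co.Fp

theorem mbout (k : ℕ) : MBout k := by
  obtain ⟨C, hC, h⟩ := MB2 2 k 1 le_rfl
  exact ⟨C, hC, fun X _ _ _ hX ν _ _ b _ a ha hG M0 => h X hX ν b a ha hG M0⟩

theorem stepSt_of (hGT : ∀ k r : ℕ, GTout k r) :
    StepSt fun r => 1 - (800 * 2 ^ r : ℝ)⁻¹ :=
  fun cst r _ _ h1 hC hP h2 h3 hB => STEP2 (hGT (2 ^ r) r) (mbout (2 ^ r)) cst h1 hC hP h2 h3 hB

theorem aS_two_of_GT (hGT : ∀ k r : ℕ, GTout k r) (hP : PrimSt) : aS 2 = 0 :=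
  aS_two_of_step (stepSt_of hGT) hP

end Pool.Agent.Work.MP_4523ee_co.F2
end

-- merged part: Pool.Agent.Work.MP_4523ee_co.F2.PrS2
section
/-!
Tests (S) and (S prime).
-/

set_option autoImplicit false
set_option linter.unusedSectionVars false

namespace Pool.Agent.Work.MP_4523ee_co.F2

open Finset hiding dens
open Matrix Pool.Agent.Work.MP_4523ee_co.Fp
open scoped BigOperators ComplexConjugate

lemma prs2_FF {ν : Type} [Fintype ν] [DecidableEq ν] {X X' : Type} [AddCommGroup X]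
    [Module (ZMod 2) X] [Fintype X] [AddCommGroup X'] [Module (ZMod 2) X'] [Fintype X']
    (b : Bil 2 X) (b' : Bil 2 X') (T : X' ≃ₗ[ZMod 2] X) (h : ∀ x, b' x x = b (T x) (T x))
    (h' : ∀ x y, pol b' x y = pol b (T x) (T y)) (a : (ν → X) → ℂ) (M : SymM 2 ν) :
    FF b' (fun l => a fun i => T (l i)) M = FF b a M := by
  rw [← FF_equiv b (b.compl₁₂ T.toLinearMap T.toLinearMap) T (fun _ _ => rfl) a M]
  unfold FF
  refine sum_congr rfl fun l _ => congrArg _ ?_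
  exact chi_congr (fun i => h _) (fun i j => h' _ _) M

/-- port of `Fp.TS`: half forms `b₁` restricted to `D` and `D'`; `FF_equiv` with the pulled back
form, then `chi_congr` (the cross terms of `q` are `pol b₁ x m = 0`) -/
theorem TS2 {r r₁ : ℕ} (hB : ∀ u, 1 ≤ u → u < r₁ → ∀ c : ℝ, 0 < c → Bnd2 False r u c)
    (ε : ℝ) (hε : 0 < ε) :
    Ev 2 fun ν _ _ A => Data2 r r₁ ν fun X₁ X₂ _ _ _ _ _ _ b₁ b₂ e κ =>
        ∀ D D' : Submodule (ZMod 2) X₁, D ≠ ⊥ → D ≠ ⊤ → NdOn (pol b₁) D → NdOn (pol b₁) D' →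
          IsCompl D D' → (∀ x ∈ D, ∀ y ∈ D', pol b₁ x y = 0) →
          ∀ u : (ν → ZMod 2) → (ν → X₁) → ℂ, (∀ v, IsProd D D' (u v)) →
          ∀ a₂ : (ν → ZMod 2) → (ν → X₂) → ℂ, (∀ v, OnSl κ (fun i => (e i).2) (a₂ v)) →
          ‖𝔼 M, fA A M * (FV b₁ (fun v => cut κ (fun i => (e i).1) (u v)) M * FV b₂ a₂ M)‖ ≤
            ε * √(𝔼 v, nsq (u v) * nsq (a₂ v)) := by
  refine (Ev.all (Finset.Ico 1 r₁) (fun u hu => hB u (mem_Ico.1 hu).1 (mem_Ico.1 hu).2 ε hε)).mono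
    fun ν _ _ A hA X₁ X₂ _ _ _ _ _ _ b₁ b₂ e κ n1 n2 hr1 hr he D D' hb ht nD nD' hC ho u hu
      a₂ ha₂ => ?_
  choose g h hu using hu
  let T := Submodule.prodEquivOfIsCompl D D' hC
  have hTa : ∀ x : D × D', T x = (x.1 : X₁) + (x.2 : X₁) := fun x =>
    Submodule.coe_prodEquivOfIsCompl' D D' hC x
  let βD : Bil 2 D := b₁.compl₁₂ D.subtype D.subtype
  let βE : Bil 2 D' := b₁.compl₁₂ D'.subtype D'.subtype
  have hT : ∀ x : D × D', bp βD βE x x = b₁ (T x) (T x) := by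
    intro x
    have h0 := ho _ x.1.2 _ x.2.2
    rw [pol_apply] at h0
    rw [bp_apply, hTa]
    simp only [map_add, LinearMap.add_apply]
    show b₁ x.1 x.1 + b₁ x.2 x.2 = _
    linear_combination -h0
  have hT' : ∀ x y : D × D', pol (bp βD βE) x y = pol b₁ (T x) (T y) := by
    intro x y
    rw [pol_bp, bp_apply, hTa, hTa]
    simp only [map_add, LinearMap.add_apply]
    rw [ho _ x.1.2 _ y.2.2, pol_sym b₁ (x.2 : X₁) (y.1 : X₁), ho _ y.1.2 _ x.2.2, add_zero,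
      zero_add]
    rfl
  let eD : Fin r → D := fun i => (T.symm (e i).1).1
  let eE : Fin r → D' := fun i => (T.symm (e i).1).2
  let a : (ν → ZMod 2) → (ν → D) → ℂ := fun v => cut κ eD fun x => g v fun i => (x i : X₁)
  let b : (ν → ZMod 2) → (ν → D') → ℂ := fun v => cut κ eE fun x => h v fun i => (x i : X₁)
  have hab : ∀ v, (fun l : ν → D × D' => cut κ (fun i => (e i).1) (u v) fun i => T (l i)) =
      tp (a v) (b v) := by
    intro v
    funext l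
    have h1 : (act κ fun i => T (l i)) = fun j => T (act κ l j) := by
      funext j
      simp only [act, map_sum, map_smul]
    have h2 : ((act κ fun i => T (l i)) = fun i => (e i).1) ↔
        (act κ (fun i => (l i).1) = eD ∧ act κ (fun i => (l i).2) = eE) := by
      rw [h1]
      constructor
      · intro h3
        have h4 : ∀ j, act κ l j = T.symm (e j).1 := fun j => by
          rw [← congrFun h3 j, LinearEquiv.symm_apply_apply]
        refine ⟨funext fun j => ?_, funext fun j => ?_⟩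
        · show _ = (T.symm (e j).1).1
          rw [← h4]
          simp only [act, Prod.fst_sum, Prod.smul_fst]
        · show _ = (T.symm (e j).1).2
          rw [← h4]
          simp only [act, Prod.snd_sum, Prod.smul_snd]
      · rintro ⟨h3, h4⟩
        funext j
        have h5 : act κ l j = T.symm (e j).1 := by
          refine Prod.ext ?_ ?_
          · refine Eq.trans ?_ (congrFun h3 j)
            simp only [act, Prod.fst_sum, Prod.smul_fst]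
          · refine Eq.trans ?_ (congrFun h4 j)
            simp only [act, Prod.snd_sum, Prod.smul_snd]
        rw [h5, LinearEquiv.apply_symm_apply]
    have h6 : (u v fun i => T (l i)) =
        g v (fun i => ((l i).1 : X₁)) * h v fun i => ((l i).2 : X₁) := by
      rw [← hu v _ _ (fun i => (l i).1.2) fun i => (l i).2.2]
      exact congrArg (u v) (funext fun i => hTa _)
    simp only [tp, a, b, cut]
    by_cases h7 : act κ (fun i => (l i).1) = eD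
    · by_cases h8 : act κ (fun i => (l i).2) = eE
      · rw [if_pos (h2.2 ⟨h7, h8⟩), if_pos h7, if_pos h8, h6]
      · rw [if_neg (fun h9 => h8 (h2.1 h9).2), if_neg h8, mul_zero]
    · rw [if_neg (fun h9 => h7 (h2.1 h9).1), if_neg h7, zero_mul]
  have hF : ∀ M : SymM 2 ν, FV b₁ (fun v => cut κ (fun i => (e i).1) (u v)) M * FV b₂ a₂ M =
      FV βD a M * FV (bp βE b₂) (fun v => tp (b v) (a₂ v)) M := fun M => by
    unfold FV
    rw [← prs2_FF b₁ (bp βD βE) T hT hT', hab, FF_tp, FF_tp, mul_assoc]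
  have hN : ∀ v, nsq (a v) * nsq (b v) ≤ nsq (u v) := by
    intro v
    rw [← nsq_tp, ← hab]
    exact (nsq_equiv T.toEquiv _).le.trans (nsq_cut_le _ _ _)
  have hd1 : 1 ≤ Module.finrank (ZMod 2) D := Submodule.one_le_finrank_iff.2 hb
  have hd2 : Module.finrank (ZMod 2) D < r₁ := hr1 ▸ Submodule.finrank_lt ht
  have hd3 := Submodule.finrank_add_eq_of_isCompl hC
  let Φ : (X₁ × X₂) ≃ₗ[ZMod 2] D × (D' × X₂) :=
    (T.symm.prodCongr (LinearEquiv.refl (ZMod 2) X₂)).trans (LinearEquiv.prodAssoc _ _ _ _)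
  have hsp : Submodule.span (ZMod 2) (Set.range fun i => Φ (e i)) = ⊤ := by
    have h1 := congrArg (Submodule.map Φ.toLinearMap) he
    rw [Submodule.map_span, Submodule.map_top, LinearEquiv.range, ← Set.range_comp] at h1
    exact h1
  have key := hA _ (mem_Ico.2 ⟨hd1, hd2⟩) D (D' × X₂) βD (bp βE b₂) (fun i => Φ (e i)) κ
    (fun x hx => Subtype.ext (nD _ x.2 fun y hy => hx ⟨y, hy⟩))
    (NdB_pol_bp (fun x hx => Subtype.ext (nD' _ x.2 fun y hy => hx ⟨y, hy⟩)) n2) rfl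
    (by rw [Module.finrank_prod]; omega) hsp a (fun v => tp (b v) (a₂ v)) False.elim
    (fun v => OnSl_cut _ _ _)
    (fun v => OnSl_tp (e := fun i => (Φ (e i)).2) (OnSl_cut _ _ _) (ha₂ v))
  simp only [hF]
  refine key.trans (mul_le_mul_of_nonneg_left (Real.sqrt_le_sqrt ?_) hε.le)
  refine expect_le_expect fun v _ => ?_
  rw [nsq_tp, ← mul_assoc]
  exact mul_le_mul_of_nonneg_right (hN v) (nsq_nonneg _)

/-- `Bnd2 True` for the half form `tw b₁ c` (`pol_tw`, `chi_tw`), the constant family `g` and the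
family `z v * a₂ v` -/
theorem TSp2 {r r₁ : ℕ} (hE : ∀ c : ℝ, 0 < c → Bnd2 True r r₁ c) (ε : ℝ) (hε : 0 < ε) :
    Ev 2 fun ν _ _ A => Data2 r r₁ ν fun X₁ X₂ _ _ _ _ _ _ b₁ b₂ e κ =>
        ∀ (c : X₁) (g : (ν → X₁) → ℂ) (z : (ν → ZMod 2) → ℂ)
          (a₂ : (ν → ZMod 2) → (ν → X₂) → ℂ), (∀ v, OnSl κ (fun i => (e i).2) (a₂ v)) →
          ‖𝔼 M, fA A M * (FV b₁ (fun v => cut κ (fun i => (e i).1) fun l =>
            z v * (g l * ee (pol b₁ c (∑ i, v i • l i)))) M * FV b₂ a₂ M)‖ ≤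
            ε * √(𝔼 v, ‖z v‖ ^ 2 * nsq g * nsq (a₂ v)) := by
  refine Ev.mono (hE ε hε)
    fun ν _ _ A hA X₁ X₂ _ _ _ _ _ _ b₁ b₂ e κ n1 n2 hr1 hr he c g z a₂ ha₂ => ?_
  have key := hA X₁ X₂ (tw b₁ c) b₂ e κ (by rw [pol_tw]; exact n1) n2 hr1 hr he
    (fun _ => cut κ (fun i => (e i).1) g) (fun v l => z v * a₂ v l) (fun _ _ _ => rfl)
    (fun _ => OnSl_cut _ _ _) (fun v l hl => ha₂ v l (right_ne_zero_of_mul hl))
  have hF : ∀ M : SymM 2 ν, FV b₁ (fun v => cut κ (fun i => (e i).1) fun l =>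
        z v * (g l * ee (pol b₁ c (∑ i, v i • l i)))) M * FV b₂ a₂ M =
      FV (tw b₁ c) (fun _ => cut κ (fun i => (e i).1) g) M *
        FV b₂ (fun v l => z v * a₂ v l) M := fun M => by
    have h1 : FV b₁ (fun v => cut κ (fun i => (e i).1) fun l =>
        z v * (g l * ee (pol b₁ c (∑ i, v i • l i)))) M =
        z (dg M) * FV (tw b₁ c) (fun _ => cut κ (fun i => (e i).1) g) M := by
      simp only [FV, FF, mul_sum]
      refine sum_congr rfl fun l _ => ?_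
      rw [chi_tw]
      simp only [cut]
      split_ifs
      · ring
      · simp
    have h2 : FV b₂ (fun v l => z v * a₂ v l) M = z (dg M) * FV b₂ a₂ M := by
      simp only [FV, FF, mul_sum, mul_assoc]
    rw [h1, h2]
    ring
  simp only [hF]
  refine key.trans (mul_le_mul_of_nonneg_left (Real.sqrt_le_sqrt ?_) hε.le)
  refine expect_le_expect fun v _ => ?_
  rw [nsq_smul, mul_left_comm, ← mul_assoc]
  exact mul_le_mul_of_nonneg_right (mul_le_mul_of_nonneg_left (nsq_cut_le _ _ _) (sq_nonneg _))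
    (nsq_nonneg _)

end Pool.Agent.Work.MP_4523ee_co.F2
end

-- merged part: Pool.Agent.Work.MP_4523ee_co.F2.PrO2
section
/-!
Reduction to primitive vectors, class O.
-/

set_option autoImplicit false
set_option linter.unusedSectionVars false

namespace Pool.Agent.Work.MP_4523ee_co.F2

open Finset hiding dens
open Matrix Pool.Agent.Work.MP_4523ee_co.Fp
open scoped BigOperators ComplexConjugate

section
variable {ν : Type} [Fintype ν] [DecidableEq ν]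
variable {X₁ X₂ : Type} [AddCommGroup X₁] [Module (ZMod 2) X₁] [Fintype X₁] [AddCommGroup X₂]
  [Module (ZMod 2) X₂] [Fintype X₂] {ι : Type} [Fintype ι] [DecidableEq ι] {b₁ : Bil 2 X₁}
  {b₂ : Bil 2 X₂} {κ : Matrix ι ν (ZMod 2)} {e : ι → X₁ × X₂}

lemma fm_FV (f : SymM 2 ν → ℂ) (u : (ν → ZMod 2) → (ν → X₁) → ℂ)
    (a : (ν → ZMod 2) → (ν → X₂) → ℂ) :
    𝔼 v, fm v (fun M => f M * (FF b₁ (u v) M * FF b₂ (a v) M)) =
      𝔼 M, f M * (FV b₁ u M * FV b₂ a M) :=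
  fm_avg fun v M => f M * (FF b₁ (u v) M * FF b₂ (a v) M)

lemma OnSl_mul {X : Type} [AddCommGroup X] [Module (ZMod 2) X] {e₁ : ι → X} {a : (ν → X) → ℂ}
    (h : OnSl κ e₁ a) (c : ℂ) : OnSl κ e₁ fun l => c * a l :=
  fun l hl => h l (right_ne_zero_of_mul hl)

lemma AB_le (n₁ : NdB (pol b₁)) (n₂ : NdB (pol b₂))
    (he : Submodule.span (ZMod 2) (Set.range e) = ⊤) (A : Set (SymM 2 ν)) {B : Set (SymM 2 ν)}
    {t y : ℝ} (ht : 0 ≤ t) (hB : dens B ≤ t ^ 2) {u : (ν → ZMod 2) → (ν → X₁) → ℂ}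
    {a : (ν → ZMod 2) → (ν → X₂) → ℂ} (h₁ : ∀ v, OnSl κ (fun i => (e i).1) (u v))
    (h₂ : ∀ v, OnSl κ (fun i => (e i).2) (a v)) (hy : 𝔼 v, nsq (u v) * nsq (a v) ≤ y) :
    |‖𝔼 M, fA A M * (FV b₁ u M * FV b₂ a M)‖ - ‖𝔼 M, fB A B M * (FV b₁ u M * FV b₂ a M)‖| ≤
      t * √y := by
  refine (abs_norm_sub_norm_le _ _).trans ((fA_sub_fB A B _).trans ?_)
  rw [en_FV_mul n₁ n₂ he h₁ h₂]
  exact mul_le_mul (Real.sqrt_le_iff.2 ⟨ht, hB⟩) (Real.sqrt_le_sqrt hy) (Real.sqrt_nonneg _) ht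

lemma to_fB (n₁ : NdB (pol b₁)) (n₂ : NdB (pol b₂))
    (he : Submodule.span (ZMod 2) (Set.range e) = ⊤) {A B : Set (SymM 2 ν)}
    {t x y : ℝ} (ht : 0 ≤ t) (hB : dens B ≤ t ^ 2) {u : (ν → ZMod 2) → (ν → X₁) → ℂ}
    {a : (ν → ZMod 2) → (ν → X₂) → ℂ} (h₂ : ∀ v, OnSl κ (fun i => (e i).2) (a v))
    (hy : 𝔼 v, nsq (u v) * nsq (a v) ≤ y) (hx : x ≤ y)
    (h : ‖𝔼 M, fA A M * (FV b₁ (fun v => cut κ (fun i => (e i).1) (u v)) M * FV b₂ a M)‖ ≤
      t * √x) :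
    ‖𝔼 M, fB A B M * (FV b₁ (fun v => cut κ (fun i => (e i).1) (u v)) M * FV b₂ a M)‖ ≤
      2 * t * √y := by
  have h1 := AB_le n₁ n₂ he A ht hB (fun v => OnSl_cut κ (fun i => (e i).1) (u v)) h₂
    ((expect_le_expect fun v _ =>
      mul_le_mul_of_nonneg_right (nsq_cut_le _ _ _) (nsq_nonneg _)).trans hy)
  have h2 := mul_le_mul_of_nonneg_left (Real.sqrt_le_sqrt hx) ht
  linarith [(abs_le.1 h1).1]

end

lemma exists_small6 {a b c d e f : ℝ} (ha : 0 < a) (hb : 0 < b) (hc : 0 < c) (hd : 0 < d)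
    (he : 0 < e) (hf : 0 < f) :
    ∃ t : ℝ, 0 < t ∧ t ≤ a ∧ t ≤ b ∧ t ≤ c ∧ t ≤ d ∧ t ≤ e ∧ t ≤ f :=
  ⟨min (min (min a b) (min c d)) (min e f), by positivity, by simp, by simp, by simp, by simp,
    by simp, by simp⟩

theorem PRIM2_O (hW : CWUs) {cst : Prop} (hcst : ¬ cst) {r r₁ : ℕ} (hr : 0 < r₁) (hr' : r₁ ≤ r)
    (hF : FCout (r - 1) r) (hC : Claim2 2 (r - 1))
    (hB : ∀ u, 1 ≤ u → u < r₁ → ∀ c : ℝ, 0 < c → Bnd2 False r u c)
    (hE : ∀ c : ℝ, 0 < c → Bnd2 True r r₁ c) : PrimOut2 cst r r₁ := by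
  intro ε s₀ hε hs₀
  refine ⟨4 / s₀ ^ 2, by positivity, fun θ hθ => ?_⟩
  obtain ⟨ρ, hρ⟩ : ∃ ρ, ρ = ε * s₀ / 16 := ⟨_, rfl⟩
  have ρ0 : 0 < ρ := by rw [hρ]; positivity
  obtain ⟨m, m0, hm⟩ : ∃ m : ℝ, 0 < m ∧ m ^ 2 = ρ := ⟨_, Real.sqrt_pos.2 ρ0, Real.sq_sqrt ρ0.le⟩
  obtain ⟨Q, hQ⟩ : ∃ Q : ℝ, Q = 2 ^ (2 ^ r₁) * 2 ^ (2 ^ r₁) + (2 ^ r₁ : ℕ) := ⟨_, rfl⟩
  have Q0 : 0 < Q := by rw [hQ]; positivity
  obtain ⟨c, hc, hM⟩ := prim_most θ hθ
  obtain ⟨lam, hlam, δ, hδ, hT⟩ := TP2 hW hr hC c (c * m) ρ 1 hc (by positivity) ρ0 one_pos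
  obtain ⟨τ, τ0, τ1, hM⟩ := hM lam hlam
  obtain ⟨t, t0, t1, t2, t3, t4, t5, t6⟩ := exists_small6 (half_pos hs₀) (by positivity : 0 < ε / 4)
    (Real.sqrt_pos.2 hδ) (by positivity : 0 < τ * m / 2) (by positivity : 0 < τ * m * √(ρ / Q) / 2)
    (by positivity : 0 < m * √θ / 2)
  have t3' : t ^ 2 ≤ δ := (Real.le_sqrt' t0).1 t3
  have t5' : Q * (2 * t / (τ * m)) ^ 2 ≤ ρ := by
    rw [← le_div_iff₀' Q0, ← Real.le_sqrt' (by positivity), div_le_iff₀' (by positivity)]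
    linarith
  have t6' : (m⁻¹ * (2 * t)) ^ 2 ≤ θ := by
    rw [← Real.le_sqrt' (by positivity), inv_mul_le_iff₀ m0]
    linarith
  refine (((TG2 (hr.trans_le hr') hF r₁ (t ^ 2) (by positivity)).and (TPos2 hC r₁ t t0)).and
    (((TS2 hB t t0).and (TSp2 hE t t0)).and hT)).mono ?_
  rintro ν _ _ A ⟨⟨⟨B, hB1, hG⟩, hP⟩, ⟨hS, hS'⟩, hT⟩ X₁ X₂ _ _ _ _ _ _ b₁ b₂ e κ n1 n2 d1 d2 he
    a₁ a₂ - o1 o2 q hl
  replace hG := hG X₁ X₂ b₁ b₂ e κ n1 n2 d1 d2 he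
  replace hP := hP X₁ X₂ b₁ b₂ e κ n1 n2 d1 d2 he
  replace hS := hS X₁ X₂ b₁ b₂ e κ n1 n2 d1 d2 he
  replace hS' := hS' X₁ X₂ b₁ b₂ e κ n1 n2 d1 d2 he
  replace hT := hT X₁ X₂ b₁ b₂ e κ n1 n2 d1 d2 he B (hB1.trans t3')
  have hX : Fintype.card X₁ = 2 ^ r₁ := by rw [card_eq_pow (p := 2), d1]
  have o3 : ∀ v, OnSl κ (fun i => (e i).2) (nrm (a₂ v)) := fun v => OnSl_mul (o2 v) _
  choose ψ p1 p2 using fun v => exists_rep b₁ κ (fun i => (e i).1) v
    fun M => fB A B M * FF b₂ (nrm (a₂ v)) M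
  replace p2 : ∀ v u, ip (ψ v) u = fm v fun M => fB A B M *
      (FF b₁ (cut κ (fun i => (e i).1) u) M * FF b₂ (nrm (a₂ v)) M) := fun v u =>
    (p2 v u).trans (fm_congr fun M _ => by ring)
  have p3 : ∀ u : (ν → ZMod 2) → (ν → X₁) → ℂ, 𝔼 v, ip (ψ v) (u v) = 𝔼 M, fB A B M *
      (FV b₁ (fun v => cut κ (fun i => (e i).1) (u v)) M * FV b₂ (fun v => nrm (a₂ v)) M) :=
    fun u => by simp only [p2, fm_FV]
  have p4 : ∀ (k k' : (ν → ZMod 2) → ℂ) (u : (ν → ZMod 2) → (ν → X₁) → ℂ),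
      (∀ v, OnSl κ (fun i => (e i).1) (u v)) →
      𝔼 M, fB A B M * (FV b₁ (fun v l => k v * u v l) M *
        FV b₂ (fun v l => k' v * nrm (a₂ v) l) M) = 𝔼 v, k v * k' v * ip (ψ v) (u v) :=
    fun k k' u hu => by
      rw [← fm_FV]
      refine expect_congr rfl fun v _ => ?_
      rw [p2, pr_cut (hu v), ← fm_smul]
      refine fm_congr fun M _ => ?_
      rw [FF_smul, FF_smul]
      ring
  have q1 : ∀ u : (ν → ZMod 2) → (ν → X₁) → ℂ,
      𝔼 v, nsq (u v) * nsq (nrm (a₂ v)) ≤ 𝔼 v, nsq (u v) := fun u =>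
    expect_le_expect fun v _ => mul_le_of_le_one_right (nsq_nonneg _) (nsq_nrm_le _)
  have p5 : ∀ v, nsq (ψ v) ≤ 1 := fun v => by
    refine pr_sq (nsq_nonneg _) zero_le_one le_rfl ?_
    have k := fm_le n1 n2 he (p1 v) (o3 v) v (norm_fB_le A B)
    rw [← pr_cut (p1 v), ← p2, pr_cut (p1 v), ip_self, Complex.norm_real,
      Real.norm_of_nonneg (nsq_nonneg _)] at k
    rw [one_mul]
    exact k.trans (mul_le_of_le_one_right (Real.sqrt_nonneg _)
      (Real.sqrt_le_one.2 (nsq_nrm_le _)))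
  obtain ⟨s, hs⟩ : ∃ s, s = √(𝔼 v, nsq (ψ v)) := ⟨_, rfl⟩
  have hs2 : s ^ 2 = 𝔼 v, nsq (ψ v) :=
    hs ▸ Real.sq_sqrt (expect_nonneg fun v _ => nsq_nonneg _)
  have e1 : ‖𝔼 M, fB A B M * (FV b₁ a₁ M * FV b₂ a₂ M)‖ ≤ s := by
    have k := p4 (fun _ => 1) (fun v => (√(nsq (a₂ v)) : ℝ)) a₁ o1
    rw [show (fun v l => ((√(nsq (a₂ v)) : ℝ) : ℂ) * nrm (a₂ v) l) = a₂ from
      funext fun v => (mul_nrm _).symm, show (fun v l => 1 * a₁ v l) = a₁ by simp only [one_mul]] at k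
    rw [k]
    simp only [one_mul]
    refine (ch_norm_expect _).trans (le_trans (expect_le_expect fun v _ => ?_)
      ((expect_mul_le_sqrt (fun v => √(nsq (ψ v))) fun v => √(nsq (a₁ v) * nsq (a₂ v))).trans ?_))
    · rw [norm_mul, Complex.norm_real, Real.norm_of_nonneg (Real.sqrt_nonneg _),
        Real.sqrt_mul (nsq_nonneg _), ← mul_assoc, mul_comm]
      exact mul_le_mul_of_nonneg_right (norm_ip_le _ _) (Real.sqrt_nonneg _)
    · simp only [Real.sq_sqrt (nsq_nonneg _),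
        Real.sq_sqrt (mul_nonneg (nsq_nonneg _) (nsq_nonneg _)), ← hs]
      exact mul_le_of_le_one_right (hs ▸ Real.sqrt_nonneg _) (Real.sqrt_le_one.2 q)
  have e2 := (abs_le.1 (AB_le n1 n2 he A t0.le hB1 o1 o2 q)).2
  rw [Real.sqrt_one, mul_one] at e2
  have s1 : s₀ / 2 ≤ s := by linarith
  have s0 : 0 < s := by linarith
  have e3 := hM X₁ ν (pol b₁) (pol_sym b₁) n1 ψ m (2 * t) ρ m0 (by positivity) (by linarith)
    (fun v N a1 a2 φ u a3 => by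
      rw [p2]
      refine (hG N a1 a2 φ u a3 _ (o3 v) v).trans ?_
      have := mul_le_of_le_one_right (nsq_nonneg u) (nsq_nrm_le (a₂ v))
      nlinarith [nsq_nonneg u, mul_le_mul_of_nonneg_left this (sq_nonneg t),
        mul_nonneg (sq_nonneg t) (nsq_nonneg u)])
    (fun D D' a1 a2 a3 a4 a5 a6 u a7 => (p3 u).symm ▸
      to_fB n1 n2 he t0.le hB1 o3 (q1 u) (q1 u) (hS D D' a1 a2 a3 a4 a5 a6 u a7 _ o3))
    (fun x hx u a1 => (p3 u).symm ▸
      to_fB n1 n2 he t0.le hB1 o3 (q1 u) (q1 u) (hP x hx u a1 _ o3))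
    fun u a1 => by
      simp only [p2]
      exact hT u _ a1 o3 fun v => nsq_nrm_le _
  rw [hX, ← hQ] at e3
  obtain ⟨D, hD⟩ : ∃ D : Set (ν → ZMod 2), ∀ v, v ∈ D ↔ m ^ 2 ≤ nsq (ψ v) ∧
    Prim (pol b₁) θ (nrm (ψ v)) ∧ Pos (pol b₁) θ (nrm (ψ v)) := ⟨_, fun _ => Iff.rfl⟩
  have c1 : ∀ v ∈ D, (fun l => (ind D v : ℂ) * nrm (ψ v) l) = nrm (ψ v) := fun v hv => by
    simp only [ind_of_mem hv, Complex.ofReal_one, one_mul]
  have c2 : ∀ v, nsq (fun l => ((√(nsq (ψ v)) / s : ℝ) : ℂ) * nrm (a₂ v) l) ≤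
      nsq (ψ v) / s ^ 2 := fun v => by
    rw [nsq_real_smul, div_pow, Real.sq_sqrt (nsq_nonneg _)]
    exact mul_le_of_le_one_right (div_nonneg (nsq_nonneg _) (sq_nonneg _)) (nsq_nrm_le _)
  have c3 : 𝔼 v, nsq (fun l => ((√(nsq (ψ v)) / s : ℝ) : ℂ) * nrm (a₂ v) l) ≤ 1 := by
    refine (expect_le_expect fun v _ => c2 v).trans_eq ?_
    rw [← expect_div, ← hs2, div_self (by positivity)]
  have o4 : ∀ v, OnSl κ (fun i => (e i).1) (nrm (ψ v)) := fun v => OnSl_mul (p1 v) _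
  refine ⟨D, fun v l => (ind D v : ℂ) * nrm (ψ v) l,
    fun v l => ((√(nsq (ψ v)) / s : ℝ) : ℂ) * nrm (a₂ v) l, fun v => OnSl_mul (o4 v) _,
    fun v => OnSl_mul (o3 v) _, fun v hv => ?_, fun v hv => ?_, fun a => absurd a hcst,
    fun _ => ?_, fun v => (c2 v).trans ?_, c3, ?_⟩
  · beta_reduce
    rw [c1 v hv]
    exact ⟨nsq_nrm ((pow_pos m0 2).trans_le ((hD v).1 hv).1).ne', ((hD v).1 hv).2⟩
  · funext l
    simp [ind_of_not hv]
  · refine SP_of_test _ ψ _ D (by positivity) t6' (fun v hv => ?_) fun x g z => ?_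
    · rw [c1 v hv]
      refine ⟨nsq_nrm_le _, _, ?_, rfl⟩
      rw [Complex.norm_real, Real.norm_of_nonneg (by positivity)]
      exact inv_anti₀ m0 (Real.le_sqrt_of_sq_le ((hD v).1 hv).1)
    · rw [p3]
      refine to_fB n1 n2 he t0.le hB1 o3 ((q1 _).trans_eq (expect_congr rfl fun v _ => ?_))
        (expect_le_expect fun v _ => mul_le_of_le_one_right
          (mul_nonneg (sq_nonneg _) (nsq_nonneg _)) (nsq_nrm_le _)) (hS' x g z _ o3)
      rw [nsq_smul]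
      simp only [nsq, norm_mul, norm_ee, mul_one]
  · rw [div_le_div_iff₀ (by positivity) (by positivity)]
    nlinarith [p5 v, mul_le_mul_of_nonneg_right (p5 v) (sq_nonneg s₀)]
  · have f1 := (abs_le.1 (AB_le n1 n2 he A t0.le hB1 (fun v => OnSl_mul (o4 v) (ind D v))
      (fun v => OnSl_mul (o3 v) (√(nsq (ψ v)) / s : ℝ)) (le_trans (expect_le_expect fun v _ =>
        mul_le_of_le_one_left (nsq_nonneg _) ?_) c3))).1
    swap
    · rw [nsq_real_smul]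
      exact mul_le_one₀ (pow_le_one₀ (ind_nonneg _ _) (ind_le_one _ _)) (nsq_nonneg _)
        (nsq_nrm_le _)
    have f2 : 𝔼 v, (ind D v : ℂ) * ((√(nsq (ψ v)) / s : ℝ) : ℂ) * ip (ψ v) (nrm (ψ v)) =
        (((𝔼 v, ind D v * nsq (ψ v)) / s : ℝ) : ℂ) := by
      rw [expect_div, Complex.ofReal_expect]
      refine expect_congr rfl fun v _ => ?_
      have k := weyl_ip_mul (√(nsq (ψ v)) : ℝ) (ψ v) (nrm (ψ v))
      rw [← mul_nrm, ip_self] at k
      push_cast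
      rw [k]
      ring
    have f3 : s ^ 2 ≤ 𝔼 v, ind D v * nsq (ψ v) + 3 * ρ := by
      obtain ⟨S, hS, e3⟩ : ∃ S : Set (ν → ZMod 2), (∀ v, m ^ 2 ≤ nsq (ψ v) → v ∉ D → v ∈ S) ∧
          dens S ≤ Q * (2 * t / (τ * m)) ^ 2 + ρ :=
        ⟨_, fun v k2 k1 => by exact ⟨k2, fun a => k1 ((hD v).2 ⟨k2, a⟩)⟩, e3⟩
      have k : ∀ v, nsq (ψ v) ≤ ind D v * nsq (ψ v) + ρ + ind S v := fun v => by
        by_cases k1 : v ∈ D
        · rw [ind_of_mem k1]
          linarith [ind_nonneg S v]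
        · rw [ind_of_not k1]
          by_cases k2 : m ^ 2 ≤ nsq (ψ v)
          · rw [ind_of_mem (hS v k2 k1)]
            linarith [p5 v]
          · linarith [ind_nonneg S v]
      have k' := expect_le_expect fun v (_ : v ∈ univ) => k v
      rw [expect_add_distrib, expect_add_distrib, Fintype.expect_const, ← hs2] at k'
      unfold dens at e3
      linarith
    rw [p4 _ _ _ o4, f2, Real.sqrt_one, mul_one, Complex.norm_real] at f1
    have f4 : s - 3 * ε / 8 ≤ (𝔼 v, ind D v * nsq (ψ v)) / s := by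
      rw [le_div_iff₀ s0]
      nlinarith
    linarith [le_abs_self ((𝔼 v, ind D v * nsq (ψ v)) / s), Real.norm_eq_abs
      ((𝔼 v, ind D v * nsq (ψ v)) / s)]

end Pool.Agent.Work.MP_4523ee_co.F2
end

-- merged part: Pool.Agent.Work.MP_4523ee_co.F2.Pr2
section
/-!
Reduction to primitive vectors, class E, and both classes together.
-/

set_option autoImplicit false
set_option linter.unusedSectionVars false

namespace Pool.Agent.Work.MP_4523ee_co.F2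

open Finset hiding dens
open Matrix Pool.Agent.Work.MP_4523ee_co.Fp
open scoped BigOperators ComplexConjugate

lemma pe_tail {V : Type} [Fintype V] [Nonempty V] (Λ : V → ℂ) {η R ρ : ℝ} (hη : 0 ≤ η)
    (hR : ∀ v, ‖Λ v‖ ≤ R) (S : Set V) (hS : ∀ v, η ≤ ‖Λ v‖ → v ∈ S) (h : dens S ≤ ρ) :
    ‖𝔼 v, Λ v‖ ≤ η + R * ρ := by
  have R0 : 0 ≤ R := (norm_nonneg _).trans (hR (Classical.arbitrary V))
  have k : ∀ v, ‖Λ v‖ ≤ η + R * ind S v := fun v => by
    by_cases a : η ≤ ‖Λ v‖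
    · rw [ind_of_mem (hS v a)]
      linarith [hR v]
    · linarith [mul_nonneg R0 (ind_nonneg S v)]
  refine (ch_norm_expect _).trans ((expect_le_expect fun v _ => k v).trans ?_)
  rw [expect_add_distrib, Fintype.expect_const, ← mul_expect]
  exact add_le_add le_rfl (mul_le_mul_of_nonneg_left h R0)

theorem PRIM2_E (hW : CWUs) {cst : Prop} (hcst : cst) {r r₁ : ℕ} (hr : 0 < r₁) (hr' : r₁ ≤ r)
    (hF : FCout (r - 1) r) (hC : Claim2 2 (r - 1))
    (hB : ∀ u, 1 ≤ u → u < r₁ → ∀ c : ℝ, 0 < c → Bnd2 False r u c) : PrimOut2 cst r r₁ := by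
  intro ε s₀ hε hs₀
  obtain ⟨μ, μ0, μ1, μ2⟩ : ∃ μ : ℝ, 0 < μ ∧ μ ≤ ε ∧ μ ≤ s₀ :=
    ⟨min ε s₀, lt_min hε hs₀, min_le_left _ _, min_le_right _ _⟩
  obtain ⟨R, hR⟩ : ∃ R, R = 4 / μ := ⟨_, rfl⟩
  have R0 : 0 < R := by rw [hR]; positivity
  refine ⟨R ^ 2, by positivity, fun θ hθ => ?_⟩
  obtain ⟨c, hc, hM⟩ := prim_of_tests θ hθ
  obtain ⟨lam, hlam, δ, hδ, hT⟩ := TP2 hW hr hC c (c * s₀ / 8) (c * s₀ / 8 / R) (R ^ 2) hc
    (by positivity) (by positivity) (by positivity)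
  obtain ⟨τ, τ0, τ1, hM⟩ := hM lam hlam
  obtain ⟨t, t0, t1, t3, t4, -⟩ := exists_small6 (by positivity : 0 < μ / 4)
    (Real.sqrt_pos.2 hδ) (by positivity : 0 < τ * s₀ / 4) one_pos one_pos one_pos
  have t3' : t ^ 2 ≤ δ := (Real.le_sqrt' t0).1 t3
  refine (((TG2 (hr.trans_le hr') hF r₁ (t ^ 2) (by positivity)).and (TPos2 hC r₁ t t0)).and
    ((TS2 hB t t0).and hT)).mono ?_
  rintro ν _ _ A ⟨⟨⟨B, hB1, hG⟩, hP⟩, hS, hT⟩ X₁ X₂ _ _ _ _ _ _ b₁ b₂ e κ n1 n2 d1 d2 he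
    a₁ a₂ hc1 o1 o2 q hl
  replace hG := hG X₁ X₂ b₁ b₂ e κ n1 n2 d1 d2 he
  replace hP := hP X₁ X₂ b₁ b₂ e κ n1 n2 d1 d2 he
  replace hS := hS X₁ X₂ b₁ b₂ e κ n1 n2 d1 d2 he
  replace hT := hT X₁ X₂ b₁ b₂ e κ n1 n2 d1 d2 he B (hB1.trans t3')
  obtain ⟨a, rfl⟩ : ∃ a, a₁ = fun _ => a := ⟨a₁ 0, funext fun v => hc1 hcst v 0⟩
  have a0 : nsq a ≠ 0 := fun h => by
    have k := norm_expect_mul_le (fA A) fun M => FV b₁ (fun _ => a) M * FV b₂ a₂ M
    rw [en_FV_mul n1 n2 he o1 o2] at k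
    simp only [h, zero_mul, Fintype.expect_const, Real.sqrt_zero, mul_zero] at k
    linarith
  have o3 : OnSl κ (fun i => (e i).1) (nrm a) := OnSl_mul (o1 0) _
  obtain ⟨a', ha'⟩ : ∃ a' : (ν → ZMod 2) → (ν → X₂) → ℂ,
    a' = fun v l => ((√(nsq a) : ℝ) : ℂ) * a₂ v l := ⟨_, rfl⟩
  have o4 : ∀ v, OnSl κ (fun i => (e i).2) (a' v) := fun v => ha' ▸ OnSl_mul (o2 v) _
  have q' : 𝔼 v, nsq (a' v) ≤ 1 := by
    simpa only [ha', nsq_real_smul, Real.sq_sqrt (nsq_nonneg _)] using q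
  have w1 : ∀ M, FV b₁ (fun _ => a) M * FV b₂ a₂ M = FV b₁ (fun _ => nrm a) M * FV b₂ a' M :=
    fun M => by
      simp only [FV, ha', FF_smul]
      conv_lhs => rw [mul_nrm a, FF_smul]
      ring
  simp only [w1] at hl ⊢
  obtain ⟨S, hS'⟩ : ∃ S : Set (ν → ZMod 2), S = {v | R ^ 2 ≤ nsq (a' v)} := ⟨_, rfl⟩
  obtain ⟨c₂, hc₂⟩ : ∃ c₂ : (ν → ZMod 2) → (ν → X₂) → ℂ,
    c₂ = fun v l => ((1 - ind S v : ℝ) : ℂ) * a' v l := ⟨_, rfl⟩
  have o5 : ∀ v, OnSl κ (fun i => (e i).2) (c₂ v) := fun v => hc₂ ▸ OnSl_mul (o4 v) _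
  have q2 : ∀ v, nsq (c₂ v) ≤ R ^ 2 ∧ nsq (c₂ v) ≤ nsq (a' v) := fun v => by
    simp only [hc₂, nsq_real_smul]
    by_cases k : v ∈ S
    · rw [ind_of_mem k, sub_self, zero_pow two_ne_zero, zero_mul]
      exact ⟨sq_nonneg _, nsq_nonneg _⟩
    · rw [ind_of_not k, sub_zero, one_pow, one_mul]
      exact ⟨(not_le.1 (hS' ▸ k :)).le, le_rfl⟩
  have q3 : 𝔼 v, nsq (c₂ v) ≤ 1 := (expect_le_expect fun v _ => (q2 v).2).trans q'
  have q4 : ∀ u : (ν → X₁) → ℂ, 𝔼 v, nsq u * nsq (c₂ v) ≤ nsq u := fun u => by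
    rw [← mul_expect]
    exact mul_le_of_le_one_right (nsq_nonneg _) q3
  have e0 : dens {M : SymM 2 ν | dg M ∈ S} ≤ (μ / 4) ^ 2 := by
    refine (expect_dg (ind S)).trans_le ?_
    rw [hS']
    refine (dens_markov _ (fun v => nsq_nonneg _) (by positivity)).trans
      ((div_le_div_of_nonneg_right q' (by positivity)).trans_eq ?_)
    rw [hR]
    field_simp
  have e1 := (abs_le.1 (AB_le n1 n2 he A (by positivity) e0 (fun _ => o3) o4 (y := 1)
    (by simpa only [nsq_nrm a0, one_mul] using q'))).2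
  have w2 : 𝔼 M, fB A {M : SymM 2 ν | dg M ∈ S} M * (FV b₁ (fun _ => nrm a) M * FV b₂ a' M) =
      𝔼 M, fA A M * (FV b₁ (fun _ => nrm a) M * FV b₂ c₂ M) := expect_congr rfl fun M _ => by
    simp only [FV, hc₂, FF_smul, fB]
    rw [show ind {M : SymM 2 ν | dg M ∈ S} M = ind S (dg M) from rfl]
    ring
  have e2 := (abs_le.1 (AB_le n1 n2 he A t0.le hB1 (fun _ => o3) o5
    ((q4 _).trans (nsq_nrm_le a)))).2
  rw [Real.sqrt_one, mul_one] at e1 e2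
  rw [w2] at e1
  have w3 : ∀ u, 𝔼 M, fB A B M * FV b₂ c₂ M * FF b₁ u M =
      𝔼 M, fB A B M * (FV b₁ (fun _ => u) M * FV b₂ c₂ M) := fun u =>
    expect_congr rfl fun M _ => by
      rw [FV, FV]
      ring
  obtain ⟨b, s, r1, r2, r3, r4, r5⟩ := exists_contr b₁ κ _ (fun M => fB A B M * FV b₂ c₂ M)
    (nrm a) o3 (nsq_nrm a0) (by rw [w3, ← norm_pos_iff]; linarith)
  simp only [w3] at r3 r4 r5
  have s1 : s₀ / 2 ≤ s := by linarith
  have s0 : 0 < s := by linarith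
  have t5 : 2 * t ≤ τ * s := by nlinarith
  have n5 : ∀ u, s * ‖ip b u‖ = ‖𝔼 M, fB A B M *
      (FV b₁ (fun _ => cut κ (fun i => (e i).1) u) M * FV b₂ c₂ M)‖ := fun u => by
    rw [← r5, norm_mul, Complex.norm_real, Real.norm_of_nonneg s0.le]
  have key : ∀ u, ‖𝔼 M, fA A M * (FV b₁ (fun _ => cut κ (fun i => (e i).1) u) M * FV b₂ c₂ M)‖ ≤
      t * √(𝔼 v, nsq u * nsq (c₂ v)) → ‖ip b u‖ ≤ τ * √(nsq u) := fun u h => by
    have h1 := to_fB (u := fun _ => u) n1 n2 he t0.le hB1 o5 (q4 u) (q4 u) h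
    rw [← n5] at h1
    refine le_of_mul_le_mul_left (h1.trans ?_) s0
    rw [← mul_assoc, mul_comm s]
    exact mul_le_mul_of_nonneg_right t5 (Real.sqrt_nonneg _)
  have hb := hM X₁ ν (pol b₁) (pol_sym b₁) n1 b r2
    (pr_G2 τ0.le τ1 fun N a1 a2 φ u a3 => by
      have h1 := expect_le_expect fun v (_ : v ∈ univ) => hG N a1 a2 φ u a3 _ (o5 v) v
      rw [← mul_expect, ← mul_expect] at h1
      have h2 := (pow_le_pow_left₀ (norm_nonneg _) (ch_norm_expect fun v => fm v fun M => fB A B M *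
        (FF b₁ (cut κ (fun i => (e i).1) u) M * FF b₂ (c₂ v) M)) 2).trans (prim_jensen _)
      rw [fm_FV _ fun _ => cut κ (fun i => (e i).1) u, ← n5] at h2
      have h3 := (mul_le_mul_of_nonneg_left h2 (by positivity)).trans
        (h1.trans (mul_le_mul (pow_le_pow_left₀ t0.le (by linarith : t ≤ τ * s) 2) (q4 u)
          (expect_nonneg fun v _ => mul_nonneg (nsq_nonneg _) (nsq_nonneg _)) (sq_nonneg _)))
      refine le_of_mul_le_mul_left (le_of_eq_of_le ?_ (h3.trans_eq ?_)) (pow_pos s0 2) <;> ring)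
    (fun D D' a1 a2 a3 a4 a5 a6 u a7 =>
      key u (hS D D' a1 a2 a3 a4 a5 a6 (fun _ => u) (fun _ => a7) c₂ o5))
    (fun x hx y u a1 => key u (hP x hx (fun _ => u) (fun _ => ⟨y, a1⟩) c₂ o5))
    fun u a1 a2 => by
      have h1 := pe_tail (R := R) (η := c * s₀ / 8) _ (by positivity)
        (fun v => (fm_le n1 n2 he (OnSl_cut κ _ u) (o5 v) v
        (norm_fB_le A B)).trans ((mul_le_of_le_one_left (Real.sqrt_nonneg _)
          (Real.sqrt_le_one.2 ((nsq_cut_le _ _ _).trans a1))).trans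
          (Real.sqrt_le_iff.2 ⟨R0.le, (q2 v).1⟩))) _ (fun v hv => by exact ⟨a2, hv⟩)
        (hT (fun _ => u) c₂ (fun _ => a1) o5 fun v => (q2 v).1)
      rw [fm_FV _ fun _ => cut κ (fun i => (e i).1) u, ← n5, mul_div_cancel₀ _ R0.ne'] at h1
      refine lt_of_mul_lt_mul_left (h1.trans_lt ?_) s0.le
      nlinarith [mul_pos hc hs₀]
  refine ⟨Set.univ, fun _ => b, c₂, fun _ => r1, o5, fun _ _ => ⟨r2, hb⟩,
    fun v hv => absurd (Set.mem_univ v) hv, fun _ => ⟨rfl, fun _ _ => rfl⟩,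
    fun h => absurd hcst h, fun v => (q2 v).1, q3, ?_⟩
  have e3 := (abs_le.1 (AB_le n1 n2 he A t0.le hB1 (fun _ => r1) o5 ((q4 b).trans r2.le))).1
  rw [r4, Real.sqrt_one, mul_one, Complex.norm_real, Real.norm_of_nonneg s0.le] at e3
  linarith

/-- the reduction to primitive vectors from alignment and cleaning -/
theorem PRIM2_of (hW : CWUs) (hF : ∀ s R, Claim2 2 s → FCout s R) : PrimSt :=
  fun cst _ _ hr hr' hC hB hE => (Classical.em cst).elim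
    (fun h => PRIM2_E hW h hr hr' (hF _ _ hC) hC hB)
    fun h => PRIM2_O hW h hr hr' (hF _ _ hC) hC hB (hE h)

end Pool.Agent.Work.MP_4523ee_co.F2
end
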