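import Mathlib
import Pool.Agent.Work.MP_4523ee_co.F2.AlA
import Pool.Agent.Work.MP_4523ee_co.F2.CTrf
import Pool.Agent.Work.MP_4523ee_co.F2.CloB
import Pool.Agent.Work.MP_4523ee_co.F2.CKey
import Pool.Agent.Work.MP_4523ee_co.F2.Pr2
import Pool.Agent.Work.MP_4523ee_co.F2.GT2

-- merged part: Pool.Agent.Work.MP_4523ee_co.F2.Fin2
section
/-!
From `aS p = 0` to the final statements (quadratic maps, set families, graphs).
-/

set_option autoImplicit false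
set_option linter.unusedSectionVars false
set_option linter.style.haveILetI false

namespace Pool.Agent.Work.MP_4523ee_co.F2

open Pool.Agent.Work.MP_4523ee_co.Fp
open Finset hiding dens
open Matrix
open scoped BigOperators ComplexConjugate symmDiff

variable {p : ℕ} [Fact p.Prime]

/-- the universal form: any map `L` from symmetric matrices with prescribed increments -/
theorem univ_of_aS (h : aS p = 0) (δ : ℝ) (hδ : 0 < δ) :
    ∃ n0 : ℕ, ∀ n : ℕ, n0 ≤ n → ∀ (W : Type) [AddCommGroup W] [Fintype W]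
      (L : SymM p (Fin n) → W) (φ : (Fin n → ZMod p) → W),
      (∀ M x, L (M + sqv x) = L M + φ x) → ∀ A : Finset W,
      δ * Fintype.card W ≤ A.card → ∃ a ∈ A, ∃ x : Fin n → ZMod p, x ≠ 0 ∧ a + φ x ∈ A := by
  obtain ⟨J, hJ⟩ := UB (p := p) _ (half_pos hδ)
  refine ⟨J, fun n hn W _ _ L φ hL A hA => ?_⟩
  by_contra hc
  push Not at hc
  have h4 : ∀ w : W, dens {M | w + L M ∈ A} ≤ δ / 2 := fun w => by
    have := hJ (Fin n) (by simpa using hn) {M | w + L M ∈ A} fun M x hx h1 h2 =>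
      hc _ h1 x hx (by rw [add_assoc, ← hL]; exact h2)
    rwa [h, zero_add] at this
  have h5 : 𝔼 w : W, dens {M | w + L M ∈ A} = dens (A : Set W) := by
    unfold dens
    rw [expect_comm]
    have : ∀ M, 𝔼 w : W, ind {M | w + L M ∈ A} M = 𝔼 w : W, ind (A : Set W) w := fun M =>
      Fintype.expect_equiv (Equiv.addRight (L M)) _ _ fun _ => rfl
    simp only [this, Fintype.expect_const]
  have h6 := Finset.expect_le (s := univ) univ_nonempty fun w _ => h4 w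
  have h7 : (0 : ℝ) < Fintype.card W := Nat.cast_pos.2 Fintype.card_pos
  rw [h5, dens_eq_card, div_le_iff₀ h7] at h6
  have h8 : (Nat.card (A : Set W) : ℝ) = A.card := by simp
  nlinarith

/-- every quadratic map over the prime field, every characteristic -/
theorem quad_of_aS2 (h : aS p = 0) (δ : ℝ) (hδ : 0 < δ) :
    ∃ n0 : ℕ, ∀ n : ℕ, n0 ≤ n → ∀ (W : Type) [AddCommGroup W] [Module (ZMod p) W] [Fintype W]
      (φ : QuadraticMap (ZMod p) (Fin n → ZMod p) W) (A : Finset W),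
      δ * Fintype.card W ≤ A.card → ∃ a ∈ A, ∃ x : Fin n → ZMod p, x ≠ 0 ∧ a + φ x ∈ A := by
  obtain ⟨n0, h0⟩ := univ_of_aS h δ hδ
  refine ⟨n0, fun n hn W _ _ _ φ => ?_⟩
  let B := φ.toBilin (Pi.basisFun (ZMod p) (Fin n))
  refine h0 n hn W (fun M => ∑ i, ∑ j, M.1 i j • B (Pi.single i 1) (Pi.single j 1)) φ
    fun M x => ?_
  have h1 : ∑ i, x i • (Pi.single i 1 : Fin n → ZMod p) = x := by
    funext j
    simp [Pi.single_apply]
  have h2 : B x x = ∑ i, ∑ j, (x i * x j) • B (Pi.single i 1) (Pi.single j 1) := by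
    conv_lhs => rw [← h1]
    simp only [map_sum, map_smul, LinearMap.sum_apply, LinearMap.smul_apply, smul_sum, smul_smul]
    rw [sum_comm]
    exact sum_congr rfl fun i _ => sum_congr rfl fun j _ => by rw [mul_comm]
  have h3 : φ x = B x x := by
    conv_lhs => rw [← QuadraticMap.toQuadraticMap_toBilin φ (Pi.basisFun (ZMod p) (Fin n))]
    rfl
  rw [h3, h2]
  simp only [← sum_add_distrib, ← add_smul]
  rfl

/-- every finite field whose characteristic has `aS = 0` -/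
theorem field_of_aS (F : Type) [Field F] [Fintype F]
    (h : ∀ [Fact (ringChar F).Prime], aS (ringChar F) = 0) (δ : ℝ) (hδ : 0 < δ) :
    ∃ n₀ : ℕ, ∀ n : ℕ, n₀ ≤ n → ∀ (W : Type) [AddCommGroup W] [Module F W] [Fintype W]
      (φ : QuadraticMap F (Fin n → F) W) (A : Finset W),
      δ * (Fintype.card W : ℝ) ≤ (A.card : ℝ) →
      ∃ a ∈ A, ∃ x : Fin n → F, x ≠ 0 ∧ a + φ x ∈ A := by
  haveI : Fact (ringChar F).Prime := ⟨CharP.char_is_prime F _⟩
  letI : Algebra (ZMod (ringChar F)) F := ZMod.algebra F (ringChar F)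
  obtain ⟨n₀, h⟩ := quad_of_aS2 h δ hδ
  refine ⟨n₀, fun n hn W _ _ _ φ A hA => ?_⟩
  letI : Module (ZMod (ringChar F)) W := Module.compHom W (algebraMap (ZMod (ringChar F)) F)
  haveI : IsScalarTower (ZMod (ringChar F)) F W :=
    ⟨fun a b w => by rw [Algebra.smul_def, mul_smul]; rfl⟩
  let ι : (Fin n → ZMod (ringChar F)) →ₗ[ZMod (ringChar F)] (Fin n → F) :=
    (Algebra.linearMap (ZMod (ringChar F)) F).compLeft (Fin n)
  obtain ⟨a, ha, x, hx, h'⟩ := h n hn W ((φ.restrictScalars (S := ZMod (ringChar F))).comp ι) A hA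
  refine ⟨a, ha, ι x, fun h0 => hx (funext fun i => ?_), h'⟩
  exact (algebraMap (ZMod (ringChar F)) F).injective (by simpa [ι] using congrFun h0 i)

lemma z2_cases (t : ZMod 2) : t = 0 ∨ t = 1 := by
  revert t
  decide

/-- groups of exponent two: `a` and `a + ∑_{i, j ∈ γ} w i j` -/
theorem vip_of_aS (h : aS 2 = 0) (δ : ℝ) (hδ : 0 < δ) :
    ∃ n0 : ℕ, ∀ n : ℕ, n0 ≤ n → ∀ (W : Type) [AddCommGroup W] [Fintype W],
      (∀ a : W, a + a = 0) → ∀ (w : Fin n → Fin n → W) (A : Finset W),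
      δ * Fintype.card W ≤ A.card → ∃ a ∈ A, ∃ γ : Finset (Fin n), γ.Nonempty ∧
        a + ∑ i ∈ γ, ∑ j ∈ γ, w i j ∈ A := by
  obtain ⟨n0, h0⟩ := univ_of_aS h δ hδ
  refine ⟨n0, fun n hn W _ _ hW w A hA => ?_⟩
  have k : ∀ (s t : ZMod 2) (a : W), (if s + t = 1 then a else 0) =
      (if s = 1 then a else 0) + if t = 1 then a else 0 := fun s t a => by
    rcases z2_cases s with rfl | rfl <;> rcases z2_cases t with rfl | rfl
    · simp
    · simp
    · simp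
    · rw [if_neg (by decide), if_pos rfl, hW]
  obtain ⟨a, ha, x, hx, h1⟩ := h0 n hn W (fun M => ∑ i, ∑ j, if M.1 i j = 1 then w i j else 0)
    (fun x => ∑ i, ∑ j, if x i * x j = 1 then w i j else 0) (fun M x => by
      simp only [← sum_add_distrib, ← k]
      rfl) A hA
  refine ⟨a, ha, univ.filter fun i => x i = 1, ?_, ?_⟩
  · obtain ⟨i, hi⟩ := Function.ne_iff.1 hx
    exact ⟨i, mem_filter.2 ⟨mem_univ _, (z2_cases _).resolve_left hi⟩⟩
  · convert h1 using 2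
    rw [sum_filter]
    refine sum_congr rfl fun i _ => ?_
    rw [sum_filter]
    rcases z2_cases (x i) with e | e
    · simp [e]
    · simp [e]

/-- transfer to families of structures coded injectively by subsets of a finite set `E` -/
theorem code_of_aS (h : aS 2 = 0) (δ : ℝ) (hδ : 0 < δ) :
    ∃ n0 : ℕ, ∀ n : ℕ, n0 ≤ n → ∀ (E Γ : Type) [Fintype E] (R : Γ → E → Prop),
      Function.Injective R → ∀ (f : E → SymM 2 (Fin n) → ZMod 2),
      (∀ e M N, f e (M + N) = f e M + f e N) → ∀ 𝓐 : Finset Γ,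
      δ * 2 ^ Fintype.card E ≤ 𝓐.card → ∃ a ∈ 𝓐, ∃ b ∈ 𝓐, ∃ x : Fin n → ZMod 2, x ≠ 0 ∧
        ∀ e, (¬ (R a e ↔ R b e) ↔ f e (sqv x) = 1) := by
  classical
  obtain ⟨n0, h0⟩ := univ_of_aS h δ hδ
  refine ⟨n0, fun n hn E Γ _ R hR f hf 𝓐 hA => ?_⟩
  let c : Γ → E → ZMod 2 := fun a e => if R a e then 1 else 0
  have hc : Function.Injective c := fun a b hab => hR (funext fun e => propext (by
    have h3 := congrFun hab e
    simp only [c] at h3
    by_cases h1 : R a e <;> by_cases h2 : R b e <;>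
      simp only [h1, h2, if_true, if_false] at h3 ⊢ <;> exact absurd h3 (by decide)))
  obtain ⟨a0, ha0, x, hx, h1⟩ := h0 n hn (E → ZMod 2) (fun M e => f e M) (fun x e => f e (sqv x))
    (fun M x => funext fun e => hf e _ _) (𝓐.image c) (by
      rw [card_image_of_injective _ hc, Fintype.card_fun, ZMod.card]
      exact_mod_cast hA)
  obtain ⟨a, ha, h0a⟩ := mem_image.1 ha0
  rw [← h0a] at h1
  obtain ⟨b, hb, h2⟩ := mem_image.1 h1
  refine ⟨a, ha, b, hb, x, hx, fun e => ?_⟩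
  have h3 : c b e = c a e + f e (sqv x) := congrFun h2 e
  generalize f e (sqv x) = y at h3
  simp only [c] at h3
  by_cases h4 : R a e <;> by_cases h5 : R b e <;> simp only [h4, h5, if_true, if_false] at h3 ⊢ <;>
    revert y <;> decide

/-- Q1 for `k = d = 2` with symmetric difference -/
theorem sets_of_aS (h : aS 2 = 0) (δ : ℝ) (hδ : 0 < δ) :
    ∃ N₀ : ℕ, ∀ N : ℕ, N₀ ≤ N → ∀ E : Finset (Finset (Fin N × Fin N)),
      δ * 2 ^ (N ^ 2) ≤ (E.card : ℝ) →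
      ∃ α ∈ E, ∃ γ : Finset (Fin N), γ.Nonempty ∧ α ∆ (γ ×ˢ γ) ∈ E := by
  obtain ⟨n0, h0⟩ := code_of_aS h δ hδ
  refine ⟨n0, fun N hN E hE => ?_⟩
  obtain ⟨a, ha, b, hb, x, hx, h1⟩ := h0 N hN (Fin N × Fin N) (Finset (Fin N × Fin N))
    (fun a e => e ∈ a) (fun a b hab => Finset.ext fun e => (congrFun hab e).to_iff)
    (fun e M => M.1 e.1 e.2) (fun _ _ _ => rfl) E (by
      rwa [Fintype.card_prod, Fintype.card_fin, ← sq])
  refine ⟨a, ha, univ.filter fun i => x i = 1, ?_, ?_⟩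
  · obtain ⟨i, hi⟩ := Function.ne_iff.1 hx
    exact ⟨i, mem_filter.2 ⟨mem_univ _, (z2_cases _).resolve_left hi⟩⟩
  · convert hb using 1
    ext e
    have h2 : ¬ (e ∈ a ↔ e ∈ b) ↔ x e.1 * x e.2 = 1 := h1 e
    have h3 : x e.1 * x e.2 = 1 ↔ x e.1 = 1 ∧ x e.2 = 1 := by
      rcases z2_cases (x e.1) with q | q <;> rcases z2_cases (x e.2) with r | r <;> simp [q, r]
    simp only [Finset.mem_symmDiff, mem_product, mem_filter, mem_univ, true_and, ← h3, ← h2]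
    tauto

lemma fibre_card {m t n : ℕ} (hn : (m + 1) * t ≤ n) {x : Fin (m + 1) → ZMod 2} (hx : x ≠ 0) :
    t ≤ (univ.filter fun u : Fin n => x ⟨u.1 % (m + 1), Nat.mod_lt _ m.succ_pos⟩ = 1).card := by
  obtain ⟨i, hi⟩ := Function.ne_iff.1 hx
  have hi1 := (z2_cases _).resolve_left hi
  have hb : ∀ k : Fin t, i.1 + (m + 1) * k.1 < n := fun k => by
    have h2 := Nat.mul_le_mul_left (m + 1) (Nat.succ_le_of_lt k.2)
    have h3 := i.2
    rw [Nat.mul_succ] at h2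
    omega
  have := Finset.card_le_card_of_injOn (s := (univ : Finset (Fin t)))
    (t := univ.filter fun u : Fin n => x ⟨u.1 % (m + 1), Nat.mod_lt _ m.succ_pos⟩ = 1)
    (fun k => ⟨_, hb k⟩) (fun k _ => by
      refine mem_coe.2 (mem_filter.2 ⟨mem_univ _, ?_⟩)
      rw [← hi1]
      congr 1
      refine Fin.ext ?_
      show (i.1 + (m + 1) * k.1) % (m + 1) = i.1
      rw [Nat.add_mul_mod_self_left, Nat.mod_eq_of_lt i.2])
    (fun k _ l _ hkl => Fin.ext (Nat.eq_of_mul_eq_mul_left m.succ_pos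
      (Nat.add_left_cancel (congrArg Fin.val hkl))))
  simpa using this

/-- Q1 for `k = d = 2` with symmetric difference, `γ` as large as we please -/
theorem sets_t_of_aS (h : aS 2 = 0) (δ : ℝ) (hδ : 0 < δ) (t : ℕ) :
    ∃ N₀ : ℕ, ∀ N : ℕ, N₀ ≤ N → ∀ E : Finset (Finset (Fin N × Fin N)),
      δ * 2 ^ (N ^ 2) ≤ (E.card : ℝ) →
      ∃ α ∈ E, ∃ γ : Finset (Fin N), t ≤ γ.card ∧ symmDiff α (γ ×ˢ γ) ∈ E := by
  obtain ⟨n0, h0⟩ := code_of_aS h δ hδ
  refine ⟨(n0 + 1) * t, fun N hN E hE => ?_⟩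
  let r : Fin N → Fin (n0 + 1) := fun u => ⟨u.1 % (n0 + 1), Nat.mod_lt _ n0.succ_pos⟩
  obtain ⟨a, ha, b, hb, x, hx, h1⟩ := h0 (n0 + 1) n0.le_succ (Fin N × Fin N)
    (Finset (Fin N × Fin N))
    (fun a e => e ∈ a) (fun a b hab => Finset.ext fun e => (congrFun hab e).to_iff)
    (fun e M => M.1 (r e.1) (r e.2)) (fun _ _ _ => rfl) E (by
      rwa [Fintype.card_prod, Fintype.card_fin, ← sq])
  refine ⟨a, ha, univ.filter fun u => x (r u) = 1, fibre_card hN hx, ?_⟩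
  convert hb using 1
  ext e
  have h2 : ¬ (e ∈ a ↔ e ∈ b) ↔ x (r e.1) * x (r e.2) = 1 := h1 e
  have h3 : x (r e.1) * x (r e.2) = 1 ↔ x (r e.1) = 1 ∧ x (r e.2) = 1 := by
    rcases z2_cases (x (r e.1)) with q | q <;> rcases z2_cases (x (r e.2)) with r | r <;>
      simp [q, r]
  simp only [Finset.mem_symmDiff, mem_product, mem_filter, mem_univ, true_and, ← h3, ← h2]
  tauto

/-- graph codes: two members whose symmetric difference is a clique on at least `t` vertices -/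
theorem graphs_of_aS (h : aS 2 = 0) (δ : ℝ) (hδ : 0 < δ) (t : ℕ) :
    ∃ n₀ : ℕ, ∀ n : ℕ, n₀ ≤ n → ∀ 𝓖 : Finset (SimpleGraph (Fin n)),
      δ * 2 ^ n.choose 2 ≤ (𝓖.card : ℝ) →
      ∃ G ∈ 𝓖, ∃ H ∈ 𝓖, ∃ S : Finset (Fin n), t ≤ S.card ∧
        ∀ u v, (G ∆ H).Adj u v ↔ u ≠ v ∧ u ∈ S ∧ v ∈ S := by
  obtain ⟨n0, h0⟩ := code_of_aS h δ hδ
  refine ⟨(n0 + 1) * t, fun n hn 𝓖 hG => ?_⟩
  let r : Fin n → Fin (n0 + 1) := fun u => ⟨u.1 % (n0 + 1), Nat.mod_lt _ n0.succ_pos⟩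
  obtain ⟨G, hG1, H, hH1, x, hx, h1⟩ := h0 (n0 + 1) n0.le_succ
    {e : Sym2 (Fin n) // ¬ e.IsDiag} (SimpleGraph (Fin n)) (fun G e => e.1 ∈ G.edgeSet)
    (fun G H hGH => SimpleGraph.edgeSet_injective (Set.ext fun e => ⟨fun k =>
      (congrFun hGH ⟨e, G.not_isDiag_of_mem_edgeSet k⟩).to_iff.1 k, fun k =>
      (congrFun hGH ⟨e, H.not_isDiag_of_mem_edgeSet k⟩).to_iff.2 k⟩))
    (fun e M => Sym2.lift ⟨fun u v => M.1 (r u) (r v), fun u v =>
      congrFun (congrFun (SymM_T M) (r v)) (r u)⟩ e.1)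
    (fun ⟨e, _⟩ M N => by
      induction e using Sym2.ind with
      | _ u v => rfl) 𝓖 (by rwa [Sym2.card_subtype_not_diag, Fintype.card_fin])
  refine ⟨G, hG1, H, hH1, univ.filter fun u => x (r u) = 1, ?_, fun u v => ?_⟩
  · obtain ⟨i, hi⟩ := Function.ne_iff.1 hx
    have hi1 := (z2_cases _).resolve_left hi
    have hb : ∀ k : Fin t, i.1 + (n0 + 1) * k.1 < n := fun k => by
      have h2 := Nat.mul_le_mul_left (n0 + 1) (Nat.succ_le_of_lt k.2)
      have h3 := i.2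
      rw [Nat.mul_succ] at h2
      omega
    have := Finset.card_le_card_of_injOn (s := (univ : Finset (Fin t)))
      (t := univ.filter fun u => x (r u) = 1) (fun k => ⟨_, hb k⟩) (fun k _ => by
        refine mem_coe.2 (mem_filter.2 ⟨mem_univ _, ?_⟩)
        rw [← hi1]
        congr 1
        refine Fin.ext ?_
        show (i.1 + (n0 + 1) * k.1) % (n0 + 1) = i.1
        rw [Nat.add_mul_mod_self_left, Nat.mod_eq_of_lt i.2])
      (fun k _ l _ hkl => Fin.ext (Nat.eq_of_mul_eq_mul_left n0.succ_pos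
        (Nat.add_left_cancel (congrArg Fin.val hkl))))
    simpa using this
  · by_cases huv : u = v
    · subst huv
      simp
    · have h2 : ¬ (G.Adj u v ↔ H.Adj u v) ↔ x (r u) * x (r v) = 1 :=
        h1 ⟨s(u, v), fun k => huv (Sym2.mk_isDiag_iff.1 k)⟩
      have h3 : x (r u) * x (r v) = 1 ↔ x (r u) = 1 ∧ x (r v) = 1 := by
        rcases z2_cases (x (r u)) with q | q <;> rcases z2_cases (x (r v)) with r | r <;>
          simp [q, r]
      simp only [symmDiff_def, SimpleGraph.sup_adj, SimpleGraph.sdiff_adj, mem_filter, mem_univ,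
        true_and, ← h3, ← h2]
      tauto

end Pool.Agent.Work.MP_4523ee_co.F2
end

-- merged part: Pool.Agent.Work.MP_4523ee_co.F2.CGl
section
/-!
Fibred cleaning: the counting lemmas in the form of the interface.
-/

set_option autoImplicit false
set_option linter.unusedSectionVars false

namespace Pool.Agent.Work.MP_4523ee_co.F2

open Finset hiding dens
open Matrix Fp Fp.Po
open scoped BigOperators ComplexConjugate

theorem dcs : DCs := by
  intro R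
  obtain ⟨C, hC, H⟩ := Mo.DC0 R
  refine ⟨C, hC, fun ν _ _ v r F B θ hr hR h1 h2 h3 h4 h5 => ?_⟩
  have k := H ν (Mo.Dg v) r hR ⊥ F B θ h4 (by rwa [finrank_bot])
    (fun Y hY => ⟨bot_le, (h1 Y hY).1, (live_iff v Y).1 (h1 Y hY).2, h5 Y hY⟩)
    (by rwa [finrank_bot, Nat.sub_zero]) fun Z' a b => by
      have := h2 Z' (by
        rw [pos_iff_ne_zero, ne_eq, Submodule.finrank_eq_zero]
        exact a.ne') b
      rwa [one_mul] at this
  rwa [CY_bot, Mo.fd_univ, mul_one, finrank_bot, Nat.sub_zero, Set.inter_univ] at k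

theorem lis : LIs := by
  intro R
  obtain ⟨C, hC, H⟩ := Mo.LIGHT R
  refine ⟨C, hC, fun ν _ _ v r F B θ β hR h1 h2 h3 h4 h5 h6 h7 Z a b => ?_⟩
  exact H ν (Mo.Dg v) r hR 1 F B θ β h3 h4 h5 (fun Z Z' h => h2 h)
    (fun Y hY => ⟨(h1 Y hY).1, (live_iff v Y).1 (h1 Y hY).2, h6 Y hY,
      fun S c d => h7 Y hY S c d⟩) Z a b

end Pool.Agent.Work.MP_4523ee_co.F2
end

-- merged part: Pool.Agent.Work.MP_4523ee_co.F2.PtF
section
/-!
Poisson tile: dust or popular part.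
-/

set_option autoImplicit false
set_option linter.unusedSectionVars false

namespace Pool.Agent.Work.MP_4523ee_co.F2.Mo

open Finset Matrix Pool.Agent.Work.MP_4523ee_co.Fp Pool.Agent.Work.MP_4523ee_co.Fp.Po
open scoped BigOperators ComplexConjugate

section
variable {ν : Type} [Fintype ν] [DecidableEq ν] {r : ℕ}

open Classical in
/-- popular tuples for the twist `c` -/
noncomputable def Pop (θ : ℝ) (S : (ν → ZMod 2) → Finset (TT 2 r ν)) (c : Fin r → ZMod 2) :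
    Finset (TT 2 r ν) := {ω | θ ≤ Fp.dens {δ | ω + tw δ c ∈ S δ}}

lemma ptF_exp {D G : Type} [Fintype D] (A : Finset G) (Q : G → D → Prop)
    [∀ δ, DecidablePred fun τ => Q τ δ] :
    𝔼 δ, (#{τ ∈ A | Q τ δ} : ℝ) = ∑ τ ∈ A, Fp.dens {δ | Q τ δ} := by
  unfold Fp.dens
  rw [← expect_sum_comm]
  refine expect_congr rfl fun δ _ => ?_
  rw [card_filter, Nat.cast_sum]
  refine sum_congr rfl fun τ _ => ?_
  by_cases h : Q τ δ
  · rw [if_pos h, ind_of_mem (show δ ∈ {δ | Q τ δ} from h), Nat.cast_one]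
  · rw [if_neg h, ind_of_not (show δ ∉ {δ | Q τ δ} from h), Nat.cast_zero]

lemma ptF_cnt {D G : Type} [Fintype D] [DecidableEq G] {θ : ℝ} {P : Finset G} {T : D → Finset G}
    (h : ∀ ω ∈ P, θ ≤ Fp.dens {δ | ω ∈ T δ}) (Q : G → Prop) [DecidablePred Q] :
    θ * #{ω ∈ P | Q ω} ≤ 𝔼 δ, (#{ω ∈ T δ | Q ω} : ℝ) := by
  have h1 : θ * #{ω ∈ P | Q ω} ≤ ∑ ω ∈ P.filter Q, Fp.dens {δ | ω ∈ T δ} := by
    rw [mul_comm, ← nsmul_eq_mul]
    exact card_nsmul_le_sum _ _ _ fun ω hω => h ω (mem_filter.1 hω).1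
  rw [← ptF_exp] at h1
  refine h1.trans (expect_le_expect fun δ _ => Nat.cast_le.2 (card_le_card fun ω hω => ?_))
  exact mem_filter.2 ⟨(mem_filter.1 hω).2, (mem_filter.1 (mem_filter.1 hω).1).2⟩

lemma ptF_prod {D G : Type} [Fintype D] [DecidableEq G] {θ : ℝ} (hθ : 0 ≤ θ) {P : Finset G}
    {T : D → Finset G} (h : ∀ ω ∈ P, θ ≤ Fp.dens {δ | ω ∈ T δ}) :
    ∀ ω ∈ P ×ˢ P, θ ^ 2 ≤ Fp.dens {δ : D × D | ω ∈ T δ.1 ×ˢ T δ.2} := by
  intro ω hω
  have e : Fp.dens {δ : D × D | ω ∈ T δ.1 ×ˢ T δ.2} =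
      Fp.dens {δ | ω.1 ∈ T δ} * Fp.dens {δ | ω.2 ∈ T δ} := by
    unfold Fp.dens
    rw [expect_mul_expect, ← expect_product', univ_product_univ]
    refine expect_congr rfl fun δ _ => ?_
    by_cases h1 : ω.1 ∈ T δ.1 <;> by_cases h2 : ω.2 ∈ T δ.2 <;> simp [ind, h1, h2]
  rw [e, sq]
  exact mul_le_mul (h _ (mem_product.1 hω).1) (h _ (mem_product.1 hω).2) hθ (dens_nonneg _)

lemma ptF_en {D G : Type} [Fintype D] [Nonempty D] [AddCommGroup G] [Fintype G] [DecidableEq G]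
    {θ B : ℝ} (hθ : 0 ≤ θ) {P : Finset G} {T : D → Finset G}
    (h : ∀ ω ∈ P, θ ≤ Fp.dens {δ | ω ∈ T δ}) (hB : ∀ δ, (Finset.addEnergy (T δ) (T δ) : ℝ) ≤ B) :
    θ ^ 4 * (Finset.addEnergy P P : ℝ) ≤ B := by
  have h1 : θ ^ 4 * (Finset.addEnergy P P : ℝ) ≤
      𝔼 δ : D × D, (Finset.addEnergy (T δ.1) (T δ.2) : ℝ) := by
    simp only [addEnergy_eq_sum_sq]
    push_cast
    rw [mul_sum, expect_sum_comm]
    refine sum_le_sum fun x _ => ?_
    have a1 := ptF_cnt (ptF_prod hθ h) fun ω : G × G => ω.1 + ω.2 = x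
    have a2 := expect_mul_sq_le_sq_mul_sq (univ : Finset (D × D))
      (fun δ => (#{ω ∈ T δ.1 ×ˢ T δ.2 | ω.1 + ω.2 = x} : ℝ)) fun _ => (1 : ℝ)
    simp only [mul_one, one_pow, expect_const univ_nonempty] at a2
    refine le_trans ?_ a2
    have a3 := pow_le_pow_left₀ (by positivity) a1 2
    refine le_of_eq_of_le ?_ a3
    ring
  refine h1.trans (expect_le univ_nonempty fun δ _ => ?_)
  have a3 : 2 * (Finset.addEnergy (T δ.1) (T δ.2) : ℝ) ≤
      Finset.addEnergy (T δ.1) (T δ.1) + Finset.addEnergy (T δ.2) (T δ.2) := by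
    exact_mod_cast moC_two (T δ.1) (T δ.2)
  linarith [hB δ.1, hB δ.2]

lemma ptF_le {D G : Type} [Fintype D] {θ N : ℝ} (hθ : 0 ≤ θ) {A : Finset G} (hA : (#A : ℝ) ≤ N)
    (Q : G → D → Prop) [∀ δ, DecidablePred fun τ => Q τ δ]
    (h : ∀ τ ∈ A, Fp.dens {δ | Q τ δ} ≤ θ) : 𝔼 δ, (#{τ ∈ A | Q τ δ} : ℝ) ≤ θ * N := by
  rw [ptF_exp]
  refine (sum_le_card_nsmul _ _ _ h).trans ?_
  rw [nsmul_eq_mul, mul_comm]
  exact mul_le_mul_of_nonneg_left hA hθ

lemma ptF_cancel (τ τ' : TT 2 r ν) : τ + τ' + τ' = τ := by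
  rw [add_assoc, tt_add_self, add_zero]

lemma ptF_mem {θ : ℝ} {S : (ν → ZMod 2) → Finset (TT 2 r ν)} {c : Fin r → ZMod 2} {ω : TT 2 r ν} :
    ω ∈ Pop θ S c ↔ θ ≤ Fp.dens {δ | ω + tw δ c ∈ S δ} := by
  simp [Pop]

lemma Pop_thin {θ ξ : ℝ} (hθ : 0 < θ) (hξ : 0 ≤ ξ) {S : (ν → ZMod 2) → Finset (TT 2 r ν)}
    (h : ∀ δ, Thin 1 ξ (S δ)) (c : Fin r → ZMod 2) : Thin θ⁻¹ (ξ / θ) (Pop θ S c) := by
  have k : ∀ ω ∈ Pop θ S c, θ ≤ Fp.dens {δ | ω ∈ (S δ).image fun τ => τ + tw δ c} := by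
    intro ω hω
    refine (ptF_mem.1 hω).trans (dens_mono fun δ hδ => ?_)
    exact mem_image.2 ⟨_, hδ, ptF_cancel _ _⟩
  have t := fun δ => (h δ).add (tw δ c)
  refine ⟨?_, fun g h0 h1 σ => ?_, ?_⟩
  · have a := ptF_cnt k fun _ => True
    simp only [filter_true] at a
    have b := a.trans (expect_le univ_nonempty fun δ _ => (t δ).card)
    rw [one_mul] at b
    exact (le_inv_mul_iff₀ hθ).2 b
  · have a := (ptF_cnt k fun τ => rm τ g = σ).trans
      (expect_le univ_nonempty fun δ _ => (t δ).lt g h0 h1 σ)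
    rw [div_mul_eq_mul_div, le_div_iff₀' hθ]
    exact a
  · rw [div_pow, div_mul_eq_mul_div, le_div_iff₀' (pow_pos hθ 4)]
    exact ptF_en hθ.le k fun δ => (t δ).en

lemma TW.mono {ξ ξ' : ℝ} {Bf : (ν → ZMod 2) → Finset (TT 2 r ν)} (h : TW ξ Bf) (hξ : ξ ≤ ξ') :
    TW ξ' Bf := by
  intro g hg c
  exact (h g hg c).trans (mul_le_mul_of_nonneg_right hξ (pow_pos dd_pos _).le)

lemma TW_dust {θ : ℝ} (hθ : 0 ≤ θ) {S Bf : (ν → ZMod 2) → Finset (TT 2 r ν)}
    (h1 : ∀ δ, Bf δ ⊆ S δ) (h2 : ∀ δ, (#(S δ) : ℝ) ≤ dd 2 ν ^ r)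
    (h3 : ∀ δ, ∀ τ ∈ Bf δ, ∀ g, Inj g → ∀ c, rm τ g + tw δ c ∉ Pop θ S c) : TW θ Bf := by
  classical
  intro g hg c
  refine expect_le univ_nonempty fun δ _ => expect_le univ_nonempty fun δ₁ _ => ?_
  refine ptF_le hθ ((Nat.cast_le.2 (card_le_card (h1 δ₁))).trans (h2 δ₁)) _ fun τ hτ => ?_
  have a := h3 δ₁ τ hτ g hg c
  rw [ptF_mem, not_le] at a
  refine le_trans (dens_mono fun δ₂ hδ => ?_) a.le
  have b := h1 δ₂ hδ.1
  rw [tw_add, ← add_assoc] at b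
  exact b

open Classical in
lemma TW_pop {C ξ : ℝ} (hξ : 0 ≤ ξ) {P : Finset (TT 2 r ν)} (h : Thin C ξ P)
    (c : Fin r → ZMod 2) :
    TW (C * ξ) fun δ => (P.image fun ω => ω + tw δ c).filter (live (Dg δ)) := by
  intro g hg c'
  refine expect_le univ_nonempty fun δ _ => expect_le univ_nonempty fun δ₁ _ => ?_
  rw [mul_comm C, mul_assoc]
  refine ptF_le hξ ((Nat.cast_le.2 ((card_filter_le _ _).trans card_image_le)).trans h.card) _
    fun τ _ => ?_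
  by_cases hc : c' + c = 0
  · have e : c' = c := by
      have e1 : c' + c + c = c := by rw [hc, zero_add]
      rw [add_assoc, show c + c = 0 from funext fun i => CharTwo.add_self_eq_zero _, add_zero] at e1
      exact e1
    subst e
    refine le_trans (dens_mono (B := ∅) fun δ₂ hδ => ?_) ?_
    · obtain ⟨a1, a2, a3⟩ := hδ
      obtain ⟨ω, hω, e⟩ := mem_image.1 (mem_filter.1 a1).1
      rw [tw_add, ← add_assoc, add_left_inj] at e
      refine a3 (mem_image_of_mem _ (mem_filter.2 ⟨mem_image.2 ⟨ω, hω, ?_⟩, a2⟩))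
      rw [e, tw_add, add_assoc, add_comm (tw δ c')]
    · simpa [Fp.dens, ind] using hξ
  · refine le_trans (dens_mono fun δ₂ hδ => ?_) (h.line hξ hc (rm τ g + tw δ₁ c'))
    obtain ⟨ω, hω, e⟩ := mem_image.1 (mem_filter.1 hδ.1).1
    show rm τ g + tw δ₁ c' + tw δ₂ (c' + c) ∈ P
    rw [tw_add', ← add_assoc, add_assoc (rm τ g), ← tw_add, ← e, ptF_cancel]
    exact hω

end

theorem PTL (r J : ℕ) (hr : 0 < r) (g : ℝ) (hg : 0 < g) : ∃ ξ : ℝ, 0 < ξ ∧ ∃ n0 : ℕ,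
    ∀ (ν : Type) [Fintype ν] [DecidableEq ν], n0 ≤ Fintype.card ν →
    ∀ S : (ν → ZMod 2) → Finset (TT 2 r ν), (∀ δ, Thin 1 ξ (S δ)) →
    (∀ δ, ∀ τ ∈ S δ, Inj (yM τ) ∧ live (Dg δ) τ) →
    ∃ S' : (ν → ZMod 2) → Finset (TT 2 r ν), (∀ δ, S' δ ⊆ S δ) ∧
      ∑ δ, #(S δ) ≤ 2 ^ (r ^ 2 + r + 1) * ∑ δ, #(S' δ) ∧
      ∃ w : SymM 2 ν → Mx 2 ν (Fin J) → ℝ, (∀ M U, 0 ≤ w M U) ∧
        (∀ M U N, w (M + cj U N) U = w M U) ∧
        (∀ M U, w M U ≠ 0 → Inj U ∧ ∀ N, ∀ τ ∈ S' (dg (M + cj U N)), hit (M + cj U N) τ →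
          Uᵀ * yM τ = 0) ∧ 𝔼 M, |𝔼 U, w M U - 1| ≤ g := by
  classical
  obtain ⟨ξ1, h1, n1, H1⟩ := PT r J hr 1 g le_rfl hg
  have hθ : 0 < min ξ1 1 := lt_min h1 one_pos
  have hθ1 : min ξ1 1 ≤ 1 := min_le_right _ _
  have hθ2 : min ξ1 1 ≤ ξ1 := min_le_left _ _
  generalize min ξ1 1 = θ at hθ hθ1 hθ2
  obtain ⟨ξ2, h2, n2, H2⟩ := PT r J hr θ⁻¹ g ((one_le_inv₀ hθ).2 hθ1) hg
  have hξ : 0 < min ξ1 (ξ2 * θ ^ 2) := lt_min h1 (by positivity)
  have hξ1 : min ξ1 (ξ2 * θ ^ 2) ≤ ξ1 := min_le_left _ _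
  have hξ2 : min ξ1 (ξ2 * θ ^ 2) ≤ ξ2 * θ ^ 2 := min_le_right _ _
  generalize min ξ1 (ξ2 * θ ^ 2) = ξ at hξ hξ1 hξ2
  refine ⟨ξ, hξ, max n1 n2, fun ν _ _ hn S hS hl => ?_⟩
  let cl : Option (Mx 2 (Fin r) (Fin r) × (Fin r → ZMod 2)) → (ν → ZMod 2) → Finset (TT 2 r ν) :=
    fun k δ => k.elim {τ ∈ S δ | ∀ g, Inj g → ∀ c, rm τ g + tw δ c ∉ Pop θ S c}
      fun q => {τ ∈ S δ | Inj q.1 ∧ rm τ q.1 + tw δ q.2 ∈ Pop θ S q.2}
  have hsub : ∀ k δ, cl k δ ⊆ S δ := fun k δ => by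
    cases k <;> exact filter_subset _ _
  obtain ⟨k, -, hk⟩ := exists_max_image univ (fun k => ∑ δ, #(cl k δ)) univ_nonempty
  refine ⟨cl k, hsub k, ?_, ?_⟩
  · have a1 : ∑ δ, #(S δ) ≤ ∑ δ, ∑ k', #(cl k' δ) := by
      refine sum_le_sum fun δ _ => le_trans (card_le_card fun τ hτ => ?_) card_biUnion_le
      by_cases hd : ∀ g, Inj g → ∀ c, rm τ g + tw δ c ∉ Pop θ S c
      · exact mem_biUnion.2 ⟨none, mem_univ _, mem_filter.2 ⟨hτ, hd⟩⟩
      · push Not at hd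
        obtain ⟨g', hg', c, hc⟩ := hd
        exact mem_biUnion.2 ⟨some (g', c), mem_univ _, mem_filter.2 ⟨hτ, hg', hc⟩⟩
    rw [sum_comm] at a1
    refine a1.trans ((sum_le_card_nsmul _ _ _ hk).trans ?_)
    rw [smul_eq_mul]
    refine Nat.mul_le_mul_right _ ?_
    have a2 : 1 ≤ 2 ^ (r ^ 2 + r) := Nat.one_le_two_pow
    have a3 : Fintype.card (Mx 2 (Fin r) (Fin r)) = 2 ^ (r ^ 2) := by
      rw [show Fintype.card (Mx 2 (Fin r) (Fin r)) = Fintype.card (Fin r → Fin r → ZMod 2) from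
        Fintype.card_congr Matrix.of.symm]
      simp only [Fintype.card_fun, ZMod.card, Fintype.card_fin]
      rw [← pow_mul, sq]
    rw [card_univ, Fintype.card_option, Fintype.card_prod, a3, Fintype.card_fun, ZMod.card,
      Fintype.card_fin, ← pow_add, pow_succ 2]
    omega
  · cases k with
    | none =>
      refine H1 ν ((le_max_left _ _).trans hn) _
        (fun δ => (hS δ).mono le_rfl hξ.le hξ1 (hsub _ δ)) (fun δ τ hτ => hl δ τ (hsub _ δ hτ))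
        (TW.mono (TW_dust hθ.le (hsub _) (fun δ => ?_) fun δ τ hτ => (mem_filter.1 hτ).2) hθ2)
      simpa using (hS δ).card
    | some q =>
      obtain ⟨g', c⟩ := q
      have hP := Pop_thin hθ hξ.le hS c
      have b1 : θ⁻¹ * (ξ / θ) ≤ ξ2 := by
        rw [inv_mul_le_iff₀ hθ, div_le_iff₀ hθ]
        linarith
      have b2 : ξ / θ ≤ ξ2 := by
        rw [div_le_iff₀ hθ]
        nlinarith [mul_nonneg (mul_pos h2 hθ).le (sub_nonneg.2 hθ1)]
      obtain ⟨w, w0, w1, w2, w3⟩ := H2 ν ((le_max_right _ _).trans hn)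
        (fun δ => ((Pop θ S c).image fun ω => ω + tw δ c).filter (live (Dg δ)))
        (fun δ => (hP.add (tw δ c)).mono le_rfl (by positivity) b2 (filter_subset _ _))
        (fun δ τ hτ => ⟨by
          obtain ⟨ω, hω, rfl⟩ := mem_image.1 (mem_filter.1 hτ).1
          have e := ptF_mem.1 hω
          by_contra hne
          have e2 : {δ' | ω + tw δ' c ∈ S δ'} = ∅ := by
            refine Set.eq_empty_of_forall_notMem fun δ' hδ' => hne ?_
            have e3 := (hl δ' _ hδ').1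
            unfold tw at e3 ⊢
            rw [yM_add_zz] at e3 ⊢
            exact e3
          rw [e2] at e
          have e4 : Fp.dens (∅ : Set (ν → ZMod 2)) = 0 := by simp [Fp.dens, ind]
          linarith, (mem_filter.1 hτ).2⟩)
        ((TW_pop (by positivity) hP c).mono b1)
      refine ⟨w, w0, w1, fun M U hw => ⟨(w2 M U hw).1, fun N τ hτ hh => ?_⟩, w3⟩
      obtain ⟨a1, a2, a3⟩ := mem_filter.1 hτ
      have a4 := (w2 M U hw).2 N (rm τ g') (mem_filter.2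
        ⟨mem_image.2 ⟨_, a3, ptF_cancel _ _⟩, live_rm (hl _ τ a1).2 g'⟩) (hit_rm hh g')
      rw [moC_y, ← Matrix.mul_assoc] at a4
      obtain ⟨u, hu⟩ := mulVec_injective_iff_isUnit.1 a2
      have hu' : g' * (u⁻¹ : (Mx 2 (Fin r) (Fin r))ˣ).1 = 1 := by
        rw [show g' = u.1 from hu.symm, Units.mul_inv]
      rw [← Matrix.mul_one (Uᵀ * yM τ), ← hu', ← Matrix.mul_assoc, a4, Matrix.zero_mul]

end Pool.Agent.Work.MP_4523ee_co.F2.Mo
end

-- merged part: Pool.Agent.Work.MP_4523ee_co.F2.CGp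
section
/-!
Fibred cleaning: the Poisson tile lemma in the form of the interface.
-/

set_option autoImplicit false
set_option linter.unusedSectionVars false

namespace Pool.Agent.Work.MP_4523ee_co.F2

open Finset hiding dens
open Matrix Fp Fp.Po
open scoped BigOperators ComplexConjugate

theorem ptls : PTLs := by
  intro r J g hr hg
  obtain ⟨ξ, hξ, n0, H⟩ := Mo.PTL r J hr g hg
  refine ⟨ξ, hξ, n0, fun ν _ _ hn S h1 h2 => ?_⟩
  obtain ⟨S', a1, a2, w, b1, b2, b3, b4⟩ := H ν hn S h1 h2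
  refine ⟨S', a1, a2, w, ⟨b1, b2, fun M U h => (b3 M U h).1, b4⟩, fun M U h τ c d => ?_⟩
  have e : M + cj U 0 = M := by
    rw [add_eq_left]
    exact Subtype.ext (by simp [cj])
  exact (b3 M U h).2 0 τ (by rwa [e]) (by rwa [e])

end Pool.Agent.Work.MP_4523ee_co.F2
end

-- merged part: Pool.Agent.Work.MP_4523ee_co.F2.FC2
section
/-!
Fibred cleaning: the output.
-/

set_option autoImplicit false

namespace Pool.Agent.Work.MP_4523ee_co.F2

theorem FC2 {s : ℕ} (hC : Claim2 2 s) (R : ℕ) : FCout s R :=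
  FC_of (adapt cwus ptls) dcs lis hC R

end Pool.Agent.Work.MP_4523ee_co.F2
end

-- merged part: Pool.Agent.Work.MP_4523ee_co.F2.Main2
section
/-!
Characteristic two: the theorem.
-/

set_option autoImplicit false

namespace Pool.Agent.Work.MP_4523ee_co.F2

theorem aS_two : Pool.Agent.Work.MP_4523ee_co.Fp.aS 2 = 0 :=
  aS_two_of_GT GT2 (PRIM2_of cwus fun _ R hC => FC2 hC R)

end Pool.Agent.Work.MP_4523ee_co.F2
end
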