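import Mathlib
import Pool.Agent.Work.MP_4523ee_co.Fp.Char

/-!
Cubes annihilated by vector fields over the field with two elements: rank bound,
supersaturation, doubling, and a bounded fractional tiling.
-/

set_option autoImplicit false
set_option linter.unusedSectionVars false

namespace Pool.Agent.Work.MP_4523ee_co.F2

open Finset hiding dens
open Matrix Pool.Agent.Work.MP_4523ee_co.Fp
open scoped BigOperators

section rank
variable {μ κ : Type} [Fintype μ] [DecidableEq μ] [Fintype κ] [DecidableEq κ]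

lemma pv_one_add {t : ZMod 2} (h : t ≠ 0) : 1 + t = 0 := by
  revert t
  decide

lemma pv_add_self {α : Type} (x : α → ZMod 2) : x + x = 0 := by
  funext i
  exact CharTwo.add_self_eq_zero _

lemma pv_ind_congr {α β : Type} {A : Set α} {B : Set β} {x : α} {y : β} (h : x ∈ A ↔ y ∈ B) :
    ind A x = ind B y := by
  by_cases hx : x ∈ A
  · rw [ind_of_mem hx, ind_of_mem (h.1 hx)]
  · rw [ind_of_not hx, ind_of_not fun hy => hx (h.2 hy)]

/-- a set without mutual pairs is small -/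
lemma pv_rank (D : Finset (μ → ZMod 2)) (ψ : (μ → ZMod 2) → κ → μ → ZMod 2)
    (h : ∀ x ∈ D, ∀ y ∈ D, x ≠ y →
      ¬ ((∀ i, ψ x i ⬝ᵥ (x + y) = 0) ∧ ∀ i, ψ y i ⬝ᵥ (x + y) = 0)) :
    D.card ≤ (Fintype.card μ + 1) ^ (2 * Fintype.card κ) := by
  let a : (μ → ZMod 2) → (κ → Option μ) → ZMod 2 := fun x w =>
    ∏ i, (w i).elim (1 + ψ x i ⬝ᵥ x) (ψ x i)
  let b : (μ → ZMod 2) → (κ → Option μ) → ZMod 2 := fun y w => ∏ i, (w i).elim 1 y
  have hab : ∀ x y, ∑ w, a x w * b y w = ∏ i, (1 + ψ x i ⬝ᵥ (x + y)) := by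
    intro x y
    have e : ∀ i, 1 + ψ x i ⬝ᵥ (x + y) =
        ∑ o : Option μ, o.elim (1 + ψ x i ⬝ᵥ x) (ψ x i) * o.elim 1 y := by
      intro i
      rw [Fintype.sum_option, dotProduct_add]
      simp only [Option.elim, mul_one, dotProduct]
      ring
    simp_rw [e]
    rw [Finset.prod_univ_sum, Fintype.piFinset_univ]
    exact Finset.sum_congr rfl fun w _ => Finset.prod_mul_distrib.symm
  let P : Matrix D ((κ → Option μ) × (κ → Option μ)) (ZMod 2) :=
    Matrix.of fun x w => a x.1 w.1 * b x.1 w.2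
  let Q : Matrix ((κ → Option μ) × (κ → Option μ)) D (ZMod 2) :=
    Matrix.of fun w y => b y.1 w.1 * a y.1 w.2
  have hPQ : P * Q = 1 := by
    ext x y
    have e : (P * Q) x y = (∑ w, a x.1 w * b y.1 w) * ∑ w, a y.1 w * b x.1 w := by
      rw [Matrix.mul_apply, Fintype.sum_prod_type, Finset.sum_mul_sum]
      refine Finset.sum_congr rfl fun w _ => Finset.sum_congr rfl fun w' _ => ?_
      simp only [P, Q, Matrix.of_apply]
      ring
    rw [e, hab, hab]
    by_cases hxy : x = y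
    · subst hxy
      simp [pv_add_self]
    · rw [Matrix.one_apply_ne hxy]
      have h1 := h x.1 x.2 y.1 y.2 fun hh => hxy (Subtype.ext hh)
      rw [not_and_or, not_forall, not_forall] at h1
      rcases h1 with ⟨i, hi⟩ | ⟨i, hi⟩
      · rw [Finset.prod_eq_zero (Finset.mem_univ i) (pv_one_add hi), zero_mul]
      · rw [add_comm x.1] at hi
        rw [Finset.prod_eq_zero (f := fun i => 1 + ψ y.1 i ⬝ᵥ (y.1 + x.1)) (Finset.mem_univ i)
          (pv_one_add hi), mul_zero]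
  have h1 : (P * Q).rank ≤ P.rank := Matrix.rank_mul_le_left P Q
  have h2 := Matrix.rank_le_card_width P
  rw [hPQ, Matrix.rank_one, Fintype.card_coe] at h1
  rw [Fintype.card_prod, Fintype.card_fun, Fintype.card_option, ← pow_add, ← two_mul] at h2
  exact h1.trans h2

/-- many related pairs when independent sets are small -/
lemma pv_edges {T : Type} [Fintype T] [DecidableEq T] (N : Set T) (R : T → T → Prop)
    (hR : ∀ x y, R x y → R y x) (K : ℕ)
    (hK : ∀ I : Finset T, (∀ x ∈ I, ∀ y ∈ I, x ≠ y → ¬ R x y) → I.card ≤ K) :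
    ∑ x, ind N x - K ≤ ∑ x, ∑ y ∈ univ.erase x, ind {y | x ∈ N ∧ y ∈ N ∧ R x y} y := by
  classical
  let r : T → ℕ := fun x => (Fintype.equivFin T x).1
  have hr : Function.Injective r := Fin.val_injective.comp (Fintype.equivFin T).injective
  let I : Finset T := univ.filter fun x => x ∈ N ∧ ∀ y ∈ N, r y < r x → ¬ R x y
  have hI : I.card ≤ K := by
    refine hK I fun x hx y hy hxy hxy' => ?_
    obtain ⟨hx1, hx2⟩ := (Finset.mem_filter.1 hx).2
    obtain ⟨hy1, hy2⟩ := (Finset.mem_filter.1 hy).2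
    rcases lt_or_gt_of_ne (hr.ne hxy) with h | h
    · exact hy2 x hx1 h (hR _ _ hxy')
    · exact hx2 y hy1 h hxy'
  have h1 : ∀ x, ind N x - (if x ∈ I then 1 else 0) ≤
      ∑ y ∈ univ.erase x, ind {y | x ∈ N ∧ y ∈ N ∧ R x y} y := by
    intro x
    have h0 : 0 ≤ ∑ y ∈ univ.erase x, ind {y | x ∈ N ∧ y ∈ N ∧ R x y} y :=
      Finset.sum_nonneg fun _ _ => ind_nonneg _ _
    by_cases hx : x ∈ I
    · rw [if_pos hx]
      linarith [ind_le_one N x]
    rw [if_neg hx, sub_zero]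
    by_cases hN : x ∈ N
    · have h2 : ∃ y ∈ N, r y < r x ∧ R x y := by
        by_contra hc
        exact hx (Finset.mem_filter.2 ⟨Finset.mem_univ _, hN, fun y hy hl hh => hc ⟨y, hy, hl, hh⟩⟩)
      obtain ⟨y, hy, hl, hh⟩ := h2
      have h3 : ind {y | x ∈ N ∧ y ∈ N ∧ R x y} y = 1 := ind_of_mem ⟨hN, hy, hh⟩
      rw [ind_of_mem hN, ← h3]
      refine Finset.single_le_sum (f := fun y => ind {y | x ∈ N ∧ y ∈ N ∧ R x y} y)
        (fun _ _ => ind_nonneg _ _) (Finset.mem_erase.2 ⟨fun e => ?_, Finset.mem_univ _⟩)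
      rw [e] at hl
      exact lt_irrefl _ hl
    · rw [ind_of_not hN]
      exact h0
  have h2 := Finset.sum_le_sum fun x (_ : x ∈ univ) => h1 x
  rw [Finset.sum_sub_distrib, Finset.sum_ite_mem, Finset.univ_inter, Finset.sum_const,
    nsmul_eq_mul, mul_one] at h2
  have h3 : (I.card : ℝ) ≤ K := by exact_mod_cast hI
  linarith

end rank

section pairs
variable {ν : Type} [Fintype ν] [DecidableEq ν]

/-- the combination of the vectors `u t` with coefficients `δ t` -/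
def cb {μ : Type} [Fintype μ] (u : μ → ν → ZMod 2) (δ : μ → ZMod 2) : ν → ZMod 2 :=
  ∑ t, δ t • u t

lemma cb_add {μ : Type} [Fintype μ] (u : μ → ν → ZMod 2) (δ δ' : μ → ZMod 2) :
    cb u (δ + δ') = cb u δ + cb u δ' := by
  simp [cb, add_smul, Finset.sum_add_distrib]

lemma add_cb {μ : Type} [Fintype μ] (u u' : μ → ν → ZMod 2) (δ : μ → ZMod 2) :
    cb (u + u') δ = cb u δ + cb u' δ := by
  simp [cb, Finset.sum_add_distrib]

lemma dot_cb {μ : Type} [Fintype μ] (v : ν → ZMod 2) (u : μ → ν → ZMod 2) (δ : μ → ZMod 2) :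
    v ⬝ᵥ cb u δ = (fun t => v ⬝ᵥ u t) ⬝ᵥ δ := by
  rw [cb, dotProduct_sum]
  refine Finset.sum_congr rfl fun t _ => ?_
  rw [dotProduct_smul, smul_eq_mul, mul_comm]

lemma pv_shift {G : Type} [AddCommGroup G] [Fintype G] (g : G → ℝ) (a : G) :
    𝔼 x, g (x + a) = 𝔼 x, g x :=
  Fintype.expect_equiv (Equiv.addRight a) _ _ fun _ => rfl

lemma pv_unif {μ : Type} [Fintype μ] [DecidableEq μ] {b : μ → ZMod 2} (hb : b ≠ 0)
    (g : (ν → ZMod 2) → ℝ) : 𝔼 u : μ → ν → ZMod 2, g (cb u b) = 𝔼 x, g x := by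
  obtain ⟨t, ht⟩ := Function.ne_iff.1 hb
  have ht1 : b t = 1 := by
    have : ∀ s : ZMod 2, s ≠ 0 → s = 1 := by decide
    exact this _ ht
  have h1 : ∀ x, 𝔼 u : μ → ν → ZMod 2, g (cb u b) = 𝔼 u : μ → ν → ZMod 2, g (x + cb u b) := by
    intro x
    rw [← pv_shift (fun u : μ → ν → ZMod 2 => g (cb u b)) (Pi.single t x)]
    refine Finset.expect_congr rfl fun u _ => ?_
    have e : cb (Pi.single t x : μ → ν → ZMod 2) b = x := by
      rw [cb, Finset.sum_eq_single t (fun s _ hs => by simp [Pi.single_eq_of_ne hs]) (by simp)]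
      simp [ht1]
    rw [add_cb, e, add_comm]
  calc 𝔼 u : μ → ν → ZMod 2, g (cb u b)
      = 𝔼 x : ν → ZMod 2, 𝔼 u : μ → ν → ZMod 2, g (x + cb u b) := by
        rw [← Fintype.expect_const (ι := ν → ZMod 2) (𝔼 u : μ → ν → ZMod 2, g (cb u b))]
        exact Finset.expect_congr rfl fun x _ => h1 x
    _ = 𝔼 x, g x := by
        rw [Finset.expect_comm]
        simp_rw [pv_shift]
        exact Fintype.expect_const _

/-- the points `d` such that `d, d + x` is a mutual pair in `D` -/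
def Dx {κ : Type} (φ : (ν → ZMod 2) → κ → ν → ZMod 2) (D : Set (ν → ZMod 2))
    (x : ν → ZMod 2) : Set (ν → ZMod 2) :=
  {d | d ∈ D ∧ d + x ∈ D ∧ (∀ i, φ d i ⬝ᵥ x = 0) ∧ ∀ i, φ (d + x) i ⬝ᵥ x = 0}

lemma pv_count {κ : Type} [Fintype κ] [DecidableEq κ] (φ : (ν → ZMod 2) → κ → ν → ZMod 2)
    (D : Set (ν → ZMod 2)) (m : ℕ) :
    2 ^ m * dens D - ((m + 1 : ℝ)) ^ (2 * Fintype.card κ) ≤
      2 ^ m * 2 ^ m * 𝔼 x, dens (Dx φ D x) := by
  set q : ℝ := 𝔼 x, dens (Dx φ D x) with hq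
  have hq0 : 0 ≤ q := Finset.expect_nonneg fun _ _ => dens_nonneg _
  have h1 : ∀ (u : Fin m → ν → ZMod 2) (d : ν → ZMod 2),
      ∑ δ, ind D (d + cb u δ) - ((m + 1 : ℝ)) ^ (2 * Fintype.card κ) ≤
        ∑ δ, ∑ δ' ∈ univ.erase δ, ind (Dx φ D (cb u (δ + δ'))) (d + cb u δ) := by
    intro u d
    let ψ : (Fin m → ZMod 2) → κ → Fin m → ZMod 2 := fun δ i t => φ (d + cb u δ) i ⬝ᵥ u t
    have h := pv_edges {δ : Fin m → ZMod 2 | d + cb u δ ∈ D}
      (fun x y => (∀ i, ψ x i ⬝ᵥ (x + y) = 0) ∧ ∀ i, ψ y i ⬝ᵥ (x + y) = 0)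
      (fun x y hh => by rw [add_comm y]; exact hh.symm) _ (fun I hI => pv_rank I ψ hI)
    rw [Fintype.card_fin] at h
    push_cast at h
    refine h.trans (le_of_eq ?_)
    refine Finset.sum_congr rfl fun δ _ => Finset.sum_congr rfl fun δ' _ => ?_
    have e : d + cb u δ + cb u (δ + δ') = d + cb u δ' := by
      rw [add_assoc, ← cb_add, ← add_assoc, pv_add_self, zero_add]
    refine pv_ind_congr ?_
    simp only [Dx, Set.mem_ofPred_eq, e, dot_cb, ψ]
  have h2 : ∀ δ δ' : Fin m → ZMod 2, δ' ≠ δ →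
      𝔼 u : Fin m → ν → ZMod 2, 𝔼 d, ind (Dx φ D (cb u (δ + δ'))) (d + cb u δ) = q := by
    intro δ δ' hne
    have hb : δ + δ' ≠ 0 := fun h => hne (by
      rw [← zero_add δ', ← pv_add_self δ, add_assoc, h, add_zero])
    simp_rw [pv_shift]
    exact pv_unif hb fun x => dens (Dx φ D x)
  have h3 : 𝔼 u : Fin m → ν → ZMod 2, 𝔼 d, (∑ δ, ind D (d + cb u δ) -
      ((m + 1 : ℝ)) ^ (2 * Fintype.card κ)) ≤ 𝔼 u : Fin m → ν → ZMod 2, 𝔼 d,
        ∑ δ, ∑ δ' ∈ univ.erase δ, ind (Dx φ D (cb u (δ + δ'))) (d + cb u δ) :=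
    Finset.expect_le_expect fun u _ => Finset.expect_le_expect fun d _ => h1 u d
  simp_rw [Finset.expect_sub_distrib, Finset.expect_sum_comm, pv_shift, Fintype.expect_const] at h3
  have hc : (Fintype.card (Fin m → ZMod 2) : ℝ) = 2 ^ m := by simp
  rw [Finset.sum_const, Finset.card_univ, nsmul_eq_mul, hc] at h3
  refine h3.trans ?_
  have h4 : ∀ δ : Fin m → ZMod 2, ∑ δ' ∈ univ.erase δ,
      𝔼 u : Fin m → ν → ZMod 2, 𝔼 d, ind (Dx φ D (cb u (δ + δ'))) d ≤ 2 ^ m * q := by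
    intro δ
    have e : ∀ δ' ∈ univ.erase δ,
        𝔼 u : Fin m → ν → ZMod 2, 𝔼 d, ind (Dx φ D (cb u (δ + δ'))) d = q := by
      intro δ' hδ'
      have := h2 δ δ' (Finset.mem_erase.1 hδ').1
      simpa only [pv_shift] using this
    rw [Finset.sum_congr rfl e, ← hc]
    refine (Finset.sum_le_sum_of_subset_of_nonneg (Finset.subset_univ _)
      fun _ _ _ => hq0).trans ?_
    rw [Finset.sum_const, Finset.card_univ, nsmul_eq_mul]
  refine (Finset.sum_le_sum fun δ _ => h4 δ).trans ?_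
  rw [Finset.sum_const, Finset.card_univ, nsmul_eq_mul, hc, mul_assoc]

/-- supersaturation for mutual pairs -/
theorem pv_pairs (k : ℕ) {α : ℝ} (hα : 0 < α) : ∃ c : ℝ, 0 < c ∧
    ∀ (ν κ : Type) [Fintype ν] [DecidableEq ν] [Fintype κ] [DecidableEq κ], Fintype.card κ ≤ k →
      ∀ (φ : (ν → ZMod 2) → κ → ν → ZMod 2) (D : Set (ν → ZMod 2)), α ≤ dens D →
        c ≤ 𝔼 x, dens (Dx φ D x) := by
  have ht := tendsto_pow_const_div_const_pow_of_one_lt (2 * k) (r := 2) (by norm_num)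
  obtain ⟨n, hn⟩ := Filter.eventually_atTop.1
    (ht.eventually (gt_mem_nhds (show (0 : ℝ) < α / 4 by positivity)))
  have h1 := hn (n + 1) (Nat.le_succ n)
  rw [div_lt_iff₀ (by positivity), pow_succ 2 n] at h1
  push_cast at h1
  refine ⟨α / (2 * 2 ^ n), by positivity, fun ν κ _ _ _ _ hk φ D hD => ?_⟩
  have h2 := pv_count φ D n
  have h3 : ((n + 1 : ℝ)) ^ (2 * Fintype.card κ) ≤ ((n + 1 : ℝ)) ^ (2 * k) :=
    pow_le_pow_right₀ (by linarith [(Nat.cast_nonneg n : (0 : ℝ) ≤ n)]) (by omega)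
  have h4 : (0 : ℝ) < 2 ^ n := by positivity
  rw [div_le_iff₀ (by positivity)]
  have h5 : 2 ^ n * α ≤ 2 ^ n * dens D := mul_le_mul_of_nonneg_left hD h4.le
  refine le_of_mul_le_mul_left ?_ h4
  nlinarith

/-- the cube `d + span u` lies in `D` and its directions are killed by the fields on it -/
def Cube {κ μ : Type} [Fintype μ] (φ : (ν → ZMod 2) → κ → ν → ZMod 2) (D : Set (ν → ZMod 2))
    (u : μ → ν → ZMod 2) : Set (ν → ZMod 2) :=
  {d | ∀ δ, d + cb u δ ∈ D ∧ ∀ i t, φ (d + cb u δ) i ⬝ᵥ u t = 0}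

lemma pv_cons {κ : Type} {J : ℕ} (φ : (ν → ZMod 2) → κ → ν → ZMod 2) (D : Set (ν → ZMod 2))
    (x : ν → ZMod 2) (u : Fin J → ν → ZMod 2) :
    Cube (fun d => Sum.elim (φ d) (φ (d + x))) (Dx φ D x) u ⊆
      Cube φ D (Fin.cons x u : Fin (J + 1) → ν → ZMod 2) := by
  intro d hd δ
  obtain ⟨⟨h1, h2, h3, h4⟩, h5⟩ := hd fun t => δ t.succ
  have e : cb (Fin.cons x u : Fin (J + 1) → ν → ZMod 2) δ =
      cb u (fun t => δ t.succ) + δ 0 • x := by
    rw [cb, Fin.sum_univ_succ, add_comm]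
    rfl
  have h01 : ∀ s : ZMod 2, s = 0 ∨ s = 1 := by decide
  rw [e]
  rcases h01 (δ 0) with h | h
  · rw [h, zero_smul, add_zero]
    exact ⟨h1, fun i t => Fin.cases (h3 i) (fun t => h5 (Sum.inl i) t) t⟩
  · rw [h, one_smul, ← add_assoc]
    exact ⟨h2, fun i t => Fin.cases (h4 i) (fun t => h5 (Sum.inr i) t) t⟩

/-- supersaturation for cubes -/
theorem pv_cubes (J : ℕ) : ∀ (k : ℕ) (α : ℝ), 0 < α → ∃ c : ℝ, 0 < c ∧
    ∀ (ν κ : Type) [Fintype ν] [DecidableEq ν] [Fintype κ] [DecidableEq κ], Fintype.card κ ≤ k →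
      ∀ (φ : (ν → ZMod 2) → κ → ν → ZMod 2) (D : Set (ν → ZMod 2)), α ≤ dens D →
        c ≤ 𝔼 u : Fin J → ν → ZMod 2, dens (Cube φ D u) := by
  induction J with
  | zero =>
    intro k α hα
    refine ⟨α, hα, fun ν κ _ _ _ _ _ φ D hD => Finset.le_expect Finset.univ_nonempty
      fun u _ => hD.trans (dens_mono fun d hd δ => ⟨?_, fun _ t => t.elim0⟩)⟩
    simpa [cb] using hd
  | succ J ih =>
    intro k α hα
    obtain ⟨c1, hc1, h1⟩ := pv_pairs k hα
    obtain ⟨c2, hc2, h2⟩ := ih (k + k) (c1 / 2) (by positivity)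
    refine ⟨c2 * (c1 / 2), by positivity, fun ν κ _ _ _ _ hk φ D hD => ?_⟩
    have e : 𝔼 u : Fin (J + 1) → ν → ZMod 2, dens (Cube φ D u) =
        𝔼 x : ν → ZMod 2, 𝔼 u : Fin J → ν → ZMod 2,
          dens (Cube φ D (Fin.cons x u : Fin (J + 1) → ν → ZMod 2)) := by
      rw [← Finset.expect_product', Finset.univ_product_univ]
      exact (Fintype.expect_equiv (Fin.consEquiv fun _ => ν → ZMod 2) _ _ fun _ => rfl).symm
    have h3 : ∀ x : ν → ZMod 2, c2 * (dens (Dx φ D x) - c1 / 2) ≤ 𝔼 u : Fin J → ν → ZMod 2,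
        dens (Cube φ D (Fin.cons x u : Fin (J + 1) → ν → ZMod 2)) := by
      intro x
      by_cases hx : c1 / 2 ≤ dens (Dx φ D x)
      · have h4 := h2 ν (κ ⊕ κ) (by rw [Fintype.card_sum]; omega)
          (fun d => Sum.elim (φ d) (φ (d + x))) _ hx
        have h5 := dens_le_one (Dx φ D x)
        refine le_trans (by nlinarith) (h4.trans ?_)
        exact Finset.expect_le_expect fun u _ => dens_mono (pv_cons φ D x u)
      · refine le_trans (by nlinarith) (Finset.expect_nonneg fun _ _ => dens_nonneg _)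
    have h6 := Finset.expect_le_expect fun x (_ : x ∈ univ) => h3 x
    rw [← Finset.mul_expect, Finset.expect_sub_distrib, Fintype.expect_const] at h6
    have h7 := h1 ν κ hk φ D hD
    rw [e]
    nlinarith

end pairs

section tile
variable {G I Δ : Type} [AddCommGroup G] [Fintype G] [Fintype I] [Fintype Δ]

/-- marginal of a weight on the shapes `d + pt i` -/
noncomputable def mg (pt : I → Δ → G) (w : G → I → ℝ) (y : G) : ℝ :=
  𝔼 i, 𝔼 δ, w (y - pt i δ) i

lemma expect_mg [Nonempty Δ] (pt : I → Δ → G) (w : G → I → ℝ) :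
    𝔼 y, mg pt w y = 𝔼 i, 𝔼 d, w d i := by
  unfold mg
  rw [Finset.expect_comm]
  refine Finset.expect_congr rfl fun i _ => ?_
  rw [Finset.expect_comm]
  have e : ∀ δ, 𝔼 y, w (y - pt i δ) i = 𝔼 d, w d i := fun δ => by
    simp_rw [sub_eq_add_neg]
    exact pv_shift (fun d => w d i) _
  simp_rw [e]
  exact Fintype.expect_const _

/-- supersaturation gives a bounded fractional tiling -/
theorem TILE [Nonempty I] [Nonempty Δ] (pt : I → Δ → G) (Good : I → Set G) {ε c : ℝ} (hc : 0 < c)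
    (h : ∀ D : Set G, ε ≤ dens D → c ≤ 𝔼 i, dens {d | d ∈ Good i ∧ ∀ δ, d + pt i δ ∈ D}) :
    ∃ w : G → I → ℝ, (∀ d i, 0 ≤ w d i ∧ w d i ≤ 2 / c) ∧ (∀ d i, w d i ≠ 0 → d ∈ Good i) ∧
      (∀ y, mg pt w y ≤ 1) ∧ 1 - ε ≤ 𝔼 y, mg pt w y := by
  classical
  let K : Set (G → I → ℝ) := Set.Icc 0 (fun _ _ => 2 / c) ∩
    ({w | ∀ d i, d ∉ Good i → w d i = 0} ∩ {w | ∀ y, mg pt w y ≤ 1})
  have hcont : ∀ y, Continuous fun w : G → I → ℝ => mg pt w y := by
    intro y
    simp only [mg, Finset.expect_eq_sum_div_card]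
    fun_prop
  have hK : IsCompact K := by
    refine isCompact_Icc.inter_right (IsClosed.inter ?_ ?_)
    · simp only [Set.ofPred_forall]
      exact isClosed_iInter fun d => isClosed_iInter fun i => isClosed_iInter fun _ =>
        isClosed_eq (by fun_prop) continuous_const
    · simp only [Set.ofPred_forall]
      exact isClosed_iInter fun y => isClosed_le (hcont y) continuous_const
  have h0 : (0 : G → I → ℝ) ∈ K := by
    refine ⟨⟨le_rfl, fun _ _ => ?_⟩, fun _ _ _ => rfl, fun y => ?_⟩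
    · show (0 : ℝ) ≤ 2 / c
      positivity
    · simp [mg]
  obtain ⟨w, ⟨⟨hw0, hwC⟩, hwG, hw1⟩, hmax⟩ := hK.exists_isMaxOn ⟨0, h0⟩
    (f := fun w => ∑ d, ∑ i, w d i) (by fun_prop)
  refine ⟨w, fun d i => ⟨hw0 d i, hwC d i⟩, fun d i hne => by_contra fun hn => hne (hwG d i hn),
    hw1, ?_⟩
  let D : Set G := {y | mg pt w y < 1}
  have hm0 : ∀ y, 0 ≤ mg pt w y := fun y =>
    Finset.expect_nonneg fun _ _ => Finset.expect_nonneg fun _ _ => hw0 _ _
  have hD : dens D < ε := by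
    by_contra hD
    have h1 := h D (not_lt.1 hD)
    obtain ⟨y0, hy0⟩ := Finite.exists_min fun y => if mg pt w y < 1 then 1 - mg pt w y else 1
    set t0 : ℝ := if mg pt w y0 < 1 then 1 - mg pt w y0 else 1 with ht0
    have ht0p : 0 < t0 := by
      rw [ht0]
      split_ifs with hh
      · linarith
      · exact one_pos
    have hsat : ∀ i d, d ∈ Good i → (∀ δ, d + pt i δ ∈ D) → w d i = 2 / c := by
      intro i0 d0 hg hD0
      by_contra hne
      have hlt : w d0 i0 < 2 / c := lt_of_le_of_ne (hwC d0 i0) hne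
      set t : ℝ := min t0 (2 / c - w d0 i0) with ht
      have htp : 0 < t := lt_min ht0p (by linarith)
      let w' : G → I → ℝ := fun d i => w d i + if d = d0 ∧ i = i0 then t else 0
      have hge : ∀ d i, w d i ≤ w' d i := fun d i => by
        simp only [w']
        split_ifs <;> linarith
      have hw' : w' ∈ K := by
        refine ⟨⟨fun d i => (hw0 d i).trans (hge d i), fun d i => ?_⟩, fun d i hn => ?_,
          fun y => ?_⟩
        · simp only [w']
          split_ifs with hh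
          · rw [hh.1, hh.2]
            linarith [min_le_right t0 (2 / c - w d0 i0)]
          · rw [add_zero]
            exact hwC d i
        · simp only [w']
          rw [if_neg, add_zero, hwG d i hn]
          rintro ⟨rfl, rfl⟩
          exact hn hg
        · by_cases hy : mg pt w y < 1
          · have h2 : mg pt w' y ≤ mg pt w y + t := by
              rw [mg, mg, ← Fintype.expect_const (ι := I) t, ← Finset.expect_add_distrib]
              refine Finset.expect_le_expect fun i _ => ?_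
              rw [← Fintype.expect_const (ι := Δ) t, ← Finset.expect_add_distrib]
              refine Finset.expect_le_expect fun δ _ => ?_
              simp only [w']
              split_ifs <;> linarith
            have h3 := hy0 y
            rw [if_pos hy] at h3
            linarith [min_le_left t0 (2 / c - w d0 i0)]
          · refine le_trans (le_of_eq ?_) (hw1 y)
            refine Finset.expect_congr rfl fun i _ => Finset.expect_congr rfl fun δ _ => ?_
            simp only [w']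
            rw [if_neg, add_zero]
            rintro ⟨h4, rfl⟩
            have h5 := hD0 δ
            rw [← h4, sub_add_cancel] at h5
            exact hy h5
      have h6 : ∑ d, ∑ i, w' d i ≤ ∑ d, ∑ i, w d i := hmax hw'
      have h7 : ∑ d, ∑ i, w d i < ∑ d, ∑ i, w' d i := by
        refine Finset.sum_lt_sum (fun d _ => Finset.sum_le_sum fun i _ => hge d i)
          ⟨d0, Finset.mem_univ _, Finset.sum_lt_sum (fun i _ => hge d0 i)
            ⟨i0, Finset.mem_univ _, ?_⟩⟩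
        simp only [w', and_self, if_true]
        linarith
      linarith
    have h8 : 2 / c * 𝔼 i, dens {d | d ∈ Good i ∧ ∀ δ, d + pt i δ ∈ D} ≤ 𝔼 i, 𝔼 d, w d i := by
      rw [Finset.mul_expect]
      refine Finset.expect_le_expect fun i _ => ?_
      rw [dens, Finset.mul_expect]
      refine Finset.expect_le_expect fun d _ => ?_
      by_cases hd : d ∈ {d | d ∈ Good i ∧ ∀ δ, d + pt i δ ∈ D}
      · rw [ind_of_mem hd, mul_one, hsat i d hd.1 hd.2]
      · rw [ind_of_not hd, mul_zero]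
        exact hw0 d i
    have h9 : 𝔼 y, mg pt w y ≤ 1 := Finset.expect_le Finset.univ_nonempty fun y _ => hw1 y
    rw [expect_mg] at h9
    have h10 : 2 / c * c ≤ 2 / c * 𝔼 i, dens {d | d ∈ Good i ∧ ∀ δ, d + pt i δ ∈ D} :=
      mul_le_mul_of_nonneg_left h1 (by positivity)
    rw [div_mul_cancel₀ _ hc.ne'] at h10
    linarith
  have h11 : 𝔼 y, (1 - ind D y) ≤ 𝔼 y, mg pt w y := by
    refine Finset.expect_le_expect fun y _ => ?_
    by_cases hy : y ∈ D
    · rw [ind_of_mem hy, sub_self]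
      exact hm0 y
    · rw [ind_of_not hy, sub_zero]
      exact not_lt.1 hy
  rw [Finset.expect_sub_distrib, Fintype.expect_const] at h11
  unfold dens at hD
  linarith

end tile

section final

lemma pv_class {α ρ : Type} [Fintype α] [Fintype ρ] {r : ℕ} (hr : Fintype.card ρ ≤ r)
    (col : α → ρ) (D : Set α) {ε : ℝ} (hε : 0 < ε) (hD : ε ≤ dens D) :
    ∃ j, ε / (r + 1) ≤ dens (D ∩ {x | col x = j}) := by
  by_contra hc
  have hc' : ∀ j, dens (D ∩ {x | col x = j}) ≤ ε / (r + 1) := fun j =>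
    (not_le.1 fun h => hc ⟨j, h⟩).le
  have h1 := dens_le_sum (univ : Finset ρ) D (fun j => D ∩ {x | col x = j})
    fun x hx => ⟨col x, Finset.mem_univ _, hx, rfl⟩
  have h2 := Finset.sum_le_sum fun j (_ : j ∈ univ) => hc' j
  rw [Finset.sum_const, Finset.card_univ, nsmul_eq_mul] at h2
  have h3 : (Fintype.card ρ : ℝ) ≤ r := by exact_mod_cast hr
  have h4 : (Fintype.card ρ : ℝ) * (ε / (r + 1)) ≤ r * (ε / (r + 1)) :=
    mul_le_mul_of_nonneg_right h3 (by positivity)
  have h5 : (r : ℝ) * (ε / (r + 1)) < ε := by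
    rw [← mul_div_assoc, div_lt_iff₀ (by positivity)]
    nlinarith
  linarith

/-- supersaturation, matrix form, with a colouring -/
theorem PV_count (k r : ℕ) (ν' : Type) [Fintype ν'] [DecidableEq ν'] {ε : ℝ} (hε : 0 < ε) :
    ∃ c : ℝ, 0 < c ∧ ∀ (ν κ ρ : Type) [Fintype ν] [DecidableEq ν] [Fintype κ] [Fintype ρ],
      Fintype.card κ ≤ k → Fintype.card ρ ≤ r →
      ∀ (φ : (ν → ZMod 2) → κ → ν → ZMod 2) (col : (ν → ZMod 2) → ρ) (D : Set (ν → ZMod 2)),
        ε ≤ dens D → c ≤ 𝔼 U : Matrix ν ν' (ZMod 2),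
          dens {d | (∀ δ, col (d + U *ᵥ δ) = col d ∧ ∀ i, Uᵀ *ᵥ φ (d + U *ᵥ δ) i = 0) ∧
            ∀ δ, d + U *ᵥ δ ∈ D} := by
  classical
  obtain ⟨c, hc, h⟩ := pv_cubes (Fintype.card ν') k (ε / (r + 1)) (by positivity)
  refine ⟨c, hc, fun ν κ ρ _ _ _ _ hk hr φ col D hD => ?_⟩
  obtain ⟨j, hj⟩ := pv_class hr col D hε hD
  let e := Fintype.equivFin ν'
  let E : (Fin (Fintype.card ν') → ν → ZMod 2) ≃ Matrix ν ν' (ZMod 2) :=
    { toFun := fun u => Matrix.of fun i t => u (e t) i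
      invFun := fun U t i => U i (e.symm t)
      left_inv := fun u => by
        funext t i
        simp
      right_inv := fun U => by
        ext i t
        simp }
  refine (h ν κ hk φ _ hj).trans ?_
  rw [← Fintype.expect_equiv E _ _ fun _ => rfl]
  refine Finset.expect_le_expect fun u _ => dens_mono fun d hd => ?_
  have e1 : ∀ δ : ν' → ZMod 2, E u *ᵥ δ = cb u fun t => δ (e.symm t) := by
    intro δ
    funext i
    rw [cb, Finset.sum_apply, ← Equiv.sum_comp e]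
    simp only [E, Equiv.coe_fn_mk, Matrix.mulVec, dotProduct, Matrix.of_apply, Pi.smul_apply,
      smul_eq_mul, Equiv.symm_apply_apply]
    exact Finset.sum_congr rfl fun t _ => mul_comm _ _
  have e0 : col d = j := by
    have := (hd 0).1.2
    simpa [cb] using this
  refine ⟨fun δ => ⟨?_, fun i => ?_⟩, fun δ => ?_⟩
  · rw [e1, e0]
    exact (hd _).1.2
  · funext t
    rw [e1]
    have := (hd fun t => δ (e.symm t)).2 i (e t)
    rw [dotProduct_comm] at this
    exact this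
  · rw [e1]
    exact (hd _).1.1

/-- bounded, cube invariant fractional tiling by monochromatic cubes killed by the fields -/
theorem PV (k r : ℕ) (ν' : Type) [Fintype ν'] [DecidableEq ν'] {ε : ℝ} (hε : 0 < ε) :
    ∃ C : ℝ, ∀ (ν κ ρ : Type) [Fintype ν] [DecidableEq ν] [Fintype κ] [Fintype ρ],
      Fintype.card κ ≤ k → Fintype.card ρ ≤ r →
      ∀ (φ : (ν → ZMod 2) → κ → ν → ZMod 2) (col : (ν → ZMod 2) → ρ),
        ∃ w : (ν → ZMod 2) → Matrix ν ν' (ZMod 2) → ℝ, (∀ d U, 0 ≤ w d U ∧ w d U ≤ C) ∧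
          (∀ d U δ, w (d + U *ᵥ δ) U = w d U) ∧
          (∀ d U, w d U ≠ 0 → ∀ δ, col (d + U *ᵥ δ) = col d ∧ ∀ i, Uᵀ *ᵥ φ (d + U *ᵥ δ) i = 0) ∧
          (∀ d, 𝔼 U, w d U ≤ 1) ∧ 1 - ε ≤ 𝔼 d, 𝔼 U, w d U := by
  obtain ⟨c, hc, h⟩ := PV_count k r ν' hε
  refine ⟨2 / c, fun ν κ ρ _ _ _ _ hk hr φ col => ?_⟩
  obtain ⟨w, h1, h2, h3, h4⟩ := TILE (fun (U : Matrix ν ν' (ZMod 2)) δ => U *ᵥ δ)
    (fun U => {d | ∀ δ, col (d + U *ᵥ δ) = col d ∧ ∀ i, Uᵀ *ᵥ φ (d + U *ᵥ δ) i = 0}) hc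
    (h ν κ ρ hk hr φ col)
  refine ⟨fun d U => 𝔼 δ, w (d - U *ᵥ δ) U, fun d U => ⟨Finset.expect_nonneg fun _ _ => (h1 _ _).1,
    Finset.expect_le Finset.univ_nonempty fun _ _ => (h1 _ _).2⟩, fun d U δ => ?_,
    fun d U hne δ => ?_, h3, h4⟩
  · show 𝔼 δ', w (d + U *ᵥ δ - U *ᵥ δ') U = 𝔼 δ', w (d - U *ᵥ δ') U
    rw [← pv_shift (fun δ' => w (d + U *ᵥ δ - U *ᵥ δ') U) δ]
    refine Finset.expect_congr rfl fun δ' _ => ?_
    rw [Matrix.mulVec_add]
    congr 1
    abel
  · have h5 : ∃ δ0, w (d - U *ᵥ δ0) U ≠ 0 := by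
      by_contra hn
      exact hne (Finset.expect_eq_zero fun δ0 _ => by_contra fun hh => hn ⟨δ0, hh⟩)
    obtain ⟨δ0, h5⟩ := h5
    have h6 := h2 _ _ h5
    have e : ∀ δ, d - U *ᵥ δ0 + U *ᵥ (δ0 + δ) = d + U *ᵥ δ := fun δ => by
      rw [Matrix.mulVec_add]
      abel
    have h7 := h6 (δ0 + δ)
    have h8 := (h6 δ0).1
    rw [e] at h7
    rw [sub_add_cancel] at h8
    exact ⟨h7.1.trans h8.symm, h7.2⟩

/-- the diagonal moves on a cube along a tile -/
lemma diag_cj {ν ν' : Type} [Fintype ν] [DecidableEq ν] [Fintype ν'] [DecidableEq ν']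
    (U : Matrix ν ν' (ZMod 2)) (N : SymM 2 ν') : (cj U N).1.diag = U *ᵥ N.1.diag := by
  funext i
  have hs : ∀ s t, N.1 s t = N.1 t s := fun s t => by
    rw [← Matrix.transpose_apply N.1 t s, SymM_T]
  have h1 : (cj U N).1.diag i = ∑ s, ∑ t, U i s * N.1 s t * U i t := by
    show (U * N.1 * Uᵀ) i i = _
    simp only [Matrix.mul_apply, Matrix.transpose_apply, Finset.sum_mul]
    exact Finset.sum_comm
  have h2 : ∑ x ∈ (univ : Finset ν').offDiag, U i x.1 * N.1 x.1 x.2 * U i x.2 = 0 := by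
    refine Finset.sum_involution (fun x _ => x.swap) (fun x _ => ?_) (fun x hx _ hh => ?_)
      (fun x hx => ?_) fun x _ => rfl
    · simp only [Prod.fst_swap, Prod.snd_swap]
      rw [hs x.2 x.1, mul_right_comm (U i x.2), mul_comm (U i x.2), mul_right_comm]
      exact CharTwo.add_self_eq_zero _
    · exact (Finset.mem_offDiag.1 hx).2.2 (congrArg Prod.snd hh)
    · simpa using fun hh => (Finset.mem_offDiag.1 hx).2.2 hh.symm
  rw [h1, ← Finset.sum_product', ← Finset.diag_union_offDiag,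
    Finset.sum_union (Finset.disjoint_diag_offDiag _), h2, add_zero, Finset.sum_diag]
  refine Finset.sum_congr rfl fun s _ => ?_
  have hq : ∀ a b : ZMod 2, a * b * a = a * b := by decide
  exact hq _ _

end final

end Pool.Agent.Work.MP_4523ee_co.F2
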