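import Mathlib
import Pool.Agent.Work.MP_4523ee_co.F2.MoI

/-!
Poisson tile: from void probabilities to the moments of the weight.
-/

set_option autoImplicit false
set_option linter.unusedSectionVars false

namespace Pool.Agent.Work.MP_4523ee_co.F2.Mo

open Finset Matrix Pool.Agent.Work.MP_4523ee_co.Fp Pool.Agent.Work.MP_4523ee_co.Fp.Po
open scoped BigOperators ComplexConjugate

/-- coefficients below `j` are small -/
lemma EXT_aux (L : ℝ) (hL : 0 < L) (j : ℕ) : ∀ η : ℝ, 0 < η → ∃ γ : ℝ, 0 < γ ∧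
    ∀ (W : Type) [Fintype W] (m : W → ℝ) (H : W → ℕ), ∑ w, |m w| ≤ L →
    (∀ x : ℝ, 0 ≤ x → x ≤ 1 → |∑ w, m w * x ^ H w| ≤ γ) →
    ∀ i, i < j → |∑ w, if H w = i then m w else 0| ≤ η := by
  induction j with
  | zero => exact fun η _ => ⟨1, one_pos, fun _ _ _ _ _ _ i hi => absurd hi (Nat.not_lt_zero i)⟩
  | succ j ih =>
    intro η hη
    obtain ⟨s, hs0, hs1, hsL⟩ : ∃ s : ℝ, 0 < s ∧ s ≤ 1 ∧ L * s ≤ η / 2 := by
      refine ⟨min 1 (η / (2 * L)), lt_min one_pos (by positivity), min_le_left _ _, ?_⟩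
      calc L * min 1 (η / (2 * L)) ≤ L * (η / (2 * L)) :=
            mul_le_mul_of_nonneg_left (min_le_right _ _) hL.le
        _ = η / 2 := by field_simp
    have hsj : 0 < s ^ j := pow_pos hs0 j
    obtain ⟨η₁, h10, h11, h12⟩ : ∃ η₁ : ℝ, 0 < η₁ ∧ η₁ ≤ η ∧ (j : ℝ) * η₁ ≤ η * s ^ j / 4 := by
      refine ⟨min η (η * s ^ j / (4 * (j + 1))), lt_min hη (by positivity), min_le_left _ _, ?_⟩
      calc (j : ℝ) * min η (η * s ^ j / (4 * (j + 1)))
          ≤ ((j : ℝ) + 1) * (η * s ^ j / (4 * (j + 1))) :=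
            mul_le_mul (by linarith) (min_le_right _ _)
              (le_min hη.le (by positivity)) (by positivity)
        _ = η * s ^ j / 4 := by field_simp
    obtain ⟨γ₁, hγ₁, H1⟩ := ih η₁ h10
    refine ⟨min γ₁ (η * s ^ j / 4), lt_min hγ₁ (by positivity), ?_⟩
    intro W _ m H hm hx i hi
    have H2 := H1 W m H hm (fun x a b => (hx x a b).trans (min_le_left _ _))
    rcases Nat.lt_succ_iff_lt_or_eq.mp hi with hi | rfl
    · exact (H2 i hi).trans h11
    have hT := (hx s hs0.le hs1).trans (min_le_right _ _)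
    have hid : ∀ w, m w * s ^ H w =
        ∑ k ∈ range i, (if H w = k then m w else 0) * s ^ k +
          (if H w = i then m w else 0) * s ^ i + (if i < H w then m w * s ^ H w else 0) := by
      intro w
      simp only [ite_mul, zero_mul, Finset.sum_ite_eq, Finset.mem_range]
      rcases lt_trichotomy (H w) i with h | h | h
      · simp [h, h.ne, h.not_gt]
      · simp [h]
      · simp [h, h.ne', h.not_gt]
    have hsum : ∑ w, m w * s ^ H w =
        ∑ k ∈ range i, (∑ w, if H w = k then m w else 0) * s ^ k +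
          (∑ w, if H w = i then m w else 0) * s ^ i +
          ∑ w, (if i < H w then m w * s ^ H w else 0) := by
      rw [Finset.sum_congr rfl (fun w _ => hid w), Finset.sum_add_distrib, Finset.sum_add_distrib,
        Finset.sum_comm, Finset.sum_mul]
      simp only [Finset.sum_mul]
    have hA : |∑ k ∈ range i, (∑ w, if H w = k then m w else 0) * s ^ k| ≤ i * η₁ := by
      refine (Finset.abs_sum_le_sum_abs _ _).trans ?_
      calc ∑ k ∈ range i, |(∑ w, if H w = k then m w else 0) * s ^ k|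
          ≤ ∑ _k ∈ range i, η₁ := by
            refine Finset.sum_le_sum fun k hk => ?_
            rw [abs_mul, abs_of_nonneg (pow_nonneg hs0.le k)]
            calc _ ≤ η₁ * 1 := mul_le_mul (H2 k (Finset.mem_range.mp hk))
                  (pow_le_one₀ hs0.le hs1) (pow_nonneg hs0.le k) h10.le
              _ = η₁ := mul_one _
        _ = i * η₁ := by simp
    have hR : |∑ w, (if i < H w then m w * s ^ H w else 0)| ≤ L * s * s ^ i := by
      refine (Finset.abs_sum_le_sum_abs _ _).trans ?_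
      calc ∑ w, |(if i < H w then m w * s ^ H w else 0)| ≤ ∑ w, |m w| * (s * s ^ i) := by
            refine Finset.sum_le_sum fun w _ => ?_
            split_ifs with h
            · rw [abs_mul, abs_of_nonneg (pow_nonneg hs0.le _), ← pow_succ']
              exact mul_le_mul_of_nonneg_left (pow_le_pow_of_le_one hs0.le hs1 h) (abs_nonneg _)
            · rw [abs_zero]; positivity
        _ = (∑ w, |m w|) * (s * s ^ i) := by rw [Finset.sum_mul]
        _ ≤ L * (s * s ^ i) := mul_le_mul_of_nonneg_right hm (by positivity)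
        _ = L * s * s ^ i := by ring
    have hLs : L * s * s ^ i ≤ η / 2 * s ^ i := mul_le_mul_of_nonneg_right hsL hsj.le
    have hc : |(∑ w, if H w = i then m w else 0) * s ^ i| ≤ η * s ^ i := by
      rw [hsum] at hT
      rw [abs_le] at hT hA hR ⊢
      constructor <;> linarith [hT.1, hT.2, hA.1, hA.2, hR.1, hR.2]
    rw [abs_mul, abs_of_pos hsj] at hc
    exact le_of_mul_le_mul_right hc hsj

/-- coefficient extraction -/
theorem EXT (K : ℕ) (L ε : ℝ) (hL : 0 < L) (hε : 0 < ε) : ∃ γ : ℝ, 0 < γ ∧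
    ∀ (W : Type) [Fintype W] (m : W → ℝ) (H : W → ℕ), ∑ w, |m w| ≤ L →
    (∀ x : ℝ, 0 ≤ x → x ≤ 1 → |∑ w, m w * x ^ H w| ≤ γ) →
    ∀ φ : ℕ → ℝ, (∀ k, |φ k| ≤ L) → (∀ k, K < k → φ k = 0) → |∑ w, m w * φ (H w)| ≤ ε := by
  have hK : (0 : ℝ) < (K + 1 : ℝ) * L := by positivity
  obtain ⟨γ, hγ, H1⟩ := EXT_aux L hL (K + 1) (ε / ((K + 1 : ℝ) * L)) (by positivity)
  refine ⟨γ, hγ, ?_⟩
  intro W _ m H hm hx φ hφ hφ0
  have H2 := H1 W m H hm hx
  have hid : ∀ w, m w * φ (H w) = ∑ k ∈ range (K + 1), φ k * (if H w = k then m w else 0) := by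
    intro w
    simp only [mul_ite, mul_zero, Finset.sum_ite_eq, Finset.mem_range]
    split_ifs with h
    · ring
    · rw [hφ0 _ (by omega), mul_zero]
  rw [Finset.sum_congr rfl (fun w _ => hid w), Finset.sum_comm]
  refine (Finset.abs_sum_le_sum_abs _ _).trans ?_
  calc ∑ k ∈ range (K + 1), |∑ w, φ k * (if H w = k then m w else 0)|
      ≤ ∑ _k ∈ range (K + 1), L * (ε / ((K + 1 : ℝ) * L)) := by
        refine Finset.sum_le_sum fun k hk => ?_
        rw [← Finset.mul_sum, abs_mul]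
        exact mul_le_mul (hφ k) (H2 k (Finset.mem_range.mp hk)) (abs_nonneg _) hL.le
    _ = ε := by
        simp only [Finset.sum_const, Finset.card_range, nsmul_eq_mul]
        push_cast
        field_simp

/-- two-variable coefficient extraction -/
lemma EXT2 (K : ℕ) (L ε : ℝ) (hL : 0 < L) (hε : 0 < ε) : ∃ γ : ℝ, 0 < γ ∧
    ∀ (W : Type) [Fintype W] (m : W → ℝ) (H H' : W → ℕ), ∑ w, |m w| ≤ 2 →
    (∀ x x' : ℝ, 0 ≤ x → x ≤ 1 → 0 ≤ x' → x' ≤ 1 → |∑ w, m w * (x ^ H w * x' ^ H' w)| ≤ γ) →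
    ∀ φ φ' : ℕ → ℝ, (∀ k, |φ k| ≤ L) → (∀ k, K < k → φ k = 0) →
    (∀ k, |φ' k| ≤ L) → (∀ k, K < k → φ' k = 0) →
    |∑ w, m w * (φ (H w) * φ' (H' w))| ≤ ε := by
  have hL1 : 0 < 2 + 2 * L := by positivity
  obtain ⟨γ₂, hγ₂, H2⟩ := EXT K (2 + 2 * L) ε hL1 hε
  obtain ⟨γ₁, hγ₁, H1⟩ := EXT K (2 + 2 * L) γ₂ hL1 hγ₂
  refine ⟨γ₁, hγ₁, ?_⟩
  intro W _ m H H' hm hx φ φ' hφ hφ0 hφ' hφ0'
  have e1 : ∑ w, m w * (φ (H w) * φ' (H' w)) = ∑ w, (m w * φ (H w)) * φ' (H' w) :=
    Finset.sum_congr rfl fun w _ => by ring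
  rw [e1]
  refine H2 W (fun w => m w * φ (H w)) H' ?_ ?_ φ' (fun k => (hφ' k).trans (by linarith)) hφ0'
  · calc ∑ w, |m w * φ (H w)| ≤ ∑ w, |m w| * L := by
          refine Finset.sum_le_sum fun w _ => ?_
          rw [abs_mul]
          exact mul_le_mul_of_nonneg_left (hφ _) (abs_nonneg _)
      _ = (∑ w, |m w|) * L := by rw [Finset.sum_mul]
      _ ≤ 2 * L := mul_le_mul_of_nonneg_right hm hL.le
      _ ≤ 2 + 2 * L := by linarith
  · intro x' h0' h1'
    have e2 : ∑ w, m w * φ (H w) * x' ^ H' w = ∑ w, (m w * x' ^ H' w) * φ (H w) :=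
      Finset.sum_congr rfl fun w _ => by ring
    rw [e2]
    refine H1 W (fun w => m w * x' ^ H' w) H ?_ ?_ φ (fun k => (hφ k).trans (by linarith)) hφ0
    · calc ∑ w, |m w * x' ^ H' w| ≤ ∑ w, |m w| := by
            refine Finset.sum_le_sum fun w _ => ?_
            rw [abs_mul, abs_of_nonneg (pow_nonneg h0' _)]
            exact mul_le_of_le_one_right (abs_nonneg _) (pow_le_one₀ h0' h1')
        _ ≤ 2 := hm
        _ ≤ 2 + 2 * L := by linarith
    · intro x h0 h1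
      have e3 : ∑ w, m w * x' ^ H' w * x ^ H w = ∑ w, m w * (x ^ H w * x' ^ H' w) :=
        Finset.sum_congr rfl fun w _ => by ring
      rw [e3]
      exact hx x x' h0 h1 h0' h1'

section
variable {α : Type} [DecidableEq α]

/-- weight of a subset in the independent model -/
noncomputable def bw (π : ℝ) (Ω B : Finset α) : ℝ := π ^ #B * (1 - π) ^ #(Ω \ B)

lemma bw_prod (π : ℝ) (Ω : Finset α) (a : α → ℝ) :
    ∑ B ∈ Ω.powerset, bw π Ω B * ∏ ω ∈ B, a ω = ∏ ω ∈ Ω, (1 + π * (a ω - 1)) := by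
  have e : ∀ ω ∈ Ω, 1 + π * (a ω - 1) = π * a ω + (1 - π) := fun ω _ => by ring
  rw [Finset.prod_congr rfl e, Finset.prod_add]
  refine Finset.sum_congr rfl fun B _ => ?_
  rw [Finset.prod_mul_distrib, Finset.prod_const, Finset.prod_const, bw]
  ring

lemma bw_nonneg {π : ℝ} (h0 : 0 ≤ π) (h1 : π ≤ 1) (Ω B : Finset α) : 0 ≤ bw π Ω B :=
  mul_nonneg (pow_nonneg h0 _) (pow_nonneg (by linarith) _)

lemma bw_sum (π : ℝ) (Ω : Finset α) : ∑ B ∈ Ω.powerset, bw π Ω B = 1 := by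
  have := bw_prod π Ω (fun _ => 1)
  simpa using this

open Classical in
/-- thinning -/
lemma GEN {W : Type} [Fintype W] [Nonempty W] (h : α → W → Prop) (Ω : Finset α) {q γ : ℝ}
    (hv : ∀ C ⊆ Ω, |Fp.dens {m | ∀ ω ∈ C, ¬ h ω m} - Real.exp (-(q * #C))| ≤ γ)
    (a : α → ℝ) (h0 : ∀ ω, 0 ≤ a ω) (h1 : ∀ ω, a ω ≤ 1) :
    |𝔼 m, ∏ ω ∈ Ω with h ω m, a ω -
      ∑ B ∈ Ω.powerset, bw (1 - Real.exp (-q)) Ω B * ∏ ω ∈ B, a ω| ≤ γ := by
  set wt : Finset α → ℝ := fun C => (∏ ω ∈ C, (1 - a ω)) * ∏ ω ∈ Ω \ C, a ω with hwt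
  have hw0 : ∀ C, 0 ≤ wt C := fun C =>
    mul_nonneg (Finset.prod_nonneg fun ω _ => by linarith [h1 ω]) (Finset.prod_nonneg fun ω _ => h0 ω)
  have hw1 : ∑ C ∈ Ω.powerset, wt C = 1 := by
    rw [hwt, ← Finset.prod_add]
    simp
  have e1 : ∀ m : W, ∏ ω ∈ Ω with h ω m, a ω =
      ∑ C ∈ Ω.powerset, wt C * Fp.ind {m | ∀ ω ∈ C, ¬ h ω m} m := by
    intro m
    have e : ∀ ω ∈ Ω, (if h ω m then a ω else 1) =
        (1 - a ω) * (if h ω m then 0 else 1) + a ω := fun ω _ => by split_ifs <;> ring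
    rw [Finset.prod_filter, Finset.prod_congr rfl e, Finset.prod_add]
    refine Finset.sum_congr rfl fun C _ => ?_
    have e' : ∏ ω ∈ C, (if h ω m then (0 : ℝ) else 1) = Fp.ind {m | ∀ ω ∈ C, ¬ h ω m} m := by
      unfold Fp.ind
      by_cases hC : ∀ ω ∈ C, ¬ h ω m
      · rw [if_pos (by exact hC)]
        exact Finset.prod_eq_one fun ω hω => if_neg (hC ω hω)
      · rw [if_neg (by exact hC)]
        push Not at hC
        obtain ⟨ω, hω, hh⟩ := hC
        exact Finset.prod_eq_zero hω (if_pos hh)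
    rw [Finset.prod_mul_distrib, e', hwt]
    ring
  have e2 : ∑ B ∈ Ω.powerset, bw (1 - Real.exp (-q)) Ω B * ∏ ω ∈ B, a ω =
      ∑ C ∈ Ω.powerset, wt C * Real.exp (-(q * #C)) := by
    have e : ∀ ω ∈ Ω, 1 + (1 - Real.exp (-q)) * (a ω - 1) =
        (1 - a ω) * Real.exp (-q) + a ω := fun ω _ => by ring
    rw [bw_prod, Finset.prod_congr rfl e, Finset.prod_add]
    refine Finset.sum_congr rfl fun C _ => ?_
    rw [Finset.prod_mul_distrib, Finset.prod_const, ← Real.exp_nat_mul, hwt]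
    have : (#C : ℝ) * -q = -(q * #C) := by ring
    rw [this]
    ring
  have e3 : 𝔼 m, ∏ ω ∈ Ω with h ω m, a ω =
      ∑ C ∈ Ω.powerset, wt C * Fp.dens {m | ∀ ω ∈ C, ¬ h ω m} := by
    simp only [e1]
    rw [Finset.expect_sum_comm]
    refine Finset.sum_congr rfl fun C _ => ?_
    rw [Fp.dens, Finset.mul_expect]
  rw [e2, e3, ← Finset.sum_sub_distrib]
  refine (Finset.abs_sum_le_sum_abs _ _).trans ?_
  calc ∑ C ∈ Ω.powerset, |wt C * Fp.dens {m | ∀ ω ∈ C, ¬ h ω m} - wt C * Real.exp (-(q * #C))|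
      ≤ ∑ C ∈ Ω.powerset, wt C * γ := by
        refine Finset.sum_le_sum fun C hC => ?_
        rw [← mul_sub, abs_mul, abs_of_nonneg (hw0 C)]
        exact mul_le_mul_of_nonneg_left (hv C (Finset.mem_powerset.mp hC)) (hw0 C)
    _ = γ := by rw [← Finset.sum_mul, hw1, one_mul]

open Classical in
lemma prod_three (B V A A' : Finset α) (x x' : ℝ) :
    ∏ ω ∈ B, ((if ω ∈ V then (0 : ℝ) else 1) * ((if ω ∈ A then x else 1) * (if ω ∈ A' then x' else 1))) =
      (if Disjoint B V then 1 else 0) * (x ^ #(B ∩ A) * x' ^ #(B ∩ A')) := by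
  have e : ∀ (C : Finset α) (y : ℝ), ∏ ω ∈ B, (if ω ∈ C then y else 1) = y ^ #(B ∩ C) :=
    fun C y => by rw [Finset.prod_ite_mem, Finset.prod_const]
  rw [Finset.prod_mul_distrib, Finset.prod_mul_distrib, e A x, e A' x']
  congr 1
  split_ifs with hd
  · exact Finset.prod_eq_one fun ω hω => if_neg (Finset.disjoint_left.mp hd hω)
  · rw [Finset.not_disjoint_iff] at hd
    obtain ⟨ω, hω, hV⟩ := hd
    exact Finset.prod_eq_zero hω (if_pos hV)

/-- signed sum over the two models -/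
lemma two_sum {W : Type} [Fintype W] (S : W → Finset α) (π : ℝ) (Ω : Finset α)
    (F : Finset α → ℝ) :
    ∑ z : W ⊕ {B // B ∈ Ω.powerset},
      Sum.elim (fun _ => ((Fintype.card W : ℝ))⁻¹) (fun B => - bw π Ω B.1) z *
        F (Sum.elim S (fun B => B.1) z) =
      𝔼 m, F (S m) - ∑ B ∈ Ω.powerset, bw π Ω B * F B := by
  rw [Fintype.sum_sum_type]
  simp only [Sum.elim_inl, Sum.elim_inr]
  rw [Finset.sum_coe_sort Ω.powerset (fun B => - bw π Ω B * F B), ← Finset.mul_sum,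
    Finset.expect_eq_sum_div_card, Finset.card_univ, sub_eq_add_neg, ← Finset.sum_neg_distrib]
  congr 1
  · rw [div_eq_inv_mul]
  · exact Finset.sum_congr rfl fun B _ => by ring

end

open Classical in
/-- transfer to the independent model -/
theorem TRF (K : ℕ) (L ε : ℝ) (hL : 0 < L) (hε : 0 < ε) : ∃ γ : ℝ, 0 < γ ∧
    ∀ (α W : Type) [DecidableEq α] [Fintype W] [Nonempty W] (h : α → W → Prop) (Ω : Finset α)
    (q : ℝ), 0 ≤ q →
    (∀ C ⊆ Ω, |Fp.dens {m | ∀ ω ∈ C, ¬ h ω m} - Real.exp (-(q * #C))| ≤ γ) →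
    ∀ (V A A' : Finset α) (φ φ' : ℕ → ℝ), (∀ k, |φ k| ≤ L) → (∀ k, K < k → φ k = 0) →
    (∀ k, |φ' k| ≤ L) → (∀ k, K < k → φ' k = 0) →
    |𝔼 m, (if Disjoint (Ω.filter fun ω => h ω m) V then
        φ #((Ω.filter fun ω => h ω m) ∩ A) * φ' #((Ω.filter fun ω => h ω m) ∩ A') else 0) -
      ∑ B ∈ Ω.powerset, bw (1 - Real.exp (-q)) Ω B *
        (if Disjoint B V then φ #(B ∩ A) * φ' #(B ∩ A') else 0)| ≤ ε := by
  obtain ⟨γ, hγ, H1⟩ := EXT2 K L ε hL hε
  refine ⟨γ, hγ, ?_⟩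
  intro α W _ _ _ h Ω q hq hv V A A' φ φ' hφ hφ0 hφ' hφ0'
  have hp0 : 0 ≤ 1 - Real.exp (-q) := by
    have := Real.exp_le_one_iff.mpr (neg_nonpos.mpr hq)
    linarith
  have hp1 : 1 - Real.exp (-q) ≤ 1 := by linarith [Real.exp_pos (-q)]
  set S : W → Finset α := fun m => Ω.filter fun ω => h ω m with hS
  set wt : W ⊕ {B // B ∈ Ω.powerset} → ℝ :=
    Sum.elim (fun _ => ((Fintype.card W : ℝ))⁻¹) (fun B => - bw (1 - Real.exp (-q)) Ω B.1) with hwt
  set T : W ⊕ {B // B ∈ Ω.powerset} → Finset α := Sum.elim S (fun B => B.1) with hT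
  have key := H1 (W ⊕ {B // B ∈ Ω.powerset})
    (fun z => wt z * (if Disjoint (T z) V then 1 else 0))
    (fun z => #(T z ∩ A)) (fun z => #(T z ∩ A')) ?_ ?_ φ φ' hφ hφ0 hφ' hφ0'
  · have e := two_sum S (1 - Real.exp (-q)) Ω
      (fun B => if Disjoint B V then φ #(B ∩ A) * φ' #(B ∩ A') else 0)
    rw [← e]
    refine le_of_eq_of_le ?_ key
    congr 1
    refine Finset.sum_congr rfl fun z _ => ?_
    split_ifs <;> ring
  · calc ∑ z, |wt z * (if Disjoint (T z) V then (1 : ℝ) else 0)| ≤ ∑ z, |wt z| := by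
          refine Finset.sum_le_sum fun z _ => ?_
          split_ifs <;> simp
      _ = 2 := by
          rw [Fintype.sum_sum_type]
          simp only [hwt, Sum.elim_inl, Sum.elim_inr, abs_neg]
          rw [Finset.sum_coe_sort Ω.powerset (fun B => |bw (1 - Real.exp (-q)) Ω B|),
            Finset.sum_congr rfl (fun B _ => abs_of_nonneg (bw_nonneg hp0 hp1 Ω B)), bw_sum]
          have hc : (0 : ℝ) < Fintype.card W := by exact_mod_cast Fintype.card_pos
          rw [Finset.sum_const, Finset.card_univ, nsmul_eq_mul, abs_of_pos (inv_pos.mpr hc),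
            mul_inv_cancel₀ hc.ne']
          norm_num
      _ ≤ 2 := le_rfl
  · intro x x' h0 h1 h0' h1'
    have hg := GEN h Ω hv
      (fun ω => (if ω ∈ V then (0 : ℝ) else 1) * ((if ω ∈ A then x else 1) * (if ω ∈ A' then x' else 1)))
      (fun ω => by split_ifs <;> positivity)
      (fun ω => by
        split_ifs <;> simp only [zero_mul, one_mul, mul_one, zero_le_one, le_refl, h1, h1']
        exact mul_le_one₀ h1 h0' h1')
    simp only [prod_three] at hg
    have e := two_sum S (1 - Real.exp (-q)) Ω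
      (fun B => (if Disjoint B V then 1 else 0) * (x ^ #(B ∩ A) * x' ^ #(B ∩ A')))
    rw [← e] at hg
    refine le_of_eq_of_le ?_ hg
    congr 1
    refine Finset.sum_congr rfl fun z _ => ?_
    ring

end Pool.Agent.Work.MP_4523ee_co.F2.Mo
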